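import Mathlib
import Pool.Agent.Lib.Brouwer.Basic
import Pool.Agent.P.MP_e3ee0c_gt.WIF
import Pool.Agent.Lib.Flow.Tools
import Pool.Agent.P.MP_e3ee0c_gt.WRet

-- part Pool.Agent.P.MP_e3ee0c_gt.WBar
section

/-! The shifted logarithmic barrier. -/

open Set Filter Topology
open scoped ContDiff

namespace Pool.Agent.Wein

structure Bar (d t₁ c : ℝ) where
  a : ℝ
  apos : 0 < a
  ale : a ≤ d
  m : ℝ → ℝ
  g : ℝ → ℝ
  ms : ContDiff ℝ ∞ m
  gs : ContDiffOn ℝ ∞ g (Iio (d + a))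
  md : ∀ t, 0 ≤ deriv m t ∧ deriv m t ≤ 1
  mono : Monotone m
  m_low : ∀ t ≤ t₁, m t = t
  m_le : ∀ t, m t ≤ t
  m_high : ∀ t, d ≤ t → m t = t - a
  m_lt : ∀ t < d + a, m t < d
  gd : ∀ t < d + a, HasDerivAt g (1 / (d - m t)) t
  g_low : ∀ t ≤ t₁, g t = -Real.log (d - t)
  g_le : ∀ t < d + a, g t ≤ -Real.log (d - m t) + c
  g_le' : ∀ t < d, g t ≤ -Real.log (d - t)
  g_ge : ∀ t, 0 ≤ t → t < d + a → -Real.log d + t / d ≤ g t
  g_lip : ∀ t t', t ≤ d + a / 2 → t' ≤ d + a / 2 → g t' - g t ≤ 2 / a * |t' - t|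

lemma exists_cut (t₁ t₂ : ℝ) (h : t₁ < t₂) : ∃ (ζ : ℝ → ℝ) (L : ℝ), ContDiff ℝ ∞ ζ ∧ 0 < L ∧
    (∀ t, 0 ≤ ζ t ∧ ζ t ≤ 1) ∧ (∀ t ≤ t₁, ζ t = 0) ∧ (∀ t, t₂ ≤ t → ζ t = 1) ∧
    (∀ t, 0 ≤ deriv ζ t ∧ deriv ζ t ≤ L) ∧ (∀ t ≤ t₁, deriv ζ t = 0) ∧
    ∀ t, t₂ ≤ t → deriv ζ t = 0 := by
  have hp : 0 < t₂ - t₁ := sub_pos.mpr h
  set ζ : ℝ → ℝ := fun t => Real.smoothTransition ((t - t₁) / (t₂ - t₁)) with hζ
  have hs : ContDiff ℝ ∞ ζ :=
    Real.smoothTransition.contDiff.comp ((contDiff_id.sub contDiff_const).div_const _)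
  have h01 : ∀ t, 0 ≤ ζ t ∧ ζ t ≤ 1 := fun t =>
    ⟨Real.smoothTransition.nonneg _, Real.smoothTransition.le_one _⟩
  have h0 : ∀ t ≤ t₁, ζ t = 0 := fun t ht =>
    Real.smoothTransition.zero_of_nonpos (div_nonpos_of_nonpos_of_nonneg (by linarith) hp.le)
  have h1 : ∀ t, t₂ ≤ t → ζ t = 1 := fun t ht =>
    Real.smoothTransition.one_of_one_le (by rw [le_div_iff₀ hp]; linarith)
  have hm : Monotone ζ := fun a b hab =>
    Real.smoothTransition.monotone (by gcongr)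
  have d0 : ∀ t ≤ t₁, deriv ζ t = 0 := fun t ht =>
    IsLocalMin.deriv_eq_zero (Eventually.of_forall fun y => by rw [h0 t ht]; exact (h01 y).1)
  have d1 : ∀ t, t₂ ≤ t → deriv ζ t = 0 := fun t ht =>
    IsLocalMax.deriv_eq_zero (Eventually.of_forall fun y => by rw [h1 t ht]; exact (h01 y).2)
  have hc : Continuous (deriv ζ) := hs.continuous_deriv (by simp)
  obtain ⟨L, hL⟩ := (isCompact_Icc (a := t₁) (b := t₂)).bddAbove_image hc.continuousOn
  refine ⟨ζ, max L 1, hs, by positivity, h01, h0, h1, fun t => ⟨hm.deriv_nonneg, ?_⟩, d0, d1⟩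
  by_cases ht : t ∈ Icc t₁ t₂
  · exact (hL (mem_image_of_mem _ ht)).trans (le_max_left _ _)
  · rw [mem_Icc, not_and_or, not_le, not_le] at ht
    rcases ht with ht | ht
    · rw [d0 t ht.le]; positivity
    · rw [d1 t ht.le]; positivity

theorem exists_bar (d t₁ c : ℝ) (h0 : 0 < t₁) (h1 : t₁ < d) (hc : 0 < c) :
    Nonempty (Bar d t₁ c) := by
  obtain ⟨t₂, h12, h2d⟩ := exists_between h1
  obtain ⟨ζ, L, hs, hL, h01, z0, z1, hd, d0, d1⟩ := exists_cut t₁ t₂ h12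
  have hd2 : 0 < d - t₂ := sub_pos.mpr h2d
  obtain ⟨a, ha, had, haL, hac⟩ : ∃ a : ℝ, 0 < a ∧ a ≤ d ∧ a * L ≤ 1 ∧ a / (d - t₂) ≤ c := by
    refine ⟨min d (min (1 / L) (c * (d - t₂))), lt_min (by linarith) (lt_min (by positivity)
      (by positivity)), min_le_left _ _, ?_, ?_⟩
    · rw [← le_div_iff₀ hL]; exact (min_le_right _ _).trans (min_le_left _ _)
    · rw [div_le_iff₀ hd2]; exact (min_le_right _ _).trans (min_le_right _ _)
  have hζd : ∀ t, HasDerivAt ζ (deriv ζ t) t := fun t =>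
    (hs.differentiable (by simp) t).hasDerivAt
  set m : ℝ → ℝ := fun t => t - a * ζ t with hm
  have ms : ContDiff ℝ ∞ m := contDiff_id.sub (contDiff_const.mul hs)
  have hmd : ∀ t, HasDerivAt m (1 - a * deriv ζ t) t := fun t =>
    (hasDerivAt_id t).sub ((hζd t).const_mul a)
  have md : ∀ t, 0 ≤ deriv m t ∧ deriv m t ≤ 1 := fun t => by
    rw [(hmd t).deriv]
    have := hd t
    constructor <;> nlinarith [this.1, this.2]
  have mono : Monotone m :=
    monotone_of_deriv_nonneg (ms.differentiable (by simp)) fun t => (md t).1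
  have m_low : ∀ t ≤ t₁, m t = t := fun t ht => by simp [hm, z0 t ht]
  have m_le : ∀ t, m t ≤ t := fun t => by
    have := mul_nonneg ha.le (h01 t).1
    simp only [hm]; linarith
  have m_high : ∀ t, d ≤ t → m t = t - a := fun t ht => by simp [hm, z1 t (by linarith)]
  have m_lt : ∀ t < d + a, m t < d := fun t ht => by
    rcases le_or_gt d t with h | h
    · rw [m_high t h]; linarith
    · exact (m_le t).trans_lt h
  set h : ℝ → ℝ := fun t => a * deriv ζ t / (d - m t) with hh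
  have hζ' : ContDiff ℝ ∞ (deriv ζ) := (contDiff_infty_iff_deriv.mp hs).2
  have hhs : ContDiff ℝ ∞ h := by
    rw [contDiff_iff_contDiffAt]
    intro t
    rcases lt_or_ge t d with ht | ht
    · exact (contDiff_const.mul hζ').contDiffAt.div (contDiff_const.sub ms).contDiffAt
        (sub_pos.mpr (m_lt t (by linarith))).ne'
    · refine (contDiffAt_const (c := (0 : ℝ))).congr_of_eventuallyEq ?_
      filter_upwards [Ioi_mem_nhds (show t₂ < t by linarith)] with y hy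
      simp [hh, d1 y (le_of_lt hy)]
  have hle : ∀ t, h t ≤ a * deriv ζ t / (d - t₂) := fun t => by
    rcases le_or_gt t₂ t with ht | ht
    · simp [hh, d1 t ht]
    · have := m_le t
      exact div_le_div_of_nonneg_left (mul_nonneg ha.le (hd t).1) hd2 (by linarith)
  set k : ℝ → ℝ := fun t => ∫ s in t₁..t, h s with hk
  have hkd : ∀ t, HasDerivAt k (h t) t := fun t =>
    (hhs.continuous.integral_hasStrictDerivAt t₁ t).hasDerivAt
  have hks : ContDiff ℝ ∞ k := by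
    rw [contDiff_infty_iff_deriv]
    refine ⟨fun t => (hkd t).differentiableAt, ?_⟩
    rw [show deriv k = h from funext fun t => (hkd t).deriv]
    exact hhs
  have k0 : ∀ t ≤ t₁, k t = 0 := fun t ht => by
    simp only [hk]
    rw [intervalIntegral.integral_congr (g := fun _ => 0)]
    · simp
    · intro s hs
      rw [uIcc_of_ge ht] at hs
      simp [hh, d0 s hs.2]
  have kc : ∀ t, k t ≤ c := fun t => by
    rcases le_or_gt t t₁ with ht | ht
    · rw [k0 t ht]; exact hc.le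
    have hφ : ∀ t, HasDerivAt (fun t => a * ζ t / (d - t₂) - k t)
        (a * deriv ζ t / (d - t₂) - h t) t := fun t =>
      (((hζd t).const_mul a).div_const _).sub (hkd t)
    have := monotone_of_deriv_nonneg (fun t => (hφ t).differentiableAt)
      (fun t => by rw [(hφ t).deriv]; linarith [hle t]) ht.le
    simp only [z0 t₁ le_rfl, k0 t₁ le_rfl] at this
    have h3 : a * ζ t / (d - t₂) ≤ a / (d - t₂) := by
      gcongr; nlinarith [(h01 t).2]
    simp at this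
    linarith
  set g : ℝ → ℝ := fun t => -Real.log (d - m t) + k t with hg
  have gd : ∀ t < d + a, HasDerivAt g (1 / (d - m t)) t := fun t ht => by
    have hp := sub_pos.mpr (m_lt t ht)
    have := ((((hmd t).const_sub d).log hp.ne').neg).add (hkd t)
    refine this.congr_deriv ?_
    simp only [hh]; field_simp; ring
  have g_low : ∀ t ≤ t₁, g t = -Real.log (d - t) := fun t ht => by
    simp [hg, m_low t ht, k0 t ht]
  refine ⟨⟨a, ha, had, m, g, ms, ?_, md, mono, m_low, m_le, m_high, m_lt, gd, g_low,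
    fun t _ => by simp only [hg]; linarith [kc t], ?_, ?_, ?_⟩⟩
  · exact (((contDiff_const.sub ms).contDiffOn.log fun t ht =>
      (sub_pos.mpr (m_lt t ht)).ne').neg).add hks.contDiffOn
  · intro t ht
    rcases le_or_gt t t₁ with h | h
    · exact (g_low t h).le
    have hψ : ∀ s < d, HasDerivAt (fun s => -Real.log (d - s) - g s)
        (1 / (d - s) - 1 / (d - m s)) s := fun s hs => by
      have := ((((hasDerivAt_id s).const_sub d).log (sub_pos.mpr hs).ne').neg).sub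
        (gd s (by linarith))
      refine this.congr_deriv ?_
      simp [div_eq_mul_inv]
    have := monotoneOn_of_deriv_nonneg (convex_Iio d)
      (fun s hs => (hψ s hs).continuousAt.continuousWithinAt)
      (fun s hs => (hψ s (mem_Iio.mp (interior_subset hs))).differentiableAt.differentiableWithinAt)
      (fun s hs => by
        have hs' : s < d := mem_Iio.mp (interior_subset hs)
        rw [(hψ s hs').deriv, sub_nonneg]
        exact one_div_le_one_div_of_le (by linarith) (by linarith [m_le s])) h1 ht h.le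
    simp only [g_low t₁ le_rfl] at this
    linarith
  · intro t ht0 ht
    have hψ : ∀ s < d + a, HasDerivAt (fun s => g s - s / d) (1 / (d - m s) - 1 / d) s :=
      fun s hs => (gd s hs).sub ((hasDerivAt_id s).div_const d)
    have := monotoneOn_of_deriv_nonneg (convex_Ico 0 (d + a))
      (fun s hs => (hψ s hs.2).continuousAt.continuousWithinAt)
      (fun s hs => (hψ s (interior_subset hs).2).differentiableAt.differentiableWithinAt)
      (fun s hs => by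
        have hs' := interior_subset hs
        rw [(hψ s hs'.2).deriv, sub_nonneg]
        have := mono hs'.1
        rw [m_low 0 h0.le] at this
        exact one_div_le_one_div_of_le (sub_pos.mpr (m_lt s hs'.2)) (by linarith))
      ⟨le_rfl, by linarith⟩ ⟨ht0, ht⟩ ht0
    simp only [g_low 0 h0.le] at this
    simp at this
    linarith
  · intro t t' ht ht'
    have := (convex_Iic (d + a / 2)).norm_image_sub_le_of_norm_hasDerivWithin_le
      (f := g) (f' := fun s => 1 / (d - m s)) (C := 2 / a)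
      (fun s hs => (gd s (by have : s ≤ d + a / 2 := hs; linarith)).hasDerivWithinAt)
      (fun s hs => by
        have h1 : m s ≤ m (d + a / 2) := mono hs
        rw [m_high (d + a / 2) (by linarith)] at h1
        rw [Real.norm_eq_abs, abs_of_pos (one_div_pos.mpr (by linarith)),
          show 2 / a = 1 / (a / 2) by field_simp]
        exact one_div_le_one_div_of_le (by linarith) (by linarith)) ht ht'
    exact (le_abs_self _).trans this

end Pool.Agent.Wein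
end

-- part Pool.Agent.P.MP_e3ee0c_gt.WDeg
section

/-! Homotopy invariance of the degree on a varying domain, in the form needed. -/

open Set Filter Topology

namespace Pool.Agent.Wein

theorem deg_zero {X : Type*} [NormedAddCommGroup X] [NormedSpace ℝ X] [FiniteDimensional ℝ X]
    (Ω : Set (ℝ × X)) (hΩ : IsOpen Ω) (h : ℝ × X → X) (hh : ContinuousOn h Ω)
    (hK : IsCompact {p | p ∈ Ω ∧ p.1 ∈ Icc (0 : ℝ) 1 ∧ h p = 0}) (z0 : X) (h0 : (0, z0) ∈ Ω)
    (hid : ∀ z, (0, z) ∈ Ω → h (0, z) = z - z0) : ∃ z, (1, z) ∈ Ω ∧ h (1, z) = 0 := by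
  by_contra hno
  push Not at hno
  obtain ⟨χ, hχ, hcs, hsup, h01, h1⟩ := exists_bump _ Ω hK hΩ fun p hp => hp.1
  have hone : ∀ p ∈ Ω, p.1 ∈ Icc (0 : ℝ) 1 → h p = 0 → χ p = 1 :=
    fun p a b c => h1.self_of_nhdsSet p ⟨a, b, c⟩
  have hin : ∀ p, χ p ≠ 0 → p ∈ Ω := fun p hp => hsup (subset_tsupport _ hp)
  have hc : Continuous fun p => χ p • h p := by
    rw [continuous_iff_continuousAt]
    intro x
    by_cases hx : x ∈ Ω
    · exact hχ.continuous.continuousAt.smul (hh.continuousAt (hΩ.mem_nhds hx))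
    · have e : χ =ᶠ[𝓝 x] 0 := notMem_tsupport_iff_eventuallyEq.1 fun h => hx (hsup h)
      refine (continuousAt_const (y := (0 : X))).congr ?_
      filter_upwards [e] with y hy
      simp [hy]
  obtain ⟨R0, hR0⟩ := (hcs.isCompact.image
    (f := fun p : ℝ × X => ‖p.2 - z0‖) (by fun_prop)).bddAbove
  set R := max R0 0 + 1 with hR
  have hR1 : 1 ≤ R := by have := le_max_right R0 0; linarith
  have hfar : ∀ p : ℝ × X, ‖p.2 - z0‖ = R → χ p = 0 := by
    intro p hp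
    by_contra hne
    have h2 : ‖p.2 - z0‖ ≤ R0 := hR0 ⟨p, subset_tsupport _ hne, rfl⟩
    have := le_max_left R0 0
    linarith
  let v : ℝ × X → ℝ × X := fun w => (min w.1 1, w.2)
  let c : ℝ × X → ℝ := fun w => min 1 (max 0 (2 - w.1))
  let Θ : ℝ × X → ℝ × X := fun w => (1 - 2 * c w * χ (v w), c w • (χ (v w) • h (v w)))
  have hv : Continuous v := by fun_prop
  have hcc : Continuous c := by fun_prop
  have hΘ : Continuous Θ :=
    (continuous_const.sub ((continuous_const.mul hcc).mul (hχ.continuous.comp hv))).prodMk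
      (hcc.smul (hc.comp hv))
  have hne : ∀ w : ℝ × X, 0 ≤ w.1 → Θ w ≠ 0 := by
    intro w hw e
    have e1 : 1 - 2 * c w * χ (v w) = 0 := congrArg Prod.fst e
    have e2 : c w • (χ (v w) • h (v w)) = 0 := congrArg Prod.snd e
    have c0 : c w ≠ 0 := by intro k; rw [k] at e1; norm_num at e1
    have x0 : χ (v w) ≠ 0 := by intro k; rw [k] at e1; norm_num at e1
    have hz : h (v w) = 0 := by simpa [c0, x0] using e2
    rcases le_total w.1 1 with k | k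
    · have c1 : c w = 1 := min_eq_left (le_max_of_le_right (by linarith))
      have x1 : χ (v w) = 1 :=
        hone _ (hin _ x0) ⟨le_min hw zero_le_one, min_le_right _ _⟩ hz
      rw [c1, x1] at e1; norm_num at e1
    · have e3 : v w = (1, w.2) := Prod.ext (min_eq_right k) rfl
      exact hno w.2 (e3 ▸ hin _ x0) (e3 ▸ hz)
  have hB : ∀ w ∈ Metric.closedBall ((R, z0) : ℝ × X) R, 0 ≤ w.1 := by
    intro w hw
    have h3 := Metric.mem_closedBall.1 hw
    rw [Prod.dist_eq] at h3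
    have h2 : dist w.1 R ≤ R := (le_max_left _ _).trans h3
    rw [Real.dist_eq, abs_le] at h2
    linarith [h2.1]
  have hnorm : ∀ w : ℝ × X, 0 ≤ w.1 → ‖(R / ‖Θ w‖) • Θ w‖ = R := by
    intro w hw
    have : 0 < ‖Θ w‖ := norm_pos_iff.2 (hne w hw)
    rw [norm_smul, Real.norm_of_nonneg (by positivity)]
    field_simp
  obtain ⟨w, hw, hfix⟩ := Pool.Agent.Lib.Brouwer.brouwer (Metric.closedBall ((R, z0) : ℝ × X) R)
    (isCompact_closedBall _ _) (convex_closedBall _ _) ⟨_, Metric.mem_closedBall_self (by linarith)⟩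
    (fun w => (R, z0) - (R / ‖Θ w‖) • Θ w)
    (continuousOn_const.sub ((continuousOn_const.div hΘ.norm.continuousOn
      fun w hw => norm_ne_zero_iff.2 (hne w (hB w hw))).smul hΘ.continuousOn))
    (fun w hw => by
      rw [Metric.mem_closedBall, dist_eq_norm, sub_sub_cancel_left, norm_neg, hnorm w (hB w hw)])
  have hw0 := hB w hw
  have ht : 0 < R / ‖Θ w‖ := div_pos (by linarith) (norm_pos_iff.2 (hne w hw0))
  have hsph : ‖w - (R, z0)‖ = R := by
    have : w - (R, z0) = -((R / ‖Θ w‖) • Θ w) := by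
      conv_lhs => rw [← hfix]
      exact sub_sub_cancel_left _ _
    rw [this, norm_neg, hnorm w hw0]
  generalize R / ‖Θ w‖ = t at ht hfix
  have f1 : R - t * (1 - 2 * c w * χ (v w)) = w.1 := congrArg Prod.fst hfix
  have f2 : z0 - t • (c w • (χ (v w) • h (v w))) = w.2 := congrArg Prod.snd hfix
  rw [Prod.norm_def] at hsph
  simp only [Prod.fst_sub, Prod.snd_sub, Real.norm_eq_abs] at hsph
  rcases max_choice |w.1 - R| ‖w.2 - z0‖ with k | k
  · rw [k] at hsph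
    rcases abs_eq (by linarith : 0 ≤ R) |>.1 hsph with k2 | k2
    · have c0 : c w = 0 := by
        have : max 0 (2 - w.1) = 0 := max_eq_left (by linarith)
        simp [c, this]
      rw [c0] at f1
      linarith
    · have k3 : w.1 = 0 := by linarith
      have c1 : c w = 1 := min_eq_left (le_max_of_le_right (by linarith))
      have e3 : v w = (0, w.2) := Prod.ext (by simp [v, k3]) rfl
      have e4 : χ (0, w.2) • h (0, w.2) = χ (0, w.2) • (w.2 - z0) := by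
        by_cases x0 : χ (0, w.2) = 0
        · simp [x0]
        · rw [hid _ (hin _ x0)]
      rw [c1, e3] at f1 f2
      rw [e4, one_smul, smul_smul] at f2
      have e5 : (1 + t * χ (0, w.2)) • (w.2 - z0) = 0 := by
        rw [add_smul, one_smul]
        nth_rewrite 1 [← f2]
        abel
      have e6 : 1 + t * χ (0, w.2) ≠ 0 := by
        have := mul_nonneg ht.le (h01 (0, w.2)).1
        linarith
      have e7 : w.2 = z0 := sub_eq_zero.1 ((smul_eq_zero.1 e5).resolve_left e6)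
      have e8 : χ (0, z0) = 1 := hone _ h0 ⟨le_rfl, zero_le_one⟩ (by rw [hid _ h0, sub_self])
      rw [e7, e8] at f1
      linarith
  · rw [k] at hsph
    have x0 : χ (v w) = 0 := hfar _ hsph
    rw [x0] at f2
    simp only [zero_smul, smul_zero, sub_zero] at f2
    rw [← f2, sub_self, norm_zero] at hsph
    linarith

end Pool.Agent.Wein
end

-- part Pool.Agent.P.MP_e3ee0c_gt.WFlow
section

/-! Smooth global flows of smooth Lipschitz vector fields. -/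

open Set Filter Topology
open scoped ContDiff

namespace Pool.Agent.Wein

variable {X : Type*} [NormedAddCommGroup X] [NormedSpace ℝ X] [FiniteDimensional ℝ X]

theorem exists_flow (V : X → X) (hV : ContDiff ℝ ∞ V) (L : NNReal) (hL : LipschitzWith L V) :
    ∃ Φ : ℝ × X → X, ContDiff ℝ ∞ Φ ∧ (∀ x, Φ (0, x) = x) ∧
      (∀ t x, HasDerivAt (fun s => Φ (s, x)) (V (Φ (t, x))) t) ∧
      ∀ s t x, Φ (s + t, x) = Φ (s, Φ (t, x)) := by
  have : CompleteSpace X := FiniteDimensional.complete ℝ X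
  exact Pool.Agent.Lib.Flow.exists_smooth_flow V hV L hL

/-- The variational equation. -/
theorem flow_var (V : X → X) (hV : ContDiff ℝ ∞ V) (Φ : ℝ × X → X) (hΦ : ContDiff ℝ ∞ Φ)
    (hd : ∀ t x, HasDerivAt (fun s => Φ (s, x)) (V (Φ (t, x))) t) (x v : X) (t : ℝ) :
    HasDerivAt (fun s => fderiv ℝ Φ (s, x) (0, v))
      (fderiv ℝ V (Φ (t, x)) (fderiv ℝ Φ (t, x) (0, v))) t :=
  Pool.Agent.Lib.Flow.variation (hΦ.contDiffAt.of_le (WithTop.coe_le_coe.2 (le_top : (2 : ℕ∞) ≤ ⊤)))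
    (hV.differentiable (by simp) _) (Eventually.of_forall fun w => hd w.1 w.2) (0, v)

end Pool.Agent.Wein
end

-- part Pool.Agent.P.MP_e3ee0c_gt.WGeo
section

/-! Uniform local geometry of a compact retract and the twist maps. -/

open Set Filter Topology
open scoped ContDiff InnerProductSpace

namespace Pool.Agent.Wein

variable {E : Type} [NormedAddCommGroup E] [InnerProductSpace ℝ E]

structure Geo (E : Type) [NormedAddCommGroup E] [InnerProductSpace ℝ E] extends Ret E where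
  δ : ℝ
  δpos : 0 < δ
  ball : ∀ x ∈ S, ∀ u, ‖u - x‖ ≤ 8 * δ → u ∈ W
  mv : ∀ x ∈ S, ∀ u u', ‖u - x‖ ≤ 8 * δ → ‖u' - x‖ ≤ 8 * δ →
    ‖r u - r u' - fderiv ℝ r x (u - u')‖ ≤ 1 / 4 * ‖u - u'‖

theorem exists_geo [FiniteDimensional ℝ E] (R : Ret E) : ∃ G : Geo E, G.toRet = R := by
  obtain ⟨ε, hε, hW⟩ := R.compact.exists_cthickening_subset_open R.isOpen R.sub
  have hK : IsCompact (Metric.cthickening ε R.S) := R.compact.cthickening
  have hc : Continuous (fderiv ℝ R.r) := R.smooth.continuous_fderiv (by simp)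
  have huc : UniformContinuousOn (fderiv ℝ R.r) (Metric.cthickening ε R.S) :=
    hK.uniformContinuousOn_of_continuous hc.continuousOn
  obtain ⟨η, hη, hη'⟩ := Metric.uniformContinuousOn_iff.mp huc (1 / 4) (by norm_num)
  have hm : 0 < min ε (η / 2) := lt_min hε (by linarith)
  have hmem : ∀ x ∈ R.S, ∀ u, ‖u - x‖ ≤ 8 * (min ε (η / 2) / 8) →
      u ∈ Metric.cthickening ε R.S := by
    intro x hx u hu
    refine Metric.mem_cthickening_of_dist_le u x ε R.S hx ?_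
    rw [dist_eq_norm]
    have := min_le_left ε (η / 2)
    linarith
  refine ⟨{ toRet := R, δ := min ε (η / 2) / 8, δpos := by positivity, ball := ?_, mv := ?_ }, rfl⟩
  · intro x hx u hu
    exact hW (hmem x hx u hu)
  · intro x hx u u' hu hu'
    have hd : Differentiable ℝ R.r := R.smooth.differentiable (by simp)
    refine (convex_closedBall x (8 * (min ε (η / 2) / 8))).norm_image_sub_le_of_norm_fderiv_le'
      (𝕜 := ℝ) (fun y _ => hd y) (fun y hy => ?_) ?_ ?_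
    · have hy' : ‖y - x‖ ≤ 8 * (min ε (η / 2) / 8) := by
        simpa [dist_eq_norm] using hy
      have h1 := hη' y (hmem x hx y hy') x (hmem x hx x (by simp; positivity)) (by
        rw [dist_eq_norm]
        have := min_le_right ε (η / 2)
        linarith)
      rw [dist_eq_norm] at h1
      exact h1.le
    · simpa [dist_eq_norm] using hu'
    · simpa [dist_eq_norm] using hu

namespace Geo

variable (G : Geo E)

lemma mvP {x : E} (hx : x ∈ G.S) {u u' : E} (h : ‖u - x‖ ≤ 8 * G.δ) (h' : ‖u' - x‖ ≤ 8 * G.δ) :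
    ‖G.r u - G.r u' - G.P x (u - u')‖ ≤ 1 / 4 * ‖u - u'‖ := G.mv x hx u u' h h'

lemma pair_small {x y y' : E} (hx : x ∈ G.S) (hy : y ∈ G.S) (hy' : y' ∈ G.S)
    (h : ‖x - y‖ ≤ 8 * G.δ) (h' : ‖x - y'‖ ≤ 8 * G.δ) :
    ‖(y - y') - G.P x (y - y')‖ ≤ 1 / 4 * ‖y - y'‖ := by
  have := G.mvP hx (u := y) (u' := y') (by rwa [norm_sub_rev]) (by rwa [norm_sub_rev])
  rwa [G.fix y hy, G.fix y' hy'] at this

lemma pair_lower {x y y' : E} (hx : x ∈ G.S) (hy : y ∈ G.S) (hy' : y' ∈ G.S)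
    (h : ‖x - y‖ ≤ 8 * G.δ) (h' : ‖x - y'‖ ≤ 8 * G.δ) :
    3 / 4 * ‖y - y'‖ ≤ ‖G.P x (y - y')‖ := by
  have h1 := G.pair_small hx hy hy' h h'
  have h2 : ‖y - y'‖ ≤ ‖(y - y') - G.P x (y - y')‖ + ‖G.P x (y - y')‖ := by
    simpa using norm_add_le ((y - y') - G.P x (y - y')) (G.P x (y - y'))
  linarith

lemma self_near (x : E) : ‖x - x‖ ≤ 8 * G.δ := by
  have := G.δpos
  simp only [sub_self, norm_zero]
  positivity

lemma lower {x y : E} (hx : x ∈ G.S) (hy : y ∈ G.S) (h : ‖x - y‖ ≤ 8 * G.δ) :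
    3 / 4 * ‖x - y‖ ≤ ‖G.P x (x - y)‖ :=
  G.pair_lower hx hx hy (G.self_near x) h

/-- Radial monotonicity. -/
lemma rm {x y y' : E} (hx : x ∈ G.S) (hy : y ∈ G.S) (hy' : y' ∈ G.S) (h : ‖x - y‖ ≤ 8 * G.δ)
    (h' : ‖x - y'‖ ≤ 8 * G.δ) {t : ℝ} (ht0 : 0 ≤ t) (ht1 : t ≤ 1)
    (he : G.P x (x - y') = t • G.P x (x - y)) : ‖x - y'‖ ≤ ‖x - y‖ := by
  have e1 := G.pyth hx (x - y)
  have e2 := G.pyth hx (x - y')
  have l1 := G.lower hx hy h
  have s1 := G.pair_small hx hx hy (G.self_near x) h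
  have l2 := G.pair_lower hx hy hy' h h'
  have s2 := G.pair_small hx hy hy' h h'
  have e3 : G.P x (y - y') = -((1 - t) • G.P x (x - y)) := by
    have : y - y' = (x - y') - (x - y) := by abel
    rw [this, map_sub, he, sub_smul, one_smul]
    abel
  have e4 : ‖G.P x (y - y')‖ = (1 - t) * ‖G.P x (x - y)‖ := by
    rw [e3, norm_neg, norm_smul, Real.norm_eq_abs, abs_of_nonneg (by linarith)]
  have e5 : ‖G.P x (x - y')‖ = t * ‖G.P x (x - y)‖ := by
    rw [he, norm_smul, Real.norm_eq_abs, abs_of_nonneg ht0]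
  have e6 : ‖(x - y') - G.P x (x - y')‖ ≤
      ‖(x - y) - G.P x (x - y)‖ + ‖(y - y') - G.P x (y - y')‖ := by
    have : (x - y') - G.P x (x - y') =
        ((x - y) - G.P x (x - y)) + ((y - y') - G.P x (y - y')) := by
      have : x - y' = (x - y) + (y - y') := by abel
      rw [this, map_add]
      abel
    rw [this]
    exact norm_add_le _ _
  set a := ‖G.P x (x - y)‖ with ha
  set b := ‖(x - y) - G.P x (x - y)‖ with hb
  set b' := ‖(x - y') - G.P x (x - y')‖ with hb'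
  have a0 : 0 ≤ a := norm_nonneg _
  have b0 : 0 ≤ b := norm_nonneg _
  have b0' : 0 ≤ b' := norm_nonneg _
  have hba : b ≤ a / 3 := by linarith
  have hb'le : b' ≤ b + (1 - t) * a / 3 := by linarith
  have hs : 0 ≤ (1 - t) * a := mul_nonneg (by linarith) a0
  have hsq : b' ^ 2 ≤ (b + (1 - t) * a / 3) ^ 2 := pow_le_pow_left₀ b0' hb'le 2
  have k1 : b * ((1 - t) * a) ≤ a / 3 * ((1 - t) * a) := mul_le_mul_of_nonneg_right hba hs
  have k2 : 0 ≤ ((1 - t) * a) * (t * a) := mul_nonneg hs (mul_nonneg ht0 a0)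
  have k3 : 0 ≤ ((1 - t) * a) * a := mul_nonneg hs a0
  have fin : ‖x - y'‖ ^ 2 ≤ ‖x - y‖ ^ 2 := by
    rw [e1, e2, e5]
    nlinarith
  exact (pow_le_pow_iff_left₀ (norm_nonneg _) (norm_nonneg _) two_ne_zero).mp fin

lemma inj {x y y' : E} (hx : x ∈ G.S) (hy : y ∈ G.S) (hy' : y' ∈ G.S) (h : ‖x - y‖ ≤ 8 * G.δ)
    (h' : ‖x - y'‖ ≤ 8 * G.δ) (he : G.P x (x - y') = G.P x (x - y)) : y' = y := by
  have l2 := G.pair_lower hx hy hy' h h'
  have e3 : G.P x (y - y') = 0 := by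
    have : y - y' = (x - y') - (x - y) := by abel
    rw [this, map_sub, he, sub_self]
  rw [e3, norm_zero] at l2
  have : ‖y - y'‖ = 0 := le_antisymm (by linarith) (norm_nonneg _)
  exact (sub_eq_zero.mp (norm_eq_zero.mp this)).symm

/-- The tangential gradient in x of a function of the squared distance with derivative ψ. -/
noncomputable def tw (ψ : ℝ → ℝ) (x y : E) : E := (2 * ψ (‖x - y‖ ^ 2)) • G.P x (x - y)

lemma tw_inj_aux {ψ : ℝ → ℝ} {I : Set ℝ} (hm : MonotoneOn ψ I) (hp : ∀ t ∈ I, 0 < ψ t)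
    {x y y' : E} (hx : x ∈ G.S) (hy : y ∈ G.S) (hy' : y' ∈ G.S) (h : ‖x - y‖ ≤ 8 * G.δ)
    (h' : ‖x - y'‖ ≤ 8 * G.δ) (hI : ‖x - y‖ ^ 2 ∈ I) (hI' : ‖x - y'‖ ^ 2 ∈ I)
    (he : G.tw ψ x y' = G.tw ψ x y) (hle : ψ (‖x - y‖ ^ 2) ≤ ψ (‖x - y'‖ ^ 2)) : y' = y := by
  have p1 := hp _ hI
  have p2 := hp _ hI'
  have e : G.P x (x - y') = (ψ (‖x - y‖ ^ 2) / ψ (‖x - y'‖ ^ 2)) • G.P x (x - y) := by
    have hne : (2 * ψ (‖x - y'‖ ^ 2)) ≠ 0 := by positivity
    apply smul_right_injective E hne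
    unfold tw at he
    simp only
    rw [he, smul_smul]
    congr 1
    field_simp
  have hr := G.rm hx hy hy' h h' (by positivity) ((div_le_one p2).mpr hle) e
  have hq : ‖x - y'‖ ^ 2 ≤ ‖x - y‖ ^ 2 := pow_le_pow_left₀ (norm_nonneg _) hr 2
  have heq : ψ (‖x - y‖ ^ 2) = ψ (‖x - y'‖ ^ 2) := le_antisymm hle (hm hI' hI hq)
  rw [heq, div_self p2.ne', one_smul] at e
  exact G.inj hx hy hy' h h' e

lemma tw_inj {ψ : ℝ → ℝ} {I : Set ℝ} (hm : MonotoneOn ψ I) (hp : ∀ t ∈ I, 0 < ψ t) {x y y' : E}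
    (hx : x ∈ G.S) (hy : y ∈ G.S) (hy' : y' ∈ G.S) (h : ‖x - y‖ ≤ 8 * G.δ)
    (h' : ‖x - y'‖ ≤ 8 * G.δ) (hI : ‖x - y‖ ^ 2 ∈ I) (hI' : ‖x - y'‖ ^ 2 ∈ I)
    (he : G.tw ψ x y' = G.tw ψ x y) : y' = y := by
  rcases le_total (ψ (‖x - y‖ ^ 2)) (ψ (‖x - y'‖ ^ 2)) with hle | hle
  · exact G.tw_inj_aux hm hp hx hy hy' h h' hI hI' he hle
  · exact (G.tw_inj_aux hm hp hx hy' hy h' h hI' hI he.symm hle).symm

/-- The twist map of the logarithmic barrier. -/
noncomputable def pi (x y : E) : E := G.tw (fun t => 1 / (G.δ ^ 2 - t)) x y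

lemma near_of_sq {x y : E} (h : ‖x - y‖ ^ 2 ≤ G.δ ^ 2) : ‖x - y‖ ≤ 8 * G.δ := by
  have hd := G.δpos
  have := (pow_le_pow_iff_left₀ (norm_nonneg _) hd.le two_ne_zero).mp h
  linarith

lemma pi_inj {x y y' : E} (hx : x ∈ G.S) (hy : y ∈ G.S) (hy' : y' ∈ G.S)
    (h : ‖x - y‖ ^ 2 < G.δ ^ 2) (h' : ‖x - y'‖ ^ 2 < G.δ ^ 2) (he : G.pi x y' = G.pi x y) :
    y' = y := by
  refine G.tw_inj (I := Iio (G.δ ^ 2)) ?_ ?_ hx hy hy' (G.near_of_sq h.le) (G.near_of_sq h'.le)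
    h h' he
  · intro a _ b hb hab
    have hb' : b < G.δ ^ 2 := hb
    exact one_div_le_one_div_of_le (by linarith) (by linarith)
  · intro t ht
    have ht' : t < G.δ ^ 2 := ht
    have : 0 < G.δ ^ 2 - t := by linarith
    positivity

/-- The closed form of the equation for the inverse of the twist map. -/
lemma of_closed {x y p : E} (hx : x ∈ G.S) (hy : y ∈ G.S) (h : ‖x - y‖ ≤ 8 * G.δ)
    (he : G.P x (x - y) = (1 / 2 * max (G.δ ^ 2 - ‖x - y‖ ^ 2) 0) • p) :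
    ‖x - y‖ ^ 2 < G.δ ^ 2 ∧ G.pi x y = p := by
  have hd := G.δpos
  have hq : ‖x - y‖ ^ 2 < G.δ ^ 2 := by
    by_contra hn
    have hn' : G.δ ^ 2 ≤ ‖x - y‖ ^ 2 := not_lt.mp hn
    rw [max_eq_right (by linarith), mul_zero, zero_smul] at he
    have l := G.lower hx hy h
    rw [he, norm_zero] at l
    have h0 : ‖x - y‖ = 0 := le_antisymm (by linarith) (norm_nonneg _)
    rw [h0] at hn'
    have : 0 < G.δ ^ 2 := by positivity
    linarith
  refine ⟨hq, ?_⟩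
  have hpos : 0 < G.δ ^ 2 - ‖x - y‖ ^ 2 := by linarith
  unfold pi tw
  rw [he, max_eq_left hpos.le, smul_smul]
  have : 2 * (1 / (G.δ ^ 2 - ‖x - y‖ ^ 2)) * (1 / 2 * (G.δ ^ 2 - ‖x - y‖ ^ 2)) = 1 := by
    field_simp
  rw [this, one_smul]

lemma to_closed {x y p : E} (hq : ‖x - y‖ ^ 2 < G.δ ^ 2) (he : G.pi x y = p) :
    G.P x (x - y) = (1 / 2 * max (G.δ ^ 2 - ‖x - y‖ ^ 2) 0) • p := by
  have hpos : 0 < G.δ ^ 2 - ‖x - y‖ ^ 2 := by linarith
  rw [← he, max_eq_left hpos.le]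
  unfold pi tw
  rw [smul_smul]
  have : 1 / 2 * (G.δ ^ 2 - ‖x - y‖ ^ 2) * (2 * (1 / (G.δ ^ 2 - ‖x - y‖ ^ 2))) = 1 := by
    field_simp
  rw [this, one_smul]

lemma exists_pre [FiniteDimensional ℝ E] {x p : E} (hx : x ∈ G.S) (hp : G.P x p = p) :
    ∃ y ∈ G.S, ‖x - y‖ ^ 2 < G.δ ^ 2 ∧ G.pi x y = p := by
  have hd := G.δpos
  have hrc : Continuous G.r := G.smooth.continuous
  set c : ℝ := 2 * G.δ with hc
  have hcpos : 0 < c := by positivity
  let y : E → E := fun w => G.r (x + G.P x (c • w))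
  have hyc : Continuous y := by
    refine hrc.comp (continuous_const.add ((G.P x).continuous.comp (continuous_const_smul c)))
  let f : E → E := fun w => G.P x (y w - x) + (c • w - G.P x (c • w)) +
    (1 / 2 * max (G.δ ^ 2 - ‖x - y w‖ ^ 2 - ‖c • w - G.P x (c • w)‖ ^ 2) 0) • p
  have hfc : Continuous f := by
    have h1 : Continuous fun w : E => c • w - G.P x (c • w) :=
      (continuous_const_smul c).sub ((G.P x).continuous.comp (continuous_const_smul c))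
    have h2 : Continuous fun w : E => G.P x (y w - x) :=
      (G.P x).continuous.comp (hyc.sub continuous_const)
    refine (h2.add h1).add (Continuous.smul ?_ continuous_const)
    refine continuous_const.mul (Continuous.max ?_ continuous_const)
    exact (continuous_const.sub ((continuous_const.sub hyc).norm.pow 2)).sub (h1.norm.pow 2)
  obtain ⟨w, hw, hz⟩ := Pool.Agent.Lib.Brouwer.exists_zero_or_inward f hfc
  have hw1 : ‖w‖ ≤ 1 := by simpa using hw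
  have hv : ‖c • w‖ = c * ‖w‖ := by rw [norm_smul, Real.norm_eq_abs, abs_of_pos hcpos]
  have hv2 : ‖c • w‖ ≤ 2 * G.δ := by rw [hv]; nlinarith
  have hPv : ‖G.P x (c • w)‖ ≤ 2 * G.δ := (G.norm_P_le hx _).trans hv2
  have hnear : ‖x + G.P x (c • w) - x‖ ≤ 8 * G.δ := by
    rw [add_sub_cancel_left]; linarith
  have hyS : y w ∈ G.S := G.maps (G.ball x hx _ hnear)
  have herr : ‖y w - x - G.P x (c • w)‖ ≤ 1 / 4 * ‖G.P x (c • w)‖ := by
    have := G.mvP hx hnear (G.self_near x)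
    rwa [G.fix x hx, add_sub_cancel_left, G.P_idem hx] at this
  have hup : ‖x - y w‖ ≤ 8 * G.δ := by
    have : ‖y w - x‖ ≤ ‖y w - x - G.P x (c • w)‖ + ‖G.P x (c • w)‖ := by
      simpa using norm_add_le (y w - x - G.P x (c • w)) (G.P x (c • w))
    rw [norm_sub_rev]
    linarith
  rcases hz with hz | ⟨h1, h2⟩
  · have hz' : G.P x (y w - x) + (c • w - G.P x (c • w)) +
        (1 / 2 * max (G.δ ^ 2 - ‖x - y w‖ ^ 2 - ‖c • w - G.P x (c • w)‖ ^ 2) 0) • p = 0 := hz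
    have hP := congrArg (G.P x) hz'
    rw [map_add, map_add, map_sub (G.P x) (c • w), G.P_idem hx, G.P_idem hx, sub_self, add_zero,
      map_smul, hp, map_zero] at hP
    have hn : c • w - G.P x (c • w) = 0 := by
      have e : c • w - G.P x (c • w) = (G.P x (y w - x) + (c • w - G.P x (c • w)) +
        (1 / 2 * max (G.δ ^ 2 - ‖x - y w‖ ^ 2 - ‖c • w - G.P x (c • w)‖ ^ 2) 0) • p) -
        (G.P x (y w - x) +
        (1 / 2 * max (G.δ ^ 2 - ‖x - y w‖ ^ 2 - ‖c • w - G.P x (c • w)‖ ^ 2) 0) • p) := by abel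
      rw [e, hz', hP, sub_self]
    rw [hn, norm_zero] at hP
    refine ⟨y w, hyS, G.of_closed hx hyS hup ?_⟩
    have e : G.P x (x - y w) = -G.P x (y w - x) := by rw [← map_neg, neg_sub]
    rw [e, neg_eq_iff_add_eq_zero]
    simpa using hP
  · exfalso
    have e1 := G.pyth hx (c • w)
    rw [hv, h1, mul_one] at e1
    have hlow : 3 / 4 * ‖G.P x (c • w)‖ ≤ ‖x - y w‖ := by
      have : ‖G.P x (c • w)‖ ≤ ‖y w - x‖ + ‖y w - x - G.P x (c • w)‖ := by
        simpa using norm_sub_le (y w - x) (y w - x - G.P x (c • w))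
      rw [norm_sub_rev]
      linarith
    have hlow2 : (3 / 4 * ‖G.P x (c • w)‖) ^ 2 ≤ ‖x - y w‖ ^ 2 :=
      pow_le_pow_left₀ (by positivity) hlow 2
    have hd2 : 0 < G.δ ^ 2 := by positivity
    have hc2 : c ^ 2 = 4 * G.δ ^ 2 := by rw [hc]; ring
    have hmax : max (G.δ ^ 2 - ‖x - y w‖ ^ 2 - ‖c • w - G.P x (c • w)‖ ^ 2) 0 = 0 := by
      apply max_eq_right
      nlinarith [sq_nonneg ‖c • w - G.P x (c • w)‖]
    have h3 : ⟪f w, c • w⟫_ℝ ≤ 0 := by
      rw [inner_smul_right]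
      exact mul_nonpos_of_nonneg_of_nonpos hcpos.le h2
    have e2 : f w = G.P x (y w - x) + (c • w - G.P x (c • w)) := by
      simp only [f]
      rw [hmax, mul_zero, zero_smul, add_zero]
    have e3 : ⟪G.P x (y w - x), c • w⟫_ℝ =
        ‖G.P x (c • w)‖ ^ 2 + ⟪y w - x - G.P x (c • w), G.P x (c • w)⟫_ℝ := by
      rw [G.P_symm hx, inner_sub_left (y w - x), real_inner_self_eq_norm_sq]
      ring
    have e4 : ⟪c • w - G.P x (c • w), c • w⟫_ℝ = ‖c • w - G.P x (c • w)‖ ^ 2 := by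
      have k : ⟪G.P x (c • w), c • w⟫_ℝ = ‖G.P x (c • w)‖ ^ 2 := by
        rw [← real_inner_self_eq_norm_sq, ← G.P_symm hx, G.P_idem hx]
      rw [inner_sub_left, real_inner_self_eq_norm_sq, k, G.pyth hx (c • w)]
      ring
    have e5 : -(‖y w - x - G.P x (c • w)‖ * ‖G.P x (c • w)‖) ≤
        ⟪y w - x - G.P x (c • w), G.P x (c • w)⟫_ℝ :=
      (abs_le.mp (abs_real_inner_le_norm _ _)).1
    have e6 : ‖y w - x - G.P x (c • w)‖ * ‖G.P x (c • w)‖ ≤
        1 / 4 * ‖G.P x (c • w)‖ * ‖G.P x (c • w)‖ :=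
      mul_le_mul_of_nonneg_right herr (norm_nonneg _)
    rw [e2, inner_add_left, e3, e4] at h3
    nlinarith [sq_nonneg ‖c • w - G.P x (c • w)‖, sq_nonneg ‖G.P x (c • w)‖]

theorem exists_inv [FiniteDimensional ℝ E] : ∃ Y : E × E → E, ContinuousOn Y (Cot G.S) ∧
    ∀ z ∈ Cot G.S, Y z ∈ G.S ∧ ‖z.1 - Y z‖ ^ 2 < G.δ ^ 2 ∧ G.pi z.1 (Y z) = z.2 := by
  have hex : ∀ z : E × E, ∃ y, z ∈ Cot G.S →
      y ∈ G.S ∧ ‖z.1 - y‖ ^ 2 < G.δ ^ 2 ∧ G.pi z.1 y = z.2 := by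
    intro z
    by_cases hz : z ∈ Cot G.S
    · obtain ⟨h1, h2⟩ := (G.mem_cot z).mp hz
      obtain ⟨y, hy⟩ := G.exists_pre h1 h2
      exact ⟨y, fun _ => hy⟩
    · exact ⟨0, fun h => absurd h hz⟩
  choose Y hY using hex
  refine ⟨Y, fun z hz => ?_, hY⟩
  have hz1 : z.1 ∈ G.S := hz.1
  refine G.compact.tendsto_nhds_of_unique_mapClusterPt
    (eventually_mem_nhdsWithin.mono fun w hw => (hY w hw).1) fun y hy hcl => ?_
  obtain ⟨U, hU, hlim⟩ := mapClusterPt_iff_ultrafilter.mp hcl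
  have hid : Tendsto (fun w : E × E => w) (U : Filter (E × E)) (𝓝 z) :=
    hU.trans nhdsWithin_le_nhds
  have hpair : Tendsto (fun w : E × E => (w, Y w)) (U : Filter (E × E)) (𝓝 (z, y)) :=
    hid.prodMk_nhds hlim
  have hev : ∀ᶠ w in (U : Filter (E × E)), w ∈ Cot G.S := hU eventually_mem_nhdsWithin
  have hPc : Continuous G.P := G.P_smooth.continuous
  have c0 : Continuous fun a : (E × E) × E => a.1.1 - a.2 := by fun_prop
  have cl1 : IsClosed {a : (E × E) × E | ‖a.1.1 - a.2‖ ≤ 8 * G.δ} :=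
    isClosed_le c0.norm continuous_const
  have cl2 : IsClosed {a : (E × E) × E | G.P a.1.1 (a.1.1 - a.2) =
      (1 / 2 * max (G.δ ^ 2 - ‖a.1.1 - a.2‖ ^ 2) 0) • a.1.2} := by
    refine isClosed_eq ((hPc.comp (by fun_prop)).clm_apply c0) ?_
    refine Continuous.smul ?_ (by fun_prop)
    exact continuous_const.mul
      (Continuous.max (continuous_const.sub (c0.norm.pow 2)) continuous_const)
  have m1 := cl1.mem_of_tendsto hpair (hev.mono fun w hw => G.near_of_sq (hY w hw).2.1.le)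
  have m2 := cl2.mem_of_tendsto hpair
    (hev.mono fun w hw => G.to_closed (hY w hw).2.1 (hY w hw).2.2)
  obtain ⟨k1, k2⟩ := G.of_closed hz1 hy m1 m2
  obtain ⟨j1, j2, j3⟩ := hY z hz
  exact G.pi_inj hz1 j1 hy j2 k1 (k2.trans j3.symm)

lemma tube {x u : E} (hx : x ∈ G.S) (h : ‖u - x‖ ≤ G.δ) :
    G.r u ∈ G.S ∧ ‖G.r u - x‖ ≤ 2 * G.δ ∧
      ‖G.P (G.r u) (u - G.r u)‖ ≤ 1 / 4 * ‖u - G.r u‖ := by
  have hd := G.δpos
  have h8 : ‖u - x‖ ≤ 8 * G.δ := by linarith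
  have hS : G.r u ∈ G.S := G.maps (G.ball x hx u h8)
  have h1 := G.mvP hx h8 (G.self_near x)
  rw [G.fix x hx] at h1
  have h2 : ‖G.r u - x‖ ≤ 2 * G.δ := by
    have a1 : ‖G.r u - x‖ ≤ ‖G.r u - x - G.P x (u - x)‖ + ‖G.P x (u - x)‖ := by
      simpa using norm_add_le (G.r u - x - G.P x (u - x)) (G.P x (u - x))
    have a2 := G.norm_P_le hx (u - x)
    linarith
  refine ⟨hS, h2, ?_⟩
  have h3 : ‖u - G.r u‖ ≤ 8 * G.δ := by
    have a1 : ‖u - G.r u‖ ≤ ‖u - x‖ + ‖G.r u - x‖ := by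
      simpa using norm_sub_le (u - x) (G.r u - x)
    linarith
  have h4 := G.mvP hS h3 (G.self_near (G.r u))
  rwa [G.fix _ hS, sub_self, zero_sub, norm_neg] at h4

lemma normal_small {x y : E} (hx : x ∈ G.S) (hy : y ∈ G.S) (h : ‖x - y‖ ≤ 8 * G.δ) :
    ‖(x - y) - G.P x (x - y)‖ ≤ 1 / 4 * ‖x - y‖ :=
  G.pair_small hx hx hy (G.self_near x) h

end Geo

end Pool.Agent.Wein
end

-- part Pool.Agent.P.MP_e3ee0c_gt.WRk
section

/-! The dimension of the tangent spaces. -/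

open Set Filter Topology
open scoped ContDiff InnerProductSpace

namespace Pool.Agent.Wein

variable {E : Type} [NormedAddCommGroup E] [InnerProductSpace ℝ E] [FiniteDimensional ℝ E]

/-- The dimension of the tangent space. -/
noncomputable def Ret.rk (R : Ret E) (x : E) : ℕ :=
  Module.finrank ℝ (LinearMap.range (R.P x : E →ₗ[ℝ] E))

lemma Ret.trace_P (R : Ret E) {x : E} (hx : x ∈ R.S) :
    LinearMap.trace ℝ E (R.P x : E →ₗ[ℝ] E) = R.rk x := by
  have h : LinearMap.IsProj (LinearMap.range (R.P x : E →ₗ[ℝ] E)) (R.P x : E →ₗ[ℝ] E) :=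
    ⟨fun v => ⟨v, rfl⟩, by
      rintro _ ⟨v, rfl⟩
      exact R.P_idem hx v⟩
  exact h.trace

theorem Ret.rk_const (R : Ret E) (hN : IsPathConnected R.S) : ∃ n, ∀ x ∈ R.S, R.rk x = n := by
  obtain ⟨x0, hx0⟩ := hN.nonempty
  refine ⟨R.rk x0, fun x hx => ?_⟩
  let τ : (E →L[ℝ] E) →ₗ[ℝ] ℝ := (LinearMap.trace ℝ E).comp (ContinuousLinearMap.coeLM ℝ)
  have hc : Continuous fun y => τ (R.P y) :=
    τ.continuous_of_finiteDimensional.comp R.P_smooth.continuous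
  have h1 : ContinuousOn (fun y => ((R.rk y : ℕ) : ℝ)) R.S :=
    hc.continuousOn.congr fun y hy => (R.trace_P hy).symm
  have h2 : ContinuousOn R.rk R.S :=
    (Nat.isClosedEmbedding_coe_real.isInducing.continuousOn_iff).2 h1
  exact hN.isConnected.isPreconnected.constant h2 hx hx0

end Pool.Agent.Wein
end

-- part Pool.Agent.P.MP_e3ee0c_gt.WAD
section

/-! The abstract moving level deformation lemma. -/

open Set Filter Topology
open scoped ContDiff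

namespace Pool.Agent.Wein

/-- The flow of a time dependent smooth field with compact support. -/
theorem exists_time_flow {X : Type*} [NormedAddCommGroup X] [NormedSpace ℝ X]
    [FiniteDimensional ℝ X] (V : ℝ × X → X) (hV : ContDiff ℝ ∞ V) (hc : HasCompactSupport V) :
    ∃ e : ℝ × X → X, Continuous e ∧ (∀ z, e (0, z) = z) ∧
      (∀ t z, HasDerivAt (fun s => e (s, z)) (V (t, e (t, z))) t) ∧
      (∀ z y t0, (∀ t, V (t, y) = 0) → e (t0, z) = y → z = y) ∧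
      ∀ z, (∀ t ∈ Icc (0 : ℝ) 1, V (t, z) = 0) → ∀ t ∈ Icc (0 : ℝ) 1, e (t, z) = z := by
  obtain ⟨K, hK⟩ := hV.lipschitzWith_of_hasCompactSupport hc (by simp)
  have hKt : ∀ t : ℝ, LipschitzWith K fun z => V (t, z) := fun t => by
    simpa [Function.comp_def] using hK.comp (LipschitzWith.prodMk_left t)
  obtain ⟨Φ, hΦ, h0, hd, -⟩ := exists_flow (fun w : ℝ × X => ((1 : ℝ), V w))
    (contDiff_const.prodMk hV) _ ((LipschitzWith.const (1 : ℝ)).prodMk hK)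
  have h1 : ∀ t z, (Φ (t, (0, z))).1 = t := by
    intro t z
    have h2 : ∀ s, HasDerivAt (fun s => (Φ (s, ((0 : ℝ), z))).1 - s) 0 s := fun s => by
      have h4 : HasDerivAt (fun s => (Φ (s, ((0 : ℝ), z))).1) 1 s :=
        (ContinuousLinearMap.fst ℝ ℝ X).hasFDerivAt.comp_hasDerivAt s (hd s (0, z))
      simpa using h4.fun_sub (hasDerivAt_id' s)
    have h3 := is_const_of_deriv_eq_zero (fun s => (h2 s).differentiableAt)
      (fun s => (h2 s).deriv) t 0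
    rw [h0] at h3
    linarith
  have he : ∀ t z, HasDerivAt (fun s => (Φ (s, ((0 : ℝ), z))).2)
      (V (t, (Φ (t, ((0 : ℝ), z))).2)) t := by
    intro t z
    have : HasDerivAt (fun s => (Φ (s, ((0 : ℝ), z))).2) (V (Φ (t, ((0 : ℝ), z)))) t :=
      (ContinuousLinearMap.snd ℝ ℝ X).hasFDerivAt.comp_hasDerivAt t (hd t (0, z))
    have e1 : Φ (t, ((0 : ℝ), z)) = (t, (Φ (t, ((0 : ℝ), z))).2) := Prod.ext (h1 t z) rfl
    rw [← e1]; exact this
  refine ⟨fun w => (Φ (w.1, (0, w.2))).2, ?_, fun z => by simp [h0], he, ?_, ?_⟩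
  · have := hΦ.continuous
    fun_prop
  · intro z y t0 hy ht
    have := ODE_solution_unique_univ (v := fun t z => V (t, z)) (s := fun _ => univ)
      (f := fun s => (Φ (s, ((0 : ℝ), z))).2) (g := fun _ => y) (t₀ := t0)
      (fun t => (hKt t).lipschitzOnWith) (fun t => ⟨he t z, trivial⟩)
      (fun t => ⟨by rw [hy]; exact hasDerivAt_const t y, trivial⟩) ht
    simpa [h0] using congrFun this 0
  · intro z hz
    exact ODE_solution_unique (v := fun t z => V (t, z)) (g := fun _ => z) hKt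
      (fun t _ => (he t z).continuousAt.continuousWithinAt)
      (fun t _ => (he t z).hasDerivWithinAt) continuousOn_const
      (fun t ht => by rw [hz t (Ico_subset_Icc_self ht)]; exact hasDerivWithinAt_const _ _ _)
      (by simp [h0])

theorem abstract_deform {X Y : Type*} [NormedAddCommGroup X] [NormedSpace ℝ X]
    [FiniteDimensional ℝ X] [NormedAddCommGroup Y] [NormedSpace ℝ Y] {ι : Type*} [Fintype ι]
    (O Z : Set X) (hO : IsOpen O) (hZO : Z ⊆ O)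
    (Ψ : ℝ × X → ℝ) (hΨ : ContDiffOn ℝ ∞ Ψ (univ ×ˢ O))
    (B : ι → X → X) (hB : ∀ j, ContDiffOn ℝ ∞ (B j) O) (hB1 : ∀ j, ∀ z ∈ Z, ‖B j z‖ ≤ 1)
    (Λ : X → ℝ) (hΛ : DifferentiableOn ℝ Λ O) (C : ℝ)
    (hΛB : ∀ j, ∀ z ∈ Z, |fderiv ℝ Λ z (B j z)| ≤ C)
    (hcpt : ∀ c, IsCompact {z | z ∈ Z ∧ Λ z ≤ c})
    (hinv : ∀ (v : ℝ → X) (g : ι → ℝ → ℝ) (T : ℝ), 0 ≤ T →
      (∀ j, ContinuousOn (g j) (Icc 0 T)) →
      (∀ t ∈ Icc 0 T, v t ∈ O ∧ HasDerivAt v (∑ j, g j t • B j (v t)) t) → v 0 ∈ Z → v T ∈ Z)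
    (L : X →L[ℝ] Y) (hL : ∀ j, ∀ z ∈ O, L (B j z) = 0)
    (M : ℝ) (hM : ∀ u ∈ Icc (0 : ℝ) 1, ∀ z ∈ Z, fderiv ℝ Ψ (u, z) (1, 0) ≤ M)
    (η b : ℝ) (hη : 0 < η) (hb : 0 < b)
    (hPS : ∀ u ∈ Icc (0 : ℝ) 1, ∀ z ∈ Z, |Ψ (u, z)| ≤ b →
      η ≤ ∑ j, fderiv ℝ Ψ (u, z) (0, B j z) ^ 2 ∨ fderiv ℝ Ψ (u, z) (1, 0) < 0) :
    ∃ D : ℝ, 0 ≤ D ∧ ∀ K ⊆ Z, IsCompact K → ∃ e : ℝ × X → X, Continuous e ∧
      (∀ z, e (0, z) = z) ∧ (∀ u z, L (e (u, z)) = L z) ∧
      (∀ z ∈ K, ∀ u ∈ Icc (0 : ℝ) 1, e (u, z) ∈ Z ∧ (Ψ (0, z) ≤ 0 → Ψ (u, e (u, z)) ≤ 0)) ∧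
      (∀ z ∈ K, ∀ u ∈ Icc (0 : ℝ) 1, ∀ u' ∈ Icc (0 : ℝ) 1,
        ‖e (u, z) - e (u', z)‖ ≤ D * |u - u'|) ∧
      ∀ z, (∀ u ∈ Icc (0 : ℝ) 1, Ψ (u, z) ≤ -b) → ∀ u ∈ Icc (0 : ℝ) 1, e (u, z) = z := by
  set W : Set (ℝ × X) := univ ×ˢ O with hW
  have hWo : IsOpen W := isOpen_univ.prod hO
  set a : ι → ℝ × X → ℝ := fun j w => fderiv ℝ Ψ w (0, B j w.2) with ha
  set G : ℝ × X → ℝ := fun w => ∑ j, a j w ^ 2 with hG
  have hG0 : ∀ w, 0 ≤ G w := fun w => Finset.sum_nonneg fun k _ => sq_nonneg _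
  have haG : ∀ k w, a k w ^ 2 ≤ G w := fun k w =>
    Finset.single_le_sum (f := fun k => a k w ^ 2) (fun k _ => sq_nonneg _) (Finset.mem_univ k)
  set M' : ℝ := (|M| + 1) * (1 + η) / η with hM'
  have hM0 : 0 ≤ M' := by positivity
  set χ : ℝ → ℝ := fun t => Real.smoothTransition ((t + b) / b) with hχ
  have hχc : ContDiff ℝ ∞ χ :=
    Real.smoothTransition.contDiff.comp ((contDiff_id.add contDiff_const).div_const b)
  set co : ι → ℝ × X → ℝ := fun k w => -(M' * χ (Ψ w) * (a k w / (1 + G w))) with hco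
  have hco_le : ∀ k w, |co k w| ≤ M' := by
    intro k w
    have h1 : |a k w / (1 + G w)| ≤ 1 := by
      have := hG0 w
      rw [abs_div, abs_of_pos (by linarith : 0 < 1 + G w), div_le_one (by linarith)]
      nlinarith [haG k w, sq_abs (a k w), sq_nonneg (|a k w| - 1)]
    have h2 : 0 ≤ χ (Ψ w) := Real.smoothTransition.nonneg _
    have h3 : χ (Ψ w) ≤ 1 := Real.smoothTransition.le_one _
    simp only [hco, abs_neg, abs_mul, abs_of_nonneg hM0, abs_of_nonneg h2]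
    calc _ ≤ M' * 1 * 1 := by gcongr
      _ = M' := by ring
  have hBw : ∀ j, ContDiffOn ℝ ∞ (fun w : ℝ × X => B j w.2) W := fun j =>
    (hB j).comp contDiffOn_snd fun w hw => hw.2
  have hac : ∀ j, ContDiffOn ℝ ∞ (a j) W := fun j =>
    (hΨ.fderiv_of_isOpen hWo (by simp)).clm_apply (contDiffOn_const.prodMk (hBw j))
  have hGc : ContDiffOn ℝ ∞ G W := ContDiffOn.sum fun j _ => (hac j).pow 2
  have hcoc : ∀ j, ContDiffOn ℝ ∞ (co j) W := fun j =>
    ((contDiffOn_const.mul (hχc.comp_contDiffOn hΨ)).mul ((hac j).div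
      (contDiffOn_const.add hGc) fun w _ => (add_pos_of_pos_of_nonneg one_pos (hG0 w)).ne')).neg
  refine ⟨Fintype.card ι * M', by positivity, fun K hKZ hK => ?_⟩
  obtain ⟨c, hc⟩ := hK.bddAbove_image (hΛ.continuousOn.mono (hKZ.trans hZO))
  set D1 : ℝ := Fintype.card ι * (M' * |C|) with hD1
  have hD10 : 0 ≤ D1 := by positivity
  obtain ⟨κ, hκ, hκc, hκW, hκ01, hκ1⟩ := exists_bump (Icc (0 : ℝ) 1 ×ˢ {z | z ∈ Z ∧ Λ z ≤ c + D1})
    W (isCompact_Icc.prod (hcpt _)) hWo fun w hw => ⟨trivial, hZO hw.2.1⟩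
  set g : ι → ℝ × X → ℝ := fun j w => κ w • co j w with hg
  have hgc : ∀ j, ContDiff ℝ ∞ (g j) := fun j => contDiff_smul_cut W hWo κ hκ hκW _ (hcoc j)
  have hg_le : ∀ j w, |g j w| ≤ M' := fun j w => by
    simp only [hg, smul_eq_mul, abs_mul, abs_of_nonneg (hκ01 w).1]
    calc _ ≤ 1 * M' := by gcongr; exacts [(hκ01 w).2, hco_le j w]
      _ = M' := one_mul _
  set V : ℝ × X → X := fun w => κ w • ∑ j, co j w • B j w.2 with hV
  have hVg : ∀ w, V w = ∑ j, g j w • B j w.2 := fun w => by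
    simp only [hV, hg, Finset.smul_sum, smul_smul, smul_eq_mul]
  have hVc : ContDiff ℝ ∞ V := contDiff_smul_cut W hWo κ hκ hκW _
    (ContDiffOn.sum fun j _ => (hcoc j).smul (hBw j))
  have hκO : ∀ w : ℝ × X, w.2 ∉ O → κ w = 0 := fun w hw =>
    image_eq_zero_of_notMem_tsupport fun h => hw (hκW h).2
  obtain ⟨e, he, he0, hed, heu, hef⟩ := exists_time_flow V hVc hκc.smul_right
  have heO : ∀ z ∈ O, ∀ t, e (t, z) ∈ O := by
    intro z hz t
    by_contra hn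
    have := heu z _ t (fun s => by simp [hV, hκO (s, e (t, z)) hn]) rfl
    exact hn (this ▸ hz)
  have heZ : ∀ z ∈ Z, ∀ t, 0 ≤ t → e (t, z) ∈ Z := by
    intro z hz t ht
    refine hinv (fun s => e (s, z)) (fun j s => g j (s, e (s, z))) t ht (fun j => ?_)
      (fun s _ => ⟨heO z (hZO hz) s, ?_⟩) (by rwa [he0])
    · have := (hgc j).continuous
      exact Continuous.continuousOn (by fun_prop)
    · have := hed s z
      rwa [hVg] at this
  have hsum : ∀ (s : ι → ℝ) (r : ℝ), (∀ k, s k ≤ r) → ∑ k, s k ≤ Fintype.card ι * r :=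
    fun s r hs => by simpa using Finset.sum_le_card_nsmul Finset.univ s _ fun k _ => hs k
  have hκe : ∀ z ∈ K, ∀ t ∈ Icc (0 : ℝ) 1, κ (t, e (t, z)) = 1 := by
    intro z hz t ht
    refine hκ1.self_of_nhdsSet _ ⟨ht, heZ z (hKZ hz) t ht.1, ?_⟩
    have h1 : ∀ s ∈ Icc (0 : ℝ) 1, HasDerivWithinAt (fun s => Λ (e (s, z)))
        (fderiv ℝ Λ (e (s, z)) (V (s, e (s, z)))) (Icc 0 1) s := fun s _ =>
      ((hΛ.differentiableAt (hO.mem_nhds (heO z (hZO (hKZ hz)) s))).hasFDerivAt.comp_hasDerivAt s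
        (hed s z)).hasDerivWithinAt
    have h2 := (convex_Icc (0 : ℝ) 1).norm_image_sub_le_of_norm_hasDerivWithin_le (C := D1) h1
      (fun s hs => by
        rw [hVg, map_sum]
        refine (norm_sum_le _ _).trans (hsum _ _ fun j => ?_)
        rw [map_smul, norm_smul, Real.norm_eq_abs, Real.norm_eq_abs]
        exact mul_le_mul (hg_le _ _) ((hΛB j _ (heZ z (hKZ hz) s hs.1)).trans (le_abs_self C))
          (abs_nonneg _) hM0) (left_mem_Icc.2 zero_le_one) ht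
    rw [he0, sub_zero, Real.norm_eq_abs, Real.norm_eq_abs, abs_of_nonneg ht.1] at h2
    have h3 : Λ z ≤ c := hc ⟨z, hz, rfl⟩
    have h4 := mul_le_mul_of_nonneg_left ht.2 hD10
    have h5 := (abs_le.1 h2).2
    change Λ (e (t, z)) ≤ c + D1
    linarith
  refine ⟨e, he, he0, fun u z => ?_, fun z hz u hu => ⟨heZ z (hKZ hz) u hu.1, fun h0 => ?_⟩,
    fun z hz u hu u' hu' => ?_, fun z hz => hef z fun t ht => ?_⟩
  · have h2 : ∀ s, HasDerivAt (fun s => L (e (s, z))) 0 s := fun s => by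
      have h3 := L.hasFDerivAt.comp_hasDerivAt s (hed s z)
      have h4 : L (V (s, e (s, z))) = 0 := by
        by_cases hO' : e (s, z) ∈ O
        · simp [hVg, map_sum, hL _ _ hO']
        · simp [hV, hκO (s, e (s, z)) hO']
      rwa [h4] at h3
    have h3 := is_const_of_deriv_eq_zero (fun s => (h2 s).differentiableAt)
      (fun s => (h2 s).deriv) u 0
    rwa [he0] at h3
  · have hd : ∀ s, HasDerivAt (fun s => Ψ (s, e (s, z)))
        (fderiv ℝ Ψ (s, e (s, z)) (1, V (s, e (s, z)))) s := fun s =>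
      ((hΨ.contDiffAt (hWo.mem_nhds (x := (s, e (s, z)))
        ⟨trivial, heO z (hZO (hKZ hz)) s⟩)).differentiableAt (by simp)).hasFDerivAt.comp_hasDerivAt
        s ((hasDerivAt_id s).prodMk (hed s z))
    refine image_le_of_deriv_right_lt_deriv_boundary (f := fun s => Ψ (s, e (s, z)))
      (B := fun _ => 0) (B' := fun _ => 0) (fun s _ => (hd s).continuousAt.continuousWithinAt)
      (fun s _ => (hd s).hasDerivWithinAt) (by simpa [he0] using h0)
      (fun s => hasDerivAt_const s 0) (fun s hs hΨ0 => ?_) hu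
    have hs' := Ico_subset_Icc_self hs
    set y := e (s, z) with hy
    have hyZ : y ∈ Z := heZ z (hKZ hz) s hs.1
    have e1 : (((1 : ℝ), V (s, y)) : ℝ × X) = (1, 0) + ∑ k, co k (s, y) • ((0 : ℝ), B k y) := by
      ext
      · simp [Prod.fst_sum]
      · simp [Prod.snd_sum, hV, hy, hκe z hz s hs']
    have e2 : χ (Ψ (s, y)) = 1 := by
      simp only [hχ, hΨ0, zero_add, div_self hb.ne', Real.smoothTransition.one]
    have e3 : ∑ k, co k (s, y) * a k (s, y) = -(M' * (G (s, y) / (1 + G (s, y)))) := by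
      simp only [hco, e2]
      conv_rhs => rw [hG]
      simp only [Finset.sum_div, Finset.mul_sum, ← Finset.sum_neg_distrib]
      exact Finset.sum_congr rfl fun k _ => by ring
    rw [e1, map_add, map_sum]
    simp only [map_smul, smul_eq_mul]
    change _ + ∑ k, co k (s, y) * a k (s, y) < 0
    rw [e3]
    have h5 := hG0 (s, y)
    rcases hPS s hs' y hyZ (by rw [hΨ0, abs_zero]; exact hb.le) with h | h
    · have h6 : η / (1 + η) ≤ G (s, y) / (1 + G (s, y)) := by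
        rw [div_le_div_iff₀ (by linarith) (by linarith)]
        change η ≤ G (s, y) at h
        linarith
      have h7 := mul_le_mul_of_nonneg_left h6 hM0
      have h8 : M' * (η / (1 + η)) = |M| + 1 := by rw [hM']; field_simp
      linarith [hM s hs' y hyZ, le_abs_self M]
    · have : 0 ≤ M' * (G (s, y) / (1 + G (s, y))) := by positivity
      linarith
  · refine (convex_Icc (0 : ℝ) 1).norm_image_sub_le_of_norm_hasDerivWithin_le
      (f := fun s => e (s, z)) (fun s _ => (hed s z).hasDerivWithinAt) (fun s hs => ?_) hu' hu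
    rw [hVg]
    refine (norm_sum_le _ _).trans (hsum _ _ fun j => ?_)
    rw [norm_smul, Real.norm_eq_abs]
    simpa using mul_le_mul (hg_le j (s, e (s, z))) (hB1 j _ (heZ z (hKZ hz) s hs.1))
      (norm_nonneg _) hM0
  · have e2 : χ (Ψ (t, z)) = 0 := Real.smoothTransition.zero_of_nonpos
      (div_nonpos_of_nonpos_of_nonneg (by linarith [hz t ht]) hb.le)
    simp [hV, hco, e2]

end Pool.Agent.Wein
end

-- part Pool.Agent.P.MP_e3ee0c_gt.WCollarA
section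

/-! Collar coordinates along the flow of a Liouville field. -/

open Set Filter Topology
open scoped ContDiff InnerProductSpace

namespace Pool.Agent.Wein

/-- The slope of the smooth transition function. -/
lemma st_deriv {x : ℝ} (h0 : 0 < x) (h1 : x < 1) :
    ∃ d, HasDerivAt Real.smoothTransition d x ∧ 0 < d ∧
      (Real.smoothTransition x ≤ 1 / 2 → Real.smoothTransition x ≤ d) := by
  have hf : ∀ y, HasDerivAt expNegInvGlue (y⁻¹ ^ 2 * expNegInvGlue y) y := fun y => by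
    simpa using expNegInvGlue.hasDerivAt_polynomial_eval_inv_mul 1 y
  have h2 : HasDerivAt (fun y => expNegInvGlue (1 - y))
      ((1 - x)⁻¹ ^ 2 * expNegInvGlue (1 - x) * (-1)) x :=
    (hf (1 - x)).comp x ((hasDerivAt_id x).const_sub 1)
  have hp := Real.smoothTransition.pos_denom x
  have h3 := (hf x).div ((hf x).add h2) hp.ne'
  have ha := expNegInvGlue.pos_of_pos h0
  have hb := expNegInvGlue.pos_of_pos (sub_pos.2 h1)
  have hu : 1 ≤ x⁻¹ ^ 2 := one_le_pow₀ ((one_le_inv₀ h0).2 h1.le)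
  have hw : 1 ≤ (1 - x)⁻¹ ^ 2 := one_le_pow₀ ((one_le_inv₀ (sub_pos.2 h1)).2 (by linarith))
  refine ⟨_, h3, ?_, ?_⟩
  · simp only [Pi.add_apply]
    set a := expNegInvGlue x
    set b := expNegInvGlue (1 - x)
    set u := x⁻¹ ^ 2
    set w := (1 - x)⁻¹ ^ 2
    have : u * a * (a + b) - a * (u * a + w * b * -1) = a * b * (u + w) := by ring
    rw [this]
    positivity
  · simp only [Pi.add_apply, Real.smoothTransition]
    set a := expNegInvGlue x
    set b := expNegInvGlue (1 - x)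
    set u := x⁻¹ ^ 2
    set w := (1 - x)⁻¹ ^ 2
    have : u * a * (a + b) - a * (u * a + w * b * -1) = a * b * (u + w) := by ring
    rw [this]
    intro h
    rw [div_le_iff₀ hp] at h
    rw [div_le_div_iff₀ hp (by positivity)]
    have h4 : a + b ≤ b * (u + w) := by nlinarith
    have h5 : 0 ≤ a * (a + b) := by positivity
    nlinarith [mul_le_mul_of_nonneg_left h4 h5]

/-- A change of time that turns a positive periodic speed into the unit speed. -/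
lemma reparam (g : ℝ → ℝ) (hg : Continuous g) (hpos : ∀ t, 0 < g t) (P : ℝ) (hP : 0 < P)
    (hper : ∀ t, g (t + P) = g t) :
    ∃ (τ : ℝ → ℝ) (Q : ℝ), 0 < Q ∧ (∀ t, HasDerivAt τ (g (τ t))⁻¹ t) ∧
      ∀ t, τ (t + Q) = τ t + P := by
  have hint : ∀ a b, IntervalIntegrable g MeasureTheory.volume a b :=
    fun a b => hg.intervalIntegrable a b
  set S : ℝ → ℝ := fun t => ∫ x in (0 : ℝ)..t, g x with hS
  have hd : ∀ t, HasDerivAt S (g t) t := fun t =>
    (hg.integral_hasStrictDerivAt 0 t).hasDerivAt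
  have hmono : StrictMono S := strictMono_of_deriv_pos fun t => by rw [(hd t).deriv]; exact hpos t
  have hcont : Continuous S := continuous_iff_continuousAt.2 fun t => (hd t).continuousAt
  have hp : Function.Periodic g P := hper
  have hsurj : Function.Surjective S :=
    hcont.surjective (hp.tendsto_atTop_intervalIntegral_of_pos' (hint 0 P) hpos hP)
      (hp.tendsto_atBot_intervalIntegral_of_pos' (hint 0 P) hpos hP)
  let e := hmono.orderIsoOfSurjective S hsurj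
  have he : ∀ y, S (e.symm y) = y := fun y => e.apply_symm_apply y
  refine ⟨e.symm, S P, ?_, fun t => ?_, fun t => ?_⟩
  · exact intervalIntegral.intervalIntegral_pos_of_pos (hint 0 P) hpos hP
  · exact HasDerivAt.of_local_left_inverse e.symm.continuous.continuousAt (hd _) (hpos _).ne'
      (Eventually.of_forall he)
  · apply hmono.injective
    rw [he]
    have := hp.intervalIntegral_add_eq_add 0 (e.symm t) hint
    simp only [zero_add] at this
    change _ = ∫ x in (0 : ℝ)..(e.symm t + P), g x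
    rw [this]
    exact congrArg (· + S P) (he t).symm

variable {E : Type} [NormedAddCommGroup E] [InnerProductSpace ℝ E] [FiniteDimensional ℝ E]

/-- Collar coordinates around the level c of H. -/
structure Col (R : Ret E) (H β : E × E → ℝ) (c : ℝ) where
  Z : E × E → E × E
  Ψ : ℝ × (E × E) → E × E
  T : E × E → ℝ
  U : Set (E × E)
  η : ℝ
  hZ : ContDiff ℝ ∞ Z
  hΨ : ContDiff ℝ ∞ Ψ
  zero : ∀ x, Ψ (0, x) = x
  der : ∀ t x, HasDerivAt (fun s => Ψ (s, x)) (Z (Ψ (t, x))) t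
  add : ∀ s t x, Ψ (s + t, x) = Ψ (s, Ψ (t, x))
  mem : ∀ t, ∀ x ∈ Cot R.S, Ψ (t, x) ∈ Cot R.S
  hU : IsOpen U
  hT : ContDiffOn ℝ ∞ T U
  pos : 0 < η
  le_one : η ≤ 1
  lev : ∀ z ∈ U, H (Ψ (-T z, z)) = c
  tube : ∀ σ ∈ Cot R.S, H σ = c → ∀ s, |s| ≤ 2 * η → Ψ (s, σ) ∈ U ∧ T (Ψ (s, σ)) = s ∧
    0 < fderiv ℝ H (Ψ (s, σ)) (Z (Ψ (s, σ))) ∧
    ∀ᶠ y in 𝓝 (Ψ (s, σ)), y ∈ Cot R.S → Z y ∈ Tan (Cot R.S) y ∧
      ∀ v ∈ Tan (Cot R.S) y, omega (Z y) v = ⟪y.2, v.1⟫_ℝ + fderiv ℝ β y v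

/-- The differential of a flow. -/
lemma fderiv_flow {X : Type*} [NormedAddCommGroup X] [NormedSpace ℝ X] {Z : X → X}
    {Ψ : ℝ × X → X} (hΨ : ContDiff ℝ ∞ Ψ)
    (der : ∀ t x, HasDerivAt (fun s => Ψ (s, x)) (Z (Ψ (t, x))) t) (t : ℝ) (x : X) (a : ℝ) :
    fderiv ℝ Ψ (t, x) (a, 0) = a • Z (Ψ (t, x)) := by
  have h1 : HasFDerivAt Ψ (fderiv ℝ Ψ (t, x)) (t, x) :=
    (hΨ.differentiable (by simp) _).hasFDerivAt
  have h2 : HasDerivAt (fun s : ℝ => (s, x)) ((1 : ℝ), (0 : X)) t :=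
    (hasDerivAt_id t).prodMk (hasDerivAt_const t x)
  have h3 := (h1.comp_hasDerivAt t h2).unique (der t x)
  rw [← h3, ← map_smul]
  simp

theorem exists_col (R : Ret E) (H : E × E → ℝ) (hH : ContDiff ℝ ∞ H) (c : ℝ)
    (hV : IsCompact {z | z ∈ Cot R.S ∧ H z = c})
    (Y : E × E → E × E) (hY : ContDiff ℝ ∞ Y) (β : E × E → ℝ)
    (W : Set (E × E)) (hW : IsOpen W) (hSW : ∀ z ∈ Cot R.S, H z = c → z ∈ W)
    (hL : ∀ z ∈ Cot R.S, z ∈ W → Y z ∈ Tan (Cot R.S) z ∧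
      ∀ v ∈ Tan (Cot R.S) z, omega (Y z) v = ⟪z.2, v.1⟫_ℝ + fderiv ℝ β z v)
    (hout : ∀ z ∈ Cot R.S, H z = c → 0 < fderiv ℝ H z (Y z)) :
    Nonempty (Col R H β c) := by
  set K := {z | z ∈ Cot R.S ∧ H z = c} with hK
  obtain ⟨χ, hχ, hχc, -, -, hχ1⟩ := exists_bump K W hV hW fun z hz => hSW z hz.1 hz.2
  have hg : ContDiff ℝ ∞ fun z => χ z • Y z := hχ.smul hY
  set Z : E × E → E × E := fun z => fderiv ℝ R.hat.r z (χ z • Y z) with hZdef
  have hZ : ContDiff ℝ ∞ Z :=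
    (R.hat.smooth.fderiv_right (m := ∞) (by simp)).clm_apply hg
  have hZc : HasCompactSupport Z := by
    refine hχc.mono fun z hz h => hz ?_
    simp [hZdef, h]
  obtain ⟨L, hLip⟩ := hZ.lipschitzWith_of_hasCompactSupport hZc (by simp)
  obtain ⟨Ψ, hΨ, h0, hd, hadd⟩ := exists_flow Z hZ L hLip
  have hmem : ∀ t, ∀ x ∈ Cot R.S, Ψ (t, x) ∈ Cot R.S := fun t x hx =>
    R.hat.inv_global (fun s => Ψ (s, x)) (fun s => χ (Ψ (s, x)) • Y (Ψ (s, x)))
      (hg.continuous.comp (hΨ.continuous.comp (continuous_id.prodMk continuous_const)))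
      (fun s => hd s x) (by rw [h0]; exact hx) t
  have hZY : ∀ y ∈ Cot R.S, y ∈ W → χ y = 1 → Z y = Y y := fun y hy hyW h1 => by
    simp only [hZdef, h1, one_smul]
    exact (R.hat.tan_iff hy _).1 (hL y hy hyW).1
  have hm : ContDiff ℝ ∞ fun p : (E × E) × ℝ => (-p.2, p.1) :=
    contDiff_snd.neg.prodMk contDiff_fst
  have hG : ContDiff ℝ ∞ fun p : (E × E) × ℝ => H (Ψ (-p.2, p.1)) - c :=
    (hH.comp (hΨ.comp hm)).sub contDiff_const
  obtain ⟨U, W', T, hU, -, hW', -, hKW', hT, hlev, huniq⟩ :=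
    implicit_compact (fun p : (E × E) × ℝ => H (Ψ (-p.2, p.1)) - c) univ isOpen_univ
      hG.contDiffOn K hV (fun _ => 0) continuousOn_const (fun _ _ => mem_univ _)
      (fun k hk => by simp [h0, hk.2]) (fun k hk v hv => by
        have e1 : HasFDerivAt (fun p : (E × E) × ℝ => (-p.2, p.1))
            ((-ContinuousLinearMap.snd ℝ (E × E) ℝ).prod (ContinuousLinearMap.fst ℝ (E × E) ℝ))
            (k, 0) := hasFDerivAt_snd.neg.prodMk hasFDerivAt_fst
        have e2 : HasFDerivAt Ψ (fderiv ℝ Ψ (0, k)) (-(0 : ℝ), k) := by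
          rw [neg_zero]; exact (hΨ.differentiable (by simp) _).hasFDerivAt
        have e3 : HasFDerivAt H (fderiv ℝ H k) (Ψ (-(0 : ℝ), k)) := by
          rw [neg_zero, h0]; exact (hH.differentiable (by simp) _).hasFDerivAt
        have e4 := (e3.comp (k, (0 : ℝ)) (e2.comp (k, (0 : ℝ)) e1)).sub_const c
        have e5 : fderiv ℝ (fun p : (E × E) × ℝ => H (Ψ (-p.2, p.1)) - c) (k, 0) = _ := e4.fderiv
        rw [e5] at hv
        simp only [ContinuousLinearMap.comp_apply, ContinuousLinearMap.prod_apply,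
          neg_apply, ContinuousLinearMap.coe_snd',
          ContinuousLinearMap.coe_fst'] at hv
        rw [fderiv_flow hΨ hd, h0, map_smul,
          hZY k hk.1 (hSW k hk.1 hk.2) (hχ1.self_of_nhdsSet k hk)] at hv
        have := hout k hk.1 hk.2
        simpa [this.ne'] using hv)
  have hc1 : Continuous fun y => fderiv ℝ H y (Z y) :=
    (hH.continuous_fderiv (by simp)).clm_apply hZ.continuous
  have hev : ∀ᶠ s in 𝓝 (0 : ℝ), ∀ σ ∈ K, (Ψ (s, σ), s) ∈ W' ∧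
      0 < fderiv ℝ H (Ψ (s, σ)) (Z (Ψ (s, σ))) ∧ ∀ᶠ y in 𝓝 (Ψ (s, σ)), y ∈ W ∧ χ y = 1 := by
    refine hV.eventually_forall_of_forall_eventually fun σ hσ => ?_
    have ht : Tendsto Ψ (𝓝 (0, σ)) (𝓝 σ) := by
      have := hΨ.continuous.tendsto (0, σ)
      rwa [h0] at this
    have a1 : ∀ᶠ z : ℝ × (E × E) in 𝓝 (0, σ), (Ψ z, z.1) ∈ W' :=
      (ht.prodMk_nhds (continuous_fst.tendsto _)).eventually (hW'.mem_nhds (hKW' σ hσ))
    have a2 : ∀ᶠ y in 𝓝 σ, 0 < fderiv ℝ H y (Z y) := by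
      refine (hc1.tendsto σ).eventually (lt_mem_nhds ?_)
      rw [hZY σ hσ.1 (hSW σ hσ.1 hσ.2) (hχ1.self_of_nhdsSet σ hσ)]
      exact hout σ hσ.1 hσ.2
    have a3 : ∀ᶠ y in 𝓝 σ, y ∈ W ∧ χ y = 1 :=
      (Filter.Eventually.and (hW.mem_nhds (hSW σ hσ.1 hσ.2)) (hχ1.filter_mono (nhds_le_nhdsSet hσ)))
    exact a1.and ((ht.eventually a2).and (ht.eventually a3.eventually_nhds))
  obtain ⟨δ, hδ, hball⟩ := Metric.eventually_nhds_iff.1 hev
  refine ⟨⟨Z, Ψ, T, U, min (δ / 4) 1, hZ, hΨ, h0, hd, hadd, hmem, hU, hT, by positivity,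
    min_le_right _ _, fun z hz => sub_eq_zero.1 (hlev z hz).2, fun σ hσ hc s hs => ?_⟩⟩
  have hs' : dist s 0 < δ := by
    rw [Real.dist_eq, sub_zero]
    have := min_le_left (δ / 4) 1
    linarith
  obtain ⟨b1, b2, b3⟩ := hball hs' σ ⟨hσ, hc⟩
  obtain ⟨c1, c2⟩ := huniq _ _ b1 (by simp [← hadd, h0, hc])
  refine ⟨c1, c2.symm, b2, ?_⟩
  filter_upwards [b3] with y hy hyS
  rw [hZY y hyS hy.1 hy.2]
  exact hL y hyS hy.1

end Pool.Agent.Wein
end

-- part Pool.Agent.P.MP_e3ee0c_gt.WHam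
section

/-! The Hamiltonian flow on the cotangent bundle and its action. -/

open Set Filter Topology
open scoped ContDiff InnerProductSpace

namespace Pool.Agent.Wein

variable {E : Type} [NormedAddCommGroup E] [InnerProductSpace ℝ E]

structure Ham (R : Ret E) (F : E × E → ℝ) where
  Φ : ℝ × (E × E) → E × E
  A : ℝ × (E × E) → ℝ
  Φs : ContDiff ℝ ∞ Φ
  As : ContDiff ℝ ∞ A
  zero : ∀ z, Φ (0, z) = z
  add : ∀ s t z, Φ (s + t, z) = Φ (s, Φ (t, z))
  mem : ∀ t, ∀ z ∈ Cot R.S, Φ (t, z) ∈ Cot R.S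
  orbit : ∀ z ∈ Cot R.S, IsOrbit R.S F (fun t => Φ (t, z))
  stat : ∀ z ∈ Cot R.S, (F z = 0 ∨ F z = 1) → ∀ t, Φ (t, z) = z
  Fconst : ∀ z ∈ Cot R.S, ∀ t, F (Φ (t, z)) = F z
  Azero : ∀ z, A (0, z) = 0
  Aderiv : ∀ z ∈ Cot R.S, ∀ t, HasDerivAt (fun s => A (s, z))
    (⟪(Φ (t, z)).2, (deriv (fun s => Φ (s, z)) t).1⟫_ℝ - F (Φ (t, z))) t
  Aadd : ∀ s t, ∀ z ∈ Cot R.S, A (s + t, z) = A (t, z) + A (s, Φ (t, z))
  Astat : ∀ z ∈ Cot R.S, (∀ t, Φ (t, z) = z) → ∀ t, A (t, z) = -t * F z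
  var : ∀ t θ, ∀ z ∈ Cot R.S, ∀ v ∈ Tan (Cot R.S) z, fderiv ℝ A (t, z) (θ, v) =
    ⟪(Φ (t, z)).2, (fderiv ℝ Φ (t, z) (θ, v)).1⟫_ℝ - ⟪z.2, v.1⟫_ℝ - θ * F z

/-- The flow of a field together with the integral of a function along it. -/
theorem ham_aug {Y : Type} [NormedAddCommGroup Y] [NormedSpace ℝ Y] [FiniteDimensional ℝ Y]
    (X : Y → Y) (hX : ContDiff ℝ ∞ X) (K : NNReal) (hK : LipschitzWith K X)
    (L : Y → ℝ) (hL : ContDiff ℝ ∞ L) (K' : NNReal) (hK' : LipschitzWith K' L) :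
    ∃ (Φ : ℝ × Y → Y) (A : ℝ × Y → ℝ), ContDiff ℝ ∞ Φ ∧ ContDiff ℝ ∞ A ∧ (∀ z, Φ (0, z) = z) ∧
      (∀ z, A (0, z) = 0) ∧ (∀ t z, HasDerivAt (fun s => Φ (s, z)) (X (Φ (t, z))) t) ∧
      (∀ t z, HasDerivAt (fun s => A (s, z)) (L (Φ (t, z))) t) ∧
      (∀ s t z, Φ (s + t, z) = Φ (s, Φ (t, z))) ∧
      (∀ s t z, A (s + t, z) = A (t, z) + A (s, Φ (t, z))) ∧
      (∀ t z ξ, HasDerivAt (fun s => fderiv ℝ Φ (s, z) ξ)
        (fderiv ℝ X (Φ (t, z)) (fderiv ℝ Φ (t, z) ξ)) t) ∧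
      (∀ t z ξ, HasDerivAt (fun s => fderiv ℝ A (s, z) ξ)
        (fderiv ℝ L (Φ (t, z)) (fderiv ℝ Φ (t, z) ξ)) t) := by
  set V : Y × ℝ → Y × ℝ := fun w => (X w.1, L w.1) with hV
  have hVs : ContDiff ℝ ∞ V := (hX.comp contDiff_fst).prodMk (hL.comp contDiff_fst)
  have hVl : LipschitzWith (max (K * 1) (K' * 1)) V :=
    (hK.comp LipschitzWith.prod_fst).prodMk (hK'.comp LipschitzWith.prod_fst)
  obtain ⟨Ψ, hΨ, h0, hd, hadd⟩ := exists_flow V hVs _ hVl
  have hshift : ∀ s z a, Ψ (s, (z, a)) = Ψ (s, (z, 0)) + (0, a) := by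
    intro s z a
    have := Pool.Agent.Lib.Flow.curve_unique (v := V) (c := fun s => Ψ (s, (z, a)))
      (d := fun s => Ψ (s, (z, 0)) + (0, a))
      (fun t => hVs.contDiffAt.of_le (by simp)) (fun t => hd t _)
      (fun t => by
        have h1 := (hd t (z, 0)).add_const ((0 : Y), a)
        simpa [hV] using h1) (t₀ := 0) (by simp [h0])
    exact congrFun this s
  set Q : ℝ × Y → Y × ℝ := fun w => Ψ (w.1, (w.2, 0)) with hQ
  have hQs : ContDiff ℝ ∞ Q := hΨ.comp (contDiff_fst.prodMk (contDiff_snd.prodMk contDiff_const))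
  have hQd : Differentiable ℝ Q := hQs.differentiable (by simp)
  have hQt : ∀ t z, HasDerivAt (fun s => Q (s, z)) (V (Q (t, z))) t := fun t z => hd t (z, 0)
  have e1 : ∀ w ξ, fderiv ℝ (fun w => (Q w).1) w ξ = (fderiv ℝ Q w ξ).1 := by
    intro w ξ
    rw [(hQd w).hasFDerivAt.fst.fderiv]
    rfl
  have e2 : ∀ w ξ, fderiv ℝ (fun w => (Q w).2) w ξ = (fderiv ℝ Q w ξ).2 := by
    intro w ξ
    rw [(hQd w).hasFDerivAt.snd.fderiv]
    rfl
  have eV : ∀ w η, fderiv ℝ V w η = (fderiv ℝ X w.1 η.1, fderiv ℝ L w.1 η.1) := by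
    intro w η
    have a1 := (hX.differentiable (by simp) w.1).hasFDerivAt.comp w hasFDerivAt_fst
    have a2 := (hL.differentiable (by simp) w.1).hasFDerivAt.comp w hasFDerivAt_fst
    have a3 : fderiv ℝ V w = _ := (a1.prodMk a2).fderiv
    rw [a3]
    rfl
  have hvar : ∀ t z ξ, HasDerivAt (fun s => fderiv ℝ Q (s, z) ξ)
      (fderiv ℝ V (Q (t, z)) (fderiv ℝ Q (t, z) ξ)) t := fun t z ξ =>
    Pool.Agent.Lib.Flow.variation
      (hQs.contDiffAt.of_le (WithTop.coe_le_coe.2 (le_top : (2 : ℕ∞) ≤ ⊤)))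
      (hVs.differentiable (by simp) _) (Eventually.of_forall fun w => hQt w.1 w.2) ξ
  have hQadd : ∀ s t z, Q (s + t, z) = Q (s, (Q (t, z)).1) + (0, (Q (t, z)).2) := by
    intro s t z
    show Ψ (s + t, (z, 0)) = Ψ (s, ((Q (t, z)).1, 0)) + (0, (Q (t, z)).2)
    rw [hadd, ← hshift]
  refine ⟨fun w => (Q w).1, fun w => (Q w).2, hQs.fst, hQs.snd, fun z => ?_, fun z => ?_,
    fun t z => ?_, fun t z => ?_, fun s t z => ?_, fun s t z => ?_, fun t z ξ => ?_,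
    fun t z ξ => ?_⟩
  · simp [hQ, h0]
  · simp [hQ, h0]
  · exact (hasFDerivAt_fst (𝕜 := ℝ)).comp_hasDerivAt t (hQt t z)
  · exact (hasFDerivAt_snd (𝕜 := ℝ)).comp_hasDerivAt t (hQt t z)
  · simp [hQadd]
  · simp [hQadd, add_comm]
  · simp only [e1]
    have := (hasFDerivAt_fst (𝕜 := ℝ)).comp_hasDerivAt t (hvar t z ξ)
    rw [eV] at this
    exact this
  · simp only [e1, e2]
    have := (hasFDerivAt_snd (𝕜 := ℝ)).comp_hasDerivAt t (hvar t z ξ)
    rw [eV] at this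
    exact this

/-- The symplectic gradient of a function on E × E. -/
theorem ham_grad [FiniteDimensional ℝ E] (H : E × E → ℝ) (hH : ContDiff ℝ ∞ H) :
    ∃ X0 : E × E → E × E, ContDiff ℝ ∞ X0 ∧ (∀ z b, ⟪(X0 z).1, b⟫_ℝ = fderiv ℝ H z (0, b)) ∧
      ∀ z a, ⟪(X0 z).2, a⟫_ℝ = -fderiv ℝ H z (a, 0) := by
  have : CompleteSpace E := FiniteDimensional.complete ℝ E
  have hD : ContDiff ℝ ∞ (fderiv ℝ H) := hH.fderiv_right (m := ∞) (by simp)
  set T : (E →L[ℝ] ℝ) →L[ℝ] E :=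
    (InnerProductSpace.toDual ℝ E).symm.toContinuousLinearEquiv.toContinuousLinearMap with hT
  have hTa : ∀ (l : E →L[ℝ] ℝ) (a : E), ⟪T l, a⟫_ℝ = l a := fun l a =>
    InnerProductSpace.toDual_symm_apply
  refine ⟨fun z => (T ((fderiv ℝ H z).comp (ContinuousLinearMap.inr ℝ E E)),
    -T ((fderiv ℝ H z).comp (ContinuousLinearMap.inl ℝ E E))), ?_, fun z b => ?_, fun z a => ?_⟩
  · exact (T.contDiff.comp (hD.clm_comp contDiff_const)).prodMk
      (T.contDiff.comp (hD.clm_comp contDiff_const)).neg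
  · simp [hTa]
  · simp [hTa]

theorem ham_field [FiniteDimensional ℝ E] (R : Ret E) (F : E × E → ℝ) (hF : ContDiff ℝ ∞ F)
    (h01 : ∀ z ∈ Cot R.S, 0 ≤ F z ∧ F z ≤ 1) (Rb : ℝ)
    (hR : ∀ z ∈ Cot R.S, Rb ≤ ‖z.2‖ → F z = 1) :
    ∃ (X g : E × E → E × E) (L : E × E → ℝ) (K K' : NNReal), ContDiff ℝ ∞ X ∧ LipschitzWith K X ∧
      ContDiff ℝ ∞ L ∧ LipschitzWith K' L ∧ Continuous g ∧
      (∀ z, X z = fderiv ℝ R.hat.r z (g z)) ∧
      (∀ z ∈ Cot R.S, X z ∈ Tan (Cot R.S) z) ∧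
      (∀ z ∈ Cot R.S, ∀ u ∈ Tan (Cot R.S) z, omega (X z) u = -fderiv ℝ F z u) ∧
      (∀ z ∈ Cot R.S, (F z = 0 ∨ F z = 1) → X z = 0) ∧
      ∀ z ∈ Cot R.S, L z = ⟪z.2, (X z).1⟫_ℝ - F z := by
  have hr : Differentiable ℝ R.hat.r := R.hat.smooth.differentiable (by simp)
  have hFd : Differentiable ℝ F := hF.differentiable (by simp)
  obtain ⟨X0, hX0, hX1, hX2⟩ := ham_grad (F ∘ R.hat.r) (hF.comp R.hat.smooth)
  obtain ⟨χ, hχ, hχc, -, -, hχ1⟩ := exists_bump (R.S ×ˢ Metric.closedBall (0 : E) Rb) univ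
    (R.compact.prod (isCompact_closedBall 0 Rb)) isOpen_univ (subset_univ _)
  have hone : ∀ z ∈ Cot R.S, χ z = 1 ∨ F z = 1 := by
    intro z hz
    rcases le_total Rb ‖z.2‖ with h | h
    · exact Or.inr (hR z hz h)
    · exact Or.inl (hχ1.self_of_nhdsSet z ⟨hz.1, by simpa using h⟩)
  have hext : ∀ z ∈ Cot R.S, (F z = 0 ∨ F z = 1) → ∀ u ∈ Tan (Cot R.S) z, fderiv ℝ F z u = 0 := by
    intro z hz h u hu
    apply Tan.fderiv_eq_zero hu (hFd z)
    rcases h with h | h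
    · exact Or.inl (Eventually.of_forall fun y hy => h ▸ (h01 y hy).1)
    · exact Or.inr (Eventually.of_forall fun y hy => h ▸ (h01 y hy).2)
  have hcomp : ∀ z ∈ Cot R.S, ∀ u, fderiv ℝ (F ∘ R.hat.r) z u =
      fderiv ℝ F z (fderiv ℝ R.hat.r z u) := by
    intro z hz u
    rw [fderiv_comp z (hFd _) (hr z), R.hat.fix z hz]
    rfl
  set g : E × E → E × E := fun z => χ z • X0 z with hg
  have hgs : ContDiff ℝ ∞ g := hχ.smul hX0
  set X : E × E → E × E := fun z => fderiv ℝ R.hat.r z (g z) with hX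
  have hXs : ContDiff ℝ ∞ X := (R.hat.smooth.fderiv_right (m := ∞) (by simp)).clm_apply hgs
  have hXc : HasCompactSupport X := by
    refine hχc.mono fun z hz => ?_
    intro h
    apply hz
    simp [hX, hg, h]
  have htan : ∀ z ∈ Cot R.S, X z ∈ Tan (Cot R.S) z := fun z hz =>
    (R.hat.tan_iff hz _).2 (R.hat.idem hz _)
  have hom : ∀ z ∈ Cot R.S, ∀ u ∈ Tan (Cot R.S) z, omega (X z) u = -fderiv ℝ F z u := by
    intro z hz u hu
    obtain ⟨hx, hp⟩ := (R.mem_cot z).1 hz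
    have hu1 := R.tan_cot_fst hz hu
    have huu : fderiv ℝ R.hat.r z u = u := (R.hat.tan_iff hz u).1 hu
    have h1 : ⟪u.2, R.P z.1 (X0 z).1⟫_ℝ = ⟪(X0 z).1, u.2⟫_ℝ := by
      rw [← R.P_symm hx, real_inner_comm, hX1, hX1, hcomp z hz, hcomp z hz, R.fderiv_hat hz,
        R.fderiv_hat hz]
      simp [R.P_idem hx]
    have h2 : omega (fderiv ℝ R.hat.r z (X0 z)) u = -fderiv ℝ F z u := by
      rw [R.fderiv_hat hz]
      simp only [omega, inner_add_left]
      rw [R.DP_normal hx (R.P_idem hx _) hp hu1, R.P_symm hx, hu1, h1, hX1, hX2]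
      have h3 : fderiv ℝ (F ∘ R.hat.r) z u = fderiv ℝ (F ∘ R.hat.r) z (u.1, 0) +
          fderiv ℝ (F ∘ R.hat.r) z (0, u.2) := by
        rw [← map_add]
        simp
      rw [hcomp z hz u, huu] at h3
      linarith
    have h4 : omega (X z) u = χ z * omega (fderiv ℝ R.hat.r z (X0 z)) u := by
      simp only [hX, hg, map_smul, omega, Prod.smul_fst, Prod.smul_snd, inner_smul_left,
        inner_smul_right, conj_trivial]
      ring
    rw [h4, h2]
    rcases hone z hz with h | h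
    · rw [h, one_mul]
    · rw [hext z hz (Or.inr h) u hu]
      simp
  have hst : ∀ z ∈ Cot R.S, (F z = 0 ∨ F z = 1) → X z = 0 := fun z hz h =>
    R.omega_nondeg hz (htan z hz) fun u hu => by rw [hom z hz u hu, hext z hz h u hu, neg_zero]
  set M : E × E → ℝ := fun z => χ z * (⟪z.2, (X z).1⟫_ℝ - F z + 1) with hM
  have hMs : ContDiff ℝ ∞ M :=
    hχ.mul (((contDiff_snd.inner ℝ hXs.fst).sub hF).add contDiff_const)
  have hMc : HasCompactSupport M := hχc.mul_right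
  obtain ⟨K, hK⟩ := ContDiff.lipschitzWith_of_hasCompactSupport hXc hXs (by simp)
  obtain ⟨K', hK'⟩ := ContDiff.lipschitzWith_of_hasCompactSupport hMc hMs (by simp)
  refine ⟨X, g, fun z => M z - 1, K, K', hXs, hK, hMs.sub contDiff_const, ?_, hgs.continuous,
    fun z => rfl, htan, hom, hst, fun z hz => ?_⟩
  · refine LipschitzWith.of_dist_le_mul fun a b => ?_
    simpa [dist_sub_right] using hK'.dist_le_mul a b
  · rcases hone z hz with h | h
    · simp [hM, h]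
    · simp [hM, h, hst z hz (Or.inr h)]

theorem exists_ham [FiniteDimensional ℝ E] (R : Ret E) (F : E × E → ℝ) (hF : ContDiff ℝ ∞ F)
    (h01 : ∀ z ∈ Cot R.S, 0 ≤ F z ∧ F z ≤ 1) (Rb : ℝ)
    (hR : ∀ z ∈ Cot R.S, Rb ≤ ‖z.2‖ → F z = 1) : Nonempty (Ham R F) := by
  obtain ⟨X, g, L, K, K', hX, hK, hL, hK', hg, hXg, htan, hom, hst, hLe⟩ :=
    ham_field R F hF h01 Rb hR
  obtain ⟨Φ, A, hΦ, hA, h0, hA0, hd, hAd, hadd, hAadd, hvΦ, hvA⟩ := ham_aug X hX K hK L hL K' hK'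
  have hFd : Differentiable ℝ F := hF.differentiable (by simp)
  have hXd : Differentiable ℝ X := hX.differentiable (by simp)
  have hLd : Differentiable ℝ L := hL.differentiable (by simp)
  have hΦd : Differentiable ℝ Φ := hΦ.differentiable (by simp)
  have hAdd : Differentiable ℝ A := hA.differentiable (by simp)
  have hmem : ∀ t, ∀ z ∈ Cot R.S, Φ (t, z) ∈ Cot R.S := by
    intro t z hz
    refine R.hat.inv_global (fun s => Φ (s, z)) (fun s => g (Φ (s, z)))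
      (hg.comp (hΦ.continuous.comp (continuous_id.prodMk continuous_const))) (fun s => ?_)
      (by show Φ (0, z) ∈ Cot R.S; rw [h0]; exact hz) t
    rw [← hXg]
    exact hd s z
  have hFc : ∀ z ∈ Cot R.S, ∀ t, F (Φ (t, z)) = F z := by
    intro z hz t
    have h1 : ∀ s, HasDerivAt (fun s => F (Φ (s, z))) 0 s := by
      intro s
      have h2 := (hFd (Φ (s, z))).hasFDerivAt.comp_hasDerivAt s (hd s z)
      have h3 := hom _ (hmem s z hz) _ (htan _ (hmem s z hz))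
      have h4 : fderiv ℝ F (Φ (s, z)) (X (Φ (s, z))) = 0 := by
        simp only [omega, sub_self] at h3
        linarith
      rw [h4] at h2
      exact h2
    have := is_const_of_deriv_eq_zero (fun s => (h1 s).differentiableAt) (fun s => (h1 s).deriv) t 0
    simpa [h0] using this
  refine ⟨⟨Φ, A, hΦ, hA, h0, hadd, hmem, fun z hz t => ⟨hmem t z hz, _, hd t z,
    hom _ (hmem t z hz)⟩, fun z hz h t => ?_, hFc, hA0, fun z hz t => ?_,
    fun s t z _ => hAadd s t z, fun z hz h t => ?_, fun t θ z hz v hv => ?_⟩⟩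
  · have := Pool.Agent.Lib.Flow.curve_const (v := X) (c := fun s => Φ (s, z)) (t₀ := 0)
      (hX.contDiffAt.of_le (by simp)) (fun s => hd s z) (by simpa [h0] using hst z hz h) t
    simpa [h0] using this
  · rw [(hd t z).deriv, ← hLe _ (hmem t z hz)]
    exact hAd t z
  · have hz0 : X z = 0 := by
      have h1 := hd 0 z
      simp only [h] at h1
      exact h1.unique (hasDerivAt_const _ _)
    have h1 : ∀ s, HasDerivAt (fun s => A (s, z) + s * F z) 0 s := by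
      intro s
      have h2 := (hAd s z).add ((hasDerivAt_id s).mul_const (F z))
      rw [h s, hLe z hz, hz0] at h2
      exact h2.congr_deriv (by simp)
    have := is_const_of_deriv_eq_zero (fun s => (h1 s).differentiableAt) (fun s => (h1 s).deriv) t 0
    simp only [hA0, zero_mul, add_zero] at this
    linarith
  · have hsl : ∀ (s : ℝ) (w : E × E), HasFDerivAt (fun y : E × E => ((s, y) : ℝ × (E × E)))
        (ContinuousLinearMap.inr ℝ ℝ (E × E)) w := fun s w => hasFDerivAt_prodMk_right s w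
    have hw : ∀ s, fderiv ℝ Φ (s, z) (0, v) ∈ Tan (Cot R.S) (Φ (s, z)) := by
      intro s
      have h1 := (hΦd (s, z)).hasFDerivAt.comp z (hsl s z)
      have h2 := Tan.map hv (S' := Cot R.S) h1.differentiableAt
        (Eventually.of_forall fun y hy => hmem s y hy)
      rw [h1.fderiv] at h2
      exact h2
    have h1 : ∀ s, HasDerivAt (fun s => fderiv ℝ A (s, z) (0, v) -
        ⟪(Φ (s, z)).2, (fderiv ℝ Φ (s, z) (0, v)).1⟫_ℝ) 0 s := by
      intro s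
      have a1 : HasDerivAt (fun s => (Φ (s, z)).2) (X (Φ (s, z))).2 s :=
        (ContinuousLinearMap.snd ℝ E E).hasFDerivAt.comp_hasDerivAt s (hd s z)
      have a2 : HasDerivAt (fun s => (fderiv ℝ Φ (s, z) (0, v)).1)
          (fderiv ℝ X (Φ (s, z)) (fderiv ℝ Φ (s, z) (0, v))).1 s :=
        (ContinuousLinearMap.fst ℝ E E).hasFDerivAt.comp_hasDerivAt s (hvΦ s z (0, v))
      have a3 := (hvA s z (0, v)).sub (a1.inner ℝ a2)
      have b1 := ((hasFDerivAt_snd (𝕜 := ℝ) (p := Φ (s, z))).inner ℝ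
        (hXd (Φ (s, z))).hasFDerivAt.fst).sub (hFd (Φ (s, z))).hasFDerivAt
      have b2 := Tan.fderiv_congr (hw s) (hLd _) b1.differentiableAt
        (Eventually.of_forall fun y hy => hLe y hy)
      rw [b1.fderiv] at b2
      have b3 := hom _ (hmem s z hz) _ (hw s)
      refine a3.congr_deriv ?_
      rw [b2]
      simp only [omega] at b3
      simp
      linarith
    have h2 := is_const_of_deriv_eq_zero (fun s => (h1 s).differentiableAt)
      (fun s => (h1 s).deriv) t 0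
    have c1 : fderiv ℝ A (0, z) (0, v) = 0 := by
      have d1 := (hAdd (0, z)).hasFDerivAt.comp z (hsl 0 z)
      have d2 : (A ∘ fun y : E × E => (((0 : ℝ), y) : ℝ × (E × E))) = fun _ => 0 := funext hA0
      rw [d2] at d1
      exact congrArg (fun l => l v) (d1.unique (hasFDerivAt_const _ _))
    have c2 : fderiv ℝ Φ (0, z) (0, v) = v := by
      have d1 := (hΦd (0, z)).hasFDerivAt.comp z (hsl 0 z)
      have d2 : (Φ ∘ fun y : E × E => (((0 : ℝ), y) : ℝ × (E × E))) = id := funext h0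
      rw [d2] at d1
      exact congrArg (fun l => l v) (d1.unique (hasFDerivAt_id _))
    have c3 := Pool.Agent.Lib.Flow.fderiv_time (hAdd (t, z)) (hAd t z)
    have c4 := Pool.Agent.Lib.Flow.fderiv_time (hΦd (t, z)) (hd t z)
    have c5 : ((θ, v) : ℝ × (E × E)) = θ • ((1, 0) : ℝ × (E × E)) + (0, v) := by simp
    simp only [c1, c2, h0] at h2
    rw [c5, map_add, map_add, map_smul, map_smul, c3, c4, hLe _ (hmem t z hz), hFc z hz t]
    simp only [Prod.fst_add, Prod.smul_fst, inner_add_right, inner_smul_right, smul_eq_mul]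
    linarith

end Pool.Agent.Wein
end

-- part Pool.Agent.P.MP_e3ee0c_gt.WLift
section

/-! Circle valued functions with compact support on a cotangent bundle lift to the line. -/

open Set Filter Topology
open scoped ContDiff InnerProductSpace unitInterval

namespace Pool.Agent.Wein

/-- A continuous function on a compact space descends along a map to a Hausdorff space. -/
lemma lift_descend {K X : Type*} [TopologicalSpace K] [CompactSpace K] [TopologicalSpace X]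
    [T2Space X] (q : K → X) (hq : Continuous q) (G : K → ℝ) (hG : Continuous G)
    (h : ∀ a b, q a = q b → G a = G b) :
    ∃ g : X → ℝ, ContinuousOn g (range q) ∧ (∀ a, g (q a) = G a) ∧ ∀ z, z ∉ range q → g z = 0 := by
  classical
  let g : X → ℝ := fun z => if hz : ∃ a, q a = z then G hz.choose else 0
  have h1 : ∀ a, g (q a) = G a := fun a => by
    have hz : ∃ b, q b = q a := ⟨a, rfl⟩
    simp only [g, dif_pos hz]
    exact h _ _ hz.choose_spec
  refine ⟨g, ?_, h1, fun z hz => ?_⟩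
  · rw [continuousOn_iff_isClosed]
    intro t ht
    refine ⟨q '' (G ⁻¹' t), (((ht.preimage hG).isCompact).image hq).isClosed, ?_⟩
    ext z
    constructor
    · rintro ⟨hz, a, rfl⟩
      exact ⟨⟨a, by rw [mem_preimage, ← h1]; exact hz, rfl⟩, a, rfl⟩
    · rintro ⟨⟨a, ha, rfl⟩, -⟩
      exact ⟨by rw [mem_preimage, h1]; exact ha, a, rfl⟩
  · have hz' : ¬ ∃ a, q a = z := hz
    simp only [g, dif_neg hz']

variable {E : Type} [NormedAddCommGroup E] [InnerProductSpace ℝ E] [FiniteDimensional ℝ E]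

/-- The unit sphere bundle. -/
def Ret.Sph (R : Ret E) : Set (E × E) := {z | z ∈ Cot R.S ∧ ‖z.2‖ = 1}

lemma Ret.isCompact_Sph (R : Ret E) : IsCompact R.Sph := by
  have h1 : IsClosed R.Sph :=
    R.hat.closed.inter (isClosed_eq (continuous_norm.comp continuous_snd) continuous_const)
  refine (R.compact.prod (isCompact_sphere (0 : E) 1)).of_isClosed_subset h1 ?_
  rintro z ⟨hz, hn⟩
  exact ⟨hz.1, by simpa using hn⟩

omit [FiniteDimensional ℝ E] in
lemma Ret.smul_mem_cot (R : Ret E) {z : E × E} (hz : z ∈ Cot R.S) (c : ℝ) :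
    (z.1, c • z.2) ∈ Cot R.S := by
  obtain ⟨h1, h2⟩ := (R.mem_cot z).1 hz
  exact (R.mem_cot _).2 ⟨h1, by simp only [map_smul, h2]⟩

lemma Ret.one_lt_rank (R : Ret E) {x : E} (h : 2 ≤ R.rk x) :
    1 < Module.rank ℝ (LinearMap.range (R.P x : E →ₗ[ℝ] E)) := by
  rw [← Module.finrank_eq_rank]
  have h2 : 1 < R.rk x := h
  exact_mod_cast h2

omit [FiniteDimensional ℝ E] in
lemma Ret.mem_Sph (R : Ret E) {x : E} (hx : x ∈ R.S)
    (v : Metric.sphere (0 : LinearMap.range (R.P x : E →ₗ[ℝ] E)) 1) :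
    (x, ((v : LinearMap.range (R.P x : E →ₗ[ℝ] E)) : E)) ∈ R.Sph := by
  obtain ⟨⟨v, w, hw⟩, hv⟩ := v
  refine ⟨(R.mem_cot _).2 ⟨hx, ?_⟩, by simpa using hv⟩
  subst hw
  exact R.P_idem hx w

/-- A lift of a function that is constant on the fibres is constant on the fibres. -/
lemma Ret.const_fibre (R : Ret E) (hdim : ∀ x ∈ R.S, 2 ≤ R.rk x) (G : R.Sph → ℝ)
    (hG : Continuous G)
    (h : ∀ a b : R.Sph, a.1.1 = b.1.1 → (G a : UnitAddCircle) = G b) (a b : R.Sph)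
    (hab : a.1.1 = b.1.1) : G a = G b := by
  obtain ⟨⟨x, u⟩, ha⟩ := a
  obtain ⟨⟨y, v⟩, hb⟩ := b
  obtain rfl : x = y := hab
  have hx : x ∈ R.S := ha.1.1
  have : PreconnectedSpace (Metric.sphere (0 : LinearMap.range (R.P x : E →ₗ[ℝ] E)) 1) :=
    Subtype.preconnectedSpace (isPreconnected_sphere (R.one_lt_rank (hdim x hx)) 0 1)
  let j : Metric.sphere (0 : LinearMap.range (R.P x : E →ₗ[ℝ] E)) 1 → R.Sph :=
    fun w => ⟨_, R.mem_Sph hx w⟩
  have hj : Continuous j := Continuous.subtype_mk (by fun_prop) _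
  exact (AddCircle.isCoveringMap_coe (1 : ℝ)).const_of_comp (g := G ∘ j) (hG.comp hj)
    (fun w w' => h (j w) (j w') rfl)
    ⟨⟨u, u, ((R.mem_cot _).1 ha.1).2⟩, by simpa using ha.2⟩
    ⟨⟨v, v, ((R.mem_cot _).1 hb.1).2⟩, by simpa using hb.2⟩

theorem exists_lift (R : Ret E) (hdim : ∀ x ∈ R.S, 2 ≤ R.rk x) (f : E × E → UnitAddCircle)
    (hf : ContinuousOn f (Cot R.S)) (Rb : ℝ) (hRb : 0 < Rb)
    (hR : ∀ z ∈ Cot R.S, Rb ≤ ‖z.2‖ → f z = 0) :
    ∃ g : E × E → ℝ, ContinuousOn g (Cot R.S) ∧ (∀ z ∈ Cot R.S, (g z : UnitAddCircle) = f z) ∧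
      ∀ z ∈ Cot R.S, Rb ≤ ‖z.2‖ → g z = 0 := by
  have : CompactSpace R.Sph := isCompact_iff_compactSpace.1 R.isCompact_Sph
  let q : I × R.Sph → E × E := fun a => (a.2.1.1, ((1 - (a.1 : ℝ)) * Rb) • a.2.1.2)
  have hq : Continuous q := by fun_prop
  have hqm : ∀ a, q a ∈ Cot R.S := fun a => R.smul_mem_cot a.2.2.1 _
  have hqn : ∀ a, ‖(q a).2‖ = (1 - (a.1 : ℝ)) * Rb := fun a => by
    have h1 : 0 ≤ (1 - (a.1 : ℝ)) * Rb := mul_nonneg (sub_nonneg.2 a.1.2.2) hRb.le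
    simp only [q]
    rw [norm_smul, a.2.2.2, mul_one, Real.norm_of_nonneg h1]
  let H : C(I × R.Sph, UnitAddCircle) := ⟨f ∘ q, hf.comp_continuous hq hqm⟩
  have H0 : ∀ a, H (0, a) = (((ContinuousMap.const R.Sph (0 : ℝ)) a : ℝ) : UnitAddCircle) := by
    intro a
    have := hR (q (0, a)) (hqm _) (by rw [hqn]; simp)
    simpa [H] using this
  let G := (AddCircle.isCoveringMap_coe (1 : ℝ)).liftHomotopy H (ContinuousMap.const _ 0) H0
  have hG1 : ∀ a, (G a : UnitAddCircle) = f (q a) := fun a =>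
    congr_fun ((AddCircle.isCoveringMap_coe (1 : ℝ)).liftHomotopy_lifts H _ H0) a
  have hG0 : ∀ a, G (0, a) = 0 := fun a =>
    (AddCircle.isCoveringMap_coe (1 : ℝ)).liftHomotopy_zero H _ H0 a
  have hfac : ∀ a b, q a = q b → G a = G b := by
    rintro ⟨t, a⟩ ⟨s, b⟩ hab
    have h1 : (1 - (t : ℝ)) * Rb = (1 - (s : ℝ)) * Rb := by
      have e1 := hqn (t, a)
      have e2 := hqn (s, b)
      rw [hab] at e1
      exact e1.symm.trans e2
    have h2 : t = s := by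
      have := mul_right_cancel₀ hRb.ne' h1
      exact Subtype.ext (by linarith)
    subst h2
    have h3 : a.1.1 = b.1.1 := (Prod.ext_iff.1 hab).1
    by_cases ht : (1 - (t : ℝ)) * Rb = 0
    · refine R.const_fibre hdim (fun c => G (t, c)) (by fun_prop) (fun c d hcd => ?_) a b h3
      rw [hG1, hG1]
      simp only [q, ht, zero_smul, hcd]
    · have h4 : a.1.2 = b.1.2 := smul_right_injective E ht (Prod.ext_iff.1 hab).2
      rw [show a = b from Subtype.ext (Prod.ext h3 h4)]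
  obtain ⟨g, hg, hg1, hg2⟩ := lift_descend q hq G G.continuous hfac
  have hg0 : ∀ z : E × E, Rb ≤ ‖z.2‖ → g z = 0 := by
    intro z hz
    by_cases hzq : z ∈ range q
    · obtain ⟨⟨t, a⟩, rfl⟩ := hzq
      rw [hqn] at hz
      have h1 : t = 0 := Subtype.ext (le_antisymm (by
        by_contra hc
        have hc' : (0 : ℝ) < t := not_le.1 hc
        have := mul_pos hc' hRb
        simp only at hz
        linarith) t.2.1)
      rw [hg1, h1, hG0]
    · exact hg2 z hzq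
  have hsur : ∀ z ∈ Cot R.S, ‖z.2‖ < Rb → z ∈ range q := by
    rintro ⟨x, p⟩ hz hn
    have hx : x ∈ R.S := hz.1
    have hn' : ‖p‖ < Rb := hn
    have ht : 1 - ‖p‖ / Rb ∈ I := by
      have h1 : ‖p‖ / Rb ≤ 1 := (div_le_one hRb).2 hn'.le
      have h2 : 0 ≤ ‖p‖ / Rb := by positivity
      constructor <;> linarith
    have he : (1 - (1 - ‖p‖ / Rb)) * Rb = ‖p‖ := by field_simp; ring
    by_cases hp : p = 0
    · obtain ⟨w, hw⟩ := (isConnected_sphere (R.one_lt_rank (hdim x hx)) 0 zero_le_one).nonempty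
      refine ⟨(⟨_, ht⟩, ⟨_, R.mem_Sph hx ⟨w, hw⟩⟩), ?_⟩
      simp only [q]
      rw [he, hp, norm_zero, zero_smul]
    · have hp' : ‖p‖ ≠ 0 := norm_ne_zero_iff.2 hp
      refine ⟨(⟨_, ht⟩, ⟨_, R.smul_mem_cot hz ‖p‖⁻¹, norm_smul_inv_norm hp⟩), ?_⟩
      simp only [q]
      rw [he, smul_smul, mul_inv_cancel₀ hp', one_smul]
  refine ⟨g, ?_, fun z hz => ?_, fun z _ hz => hg0 z hz⟩
  · have h1 : ContinuousOn g {z : E × E | Rb ≤ ‖z.2‖} :=
      continuousOn_const.congr fun z hz => hg0 z hz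
    refine (hg.union_of_isClosed h1 (isCompact_range hq).isClosed
      (isClosed_le continuous_const (by fun_prop))).mono fun z hz => ?_
    rcases lt_or_ge ‖z.2‖ Rb with h | h
    · exact Or.inl (hsur z hz h)
    · exact Or.inr h
  · rcases lt_or_ge ‖z.2‖ Rb with h | h
    · obtain ⟨a, rfl⟩ := hsur z hz h
      rw [hg1, hG1]
    · rw [hg0 z h, hR z hz h]
      simp

end Pool.Agent.Wein
end

-- part Pool.Agent.P.MP_e3ee0c_gt.WTop
section

/-! Closed chains of points with short steps and their homotopy classes. -/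

open Set Filter Topology

namespace Pool.Agent.Wein

variable {E : Type} [NormedAddCommGroup E] [InnerProductSpace ℝ E]

namespace TopAux

/-- Projection of the line on the unit interval. -/
noncomputable def clamp (t : ℝ) : ℝ := max 0 (min 1 t)

lemma clamp_cont : Continuous clamp := by
  unfold clamp; fun_prop

lemma clamp_mem (t : ℝ) : clamp t ∈ Icc (0 : ℝ) 1 :=
  ⟨le_max_left _ _, max_le zero_le_one (min_le_left _ _)⟩

lemma clamp_zero : clamp 0 = 0 := by simp [clamp]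

lemma clamp_one : clamp 1 = 1 := by simp [clamp]

omit [InnerProductSpace ℝ E] in
lemma homotopic_of {X : Type} [TopologicalSpace X] {S : Set E} (f g : C(X, S))
    (K : ℝ × X → E) (hK : Continuous K) (hS : ∀ s ∈ Icc (0 : ℝ) 1, ∀ t, K (s, t) ∈ S)
    (h0 : ∀ t, K (0, t) = f t) (h1 : ∀ t, K (1, t) = g t) : f.Homotopic g := by
  refine ⟨⟨⟨fun p => ⟨K ((p.1 : ℝ), p.2), hS _ p.1.2 _⟩, ?_⟩, ?_, ?_⟩⟩
  · refine Continuous.subtype_mk ?_ _
    exact hK.comp ((continuous_subtype_val.comp continuous_fst).prodMk continuous_snd)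
  · intro t
    exact Subtype.ext (h0 t)
  · intro t
    exact Subtype.ext (h1 t)

/-- The hat functions of the subdivision of the circle. -/
noncomputable def hat (m : ℕ) (i : Fin m) (t : UnitAddCircle) : ℝ :=
  max 0 (1 - m * ‖t - ((((i : ℕ) : ℝ) / m : ℝ) : UnitAddCircle)‖)

lemma hat_cont (m : ℕ) (i : Fin m) : Continuous (hat m i) := by
  unfold hat; fun_prop

lemma hat_nonneg (m : ℕ) (i : Fin m) (t : UnitAddCircle) : 0 ≤ hat m i t := le_max_left _ _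

lemma hat_pos_iff {m : ℕ} [NeZero m] (i : Fin m) (t : UnitAddCircle) :
    0 < hat m i t ↔ ‖t - ((((i : ℕ) : ℝ) / m : ℝ) : UnitAddCircle)‖ < 1 / m := by
  have hm : (0 : ℝ) < m := by exact_mod_cast NeZero.pos m
  unfold hat
  rw [lt_max_iff, lt_div_iff₀ hm]
  constructor
  · rintro (h | h)
    · exact absurd h (lt_irrefl _)
    · linarith
  · intro h
    right
    linarith

lemma exists_hat_pos {m : ℕ} [NeZero m] (t : UnitAddCircle) : ∃ i : Fin m, 0 < hat m i t := by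
  have hm : (0 : ℝ) < m := by exact_mod_cast NeZero.pos m
  have hmz : (0 : ℤ) < m := by exact_mod_cast NeZero.pos m
  obtain ⟨τ, rfl⟩ := QuotientAddGroup.mk_surjective t
  set k : ℤ := ⌊τ * m⌋ with hk
  have h0 : 0 ≤ k % m := Int.emod_nonneg _ hmz.ne'
  have h1 : k % m < m := Int.emod_lt_of_pos _ hmz
  refine ⟨⟨(k % m).toNat, by omega⟩, ?_⟩
  rw [hat_pos_iff]
  have hc : (((k % m).toNat : ℕ) : ℝ) = ((k % m : ℤ) : ℝ) := by
    have : (((k % m).toNat : ℕ) : ℤ) = k % m := Int.toNat_of_nonneg h0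
    exact_mod_cast congrArg (fun z : ℤ => (z : ℝ)) this
  simp only [hc]
  rw [← AddCircle.coe_sub, UnitAddCircle.norm_eq]
  refine lt_of_le_of_lt (round_le _ (k / m)) ?_
  have hd : (k : ℝ) = m * ((k / m : ℤ) : ℝ) + ((k % m : ℤ) : ℝ) := by
    exact_mod_cast (Int.mul_ediv_add_emod k m).symm
  have he : τ - ((k % m : ℤ) : ℝ) / m - ((k / m : ℤ) : ℝ) = (τ * m - k) / m := by
    rw [hd]; field_simp; ring
  have hf1 : (k : ℝ) ≤ τ * m := Int.floor_le _
  have hf2 : τ * m < k + 1 := Int.lt_floor_add_one _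
  rw [he, abs_of_nonneg (div_nonneg (by linarith) hm.le)]
  exact div_lt_div_of_pos_right (by linarith) hm

lemma eq_succ {m : ℕ} [NeZero m] {i j : Fin m} {k : ℤ}
    (h : ((i : ℕ) : ℤ) - ((j : ℕ) : ℤ) - k * m = 1) : i = j + 1 := by
  apply Fin.ext
  rw [Fin.val_add, Fin.val_one', Nat.add_mod_mod]
  have h1 : (((j : ℕ) + 1 : ℕ) : ℤ) % m = ((i : ℕ) : ℤ) % m := by
    have : (((j : ℕ) + 1 : ℕ) : ℤ) = ((i : ℕ) : ℤ) + (-k) * m := by push_cast; linarith
    rw [this, Int.add_mul_emod_self_right]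
  have h2 : ((j : ℕ) + 1) % m = (i : ℕ) % m := by exact_mod_cast h1
  rw [h2, Nat.mod_eq_of_lt i.2]

lemma eq_of {m : ℕ} [NeZero m] {i j : Fin m} {k : ℤ}
    (h : ((i : ℕ) : ℤ) - ((j : ℕ) : ℤ) - k * m = 0) : i = j := by
  apply Fin.ext
  have h1 : ((j : ℕ) : ℤ) % m = ((i : ℕ) : ℤ) % m := by
    have : ((j : ℕ) : ℤ) = ((i : ℕ) : ℤ) + (-k) * m := by linarith
    rw [this, Int.add_mul_emod_self_right]
  have h2 : (j : ℕ) % m = (i : ℕ) % m := by exact_mod_cast h1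
  rw [Nat.mod_eq_of_lt i.2, Nat.mod_eq_of_lt j.2] at h2
  exact h2.symm

lemma near {m : ℕ} [NeZero m] {i j : Fin m} {t : UnitAddCircle} (hi : 0 < hat m i t)
    (hj : 0 < hat m j t) : i = j ∨ i = j + 1 ∨ j = i + 1 := by
  have hm : (0 : ℝ) < m := by exact_mod_cast NeZero.pos m
  rw [hat_pos_iff] at hi hj
  have h : ‖(((((i : ℕ) : ℝ) / m - ((j : ℕ) : ℝ) / m : ℝ)) : UnitAddCircle)‖ < 2 / m := by
    rw [AddCircle.coe_sub]
    have := norm_sub_le (t - ((((j : ℕ) : ℝ) / m : ℝ) : UnitAddCircle))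
      (t - ((((i : ℕ) : ℝ) / m : ℝ) : UnitAddCircle))
    rw [sub_sub_sub_cancel_left] at this
    have e : (2 : ℝ) / m = 1 / m + 1 / m := by ring
    linarith
  rw [UnitAddCircle.norm_eq] at h
  set k : ℤ := round (((i : ℕ) : ℝ) / m - ((j : ℕ) : ℝ) / m) with hk
  have he : ((i : ℕ) : ℝ) / m - ((j : ℕ) : ℝ) / m - k =
      ((((i : ℕ) : ℤ) - ((j : ℕ) : ℤ) - k * m : ℤ) : ℝ) / m := by
    push_cast; field_simp
  rw [he, abs_div, abs_of_pos hm, div_lt_div_iff_of_pos_right hm] at h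
  have h2 : |((i : ℕ) : ℤ) - ((j : ℕ) : ℤ) - k * m| < 2 := by exact_mod_cast h
  rw [abs_lt] at h2
  have : ((i : ℕ) : ℤ) - ((j : ℕ) : ℤ) - k * m = 0 ∨ ((i : ℕ) : ℤ) - ((j : ℕ) : ℤ) - k * m = 1 ∨
      ((i : ℕ) : ℤ) - ((j : ℕ) : ℤ) - k * m = -1 := by omega
  rcases this with h | h | h
  · exact Or.inl (eq_of h)
  · exact Or.inr (Or.inl (eq_succ h))
  · exact Or.inr (Or.inr (eq_succ (k := -k) (by linarith)))

lemma sum_pos {m : ℕ} [NeZero m] (t : UnitAddCircle) : 0 < ∑ i : Fin m, hat m i t := by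
  obtain ⟨j, hj⟩ := exists_hat_pos (m := m) t
  exact Finset.sum_pos' (fun i _ => hat_nonneg m i t) ⟨j, Finset.mem_univ _, hj⟩

/-- The polygon through the points of a chain. -/
noncomputable def pl {m : ℕ} (x : Fin m → E) (t : UnitAddCircle) : E :=
  (∑ i : Fin m, hat m i t)⁻¹ • ∑ i : Fin m, hat m i t • x i

lemma pl_cont {m : ℕ} [NeZero m] {X : Type} [TopologicalSpace X] {x : X → Fin m → E}
    {t : X → UnitAddCircle} (hx : Continuous x) (ht : Continuous t) :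
    Continuous fun p => pl (x p) (t p) := by
  unfold pl
  refine Continuous.smul (Continuous.inv₀ ?_ fun p => (sum_pos (t p)).ne') ?_
  · exact continuous_finsetSum _ fun i _ => (hat_cont m i).comp ht
  · exact continuous_finsetSum _ fun i _ =>
      ((hat_cont m i).comp ht).smul ((continuous_apply i).comp hx)

lemma pl_near {m : ℕ} [NeZero m] (x : Fin m → E) (t : UnitAddCircle) (y : E) (ρ : ℝ)
    (h : ∀ i, 0 < hat m i t → ‖x i - y‖ ≤ ρ) : ‖pl x t - y‖ ≤ ρ := by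
  have hs := sum_pos (m := m) t
  have e : pl x t - y = (∑ i : Fin m, hat m i t)⁻¹ • ∑ i : Fin m, hat m i t • (x i - y) := by
    simp only [pl, smul_sub, Finset.sum_sub_distrib, ← Finset.sum_smul, smul_smul,
      inv_mul_cancel₀ hs.ne', one_smul]
  rw [e, norm_smul, norm_inv, Real.norm_of_nonneg hs.le, inv_mul_le_iff₀ hs, Finset.sum_mul]
  refine (norm_sum_le _ _).trans (Finset.sum_le_sum fun i _ => ?_)
  rw [norm_smul, Real.norm_of_nonneg (hat_nonneg m i t)]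
  rcases (hat_nonneg m i t).eq_or_lt with h0 | h0
  · rw [← h0]; simp
  · exact mul_le_mul_of_nonneg_left (h i h0) h0.le

end TopAux

open TopAux

namespace Geo

variable (G : Geo E) {m : ℕ} [NeZero m]

def StepLe (ρ : ℝ) (x : Fin m → E) : Prop := ∀ i, x i ∈ G.S ∧ ‖x i - x (i + 1)‖ ≤ ρ

/-- The chain can be joined to a constant chain through chains with short steps. -/
def Triv (x : Fin m → E) : Prop :=
  ∃ c : ℝ → Fin m → E, Continuous c ∧ c 0 = x ∧ (∀ t, G.StepLe (4 * G.δ) (c t)) ∧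
    ∃ x0, c 1 = fun _ => x0

lemma triv_const {x : Fin m → E} {x0 : E} (h0 : x0 ∈ G.S) (h : ∀ i, x i = x0) : G.Triv x := by
  refine ⟨fun _ _ => x0, continuous_const, (funext h).symm, fun t i => ⟨h0, ?_⟩, x0, rfl⟩
  have := G.δpos
  simp only [sub_self, norm_zero]
  positivity

lemma triv_concat (p : ℝ → Fin m → E) (hp : Continuous p)
    (hs : ∀ t, G.StepLe (4 * G.δ) (p t)) (h : G.Triv (p 1)) : G.Triv (p 0) := by
  obtain ⟨c, hc, hc0, hcs, x0, hc1⟩ := h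
  refine ⟨fun t => if t ≤ 1 / 2 then p (2 * t) else c (2 * t - 1), ?_, ?_, ?_, x0, ?_⟩
  · refine Continuous.if_le (by fun_prop) (by fun_prop) continuous_id continuous_const ?_
    intro t ht
    have ht' : t = 1 / 2 := ht
    rw [ht']
    norm_num [hc0]
  · norm_num
  · intro t
    by_cases ht : t ≤ 1 / 2
    · simp only [if_pos ht]; exact hs _
    · simp only [if_neg ht]; exact hcs _
  · norm_num [hc1]

lemma triv_of_path (v : ℝ → Fin m → E) (T : ℝ) (hT : 0 ≤ T) (hv : ContinuousOn v (Icc 0 T))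
    (hs : ∀ t ∈ Icc 0 T, G.StepLe (3 * G.δ) (v t)) (h : G.Triv (v T)) : G.Triv (v 0) := by
  have hmem : ∀ t, T * clamp t ∈ Icc 0 T := fun t =>
    ⟨mul_nonneg hT (clamp_mem t).1, mul_le_of_le_one_right hT (clamp_mem t).2⟩
  have := G.triv_concat (fun t => v (T * clamp t))
    (hv.comp_continuous (continuous_const.mul clamp_cont) hmem)
    (fun t i => ⟨(hs _ (hmem t) i).1, (hs _ (hmem t) i).2.trans (by linarith [G.δpos])⟩)
    (by simpa only [clamp_one, mul_one] using h)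
  simpa only [clamp_zero, mul_zero] using this

omit [NeZero m] in
lemma r_near {x u : E} (hx : x ∈ G.S) (h : ‖u - x‖ ≤ 8 * G.δ) :
    G.r u ∈ G.S ∧ ‖G.r u - x‖ ≤ 5 / 4 * ‖u - x‖ := by
  refine ⟨G.maps (G.ball x hx u h), ?_⟩
  have h1 := G.mv x hx u x h (by simp only [sub_self, norm_zero]; linarith [G.δpos])
  rw [G.fix x hx] at h1
  have h2 : ‖fderiv ℝ G.r x (u - x)‖ ≤ ‖u - x‖ := G.toRet.norm_P_le hx _
  have h3 := norm_add_le (G.r u - x - fderiv ℝ G.r x (u - x)) (fderiv ℝ G.r x (u - x))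
  rw [sub_add_cancel] at h3
  linarith

lemma triv_open {x : Fin m → E} (hs : G.StepLe (3 * G.δ) x) (h : G.Triv x) :
    ∀ᶠ x' in 𝓝 x, G.StepLe (3 * G.δ) x' → G.Triv x' := by
  have hδ := G.δpos
  filter_upwards [Metric.ball_mem_nhds x (show 0 < G.δ / 4 by positivity)] with x' hx' hs'
  have hd : ∀ i, ‖x' i - x i‖ ≤ G.δ / 4 := fun i => by
    rw [← dist_eq_norm]
    exact (dist_le_pi_dist x' x i).trans (le_of_lt hx')
  have hu : ∀ t i, ‖x i + (1 - clamp t) • (x' i - x i) - x i‖ ≤ G.δ / 4 := fun t i => by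
    have ht := clamp_mem t
    rw [add_sub_cancel_left, norm_smul, Real.norm_of_nonneg (by linarith [ht.2])]
    exact (mul_le_of_le_one_left (norm_nonneg _) (by linarith [ht.1])).trans (hd i)
  have hr : ∀ t i, G.r (x i + (1 - clamp t) • (x' i - x i)) ∈ G.S ∧
      ‖G.r (x i + (1 - clamp t) • (x' i - x i)) - x i‖ ≤ G.δ / 2 := fun t i => by
    have := G.r_near (hs i).1 ((hu t i).trans (by linarith))
    exact ⟨this.1, this.2.trans (by linarith [hu t i])⟩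
  have hc : Continuous fun t i => G.r (x i + (1 - clamp t) • (x' i - x i)) :=
    continuous_pi fun i => G.smooth.continuous.comp
      (continuous_const.add ((continuous_const.sub clamp_cont).smul continuous_const))
  have := G.triv_concat (fun t i => G.r (x i + (1 - clamp t) • (x' i - x i))) hc
    (fun t i => ⟨(hr t i).1, by
      have h1 := (hr t i).2
      have h2 := (hr t (i + 1)).2
      have h3 := (hs i).2
      have h4 := dist_triangle4 (G.r (x i + (1 - clamp t) • (x' i - x i))) (x i) (x (i + 1))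
        (G.r (x (i + 1) + (1 - clamp t) • (x' (i + 1) - x (i + 1))))
      rw [dist_comm (x (i + 1))] at h4
      simp only [dist_eq_norm] at h4
      linarith⟩)
    (by
      have e : (fun i => G.r (x i + (1 - clamp 1) • (x' i - x i))) = x := by
        funext i
        rw [clamp_one, sub_self, zero_smul, add_zero, G.fix _ (hs i).1]
      simpa only [e] using h)
  have e : (fun i => G.r (x i + (1 - clamp 0) • (x' i - x i))) = x' := by
    funext i
    rw [clamp_zero, sub_zero, one_smul, add_sub_cancel, G.fix _ (hs' i).1]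
  simpa only [e] using this

lemma pl_mem {x : Fin m → E} (hs : G.StepLe (4 * G.δ) x) (t : UnitAddCircle) :
    G.r (pl x t) ∈ G.S := by
  have hδ := G.δpos
  obtain ⟨j, hj⟩ := exists_hat_pos (m := m) t
  refine (G.r_near (hs j).1 ((pl_near x t (x j) (4 * G.δ) fun i hi => ?_).trans (by linarith))).1
  rcases near hi hj with h | h | h
  · rw [h, sub_self, norm_zero]; positivity
  · rw [h, norm_sub_rev]; exact (hs j).2
  · rw [h]; exact (hs i).2

omit [NeZero m] in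
/-- Fine subdivisions of a loop that is not null-homotopic are not trivial. -/
theorem exists_nontriv (γ : C(UnitAddCircle, G.S)) (hγ : ¬ γ.Nullhomotopic) :
    ∃ m₀ : ℕ, ∀ (m : ℕ) [NeZero m], m₀ ≤ m →
      ¬ G.Triv (fun i : Fin m => ((γ (((i : ℕ) : ℝ) / m : ℝ) : G.S) : E)) := by
  have hδ := G.δpos
  obtain ⟨ε, hε, huc⟩ := Metric.uniformContinuous_iff.1
    (CompactSpace.uniformContinuous_of_continuous γ.continuous) G.δ hδ
  obtain ⟨m₀, hm₀⟩ := exists_nat_gt (1 / ε)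
  refine ⟨m₀, fun m _ hm ⟨c, hc, hc0, hcs, x0, hc1⟩ => hγ ?_⟩
  have hmpos : (0 : ℝ) < m := by exact_mod_cast NeZero.pos m
  have hme : 1 / (m : ℝ) < ε := by
    have h1 : (m₀ : ℝ) ≤ m := by exact_mod_cast hm
    rw [div_lt_iff₀ hmpos]
    rw [div_lt_iff₀ hε] at hm₀
    nlinarith
  have hx0 : x0 ∈ G.S := by
    have := (hcs 1 0).1
    rwa [hc1] at this
  have hr := G.smooth.continuous
  have hK : Continuous fun p : ℝ × UnitAddCircle => pl (c p.1) p.2 :=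
    pl_cont (hc.comp continuous_fst) continuous_snd
  have hK0 : Continuous fun t : UnitAddCircle => pl (c 0) t :=
    pl_cont continuous_const continuous_id
  let f0 : C(UnitAddCircle, G.S) :=
    ⟨fun t => ⟨G.r (pl (c 0) t), G.pl_mem (hcs 0) t⟩, (hr.comp hK0).subtype_mk _⟩
  have hγc : Continuous fun t : UnitAddCircle => (γ t : E) :=
    continuous_subtype_val.comp γ.continuous
  have hnear : ∀ t, ‖pl (c 0) t - (γ t : E)‖ ≤ G.δ := fun t => by
    refine pl_near _ _ _ _ fun i hi => ?_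
    rw [hat_pos_iff, norm_sub_rev, ← dist_eq_norm] at hi
    have := huc (hi.trans hme)
    rw [Subtype.dist_eq, dist_eq_norm] at this
    rw [hc0]
    exact this.le
  have H1 : γ.Homotopic f0 := by
    refine homotopic_of γ f0 (fun p => G.r ((γ p.2 : E) + p.1 • (pl (c 0) p.2 - (γ p.2 : E))))
      (hr.comp ((hγc.comp continuous_snd).add (continuous_fst.smul
        ((hK0.comp continuous_snd).sub (hγc.comp continuous_snd))))) ?_ ?_ ?_
    · intro s hs t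
      refine (G.r_near (γ t).2 ?_).1
      rw [add_sub_cancel_left, norm_smul, Real.norm_of_nonneg hs.1]
      exact (mul_le_of_le_one_left (norm_nonneg _) hs.2).trans ((hnear t).trans (by linarith))
    · intro t
      simp only [zero_smul, add_zero]
      exact G.fix _ (γ t).2
    · intro t
      simp only [one_smul, add_sub_cancel]
      rfl
  have H2 : f0.Homotopic (ContinuousMap.const _ ⟨x0, hx0⟩) := by
    refine homotopic_of _ _ (fun p => G.r (pl (c p.1) p.2)) (hr.comp hK)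
      (fun s _ t => G.pl_mem (hcs s) t) (fun t => rfl) fun t => ?_
    have : pl (c 1) t = x0 := by
      have h := pl_near (c 1) t x0 0 fun i _ => by rw [hc1]; simp
      rwa [norm_le_zero_iff, sub_eq_zero] at h
    simp only [this]
    exact G.fix _ hx0
  exact ⟨_, H1.trans H2⟩

end Geo

end Pool.Agent.Wein
end

-- part Pool.Agent.P.MP_e3ee0c_gt.WVolA
section

/-! Conformally symplectic injections with large factors do not fit in a compact set. -/

open Set Filter Topology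
open scoped ContDiff InnerProductSpace

namespace Pool.Agent.Wein

section Volume

open MeasureTheory

variable {V : Type*} [NormedAddCommGroup V] [NormedSpace ℝ V]
  {F : Type*} [NormedAddCommGroup F] [NormedSpace ℝ F]
  {ι : Type*} [Fintype ι] [DecidableEq ι]

/-- The Gram determinant of a bilinear form pulled back along a linear map. -/
noncomputable def gramDet (b : Module.Basis ι ℝ F) (Ω : V →L[ℝ] V →L[ℝ] ℝ) (A : F →L[ℝ] V) : ℝ :=
  (Matrix.of fun i j => Ω (A (b i)) (A (b j))).det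

lemma gramDet_eq (b : Module.Basis ι ℝ F) (Ω : V →L[ℝ] V →L[ℝ] ℝ) (A : F →L[ℝ] V) :
    gramDet b Ω A = (LinearMap.BilinForm.toMatrix b
      (Ω.toBilinForm.comp (A : F →ₗ[ℝ] V) (A : F →ₗ[ℝ] V))).det := by
  unfold gramDet
  congr 1
  ext i j
  simp [LinearMap.BilinForm.toMatrix_apply]

lemma gramDet_comp (b : Module.Basis ι ℝ F) (Ω : V →L[ℝ] V →L[ℝ] ℝ) (S : F →L[ℝ] V)
    (B : F →L[ℝ] F) : gramDet b Ω (S.comp B) = B.det ^ 2 * gramDet b Ω S := by
  rw [gramDet_eq, gramDet_eq]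
  have h : Ω.toBilinForm.comp (S.comp B : F →ₗ[ℝ] V) (S.comp B : F →ₗ[ℝ] V) =
      (Ω.toBilinForm.comp (S : F →ₗ[ℝ] V) (S : F →ₗ[ℝ] V)).comp (B : F →ₗ[ℝ] F)
        (B : F →ₗ[ℝ] F) := by
    ext u v
    simp
  rw [h, LinearMap.BilinForm.toMatrix_comp b b, Matrix.det_mul, Matrix.det_mul,
    Matrix.det_transpose, LinearMap.det_toMatrix]
  unfold ContinuousLinearMap.det
  ring

lemma gramDet_continuous (b : Module.Basis ι ℝ F) (Ω : V →L[ℝ] V →L[ℝ] ℝ) :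
    Continuous (gramDet b Ω) := by
  unfold gramDet
  refine Continuous.matrix_det (continuous_matrix fun i j => ?_)
  simp only [Matrix.of_apply]
  fun_prop

lemma gramDet_smul (b : Module.Basis ι ℝ F) (Ω : V →L[ℝ] V →L[ℝ] ℝ) (A A' : F →L[ℝ] V) (l : ℝ)
    (h : ∀ u v, Ω (A' u) (A' v) = l * Ω (A u) (A v)) :
    gramDet b Ω A' = l ^ Fintype.card ι * gramDet b Ω A := by
  unfold gramDet
  rw [← Matrix.det_smul]
  congr 1
  ext i j
  simp [h]

lemma gramDet_ne_zero (b : Module.Basis ι ℝ F) (Ω : V →L[ℝ] V →L[ℝ] ℝ) (A : F →L[ℝ] V)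
    (h : ∀ u, (∀ v, Ω (A u) (A v) = 0) → u = 0) : gramDet b Ω A ≠ 0 := by
  intro h0
  obtain ⟨c, hc, hv⟩ := Matrix.exists_vecMul_eq_zero_iff.2 h0
  apply hc
  have h1 : ∀ j, Ω (A (∑ i, c i • b i)) (A (b j)) = 0 := by
    intro j
    have := congrFun hv j
    simpa [Matrix.vecMul, dotProduct, map_sum] using this
  have h2 : ∑ i, c i • b i = 0 := by
    apply h
    intro v
    have e : A v = ∑ j, b.repr v j • A (b j) := by
      conv_lhs => rw [← b.sum_repr v]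
      simp only [map_sum, map_smul]
    rw [e, map_sum]
    refine Finset.sum_eq_zero fun j _ => ?_
    rw [map_smul, h1, smul_zero]
  funext i
  exact Fintype.linearIndependent_iff.1 b.linearIndependent c h2 i

lemma gramDet_eq_zero (b : Module.Basis ι ℝ F) (Ω : V →L[ℝ] V →L[ℝ] ℝ) (A : F →L[ℝ] V)
    {u : F} (hu : u ≠ 0) (h : A u = 0) : gramDet b Ω A = 0 := by
  apply Matrix.exists_vecMul_eq_zero_iff.1
  refine ⟨fun i => b.repr u i, ?_, ?_⟩
  · intro h0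
    apply hu
    rw [← b.sum_repr u]
    refine Finset.sum_eq_zero fun i _ => ?_
    rw [congrFun h0 i]
    simp
  · funext j
    have h1 : Ω (A (∑ i, b.repr u i • b i)) (A (b j)) = 0 := by
      rw [b.sum_repr u, h]
      simp
    simp only [map_sum, map_smul, sum_apply, smul_apply,
      smul_eq_mul] at h1
    simpa [Matrix.vecMul, dotProduct] using h1

lemma gramDet_le [FiniteDimensional ℝ F] (b : Module.Basis ι ℝ F) (Ω : V →L[ℝ] V →L[ℝ] ℝ)
    (m : ℝ) (hm : 0 ≤ m) :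
    ∃ C : ℝ, 0 < C ∧ ∀ (A : F →L[ℝ] V) (κ : V →L[ℝ] F), (∀ a, ‖A a‖ ≤ m * ‖κ (A a)‖) →
      |gramDet b Ω A| ≤ C * (κ.comp A).det ^ 2 := by
  set β : ℝ := ∑ i, ‖b i‖ with hβ
  have hβ0 : 0 ≤ β := Finset.sum_nonneg fun i _ => norm_nonneg _
  have hb : ∀ i, ‖b i‖ ≤ β := fun i =>
    Finset.single_le_sum (f := fun i => ‖b i‖) (fun i _ => norm_nonneg _) (Finset.mem_univ i)
  set x : ℝ := ‖Ω‖ * (m * β) * (m * β) with hx
  have hx0 : 0 ≤ x := by positivity
  refine ⟨(Fintype.card ι).factorial * x ^ Fintype.card ι + 1, by positivity, ?_⟩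
  intro A κ hA
  by_cases hdet : (κ.comp A).det = 0
  · obtain ⟨u, hu, hu0⟩ : ∃ u, u ≠ 0 ∧ κ (A u) = 0 := by
      have h1 := LinearMap.bot_lt_ker_of_det_eq_zero hdet
      obtain ⟨u, hu1, hu2⟩ := SetLike.exists_of_lt h1
      exact ⟨u, by simpa using hu2, by simpa using hu1⟩
    have h2 := hA u
    rw [hu0, norm_zero, mul_zero] at h2
    rw [gramDet_eq_zero b Ω A hu (norm_le_zero_iff.1 h2), hdet]
    simp
  · set B := (κ.comp A).toContinuousLinearEquivOfDetNeZero hdet with hB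
    set S : F →L[ℝ] V := A.comp (B.symm : F →L[ℝ] F) with hS
    have hBa : ∀ a, B a = κ (A a) := fun a => rfl
    have h1 : A = S.comp (κ.comp A) := by
      ext a
      simp [hS, ← hBa]
    have h2 : ∀ a, ‖S a‖ ≤ m * ‖a‖ := by
      intro a
      have := hA (B.symm a)
      rw [← hBa, B.apply_symm_apply] at this
      exact this
    have h3 : |gramDet b Ω S| ≤ (Fintype.card ι).factorial * x ^ Fintype.card ι := by
      have := Matrix.det_le (A := Matrix.of fun i j => Ω (S (b i)) (S (b j)))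
        (abv := AbsoluteValue.abs) (x := x) (by
          intro i j
          have e1 : ‖S (b i)‖ ≤ m * β := (h2 _).trans (mul_le_mul_of_nonneg_left (hb i) hm)
          have e2 : ‖S (b j)‖ ≤ m * β := (h2 _).trans (mul_le_mul_of_nonneg_left (hb j) hm)
          have e3 := Ω.le_opNorm₂ (S (b i)) (S (b j))
          simp only [AbsoluteValue.abs_apply, Matrix.of_apply]
          rw [Real.norm_eq_abs] at e3
          refine e3.trans ?_
          rw [hx]
          gcongr)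
      simpa [gramDet] using this
    have h4 : gramDet b Ω A = (κ.comp A).det ^ 2 * gramDet b Ω S := by
      conv_lhs => rw [h1]
      exact gramDet_comp b Ω S _
    rw [h4, abs_mul, abs_of_nonneg (sq_nonneg _), mul_comm]
    gcongr
    linarith

lemma near_bound (G : GRet V) (w : V) :
    ∃ ρ : ℝ, 0 < ρ ∧ (∀ y ∈ G.S, ∀ y' ∈ G.S, dist y w ≤ ρ → dist y' w ≤ ρ →
      fderiv ℝ G.r w y = fderiv ℝ G.r w y' → y = y') ∧
      ∀ y ∈ G.S, dist y w ≤ ρ → ∀ u ∈ Tan G.S y, ‖u‖ ≤ 2 * ‖fderiv ℝ G.r w u‖ := by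
  have hc : Continuous (fderiv ℝ G.r) := G.smooth.continuous_fderiv (by simp)
  have hd : Differentiable ℝ G.r := G.smooth.differentiable (by simp)
  obtain ⟨δ, hδ, h⟩ := Metric.continuousAt_iff.1 (hc.continuousAt (x := w)) (1 / 2) (by norm_num)
  have hb : ∀ y ∈ Metric.closedBall w (δ / 2), ‖fderiv ℝ G.r y - fderiv ℝ G.r w‖ ≤ 1 / 2 := by
    intro y hy
    have := h (x := y) (lt_of_le_of_lt (Metric.mem_closedBall.1 hy) (by linarith))
    rw [dist_eq_norm] at this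
    exact this.le
  refine ⟨δ / 2, by linarith, ?_, ?_⟩
  · intro y hy y' hy' h1 h2 he
    have := (convex_closedBall w (δ / 2)).norm_image_sub_le_of_norm_fderiv_le'
      (𝕜 := ℝ) (fun z _ => hd z) hb (x := y') (y := y) h2 h1
    rw [G.fix y hy, G.fix y' hy', map_sub, he, sub_self, sub_zero] at this
    have h0 : ‖y - y'‖ = 0 := le_antisymm (by linarith [norm_nonneg (y - y')]) (norm_nonneg _)
    exact sub_eq_zero.1 (norm_eq_zero.1 h0)
  · intro y hy h1 u hu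
    have e := (G.tan_iff hy u).1 hu
    have h2 := (fderiv ℝ G.r y - fderiv ℝ G.r w).le_of_opNorm_le (hb y h1) u
    rw [sub_apply, e] at h2
    have h3 : ‖u‖ ≤ ‖u - fderiv ℝ G.r w u‖ + ‖fderiv ℝ G.r w u‖ := by
      simpa using norm_add_le (u - fderiv ℝ G.r w u) (fderiv ℝ G.r w u)
    linarith

/-- A small parametrised piece of the retract. -/
lemma exists_param (G : GRet V) (b : Module.Basis ι ℝ F) (Ω : V →L[ℝ] V →L[ℝ] ℝ) {z0 : V}
    (hz0 : z0 ∈ G.S) (κ : V →L[ℝ] F) (j : F →L[ℝ] V) (h1 : ∀ a, κ (j a) = a)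
    (h2 : ∀ v, j (κ v) = fderiv ℝ G.r z0 v)
    (hnd : ∀ v ∈ Tan G.S z0, (∀ u ∈ Tan G.S z0, Ω v u = 0) → v = 0) {K : Set V}
    (hint : ∀ᶠ y in 𝓝 z0, y ∈ G.S → y ∈ K) :
    ∃ (c : F → V) (ρ γ : ℝ), 0 < ρ ∧ 0 < γ ∧ Differentiable ℝ c ∧
      InjOn c (Metric.closedBall 0 ρ) ∧ ∀ a ∈ Metric.closedBall (0 : F) ρ, c a ∈ K ∧
        (∀ v, fderiv ℝ c a v ∈ Tan G.S (c a)) ∧ γ ≤ |gramDet b Ω (fderiv ℝ c a)| := by
  have hd : Differentiable ℝ G.r := G.smooth.differentiable (by simp)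
  set c : F → V := fun a => G.r (z0 + j a) with hc
  have hlin : ContDiff ℝ ∞ fun a : F => z0 + j a := contDiff_const.add j.contDiff
  have hcs : ContDiff ℝ ∞ c := G.smooth.comp hlin
  have hcd : Differentiable ℝ c := hcs.differentiable (by simp)
  have hD : ∀ a, fderiv ℝ c a = (fderiv ℝ G.r (z0 + j a)).comp j := by
    intro a
    exact ((hd (z0 + j a)).hasFDerivAt.comp a (j.hasFDerivAt.const_add z0)).fderiv
  have hc0 : c 0 = z0 := by simp [hc, G.fix z0 hz0]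
  have hD0 : fderiv ℝ c 0 = j := by
    ext a
    rw [hD]
    simp [← h2, h1]
  have hjt : ∀ a, j a ∈ Tan G.S z0 := by
    intro a
    rw [G.tan_iff hz0, ← h2, h1]
  have hg0 : gramDet b Ω (fderiv ℝ c 0) ≠ 0 := by
    rw [hD0]
    apply gramDet_ne_zero
    intro u hu
    have := hnd (j u) (hjt u) (by
      intro v hv
      rw [← (G.tan_iff hz0 v).1 hv, ← h2]
      exact hu _)
    rw [← h1 u, this, map_zero]
  have hDc : Continuous (fderiv ℝ c) := hcs.continuous_fderiv (by simp)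
  have hgc : Continuous fun a => |gramDet b Ω (fderiv ℝ c a)| :=
    ((gramDet_continuous b Ω).comp hDc).abs
  have hpos : 0 < |gramDet b Ω (fderiv ℝ c 0)| := abs_pos.2 hg0
  have e1 : ∀ᶠ a in 𝓝 (0 : F), |gramDet b Ω (fderiv ℝ c 0)| / 2 < |gramDet b Ω (fderiv ℝ c a)| :=
    hgc.continuousAt.eventually (lt_mem_nhds (by linarith))
  have e2 : ∀ᶠ a in 𝓝 (0 : F), z0 + j a ∈ G.W := by
    apply hlin.continuous.continuousAt.eventually
    simpa using G.isOpen.mem_nhds (G.sub hz0)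
  have e3 : ∀ᶠ a in 𝓝 (0 : F), c a ∈ G.S → c a ∈ K := by
    have : Tendsto c (𝓝 0) (𝓝 z0) := by
      rw [← hc0]
      exact hcs.continuous.tendsto 0
    exact this.eventually hint
  have e4 : ∀ᶠ a in 𝓝 (0 : F),
      ‖κ.comp (fderiv ℝ c a) - ContinuousLinearMap.id ℝ F‖ < 1 / 2 := by
    have hq : Continuous fun a => ‖κ.comp (fderiv ℝ c a) - ContinuousLinearMap.id ℝ F‖ := by
      fun_prop
    apply hq.continuousAt.eventually (gt_mem_nhds _)
    have : κ.comp (fderiv ℝ c 0) - ContinuousLinearMap.id ℝ F = 0 := by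
      ext a
      simp [hD0, h1]
    simp [this]
  obtain ⟨ρ, hρ, hall⟩ := Metric.eventually_nhds_iff.1 (e1.and (e2.and (e3.and e4)))
  have hall' : ∀ a ∈ Metric.closedBall (0 : F) (ρ / 2), _ := fun a ha =>
    hall (y := a) (lt_of_le_of_lt (Metric.mem_closedBall.1 ha) (by linarith))
  refine ⟨c, ρ / 2, |gramDet b Ω (fderiv ℝ c 0)| / 2, by linarith, by linarith, hcd, ?_, ?_⟩
  · intro a ha a' ha' he
    have := (convex_closedBall (0 : F) (ρ / 2)).norm_image_sub_le_of_norm_hasFDerivWithin_le'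
      (𝕜 := ℝ) (f := fun a => κ (c a)) (f' := fun a => κ.comp (fderiv ℝ c a))
      (φ := ContinuousLinearMap.id ℝ F) (C := 1 / 2)
      (fun z _ => (κ.hasFDerivAt.comp z (hcd z).hasFDerivAt).hasFDerivWithinAt)
      (fun z hz => (hall' z hz).2.2.2.le) ha' ha
    simp only [he, sub_self, zero_sub, norm_neg, ContinuousLinearMap.id_apply] at this
    have h0 : ‖a - a'‖ = 0 := le_antisymm (by linarith [norm_nonneg (a - a')]) (norm_nonneg _)
    exact sub_eq_zero.1 (norm_eq_zero.1 h0)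
  · intro a ha
    obtain ⟨a1, a2, a3, -⟩ := hall' a ha
    refine ⟨a3 (G.maps a2), fun v => ?_, a1.le⟩
    rw [hD]
    exact G.fderiv_mem_tan a2 _

theorem no_expand_gen [FiniteDimensional ℝ F] [Nontrivial F] (G : GRet V)
    (Ω : V →L[ℝ] V →L[ℝ] ℝ)
    (hch : ∀ w ∈ G.S, ∃ (κ : V →L[ℝ] F) (j : F →L[ℝ] V), (∀ a, κ (j a) = a) ∧
      ∀ v, j (κ v) = fderiv ℝ G.r w v)
    (K : Set V) (hK : IsCompact K) (hKS : K ⊆ G.S) (z0 : V) (hz0 : z0 ∈ G.S)
    (hnd : ∀ v ∈ Tan G.S z0, (∀ u ∈ Tan G.S z0, Ω v u = 0) → v = 0)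
    (hint : ∀ᶠ y in 𝓝 z0, y ∈ G.S → y ∈ K) (φ : ℝ → V → V)
    (hφ : ∀ t, Differentiable ℝ (φ t)) (hinj : ∀ t, Function.Injective (φ t))
    (hcot : ∀ t, MapsTo (φ t) G.S G.S) (hmaps : ∀ t, 0 ≤ t → MapsTo (φ t) K K)
    (hconf : ∀ t, 0 ≤ t → ∀ z ∈ K, ∀ u ∈ Tan G.S z, ∀ v ∈ Tan G.S z,
      Ω (fderiv ℝ (φ t) z u) (fderiv ℝ (φ t) z v) = Real.exp t * Ω u v) : False := by
  classical
  borelize F
  set μ : Measure F := Measure.addHaar with hμ
  set b := Module.finBasis ℝ F with hb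
  have hd1 : 1 ≤ Fintype.card (Fin (Module.finrank ℝ F)) := by
    rw [Fintype.card_fin]
    exact Module.finrank_pos
  obtain ⟨κ0, j0, h01, h02⟩ := hch z0 hz0
  obtain ⟨c, ρ, γ, hρ, hγ, hcd, hcinj, hc⟩ := exists_param G b Ω hz0 κ0 j0 h01 h02 hnd hint
  set A : Set F := Metric.closedBall 0 ρ with hA
  have key : ∃ D : ENNReal, D ≠ ⊤ ∧ ∀ n : ℕ, n * μ (A ∩ (φ n ∘ c) ⁻¹' K) ≤ D := by
    refine hK.induction_on (p := fun S => ∃ D : ENNReal, D ≠ ⊤ ∧
      ∀ n : ℕ, n * μ (A ∩ (φ n ∘ c) ⁻¹' S) ≤ D) ⟨0, by simp, by simp⟩ ?_ ?_ ?_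
    · rintro S S' hS ⟨D, hD, h⟩
      refine ⟨D, hD, fun n => le_trans ?_ (h n)⟩
      gcongr
    · rintro S S' ⟨D, hD, h⟩ ⟨D', hD', h'⟩
      refine ⟨D + D', ENNReal.add_ne_top.2 ⟨hD, hD'⟩, fun n => ?_⟩
      rw [preimage_union, inter_union_distrib_left]
      calc (n : ENNReal) * μ (A ∩ (φ n ∘ c) ⁻¹' S ∪ A ∩ (φ n ∘ c) ⁻¹' S')
          ≤ n * (μ (A ∩ (φ n ∘ c) ⁻¹' S) + μ (A ∩ (φ n ∘ c) ⁻¹' S')) := by
            gcongr
            exact measure_union_le _ _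
        _ ≤ D + D' := by
            rw [mul_add]
            exact add_le_add (h n) (h' n)
    · intro w hw
      obtain ⟨κ, j, -, h2⟩ := hch w (hKS hw)
      obtain ⟨r, hr, hi, hl⟩ := near_bound G w
      obtain ⟨C, hC, hCle⟩ := gramDet_le b Ω (2 * ‖j‖) (by positivity)
      set S : Set V := K ∩ Metric.closedBall w r with hS
      have hSc : IsCompact S := hK.inter_right Metric.isClosed_closedBall
      have hfin : μ (κ '' S) ≠ ⊤ := (hSc.image κ.continuous).measure_lt_top.ne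
      set L : ℝ := Real.sqrt (γ / C) / 2 with hL
      have hLpos : 0 < L := by
        have := Real.sqrt_pos.2 (div_pos hγ hC)
        positivity
      refine ⟨S, inter_mem_nhdsWithin K (Metric.closedBall_mem_nhds w hr),
        ENNReal.ofReal L⁻¹ * μ (κ '' S), ENNReal.mul_ne_top ENNReal.ofReal_ne_top hfin,
        fun n => ?_⟩
      have hn0 : (0 : ℝ) ≤ n := Nat.cast_nonneg n
      have hgd : Differentiable ℝ (φ n ∘ c) := (hφ n).comp hcd
      set s : Set F := A ∩ (φ n ∘ c) ⁻¹' S with hs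
      have hsm : MeasurableSet s :=
        (Metric.isClosed_closedBall.inter (hSc.isClosed.preimage hgd.continuous)).measurableSet
      have hDg : ∀ a, fderiv ℝ (φ n ∘ c) a = (fderiv ℝ (φ n) (c a)).comp (fderiv ℝ c a) :=
        fun a => fderiv_comp a (hφ n _) (hcd _)
      have hdet : ∀ a ∈ s, L * n ≤ |(κ.comp (fderiv ℝ (φ n ∘ c) a)).det| := by
        rintro a ⟨ha, haS⟩
        obtain ⟨c1, c2, c3⟩ := hc a ha
        have t1 : ∀ v, fderiv ℝ (φ n ∘ c) a v ∈ Tan G.S (φ n (c a)) := by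
          intro v
          rw [hDg]
          exact Tan.map (c2 v) (hφ n _) (Eventually.of_forall fun y hy => hcot n hy)
        have t2 := hCle (fderiv ℝ (φ n ∘ c) a) κ (by
          intro v
          have k1 := hl _ (hKS haS.1) haS.2 _ (t1 v)
          rw [← h2] at k1
          have k2 := j.le_opNorm (κ (fderiv ℝ (φ n ∘ c) a v))
          linarith)
        have t3 := gramDet_smul b Ω (fderiv ℝ c a) (fderiv ℝ (φ n ∘ c) a) (Real.exp n) (by
          intro u v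
          rw [hDg]
          exact hconf n hn0 _ c1 _ (c2 u) _ (c2 v))
        have t4 : ((n : ℝ) / 2) ^ 2 ≤
            Real.exp n ^ Fintype.card (Fin (Module.finrank ℝ F)) := by
          have k1 : (n : ℝ) / 2 ≤ Real.exp (n / 2) := by
            linarith [Real.add_one_le_exp ((n : ℝ) / 2)]
          have k2 : ((n : ℝ) / 2) ^ 2 ≤ Real.exp n := by
            have : Real.exp n = Real.exp (n / 2) ^ 2 := by
              rw [← Real.exp_nat_mul]
              congr 1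
              push_cast
              ring
            rw [this]
            gcongr
          exact k2.trans (le_self_pow₀ (Real.one_le_exp hn0) (by omega))
        rw [t3, abs_mul, abs_of_nonneg (by positivity)] at t2
        have t5 : ((n : ℝ) / 2) ^ 2 * γ ≤ C * (κ.comp (fderiv ℝ (φ n ∘ c) a)).det ^ 2 :=
          le_trans (by gcongr) t2
        apply Real.le_sqrt_of_sq_le ?_ |>.trans (Real.sqrt_sq_eq_abs _).le
        have t6 : (L * n) ^ 2 = ((n : ℝ) / 2) ^ 2 * γ / C := by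
          rw [hL, mul_pow, div_pow, Real.sq_sqrt (div_pos hγ hC).le]
          ring
        rw [t6, div_le_iff₀ hC]
        linarith
      have hinjs : InjOn (fun a => κ ((φ n ∘ c) a)) s := by
        rintro a ⟨ha, haS⟩ a' ⟨ha', haS'⟩ he
        apply hcinj ha ha'
        apply hinj n
        apply hi _ (hKS haS.1) _ (hKS haS'.1) haS.2 haS'.2
        rw [← h2, ← h2]
        exact congrArg j he
      have hcv := lintegral_abs_det_fderiv_eq_addHaar_image μ hsm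
        (f := fun a => κ ((φ n ∘ c) a)) (f' := fun a => κ.comp (fderiv ℝ (φ n ∘ c) a))
        (fun a _ => (κ.hasFDerivAt.comp a (hgd a).hasFDerivAt).hasFDerivWithinAt) hinjs
      have hle : ENNReal.ofReal (L * n) * μ s ≤ μ (κ '' S) := by
        calc ENNReal.ofReal (L * n) * μ s = ∫⁻ _ in s, ENNReal.ofReal (L * n) ∂μ := by
              rw [setLIntegral_const]
          _ ≤ ∫⁻ a in s, ENNReal.ofReal |(κ.comp (fderiv ℝ (φ n ∘ c) a)).det| ∂μ :=
              setLIntegral_mono' hsm fun a ha => ENNReal.ofReal_le_ofReal (hdet a ha)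
          _ = _ := hcv
          _ ≤ μ (κ '' S) := by
              apply measure_mono
              rintro _ ⟨a, ha, rfl⟩
              exact ⟨_, ha.2, rfl⟩
      calc (n : ENNReal) * μ s = ENNReal.ofReal L⁻¹ * (ENNReal.ofReal (L * n) * μ s) := by
            rw [← mul_assoc, ← ENNReal.ofReal_mul (by positivity), ← mul_assoc,
              inv_mul_cancel₀ hLpos.ne', one_mul, ENNReal.ofReal_natCast]
        _ ≤ _ := by gcongr
  obtain ⟨D, hD, h⟩ := key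
  have hApos : μ A ≠ 0 := (Metric.measure_closedBall_pos μ 0 hρ).ne'
  obtain ⟨n, hn⟩ := ENNReal.exists_nat_mul_gt hApos hD
  have e : A ∩ (φ n ∘ c) ⁻¹' K = A :=
    inter_eq_left.2 fun a ha => hmaps n (Nat.cast_nonneg n) (hc a ha).1
  have := h n
  rw [e] at this
  exact absurd hn (not_lt.2 this)

end Volume

variable {E : Type} [NormedAddCommGroup E] [InnerProductSpace ℝ E] [FiniteDimensional ℝ E]

lemma Ret.exists_chart (R : Ret E) (n : ℕ) (hdim : ∀ x ∈ R.S, R.rk x = n) {w : E × E}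
    (hw : w ∈ Cot R.S) :
    ∃ (κ : E × E →L[ℝ] (Fin n → ℝ) × (Fin n → ℝ)) (j : (Fin n → ℝ) × (Fin n → ℝ) →L[ℝ] E × E),
      (∀ a, κ (j a) = a) ∧ ∀ v, j (κ v) = fderiv ℝ R.hat.r w v := by
  obtain ⟨hx, hp⟩ := (R.mem_cot w).1 hw
  set T := LinearMap.range (R.P w.1 : E →ₗ[ℝ] E) with hT
  have hfr : Module.finrank ℝ T = Module.finrank ℝ (Fin n → ℝ) := by
    rw [Module.finrank_fin_fun]
    exact hdim _ hx
  set e : T ≃L[ℝ] (Fin n → ℝ) := ContinuousLinearEquiv.ofFinrankEq hfr with he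
  set q : E →L[ℝ] (Fin n → ℝ) :=
    (e : T →L[ℝ] (Fin n → ℝ)).comp ((R.P w.1).codRestrict T fun v => ⟨v, rfl⟩) with hq
  set i : (Fin n → ℝ) →L[ℝ] E := T.subtypeL.comp (e.symm : (Fin n → ℝ) →L[ℝ] T) with hi
  have hPi : ∀ a, R.P w.1 (i a) = i a := by
    intro a
    obtain ⟨v, hv⟩ := (e.symm a).2
    have : i a = R.P w.1 v := hv.symm
    rw [this, R.P_idem hx]
  have hiq : ∀ v, i (q v) = R.P w.1 v := by
    intro v
    simp [hi, hq]
  have hqP : ∀ v, q (R.P w.1 v) = q v := by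
    intro v
    simp only [hq, ContinuousLinearMap.comp_apply]
    congr 1
    exact Subtype.ext (R.P_idem hx v)
  have hqi : ∀ a, q (i a) = a := by
    intro a
    have : (R.P w.1).codRestrict T (fun v => ⟨v, rfl⟩) (i a) = e.symm a := Subtype.ext (hPi a)
    simp only [hq, ContinuousLinearMap.comp_apply]
    rw [this]
    exact e.apply_symm_apply a
  refine ⟨q.prodMap q, (i.comp (ContinuousLinearMap.fst ℝ _ _)).prod
    ((((fderiv ℝ R.P w.1).flip w.2).comp (i.comp (ContinuousLinearMap.fst ℝ _ _))) +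
      i.comp (ContinuousLinearMap.snd ℝ _ _)), ?_, ?_⟩
  · intro a
    have h0 : q (fderiv ℝ R.P w.1 (i a.1) w.2) = 0 := by
      rw [← hqP, R.P_DP hx (hPi _) hp, map_zero]
    ext1
    · simp [hqi]
    · simp [hqi, h0]
  · intro v
    rw [R.fderiv_hat hw]
    simp [hiq]

theorem no_expand (R : Ret E) (n : ℕ) (hn : 0 < n) (hdim : ∀ x ∈ R.S, R.rk x = n)
    (K : Set (E × E)) (hK : IsCompact K) (hKS : K ⊆ Cot R.S) (z0 : E × E) (hz0 : z0 ∈ Cot R.S)
    (hint : ∀ᶠ y in 𝓝 z0, y ∈ Cot R.S → y ∈ K) (φ : ℝ → E × E → E × E)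
    (hφ : ∀ t, Differentiable ℝ (φ t)) (hinj : ∀ t, Function.Injective (φ t))
    (hcot : ∀ t, MapsTo (φ t) (Cot R.S) (Cot R.S)) (hmaps : ∀ t, 0 ≤ t → MapsTo (φ t) K K)
    (hconf : ∀ t, 0 ≤ t → ∀ z ∈ K, ∀ u ∈ Tan (Cot R.S) z, ∀ v ∈ Tan (Cot R.S) z,
      omega (fderiv ℝ (φ t) z u) (fderiv ℝ (φ t) z v) = Real.exp t * omega u v) : False := by
  have : Nonempty (Fin n) := ⟨⟨0, hn⟩⟩
  let B : E × E →L[ℝ] E × E →L[ℝ] ℝ := (innerSL ℝ : E →L[ℝ] E →L[ℝ] ℝ).bilinearComp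
    (ContinuousLinearMap.snd ℝ E E) (ContinuousLinearMap.fst ℝ E E)
  have hΩ : ∀ u v : E × E, (B - B.flip) u v = omega u v := by
    intro u v
    simp [B, omega]
  refine no_expand_gen (F := (Fin n → ℝ) × (Fin n → ℝ)) R.hat (B - B.flip)
    (fun w hw => R.exists_chart n hdim hw) K hK hKS z0 hz0 ?_ hint φ hφ hinj hcot hmaps ?_
  · intro v hv h
    exact R.omega_nondeg hz0 hv fun u hu => by rw [← hΩ]; exact h u hu
  · intro t ht z hz u hu v hv
    rw [hΩ, hΩ]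
    exact hconf t ht z hz u hu v hv

end Pool.Agent.Wein
end

-- part Pool.Agent.P.MP_e3ee0c_gt.WCollarB
section

/-! The flow of the Liouville field is conformal in the collar; the collar Hamiltonian. -/

open Set Filter Topology
open scoped ContDiff InnerProductSpace

namespace Pool.Agent.Wein

lemma lie_aux {X : Type*} [NormedAddCommGroup X] [NormedSpace ℝ X] (G : GRet X)
    (lam : X →L[ℝ] X →L[ℝ] ℝ) {Z : X → X} (hZ : ContDiff ℝ ∞ Z) {β : X → ℝ}
    (hβ : ContDiff ℝ ∞ β) {x : X} (hx : x ∈ G.S)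
    (h : ∀ᶠ y in 𝓝 x, y ∈ G.S → ∀ v ∈ Tan G.S y,
      lam (Z y) v - lam v (Z y) = lam y v + fderiv ℝ β y v)
    {u v : X} (hu : u ∈ Tan G.S x) (hv : v ∈ Tan G.S x) :
    lam (fderiv ℝ Z x u) v - lam v (fderiv ℝ Z x u) +
      (lam u (fderiv ℝ Z x v) - lam (fderiv ℝ Z x v) u) = lam u v - lam v u := by
  have hZx : HasFDerivAt Z (fderiv ℝ Z x) x := (hZ.differentiable (by simp) x).hasFDerivAt
  have hβx : HasFDerivAt (fderiv ℝ β) (fderiv ℝ (fderiv ℝ β) x) x :=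
    ((hβ.fderiv_right (m := ∞) (by simp)).differentiable (by simp) x).hasFDerivAt
  obtain ⟨B, hB⟩ : ∃ B : X →L[ℝ] X →L[ℝ] ℝ, ∀ a b, B a b = lam a b - lam b a :=
    ⟨lam - lam.flip, fun _ _ => rfl⟩
  have hα1 : HasFDerivAt (fun y => B (Z y)) (B.comp (fderiv ℝ Z x)) x :=
    HasFDerivAt.comp x (g := fun y => B y) B.hasFDerivAt hZx
  have hα2 : HasFDerivAt (fun y => lam y) lam x := lam.hasFDerivAt
  have hα : HasFDerivAt (fun y => B (Z y) - lam y - fderiv ℝ β y)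
      (B.comp (fderiv ℝ Z x) - lam - fderiv ℝ (fderiv ℝ β) x) x :=
    HasFDerivAt.fun_sub (F := X →L[ℝ] ℝ) (HasFDerivAt.fun_sub (F := X →L[ℝ] ℝ) hα1 hα2) hβx
  have key := G.dclosed _ hx hα.differentiableAt (by
    filter_upwards [h] with y hy hyS w hw
    change B (Z y) w - lam y w - fderiv ℝ β y w = 0
    rw [hB, hy hyS w hw]
    ring) hu hv
  rw [hα.fderiv] at key
  have hs := (hβ.contDiffAt (x := x)).isSymmSndFDerivAt
    (by simp only [minSmoothness_of_isRCLikeNormedField]; exact WithTop.coe_le_coe.2 le_top)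
  have hs' := hs.eq u v
  change B (fderiv ℝ Z x u) v - lam u v - fderiv ℝ (fderiv ℝ β) x u v =
    B (fderiv ℝ Z x v) u - lam v u - fderiv ℝ (fderiv ℝ β) x v u at key
  rw [hB, hB] at key
  linarith

variable {E : Type} [NormedAddCommGroup E] [InnerProductSpace ℝ E]

lemma exists_lam : ∃ lam : (E × E) →L[ℝ] (E × E) →L[ℝ] ℝ, ∀ y v, lam y v = ⟪y.2, v.1⟫_ℝ :=
  ⟨ContinuousLinearMap.bilinearComp (innerSL ℝ : E →L[ℝ] E →L[ℝ] ℝ)
    (ContinuousLinearMap.snd ℝ E E) (ContinuousLinearMap.fst ℝ E E), fun _ _ => rfl⟩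

lemma omega_self (v : E × E) : omega v v = 0 := by simp [omega]

lemma omega_swap (u v : E × E) : omega u v = -omega v u := by simp [omega]

lemma omega_smul_left (a : ℝ) (u v : E × E) : omega (a • u) v = a * omega u v := by
  simp [omega, inner_smul_left, inner_smul_right, mul_sub]

lemma omega_der {a b : ℝ → E × E} {a' b' : E × E} {t : ℝ} (ha : HasDerivAt a a' t)
    (hb : HasDerivAt b b' t) :
    HasDerivAt (fun s => omega (a s) (b s)) (omega a' (b t) + omega (a t) b') t := by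
  have a1 : HasDerivAt (fun s => (a s).1) a'.1 t :=
    (ContinuousLinearMap.fst ℝ E E).hasFDerivAt.comp_hasDerivAt (f := a) t ha
  have a2 : HasDerivAt (fun s => (a s).2) a'.2 t :=
    (ContinuousLinearMap.snd ℝ E E).hasFDerivAt.comp_hasDerivAt (f := a) t ha
  have b1 : HasDerivAt (fun s => (b s).1) b'.1 t :=
    (ContinuousLinearMap.fst ℝ E E).hasFDerivAt.comp_hasDerivAt (f := b) t hb
  have b2 : HasDerivAt (fun s => (b s).2) b'.2 t :=
    (ContinuousLinearMap.snd ℝ E E).hasFDerivAt.comp_hasDerivAt (f := b) t hb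
  refine ((a2.inner ℝ b1).sub (b2.inner ℝ a1)).congr_deriv ?_
  simp only [omega]
  ring

/-- The Lie derivative of the symplectic form along a Liouville field. -/
lemma omega_lie (R : Ret E) {Z : E × E → E × E} (hZ : ContDiff ℝ ∞ Z) {β : E × E → ℝ}
    (hβ : ContDiff ℝ ∞ β) {x : E × E} (hx : x ∈ Cot R.S)
    (h : ∀ᶠ y in 𝓝 x, y ∈ Cot R.S → Z y ∈ Tan (Cot R.S) y ∧
      ∀ v ∈ Tan (Cot R.S) y, omega (Z y) v = ⟪y.2, v.1⟫_ℝ + fderiv ℝ β y v)
    {u v : E × E} (hu : u ∈ Tan (Cot R.S) x) (hv : v ∈ Tan (Cot R.S) x) :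
    omega (fderiv ℝ Z x u) v + omega u (fderiv ℝ Z x v) = omega u v := by
  obtain ⟨lam, hlam⟩ := exists_lam (E := E)
  have := lie_aux R.hat lam hZ hβ hx (by
    filter_upwards [h] with y hy hyS w hw
    rw [hlam, hlam, hlam]
    exact (hy hyS).2 w hw) hu hv
  simpa only [hlam, omega] using this

lemma orbit_tan {N : Set E} {F : E × E → ℝ} {z : ℝ → E × E} (hz : IsOrbit N F z) {t : ℝ}
    {v : E × E} (hv : HasDerivAt z v t) : v ∈ Tan (Cot N) (z t) :=
  Tan.of_hasDerivAt hv (Eventually.of_forall fun s => (hz s).1)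

lemma orbit_const {N : Set E} {F : E × E → ℝ} (hF : Differentiable ℝ F) {z : ℝ → E × E}
    (hz : IsOrbit N F z) (t : ℝ) : F (z t) = F (z 0) := by
  have h : ∀ s, HasDerivAt (fun s => F (z s)) 0 s := fun s => by
    obtain ⟨v, hv, ho⟩ := (hz s).2
    have h1 := ho v (orbit_tan hz hv)
    rw [omega_self, eq_comm, neg_eq_zero] at h1
    exact h1 ▸ (hF (z s)).hasFDerivAt.comp_hasDerivAt s hv
  exact is_const_of_deriv_eq_zero (fun s => (h s).differentiableAt) (fun s => (h s).deriv) t 0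

variable [FiniteDimensional ℝ E]

namespace Col

variable {R : Ret E} {H β : E × E → ℝ} {c : ℝ} (C : Col R H β c)

omit [FiniteDimensional ℝ E] in
lemma slice (t : ℝ) (x : E × E) : HasFDerivAt (fun y => C.Ψ (t, y))
    ((fderiv ℝ C.Ψ (t, x)).comp (ContinuousLinearMap.inr ℝ ℝ (E × E))) x :=
  (C.hΨ.differentiable (by simp) _).hasFDerivAt.comp x (hasFDerivAt_prodMk_right t x)

omit [FiniteDimensional ℝ E] in
lemma tan (t : ℝ) {x v : E × E} (hv : v ∈ Tan (Cot R.S) x) :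
    fderiv ℝ C.Ψ (t, x) (0, v) ∈ Tan (Cot R.S) (C.Ψ (t, x)) := by
  have := Tan.map (S' := Cot R.S) hv (C.slice t x).differentiableAt
    (Eventually.of_forall fun y hy => C.mem t y hy)
  rwa [(C.slice t x).fderiv] at this

omit [FiniteDimensional ℝ E] in
lemma fderiv_zero (x : E × E) (a : ℝ) (v : E × E) :
    fderiv ℝ C.Ψ (0, x) (a, v) = a • C.Z x + v := by
  have h1 := C.slice 0 x
  have h2 : (fun y => C.Ψ (0, y)) = id := funext C.zero
  rw [h2] at h1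
  have h3 := congrArg (fun L => L v) (h1.unique (hasFDerivAt_id x))
  have h4 : (a, v) = (a, (0 : E × E)) + (0, v) := by simp
  rw [h4, map_add, fderiv_flow C.hΨ C.der, C.zero]
  simpa using h3

/-- The flow is conformally symplectic in the collar. -/
lemma conf (hβ : ContDiff ℝ ∞ β) {σ : E × E} (hσ : σ ∈ Cot R.S) (hc : H σ = c) {a b : E × E}
    (ha : a ∈ Tan (Cot R.S) σ) (hb : b ∈ Tan (Cot R.S) σ) {s : ℝ} (h0 : 0 ≤ s)
    (h1 : s ≤ 2 * C.η) :
    Real.exp (-s) * omega (fderiv ℝ C.Ψ (s, σ) (0, a)) (fderiv ℝ C.Ψ (s, σ) (0, b)) =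
      omega a b := by
  have hd : ∀ t ∈ Icc 0 s, HasDerivAt (fun t => Real.exp (-t) *
      omega (fderiv ℝ C.Ψ (t, σ) (0, a)) (fderiv ℝ C.Ψ (t, σ) (0, b))) 0 t := fun t ht => by
    have e1 := flow_var C.Z C.hZ C.Ψ C.hΨ C.der σ a t
    have e2 := flow_var C.Z C.hZ C.Ψ C.hΨ C.der σ b t
    have e3 := omega_lie R C.hZ hβ (C.mem t σ hσ)
      (C.tube σ hσ hc t (by rw [abs_of_nonneg ht.1]; exact ht.2.trans h1)).2.2.2
      (C.tan t ha) (C.tan t hb)
    have e4 := ((hasDerivAt_neg t).exp).mul (omega_der e1 e2)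
    refine e4.congr_deriv ?_
    rw [e3]
    ring
  have := constant_of_has_deriv_right_zero
    (fun t ht => (hd t ht).continuousAt.continuousWithinAt)
    (fun t ht => (hd t (Ico_subset_Icc_self ht)).hasDerivWithinAt) s ⟨h0, le_rfl⟩
  simpa [C.fderiv_zero] using this

omit [FiniteDimensional ℝ E] in
lemma mono (hH : ContDiff ℝ ∞ H) {σ : E × E} (hσ : σ ∈ Cot R.S) (hc : H σ = c) :
    StrictMonoOn (fun s => H (C.Ψ (s, σ))) (Icc (-(2 * C.η)) (2 * C.η)) := by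
  have hd : ∀ s, HasDerivAt (fun s => H (C.Ψ (s, σ)))
      (fderiv ℝ H (C.Ψ (s, σ)) (C.Z (C.Ψ (s, σ)))) s := fun s =>
    (hH.differentiable (by simp) _).hasFDerivAt.comp_hasDerivAt s (C.der s σ)
  refine strictMonoOn_of_deriv_pos (convex_Icc _ _)
    (fun s _ => (hd s).continuousAt.continuousWithinAt) fun s hs => ?_
  rw [(hd s).deriv]
  exact (C.tube σ hσ hc s (abs_le.2 (mem_Icc.1 (interior_subset hs)))).2.2.1

omit [FiniteDimensional ℝ E] in
lemma cancel (s : ℝ) (y : E × E) : C.Ψ (s, C.Ψ (-s, y)) = y := by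
  rw [← C.add, add_neg_cancel, C.zero]

omit [FiniteDimensional ℝ E] in
lemma sign (hH : ContDiff ℝ ∞ H) {y : E × E} (hy : y ∈ Cot R.S) (hU : y ∈ C.U)
    (hT : |C.T y| < 2 * C.η) : H y ≤ c ↔ C.T y ≤ 0 := by
  have hp := C.pos
  have := (C.mono hH (C.mem (-C.T y) y hy) (C.lev y hU)).le_iff_le (a := C.T y) (b := 0)
    (abs_le.1 hT.le) ⟨by linarith, by linarith⟩
  simpa only [C.cancel, C.zero, C.lev y hU] using this

/-- The closed collar. -/
def K : Set (E × E) := C.Ψ '' (Icc 0 C.η ×ˢ {σ | σ ∈ Cot R.S ∧ H σ = c})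

omit [FiniteDimensional ℝ E] in
lemma K_compact (hK : IsCompact {σ | σ ∈ Cot R.S ∧ H σ = c}) : IsCompact C.K :=
  (isCompact_Icc.prod hK).image C.hΨ.continuous

omit [FiniteDimensional ℝ E] in
lemma of_mem_K {y : E × E} (hy : y ∈ C.K) : y ∈ C.U ∧ |C.T y| < 2 * C.η := by
  obtain ⟨⟨s, σ⟩, ⟨hs, hσ⟩, rfl⟩ := hy
  have hp := C.pos
  have h1 : |s| < 2 * C.η := by rw [abs_of_nonneg hs.1]; linarith [hs.2]
  obtain ⟨a, b, -⟩ := C.tube σ hσ.1 hσ.2 s h1.le
  exact ⟨a, by rwa [b]⟩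

omit [FiniteDimensional ℝ E] in
lemma isOpen_box : IsOpen {y | y ∈ C.U ∧ |C.T y| < 2 * C.η} :=
  C.hT.continuousOn.abs.isOpen_inter_preimage C.hU isOpen_Iio

/-- The collar Hamiltonian. -/
lemma exists_F (hH : ContDiff ℝ ∞ H) (hK : IsCompact {σ | σ ∈ Cot R.S ∧ H σ = c}) :
    ∃ F : E × E → ℝ, ContDiff ℝ ∞ F ∧ ∀ y ∈ Cot R.S, (H y ≤ c → F y = 0) ∧
      (y ∈ C.U ∧ |C.T y| < 2 * C.η → F y = Real.smoothTransition (C.T y / C.η)) ∧
      (c < H y ∧ y ∉ C.K → F y = 1) := by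
  have hp := C.pos
  have i1 : ∀ y ∈ Cot R.S, y ∈ C.U ∧ |C.T y| < 2 * C.η → H y ≤ c →
      Real.smoothTransition (C.T y / C.η) = 0 := fun y hy hb h =>
    Real.smoothTransition.zero_of_nonpos
      (div_nonpos_of_nonpos_of_nonneg ((C.sign hH hy hb.1 hb.2).1 h) hp.le)
  have i2 : ∀ y ∈ Cot R.S, y ∈ C.U ∧ |C.T y| < 2 * C.η → c < H y ∧ y ∉ C.K →
      Real.smoothTransition (C.T y / C.η) = 1 := fun y hy hb h => by
    refine Real.smoothTransition.one_of_one_le ((one_le_div hp).2 ?_)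
    by_contra hlt
    have h0 : 0 ≤ C.T y := by
      by_contra h0
      exact absurd ((C.sign hH hy hb.1 hb.2).2 (not_le.1 h0).le) (not_le.2 h.1)
    exact h.2 ⟨(C.T y, C.Ψ (-C.T y, y)),
      ⟨⟨h0, (not_le.1 hlt).le⟩, C.mem _ y hy, C.lev y hb.1⟩, C.cancel _ _⟩
  have hcv : ∀ (p : Prop) (k : ℝ), Convex ℝ {v : ℝ | p → v = k} := fun p k => by
    by_cases h : p
    · simp [h]
    · simpa [h] using convex_univ
  obtain ⟨F, hF⟩ := exists_contMDiffMap_forall_mem_convex_of_local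
    (modelWithCornersSelf ℝ (E × E)) (n := ⊤)
    (t := fun y => {v : ℝ | y ∈ Cot R.S ∧ H y ≤ c → v = 0} ∩
      ({v : ℝ | y ∈ Cot R.S ∧ (y ∈ C.U ∧ |C.T y| < 2 * C.η) →
        v = Real.smoothTransition (C.T y / C.η)} ∩
      {v : ℝ | y ∈ Cot R.S ∧ (c < H y ∧ y ∉ C.K) → v = 1}))
    (fun y => (hcv _ _).inter ((hcv _ _).inter (hcv _ _))) (fun x => by
      by_cases hx : x ∈ Cot R.S
      swap
      · exact ⟨(Cot R.S)ᶜ, R.hat.closed.isOpen_compl.mem_nhds hx, fun _ => 0, contMDiffOn_const,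
          fun y hy => ⟨fun h => rfl, fun h => absurd h.1 hy, fun h => absurd h.1 hy⟩⟩
      by_cases hb : x ∈ C.U ∧ |C.T x| < 2 * C.η
      · refine ⟨_, C.isOpen_box.mem_nhds hb, fun y => Real.smoothTransition (C.T y / C.η),
          ?_, fun y hy => ⟨fun h => i1 y h.1 hy h.2, fun _ => rfl, fun h => i2 y h.1 hy h.2⟩⟩
        exact ((Real.smoothTransition.contDiff.comp_contDiffOn
          (C.hT.div_const C.η)).mono fun y hy => hy.1).contMDiffOn
      rcases lt_trichotomy (H x) c with h | h | h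
      · exact ⟨{y | H y < c}, (isOpen_lt hH.continuous continuous_const).mem_nhds h, fun _ => 0,
          contMDiffOn_const, fun y hy => ⟨fun _ => rfl, fun h => (i1 y h.1 h.2 hy.le).symm,
            fun h => absurd h.2.1 (not_lt.2 hy.le)⟩⟩
      · exact absurd (C.of_mem_K ⟨(0, x), ⟨⟨le_rfl, hp.le⟩, hx, h⟩, C.zero x⟩) hb
      · exact ⟨{y | c < H y ∧ y ∉ C.K},
          ((isOpen_lt continuous_const hH.continuous).inter
            (C.K_compact hK).isClosed.isOpen_compl).mem_nhds ⟨h, fun hk => hb (C.of_mem_K hk)⟩,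
          fun _ => 1, contMDiffOn_const, fun y hy => ⟨fun h => absurd hy.1 (not_lt.2 h.2),
            fun h => (i2 y h.1 h.2 hy).symm, fun _ => rfl⟩⟩)
  exact ⟨F, F.contMDiff.contDiff, fun y hy => ⟨fun h => (hF y).1 ⟨hy, h⟩,
    fun h => (hF y).2.1 ⟨hy, h⟩, fun h => (hF y).2.2 ⟨hy, h⟩⟩⟩

omit [FiniteDimensional ℝ E] in
lemma T_diff {y : E × E} (hy : y ∈ C.U) : HasFDerivAt C.T (fderiv ℝ C.T y) y :=
  ((C.hT.contDiffAt (C.hU.mem_nhds hy)).differentiableAt (by simp)).hasFDerivAt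

omit [FiniteDimensional ℝ E] in
lemma dT_Z {σ : E × E} (hσ : σ ∈ Cot R.S) (hc : H σ = c) {s : ℝ} (hs : |s| < 2 * C.η) :
    fderiv ℝ C.T (C.Ψ (s, σ)) (C.Z (C.Ψ (s, σ))) = 1 := by
  have h1 := (C.T_diff (C.tube σ hσ hc s hs.le).1).comp_hasDerivAt s (C.der s σ)
  refine h1.unique ((hasDerivAt_id s).congr_of_eventuallyEq ?_)
  filter_upwards [(isOpen_lt continuous_abs continuous_const).mem_nhds hs] with t ht
  exact (C.tube σ hσ hc t (le_of_lt ht)).2.1

omit [FiniteDimensional ℝ E] in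
lemma dH_eq (hH : ContDiff ℝ ∞ H) {σ : E × E} (hσ : σ ∈ Cot R.S) (hc : H σ = c) {s : ℝ}
    (hs : |s| ≤ 2 * C.η) (u : E × E) : fderiv ℝ H σ u =
      fderiv ℝ C.T (C.Ψ (s, σ)) (fderiv ℝ C.Ψ (s, σ) (0, u)) * fderiv ℝ H σ (C.Z σ) := by
  obtain ⟨hU, hT, -⟩ := C.tube σ hσ hc s hs
  have e1 := ((((C.T_diff hU).comp σ (C.slice s σ)).neg).add_const s).prodMk (hasFDerivAt_id σ)
  have e2 : HasFDerivAt C.Ψ (fderiv ℝ C.Ψ (0, σ)) (-C.T (C.Ψ (s, σ)) + s, σ) := by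
    rw [hT, neg_add_cancel]; exact (C.hΨ.differentiable (by simp) _).hasFDerivAt
  have e3 : HasFDerivAt H (fderiv ℝ H σ) (C.Ψ (-C.T (C.Ψ (s, σ)) + s, σ)) := by
    rw [hT, neg_add_cancel, C.zero]; exact (hH.differentiable (by simp) _).hasFDerivAt
  have e4 := HasFDerivAt.comp σ (f := fun x => C.Ψ (-C.T (C.Ψ (s, x)) + s, x)) e3
    (HasFDerivAt.comp σ (f := fun x => (-C.T (C.Ψ (s, x)) + s, x)) e2 e1)
  have e5 : HasFDerivAt (fun _ : E × E => c) _ σ := e4.congr_of_eventuallyEq (by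
    filter_upwards [(C.slice s σ).continuousAt.eventually (C.hU.mem_nhds hU)] with x hx
    simp only [Function.comp, C.add]
    exact (C.lev _ hx).symm)
  have e6 := congrArg (fun L => L u) (e5.unique (hasFDerivAt_const c σ))
  simp only [ContinuousLinearMap.comp_apply, ContinuousLinearMap.prod_apply, neg_apply,
    ContinuousLinearMap.inr_apply, ContinuousLinearMap.id_apply, C.fderiv_zero, map_add,
    map_smul, smul_eq_mul, zero_apply] at e6
  linarith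

end Col

end Pool.Agent.Wein
end

-- part Pool.Agent.P.MP_e3ee0c_gt.WStep
section

/-! The generating function of a short piece of the Hamiltonian flow. -/

open Set Filter Topology
open scoped ContDiff InnerProductSpace

namespace Pool.Agent.Wein

variable {E : Type} [NormedAddCommGroup E] [InnerProductSpace ℝ E]

structure Step (G : Geo E) (F : E × E → ℝ) (Hm : Ham G.toRet F) where
  τ₀ : ℝ
  τpos : 0 < τ₀
  w : ℝ × E × E → ℝ
  ws : ContDiff ℝ ∞ w
  pm : ℝ × E × E → E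
  mem : ∀ τ ∈ Icc 0 τ₀, ∀ x ∈ G.S, ∀ y ∈ G.S, ‖x - y‖ ^ 2 < G.δ ^ 2 →
    (x, pm (τ, x, y)) ∈ Cot G.S
  lt : ∀ τ ∈ Icc 0 τ₀, ∀ x ∈ G.S, ∀ y ∈ G.S, ‖x - y‖ ^ 2 < G.δ ^ 2 →
    ‖(Hm.Φ (τ, x, pm (τ, x, y))).1 - y‖ ^ 2 < G.δ ^ 2
  out : ∀ τ ∈ Icc 0 τ₀, ∀ x ∈ G.S, ∀ y ∈ G.S, ‖x - y‖ ^ 2 < G.δ ^ 2 →
    (Hm.Φ (τ, x, pm (τ, x, y))).2 = G.pi (Hm.Φ (τ, x, pm (τ, x, y))).1 y
  val : ∀ τ ∈ Icc 0 τ₀, ∀ x ∈ G.S, ∀ y ∈ G.S, ‖x - y‖ ^ 2 < G.δ ^ 2 →
    Real.log (G.δ ^ 2 - ‖x - y‖ ^ 2) + w (τ, x, y) = Hm.A (τ, x, pm (τ, x, y)) +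
      Real.log (G.δ ^ 2 - ‖(Hm.Φ (τ, x, pm (τ, x, y))).1 - y‖ ^ 2)
  der : ∀ τ ∈ Icc 0 τ₀, ∀ x ∈ G.S, ∀ y ∈ G.S, ‖x - y‖ ^ 2 < G.δ ^ 2 →
    ∀ θ u v, G.P x u = u → G.P y v = v → fderiv ℝ w (τ, x, y) (θ, u, v) =
      -θ * F (x, pm (τ, x, y)) + ⟪G.pi x y - pm (τ, x, y), u⟫_ℝ +
        ⟪G.pi y x - G.pi y (Hm.Φ (τ, x, pm (τ, x, y))).1, v⟫_ℝ
  stat : ∀ τ ∈ Icc 0 τ₀, ∀ x ∈ G.S, ∀ y ∈ G.S, ‖x - y‖ ^ 2 < G.δ ^ 2 →
    (∀ t, Hm.Φ (t, x, G.pi x y) = (x, G.pi x y)) → pm (τ, x, y) = G.pi x y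

namespace Geo

variable (G : Geo E)

lemma stp_P_pi {x : E} (hx : x ∈ G.S) (y : E) : G.P x (G.pi x y) = G.pi x y := by
  unfold pi tw
  rw [map_smul, G.P_idem hx]

lemma stp_pi_mem_cot {x : E} (hx : x ∈ G.S) (y : E) : (x, G.pi x y) ∈ Cot G.S :=
  (G.mem_cot _).2 ⟨hx, G.stp_P_pi hx y⟩

lemma stp_contDiffAt_pi {X : Type*} [NormedAddCommGroup X] [NormedSpace ℝ X] {a b : X → E} {k : X}
    (ha : ContDiffAt ℝ ∞ a k) (hb : ContDiffAt ℝ ∞ b k) (h : ‖a k - b k‖ ^ 2 < G.δ ^ 2) :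
    ContDiffAt ℝ ∞ (fun k => G.pi (a k) (b k)) k := by
  unfold pi tw
  have h1 : ContDiffAt ℝ ∞ (fun k => ‖a k - b k‖ ^ 2) k := (ha.sub hb).norm_sq ℝ
  have h2 : ContDiffAt ℝ ∞ (fun k => 1 / (G.δ ^ 2 - ‖a k - b k‖ ^ 2)) k :=
    contDiffAt_const.div (contDiffAt_const.sub h1) (by linarith)
  exact (contDiffAt_const.mul h2).smul
    ((G.P_smooth.contDiffAt.comp k ha).clm_apply (ha.sub hb))

lemma stp_exists_thr (Rb : ℝ) : ∃ t₁ < G.δ ^ 2, ∀ x ∈ G.S, ∀ y ∈ G.S, t₁ ≤ ‖x - y‖ ^ 2 →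
    ‖x - y‖ ^ 2 < G.δ ^ 2 → Rb ≤ ‖G.pi x y‖ := by
  have hδ := G.δpos
  have hR : 0 < |Rb| + 1 := by positivity
  set ε := min (G.δ ^ 2 / 2) (G.δ / (2 * (|Rb| + 1))) with hε
  have hε0 : 0 < ε := lt_min (by positivity) (by positivity)
  refine ⟨G.δ ^ 2 - ε, by linarith, fun x hx y hy h1 h2 => ?_⟩
  have e1 : ε ≤ G.δ ^ 2 / 2 := min_le_left _ _
  have e2 : ε ≤ G.δ / (2 * (|Rb| + 1)) := min_le_right _ _
  have n0 := norm_nonneg (x - y)
  have hlt : ‖x - y‖ < G.δ := by nlinarith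
  have hge : G.δ / 2 ≤ ‖x - y‖ := by nlinarith
  have hl := G.lower hx hy (by linarith)
  have hpos : 0 < G.δ ^ 2 - ‖x - y‖ ^ 2 := by linarith
  have hn : ‖G.pi x y‖ = 2 * (1 / (G.δ ^ 2 - ‖x - y‖ ^ 2)) * ‖G.P x (x - y)‖ := by
    unfold pi tw
    rw [norm_smul, Real.norm_of_nonneg (by positivity)]
  rw [hn]
  have e3 : (G.δ ^ 2 - ‖x - y‖ ^ 2) * (2 * (|Rb| + 1)) ≤ G.δ := by
    rw [le_div_iff₀ (by positivity)] at e2
    nlinarith
  have e4 : 2 * (1 / (G.δ ^ 2 - ‖x - y‖ ^ 2)) * ‖G.P x (x - y)‖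
      = 2 * ‖G.P x (x - y)‖ / (G.δ ^ 2 - ‖x - y‖ ^ 2) := by
    field_simp
  rw [e4, le_div_iff₀ hpos]
  have e5 := le_abs_self Rb
  have e6 : Rb * (G.δ ^ 2 - ‖x - y‖ ^ 2) ≤ (|Rb| + 1) * (G.δ ^ 2 - ‖x - y‖ ^ 2) :=
    mul_le_mul_of_nonneg_right (by linarith) hpos.le
  nlinarith

/-- The derivative of the logarithmic barrier along a pair of curves. -/
lemma stp_hasDerivAt_log {a b : ℝ → E} {a' b' : E} (ha : HasDerivAt a a' 0) (hb : HasDerivAt b b' 0)
    (ha0 : a 0 ∈ G.S) (hb0 : b 0 ∈ G.S) (ha' : G.P (a 0) a' = a') (hb' : G.P (b 0) b' = b')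
    (h : ‖a 0 - b 0‖ ^ 2 < G.δ ^ 2) :
    HasDerivAt (fun t => Real.log (G.δ ^ 2 - ‖a t - b t‖ ^ 2))
      (-(⟪G.pi (a 0) (b 0), a'⟫_ℝ + ⟪G.pi (b 0) (a 0), b'⟫_ℝ)) 0 := by
  have h1 : HasDerivAt (fun t => ‖a t - b t‖ ^ 2) (2 * ⟪a 0 - b 0, a' - b'⟫_ℝ) 0 :=
    (ha.sub hb).norm_sq
  have hpos : G.δ ^ 2 - ‖a 0 - b 0‖ ^ 2 ≠ 0 := by linarith
  have h2 := (h1.const_sub (G.δ ^ 2)).log hpos
  convert h2 using 1
  unfold pi tw
  rw [real_inner_smul_left, real_inner_smul_left, G.P_symm ha0, G.P_symm hb0, ha', hb',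
    norm_sub_rev (b 0) (a 0), inner_sub_right, ← neg_sub (a 0) (b 0), inner_neg_left]
  field_simp
  ring

end Geo

lemma stp_exists_curve (G : Geo E) {x y u v : E} (hx : x ∈ G.S) (hy : y ∈ G.S) (hu : G.P x u = u)
    (hv : G.P y v = v) : ∃ a b : ℝ → E, a 0 = x ∧ b 0 = y ∧ HasDerivAt a u 0 ∧
      HasDerivAt b v 0 ∧ ∀ᶠ t in 𝓝 (0 : ℝ), a t ∈ G.S ∧ b t ∈ G.S := by
  obtain ⟨a, a0, ha, da⟩ := (G.mem_tan hx u).2 hu
  obtain ⟨b, b0, hb, db⟩ := (G.mem_tan hy v).2 hv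
  exact ⟨a, b, a0, b0, da, db, ha.and hb⟩

/-- The implicit solution near the compact set of close pairs at time zero. -/
lemma stp_exists_solution [FiniteDimensional ℝ E] (G : Geo E) (F : E × E → ℝ) (Hm : Ham G.toRet F)
    (t₁ : ℝ) (ht : t₁ < G.δ ^ 2) :
    ∃ (U : Set (ℝ × E × E)) (p : ℝ × E × E → E), IsOpen U ∧ ContDiffOn ℝ ∞ p U ∧
      (∀ x ∈ G.S, ∀ y ∈ G.S, ‖x - y‖ ^ 2 ≤ t₁ → ((0 : ℝ), x, y) ∈ U) ∧
      (∀ k ∈ U, ‖k.2.1 - k.2.2‖ ^ 2 < G.δ ^ 2 ∧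
        ‖(Hm.Φ (k.1, G.r k.2.1, G.P (G.r k.2.1) (p k))).1 - G.r k.2.2‖ ^ 2 < G.δ ^ 2) ∧
      ∀ τ, ∀ x ∈ G.S, ∀ y ∈ G.S, (τ, x, y) ∈ U → G.P x (p (τ, x, y)) = p (τ, x, y) ∧
        (Hm.Φ (τ, x, p (τ, x, y))).2 = G.pi (Hm.Φ (τ, x, p (τ, x, y))).1 y ∧
        ((∀ t, Hm.Φ (t, x, G.pi x y) = (x, G.pi x y)) → p (τ, x, y) = G.pi x y) := by
  set Z : (ℝ × E × E) × E → E × E :=
    fun w => Hm.Φ (w.1.1, G.r w.1.2.1, G.P (G.r w.1.2.1) w.2) with hZ
  have hr1 : ContDiff ℝ ∞ (fun w : (ℝ × E × E) × E => G.r w.1.2.1) :=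
    G.smooth.comp (contDiff_fst.snd.fst)
  have hr2 : ContDiff ℝ ∞ (fun w : (ℝ × E × E) × E => G.r w.1.2.2) :=
    G.smooth.comp (contDiff_fst.snd.snd)
  have hP : ContDiff ℝ ∞ (fun w : (ℝ × E × E) × E => G.P (G.r w.1.2.1)) :=
    G.P_smooth.comp hr1
  have hZs : ContDiff ℝ ∞ Z :=
    Hm.Φs.comp (contDiff_fst.fst.prodMk (hr1.prodMk (hP.clm_apply contDiff_snd)))
  set Ψ : (ℝ × E × E) × E → E := fun w =>
    G.P (G.r w.1.2.1) ((Z w).2 - G.pi (Z w).1 (G.r w.1.2.2)) + (w.2 - G.P (G.r w.1.2.1) w.2)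
    with hΨ
  set O : Set ((ℝ × E × E) × E) := {w | ‖(Z w).1 - G.r w.1.2.2‖ ^ 2 < G.δ ^ 2} with hO
  have hOo : IsOpen O :=
    isOpen_lt ((hZs.fst.sub hr2).continuous.norm.pow 2) continuous_const
  have hΨs : ContDiffOn ℝ ∞ Ψ O := by
    intro w hw
    refine ContDiffAt.contDiffWithinAt ?_
    exact (hP.contDiffAt.clm_apply (hZs.snd.contDiffAt.sub
      (G.stp_contDiffAt_pi hZs.fst.contDiffAt hr2.contDiffAt hw))).add
      (contDiffAt_snd.sub (hP.contDiffAt.clm_apply contDiffAt_snd))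
  set K : Set (ℝ × E × E) :=
    ({0} ×ˢ G.S ×ˢ G.S) ∩ {k | ‖k.2.1 - k.2.2‖ ^ 2 ≤ t₁} with hK
  have hKc : IsCompact K :=
    (isCompact_singleton.prod (G.compact.prod G.compact)).inter_right
      (isClosed_le (by fun_prop) continuous_const)
  have hKm : ∀ k ∈ K, ∃ x ∈ G.S, ∃ y ∈ G.S, ‖x - y‖ ^ 2 ≤ t₁ ∧ k = (0, x, y) := by
    rintro ⟨τ, x, y⟩ ⟨⟨h0, hx, hy⟩, h⟩
    exact ⟨x, hx, y, hy, h, by rw [show τ = 0 from h0]⟩
  set s : ℝ × E × E → E := fun k => G.pi k.2.1 k.2.2 with hs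
  have hsc : ∀ k : ℝ × E × E, ‖k.2.1 - k.2.2‖ ^ 2 < G.δ ^ 2 → ContinuousAt s k := fun k hk =>
    (G.stp_contDiffAt_pi (contDiff_snd.fst.contDiffAt) (contDiff_snd.snd.contDiffAt) hk).continuousAt
  have hZ0 : ∀ x ∈ G.S, ∀ y v, Z ((0, x, y), v) = (x, G.P x v) := by
    intro x hx y v
    simp only [hZ, Hm.zero, G.fix x hx]
  have hΨ0 : ∀ x ∈ G.S, ∀ y ∈ G.S, ∀ v, Ψ ((0, x, y), v) = v - G.pi x y := by
    intro x hx y hy v
    simp only [hΨ, hZ0 x hx, G.fix x hx, G.fix y hy, map_sub, G.P_idem hx, G.stp_P_pi hx]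
    abel
  have hmemO : ∀ k ∈ K, (k, s k) ∈ O := by
    intro k hk
    obtain ⟨x, hx, y, hy, h, rfl⟩ := hKm k hk
    simp only [hO, mem_ofPred_eq, hZ0 x hx, G.fix y hy]
    linarith
  obtain ⟨U, W, p, hU, hKU, hW, hWO, hsW, hp, hsol, huniq⟩ := implicit_compact Ψ O hOo hΨs K hKc s
    (fun k hk => by
      obtain ⟨x, hx, y, hy, h, rfl⟩ := hKm k hk
      exact (hsc _ (by simp only; linarith)).continuousWithinAt)
    hmemO
    (fun k hk => by
      obtain ⟨x, hx, y, hy, h, rfl⟩ := hKm k hk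
      rw [hΨ0 x hx y hy]
      simp [hs])
    (fun k hk v hv => by
      have hd : HasFDerivAt Ψ (fderiv ℝ Ψ (k, s k)) (k, s k) :=
        ((hΨs.contDiffAt (hOo.mem_nhds (hmemO k hk))).differentiableAt (by simp)).hasFDerivAt
      have h1 : HasFDerivAt (fun v : E => Ψ (k, v))
          ((fderiv ℝ Ψ (k, s k)).comp (ContinuousLinearMap.inr ℝ (ℝ × E × E) E)) (s k) :=
        HasFDerivAt.comp (s k) (g := Ψ) (f := fun v : E => (k, v)) hd
          (hasFDerivAt_prodMk_right k (s k))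
      obtain ⟨x, hx, y, hy, h, rfl⟩ := hKm k hk
      have h2 : HasFDerivAt (fun v : E => Ψ ((0, x, y), v)) (ContinuousLinearMap.id ℝ E)
          (s (0, x, y)) := by
        simp only [hΨ0 x hx y hy]
        exact (hasFDerivAt_id _).sub_const _
      have h3 := congrArg (fun L : E →L[ℝ] E => L v) (h1.unique h2)
      simpa [hv] using h3.symm)
  have hpK : ∀ k ∈ K, p k = s k := fun k hk => by
    obtain ⟨x, hx, y, hy, h, rfl⟩ := hKm k hk
    refine ((huniq _ _ (hsW _ hk) ?_).2).symm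
    rw [hΨ0 x hx y hy]
    simp [hs]
  set D : Set (ℝ × E × E) := {k | ‖k.2.1 - k.2.2‖ ^ 2 < G.δ ^ 2} with hD
  have hDo : IsOpen D := isOpen_lt (by fun_prop) continuous_const
  have hc1 : ContinuousOn (fun k => ‖G.P (G.r k.2.1) - G.P (Z (k, p k)).1‖) U := by
    have a1 : ContinuousOn (fun k : ℝ × E × E => (k, p k)) U :=
      continuousOn_id.prodMk hp.continuousOn
    exact ((hP.continuous.comp_continuousOn a1).sub
      ((G.P_smooth.continuous.comp hZs.fst.continuous).comp_continuousOn a1)).norm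
  have hc2 : ContinuousOn (fun k : ℝ × E × E => (k, s k)) D := fun k hk =>
    (continuousAt_id.prodMk (hsc k hk)).continuousWithinAt
  have hU1 : IsOpen (U ∩ (fun k => ‖G.P (G.r k.2.1) - G.P (Z (k, p k)).1‖) ⁻¹' Iio 1) :=
    hc1.isOpen_inter_preimage hU isOpen_Iio
  have hU2 : IsOpen (D ∩ (fun k : ℝ × E × E => (k, s k)) ⁻¹' W) :=
    hc2.isOpen_inter_preimage hDo hW
  refine ⟨_, p, hU1.inter hU2, hp.mono (fun k hk => hk.1.1), ?_, ?_, ?_⟩
  · intro x hx y hy h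
    have hk : ((0 : ℝ), x, y) ∈ K := ⟨⟨rfl, hx, hy⟩, h⟩
    refine ⟨⟨hKU hk, ?_⟩, ?_, hsW _ hk⟩
    · simp only [mem_preimage, hZ0 x hx, G.fix x hx, sub_self, norm_zero, mem_Iio]
      exact one_pos
    · simp only [hD, mem_ofPred_eq]
      linarith
  · intro k hk
    exact ⟨hk.2.1, hWO (hsol k hk.1.1).1⟩
  · intro τ x hx y hy hk
    have e := (hsol _ hk.1.1).2
    have hlt : ‖G.P (G.r x) - G.P (Z ((τ, x, y), p (τ, x, y))).1‖ < 1 := hk.1.2
    simp only [hΨ, G.fix x hx, G.fix y hy] at e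
    have e1 : G.P x ((Z ((τ, x, y), p (τ, x, y))).2 -
        G.pi (Z ((τ, x, y), p (τ, x, y))).1 y) = 0 := by
      have := congrArg (G.P x) e
      rwa [map_add, G.P_idem hx, map_sub (G.P x) (p _), G.P_idem hx, sub_self, add_zero,
        map_zero] at this
    have e2 : G.P x (p (τ, x, y)) = p (τ, x, y) := by
      rw [e1, zero_add] at e
      exact (sub_eq_zero.1 e).symm
    have eZ : Z ((τ, x, y), p (τ, x, y)) = Hm.Φ (τ, x, p (τ, x, y)) := by
      simp only [hZ, G.fix x hx, e2]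
    rw [eZ] at e1 hlt
    rw [G.fix x hx] at hlt
    refine ⟨e2, ?_, ?_⟩
    · have hc := (G.mem_cot _).1 (Hm.mem τ (x, p (τ, x, y)) ((G.mem_cot _).2 ⟨hx, e2⟩))
      set z := Hm.Φ (τ, x, p (τ, x, y))
      set v := z.2 - G.pi z.1 y with hv
      have hv1 : G.P z.1 v = v := by rw [hv, map_sub, hc.2, G.stp_P_pi hc.1]
      have hv2 : (G.P x - G.P z.1) v = -v := by
        rw [sub_apply, e1, hv1, zero_sub]
      have hv3 := (G.P x - G.P z.1).le_opNorm v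
      rw [hv2, norm_neg] at hv3
      have hv4 : ‖v‖ = 0 := by
        by_contra hne
        have : 0 < ‖v‖ := lt_of_le_of_ne (norm_nonneg v) (Ne.symm hne)
        nlinarith
      exact sub_eq_zero.1 (norm_eq_zero.1 hv4)
    · intro hst
      refine ((huniq (τ, x, y) (G.pi x y) hk.2.2 ?_).2).symm
      simp only [hΨ, hZ, G.fix x hx, G.fix y hy, G.stp_P_pi hx, hst τ, sub_self, map_zero, add_zero]

theorem exists_step [FiniteDimensional ℝ E] (G : Geo E) (F : E × E → ℝ) (hF : ContDiff ℝ ∞ F)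
    (Hm : Ham G.toRet F) (Rb : ℝ) (hR : ∀ z ∈ Cot G.S, Rb ≤ ‖z.2‖ → F z = 1) :
    Nonempty (Step G F Hm) := by
  classical
  obtain ⟨t₁, ht, hthr⟩ := G.stp_exists_thr Rb
  obtain ⟨U, p, hU, hp, h0, hlt, hsol⟩ := stp_exists_solution G F Hm t₁ ht
  have hF1 : ∀ x ∈ G.S, ∀ y ∈ G.S, t₁ ≤ ‖x - y‖ ^ 2 → ‖x - y‖ ^ 2 < G.δ ^ 2 →
      F (x, G.pi x y) = 1 := fun x hx y hy h1 h2 =>
    hR _ (G.stp_pi_mem_cot hx y) (hthr x hx y hy h1 h2)
  have hst : ∀ x ∈ G.S, ∀ y ∈ G.S, t₁ ≤ ‖x - y‖ ^ 2 → ‖x - y‖ ^ 2 < G.δ ^ 2 →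
      ∀ t, Hm.Φ (t, x, G.pi x y) = (x, G.pi x y) := fun x hx y hy h1 h2 =>
    Hm.stat _ (G.stp_pi_mem_cot hx y) (Or.inr (hF1 x hx y hy h1 h2))
  set K : ℝ → Set (ℝ × E × E) := fun c =>
    (Icc 0 c ×ˢ G.S ×ˢ G.S) ∩ {k | ‖k.2.1 - k.2.2‖ ^ 2 ≤ t₁} with hK
  have hKc : ∀ c, IsCompact (K c) := fun c =>
    (isCompact_Icc.prod (G.compact.prod G.compact)).inter_right
      (isClosed_le (by fun_prop) continuous_const)
  obtain ⟨τ₀, hτ₀, hth⟩ := (hKc 0).exists_cthickening_subset_open hU (by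
    rintro ⟨τ, x, y⟩ ⟨⟨hτ, hx, hy⟩, h⟩
    have : τ = 0 := le_antisymm hτ.2 hτ.1
    subst this
    exact h0 x hx y hy h)
  have hKU : K τ₀ ⊆ U := by
    rintro ⟨τ, x, y⟩ ⟨⟨hτ, hx, hy⟩, h⟩
    refine hth (Metric.mem_cthickening_of_dist_le _ ((0 : ℝ), x, y) _ _
      ⟨⟨⟨le_rfl, le_rfl⟩, hx, hy⟩, h⟩ ?_)
    rw [Prod.dist_eq, dist_self, Real.dist_eq, sub_zero, abs_of_nonneg hτ.1]
    exact max_le hτ.2 hτ₀.le
  obtain ⟨χ, hχ, -, hχU, -, hχ1⟩ := exists_bump (K τ₀) U (hKc τ₀) hU hKU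
  set Z : ℝ × E × E → ℝ × E × E := fun k => (k.1, G.r k.2.1, G.P (G.r k.2.1) (p k)) with hZ
  set w₁ : ℝ × E × E → ℝ := fun k => Hm.A (Z k) +
    Real.log (G.δ ^ 2 - ‖(Hm.Φ (Z k)).1 - G.r k.2.2‖ ^ 2) -
    Real.log (G.δ ^ 2 - ‖k.2.1 - k.2.2‖ ^ 2) with hw₁
  have hr1 : ContDiff ℝ ∞ (fun k : ℝ × E × E => G.r k.2.1) := G.smooth.comp contDiff_snd.fst
  have hr2 : ContDiff ℝ ∞ (fun k : ℝ × E × E => G.r k.2.2) := G.smooth.comp contDiff_snd.snd
  have hZs : ContDiffOn ℝ ∞ Z U := contDiffOn_fst.prodMk (hr1.contDiffOn.prodMk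
    ((G.P_smooth.comp hr1).contDiffOn.clm_apply hp))
  have hw₁s : ContDiffOn ℝ ∞ w₁ U := by
    refine ((Hm.As.comp_contDiffOn hZs).add (ContDiffOn.log (contDiffOn_const.sub
      (((Hm.Φs.fst.comp_contDiffOn hZs).sub hr2.contDiffOn).norm_sq ℝ)) ?_)).sub
      (ContDiffOn.log (contDiffOn_const.sub
        ((contDiff_snd.fst.sub contDiff_snd.snd).contDiffOn.norm_sq ℝ)) ?_)
    · intro k hk
      exact (sub_pos.2 (hlt k hk).2).ne'
    · intro k hk
      exact (sub_pos.2 (hlt k hk).1).ne'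
  have hZe : ∀ τ, ∀ x ∈ G.S, ∀ y ∈ G.S, (τ, x, y) ∈ U → Z (τ, x, y) = (τ, x, p (τ, x, y)) := by
    intro τ x hx y hy hk
    simp only [hZ, G.fix x hx, (hsol τ x hx y hy hk).1]
  have hw₁e : ∀ τ, ∀ x ∈ G.S, ∀ y ∈ G.S, (τ, x, y) ∈ U → w₁ (τ, x, y) =
      Hm.A (τ, x, p (τ, x, y)) + Real.log (G.δ ^ 2 - ‖(Hm.Φ (τ, x, p (τ, x, y))).1 - y‖ ^ 2) -
        Real.log (G.δ ^ 2 - ‖x - y‖ ^ 2) := by
    intro τ x hx y hy hk
    simp only [hw₁, hZe τ x hx y hy hk, G.fix y hy]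
  set w : ℝ × E × E → ℝ := fun k => χ k • (w₁ k + k.1) - k.1 with hw
  have hws : ContDiff ℝ ∞ w :=
    (contDiff_smul_cut U hU χ hχ hχU _ (hw₁s.add contDiffOn_fst)).sub contDiff_fst
  have hin : ∀ k ∈ K τ₀, w =ᶠ[𝓝 k] w₁ := by
    intro k hk
    filter_upwards [hχ1.filter_mono (nhds_le_nhdsSet hk)] with k' hk'
    simp [hw, hk']
  have hout : ∀ τ, ∀ x ∈ G.S, ∀ y ∈ G.S, t₁ ≤ ‖x - y‖ ^ 2 → ‖x - y‖ ^ 2 < G.δ ^ 2 →
      w (τ, x, y) = -τ := by
    intro τ x hx y hy h1 h2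
    by_cases hk : (τ, x, y) ∈ U
    · have e := (hsol τ x hx y hy hk).2.2 (hst x hx y hy h1 h2)
      have e' := hw₁e τ x hx y hy hk
      rw [e, hst x hx y hy h1 h2, Hm.Astat _ (G.stp_pi_mem_cot hx y) (hst x hx y hy h1 h2),
        hF1 x hx y hy h1 h2] at e'
      simp only [hw, e']
      simp
    · have : χ (τ, x, y) = 0 := image_eq_zero_of_notMem_tsupport fun h => hk (hχU h)
      simp [hw, this]
  set pm : ℝ × E × E → E := fun k =>
    if ‖k.2.1 - k.2.2‖ ^ 2 ≤ t₁ then p k else G.pi k.2.1 k.2.2 with hpm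
  have hpm1 : ∀ τ x y, ‖x - y‖ ^ 2 ≤ t₁ → pm (τ, x, y) = p (τ, x, y) := fun τ x y h => if_pos h
  have hpm2 : ∀ τ x y, ¬ ‖x - y‖ ^ 2 ≤ t₁ → pm (τ, x, y) = G.pi x y := fun τ x y h => if_neg h
  have hmK : ∀ τ ∈ Icc 0 τ₀, ∀ x ∈ G.S, ∀ y ∈ G.S, ‖x - y‖ ^ 2 ≤ t₁ → (τ, x, y) ∈ K τ₀ :=
    fun τ hτ x hx y hy h => ⟨⟨hτ, hx, hy⟩, h⟩
  refine ⟨⟨τ₀, hτ₀, w, hws, pm, ?_, ?_, ?_, ?_, ?_, ?_⟩⟩
  · intro τ hτ x hx y hy h
    by_cases hq : ‖x - y‖ ^ 2 ≤ t₁
    · rw [hpm1 τ x y hq]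
      exact (G.mem_cot _).2 ⟨hx, (hsol τ x hx y hy (hKU (hmK τ hτ x hx y hy hq))).1⟩
    · rw [hpm2 τ x y hq]
      exact G.stp_pi_mem_cot hx y
  · intro τ hτ x hx y hy h
    by_cases hq : ‖x - y‖ ^ 2 ≤ t₁
    · have hk := hKU (hmK τ hτ x hx y hy hq)
      have := (hlt _ hk).2
      simp only [G.fix x hx, G.fix y hy, (hsol τ x hx y hy hk).1] at this
      rwa [hpm1 τ x y hq]
    · rw [hpm2 τ x y hq, hst x hx y hy (not_le.1 hq).le h]
      exact h
  · intro τ hτ x hx y hy h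
    by_cases hq : ‖x - y‖ ^ 2 ≤ t₁
    · rw [hpm1 τ x y hq]
      exact (hsol τ x hx y hy (hKU (hmK τ hτ x hx y hy hq))).2.1
    · rw [hpm2 τ x y hq, hst x hx y hy (not_le.1 hq).le h]
  · intro τ hτ x hx y hy h
    by_cases hq : ‖x - y‖ ^ 2 ≤ t₁
    · have hk := hmK τ hτ x hx y hy hq
      rw [hpm1 τ x y hq, (hin _ hk).eq_of_nhds, hw₁e τ x hx y hy (hKU hk)]
      ring
    · have h1 := (not_le.1 hq).le
      rw [hpm2 τ x y hq, hst x hx y hy h1 h, hout τ x hx y hy h1 h,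
        Hm.Astat _ (G.stp_pi_mem_cot hx y) (hst x hx y hy h1 h), hF1 x hx y hy h1 h]
      ring
  · intro τ hτ x hx y hy h θ u v hu hv
    obtain ⟨a, b, a0, b0, da, db, hab⟩ := stp_exists_curve G hx hy hu hv
    have dτ : HasDerivAt (fun t : ℝ => τ + t * θ) θ 0 := by
      simpa using ((hasDerivAt_id (0 : ℝ)).mul_const θ).const_add τ
    set γ : ℝ → ℝ × E × E := fun t => (τ + t * θ, a t, b t) with hγ
    have dγ : HasDerivAt γ (θ, u, v) 0 := dτ.prodMk (da.prodMk db)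
    have γ0 : γ 0 = (τ, x, y) := by simp [hγ, a0, b0]
    have dw : HasDerivAt (fun t => w (γ t)) (fderiv ℝ w (τ, x, y) (θ, u, v)) 0 := by
      have := ((hws.differentiable (by simp)) (γ 0)).hasFDerivAt.comp_hasDerivAt 0 dγ
      rwa [γ0] at this
    have cγ : Tendsto γ (𝓝 0) (𝓝 (τ, x, y)) := γ0 ▸ dγ.continuousAt.tendsto
    by_cases hq : ‖x - y‖ ^ 2 ≤ t₁
    · have hk := hmK τ hτ x hx y hy hq
      have hkU := hKU hk
      rw [hpm1 τ x y hq]
      obtain ⟨p', dp⟩ : ∃ p', HasDerivAt (fun t => p (γ t)) p' 0 := by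
        have h1 : DifferentiableAt ℝ p (γ 0) := by
          rw [γ0]
          exact (hp.contDiffAt (hU.mem_nhds hkU)).differentiableAt (by simp)
        exact ⟨_, h1.hasFDerivAt.comp_hasDerivAt 0 dγ⟩
      set z : ℝ → E × E := fun t => (a t, p (γ t)) with hz
      have dz : HasDerivAt z (u, p') 0 := da.prodMk dp
      have z0 : z 0 = (x, p (τ, x, y)) := by simp only [hz, a0, γ0]
      have evU : ∀ᶠ t in 𝓝 (0 : ℝ), γ t ∈ U := cγ.eventually (hU.mem_nhds hkU)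
      have evC : ∀ᶠ t in 𝓝 (0 : ℝ), z t ∈ Cot G.S := by
        filter_upwards [evU, hab] with t h1 h2
        exact (G.mem_cot _).2 ⟨h2.1, (hsol _ _ h2.1 _ h2.2 h1).1⟩
      have hzC : (x, p (τ, x, y)) ∈ Cot G.S := z0 ▸ evC.self_of_nhds
      have htan : (u, p') ∈ Tan (Cot G.S) (x, p (τ, x, y)) := z0 ▸ Tan.of_hasDerivAt dz evC
      set ζ : ℝ → ℝ × E × E := fun t => (τ + t * θ, z t) with hζ
      have dζ : HasDerivAt ζ (θ, u, p') 0 := dτ.prodMk dz
      have ζ0 : ζ 0 = (τ, x, p (τ, x, y)) := by simp only [hζ, z0, zero_mul, add_zero]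
      have dA : HasDerivAt (fun t => Hm.A (ζ t))
          (fderiv ℝ Hm.A (τ, x, p (τ, x, y)) (θ, u, p')) 0 := by
        have := ((Hm.As.differentiable (by simp)) (ζ 0)).hasFDerivAt.comp_hasDerivAt 0 dζ
        rwa [ζ0] at this
      have dΦ : HasDerivAt (fun t => Hm.Φ (ζ t))
          (fderiv ℝ Hm.Φ (τ, x, p (τ, x, y)) (θ, u, p')) 0 := by
        have := ((Hm.Φs.differentiable (by simp)) (ζ 0)).hasFDerivAt.comp_hasDerivAt 0 dζ
        rwa [ζ0] at this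
      have dΦ1 : HasDerivAt (fun t => (Hm.Φ (ζ t)).1)
          (fderiv ℝ Hm.Φ (τ, x, p (τ, x, y)) (θ, u, p')).1 0 := dΦ.fst
      have evS : ∀ᶠ t in 𝓝 (0 : ℝ), (Hm.Φ (ζ t)).1 ∈ G.S := by
        filter_upwards [evC] with t h1
        exact (Hm.mem _ _ h1).1
      have hS0 : (Hm.Φ (ζ 0)).1 ∈ G.S := evS.self_of_nhds
      have hξ := (G.mem_tan hS0 _).1 (Tan.of_hasDerivAt dΦ1 evS)
      have hq' : ‖(Hm.Φ (ζ 0)).1 - b 0‖ ^ 2 < G.δ ^ 2 := by
        have := (hlt _ hkU).2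
        simp only [G.fix x hx, G.fix y hy, (hsol τ x hx y hy hkU).1] at this
        rwa [ζ0, b0]
      have d1 := G.stp_hasDerivAt_log dΦ1 db hS0 (b0 ▸ hy) hξ (b0 ▸ hv) hq'
      have d2 := G.stp_hasDerivAt_log da db (a0 ▸ hx) (b0 ▸ hy) (a0 ▸ hu) (b0 ▸ hv)
        (by rw [a0, b0]; exact h)
      have d3 := (dA.add d1).sub d2
      have ev : (fun t => w (γ t)) =ᶠ[𝓝 0] fun t => Hm.A (ζ t) +
          Real.log (G.δ ^ 2 - ‖(Hm.Φ (ζ t)).1 - b t‖ ^ 2) -
          Real.log (G.δ ^ 2 - ‖a t - b t‖ ^ 2) := by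
        filter_upwards [evU, hab, cγ.eventually (hin _ hk)] with t h1 h2 h3
        rw [h3]
        exact hw₁e _ _ h2.1 _ h2.2 h1
      have e := dw.unique (d3.congr_of_eventuallyEq ev)
      rw [e, Hm.var τ θ _ hzC _ htan, ζ0, a0, b0, (hsol τ x hx y hy hkU).2.1, inner_sub_left,
        inner_sub_left]
      ring
    · have h1 := not_le.1 hq
      rw [hpm2 τ x y hq, hst x hx y hy h1.le h, hF1 x hx y hy h1.le h]
      have cq : Tendsto (fun t => ‖a t - b t‖ ^ 2) (𝓝 0) (𝓝 (‖x - y‖ ^ 2)) := by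
        have : Tendsto (fun t => ‖a t - b t‖ ^ 2) (𝓝 0) (𝓝 (‖a 0 - b 0‖ ^ 2)) :=
          ((da.continuousAt.tendsto.sub db.continuousAt.tendsto).norm.pow 2)
        rwa [a0, b0] at this
      have ev : (fun t => w (γ t)) =ᶠ[𝓝 0] fun t => -(τ + t * θ) := by
        filter_upwards [hab, cq.eventually (lt_mem_nhds h1), cq.eventually (gt_mem_nhds h)]
          with t h2 h3 h4
        exact hout _ _ h2.1 _ h2.2 h3.le h4
      have e := dw.unique (dτ.neg.congr_of_eventuallyEq ev)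
      rw [e]
      simp
  · intro τ hτ x hx y hy h hs
    by_cases hq : ‖x - y‖ ^ 2 ≤ t₁
    · rw [hpm1 τ x y hq]
      exact (hsol τ x hx y hy (hKU (hmK τ hτ x hx y hy hq))).2.2 hs
    · exact hpm2 τ x y hq

end Pool.Agent.Wein
end

-- part Pool.Agent.P.MP_e3ee0c_gt.WCollarC
section

/-! The action gap of the collar Hamiltonian, and the way back to the level of H. -/

open Set Filter Topology
open scoped ContDiff InnerProductSpace

namespace Pool.Agent.Wein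

lemma st_strict : StrictMonoOn Real.smoothTransition (Ioo 0 1) :=
  strictMonoOn_of_deriv_pos (convex_Ioo _ _) Real.smoothTransition.continuous.continuousOn
    fun x hx => by
      have hx' : x ∈ Ioo (0 : ℝ) 1 := interior_subset hx
      obtain ⟨d, h, hd, -⟩ := st_deriv hx'.1 hx'.2
      rwa [h.deriv]

variable {E : Type} [NormedAddCommGroup E] [InnerProductSpace ℝ E]

namespace Col

variable {R : Ret E} {H β : E × E → ℝ} {c : ℝ} (C : Col R H β c)

/-- F is a collar Hamiltonian. -/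
def IsF (F : E × E → ℝ) : Prop :=
  ContDiff ℝ ∞ F ∧ ∀ y ∈ Cot R.S, (H y ≤ c → F y = 0) ∧
    (y ∈ C.U ∧ |C.T y| < 2 * C.η → F y = Real.smoothTransition (C.T y / C.η)) ∧
    (c < H y ∧ y ∉ C.K → F y = 1)

variable {C} {F : E × E → ℝ}

lemma IsF.mid (hF : C.IsF F) {y : E × E} (hy : y ∈ Cot R.S) (h0 : F y ≠ 0) (h1 : F y ≠ 1) :
    ∃ s σ, σ ∈ Cot R.S ∧ H σ = c ∧ 0 < s ∧ s < C.η ∧ y = C.Ψ (s, σ) ∧
      F y = Real.smoothTransition (s / C.η) := by
  obtain ⟨a, b, d⟩ := hF.2 y hy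
  have hp := C.pos
  have hc : c < H y := not_le.1 fun h => h0 (a h)
  have hK : y ∈ C.K := by_contra fun h => h1 (d ⟨hc, h⟩)
  have hb := b (C.of_mem_K hK)
  obtain ⟨⟨s, σ⟩, ⟨hs, hσ⟩, rfl⟩ := hK
  rw [(C.tube σ hσ.1 hσ.2 s (by rw [abs_of_nonneg hs.1]; linarith [hs.2])).2.1] at hb
  refine ⟨s, σ, hσ.1, hσ.2, ?_, ?_, rfl, hb⟩
  · rw [hb, Ne, Real.smoothTransition.zero_iff_nonpos, not_le] at h0
    exact (div_pos_iff_of_pos_right hp).1 h0
  · rw [hb, Ne, Real.smoothTransition.eq_one_iff_one_le, not_le] at h1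
    exact (div_lt_one hp).1 h1

lemma IsF.bounds (hF : C.IsF F) {y : E × E} (hy : y ∈ Cot R.S) : 0 ≤ F y ∧ F y ≤ 1 := by
  by_cases h0 : F y = 0
  · simp [h0]
  by_cases h1 : F y = 1
  · simp [h1]
  obtain ⟨s, σ, -, -, -, -, -, h⟩ := hF.mid hy h0 h1
  rw [h]
  exact ⟨Real.smoothTransition.nonneg _, Real.smoothTransition.le_one _⟩

lemma IsF.dF (hF : C.IsF F) {σ : E × E} (hσ : σ ∈ Cot R.S) (hc : H σ = c) {s : ℝ} (h0 : 0 < s)
    (h1 : s < C.η) {u : E × E} (hu : u ∈ Tan (Cot R.S) (C.Ψ (s, σ))) :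
    fderiv ℝ F (C.Ψ (s, σ)) u =
      deriv Real.smoothTransition (s / C.η) / C.η * fderiv ℝ C.T (C.Ψ (s, σ)) u := by
  have hp := C.pos
  have hs : |s| < 2 * C.η := by rw [abs_of_pos h0]; linarith
  obtain ⟨hU, hT, -⟩ := C.tube σ hσ hc s hs.le
  have e1 : HasDerivAt Real.smoothTransition (deriv Real.smoothTransition (s / C.η))
      (C.T (C.Ψ (s, σ)) / C.η) := by
    rw [hT]
    exact ((Real.smoothTransition.contDiff (n := 1)).differentiable (by simp) _).hasDerivAt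
  have e2 := HasDerivAt.comp_hasFDerivAt (C.Ψ (s, σ)) (f := fun y => C.T y / C.η) e1
    ((C.T_diff hU).mul_const C.η⁻¹)
  rw [Tan.fderiv_congr hu (hF.1.differentiable (by simp) _) e2.differentiableAt (by
    filter_upwards [C.isOpen_box.mem_nhds ⟨hU, by rwa [hT]⟩] with y hy hyS
    exact (hF.2 y hyS).2.1 hy), e2.fderiv]
  simp only [smul_apply, smul_eq_mul]
  ring

lemma IsF.gap (hF : C.IsF F) (hβ : ContDiff ℝ ∞ β) {M : ℝ} (hM0 : 0 ≤ M)
    (hM : ∀ y ∈ C.K, |β y| ≤ M) (z : ℝ → E × E) (A : ℝ → ℝ) (hz : IsOrbit R.S F z)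
    (hA : ∀ t, HasDerivAt A (⟪(z t).2, (deriv z t).1⟫_ℝ - F (z t)) t) (hκ : F (z 0) < 1 / 2)
    (s : ℝ) (hs : 0 ≤ s) : -(2 * M) ≤ A s - A 0 := by
  have hFd : Differentiable ℝ F := hF.1.differentiable (by simp)
  have hp := C.pos
  by_cases h0 : F (z 0) = 0
  · have h : ∀ t, HasDerivAt A 0 t := fun t => by
      obtain ⟨v, hv, ho⟩ := (hz t).2
      have ht : F (z t) = 0 := (orbit_const hFd hz t).trans h0
      have : v = 0 := R.omega_nondeg (hz t).1 (orbit_tan hz hv) fun u hu => by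
        rw [ho u hu, Tan.fderiv_eq_zero hu (hFd _)
          (Or.inl (Eventually.of_forall fun y hy => ht ▸ (hF.bounds hy).1)), neg_zero]
      simpa [hv.deriv, this, ht] using hA t
    rw [is_const_of_deriv_eq_zero (fun s => (h s).differentiableAt) (fun s => (h s).deriv) s 0]
    linarith
  have hmid := fun t => hF.mid (hz t).1 (by rwa [orbit_const hFd hz t])
    (by rw [orbit_const hFd hz t]; linarith)
  have hK : ∀ t, z t ∈ C.K := fun t => by
    obtain ⟨r, σ, a1, a2, a3, a4, a5, -⟩ := hmid t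
    exact ⟨(r, σ), ⟨⟨a3.le, a4.le⟩, a1, a2⟩, a5.symm⟩
  have h : ∀ t, ∃ d, 0 ≤ d ∧ HasDerivAt (fun t => A t + β (z t)) d t := fun t => by
    obtain ⟨v, hv, ho⟩ := (hz t).2
    obtain ⟨r, σ, a1, a2, a3, a4, a5, a6⟩ := hmid t
    have hr : |r| < 2 * C.η := by rw [abs_of_pos a3]; linarith
    have hv' := orbit_tan hz hv
    have b1 := (C.tube σ a1 a2 r hr.le).2.2.2.self_of_nhds (C.mem r σ a1)
    have b2 := hF.dF a1 a2 a3 a4 b1.1
    rw [C.dT_Z a1 a2 hr, mul_one] at b2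
    rw [← a5] at b1 b2
    have b3 := b1.2 v hv'
    rw [omega_swap, ho _ b1.1, neg_neg, b2] at b3
    refine ⟨_, ?_, (hA t).add
      ((hβ.differentiable (by simp) _).hasFDerivAt.comp_hasDerivAt t hv)⟩
    obtain ⟨d, c1, c2, c3⟩ := st_deriv (div_pos a3 hp) ((div_lt_one hp).2 a4)
    rw [c1.deriv] at b3
    rw [← a6, orbit_const hFd hz t] at c3
    have c4 : d ≤ d / C.η := le_div_self c2.le hp C.le_one
    rw [hv.deriv, orbit_const hFd hz t]
    linarith [c3 hκ.le]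
  choose d hd0 hd using h
  have hmono : Monotone fun t => A t + β (z t) :=
    monotone_of_deriv_nonneg (fun t => (hd t).differentiableAt) fun t => by
      rw [(hd t).deriv]; exact hd0 t
  have e1 : A 0 + β (z 0) ≤ A s + β (z s) := hmono hs
  have e2 := abs_le.1 (hM _ (hK 0))
  have e3 := abs_le.1 (hM _ (hK s))
  linarith [e2.1, e3.2]

variable [FiniteDimensional ℝ E]

lemma IsF.back (hF : C.IsF F) (hH : ContDiff ℝ ∞ H) (hβ : ContDiff ℝ ∞ β) {z : ℝ → E × E}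
    {P : ℝ} (hz : IsOrbit R.S F z) (hP : 0 < P) (hper : ∀ t, z (t + P) = z t)
    (h0 : 0 < F (z 0)) (h1 : F (z 0) < 1) :
    ∃ (w : ℝ → E × E) (Q : ℝ), IsOrbit R.S H w ∧ 0 < Q ∧ (∀ t, w (t + Q) = w t) ∧
      ∀ t, H (w t) = c := by
  have hFd : Differentiable ℝ F := hF.1.differentiable (by simp)
  have hp := C.pos
  have hmid := fun t => hF.mid (hz t).1 (by rw [orbit_const hFd hz t]; exact h0.ne')
    (by rw [orbit_const hFd hz t]; exact h1.ne)
  obtain ⟨s, σ0, -, -, hs0, hs1, -, hs⟩ := hmid 0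
  have hsa : |s| < 2 * C.η := by rw [abs_of_pos hs0]; linarith
  set w : ℝ → E × E := fun t => C.Ψ (-s, z t) with hw
  have hwS : ∀ t, w t ∈ Cot R.S := fun t => C.mem _ _ (hz t).1
  have hzw : ∀ t, C.Ψ (s, w t) = z t := fun t => C.cancel s (z t)
  have hwc : ∀ t, H (w t) = c := fun t => by
    obtain ⟨r, σ, a1, a2, a3, a4, a5, a6⟩ := hmid t
    rw [orbit_const hFd hz t, hs] at a6
    have := st_strict.injOn ⟨div_pos hs0 hp, (div_lt_one hp).2 hs1⟩
      ⟨div_pos a3 hp, (div_lt_one hp).2 a4⟩ a6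
    have hr : s = r := by field_simp at this; exact this
    simp only [hw, a5, hr, ← C.add, neg_add_cancel, C.zero, a2]
  obtain ⟨d, c1, c2, -⟩ := st_deriv (div_pos hs0 hp) ((div_lt_one hp).2 hs1)
  have hpos : ∀ t, 0 < fderiv ℝ H (w t) (C.Z (w t)) := fun t => by
    have := (C.tube (w t) (hwS t) (hwc t) 0 (by rw [abs_zero]; linarith)).2.2.1
    rwa [C.zero] at this
  set g : ℝ → ℝ := fun t => Real.exp (-s) * (d / C.η) / fderiv ℝ H (w t) (C.Z (w t)) with hg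
  have hder : ∀ t, ∃ a, HasDerivAt w a t ∧
      ∀ u ∈ Tan (Cot R.S) (w t), omega a u = -(g t * fderiv ℝ H (w t) u) := fun t => by
    obtain ⟨v, hv, ho⟩ := (hz t).2
    obtain ⟨a, ha⟩ : ∃ a, HasDerivAt w a t :=
      ⟨_, HasFDerivAt.comp_hasDerivAt t (f := z) (C.slice (-s) (z t)) hv⟩
    refine ⟨a, ha, fun u hu => ?_⟩
    have hat : a ∈ Tan (Cot R.S) (w t) := Tan.of_hasDerivAt ha (Eventually.of_forall hwS)
    have e1 : fderiv ℝ C.Ψ (s, w t) (0, a) = v := by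
      have := HasFDerivAt.comp_hasDerivAt t (f := w) (C.slice s (w t)) ha
      exact this.unique (hv.congr_of_eventuallyEq (Eventually.of_forall hzw))
    have e2 := C.conf hβ (hwS t) (hwc t) hat hu hs0.le (by linarith)
    have e3 := C.tan s hu
    have e4 := hF.dF (hwS t) (hwc t) hs0 hs1 e3
    have e5 := C.dH_eq hH (hwS t) (hwc t) hsa.le u
    rw [hzw] at e3
    rw [e1, ho _ e3, ← hzw t, e4, c1.deriv] at e2
    rw [← e2, e5, hg]
    have := (hpos t).ne'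
    field_simp
  choose a ha hoa using hder
  have hwc' : Continuous w := continuous_iff_continuousAt.2 fun t => (ha t).continuousAt
  have hgc : Continuous g :=
    continuous_const.div (((hH.continuous_fderiv (by simp)).clm_apply C.hZ.continuous).comp hwc')
      fun t => (hpos t).ne'
  have hgp : ∀ t, 0 < g t := fun t => div_pos (mul_pos (Real.exp_pos _) (div_pos c2 hp)) (hpos t)
  have hwp : ∀ t, w (t + P) = w t := fun t => by simp only [hw, hper]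
  obtain ⟨τ, Q, hQ, hτ, hτp⟩ := reparam g hgc hgp P hP fun t => by simp only [hg, hwp]
  refine ⟨fun t => w (τ t), Q, fun t => ⟨hwS _, (g (τ t))⁻¹ • a (τ t),
    (ha (τ t)).scomp t (hτ t), fun u hu => ?_⟩, hQ, fun t => by simp only [hτp, hwp],
    fun t => hwc _⟩
  rw [omega_smul_left, hoa _ u hu]
  have := (hgp (τ t)).ne'
  field_simp

end Col

end Pool.Agent.Wein
end

-- part Pool.Agent.P.MP_e3ee0c_gt.WSys
section

/-! All the data of the argument, and the letters of the generating functions. -/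

open Set Filter Topology
open scoped ContDiff InnerProductSpace

namespace Pool.Agent.Wein

variable {E : Type} [NormedAddCommGroup E] [InnerProductSpace ℝ E]

structure Sys (E : Type) [NormedAddCommGroup E] [InnerProductSpace ℝ E] extends Geo E where
  F : E × E → ℝ
  Hm : Ham toRet F
  St : Step toGeo F Hm
  h01 : ∀ z ∈ Cot S, 0 ≤ F z ∧ F z ≤ 1
  Rb : ℝ
  hR : ∀ z ∈ Cot S, Rb ≤ ‖z.2‖ → F z = 1
  t₁ : ℝ
  t₁pos : 0 < t₁
  t₁lt : t₁ < δ ^ 2
  thr : Rb * (δ ^ 2 - t₁) ≤ √t₁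
  Br : Bar (δ ^ 2) t₁ (St.τ₀ / 2)
  Y : E × E → E
  Ycont : ContinuousOn Y (Cot S)
  Yspec : ∀ z ∈ Cot S, Y z ∈ S ∧ ‖z.1 - Y z‖ ^ 2 < δ ^ 2 ∧ toGeo.pi z.1 (Y z) = z.2
  μ : ℝ
  μpos : 0 < μ
  μ1 : (δ + μ) ^ 2 ≤ δ ^ 2 + Br.a / 2
  μ2 : 6 * δ * μ / Br.a ≤ St.τ₀ / 4
  κ : ℝ
  C0 : ℝ
  κnn : 0 ≤ κ
  κle : κ ≤ 1
  gap : ∀ z ∈ Cot S, ∀ s, 0 ≤ s → F z < κ → -C0 ≤ Hm.A (s, z)
  slow : ∀ z ∈ Cot S, ∀ t, |t| ≤ St.τ₀ → ‖(Hm.Φ (t, z)).1 - z.1‖ ≤ δ
  E0 : Type
  [n0 : NormedAddCommGroup E0]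
  [i0 : InnerProductSpace ℝ E0]
  G0 : Geo E0
  pr : E → E0
  prc : Continuous pr
  prm : ∀ x ∈ S, pr x ∈ G0.S
  prs : ∀ x ∈ S, ∀ y ∈ S, ‖x - y‖ ≤ 4 * δ → ‖pr x - pr y‖ ≤ G0.δ
  per : ∀ z ∈ Cot S, ∀ s, 0 < s → Hm.Φ (s, z) = z → (∀ t, pr (Hm.Φ (t, z)).1 = pr z.1) ∧
    ((∀ t, (Hm.Φ (t, z)).1 = z.1) ∨ ∀ γ : C(UnitAddCircle, S),
      (∀ t : ℝ, (γ t : E) = (Hm.Φ (t * s, z)).1) → ¬ γ.Nullhomotopic)

attribute [instance] Sys.n0 Sys.i0

namespace Sys

variable (S : Sys E)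

/-- All periodic orbits are stationary. -/
def NoPer : Prop :=
  ∀ z ∈ Cot S.S, ∀ s, 0 < s → S.Hm.Φ (s, z) = z → ∀ t, S.Hm.Φ (t, z) = z

/-- The twist map of the shifted barrier. -/
noncomputable def pit (x y : E) : E := S.tw (fun t => 1 / (S.δ ^ 2 - S.Br.m t)) x y

noncomputable def core (τ : ℝ) (x y x' : E) : ℝ :=
  Real.log (S.δ ^ 2 - ‖x - y‖ ^ 2) + S.St.w (τ, x, y) + S.Br.g (‖y - x'‖ ^ 2)

noncomputable def Q (x n : E) : ℝ := ‖S.P x n‖ ^ 2 - ‖n - S.P x n‖ ^ 2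

/-- The conditions on a letter with vertices x, y, x'. -/
def OK (x y x' : E) : Prop :=
  x ∈ S.S ∧ y ∈ S.S ∧ ‖x - y‖ ^ 2 < S.δ ^ 2 ∧ ‖y - x'‖ ^ 2 < S.δ ^ 2 + S.Br.a

lemma w_zero {x y : E} (hx : x ∈ S.S) (hy : y ∈ S.S) (h : ‖x - y‖ ^ 2 < S.δ ^ 2) :
    S.St.w (0, x, y) = 0 := by
  have := S.St.val 0 ⟨le_rfl, S.St.τpos.le⟩ x hx y hy h
  rw [S.Hm.zero, S.Hm.Azero] at this
  simpa using this

lemma w_anti {x y : E} (hx : x ∈ S.S) (hy : y ∈ S.S) (h : ‖x - y‖ ^ 2 < S.δ ^ 2) {τ τ' : ℝ}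
    (h0 : 0 ≤ τ) (h1 : τ ≤ τ') (h2 : τ' ≤ S.St.τ₀) :
    S.St.w (τ', x, y) ≤ S.St.w (τ, x, y) ∧ S.St.w (τ, x, y) ≤ S.St.w (τ', x, y) + (τ' - τ) := by
  have hd : ∀ t ∈ Icc 0 S.St.τ₀, HasDerivAt (fun s => S.St.w (s, x, y))
      (-S.F (x, S.St.pm (t, x, y))) t := by
    intro t ht
    have h1 : HasDerivAt (fun s : ℝ => (s, x, y)) ((1 : ℝ), (0 : E), (0 : E)) t :=
      (hasDerivAt_id t).prodMk (hasDerivAt_const t (x, y))
    have h2 := (S.St.ws.differentiable (by simp) (t, x, y)).hasFDerivAt.comp_hasDerivAt t h1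
    rw [S.St.der t ht x hx y hy h 1 0 0 (map_zero _) (map_zero _)] at h2
    exact h2.congr_deriv (by simp)
  have hF : ∀ t ∈ Icc 0 S.St.τ₀, 0 ≤ S.F (x, S.St.pm (t, x, y)) ∧
      S.F (x, S.St.pm (t, x, y)) ≤ 1 := fun t ht => S.h01 _ (S.St.mem t ht x hx y hy h)
  have m1 : τ ∈ Icc 0 S.St.τ₀ := ⟨h0, h1.trans h2⟩
  have m2 : τ' ∈ Icc 0 S.St.τ₀ := ⟨h0.trans h1, h2⟩
  constructor
  · exact antitoneOn_of_deriv_nonpos (convex_Icc 0 S.St.τ₀)
      (fun t ht => (hd t ht).continuousAt.continuousWithinAt)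
      (fun t ht => (hd t (interior_subset ht)).differentiableAt.differentiableWithinAt)
      (fun t ht => by
        rw [(hd t (interior_subset ht)).deriv]; linarith [(hF t (interior_subset ht)).1]) m1 m2 h1
  · have hd' : ∀ t ∈ Icc 0 S.St.τ₀, HasDerivAt (fun s => S.St.w (s, x, y) + s)
        (-S.F (x, S.St.pm (t, x, y)) + 1) t := fun t ht => (hd t ht).add (hasDerivAt_id t)
    have := monotoneOn_of_deriv_nonneg (convex_Icc 0 S.St.τ₀)
      (fun t ht => (hd' t ht).continuousAt.continuousWithinAt)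
      (fun t ht => (hd' t (interior_subset ht)).differentiableAt.differentiableWithinAt)
      (fun t ht => by
        rw [(hd' t (interior_subset ht)).deriv]; linarith [(hF t (interior_subset ht)).2]) m1 m2 h1
    simp only at this
    linarith

/-- If the point of the cotangent bundle given by x, y is stationary then w is explicit. -/
lemma w_stat {x y : E} (hx : x ∈ S.S) (hy : y ∈ S.S) (h : ‖x - y‖ ^ 2 < S.δ ^ 2) {τ : ℝ}
    (hτ : τ ∈ Icc 0 S.St.τ₀) (hF : S.F (x, S.pi x y) = 0 ∨ S.F (x, S.pi x y) = 1) :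
    S.St.pm (τ, x, y) = S.pi x y ∧ S.St.w (τ, x, y) = -τ * S.F (x, S.pi x y) := by
  have hz : (x, S.pi x y) ∈ Cot S.S := by
    refine (S.toRet.mem_cot _).mpr ⟨hx, ?_⟩
    simp only [Geo.pi, Geo.tw, map_smul, S.toRet.P_idem hx]
  have hs := S.Hm.stat _ hz hF
  have h1 := S.St.stat τ hτ x hx y hy h hs
  have h2 := S.St.val τ hτ x hx y hy h
  rw [h1, hs τ, S.Hm.Astat _ hz hs τ] at h2
  exact ⟨h1, by simp only at h2; linarith⟩

lemma tw_big {x y : E} (hx : x ∈ S.S) (hy : y ∈ S.S) (h1 : S.t₁ ≤ ‖x - y‖ ^ 2)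
    (h : ‖x - y‖ ^ 2 < S.δ ^ 2 + S.Br.a) {ψ : ℝ → ℝ}
    (hψ : 1 / (S.δ ^ 2 - S.t₁) ≤ ψ (‖x - y‖ ^ 2)) : S.Rb ≤ ‖S.tw ψ x y‖ := by
  have hδ := S.δpos
  have hp : 0 < S.δ ^ 2 - S.t₁ := sub_pos.mpr S.t₁lt
  have h8 : ‖x - y‖ ≤ 8 * S.δ :=
    pow_le_pow_left₀ (norm_nonneg _) (le_refl _) 2 |> fun _ =>
      abs_le_of_sq_le_sq' (by nlinarith [S.Br.ale]) (by positivity) |>.2
  have h2 := S.toGeo.lower hx hy h8
  have h3 : √S.t₁ ≤ ‖x - y‖ := Real.sqrt_le_iff.mpr ⟨norm_nonneg _, h1⟩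
  have h4 : S.Rb ≤ √S.t₁ * (1 / (S.δ ^ 2 - S.t₁)) := by
    rw [mul_one_div, le_div_iff₀ hp]; exact S.thr
  have h5 : 0 < 1 / (S.δ ^ 2 - S.t₁) := by positivity
  rw [Geo.tw, norm_smul, Real.norm_eq_abs, abs_of_pos (by linarith)]
  have h6 := Real.sqrt_nonneg S.t₁
  calc S.Rb ≤ √S.t₁ * (1 / (S.δ ^ 2 - S.t₁)) := h4
    _ ≤ (2 * ‖S.P x (x - y)‖) * ψ (‖x - y‖ ^ 2) := by
      gcongr; linarith
    _ = _ := by ring

lemma pi_big {x y : E} (hx : x ∈ S.S) (hy : y ∈ S.S) (h1 : S.t₁ ≤ ‖x - y‖ ^ 2)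
    (h : ‖x - y‖ ^ 2 < S.δ ^ 2) : S.Rb ≤ ‖S.pi x y‖ := by
  refine S.tw_big hx hy h1 (by linarith [S.Br.apos]) ?_
  exact one_div_le_one_div_of_le (by linarith) (by linarith)

lemma pit_big {x y : E} (hx : x ∈ S.S) (hy : y ∈ S.S) (h1 : S.t₁ ≤ ‖x - y‖ ^ 2)
    (h : ‖x - y‖ ^ 2 < S.δ ^ 2 + S.Br.a) : S.Rb ≤ ‖S.pit x y‖ := by
  refine S.tw_big hx hy h1 h ?_
  have h2 := S.Br.mono h1
  rw [S.Br.m_low _ le_rfl] at h2
  exact one_div_le_one_div_of_le (sub_pos.mpr (S.Br.m_lt _ h)) (by linarith)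

lemma OK.step {S : Sys E} {x y x' : E} (h : S.OK x y x') : ‖x - x'‖ ≤ 3 * S.δ := by
  have hδ := S.δpos
  have h1 : ‖x - y‖ ≤ S.δ := (abs_le_of_sq_le_sq' h.2.2.1.le hδ.le).2
  have h2 : ‖y - x'‖ ≤ 2 * S.δ :=
    (abs_le_of_sq_le_sq' (by nlinarith [h.2.2.2, S.Br.ale]) (by positivity)).2
  linarith [norm_sub_le_norm_sub_add_norm_sub x y x']

/-- The unit letter at x with parameter p: first vertex, middle vertex, normal variable. -/
noncomputable def un (x p : E) : E × E × E := (x, S.Y (x, S.P x p), p - S.P x p)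

/-- The value of a letter c followed by the vertex x'. -/
noncomputable def lett (τ : ℝ) (c : E × E × E) (x' : E) : ℝ :=
  S.core τ c.1 c.2.1 x' + S.Q c.1 c.2.2

lemma un_mem {x : E} (hx : x ∈ S.S) (p : E) : (x, S.P x p) ∈ Cot S.S :=
  (S.toRet.mem_cot _).mpr ⟨hx, S.toRet.P_idem hx p⟩

lemma un_normal {x : E} (hx : x ∈ S.S) (p : E) : S.P x (p - S.P x p) = 0 := by
  rw [map_sub, S.toRet.P_idem hx, sub_self]

lemma μ_le : S.μ ≤ S.δ := by
  by_contra h
  nlinarith [S.μ1, S.Br.ale, S.δpos, S.μpos]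

lemma un_dist {x x' : E} (hx : x ∈ S.S) (h : ‖x - x'‖ ≤ S.μ) (p : E) :
    ‖S.Y (x, S.P x p) - x'‖ ^ 2 ≤ S.δ ^ 2 + S.Br.a / 2 := by
  have h1 : ‖x - S.Y (x, S.P x p)‖ ≤ S.δ :=
    (abs_le_of_sq_le_sq' (S.Yspec _ (S.un_mem hx p)).2.1.le S.δpos.le).2
  have h2 := norm_sub_le_norm_sub_add_norm_sub (S.Y (x, S.P x p)) x x'
  rw [norm_sub_rev _ x] at h2
  exact (pow_le_pow_left₀ (norm_nonneg _) (by linarith) 2).trans S.μ1

lemma un_val {x : E} (hx : x ∈ S.S) (x' p : E) {τ : ℝ} (hτ : τ ∈ Icc 0 S.St.τ₀) :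
    S.lett τ (S.un x p) x' ≤ Real.log (S.δ ^ 2 - ‖x - S.Y (x, S.P x p)‖ ^ 2) +
      S.Br.g (‖S.Y (x, S.P x p) - x'‖ ^ 2) - ‖p - S.P x p‖ ^ 2 := by
  obtain ⟨h1, h2, -⟩ := S.Yspec _ (S.un_mem hx p)
  have h3 := (S.w_anti hx h1 h2 le_rfl hτ.1 hτ.2).1
  rw [S.w_zero hx h1 h2] at h3
  simp only [lett, core, un, Q, S.un_normal hx, norm_zero, sub_zero]
  linarith

lemma un_le' {x x' : E} (hx : x ∈ S.S) (h : ‖x - x'‖ ≤ S.μ) (p : E) {τ : ℝ}
    (hτ : τ ∈ Icc 0 S.St.τ₀) :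
    S.lett τ (S.un x p) x' ≤ 6 * S.δ * ‖x - x'‖ / S.Br.a - ‖p - S.P x p‖ ^ 2 := by
  have h1 := S.un_val hx x' p hτ
  have h2 : ‖x - S.Y (x, S.P x p)‖ ^ 2 < S.δ ^ 2 := (S.Yspec _ (S.un_mem hx p)).2.1
  have h3 := S.un_dist hx h p
  have ha := S.Br.apos
  have h4 := S.Br.g_lip (‖x - S.Y (x, S.P x p)‖ ^ 2) _ (by linarith) h3
  have h5 := S.Br.g_le' _ h2
  set y := S.Y (x, S.P x p)
  have h6 : ‖x - y‖ ≤ S.δ := (abs_le_of_sq_le_sq' h2.le S.δpos.le).2
  have h7 : |‖y - x'‖ - ‖x - y‖| ≤ ‖x - x'‖ := by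
    rw [norm_sub_rev x y]
    simpa [norm_sub_rev x' x] using abs_norm_sub_norm_le (y - x') (y - x)
  have h8 : |‖y - x'‖ ^ 2 - ‖x - y‖ ^ 2| ≤ 3 * S.δ * ‖x - x'‖ := by
    rw [sq_sub_sq, abs_mul, abs_of_nonneg (by positivity)]
    have := S.μ_le
    have := (abs_le.mp h7).2
    have := S.δpos
    exact mul_le_mul (by linarith) h7 (abs_nonneg _) (by positivity)
  have h9 : 2 / S.Br.a * |‖y - x'‖ ^ 2 - ‖x - y‖ ^ 2| ≤ 6 * S.δ * ‖x - x'‖ / S.Br.a :=
    calc _ ≤ 2 / S.Br.a * (3 * S.δ * ‖x - x'‖) := by gcongr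
      _ = _ := by ring
  linarith

lemma un_cont : ContinuousOn (fun q : E × E => S.un q.1 q.2) (S.S ×ˢ univ) := by
  have hP : Continuous fun q : E × E => S.P q.1 q.2 :=
    (S.toRet.P_smooth.continuous.comp continuous_fst).clm_apply continuous_snd
  refine continuousOn_fst.prodMk (ContinuousOn.prodMk ?_ (continuous_snd.sub hP).continuousOn)
  exact S.Ycont.comp (continuous_fst.prodMk hP).continuousOn fun q hq => S.un_mem hq.1 q.2

lemma un_ok {x x' : E} (hx : x ∈ S.S) (h : ‖x - x'‖ ≤ S.μ) (p : E) :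
    S.OK (S.un x p).1 (S.un x p).2.1 x' := by
  obtain ⟨h1, h2, -⟩ := S.Yspec _ (S.un_mem hx p)
  exact ⟨hx, h1, h2, (S.un_dist hx h p).trans_lt (by linarith [S.Br.apos])⟩

lemma un_le {x x' : E} (hx : x ∈ S.S) (h : ‖x - x'‖ ≤ S.μ) (p : E) {τ : ℝ}
    (hτ : τ ∈ Icc 0 S.St.τ₀) : S.lett τ (S.un x p) x' ≤ S.St.τ₀ / 4 := by
  have h1 := S.un_le' hx h p hτ
  have h2 : 6 * S.δ * ‖x - x'‖ / S.Br.a ≤ 6 * S.δ * S.μ / S.Br.a := by
    have := S.δpos; have := S.Br.apos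
    gcongr
  linarith [S.μ2, sq_nonneg ‖p - S.P x p‖]

lemma un_le_zero {x : E} (hx : x ∈ S.S) (p : E) {τ : ℝ} (hτ : τ ∈ Icc 0 S.St.τ₀) :
    S.lett τ (S.un x p) x ≤ 0 := by
  have h1 := S.un_le' hx (x' := x) (by simpa using S.μpos.le) p hτ
  simp only [sub_self, norm_zero, mul_zero, zero_div] at h1
  linarith [sq_nonneg ‖p - S.P x p‖]

lemma un_proper (L : ℝ) : ∃ R : ℝ, ∀ x ∈ S.S, ∀ x', ‖x - x'‖ ≤ S.μ → ∀ p, R ≤ ‖p‖ →
    ∀ τ ∈ Icc 0 S.St.τ₀, S.lett τ (S.un x p) x' ≤ -L := by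
  have hδ := S.δpos
  have ha := S.Br.apos
  set K := S.Br.g 0 + 2 / S.Br.a * (S.δ ^ 2 + S.Br.a / 2) with hK
  refine ⟨2 * S.δ * Real.exp (K + L) + (|L| + S.St.τ₀ + 1), fun x hx x' h p hp τ hτ => ?_⟩
  have h0 : ‖p‖ ≤ ‖S.P x p‖ + ‖p - S.P x p‖ := by
    simpa using norm_add_le (S.P x p) (p - S.P x p)
  by_cases hn : |L| + S.St.τ₀ + 1 ≤ ‖p - S.P x p‖
  · have h1 := S.un_le' hx h p hτ
    have h2 : 6 * S.δ * ‖x - x'‖ / S.Br.a ≤ 6 * S.δ * S.μ / S.Br.a := by gcongr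
    nlinarith [S.μ2, le_abs_self L, abs_nonneg L, S.St.τpos]
  have h1 := S.un_val hx x' p hτ
  obtain ⟨-, h2, h3⟩ := S.Yspec _ (S.un_mem hx p)
  have h4 := S.un_dist hx h p
  simp only at h2 h3
  set y := S.Y (x, S.P x p)
  have h5 := S.Br.g_lip 0 _ (by positivity) h4
  rw [sub_zero, abs_of_nonneg (by positivity)] at h5
  have h6 : 2 / S.Br.a * ‖y - x'‖ ^ 2 ≤ 2 / S.Br.a * (S.δ ^ 2 + S.Br.a / 2) := by gcongr
  have hq : 0 < S.δ ^ 2 - ‖x - y‖ ^ 2 := sub_pos.mpr h2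
  have h7 : ‖S.P x p‖ * (S.δ ^ 2 - ‖x - y‖ ^ 2) ≤ 2 * S.δ := by
    have h8 : ‖x - y‖ ≤ S.δ := (abs_le_of_sq_le_sq' h2.le hδ.le).2
    have h9 := S.toRet.norm_P_le hx (x - y)
    rw [← h3, Geo.pi, Geo.tw, norm_smul, Real.norm_eq_abs, abs_of_pos (by positivity)]
    field_simp
    linarith
  have h8 : Real.exp (K + L) * (S.δ ^ 2 - ‖x - y‖ ^ 2) ≤ 1 := by
    have : 2 * S.δ * Real.exp (K + L) * (S.δ ^ 2 - ‖x - y‖ ^ 2) ≤
        ‖S.P x p‖ * (S.δ ^ 2 - ‖x - y‖ ^ 2) := by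
      gcongr; linarith
    nlinarith
  have h9 := Real.log_nonpos (by positivity) h8
  rw [Real.log_mul (Real.exp_pos _).ne' hq.ne', Real.log_exp] at h9
  linarith [sq_nonneg ‖p - S.P x p‖]

lemma un_coord {x : E} (hx : x ∈ S.S) (p : E) :
    S.pi (S.un x p).1 (S.un x p).2.1 + ((S.un x p).2.2 - S.P x (S.un x p).2.2) = p := by
  have h3 : S.pi x (S.Y (x, S.P x p)) = S.P x p := (S.Yspec _ (S.un_mem hx p)).2.2
  simp only [un, h3, S.un_normal hx]
  abel

end Sys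

/-- The same geometry with a smaller scale. -/
def Geo.shrink (G : Geo E) (d : ℝ) (h0 : 0 < d) (h1 : d ≤ G.δ) : Geo E where
  toRet := G.toRet
  δ := d
  δpos := h0
  ball x hx u hu := G.ball x hx u (by linarith)
  mv x hx u u' hu hu' := G.mv x hx u u' (by linarith) (by linarith)

/-- The same generating function on a shorter time interval. -/
def Step.shrink {G : Geo E} {F : E × E → ℝ} {Hm : Ham G.toRet F} (St : Step G F Hm) (τ : ℝ)
    (h0 : 0 < τ) (h1 : τ ≤ St.τ₀) : Step G F Hm where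
  τ₀ := τ
  τpos := h0
  w := St.w
  ws := St.ws
  pm := St.pm
  mem t ht := St.mem t ⟨ht.1, ht.2.trans h1⟩
  lt t ht := St.lt t ⟨ht.1, ht.2.trans h1⟩
  out t ht := St.out t ⟨ht.1, ht.2.trans h1⟩
  val t ht := St.val t ⟨ht.1, ht.2.trans h1⟩
  der t ht := St.der t ⟨ht.1, ht.2.trans h1⟩
  stat t ht := St.stat t ⟨ht.1, ht.2.trans h1⟩

/-- In a short time the base point moves little. -/
lemma Ham.slow [FiniteDimensional ℝ E] {R : Ret E} {F : E × E → ℝ} (Hm : Ham R F) (Rb : ℝ)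
    (hR : ∀ z ∈ Cot R.S, Rb ≤ ‖z.2‖ → F z = 1) {d : ℝ} (hd : 0 < d) :
    ∃ τ : ℝ, 0 < τ ∧ ∀ z ∈ Cot R.S, ∀ t, |t| ≤ τ → ‖(Hm.Φ (t, z)).1 - z.1‖ ≤ d := by
  have := FiniteDimensional.proper_real E
  have hK : IsCompact (R.S ×ˢ Metric.closedBall (0 : E) Rb) :=
    R.compact.prod (isCompact_closedBall _ _)
  have hc : Continuous fun p : ℝ × (E × E) => ‖(Hm.Φ p).1 - p.2.1‖ := by
    have := Hm.Φs.continuous
    fun_prop
  have hev : ∀ᶠ t in 𝓝 (0 : ℝ), ∀ z ∈ R.S ×ˢ Metric.closedBall (0 : E) Rb,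
      ‖(Hm.Φ (t, z)).1 - z.1‖ < d :=
    hK.eventually_forall_of_forall_eventually fun z _ =>
      hc.continuousAt.eventually (gt_mem_nhds (by simpa [Hm.zero] using hd))
  obtain ⟨ε, hε, hb⟩ := Metric.eventually_nhds_iff.1 hev
  refine ⟨ε / 2, half_pos hε, fun z hz t ht => ?_⟩
  by_cases h : Rb ≤ ‖z.2‖
  · rw [Hm.stat z hz (Or.inr (hR z hz h)), sub_self, norm_zero]
    exact hd.le
  · exact (hb (by rw [Real.dist_eq, sub_zero]; linarith) z
      ⟨hz.1, by simpa using (not_le.1 h).le⟩).le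

/-- The data exist as soon as every periodic orbit of F is stationary, or has a constant image
under pr and a base curve that is constant or not null-homotopic. -/
theorem exists_sys0 [FiniteDimensional ℝ E] {E0 : Type} [NormedAddCommGroup E0]
    [InnerProductSpace ℝ E0] [FiniteDimensional ℝ E0] (R : Ret E) (R0 : Ret E0) (pr : E → E0)
    (hpr : Continuous pr)
    (hm : ∀ x ∈ R.S, pr x ∈ R0.S) (F : E × E → ℝ) (hF : ContDiff ℝ ∞ F)
    (h01 : ∀ z ∈ Cot R.S, 0 ≤ F z ∧ F z ≤ 1) (Rb : ℝ)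
    (hR : ∀ z ∈ Cot R.S, Rb ≤ ‖z.2‖ → F z = 1) (κ C0 : ℝ) (hκ : 0 ≤ κ)
    (hgap : ∀ (z : ℝ → E × E) (A : ℝ → ℝ), IsOrbit R.S F z →
      (∀ t, HasDerivAt A (⟪(z t).2, (deriv z t).1⟫_ℝ - F (z t)) t) → F (z 0) < κ →
      ∀ s, 0 ≤ s → -C0 ≤ A s - A 0)
    (hno : ∀ (z : ℝ → E × E) (T : ℝ), IsOrbit R.S F z → 0 < T → (∀ t, z (t + T) = z t) →
      (F (z 0) = 0 ∨ F (z 0) = 1) ∨ ((∀ t, pr (z t).1 = pr (z 0).1) ∧
        ((∀ t, (z t).1 = (z 0).1) ∨ ∀ γ : C(UnitAddCircle, R.S),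
          (∀ t : ℝ, (γ t : E) = (z (t * T)).1) → ¬ γ.Nullhomotopic))) :
    ∃ S : Sys E, S.S = R.S ∧ S.F = F ∧ S.κ = min κ 1 ∧ ∀ l : UnitAddCircle → E,
      (∀ γ : C(UnitAddCircle, R0.S), (∀ t, (γ t : E0) = pr (l t)) → ¬ γ.Nullhomotopic) →
      ∀ γ : C(UnitAddCircle, S.G0.S), (∀ t, (γ t : S.E0) = S.pr (l t)) → ¬ γ.Nullhomotopic := by
  obtain ⟨G0, rfl⟩ := exists_geo R0
  obtain ⟨G1, rfl⟩ := exists_geo R
  obtain ⟨e, he, hpe⟩ := Metric.uniformContinuousOn_iff.1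
    (G1.compact.uniformContinuousOn_of_continuous hpr.continuousOn) G0.δ G0.δpos
  obtain ⟨G, hG, hGe⟩ : ∃ G : Geo E, G.toRet = G1.toRet ∧ G.δ ≤ e / 8 :=
    ⟨G1.shrink (min G1.δ (e / 8)) (lt_min G1.δpos (by positivity)) (min_le_left _ _), rfl,
      min_le_right _ _⟩
  generalize G1.toRet = R at *
  subst hG
  obtain ⟨Hm⟩ := exists_ham G.toRet F hF h01 Rb hR
  obtain ⟨St0⟩ := exists_step G F hF Hm Rb hR
  obtain ⟨τ1, hτ1, hslow⟩ := Hm.slow Rb hR G.δpos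
  obtain ⟨St, hSt⟩ : ∃ St : Step G F Hm, St.τ₀ ≤ τ1 :=
    ⟨St0.shrink (min St0.τ₀ τ1) (lt_min St0.τpos hτ1) (min_le_left _ _), min_le_right _ _⟩
  obtain ⟨Y, hY, hY'⟩ := G.exists_inv
  have hδ := G.δpos
  have hτ := St.τpos
  obtain ⟨t₁, h1, h2, h3⟩ : ∃ t₁ : ℝ, 0 < t₁ ∧ t₁ < G.δ ^ 2 ∧ Rb * (G.δ ^ 2 - t₁) ≤ √t₁ := by
    have hb : 0 < G.δ / 2 / (|Rb| + 1) := by positivity
    refine ⟨max (G.δ ^ 2 / 4) (G.δ ^ 2 - G.δ / 2 / (|Rb| + 1)), lt_max_of_lt_left (by positivity),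
      max_lt (by nlinarith) (by linarith), ?_⟩
    set t := max (G.δ ^ 2 / 4) (G.δ ^ 2 - G.δ / 2 / (|Rb| + 1))
    have e1 : G.δ / 2 ≤ √t := Real.le_sqrt_of_sq_le ((by linarith : _ ≤ G.δ ^ 2 / 4).trans
      (le_max_left _ _))
    have e2 : G.δ ^ 2 - t ≤ G.δ / 2 / (|Rb| + 1) := by
      linarith [le_max_right (G.δ ^ 2 / 4) (G.δ ^ 2 - G.δ / 2 / (|Rb| + 1))]
    have e3 : 0 ≤ G.δ ^ 2 - t :=
      sub_nonneg.mpr (max_le (by nlinarith) (by linarith))
    rw [le_div_iff₀ (by positivity)] at e2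
    nlinarith [le_abs_self Rb]
  obtain ⟨Br⟩ := exists_bar (G.δ ^ 2) t₁ (St.τ₀ / 2) h1 h2 (by positivity)
  have ha := Br.apos
  obtain ⟨μ, m0, m1, m2⟩ : ∃ μ : ℝ, 0 < μ ∧ (G.δ + μ) ^ 2 ≤ G.δ ^ 2 + Br.a / 2 ∧
      6 * G.δ * μ / Br.a ≤ St.τ₀ / 4 := by
    refine ⟨min G.δ (min (Br.a / (6 * G.δ)) (Br.a * St.τ₀ / (24 * G.δ))), by positivity, ?_, ?_⟩
    · set μ := min G.δ (min (Br.a / (6 * G.δ)) (Br.a * St.τ₀ / (24 * G.δ)))
      have e0 : 0 < μ := by positivity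
      have e1 : μ ≤ G.δ := min_le_left _ _
      have e2 : μ ≤ Br.a / (6 * G.δ) := (min_le_right _ _).trans (min_le_left _ _)
      rw [le_div_iff₀ (by positivity)] at e2
      nlinarith
    · set μ := min G.δ (min (Br.a / (6 * G.δ)) (Br.a * St.τ₀ / (24 * G.δ)))
      have e2 : μ ≤ Br.a * St.τ₀ / (24 * G.δ) := (min_le_right _ _).trans (min_le_right _ _)
      rw [le_div_iff₀ (by positivity)] at e2
      rw [div_le_iff₀ ha]
      linarith
  refine ⟨⟨G, F, Hm, St, h01, Rb, hR, t₁, h1, h2, h3, Br, Y, hY, hY', μ, m0, m1, m2, min κ 1, C0,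
    by positivity, min_le_right _ _, fun z hz s hs h => ?_,
    fun z hz t ht => hslow z hz t (ht.trans hSt), E0, G0, pr, hpr, hm, fun x hx y hy h => ?_,
    fun z hz s hs h => ?_⟩, rfl, rfl, rfl, fun _ h => h⟩
  · have := hgap _ (fun s => Hm.A (s, z)) (Hm.orbit z hz) (Hm.Aderiv z hz)
      (by simpa only [Hm.zero] using h.trans_le (min_le_left _ _)) s hs
    simpa only [Hm.Azero, sub_zero] using this
  · rw [← dist_eq_norm] at h ⊢
    exact (hpe x hx y hy (by linarith)).le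
  · have := hno _ s (Hm.orbit z hz) hs fun t => by simp only [Hm.add, h]
    simp only [Hm.zero] at this
    rcases this with h' | h'
    · have e := Hm.stat z hz h'
      exact ⟨fun t => by rw [e], Or.inl fun t => by rw [e]⟩
    · exact h'

/-- The data exist as soon as F has no periodic orbit on a level strictly between 0 and 1. -/
theorem exists_sys [FiniteDimensional ℝ E] (R : Ret E) (F : E × E → ℝ) (hF : ContDiff ℝ ∞ F)
    (h01 : ∀ z ∈ Cot R.S, 0 ≤ F z ∧ F z ≤ 1) (Rb : ℝ)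
    (hR : ∀ z ∈ Cot R.S, Rb ≤ ‖z.2‖ → F z = 1) (κ C0 : ℝ) (hκ : 0 ≤ κ)
    (hgap : ∀ (z : ℝ → E × E) (A : ℝ → ℝ), IsOrbit R.S F z →
      (∀ t, HasDerivAt A (⟪(z t).2, (deriv z t).1⟫_ℝ - F (z t)) t) → F (z 0) < κ →
      ∀ s, 0 ≤ s → -C0 ≤ A s - A 0)
    (hno : ∀ (z : ℝ → E × E) (T : ℝ), IsOrbit R.S F z → 0 < T → (∀ t, z (t + T) = z t) →
      F (z 0) = 0 ∨ F (z 0) = 1) :
    ∃ S : Sys E, S.S = R.S ∧ S.F = F ∧ S.κ = min κ 1 ∧ S.NoPer := by
  obtain ⟨S, hS, hSF, hκ', -⟩ := exists_sys0 R R id continuous_id (fun _ h => h) F hF h01 Rb hR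
    κ C0 hκ hgap fun z T hz hT hp => Or.inl (hno z T hz hT hp)
  refine ⟨S, hS, hSF, hκ', fun z hz s hs h => ?_⟩
  have := hno _ s (by rw [← hS, ← hSF]; exact S.Hm.orbit z hz) hs fun t => by
    simp only [S.Hm.add, h]
  simp only [S.Hm.zero, ← hSF] at this
  exact S.Hm.stat z hz this

end Pool.Agent.Wein
end

-- part Pool.Agent.P.MP_e3ee0c_gt.WConf
section

/-! Closed chains, their generating function and its critical points. -/

open Set Filter Topology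
open scoped ContDiff InnerProductSpace

namespace Pool.Agent.Wein

variable {E : Type} [NormedAddCommGroup E] [InnerProductSpace ℝ E]

abbrev Cfg (E : Type) (m : ℕ) (J : Type) : Type := (Fin m → E × E) × (J → E)

namespace Sys

variable (S : Sys E) {m : ℕ} [NeZero m] {J : Type} [Fintype J]

noncomputable def act (b : J → Fin m) (τ : Fin m → ℝ) (ζ : Cfg E m J) : ℝ :=
  ∑ i, S.core (τ i) (ζ.1 i).1 (ζ.1 i).2 (ζ.1 (i + 1)).1 + ∑ j, S.Q (ζ.1 (b j)).1 (ζ.2 j)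

def Z (m : ℕ) [NeZero m] (J : Type) : Set (Cfg E m J) :=
  {ζ | ∀ i, S.OK (ζ.1 i).1 (ζ.1 i).2 (ζ.1 (i + 1)).1}

/-- The relation between a critical chain and the initial point z of the orbit it describes. -/
structure Inner (fr : Prop) (s : ℝ) (ζ : Cfg E m J) (z : E × E) : Prop where
  mem : z ∈ Cot S.S
  closed : ¬ fr → S.Hm.Φ (s, z) = z
  const : (∀ t, S.Hm.Φ (t, z) = z) ∨ s = 0 → ∀ i, (ζ.1 i).1 = z.1
  vert : ∃ σ : ℕ → ℝ, σ 0 = 0 ∧ σ m = s ∧ (∀ k, σ (k + 1) ≤ σ k + S.St.τ₀) ∧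
    ∀ i : Fin m, (ζ.1 i).1 = (S.Hm.Φ (σ i, z)).1

lemma act_anti (b : J → Fin m) {τ τ' : Fin m → ℝ} (h0 : ∀ i, 0 ≤ τ i) (h1 : ∀ i, τ i ≤ τ' i)
    (h2 : ∀ i, τ' i ≤ S.St.τ₀) {ζ : Cfg E m J} (hζ : ζ ∈ S.Z m J) :
    S.act b τ' ζ ≤ S.act b τ ζ ∧ S.act b τ ζ ≤ S.act b τ' ζ + ∑ i, (τ' i - τ i) := by
  have h := fun i => S.w_anti (hζ i).1 (hζ i).2.1 (hζ i).2.2.1 (h0 i) (h1 i) (h2 i)
  unfold act core
  constructor
  · gcongr with i
    exact (h i).1
  · rw [add_right_comm, ← Finset.sum_add_distrib]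
    refine add_le_add (Finset.sum_le_sum fun i _ => ?_) le_rfl
    linarith [(h i).2]

end Sys

end Pool.Agent.Wein
end
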