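import Mathlib
import Pool.Agent.K.MP_e3ee0c_gt.C0

/-! Open chains indexed by natural numbers, concatenation, units and killing homotopies. -/

open Set Filter Topology
open scoped ContDiff InnerProductSpace

namespace Pool.Agent.Wein

variable {E : Type} [NormedAddCommGroup E] [InnerProductSpace ℝ E]

abbrev Ch (E : Type) : Type := ℕ → E × E × E

/-- The first m letters of c followed by c'. -/
def cat (m : ℕ) (c c' : Ch E) : Ch E := fun i => if i < m then c i else c' (i - m)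

def toCfg (m : ℕ) (c : Ch E) : Cfg E m (Fin m) :=
  (fun i => ((c i).1, (c i).2.1), fun i => (c i).2.2)

def ofCfg {m : ℕ} [NeZero m] (ζ : Cfg E m (Fin m)) : Ch E :=
  fun i => ((ζ.1 (Fin.ofNat m i)).1, (ζ.1 (Fin.ofNat m i)).2, ζ.2 (Fin.ofNat m i))

section Index

omit [NormedAddCommGroup E] [InnerProductSpace ℝ E]

lemma cat_lt {m i : ℕ} (h : i < m) (c c' : Ch E) : cat m c c' i = c i := if_pos h

lemma cat_add (m i : ℕ) (c c' : Ch E) : cat m c c' (m + i) = c' i := by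
  simp [cat]

lemma cat_ge {m i : ℕ} (h : m ≤ i) (c c' : Ch E) : cat m c c' i = c' (i - m) :=
  if_neg (not_lt.mpr h)

lemma cat_fst_le {m i : ℕ} (hi : i ≤ m) {c c' : Ch E} (h : (c m).1 = (c' 0).1) :
    (cat m c c' i).1 = (c i).1 := by
  rcases hi.lt_or_eq with hi | rfl
  · rw [cat_lt hi]
  · rw [cat_ge le_rfl, Nat.sub_self, h]

lemma ofNat_val {m : ℕ} [NeZero m] (i : Fin m) : Fin.ofNat m (i : ℕ) = i := by
  ext
  simp [Fin.ofNat, Nat.mod_eq_of_lt i.2]

lemma ofNat_succ {m : ℕ} [NeZero m] (i : ℕ) : Fin.ofNat m (i + 1) = Fin.ofNat m i + 1 := by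
  ext
  simp [Fin.ofNat, Fin.val_add]

lemma ofNat_self' {m : ℕ} [NeZero m] : Fin.ofNat m m = 0 := by
  ext
  simp [Fin.ofNat]

lemma ofNat_zero' {m : ℕ} [NeZero m] : Fin.ofNat m 0 = 0 := by
  ext
  simp [Fin.ofNat]

lemma fst_succ {m : ℕ} [NeZero m] {c : Ch E} (h : (c m).1 = (c 0).1) (i : Fin m) :
    (c ((i + 1 : Fin m) : ℕ)).1 = (c ((i : ℕ) + 1)).1 := by
  have hv : ((i + 1 : Fin m) : ℕ) = ((i : ℕ) + 1) % m := by
    simp [Fin.val_add]
  rcases (Nat.succ_le_of_lt i.2).lt_or_eq with hi | hi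
  · rw [hv, Nat.mod_eq_of_lt hi]
  · have hi' : (i : ℕ) + 1 = m := hi
    rw [hv, hi', Nat.mod_self, h]

lemma ofCfg_toCfg {m : ℕ} [NeZero m] (c : Ch E) {i : ℕ} (hi : i < m) :
    ofCfg (toCfg m c) i = c i := by
  simp [ofCfg, toCfg, Fin.ofNat, Nat.mod_eq_of_lt hi]

lemma toCfg_ofCfg {m : ℕ} [NeZero m] (ζ : Cfg E m (Fin m)) : toCfg m (ofCfg ζ) = ζ := by
  simp [ofCfg, toCfg]

lemma ofCfg_zero {m : ℕ} [NeZero m] (ζ : Cfg E m (Fin m)) : (ofCfg ζ 0).1 = (ζ.1 0).1 := by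
  simp [ofCfg]

lemma ofCfg_self {m : ℕ} [NeZero m] (ζ : Cfg E m (Fin m)) : (ofCfg ζ m).1 = (ζ.1 0).1 := by
  simp [ofCfg]

end Index

omit [InnerProductSpace ℝ E] in
lemma continuous_ofCfg {m : ℕ} [NeZero m] (i : ℕ) :
    Continuous fun ζ : Cfg E m (Fin m) => ofCfg ζ i := by
  unfold ofCfg
  fun_prop

omit [InnerProductSpace ℝ E] in
lemma continuousOn_toCfg {X : Type*} [TopologicalSpace X] {s : Set X} {m : ℕ} {c : X → Ch E}
    (h : ∀ i < m, ContinuousOn (fun p => c p i) s) : ContinuousOn (fun p => toCfg m (c p)) s := by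
  unfold toCfg
  refine ContinuousOn.prodMk (continuousOn_pi.2 fun i => ?_) (continuousOn_pi.2 fun i => ?_)
  · exact (h i i.2).fst.prodMk (h i i.2).snd.fst
  · exact (h i i.2).snd.snd

omit [InnerProductSpace ℝ E] in
lemma continuousOn_cat {X : Type*} [TopologicalSpace X] {s : Set X} {m k : ℕ} {c c' : X → Ch E}
    (h : ∀ i < m, ContinuousOn (fun p => c p i) s)
    (h' : ∀ i < k, ContinuousOn (fun p => c' p i) s) :
    ∀ i < m + k, ContinuousOn (fun p => cat m (c p) (c' p) i) s := by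
  intro i hi
  by_cases him : i < m
  · simpa only [cat_lt him] using h i him
  · simpa only [cat_ge (not_lt.mp him)] using h' (i - m) (by omega)

namespace Sys

variable (S : Sys E)

noncomputable def ValT (τ : ℕ → ℝ) (m : ℕ) (c : Ch E) : ℝ :=
  ∑ i ∈ Finset.range m, S.lett (τ i) (c i) (c (i + 1)).1

noncomputable def Val (m : ℕ) (c : Ch E) : ℝ := S.ValT (fun _ => S.St.τ₀) m c

def Valid (m : ℕ) (c : Ch E) : Prop := ∀ i < m, S.OK (c i).1 (c i).2.1 (c (i + 1)).1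

/-- A homotopy of proper families of closed chains of length M based at the points x of s, from the
unit over the constant polygon to a family below the level L, staying below the level T. -/
structure IsKill (s : Set E) (M : ℕ) (T L : ℝ) (H : E × ℝ × (ℕ → E) → Ch E) : Prop where
  cont : ∀ i < M, ContinuousOn (fun p => H p i) (s ×ˢ univ)
  valid : ∀ x ∈ s, ∀ u P, S.Valid M (H (x, u, P))
  src : ∀ x ∈ s, ∀ u P, (H (x, u, P) 0).1 = x
  tgt : ∀ x ∈ s, ∀ u P, (H (x, u, P) M).1 = x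
  le : ∀ x ∈ s, ∀ u P, S.Val M (H (x, u, P)) ≤ T
  start : ∀ x ∈ s, ∀ u ≤ 0, ∀ P, ∀ i < M, H (x, u, P) i = S.un x (P i)
  stop : ∀ x ∈ s, ∀ u, 1 ≤ u → ∀ P, S.Val M (H (x, u, P)) ≤ L
  proper : ∀ L', ∃ R : ℝ, ∀ x ∈ s, ∀ u P, (∃ i < M, R ≤ ‖P i‖) → S.Val M (H (x, u, P)) ≤ -L'

lemma valT_cat (τ : ℕ → ℝ) (m k : ℕ) (c c' : Ch E) (h : (c m).1 = (c' 0).1) :
    S.ValT τ (m + k) (cat m c c') = S.ValT τ m c + S.ValT (fun i => τ (m + i)) k c' := by
  unfold ValT
  rw [Finset.sum_range_add]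
  congr 1
  · refine Finset.sum_congr rfl fun i hi => ?_
    have hi := Finset.mem_range.mp hi
    rw [cat_lt hi, cat_fst_le (Nat.succ_le_of_lt hi) h]
  · refine Finset.sum_congr rfl fun i _ => ?_
    rw [cat_add, add_assoc, cat_add]

lemma val_cat (m k : ℕ) (c c' : Ch E) (h : (c m).1 = (c' 0).1) :
    S.Val (m + k) (cat m c c') = S.Val m c + S.Val k c' := S.valT_cat _ m k c c' h

lemma valid_cat {m k : ℕ} {c c' : Ch E} (h : (c m).1 = (c' 0).1) (hc : S.Valid m c)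
    (hc' : S.Valid k c') : S.Valid (m + k) (cat m c c') := by
  intro i hi
  by_cases him : i < m
  · rw [cat_fst_le (Nat.succ_le_of_lt him) h, cat_lt him]
    exact hc i him
  · obtain ⟨j, rfl⟩ := Nat.exists_eq_add_of_le (not_lt.mp him)
    rw [add_assoc, cat_add, cat_add]
    exact hc' j (by omega)

lemma toCfg_mem {m : ℕ} [NeZero m] {c : Ch E} (hc : S.Valid m c) (h : (c m).1 = (c 0).1) :
    toCfg m c ∈ S.Z m (Fin m) := by
  intro i
  have := hc i i.2
  rw [← fst_succ h i] at this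
  exact this

lemma act_toCfg {m : ℕ} [NeZero m] (τ : ℕ → ℝ) {c : Ch E} (h : (c m).1 = (c 0).1) :
    S.act id (fun i : Fin m => τ i) (toCfg m c) = S.ValT τ m c := by
  unfold act ValT lett
  rw [← Finset.sum_add_distrib, Finset.sum_range]
  refine Finset.sum_congr rfl fun i _ => ?_
  rw [← fst_succ h i]
  rfl

lemma valid_ofCfg {m : ℕ} [NeZero m] {ζ : Cfg E m (Fin m)} (h : ζ ∈ S.Z m (Fin m)) :
    S.Valid m (ofCfg ζ) := by
  intro i _
  have := h (Fin.ofNat m i)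
  rw [← ofNat_succ] at this
  exact this

lemma valT_ofCfg {m : ℕ} [NeZero m] (τ : ℕ → ℝ) (ζ : Cfg E m (Fin m)) :
    S.ValT τ m (ofCfg ζ) = S.act id (fun i : Fin m => τ i) ζ := by
  rw [← S.act_toCfg τ ((ofCfg_self ζ).trans (ofCfg_zero ζ).symm), toCfg_ofCfg]

lemma valT_congr (τ : ℕ → ℝ) {m : ℕ} {c c' : Ch E} (h : ∀ i < m, c i = c' i)
    (hm : (c m).1 = (c' m).1) : S.ValT τ m c = S.ValT τ m c' := by
  refine Finset.sum_congr rfl fun i hi => ?_
  have hi := Finset.mem_range.mp hi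
  have : (c (i + 1)).1 = (c' (i + 1)).1 := by
    rcases (Nat.succ_le_of_lt hi).lt_or_eq with h1 | h1
    · rw [h _ h1]
    · have h1' : i + 1 = m := h1
      rw [h1', hm]
  rw [h i hi, this]

lemma valid_congr {m : ℕ} {c c' : Ch E} (h : ∀ i < m, c i = c' i)
    (hm : (c m).1 = (c' m).1) (hc : S.Valid m c) : S.Valid m c' := by
  intro i hi
  have : (c (i + 1)).1 = (c' (i + 1)).1 := by
    rcases (Nat.succ_le_of_lt hi).lt_or_eq with h1 | h1
    · rw [h _ h1]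
    · have h1' : i + 1 = m := h1
      rw [h1', hm]
  rw [← h i hi, ← this]
  exact hc i hi

lemma val_le_valT {τ : ℕ → ℝ} {m : ℕ} (hτ : ∀ i < m, τ i ∈ Icc 0 S.St.τ₀) {c : Ch E}
    (hc : S.Valid m c) : S.Val m c ≤ S.ValT τ m c := by
  unfold Val ValT
  refine Finset.sum_le_sum fun i hi => ?_
  have hi := Finset.mem_range.mp hi
  have h := (S.w_anti (hc i hi).1 (hc i hi).2.1 (hc i hi).2.2.1 (hτ i hi).1 (hτ i hi).2 le_rfl).1
  unfold lett core
  linarith

/-- The chain of unit letters over the polygon v with parameters P. -/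
noncomputable def unit (v P : ℕ → E) : Ch E := fun i => S.un (v i) (P i)

lemma unit_fst (v P : ℕ → E) (i : ℕ) : (S.unit v P i).1 = v i := rfl

lemma unit_valid {m : ℕ} {v : ℕ → E} (hv : ∀ i < m, v i ∈ S.S ∧ ‖v i - v (i + 1)‖ ≤ S.μ)
    (P : ℕ → E) : S.Valid m (S.unit v P) := fun i hi => S.un_ok (hv i hi).1 (hv i hi).2 (P i)

lemma unit_le {m : ℕ} {v : ℕ → E} (hv : ∀ i < m, v i ∈ S.S ∧ ‖v i - v (i + 1)‖ ≤ S.μ)
    (P : ℕ → E) {τ : ℕ → ℝ} (hτ : ∀ i < m, τ i ∈ Icc 0 S.St.τ₀) :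
    S.ValT τ m (S.unit v P) ≤ m * (S.St.τ₀ / 4) := by
  have := Finset.sum_le_card_nsmul (Finset.range m)
    (fun i => S.lett (τ i) (S.unit v P i) (S.unit v P (i + 1)).1) (S.St.τ₀ / 4) fun i hi =>
      S.un_le (hv i (Finset.mem_range.mp hi)).1 (hv i (Finset.mem_range.mp hi)).2 (P i)
        (hτ i (Finset.mem_range.mp hi))
  simpa [ValT] using this

lemma unit_le_zero (m : ℕ) {x : E} (hx : x ∈ S.S) (P : ℕ → E) {τ : ℕ → ℝ}
    (hτ : ∀ i < m, τ i ∈ Icc 0 S.St.τ₀) : S.ValT τ m (S.unit (fun _ => x) P) ≤ 0 :=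
  Finset.sum_nonpos fun i hi => S.un_le_zero hx (P i) (hτ i (Finset.mem_range.mp hi))

lemma unit_proper (m : ℕ) (L : ℝ) : ∃ R : ℝ, ∀ v : ℕ → E,
    (∀ i < m, v i ∈ S.S ∧ ‖v i - v (i + 1)‖ ≤ S.μ) → ∀ P : ℕ → E, (∃ i < m, R ≤ ‖P i‖) →
    ∀ τ : ℕ → ℝ, (∀ i < m, τ i ∈ Icc 0 S.St.τ₀) → S.ValT τ m (S.unit v P) ≤ -L := by
  obtain ⟨R, hR⟩ := S.un_proper (L + m * (S.St.τ₀ / 4))
  refine ⟨R, fun v hv P ⟨i, hi, hP⟩ τ hτ => ?_⟩
  have h1 := hR (v i) (hv i hi).1 (v (i + 1)) (hv i hi).2 (P i) hP (τ i) (hτ i hi)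
  have h2 := Finset.sum_le_card_nsmul ((Finset.range m).erase i)
    (fun i => S.lett (τ i) (S.unit v P i) (S.unit v P (i + 1)).1) (S.St.τ₀ / 4) fun j hj =>
      have hj := Finset.mem_range.mp (Finset.mem_of_mem_erase hj)
      S.un_le (hv j hj).1 (hv j hj).2 (P j) (hτ j hj)
  have h3 := Finset.add_sum_erase (Finset.range m)
    (fun i => S.lett (τ i) (S.unit v P i) (S.unit v P (i + 1)).1) (Finset.mem_range.mpr hi)
  have h4 : (((Finset.range m).erase i).card : ℝ) ≤ m := by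
    exact_mod_cast (Finset.card_erase_le).trans (Finset.card_range m).le
  have h5 := S.St.τpos
  rw [nsmul_eq_mul] at h2
  unfold ValT
  rw [← h3]
  have h6 : S.lett (τ i) (S.unit v P i) (S.unit v P (i + 1)).1 ≤ -(L + m * (S.St.τ₀ / 4)) := h1
  nlinarith

lemma unit_cont {X : Type*} [TopologicalSpace X] {s : Set X} {v P : X → ℕ → E} {i : ℕ}
    (hv : ContinuousOn (fun p => v p i) s) (hP : ContinuousOn (fun p => P p i) s)
    (hS : ∀ p ∈ s, v p i ∈ S.S) : ContinuousOn (fun p => S.unit (v p) (P p) i) s :=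
  S.un_cont.comp (hv.prodMk hP) fun p hp => ⟨hS p hp, mem_univ _⟩

/-- A proper family of open chains of length M from a to b below the level T, over the set s of
a parameter space; pr gives the parameters that control properness. -/
structure IsFam {X : Type*} [TopologicalSpace X] (s : Set X) (pr : X → ℕ → E) (M : ℕ) (T : ℝ)
    (a b : X → E) (c : X → Ch E) : Prop where
  cont : ∀ i < M, ContinuousOn (fun p => c p i) s
  valid : ∀ p ∈ s, S.Valid M (c p)
  src : ∀ p ∈ s, (c p 0).1 = a p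
  tgt : ∀ p ∈ s, (c p M).1 = b p
  le : ∀ p ∈ s, S.Val M (c p) ≤ T
  proper : ∀ L, ∃ R : ℝ, ∀ p ∈ s, (∃ i < M, R ≤ ‖pr p i‖) → S.Val M (c p) ≤ -L

section Fam

variable {S} {X : Type*} [TopologicalSpace X] {s : Set X} {pr : X → ℕ → E} {M : ℕ} {T : ℝ}
  {a b : X → E} {c : X → Ch E}

lemma IsFam.mono (h : S.IsFam s pr M T a b c) {T' : ℝ} (hT : T ≤ T') :
    S.IsFam s pr M T' a b c :=
  ⟨h.cont, h.valid, h.src, h.tgt, fun p hp => (h.le p hp).trans hT, h.proper⟩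

/-- Change of parameters. -/
lemma IsFam.comp (h : S.IsFam s pr M T a b c) {X' : Type*} [TopologicalSpace X'] {s' : Set X'}
    {f : X' → X} (hf : ContinuousOn f s') (hm : MapsTo f s' s) {pr' : X' → ℕ → E}
    {a' b' : X' → E} (hpr : ∀ p ∈ s', ∀ i < M, pr (f p) i = pr' p i)
    (ha : ∀ p ∈ s', a (f p) = a' p) (hb : ∀ p ∈ s', b (f p) = b' p) :
    S.IsFam s' pr' M T a' b' (fun p => c (f p)) where
  cont i hi := (h.cont i hi).comp hf hm
  valid p hp := h.valid _ (hm hp)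
  src p hp := (h.src _ (hm hp)).trans (ha p hp)
  tgt p hp := (h.tgt _ (hm hp)).trans (hb p hp)
  le p hp := h.le _ (hm hp)
  proper L := by
    obtain ⟨R, hR⟩ := h.proper L
    exact ⟨R, fun p hp ⟨i, hi, hP⟩ => hR _ (hm hp) ⟨i, hi, by rwa [hpr p hp i hi]⟩⟩

lemma IsFam.val_cat {k : ℕ} {T' : ℝ} {d : X → E} {c' : X → Ch E} {pr' : X → ℕ → E}
    (h : S.IsFam s pr M T a b c) (h' : S.IsFam s pr' k T' b d c') {p : X} (hp : p ∈ s) :
    S.Val (M + k) (cat M (c p) (c' p)) = S.Val M (c p) + S.Val k (c' p) :=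
  S.val_cat _ _ _ _ ((h.tgt p hp).trans (h'.src p hp).symm)

/-- Concatenation of families. -/
lemma IsFam.cat {k : ℕ} {T' : ℝ} {d : X → E} {c' : X → Ch E} (h : S.IsFam s pr M T a b c)
    (h' : S.IsFam s (fun p i => pr p (M + i)) k T' b d c') :
    S.IsFam s pr (M + k) (T + T') a d (fun p => cat M (c p) (c' p)) where
  cont := continuousOn_cat h.cont h'.cont
  valid p hp := S.valid_cat ((h.tgt p hp).trans (h'.src p hp).symm) (h.valid p hp) (h'.valid p hp)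
  src p hp := (cat_fst_le (Nat.zero_le _) ((h.tgt p hp).trans (h'.src p hp).symm)).trans
    (h.src p hp)
  tgt p hp := by rw [cat_add]; exact h'.tgt p hp
  le p hp := by rw [h.val_cat h' hp]; exact add_le_add (h.le p hp) (h'.le p hp)
  proper L := by
    obtain ⟨R, hR⟩ := h.proper (L + T')
    obtain ⟨R', hR'⟩ := h'.proper (L + T)
    refine ⟨max R R', fun p hp ⟨i, hi, hP⟩ => ?_⟩
    rw [h.val_cat h' hp]
    by_cases him : i < M
    · linarith [hR p hp ⟨i, him, (le_max_left _ _).trans hP⟩, h'.le p hp]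
    · obtain ⟨j, rfl⟩ := Nat.exists_eq_add_of_le (not_lt.mp him)
      linarith [hR' p hp ⟨j, by omega, (le_max_right _ _).trans hP⟩, h.le p hp]

/-- Pasting of two families along the zero set of a continuous function. -/
lemma IsFam.paste {c' : X → Ch E} {f : X → ℝ} (hf : Continuous f)
    (h : S.IsFam (s ∩ {p | f p ≤ 0}) pr M T a b c) (h' : S.IsFam (s ∩ {p | 0 ≤ f p}) pr M T a b c')
    (he : ∀ p ∈ s, f p = 0 → ∀ i < M, c p i = c' p i) :
    S.IsFam s pr M T a b (fun p => if f p ≤ 0 then c p else c' p) where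
  cont i hi := by
    have e : (fun p => (if f p ≤ 0 then c p else c' p) i) =
        fun p => if f p ≤ 0 then c p i else c' p i := by
      funext p
      split_ifs <;> rfl
    rw [e]
    refine ContinuousOn.if (fun p hp => he p hp.1 ?_ i hi) ?_ ?_
    · exact frontier_le_subset_eq hf continuous_const hp.2
    · rw [(isClosed_le hf continuous_const).closure_eq]
      exact h.cont i hi
    · refine (h'.cont i hi).mono (inter_subset_inter_right _ ?_)
      exact closure_minimal (fun p hp => (not_le.mp hp).le) (isClosed_le continuous_const hf)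
  valid p hp := by
    split_ifs with h0
    exacts [h.valid p ⟨hp, h0⟩, h'.valid p ⟨hp, (not_le.mp h0).le⟩]
  src p hp := by
    split_ifs with h0
    exacts [h.src p ⟨hp, h0⟩, h'.src p ⟨hp, (not_le.mp h0).le⟩]
  tgt p hp := by
    split_ifs with h0
    exacts [h.tgt p ⟨hp, h0⟩, h'.tgt p ⟨hp, (not_le.mp h0).le⟩]
  le p hp := by
    split_ifs with h0
    exacts [h.le p ⟨hp, h0⟩, h'.le p ⟨hp, (not_le.mp h0).le⟩]
  proper L := by
    obtain ⟨R, hR⟩ := h.proper L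
    obtain ⟨R', hR'⟩ := h'.proper L
    refine ⟨max R R', fun p hp ⟨i, hi, hP⟩ => ?_⟩
    split_ifs with h0
    exacts [hR p ⟨hp, h0⟩ ⟨i, hi, (le_max_left _ _).trans hP⟩,
      hR' p ⟨hp, (not_le.mp h0).le⟩ ⟨i, hi, (le_max_right _ _).trans hP⟩]

/-- The unit over a continuous family of polygons with short steps. -/
lemma isFam_unit {v : X → ℕ → E} (hv : ∀ i < M, ContinuousOn (fun p => v p i) s)
    (hP : ∀ i < M, ContinuousOn (fun p => pr p i) s)
    (hs : ∀ p ∈ s, ∀ i < M, v p i ∈ S.S ∧ ‖v p i - v p (i + 1)‖ ≤ S.μ)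
    (ha : ∀ p ∈ s, v p 0 = a p) (hb : ∀ p ∈ s, v p M = b p) :
    S.IsFam s pr M (M * (S.St.τ₀ / 4)) a b (fun p => S.unit (v p) (pr p)) where
  cont i hi := S.unit_cont (hv i hi) (hP i hi) fun p hp => (hs p hp i hi).1
  valid p hp := S.unit_valid (hs p hp) _
  src := ha
  tgt := hb
  le p hp := S.unit_le (hs p hp) _ fun _ _ => ⟨S.St.τpos.le, le_rfl⟩
  proper L := by
    obtain ⟨R, hR⟩ := S.unit_proper M L
    exact ⟨R, fun p hp h => hR _ (hs p hp) _ h _ fun _ _ => ⟨S.St.τpos.le, le_rfl⟩⟩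

/-- The unit over a continuous family of constant polygons. -/
lemma isFam_const (ha : ContinuousOn a s) (hP : ∀ i < M, ContinuousOn (fun p => pr p i) s)
    (hs : ∀ p ∈ s, a p ∈ S.S) :
    S.IsFam s pr M 0 a a (fun p => S.unit (fun _ => a p) (pr p)) := by
  have h := isFam_unit (S := S) (v := fun p _ => a p) (a := a) (b := a) (fun _ _ => ha) hP
    (fun p hp _ _ => ⟨hs p hp, by simpa using S.μpos.le⟩) (fun _ _ => rfl) (fun _ _ => rfl)
  exact ⟨h.cont, h.valid, h.src, h.tgt,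
    fun p hp => S.unit_le_zero M (hs p hp) _ fun _ _ => ⟨S.St.τpos.le, le_rfl⟩, h.proper⟩

end Fam

lemma IsKill.isFam {S : Sys E} {s : Set E} {M : ℕ} {T L : ℝ} {H : E × ℝ × (ℕ → E) → Ch E}
    (h : S.IsKill s M T L H) :
    S.IsFam (s ×ˢ univ) (fun p => p.2.2) M T (fun p => p.1) (fun p => p.1) H where
  cont := h.cont
  valid p hp := h.valid p.1 hp.1 p.2.1 p.2.2
  src p hp := h.src p.1 hp.1 p.2.1 p.2.2
  tgt p hp := h.tgt p.1 hp.1 p.2.1 p.2.2
  le p hp := h.le p.1 hp.1 p.2.1 p.2.2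
  proper L' := by
    obtain ⟨R, hR⟩ := h.proper L'
    exact ⟨R, fun p hp => hR p.1 hp.1 p.2.1 p.2.2⟩

lemma IsFam.isKill {S : Sys E} {s : Set E} {M : ℕ} {T L : ℝ} {H : E × ℝ × (ℕ → E) → Ch E}
    (h : S.IsFam (s ×ˢ univ) (fun p => p.2.2) M T (fun p => p.1) (fun p => p.1) H)
    (start : ∀ x ∈ s, ∀ u ≤ 0, ∀ P, ∀ i < M, H (x, u, P) i = S.un x (P i))
    (stop : ∀ x ∈ s, ∀ u, 1 ≤ u → ∀ P, S.Val M (H (x, u, P)) ≤ L) : S.IsKill s M T L H where
  cont := h.cont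
  valid x hx u P := h.valid (x, u, P) ⟨hx, mem_univ _⟩
  src x hx u P := h.src (x, u, P) ⟨hx, mem_univ _⟩
  tgt x hx u P := h.tgt (x, u, P) ⟨hx, mem_univ _⟩
  le x hx u P := h.le (x, u, P) ⟨hx, mem_univ _⟩
  start := start
  stop := stop
  proper L' := by
    obtain ⟨R, hR⟩ := h.proper L'
    exact ⟨R, fun x hx u P => hR (x, u, P) ⟨hx, mem_univ _⟩⟩

end Sys

end Pool.Agent.Wein
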