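import Mathlib
import Pool.Agent.K.MP_e3ee0c_gt.C2

/-! Critical points of the generating function of closed chains. -/

open Set Filter Topology
open scoped ContDiff InnerProductSpace

namespace Pool.Agent.Wein

variable {E : Type} [NormedAddCommGroup E] [InnerProductSpace ℝ E]

section Dirs

variable {m : ℕ} {J : Type} [DecidableEq J]

def dx (J : Type) (i : Fin m) (e : E) : Cfg E m J := (Pi.single i (e, 0), 0)

def dy (J : Type) (i : Fin m) (e : E) : Cfg E m J := (Pi.single i (0, e), 0)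

def dn (m : ℕ) (j : J) (e : E) : Cfg E m J := (0, Pi.single j e)

end Dirs

namespace Sys

variable (S : Sys E) {m : ℕ} [NeZero m] {J : Type} [Fintype J]

lemma Dact_dx (b : J → Fin m) (τ : Fin m → ℝ) {ζ : Cfg E m J} (hζ : ζ ∈ S.Z m J) (i : Fin m)
    (e : E) : S.Dact b τ ζ 0 (S.proj ζ (dx J (i + 1) e)) =
      fderiv ℝ S.St.w (τ (i + 1), (ζ.1 (i + 1)).1, (ζ.1 (i + 1)).2)
          (0, S.P (ζ.1 (i + 1)).1 e, 0) +
        ⟪S.pit (ζ.1 (i + 1)).1 (ζ.1 i).2 - S.pi (ζ.1 (i + 1)).1 (ζ.1 (i + 1)).2, e⟫_ℝ +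
        ∑ j, if b j = i + 1 then
          2 * ⟪ζ.2 j, fderiv ℝ S.P (ζ.1 (i + 1)).1 (S.P (ζ.1 (i + 1)).1 e) (ζ.2 j)⟫_ℝ else 0 := by
  rw [S.Dact_proj b τ hζ]
  rw [Finset.sum_eq_single (i + 1), Finset.sum_eq_single (i + 1), Finset.sum_eq_zero,
    Finset.sum_eq_single i, Finset.sum_eq_zero (s := Finset.univ)
      (f := fun j => 2 * ⟪(2 : ℝ) • S.P (ζ.1 (b j)).1 (ζ.2 j) - ζ.2 j, (dx J (i + 1) e).2 j⟫_ℝ)]
  · have : ∑ j, 2 * ⟪ζ.2 j, fderiv ℝ S.P (ζ.1 (b j)).1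
        (S.P (ζ.1 (b j)).1 ((dx J (i + 1) e).1 (b j)).1) (ζ.2 j)⟫_ℝ =
        ∑ j, if b j = i + 1 then
          2 * ⟪ζ.2 j, fderiv ℝ S.P (ζ.1 (i + 1)).1 (S.P (ζ.1 (i + 1)).1 e) (ζ.2 j)⟫_ℝ else 0 := by
      refine Finset.sum_congr rfl fun j _ => ?_
      split_ifs with h
      · simp [dx, h]
      · simp [dx, Pi.single_eq_of_ne h]
    rw [this, inner_sub_left]
    simp only [dx, Pi.single_eq_same, Pi.zero_apply, map_zero]
    ring
  · intro j _; simp [dx]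
  · intro k _ hk
    have : k + 1 ≠ i + 1 := fun h => hk (add_right_cancel h)
    simp [dx, Pi.single_eq_of_ne this]
  · simp
  · intro k _
    by_cases hk : k = i + 1
    · subst hk; simp [dx]
    · simp [dx, Pi.single_eq_of_ne hk]
  · intro k _ hk; simp [dx, Pi.single_eq_of_ne hk]
  · simp
  · intro k _ hk
    simp only [dx, Pi.single_eq_of_ne hk, Pi.zero_apply, Prod.fst_zero, Prod.snd_zero, map_zero]
    exact map_zero _
  · simp

lemma Dact_dy (b : J → Fin m) (τ : Fin m → ℝ) {ζ : Cfg E m J} (hζ : ζ ∈ S.Z m J) (i : Fin m)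
    (e : E) : S.Dact b τ ζ 0 (S.proj ζ (dy J i e)) =
      fderiv ℝ S.St.w (τ i, (ζ.1 i).1, (ζ.1 i).2) (0, 0, S.P (ζ.1 i).2 e) +
        ⟪S.pit (ζ.1 i).2 (ζ.1 (i + 1)).1 - S.pi (ζ.1 i).2 (ζ.1 i).1, e⟫_ℝ := by
  have h0 : ∀ k, ((dy J i e).1 k).1 = 0 := fun k => by
    by_cases hk : k = i
    · subst hk; simp [dy]
    · simp [dy, Pi.single_eq_of_ne hk]
  have h2 : ∀ j, (dy J i e).2 j = 0 := fun j => rfl
  rw [S.Dact_proj b τ hζ]
  simp only [h0, h2, map_zero, inner_zero_right, Finset.sum_const_zero, mul_zero,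
    _root_.zero_apply, add_zero, sub_zero, Pi.zero_apply]
  rw [Finset.sum_eq_single i, Finset.sum_eq_single i]
  · simp [dy]
  · intro k _ hk; simp [dy, Pi.single_eq_of_ne hk]
  · simp
  · intro k _ hk
    simp only [dy, Pi.single_eq_of_ne hk, Prod.snd_zero, map_zero]
    exact map_zero _
  · simp

lemma Dact_dn [DecidableEq J] (b : J → Fin m) (τ : Fin m → ℝ) {ζ : Cfg E m J}
    (hζ : ζ ∈ S.Z m J) (j : J) (e : E) : S.Dact b τ ζ 0 (S.proj ζ (dn m j e)) =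
      2 * ⟪(2 : ℝ) • S.P (ζ.1 (b j)).1 (ζ.2 j) - ζ.2 j, e⟫_ℝ := by
  have h0 : ∀ k, (dn m j e).1 k = 0 := fun k => rfl
  rw [S.Dact_proj b τ hζ]
  simp only [h0, Prod.fst_zero, Prod.snd_zero, map_zero, inner_zero_right, Finset.sum_const_zero,
    mul_zero, _root_.zero_apply, add_zero, sub_zero, Pi.zero_apply]
  rw [Finset.sum_eq_zero, Finset.sum_eq_single j]
  · simp [dn]
  · intro k _ hk; simp [dn, Pi.single_eq_of_ne hk]
  · simp
  · intro k _; exact map_zero _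

lemma Dact_time (b : J → Fin m) {τ : Fin m → ℝ} (hτ : ∀ i, τ i ∈ Icc 0 S.St.τ₀) {ζ : Cfg E m J}
    (hζ : ζ ∈ S.Z m J) (θ : Fin m → ℝ) : S.Dact b τ ζ θ 0 =
      -∑ i, θ i * S.F ((ζ.1 i).1, S.St.pm (τ i, (ζ.1 i).1, (ζ.1 i).2)) := by
  have : (0 : Cfg E m J) = S.proj ζ 0 := by
    ext i <;> simp [proj]
  rw [this, S.Dact_proj b τ hζ]
  simp only [Prod.fst_zero, Prod.snd_zero, Pi.zero_apply, map_zero, inner_zero_right,
    Finset.sum_const_zero, mul_zero, _root_.zero_apply, add_zero, sub_zero]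
  rw [← Finset.sum_neg_distrib]
  refine Finset.sum_congr rfl fun i _ => ?_
  rw [S.St.der _ (hτ i) _ (hζ i).1 _ (hζ i).2.1 (hζ i).2.2.1 _ _ _ (map_zero _) (map_zero _)]
  simp

lemma le8 {x y : E} (h : ‖x - y‖ ^ 2 ≤ S.δ ^ 2 + S.Br.a) : ‖x - y‖ ≤ 8 * S.δ := by
  have := S.Br.ale
  have := S.δpos
  exact abs_le_of_sq_le_sq' (by nlinarith) (by positivity) |>.2

lemma pit_eq_pi {x y : E} (h : ‖x - y‖ ^ 2 ≤ S.t₁) : S.pit x y = S.pi x y := by
  simp only [pit, Geo.pi, Geo.tw, S.Br.m_low _ h]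

lemma pit_inj {x y y' : E} (hx : x ∈ S.S) (hy : y ∈ S.S) (hy' : y' ∈ S.S)
    (h : ‖x - y‖ ^ 2 < S.δ ^ 2 + S.Br.a) (h' : ‖x - y'‖ ^ 2 < S.δ ^ 2 + S.Br.a)
    (he : S.pit x y' = S.pit x y) : y' = y := by
  refine S.tw_inj (I := Iio (S.δ ^ 2 + S.Br.a)) ?_ ?_ hx hy hy' (S.le8 h.le) (S.le8 h'.le) h h' he
  · intro s hs t ht hst
    have := S.Br.m_lt t ht
    have := S.Br.mono hst
    exact one_div_le_one_div_of_le (by linarith) (by linarith)
  · intro t ht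
    have := S.Br.m_lt t ht
    exact one_div_pos.2 (by linarith)

/-- Comparison of the two barrier weights on the two sides of a middle vertex. -/
lemma weight_le {x y x' : E} (hx : x ∈ S.S) (hy : y ∈ S.S) (hx' : x' ∈ S.S)
    (h : ‖y - x‖ ≤ 8 * S.δ) (h' : ‖y - x'‖ ≤ 8 * S.δ) {s t : ℝ} (hs : 0 ≤ s) (hst : s < t)
    (he : t • S.P y (y - x') = s • S.P y (y - x)) : ‖y - x'‖ ≤ ‖y - x‖ := by
  have ht : 0 < t := lt_of_le_of_lt hs hst
  refine S.rm hy hx hx' h h' (t := s / t) (by positivity) ((div_le_one ht).2 hst.le) ?_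
  rw [div_eq_inv_mul, mul_smul, ← he, smul_smul, inv_mul_cancel₀ ht.ne', one_smul]

lemma letter_inner {τ : ℝ} (hτ : τ ∈ Icc 0 S.St.τ₀) {x y x' : E} (h : S.OK x y x')
    (hx' : x' ∈ S.S) (he : S.pit y x' = S.pi y (S.Hm.Φ (τ, x, S.St.pm (τ, x, y))).1)
    (hin : ‖S.St.pm (τ, x, y)‖ < S.Rb) :
    (x', S.pit x' y) = S.Hm.Φ (τ, x, S.St.pm (τ, x, y)) ∧ ‖S.pit x' y‖ < S.Rb ∧
      S.core τ x y x' = S.Hm.A (τ, x, S.St.pm (τ, x, y)) := by
  obtain ⟨hx, hy, h1, h2⟩ := h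
  have hz := S.St.mem τ hτ x hx y hy h1
  have hlt := S.St.lt τ hτ x hx y hy h1
  have hout := S.St.out τ hτ x hx y hy h1
  have hval := S.St.val τ hτ x hx y hy h1
  have hz' := S.Hm.mem τ _ hz
  generalize hw : S.Hm.Φ (τ, x, S.St.pm (τ, x, y)) = w at *
  have hwin : ‖w.2‖ < S.Rb := by
    by_contra hc
    have hs := S.Hm.stat w hz' (Or.inr (S.hR w hz' (not_lt.1 hc))) (-τ)
    rw [← hw, ← S.Hm.add, neg_add_cancel, S.Hm.zero, hw] at hs
    rw [← hs] at hc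
    exact hc hin
  have hw1 : w.1 ∈ S.S := hz'.1
  have hq : ‖w.1 - y‖ ^ 2 < S.t₁ := by
    by_contra hc
    have := S.pi_big hw1 hy (not_lt.1 hc) hlt
    rw [← hout] at this
    linarith
  have ha := S.Br.apos
  have hq' : ‖y - w.1‖ ^ 2 < S.t₁ := by rwa [norm_sub_rev]
  have hxx : x' = w.1 := by
    refine S.pit_inj hy hw1 hx' (by linarith [S.t₁lt]) h2 ?_
    rw [he, S.pit_eq_pi hq'.le]
  have hp : S.pit x' y = w.2 := by rw [hxx, S.pit_eq_pi hq.le, hout]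
  refine ⟨by rw [hp, hxx], by rwa [hp], ?_⟩
  rw [core, hval, hxx, S.Br.g_low _ hq'.le, norm_sub_rev y]
  ring

lemma letter_outer {τ : ℝ} (hτ : τ ∈ Icc 0 S.St.τ₀) {x y x' : E} (h : S.OK x y x')
    (hx' : x' ∈ S.S) (he : S.pit y x' = S.pi y (S.Hm.Φ (τ, x, S.St.pm (τ, x, y))).1)
    (hin : S.Rb ≤ ‖S.St.pm (τ, x, y)‖) :
    S.Rb ≤ ‖S.pit x' y‖ ∧ S.F (x, S.St.pm (τ, x, y)) = 1 ∧
      S.core τ x y x' ≤ -τ + S.St.τ₀ / 2 := by
  obtain ⟨hx, hy, h1, h2⟩ := h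
  have hz := S.St.mem τ hτ x hx y hy h1
  have hout := S.St.out τ hτ x hx y hy h1
  have hval := S.St.val τ hτ x hx y hy h1
  have hF := S.hR _ hz hin
  have hst := S.Hm.stat _ hz (Or.inr hF)
  rw [S.Hm.Astat _ hz hst, hF] at hval
  rw [hst] at he hout hval
  dsimp only at he hout hval
  have ha := S.Br.apos
  have h1' : ‖y - x‖ ^ 2 < S.δ ^ 2 := by rwa [norm_sub_rev]
  have hm := S.Br.m_lt _ h2
  refine ⟨?_, hF, ?_⟩
  · by_cases hc : S.t₁ ≤ ‖x' - y‖ ^ 2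
    · exact S.pit_big hx' hy hc (by rwa [norm_sub_rev])
    · have hc' : ‖y - x'‖ ^ 2 < S.t₁ := by rw [norm_sub_rev]; exact not_le.1 hc
      have hxx : x' = x := by
        refine S.tw_inj (ψ := fun t => 1 / (S.δ ^ 2 - t)) (I := Iio (S.δ ^ 2)) ?_ ?_ hy hx hx'
          (S.le8 (by linarith)) (S.le8 h2.le) h1' (lt_trans hc' S.t₁lt) ?_
        · intro s hs t ht hst
          exact one_div_le_one_div_of_le (by linarith [mem_Iio.1 ht]) (by linarith)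
        · intro t ht
          exact one_div_pos.2 (by linarith [mem_Iio.1 ht])
        · rw [S.pit_eq_pi hc'.le] at he
          exact he
      rw [S.pit_eq_pi (not_le.1 hc).le, hxx, ← hout]
      exact hin
  · have hle : S.Br.m (‖y - x'‖ ^ 2) ≤ ‖y - x‖ ^ 2 := by
      by_contra hc
      have hc := not_le.1 hc
      have := S.weight_le hx hy hx' (S.le8 (by linarith)) (S.le8 h2.le)
        (s := 2 * (1 / (S.δ ^ 2 - ‖y - x‖ ^ 2)))
        (t := 2 * (1 / (S.δ ^ 2 - S.Br.m (‖y - x'‖ ^ 2))))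
        (by have : 0 < S.δ ^ 2 - ‖y - x‖ ^ 2 := by linarith
            positivity)
        (by have := one_div_lt_one_div_of_lt (a := S.δ ^ 2 - S.Br.m (‖y - x'‖ ^ 2))
              (b := S.δ ^ 2 - ‖y - x‖ ^ 2) (by linarith) (by linarith)
            linarith) he
      have h3 := S.Br.m_le (‖y - x'‖ ^ 2)
      have h4 : ‖y - x'‖ ^ 2 ≤ ‖y - x‖ ^ 2 := by gcongr
      linarith
    have hg := S.Br.g_le _ h2
    have hl : Real.log (S.δ ^ 2 - ‖x - y‖ ^ 2) ≤ Real.log (S.δ ^ 2 - S.Br.m (‖y - x'‖ ^ 2)) :=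
      Real.log_le_log (by linarith) (by rw [norm_sub_rev x]; linarith)
    rw [core]
    linarith

lemma ofNat_succ (k : ℕ) : Fin.ofNat m (k + 1) = Fin.ofNat m k + 1 := by
  ext
  simp [Fin.ofNat, Fin.val_add]

lemma sum_range_ofNat (f : Fin m → ℝ) :
    ∑ k ∈ Finset.range m, f (Fin.ofNat m k) = ∑ i, f i := by
  rw [Finset.sum_range]
  refine Finset.sum_congr rfl fun i _ => ?_
  congr 1
  ext
  simp [Fin.ofNat, Nat.mod_eq_of_lt i.2]

lemma ofNat_ne_zero {k : ℕ} (h : k + 1 < m) : Fin.ofNat m k + 1 ≠ 0 := by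
  rw [← ofNat_succ]
  intro h0
  have := congrArg Fin.val h0
  simp [Fin.ofNat, Nat.mod_eq_of_lt h] at this

lemma exists_ofNat (i : Fin m) : ∃ k < m, Fin.ofNat m k = i :=
  ⟨i, i.2, by ext; simp [Fin.ofNat, Nat.mod_eq_of_lt i.2]⟩

/-- The structure of the critical points. -/
theorem crit (b : J → Fin m) (fr : Prop) {τ : Fin m → ℝ} (hτ : ∀ i, τ i ∈ Icc 0 S.St.τ₀)
    {ζ : Cfg E m J} (hζ : ζ ∈ S.Z m J) (hn : ∀ j, ζ.2 j = 0)
    (hy : ∀ i, S.pit (ζ.1 i).2 (ζ.1 (i + 1)).1 =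
      S.pi (ζ.1 i).2 (S.Hm.Φ (τ i, (ζ.1 i).1, S.St.pm (τ i, (ζ.1 i).1, (ζ.1 i).2))).1)
    (hx : ∀ i, ¬ (fr ∧ i + 1 = 0) → S.pit (ζ.1 (i + 1)).1 (ζ.1 i).2 =
      S.St.pm (τ (i + 1), (ζ.1 (i + 1)).1, (ζ.1 (i + 1)).2)) :
    (∃ z, S.Inner fr (∑ i, τ i) ζ z ∧ S.act b τ ζ = S.Hm.A (∑ i, τ i, z) ∧
      ∀ i, S.F ((ζ.1 i).1, S.St.pm (τ i, (ζ.1 i).1, (ζ.1 i).2)) = S.F z) ∨
    ((∀ i, S.F ((ζ.1 i).1, S.St.pm (τ i, (ζ.1 i).1, (ζ.1 i).2)) = 1) ∧
      S.act b τ ζ ≤ -∑ i, τ i + m * (S.St.τ₀ / 2)) := by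
  set zi : Fin m → E × E := fun i => ((ζ.1 i).1, S.St.pm (τ i, (ζ.1 i).1, (ζ.1 i).2)) with hzi
  set co : Fin m → ℝ := fun i => S.core (τ i) (ζ.1 i).1 (ζ.1 i).2 (ζ.1 (i + 1)).1 with hco
  have hact : S.act b τ ζ = ∑ i, co i := by
    simp [act, hn, Q, hco]
  have hmem : ∀ i, zi i ∈ Cot S.S := fun i =>
    S.St.mem _ (hτ i) _ (hζ i).1 _ (hζ i).2.1 (hζ i).2.2.1
  have h00 : Fin.ofNat m 0 = 0 := by ext; simp [Fin.ofNat]
  have hmpos : 0 < m := Nat.pos_of_ne_zero (NeZero.ne m)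
  by_cases hin : ‖(zi 0).2‖ < S.Rb
  · left
    set σ : ℕ → ℝ := fun k => ∑ l ∈ Finset.range k, τ (Fin.ofNat m l) with hσ
    have step : ∀ k, zi (Fin.ofNat m k) = S.Hm.Φ (σ k, zi 0) → ‖(zi (Fin.ofNat m k)).2‖ < S.Rb →
        ∑ l ∈ Finset.range k, co (Fin.ofNat m l) = S.Hm.A (σ k, zi 0) →
        ((ζ.1 (Fin.ofNat m k + 1)).1, S.pit (ζ.1 (Fin.ofNat m k + 1)).1 (ζ.1 (Fin.ofNat m k)).2) =
          S.Hm.Φ (σ (k + 1), zi 0) ∧
        ‖S.pit (ζ.1 (Fin.ofNat m k + 1)).1 (ζ.1 (Fin.ofNat m k)).2‖ < S.Rb ∧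
        ∑ l ∈ Finset.range (k + 1), co (Fin.ofNat m l) = S.Hm.A (σ (k + 1), zi 0) := by
      intro k h1 h2 h3
      obtain ⟨a1, a2, a3⟩ := S.letter_inner (hτ (Fin.ofNat m k)) (hζ _) (hζ _).1 (hy _) h2
      have hs : σ (k + 1) = τ (Fin.ofNat m k) + σ k := by
        simp only [hσ, Finset.sum_range_succ]; ring
      refine ⟨?_, a2, ?_⟩
      · rw [a1, hs, S.Hm.add, ← h1]
      · rw [Finset.sum_range_succ, h3, hs, S.Hm.Aadd _ _ _ (hmem 0), ← h1]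
        exact congrArg _ a3
    have ind : ∀ k < m, zi (Fin.ofNat m k) = S.Hm.Φ (σ k, zi 0) ∧
        ‖(zi (Fin.ofNat m k)).2‖ < S.Rb ∧
        ∑ l ∈ Finset.range k, co (Fin.ofNat m l) = S.Hm.A (σ k, zi 0) := by
      intro k
      induction k with
      | zero =>
        intro _
        refine ⟨?_, by rwa [h00], ?_⟩
        · simp [hσ, S.Hm.zero]
        · simp [hσ, S.Hm.Azero]
      | succ k ih =>
        intro hk
        obtain ⟨h1, h2, h3⟩ := ih (by omega)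
        obtain ⟨a1, a2, a3⟩ := step k h1 h2 h3
        have hm := hx (Fin.ofNat m k) fun h => ofNat_ne_zero hk h.2
        rw [hm] at a1 a2
        rw [ofNat_succ]
        exact ⟨a1, a2, a3⟩
    have hσm : σ m = ∑ i, τ i := sum_range_ofNat τ
    obtain ⟨k, hk⟩ : ∃ k, m = k + 1 := ⟨m - 1, by omega⟩
    obtain ⟨h1, h2, h3⟩ := ind k (by omega)
    obtain ⟨a1, -, a3⟩ := step k h1 h2 h3
    have hk0 : Fin.ofNat m k + 1 = 0 := by
      rw [← ofNat_succ, ← hk]; ext; simp [Fin.ofNat]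
    rw [← hk, hσm] at a1 a3
    refine ⟨zi 0, ⟨hmem 0, fun hfr => ?_, fun hc i => ?_, σ, by simp [hσ], hσm, fun l => ?_,
      fun i => ?_⟩, ?_, fun i => ?_⟩
    · rw [← a1, hx _ fun h => hfr h.1, hk0]
    · obtain ⟨l, hl, rfl⟩ := exists_ofNat i
      have h := congrArg Prod.fst (ind l hl).1
      rcases hc with hc | hc
      · rw [hc] at h; exact h
      · have h0 : σ l = 0 := by
          refine le_antisymm ?_ (Finset.sum_nonneg fun i _ => (hτ _).1)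
          rw [← hc, ← hσm]
          exact Finset.sum_le_sum_of_subset_of_nonneg (Finset.range_mono hl.le)
            fun i _ _ => (hτ _).1
        rw [h0, S.Hm.zero] at h
        exact h
    · simp only [hσ, Finset.sum_range_succ]
      linarith [(hτ (Fin.ofNat m l)).2]
    · have h := congrArg Prod.fst (ind i i.2).1
      have e : Fin.ofNat m (i : ℕ) = i := by
        ext
        simp [Fin.ofNat, Nat.mod_eq_of_lt i.2]
      rw [e] at h
      exact h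
    · rw [hact, ← a3, sum_range_ofNat]
    · obtain ⟨l, hl, rfl⟩ := exists_ofNat i
      have := (ind l hl).1
      change S.F (zi _) = _
      rw [this, S.Hm.Fconst _ (hmem 0)]
  · right
    have ind : ∀ k < m, S.Rb ≤ ‖(zi (Fin.ofNat m k)).2‖ := by
      intro k
      induction k with
      | zero => intro _; rw [h00]; exact not_lt.1 hin
      | succ k ih =>
        intro hk
        have a := (S.letter_outer (hτ (Fin.ofNat m k)) (hζ _) (hζ _).1 (hy _) (ih (by omega))).1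
        rw [hx (Fin.ofNat m k) fun h => ofNat_ne_zero hk h.2] at a
        rw [ofNat_succ]
        exact a
    have all : ∀ i, S.F (zi i) = 1 ∧ co i ≤ -τ i + S.St.τ₀ / 2 := fun i => by
      obtain ⟨l, hl, rfl⟩ := exists_ofNat i
      exact (S.letter_outer (hτ _) (hζ _) (hζ _).1 (hy _) (ind l hl)).2
    refine ⟨fun i => (all i).1, ?_⟩
    rw [hact]
    refine (Finset.sum_le_sum fun i _ => (all i).2).trans (le_of_eq ?_)
    simp [Finset.sum_add_distrib]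

end Sys

end Pool.Agent.Wein
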