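import Mathlib
import Pool.Agent.K.MP_e3ee0c_gt.C6

/-! Adapted vector fields and the exhaustion function on the space of closed chains. -/

open Set Filter Topology
open scoped ContDiff InnerProductSpace

namespace Pool.Agent.Wein

variable {E : Type} [NormedAddCommGroup E] [InnerProductSpace ℝ E]

lemma fderiv_eq_of_line {X : Type*} [NormedAddCommGroup X] [NormedSpace ℝ X] {f : X → ℝ}
    {x v : X} {a : ℝ} (hf : DifferentiableAt ℝ f x)
    (h : HasDerivAt (fun t : ℝ => f (x + t • v)) a 0) : fderiv ℝ f x v = a := by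
  have h1 : HasDerivAt (fun t : ℝ => x + t • v) v 0 := by
    simpa using ((hasDerivAt_id (0 : ℝ)).smul_const v).const_add x
  have h2 : HasFDerivAt f (fderiv ℝ f x) (x + (0 : ℝ) • v) := by simpa using hf.hasFDerivAt
  exact (h2.comp_hasDerivAt 0 h1).unique h

section Raw

variable {m : ℕ} [NeZero m] {J : Type} [Fintype J] [DecidableEq J]

open Classical in
/-- The coordinate directions; the first vertex is left out when it is frozen. -/
noncomputable def raw (fr : Prop) : Fin m ⊕ Fin m ⊕ J → E → Cfg E m J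
  | Sum.inl i, e => if fr ∧ i = 0 then 0 else dx J i e
  | Sum.inr (Sum.inl i), e => dy J i e
  | Sum.inr (Sum.inr j), e => dn m j e

lemma norm_raw_le (fr : Prop) (c : Fin m ⊕ Fin m ⊕ J) (e : E) : ‖raw fr c e‖ ≤ ‖e‖ := by
  rcases c with i | i | j
  · simp only [raw]
    split_ifs
    · simp
    · simp [dx, Prod.norm_def, Pi.norm_single]
  · simp [raw, dy, Prod.norm_def, Pi.norm_single]
  · simp [raw, dn, Prod.norm_def, Pi.norm_single]

omit [Fintype J] in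
lemma raw_frozen {fr : Prop} (h : fr) (c : Fin m ⊕ Fin m ⊕ J) (e : E) :
    ((raw fr c e).1 0).1 = 0 := by
  rcases c with i | i | j
  · simp only [raw]
    split_ifs with hi
    · rfl
    · have : (0 : Fin m) ≠ i := fun h0 => hi ⟨h, h0.symm⟩
      simp [dx, Pi.single_eq_of_ne this]
  · by_cases hi : (0 : Fin m) = i
    · subst hi; simp [raw, dy]
    · simp [raw, dy, Pi.single_eq_of_ne hi]
  · rfl

end Raw

namespace Sys

variable (S : Sys E) {m : ℕ} [NeZero m] {J : Type} [Fintype J]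

noncomputable def wt : Fin m ⊕ Fin m ⊕ J → Cfg E m J → ℝ
  | Sum.inr (Sum.inr _), _ => 1
  | _, ζ => (S.Th ζ)⁻¹

lemma Th_smooth : ContDiffOn ℝ ∞ (S.Th : Cfg E m J → ℝ) (S.O m J) := by
  unfold Th th tht
  refine contDiffOn_const.add (ContDiffOn.sum fun i _ => ContDiffOn.add ?_ ?_)
  · refine contDiffOn_const.div (ContDiff.contDiffOn ?_) fun p hp => by linarith [(hp i).1]
    exact contDiff_const.sub (ContDiff.norm_sq ℝ (by fun_prop))
  · refine contDiffOn_const.div (ContDiff.contDiffOn ?_) fun p hp => by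
      linarith [S.Br.m_lt _ (hp i).2]
    exact contDiff_const.sub (S.Br.ms.comp (ContDiff.norm_sq ℝ (by fun_prop)))

lemma wt_smooth (c : Fin m ⊕ Fin m ⊕ J) : ContDiffOn ℝ ∞ (S.wt c) (S.O m J) := by
  have h : ContDiffOn ℝ ∞ (fun ζ : Cfg E m J => (S.Th ζ)⁻¹) (S.O m J) :=
    S.Th_smooth.inv fun p hp => by linarith [S.one_le_Th hp]
  rcases c with i | i | j
  · exact h
  · exact h
  · exact contDiffOn_const

lemma proj_smooth (v : Cfg E m J) : ContDiff ℝ ∞ (fun ζ : Cfg E m J => S.proj ζ v) := by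
  unfold proj
  refine ContDiff.prodMk (contDiff_pi.2 fun i => ContDiff.prodMk ?_ ?_) contDiff_const <;>
    exact (S.P_smooth.comp (by fun_prop)).clm_apply contDiff_const

lemma norm_proj_fst {ζ : Cfg E m J} (hζ : ζ ∈ S.Z m J) (v : Cfg E m J) (i : Fin m) :
    ‖(S.proj ζ v).1 i‖ ≤ ‖v‖ := by
  have h : ‖v.1 i‖ ≤ ‖v‖ := (norm_le_pi_norm v.1 i).trans (norm_fst_le v)
  simp only [proj, Prod.norm_def]
  exact max_le ((S.norm_P_le (hζ i).1 _).trans ((norm_fst_le _).trans h))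
    ((S.norm_P_le (hζ i).2.1 _).trans ((norm_snd_le _).trans h))

lemma norm_proj {ζ : Cfg E m J} (hζ : ζ ∈ S.Z m J) (v : Cfg E m J) : ‖S.proj ζ v‖ ≤ ‖v‖ := by
  rw [Prod.norm_def]
  exact max_le ((pi_norm_le_iff_of_nonneg (norm_nonneg _)).2 (S.norm_proj_fst hζ v))
    (norm_snd_le v)

/-- The exhaustion function. -/
noncomputable def Lam (ζ : Cfg E m J) : ℝ :=
  ∑ i, (-Real.log (S.δ ^ 2 - ‖(ζ.1 i).1 - (ζ.1 i).2‖ ^ 2) -
    Real.log (S.δ ^ 2 - S.Br.m (‖(ζ.1 i).2 - (ζ.1 (i + 1)).1‖ ^ 2))) +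
  ∑ j, Real.log (1 + ‖ζ.2 j‖ ^ 2)

lemma Lam_smooth : ContDiffOn ℝ ∞ (S.Lam : Cfg E m J → ℝ) (S.O m J) := by
  unfold Lam
  refine ContDiffOn.add (ContDiffOn.sum fun i _ => ContDiffOn.sub (ContDiffOn.neg ?_) ?_)
    (ContDiffOn.sum fun j _ => ?_)
  · refine ContDiffOn.log (ContDiff.contDiffOn ?_) fun p hp => by linarith [(hp i).1]
    exact contDiff_const.sub (ContDiff.norm_sq ℝ (by fun_prop))
  · refine ContDiffOn.log (ContDiff.contDiffOn ?_) fun p hp => by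
      linarith [S.Br.m_lt _ (hp i).2]
    exact contDiff_const.sub (S.Br.ms.comp (ContDiff.norm_sq ℝ (by fun_prop)))
  · refine ContDiffOn.log (ContDiff.contDiffOn ?_) fun p _ => by positivity
    exact contDiff_const.add (ContDiff.norm_sq ℝ (by fun_prop))

lemma Lam_bound {ζ : Cfg E m J} (hζ : ζ ∈ S.Z m J) {v : Cfg E m J}
    (h1 : ∀ i, ‖v.1 i‖ ≤ (S.Th ζ)⁻¹) (h2 : ∀ j, ‖v.2 j‖ ≤ 1) :
    |fderiv ℝ S.Lam ζ v| ≤ 32 * S.δ + Fintype.card J := by
  have hO := S.Z_sub_O hζ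
  have hl : HasDerivAt (fun t : ℝ => ζ + t • v) v 0 := by
    simpa using ((hasDerivAt_id (0 : ℝ)).smul_const v).const_add ζ
  have a1 : ∀ i, HasDerivAt (fun s : ℝ => (ζ + s • v).1 i) (v.1 i) 0 := fun i =>
    (hasDerivAt_pi.1 hl.fst) i
  have ax : ∀ i, HasDerivAt (fun s : ℝ => ((ζ + s • v).1 i).1) (v.1 i).1 0 := fun i => (a1 i).fst
  have ay : ∀ i, HasDerivAt (fun s : ℝ => ((ζ + s • v).1 i).2) (v.1 i).2 0 := fun i => (a1 i).snd
  have a2 : ∀ j, HasDerivAt (fun s : ℝ => (ζ + s • v).2 j) (v.2 j) 0 := fun j =>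
    (hasDerivAt_pi.1 hl.snd) j
  have hd : HasDerivAt (fun t : ℝ => S.Lam (ζ + t • v))
      (∑ i, (S.th ζ i * (2 * ⟪(ζ.1 i).1 - (ζ.1 i).2, (v.1 i).1 - (v.1 i).2⟫_ℝ) +
        S.tht ζ i * (deriv S.Br.m (‖(ζ.1 i).2 - (ζ.1 (i + 1)).1‖ ^ 2) *
          (2 * ⟪(ζ.1 i).2 - (ζ.1 (i + 1)).1, (v.1 i).2 - (v.1 (i + 1)).1⟫_ℝ))) +
        ∑ j, 2 * ⟪ζ.2 j, v.2 j⟫_ℝ / (1 + ‖ζ.2 j‖ ^ 2)) 0 := by
    unfold Lam
    refine HasDerivAt.add (HasDerivAt.fun_sum fun i _ => ?_) (HasDerivAt.fun_sum fun j _ => ?_)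
    · have b1 := ((hasDerivAt_normSq ((ax i).sub (ay i))).const_sub (S.δ ^ 2)).log (by
        simp only [Pi.sub_apply, zero_smul, add_zero]; linarith [(hO i).1])
      have b2 := hasDerivAt_normSq ((ay i).sub (ax (i + 1)))
      have b3 := ((((S.Br.ms.differentiable (by simp)) _).hasDerivAt.comp (0 : ℝ) b2).const_sub
        (S.δ ^ 2)).log (by
          simp only [Function.comp, Pi.sub_apply, zero_smul, add_zero]
          linarith [S.Br.m_lt _ (hO i).2])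
      refine (b1.neg.sub b3).congr_deriv ?_
      simp only [th, tht, Function.comp, Pi.sub_apply, zero_smul, add_zero]
      ring
    · have := ((hasDerivAt_normSq (a2 j)).const_add 1).log (by positivity)
      simpa using this
  rw [fderiv_eq_of_line ((S.Lam_smooth.contDiffAt (S.isOpen_O.mem_nhds hO)).differentiableAt
    (by simp)) hd]
  have hT : 0 < S.Th ζ := lt_of_lt_of_le one_pos (S.one_le_Th hO)
  have hδ := S.δpos
  have key : ∀ {p q u w : E}, ‖p - q‖ ≤ 8 * S.δ → ‖u‖ ≤ (S.Th ζ)⁻¹ → ‖w‖ ≤ (S.Th ζ)⁻¹ →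
      |2 * ⟪p - q, u - w⟫_ℝ| ≤ 32 * S.δ * (S.Th ζ)⁻¹ := by
    intro p q u w h hu hw
    rw [abs_mul, abs_two]
    have := abs_real_inner_le_norm (p - q) (u - w)
    have h3 : ‖u - w‖ ≤ 2 * (S.Th ζ)⁻¹ := (norm_sub_le _ _).trans (by linarith)
    have h4 : ‖p - q‖ * ‖u - w‖ ≤ 8 * S.δ * (2 * (S.Th ζ)⁻¹) := by gcongr
    linarith
  refine (abs_add_le _ _).trans (add_le_add ?_ ?_)
  · refine (Finset.abs_sum_le_sum_abs _ _).trans ?_
    have : ∀ i, |S.th ζ i * (2 * ⟪(ζ.1 i).1 - (ζ.1 i).2, (v.1 i).1 - (v.1 i).2⟫_ℝ) +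
        S.tht ζ i * (deriv S.Br.m (‖(ζ.1 i).2 - (ζ.1 (i + 1)).1‖ ^ 2) *
          (2 * ⟪(ζ.1 i).2 - (ζ.1 (i + 1)).1, (v.1 i).2 - (v.1 (i + 1)).1⟫_ℝ))| ≤
        (S.th ζ i + S.tht ζ i) * (32 * S.δ * (S.Th ζ)⁻¹) := fun i => by
      have c1 := key (S.le8 (x := (ζ.1 i).1) (y := (ζ.1 i).2)
        (by linarith [(hO i).1, S.Br.apos])) ((norm_fst_le _).trans (h1 i))
        ((norm_snd_le _).trans (h1 i))
      have c2 := key (S.le8 (hO i).2.le) ((norm_snd_le _).trans (h1 i))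
        ((norm_fst_le _).trans (h1 (i + 1)))
      have c3 := S.Br.md (‖(ζ.1 i).2 - (ζ.1 (i + 1)).1‖ ^ 2)
      have p1 := S.th_pos hO i
      have p2 := S.tht_pos hO i
      refine (abs_add_le _ _).trans ?_
      rw [abs_mul (S.th ζ i), abs_mul (S.tht ζ i), abs_mul (deriv _ _), abs_of_pos p1,
        abs_of_pos p2, abs_of_nonneg c3.1, add_mul]
      exact add_le_add (mul_le_mul_of_nonneg_left c1 p1.le) (mul_le_mul_of_nonneg_left
        ((mul_le_of_le_one_left (abs_nonneg _) c3.2).trans c2) p2.le)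
    refine (Finset.sum_le_sum fun i _ => this i).trans ?_
    rw [← Finset.sum_mul]
    have h3 : ∑ i, (S.th ζ i + S.tht ζ i) ≤ S.Th ζ := by simp [Th]
    calc _ ≤ S.Th ζ * (32 * S.δ * (S.Th ζ)⁻¹) := by gcongr
      _ = _ := by field_simp
  · refine (Finset.abs_sum_le_sum_abs _ _).trans ?_
    have : ∀ j, |2 * ⟪ζ.2 j, v.2 j⟫_ℝ / (1 + ‖ζ.2 j‖ ^ 2)| ≤ 1 := fun j => by
      rw [abs_div, abs_of_pos (by positivity : 0 < 1 + ‖ζ.2 j‖ ^ 2), div_le_one (by positivity),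
        abs_mul, abs_two]
      have := abs_real_inner_le_norm (ζ.2 j) (v.2 j)
      have h4 : ‖ζ.2 j‖ * ‖v.2 j‖ ≤ ‖ζ.2 j‖ * 1 := by gcongr; exact h2 j
      nlinarith [sq_nonneg (‖ζ.2 j‖ - 1)]
    refine (Finset.sum_le_sum fun j _ => this j).trans ?_
    simp

/-- Chains at a definite distance from the barriers. -/
def ZC (m : ℕ) [NeZero m] (J : Type) (ε C : ℝ) : Set (Cfg E m J) :=
  {ζ | (∀ i, (ζ.1 i).1 ∈ S.S ∧ (ζ.1 i).2 ∈ S.S ∧ ε ≤ S.δ ^ 2 - ‖(ζ.1 i).1 - (ζ.1 i).2‖ ^ 2 ∧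
    ε ≤ S.δ ^ 2 - S.Br.m (‖(ζ.1 i).2 - (ζ.1 (i + 1)).1‖ ^ 2)) ∧ ∀ j, ‖ζ.2 j‖ ≤ C}

omit [Fintype J] in
lemma ZC_sub {ε : ℝ} (hε : 0 < ε) (C : ℝ) : S.ZC m J ε C ⊆ S.Z m J := by
  intro ζ h i
  obtain ⟨h1, h2, h3, h4⟩ := h.1 i
  refine ⟨h1, h2, by linarith, ?_⟩
  by_contra hc
  have ha := S.Br.apos
  rw [S.Br.m_high _ (by linarith)] at h4
  linarith

lemma ZC_compact [FiniteDimensional ℝ E] (ε C : ℝ) : IsCompact (S.ZC m J ε C) := by
  have hK : IsCompact ((Set.pi univ fun _ : Fin m => S.S ×ˢ S.S) ×ˢ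
      (Set.pi univ fun _ : J => Metric.closedBall (0 : E) C)) :=
    (isCompact_univ_pi fun _ => S.compact.prod S.compact).prod
      (isCompact_univ_pi fun _ => isCompact_closedBall _ _)
  refine hK.of_isClosed_subset ?_ fun ζ h =>
    ⟨fun i _ => ⟨(h.1 i).1, (h.1 i).2.1⟩, fun j _ => mem_closedBall_zero_iff.2 (h.2 j)⟩
  have hm := S.Br.ms.continuous
  simp only [ZC, ofPred_and, ofPred_forall]
  refine IsClosed.inter (isClosed_iInter fun i => ?_) (isClosed_iInter fun j => ?_)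
  · refine IsClosed.inter (S.closed.preimage (by fun_prop))
      (IsClosed.inter (S.closed.preimage (by fun_prop)) (IsClosed.inter ?_ ?_)) <;>
      exact isClosed_le continuous_const (by fun_prop)
  · exact isClosed_le (by fun_prop) continuous_const

lemma Lam_sub (c : ℝ) : ∃ ε C, 0 < ε ∧ ∀ ζ ∈ S.Z m J, S.Lam ζ ≤ c → ζ ∈ S.ZC m J ε C := by
  set c' := c + m * (2 * Real.log (S.δ ^ 2)) with hc'
  refine ⟨S.δ ^ 2 * Real.exp (-c'), Real.exp c', by have := S.δpos; positivity,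
    fun ζ hζ hc => ?_⟩
  have hO := S.Z_sub_O hζ
  have hd : 0 < S.δ ^ 2 := by have := S.δpos; positivity
  set f : Fin m → ℝ := fun i =>
    Real.log (S.δ ^ 2) - Real.log (S.δ ^ 2 - ‖(ζ.1 i).1 - (ζ.1 i).2‖ ^ 2) with hf
  set g : Fin m → ℝ := fun i => Real.log (S.δ ^ 2) -
    Real.log (S.δ ^ 2 - S.Br.m (‖(ζ.1 i).2 - (ζ.1 (i + 1)).1‖ ^ 2)) with hg
  have p1 : ∀ i, 0 < S.δ ^ 2 - ‖(ζ.1 i).1 - (ζ.1 i).2‖ ^ 2 := fun i => by linarith [(hO i).1]
  have p2 : ∀ i, 0 < S.δ ^ 2 - S.Br.m (‖(ζ.1 i).2 - (ζ.1 (i + 1)).1‖ ^ 2) := fun i => by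
    linarith [S.Br.m_lt _ (hO i).2]
  have f0 : ∀ i, 0 ≤ f i := fun i =>
    sub_nonneg.2 (Real.log_le_log (p1 i) (by linarith [sq_nonneg ‖(ζ.1 i).1 - (ζ.1 i).2‖]))
  have g0 : ∀ i, 0 ≤ g i := fun i => by
    have := S.Br.mono (sq_nonneg ‖(ζ.1 i).2 - (ζ.1 (i + 1)).1‖)
    rw [S.Br.m_low 0 S.t₁pos.le] at this
    exact sub_nonneg.2 (Real.log_le_log (p2 i) (by linarith))
  have n0 : ∀ j, 0 ≤ Real.log (1 + ‖ζ.2 j‖ ^ 2) := fun j =>
    Real.log_nonneg (by linarith [sq_nonneg ‖ζ.2 j‖])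
  have hs : ∑ i, f i + ∑ i, g i + ∑ j, Real.log (1 + ‖ζ.2 j‖ ^ 2) ≤ c' := by
    simp only [Lam, Finset.sum_sub_distrib, Finset.sum_neg_distrib] at hc
    simp only [hf, hg, Finset.sum_sub_distrib, Finset.sum_const, Finset.card_univ,
      Fintype.card_fin, nsmul_eq_mul]
    linarith
  have s1 := Finset.sum_nonneg fun i (_ : i ∈ Finset.univ) => f0 i
  have s2 := Finset.sum_nonneg fun i (_ : i ∈ Finset.univ) => g0 i
  have s3 := Finset.sum_nonneg fun j (_ : j ∈ Finset.univ) => n0 j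
  have key : ∀ t, 0 < t → Real.log (S.δ ^ 2) - Real.log t ≤ c' → S.δ ^ 2 * Real.exp (-c') ≤ t := by
    intro t ht h
    rw [← Real.exp_log hd, ← Real.exp_add, ← Real.exp_log ht]
    exact Real.exp_le_exp.2 (by linarith)
  refine ⟨fun i => ⟨(hζ i).1, (hζ i).2.1, key _ (p1 i) ?_, key _ (p2 i) ?_⟩, fun j => ?_⟩
  · have := Finset.single_le_sum (fun i _ => f0 i) (Finset.mem_univ i)
    change f i ≤ c'
    linarith
  · have := Finset.single_le_sum (fun i _ => g0 i) (Finset.mem_univ i)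
    change g i ≤ c'
    linarith
  · have := Finset.single_le_sum (fun j _ => n0 j) (Finset.mem_univ j)
    have h1 : Real.log (1 + ‖ζ.2 j‖ ^ 2) ≤ c' := by linarith
    rw [Real.log_le_iff_le_exp (by positivity)] at h1
    nlinarith [sq_nonneg (‖ζ.2 j‖ - 1), norm_nonneg (ζ.2 j)]

lemma crit_of_basis [DecidableEq J] {κ : Type*} [Fintype κ] (e : OrthonormalBasis κ ℝ E)
    (b : J → Fin m) (fr : Prop) {τ : Fin m → ℝ} (hτ : ∀ i, τ i ∈ Icc 0 S.St.τ₀)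
    {ζ : Cfg E m J} (hζ : ζ ∈ S.Z m J)
    (h : ∀ c k, S.Dact b τ ζ 0 (S.proj ζ (raw fr c (e k))) = 0) :
    (∃ z, S.Inner fr (∑ i, τ i) ζ z ∧ S.act b τ ζ = S.Hm.A (∑ i, τ i, z) ∧
      ∀ i, S.F ((ζ.1 i).1, S.St.pm (τ i, (ζ.1 i).1, (ζ.1 i).2)) = S.F z) ∨
    ((∀ i, S.F ((ζ.1 i).1, S.St.pm (τ i, (ζ.1 i).1, (ζ.1 i).2)) = 1) ∧
      S.act b τ ζ ≤ -∑ i, τ i + m * (S.St.τ₀ / 2)) := by
  have hn : ∀ j, ζ.2 j = 0 := fun j => by
    rw [← norm_eq_zero, ← S.norm_refl (hζ (b j)).1, norm_eq_zero]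
    refine eq_zero_of_inner e fun k => ?_
    have := h (Sum.inr (Sum.inr j)) k
    simp only [raw, S.Dact_dn b τ hζ] at this
    linarith
  have hder := fun i => S.St.der _ (hτ i) _ (hζ i).1 _ (hζ i).2.1 (hζ i).2.2.1
  refine S.crit b fr hτ hζ hn (fun i => ?_) fun i hi => ?_
  · rw [← sub_eq_zero]
    refine eq_zero_of_inner e fun k => ?_
    have := h (Sum.inr (Sum.inl i)) k
    simp only [raw, S.Dact_dy b τ hζ] at this
    rw [hder i _ _ _ (map_zero _) (S.P_idem (hζ i).2.1 _), ← S.P_symm (hζ i).2.1, map_sub] at this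
    simp only [Geo.pi, S.P_tw _ (hζ i).2.1, inner_sub_left, inner_zero_right] at this ⊢
    linarith
  · rw [← sub_eq_zero]
    refine eq_zero_of_inner e fun k => ?_
    have := h (Sum.inl (i + 1)) k
    simp only [raw, if_neg hi, S.Dact_dx b τ hζ, hn, inner_zero_left, mul_zero, ite_self,
      Finset.sum_const_zero] at this
    have hp := ((S.mem_cot _).1 (S.St.mem _ (hτ (i + 1)) _ (hζ (i + 1)).1 _ (hζ (i + 1)).2.1
      (hζ (i + 1)).2.2.1)).2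
    rw [hder (i + 1) _ _ _ (S.P_idem (hζ (i + 1)).1 _) (map_zero _), ← S.P_symm (hζ (i + 1)).1,
      map_sub, hp] at this
    simp only [Geo.pi, S.P_tw _ (hζ (i + 1)).1, inner_sub_left, inner_zero_right] at this ⊢
    linarith

end Sys

end Pool.Agent.Wein
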