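import Mathlib
import Pool.Agent.K.MP_e3ee0c_gt.C1

/-! Families of open chains over the whole base and their concatenation. -/

open Set Filter Topology
open scoped ContDiff InnerProductSpace

namespace Pool.Agent.Wein

variable {E : Type} [NormedAddCommGroup E] [InnerProductSpace ℝ E]

/-- Concatenation of two families, the parameters of the second one being shifted. -/
def ghCat (m : ℕ) (H H' : E × ℝ × (ℕ → E) → Ch E) : E × ℝ × (ℕ → E) → Ch E :=
  fun p => cat m (H p) (H' (p.1, p.2.1, fun i => p.2.2 (m + i)))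

namespace Sys

variable (S : Sys E)

/-- A proper family of chains from a to b starting at the unit over the constant polygon. -/
structure GhFam (M : ℕ) (T : ℝ) (a b : E × ℝ → E) (H : E × ℝ × (ℕ → E) → Ch E) : Prop where
  cont : ∀ i < M, ContinuousOn (fun p => H p i) (S.S ×ˢ univ)
  valid : ∀ x ∈ S.S, ∀ u P, S.Valid M (H (x, u, P))
  src : ∀ x ∈ S.S, ∀ u P, (H (x, u, P) 0).1 = a (x, u)
  tgt : ∀ x ∈ S.S, ∀ u P, (H (x, u, P) M).1 = b (x, u)
  le : ∀ x ∈ S.S, ∀ u P, S.Val M (H (x, u, P)) ≤ T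
  start : ∀ x ∈ S.S, ∀ u ≤ 0, ∀ P, ∀ i < M, H (x, u, P) i = S.un x (P i)
  proper : ∀ L', ∃ R : ℝ, ∀ x ∈ S.S, ∀ u P, (∃ i < M, R ≤ ‖P i‖) →
    S.Val M (H (x, u, P)) ≤ -L'

variable {S}

lemma GhFam.val_cat {M M' : ℕ} {T T' : ℝ} {a b c : E × ℝ → E}
    {H H' : E × ℝ × (ℕ → E) → Ch E} (h : S.GhFam M T a b H) (h' : S.GhFam M' T' b c H')
    {x : E} (hx : x ∈ S.S) (u : ℝ) (P : ℕ → E) :
    S.Val (M + M') (ghCat M H H' (x, u, P)) =
      S.Val M (H (x, u, P)) + S.Val M' (H' (x, u, fun i => P (M + i))) :=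
  S.val_cat _ _ _ _ (by rw [h.tgt x hx, h'.src x hx])

lemma GhFam.cat {M M' : ℕ} {T T' : ℝ} {a b c : E × ℝ → E}
    {H H' : E × ℝ × (ℕ → E) → Ch E} (h : S.GhFam M T a b H) (h' : S.GhFam M' T' b c H') :
    S.GhFam (M + M') (T + T') a c (ghCat M H H') where
  cont i hi := by
    by_cases hiM : i < M
    · simp only [ghCat, Wein.cat, if_pos hiM]
      exact h.cont i hiM
    · simp only [ghCat, Wein.cat, if_neg hiM]
      refine (h'.cont (i - M) (by omega)).comp
        (f := fun p : E × ℝ × (ℕ → E) => (p.1, p.2.1, fun i => p.2.2 (M + i))) ?_ ?_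
      · exact Continuous.continuousOn (by fun_prop)
      · intro p hp
        exact ⟨hp.1, trivial⟩
  valid x hx u P := S.valid_cat (by rw [h.tgt x hx, h'.src x hx]) (h.valid x hx u P)
    (h'.valid x hx u _)
  src x hx u P := by
    by_cases hM : 0 < M
    · simp only [ghCat, Wein.cat, if_pos hM]
      exact h.src x hx u P
    · have h0 : M = 0 := by omega
      subst h0
      simp only [ghCat, Wein.cat, lt_irrefl, if_false, Nat.sub_zero]
      rw [h'.src x hx, ← h.tgt x hx u P, h.src x hx]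
  tgt x hx u P := by
    have : ¬ M + M' < M := by omega
    simp only [ghCat, Wein.cat, if_neg this, Nat.add_sub_cancel_left]
    exact h'.tgt x hx u _
  le x hx u P := by
    rw [h.val_cat h' hx]
    exact add_le_add (h.le x hx u P) (h'.le x hx u _)
  start x hx u hu P i hi := by
    by_cases hiM : i < M
    · simp only [ghCat, Wein.cat, if_pos hiM]
      exact h.start x hx u hu P i hiM
    · simp only [ghCat, Wein.cat, if_neg hiM]
      rw [h'.start x hx u hu _ (i - M) (by omega)]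
      congr 2
      omega
  proper L := by
    obtain ⟨R, hR⟩ := h.proper (L + T')
    obtain ⟨R', hR'⟩ := h'.proper (L + T)
    refine ⟨max R R', ?_⟩
    rintro x hx u P ⟨i, hi, hP⟩
    rw [h.val_cat h' hx]
    by_cases hiM : i < M
    · have h1 := hR x hx u P ⟨i, hiM, (le_max_left _ _).trans hP⟩
      have h2 := h'.le x hx u (fun i => P (M + i))
      linarith
    · have h1 := hR' x hx u (fun i => P (M + i)) ⟨i - M, by omega, by
        rw [show M + (i - M) = i by omega]; exact (le_max_right _ _).trans hP⟩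
      have h2 := h.le x hx u P
      linarith

variable (S)

lemma gh_tau : S.St.τ₀ ∈ Icc 0 S.St.τ₀ := ⟨S.St.τpos.le, le_rfl⟩

lemma gh_unit_valid {J : ℕ} {y : ℕ → E} (hy : ∀ i < J, y i ∈ S.S ∧ ‖y i - y (i + 1)‖ ≤ S.μ)
    (P : ℕ → E) : S.Valid J (fun i => S.un (y i) (P i)) :=
  fun i hi => S.un_ok (hy i hi).1 (hy i hi).2 (P i)

lemma gh_unit_le {J : ℕ} {y : ℕ → E} (hy : ∀ i < J, y i ∈ S.S ∧ ‖y i - y (i + 1)‖ ≤ S.μ)
    (P : ℕ → E) : S.Val J (fun i => S.un (y i) (P i)) ≤ J * (S.St.τ₀ / 4) := by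
  unfold Val ValT
  calc _ ≤ ∑ _i ∈ Finset.range J, S.St.τ₀ / 4 := Finset.sum_le_sum fun i hi =>
        S.un_le (hy i (Finset.mem_range.1 hi)).1 (hy i (Finset.mem_range.1 hi)).2 (P i) S.gh_tau
    _ = _ := by simp

lemma gh_unit_const {J : ℕ} {x : E} (hx : x ∈ S.S) (P : ℕ → E) :
    S.Val J (fun i => S.un x (P i)) ≤ 0 := by
  unfold Val ValT
  exact Finset.sum_nonpos fun i _ => S.un_le_zero hx (P i) S.gh_tau

lemma gh_unit_proper (J : ℕ) (L : ℝ) : ∃ R : ℝ, ∀ y : ℕ → E,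
    (∀ i < J, y i ∈ S.S ∧ ‖y i - y (i + 1)‖ ≤ S.μ) → ∀ P : ℕ → E, (∃ i < J, R ≤ ‖P i‖) →
      S.Val J (fun i => S.un (y i) (P i)) ≤ -L := by
  obtain ⟨R, hR⟩ := S.un_proper (L + J * (S.St.τ₀ / 4))
  refine ⟨R, ?_⟩
  rintro y hy P ⟨i, hi, hP⟩
  unfold Val ValT
  rw [← Finset.add_sum_erase _ _ (Finset.mem_range.2 hi)]
  have h1 := hR (y i) (hy i hi).1 (y (i + 1)) (hy i hi).2 (P i) hP _ S.gh_tau
  have h2 : ∑ j ∈ (Finset.range J).erase i, S.lett S.St.τ₀ (S.un (y j) (P j))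
      (S.un (y (j + 1)) (P (j + 1))).1 ≤ J * (S.St.τ₀ / 4) := by
    calc _ ≤ ∑ _j ∈ (Finset.range J).erase i, S.St.τ₀ / 4 := Finset.sum_le_sum fun j hj => by
          have hj' := Finset.mem_range.1 (Finset.mem_of_mem_erase hj)
          exact S.un_le (hy j hj').1 (hy j hj').2 (P j) S.gh_tau
      _ ≤ ∑ _j ∈ Finset.range J, S.St.τ₀ / 4 :=
          Finset.sum_le_sum_of_subset_of_nonneg (Finset.erase_subset _ _)
            fun _ _ _ => by linarith [S.St.τpos]
      _ = _ := by simp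
  have h3 : S.lett S.St.τ₀ (S.un (y i) (P i)) (S.un (y (i + 1)) (P (i + 1))).1 ≤
      -(L + J * (S.St.τ₀ / 4)) := h1
  linarith

/-- The unit over a family of polygons with short steps. -/
lemma ghFam_unit (J : ℕ) (y : E × ℝ → ℕ → E) (hc : ∀ i, Continuous fun q => y q i)
    (hy : ∀ x ∈ S.S, ∀ u, ∀ i < J, y (x, u) i ∈ S.S ∧ ‖y (x, u) i - y (x, u) (i + 1)‖ ≤ S.μ)
    (h0 : ∀ x ∈ S.S, ∀ u ≤ 0, ∀ i < J, y (x, u) i = x) :
    S.GhFam J (J * (S.St.τ₀ / 4)) (fun q => y q 0) (fun q => y q J)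
      (fun p i => S.un (y (p.1, p.2.1) i) (p.2.2 i)) where
  cont i hi := by
    refine S.un_cont.comp
      (f := fun p : E × ℝ × (ℕ → E) => (y (p.1, p.2.1) i, p.2.2 i)) ?_ ?_
    · have := hc i
      exact Continuous.continuousOn (by fun_prop)
    · intro p hp
      exact ⟨(hy p.1 hp.1 p.2.1 i hi).1, trivial⟩
  valid x hx u P := S.gh_unit_valid (hy x hx u) P
  src _ _ _ _ := rfl
  tgt _ _ _ _ := rfl
  le x hx u P := S.gh_unit_le (hy x hx u) P
  start x hx u hu P i hi := by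
    show S.un (y (x, u) i) (P i) = _
    rw [h0 x hx u hu i hi]
  proper L := by
    obtain ⟨R, hR⟩ := S.gh_unit_proper J L
    exact ⟨R, fun x hx u P hP => hR _ (hy x hx u) P hP⟩

lemma gh_congr {M : ℕ} {c c' : Ch E} (h : ∀ i < M, c i = c' i) (hM : (c M).1 = (c' M).1) :
    (S.Valid M c' → S.Valid M c) ∧ S.Val M c = S.Val M c' := by
  have h1 : ∀ i < M, (c (i + 1)).1 = (c' (i + 1)).1 := by
    intro i hi
    rcases Nat.lt_or_ge (i + 1) M with h2 | h2
    · rw [h _ h2]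
    · rw [show i + 1 = M by omega]; exact hM
  constructor
  · intro hv i hi
    rw [h1 i hi, h i hi]
    exact hv i hi
  · unfold Val ValT
    refine Finset.sum_congr rfl fun i hi => ?_
    rw [h1 i (Finset.mem_range.1 hi), h i (Finset.mem_range.1 hi)]

/-- The middle block: the unit over the constant polygon at z as long as t is not positive, and
the given homotopy at time t afterwards. -/
noncomputable def ghMid (x0 : E) (H : E × ℝ × (ℕ → E) → Ch E) (z : E × ℝ → E) (t : E × ℝ → ℝ) :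
    E × ℝ × (ℕ → E) → Ch E :=
  fun p i => S.un (z (p.1, p.2.1)) (p.2.2 i) + H (x0, t (p.1, p.2.1), p.2.2) i - S.un x0 (p.2.2 i)

lemma ghMid_high {x0 : E} (H : E × ℝ × (ℕ → E) → Ch E) (z : E × ℝ → E) (t : E × ℝ → ℝ)
    {x : E} {u : ℝ} (hz : z (x, u) = x0) (P : ℕ → E) :
    S.ghMid x0 H z t (x, u, P) = H (x0, t (x, u), P) := by
  funext i
  simp only [ghMid, hz]
  abel

lemma ghFam_mid {x0 : E} (hx0 : x0 ∈ S.S) {M : ℕ} {T L : ℝ} {H : E × ℝ × (ℕ → E) → Ch E}
    (hH : S.IsKill {x0} M T L H) (z : E × ℝ → E) (t : E × ℝ → ℝ) (hz : Continuous z)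
    (ht : Continuous t) (hzS : ∀ x ∈ S.S, ∀ u, z (x, u) ∈ S.S)
    (hzt : ∀ x ∈ S.S, ∀ u, t (x, u) ≤ 0 ∨ z (x, u) = x0)
    (h0 : ∀ x ∈ S.S, ∀ u ≤ 0, t (x, u) ≤ 0 ∧ z (x, u) = x) :
    S.GhFam M (max T 0) z z (S.ghMid x0 H z t) := by
  have hlow : ∀ x u, t (x, u) ≤ 0 → ∀ P, ∀ i < M,
      S.ghMid x0 H z t (x, u, P) i = S.un (z (x, u)) (P i) := by
    intro x u hu P i hi
    simp only [ghMid]
    rw [hH.start x0 rfl _ hu P i hi]
    abel
  have hend : ∀ x u P, (S.ghMid x0 H z t (x, u, P) M).1 = z (x, u) := by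
    intro x u P
    simp only [ghMid, Prod.fst_sub, Prod.fst_add, hH.tgt x0 rfl]
    simp [un]
  have hcg : ∀ x u, t (x, u) ≤ 0 → ∀ P,
      (S.Valid M (fun i => S.un (z (x, u)) (P i)) → S.Valid M (S.ghMid x0 H z t (x, u, P))) ∧
        S.Val M (S.ghMid x0 H z t (x, u, P)) = S.Val M (fun i => S.un (z (x, u)) (P i)) :=
    fun x u hu P => S.gh_congr (hlow x u hu P) (hend x u P)
  have hconst : ∀ x ∈ S.S, ∀ u, ∀ i < M, (fun _ : ℕ => z (x, u)) i ∈ S.S ∧
      ‖(fun _ : ℕ => z (x, u)) i - (fun _ : ℕ => z (x, u)) (i + 1)‖ ≤ S.μ :=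
    fun x hx u _ _ => ⟨hzS x hx u, by simpa using S.μpos.le⟩
  refine ⟨?_, ?_, ?_, fun x _ u P => hend x u P, ?_, ?_, ?_⟩
  · intro i hi
    refine ContinuousOn.sub (ContinuousOn.add ?_ ?_) ?_
    · refine S.un_cont.comp
        (f := fun p : E × ℝ × (ℕ → E) => (z (p.1, p.2.1), p.2.2 i)) ?_ ?_
      · exact Continuous.continuousOn (by fun_prop)
      · intro p hp
        exact ⟨hzS p.1 hp.1 p.2.1, trivial⟩
    · refine (hH.cont i hi).comp
        (f := fun p : E × ℝ × (ℕ → E) => (x0, t (p.1, p.2.1), p.2.2)) ?_ ?_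
      · exact Continuous.continuousOn (by fun_prop)
      · intro p _
        exact ⟨rfl, trivial⟩
    · refine S.un_cont.comp (f := fun p : E × ℝ × (ℕ → E) => (x0, p.2.2 i)) ?_ ?_
      · exact Continuous.continuousOn (by fun_prop)
      · intro p _
        exact ⟨hx0, trivial⟩
  · intro x hx u P
    rcases hzt x hx u with h | h
    · exact (hcg x u h P).1 (S.gh_unit_valid (hconst x hx u) P)
    · rw [S.ghMid_high H z t h]
      exact hH.valid x0 rfl _ P
  · intro x hx u P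
    simp only [ghMid, Prod.fst_sub, Prod.fst_add, hH.src x0 rfl]
    simp [un]
  · intro x hx u P
    rcases hzt x hx u with h | h
    · rw [(hcg x u h P).2]
      exact (S.gh_unit_const (hzS x hx u) P).trans (le_max_right _ _)
    · rw [S.ghMid_high H z t h]
      exact (hH.le x0 rfl _ P).trans (le_max_left _ _)
  · intro x hx u hu P i hi
    rw [hlow x u (h0 x hx u hu).1 P i hi, (h0 x hx u hu).2]
  · intro L'
    obtain ⟨R, hR⟩ := S.gh_unit_proper M L'
    obtain ⟨R', hR'⟩ := hH.proper L'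
    refine ⟨max R R', ?_⟩
    rintro x hx u P ⟨i, hi, hP⟩
    rcases hzt x hx u with h | h
    · rw [(hcg x u h P).2]
      exact hR _ (hconst x hx u) P ⟨i, hi, (le_max_left _ _).trans hP⟩
    · rw [S.ghMid_high H z t h]
      exact hR' x0 rfl _ P ⟨i, hi, (le_max_right _ _).trans hP⟩

end Sys

end Pool.Agent.Wein
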