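import Mathlib
import Pool.Agent.K.MP_e3ee0c_gt.C11
import Pool.Agent.K.MP_e3ee0c_gt.C5
import Pool.Agent.K.MP_e3ee0c_gt.C10

/-! The core existence theorem. -/

open Set Filter Topology
open scoped ContDiff InnerProductSpace

namespace Pool.Agent.Wein

variable {E : Type} [NormedAddCommGroup E] [InnerProductSpace ℝ E] [FiniteDimensional ℝ E]

theorem core (R : Ret E) (hN : IsPathConnected R.S) (γ : C(UnitAddCircle, R.S))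
    (hγ : ¬ γ.Nullhomotopic) (F : E × E → ℝ) (hF : ContDiff ℝ ∞ F)
    (h01 : ∀ z ∈ Cot R.S, 0 ≤ F z ∧ F z ≤ 1) (Rb : ℝ)
    (hR : ∀ z ∈ Cot R.S, Rb ≤ ‖z.2‖ → F z = 1) (a : E) (ha : a ∈ R.S) (r0 : ℝ) (hr0 : 0 < r0)
    (h0 : ∀ x ∈ R.S, ‖x - a‖ ≤ r0 → F (x, 0) = 0) (κ C0 : ℝ) (hκ : 0 < κ)
    (hgap : ∀ (z : ℝ → E × E) (A : ℝ → ℝ), IsOrbit R.S F z →
      (∀ t, HasDerivAt A (⟪(z t).2, (deriv z t).1⟫_ℝ - F (z t)) t) → F (z 0) < κ →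
      ∀ s, 0 ≤ s → -C0 ≤ A s - A 0) :
    ∃ (z : ℝ → E × E) (T : ℝ), IsOrbit R.S F z ∧ 0 < T ∧ (∀ t, z (t + T) = z t) ∧
      0 < F (z 0) ∧ F (z 0) < 1 := by
  by_contra hcon
  have hno : ∀ (z : ℝ → E × E) (T : ℝ), IsOrbit R.S F z → 0 < T → (∀ t, z (t + T) = z t) →
      F (z 0) = 0 ∨ F (z 0) = 1 := by
    intro z T hz hT hp
    by_contra hne
    push Not at hne
    have h := h01 (z 0) (hz 0).1
    exact hcon ⟨z, T, hz, hT, hp, lt_of_le_of_ne h.1 (Ne.symm hne.1), lt_of_le_of_ne h.2 hne.2⟩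
  obtain ⟨S, hS, hSF, hSκ, hnp⟩ := exists_sys R F hF h01 Rb hR κ C0 hκ.le hgap hno
  subst hSF
  generalize R.S = N at *
  subst hS
  obtain ⟨x, hx, T, hk⟩ := S.kill hnp (by rw [hSκ]; exact lt_min hκ one_pos) γ hγ
  obtain ⟨M, T', H, hH⟩ := S.ghost hN hx T hk
  exact S.link hnp ha hr0 h0 hH

end Pool.Agent.Wein
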