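import Mathlib
import Pool.Agent.K.MP_e3ee0c_gt.C0
import Pool.Agent.K.MP_e3ee0c_gt.C14

/-! The elementary case of a one dimensional base. -/

open Set Filter Topology
open scoped ContDiff InnerProductSpace

namespace Pool.Agent.Wein

variable {E : Type} [NormedAddCommGroup E] [InnerProductSpace ℝ E] [FiniteDimensional ℝ E]

/-- The Hamiltonian field of H, before the cut-off. -/
lemma one_field (R : Ret E) (H : E × E → ℝ) (hH : ContDiff ℝ ∞ H) :
    ∃ X0 : E × E → E × E, ContDiff ℝ ∞ X0 ∧ ∀ z ∈ Cot R.S, ∀ u ∈ Tan (Cot R.S) z,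
      omega (fderiv ℝ R.hat.r z (X0 z)) u = -fderiv ℝ H z u := by
  have hr : Differentiable ℝ R.hat.r := R.hat.smooth.differentiable (by simp)
  have hFd : Differentiable ℝ H := hH.differentiable (by simp)
  obtain ⟨X0, hX0, hX1, hX2⟩ := ham_grad (H ∘ R.hat.r) (hH.comp R.hat.smooth)
  have hcomp : ∀ z ∈ Cot R.S, ∀ u, fderiv ℝ (H ∘ R.hat.r) z u =
      fderiv ℝ H z (fderiv ℝ R.hat.r z u) := by
    intro z hz u
    rw [fderiv_comp z (hFd _) (hr z), R.hat.fix z hz]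
    rfl
  refine ⟨X0, hX0, fun z hz u hu => ?_⟩
  obtain ⟨hx, hp⟩ := (R.mem_cot z).1 hz
  have hu1 := R.tan_cot_fst hz hu
  have huu : fderiv ℝ R.hat.r z u = u := (R.hat.tan_iff hz u).1 hu
  have h1 : ⟪u.2, R.P z.1 (X0 z).1⟫_ℝ = ⟪(X0 z).1, u.2⟫_ℝ := by
    rw [← R.P_symm hx, real_inner_comm, hX1, hX1, hcomp z hz, hcomp z hz, R.fderiv_hat hz,
      R.fderiv_hat hz]
    simp [R.P_idem hx]
  rw [R.fderiv_hat hz]
  simp only [omega, inner_add_left]
  rw [R.DP_normal hx (R.P_idem hx _) hp hu1, R.P_symm hx, hu1, h1, hX1, hX2]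
  have h3 : fderiv ℝ (H ∘ R.hat.r) z u = fderiv ℝ (H ∘ R.hat.r) z (u.1, 0) +
      fderiv ℝ (H ∘ R.hat.r) z (0, u.2) := by
    rw [← map_add]
    simp
  rw [hcomp z hz u, huu] at h3
  linarith

/-- The flow of the Hamiltonian field, cut off away from the compact level set. -/
lemma one_flow (R : Ret E) (H : E × E → ℝ) (hH : ContDiff ℝ ∞ H) (c : ℝ)
    (hS : IsCompact {z | z ∈ Cot R.S ∧ H z = c}) :
    ∃ (X : E × E → E × E) (Φ : ℝ × (E × E) → E × E), ContDiff ℝ ∞ Φ ∧ (∀ z, Φ (0, z) = z) ∧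
      (∀ t z, HasDerivAt (fun s => Φ (s, z)) (X (Φ (t, z))) t) ∧
      (∀ s t z, Φ (s + t, z) = Φ (s, Φ (t, z))) ∧
      (∀ t, ∀ z ∈ Cot R.S, Φ (t, z) ∈ Cot R.S) ∧ (∀ t, ∀ z ∈ Cot R.S, H (Φ (t, z)) = H z) ∧
      (∀ z ∈ Cot R.S, X z ∈ Tan (Cot R.S) z) ∧
      ∀ z ∈ Cot R.S, H z = c → ∀ u ∈ Tan (Cot R.S) z, omega (X z) u = -fderiv ℝ H z u := by
  have hFd : Differentiable ℝ H := hH.differentiable (by simp)
  obtain ⟨X0, hX0, hom⟩ := one_field R H hH
  obtain ⟨χ, hχ, hχc, -, -, hχ1⟩ := exists_bump _ univ hS isOpen_univ (subset_univ _)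
  set g : E × E → E × E := fun z => χ z • X0 z with hg
  have hgs : ContDiff ℝ ∞ g := hχ.smul hX0
  set X : E × E → E × E := fun z => fderiv ℝ R.hat.r z (g z) with hX
  have hXs : ContDiff ℝ ∞ X := (R.hat.smooth.fderiv_right (m := ∞) (by simp)).clm_apply hgs
  have hXc : HasCompactSupport X := by
    refine hχc.mono fun z hz => ?_
    intro h
    apply hz
    simp [hX, hg, h]
  have hXe : ∀ z, X z = χ z • fderiv ℝ R.hat.r z (X0 z) := fun z => by simp [hX, hg]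
  have htan : ∀ z ∈ Cot R.S, X z ∈ Tan (Cot R.S) z := fun z hz =>
    (R.hat.tan_iff hz _).2 (R.hat.idem hz _)
  obtain ⟨K, hK⟩ := ContDiff.lipschitzWith_of_hasCompactSupport hXc hXs (by simp)
  obtain ⟨Φ, hΦ, h0, hd, hadd⟩ := exists_flow X hXs K hK
  have hmem : ∀ t, ∀ z ∈ Cot R.S, Φ (t, z) ∈ Cot R.S := by
    intro t z hz
    exact R.hat.inv_global (fun s => Φ (s, z)) (fun s => g (Φ (s, z)))
      (hgs.continuous.comp (hΦ.continuous.comp (continuous_id.prodMk continuous_const)))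
      (fun s => hd s z) (by show Φ (0, z) ∈ Cot R.S; rw [h0]; exact hz) t
  refine ⟨X, Φ, hΦ, h0, hd, hadd, hmem, fun t z hz => ?_, htan, fun z hz hc u hu => ?_⟩
  · have h1 : ∀ s, HasDerivAt (fun s => H (Φ (s, z))) 0 s := by
      intro s
      have h2 := (hFd (Φ (s, z))).hasFDerivAt.comp_hasDerivAt s (hd s z)
      have hy := hmem s z hz
      have h3 := hom _ hy _ ((R.hat.tan_iff hy _).2 (R.hat.idem hy (X0 (Φ (s, z)))))
      have h4 : fderiv ℝ H (Φ (s, z)) (X (Φ (s, z))) = 0 := by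
        rw [omega_self] at h3
        rw [hXe, map_smul, neg_eq_zero.1 h3.symm, smul_zero]
      rw [h4] at h2
      exact h2
    have := is_const_of_deriv_eq_zero (fun s => (h1 s).differentiableAt) (fun s => (h1 s).deriv) t 0
    simpa [h0] using this
  · rw [hXe, hχ1.self_of_nhdsSet z ⟨hz, hc⟩, one_smul]
    exact hom z hz u hu

/-- In a tangent plane, a vector orthogonal to a symplectic pair vanishes. -/
lemma one_plane (R : Ret E) {z : E × E} (hz : z ∈ Cot R.S) (hdim : R.rk z.1 ≤ 1)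
    {a b u : E × E} (ha : a ∈ Tan (Cot R.S) z) (hb : b ∈ Tan (Cot R.S) z)
    (hu : u ∈ Tan (Cot R.S) z) (hab : omega a b ≠ 0) (hau : omega a u = 0)
    (hub : omega u b = 0) : u = 0 := by
  obtain ⟨hx, hp⟩ := (R.mem_cot z).1 hz
  obtain ⟨e, he⟩ := finrank_le_one_iff.1 hdim
  have he' : ∀ y : E, ∃ t : ℝ, R.P z.1 y = t • (e : E) := by
    intro y
    obtain ⟨t, ht⟩ := he ⟨R.P z.1 y, y, rfl⟩
    exact ⟨t, (congrArg Subtype.val ht).symm⟩
  have hco : ∀ v ∈ Tan (Cot R.S) z, ∃ s t : ℝ, v.1 = s • (e : E) ∧ R.P z.1 v.2 = t • (e : E) := by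
    intro v hv
    obtain ⟨s, hs⟩ := he' v.1
    obtain ⟨t, ht⟩ := he' v.2
    exact ⟨s, t, by rw [← hs, R.tan_cot_fst hz hv], ht⟩
  have hom : ∀ v ∈ Tan (Cot R.S) z, ∀ w ∈ Tan (Cot R.S) z,
      omega v w = ⟪R.P z.1 v.2, w.1⟫_ℝ - ⟪R.P z.1 w.2, v.1⟫_ℝ := by
    intro v hv w hw
    rw [R.P_symm hx, R.P_symm hx, R.tan_cot_fst hz hv, R.tan_cot_fst hz hw]
    rfl
  obtain ⟨a1, a2, ha1, ha2⟩ := hco a ha
  obtain ⟨b1, b2, hb1, hb2⟩ := hco b hb
  obtain ⟨u1, u2, hu1, hu2⟩ := hco u hu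
  rw [hom a ha b hb, ha1, ha2, hb1, hb2] at hab
  rw [hom a ha u hu, ha1, ha2, hu1, hu2] at hau
  rw [hom u hu b hb, hu1, hu2, hb1, hb2] at hub
  simp only [inner_smul_left, inner_smul_right, conj_trivial] at hab hau hub
  set n : ℝ := ⟪(e : E), (e : E)⟫_ℝ
  have k1 : u1 = 0 := by
    have : u1 * (b1 * (a2 * n) - a1 * (b2 * n)) = 0 := by
      linear_combination b1 * hau + a1 * hub
    exact (mul_eq_zero.1 this).resolve_right hab
  have k2 : u2 = 0 := by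
    have : u2 * (b1 * (a2 * n) - a1 * (b2 * n)) = 0 := by
      linear_combination b2 * hau + a2 * hub
    exact (mul_eq_zero.1 this).resolve_right hab
  have h1 : u.1 = 0 := by rw [hu1, k1, zero_smul]
  have h2 : R.P z.1 u.2 = 0 := by rw [hu2, k2, zero_smul]
  have h3 := (R.hat.tan_iff hz u).1 hu
  rw [R.fderiv_hat hz, h1, h2] at h3
  rw [← h3]
  simp

theorem dim_one (R : Ret E) (hdim : ∀ x ∈ R.S, R.rk x ≤ 1)
    (H : E × E → ℝ) (hH : ContDiff ℝ ∞ H) (c : ℝ) (hne : ∃ z ∈ Cot R.S, H z = c)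
    (hS : IsCompact {z | z ∈ Cot R.S ∧ H z = c})
    (hreg : ∀ z ∈ Cot R.S, H z = c → ∃ v ∈ Tan (Cot R.S) z, fderiv ℝ H z v ≠ 0) :
    ∃ (z : ℝ → E × E) (T : ℝ), IsOrbit R.S H z ∧ 0 < T ∧ (∀ t, z (t + T) = z t) ∧
      ∀ t, H (z t) = c := by
  have hFd : Differentiable ℝ H := hH.differentiable (by simp)
  have hr : Differentiable ℝ R.hat.r := R.hat.smooth.differentiable (by simp)
  obtain ⟨X, Φ, hΦ, h0, hd, hadd, hmem, hc, htan, hom⟩ := one_flow R H hH c hS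
  obtain ⟨z0, hz0, hc0⟩ := hne
  obtain ⟨w, ⟨hw, hwc⟩, φ, hφ, hlim⟩ := hS.tendsto_subseq (x := fun k : ℕ => Φ ((k : ℝ), z0))
    (fun k => ⟨hmem _ _ hz0, by rw [hc _ _ hz0, hc0]⟩)
  obtain ⟨v, hv, hdv⟩ := hreg w hw hwc
  set a := X w with ha
  have hav : omega a v ≠ 0 := by
    rw [hom w hw hwc v hv]
    exact neg_ne_zero.2 hdv
  have hda : fderiv ℝ H w a = 0 := by
    have := hom w hw hwc a (htan w hw)
    rw [omega_self] at this
    exact neg_eq_zero.1 this.symm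
  let l : (E × E) →L[ℝ] ℝ := (innerSL ℝ v.1).comp (ContinuousLinearMap.snd ℝ E E) -
    (innerSL ℝ v.2).comp (ContinuousLinearMap.fst ℝ E E)
  have hl : ∀ u, l u = omega u v := by
    intro u
    simp [l, omega, real_inner_comm]
  set f : E × E → E × E := fun y => y - R.hat.r y + l y • a + H y • v with hf
  have hfs : ContDiff ℝ ∞ f :=
    ((contDiff_id.sub R.hat.smooth).add (l.contDiff.smul contDiff_const)).add
      (hH.smul contDiff_const)
  have hfd : ∀ u, fderiv ℝ f w u =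
      u - fderiv ℝ R.hat.r w u + l u • a + fderiv ℝ H w u • v := by
    intro u
    have h1 := (((hasFDerivAt_id w).sub (hr w).hasFDerivAt).add
      (l.hasFDerivAt.smul_const a)).add ((hFd w).hasFDerivAt.smul_const v)
    have h2 : fderiv ℝ f w = _ := h1.fderiv
    rw [h2]
    simp
  obtain ⟨W, -, hW, hwW, -, hi, -⟩ := inverse_compact f univ isOpen_univ hfs.contDiffOn {w}
    isCompact_singleton (subset_univ _) (injOn_singleton _ _) (by
      intro k hk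
      rw [mem_singleton_iff.1 hk, injective_iff_map_eq_zero]
      intro u hu
      rw [hfd] at hu
      have h1 := congrArg (fderiv ℝ R.hat.r w) hu
      rw [map_add, map_add, map_sub, map_smul, map_smul, R.hat.idem hw, sub_self, zero_add,
        (R.hat.tan_iff hw a).1 (htan w hw), (R.hat.tan_iff hw v).1 hv, map_zero] at h1
      have h2 : fderiv ℝ H w u = 0 := by
        have h3 := congrArg (fderiv ℝ H w) h1
        rw [map_add, map_smul, map_smul, hda, map_zero, smul_zero, zero_add, smul_eq_mul] at h3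
        exact (mul_eq_zero.1 h3).resolve_right hdv
      have h3 : l u = 0 := by
        rw [h2, zero_smul, add_zero] at h1
        have h4 := congrArg l h1
        rw [map_smul, map_zero, hl a, smul_eq_mul] at h4
        exact (mul_eq_zero.1 h4).resolve_right hav
      rw [h2, h3, zero_smul, zero_smul, add_zero, add_zero, sub_eq_zero] at hu
      have hut : u ∈ Tan (Cot R.S) w := (R.hat.tan_iff hw u).2 hu.symm
      exact one_plane R hw (hdim _ hw.1) (htan w hw) hv hut hav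
        (by rw [hom w hw hwc u hut, h2, neg_zero]) (by rw [← hl, h3]))
  have hWw : W ∈ 𝓝 w := hW.mem_nhds (hwW rfl)
  have hcs : ContDiff ℝ ∞ (fun s : ℝ => Φ (s, w)) :=
    hΦ.comp (contDiff_id.prodMk contDiff_const)
  have hst : HasStrictDerivAt (fun s : ℝ => l (Φ (s, w))) (l a) 0 := by
    have h1 : HasDerivAt (fun s : ℝ => l (Φ (s, w))) (l a) 0 := by
      have h2 := l.hasFDerivAt.comp_hasDerivAt (0 : ℝ) (hd 0 w)
      rw [h0] at h2
      exact h2
    exact (l.contDiff.comp hcs).contDiffAt.hasStrictDerivAt' h1 (by simp)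
  have hA : {s : ℝ | |s| < 1 / 4 ∧ Φ (s, w) ∈ W} ∈ 𝓝 (0 : ℝ) := by
    refine inter_mem ?_ ?_
    · exact (isOpen_lt continuous_abs continuous_const).mem_nhds (by simp)
    · apply hcs.continuous.continuousAt.preimage_mem_nhds
      rw [h0]
      exact hWw
  have hB := image_mem_map (m := fun s : ℝ => l (Φ (s, w))) hA
  rw [hst.map_nhds_eq (by rw [hl]; exact hav), h0] at hB
  have harc : ∀ᶠ y in 𝓝 w, y ∈ Cot R.S → H y = c → ∃ s : ℝ, |s| < 1 / 4 ∧ Φ (s, w) = y := by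
    filter_upwards [hWw, l.continuous.continuousAt.preimage_mem_nhds hB] with y hy1 hy2 hy3 hy4
    obtain ⟨s, ⟨hs1, hs2⟩, hs3⟩ := hy2
    refine ⟨s, hs1, hi hs2 hy1 ?_⟩
    have hs4 : l (Φ (s, w)) = l y := hs3
    simp only [hf]
    rw [R.hat.fix _ (hmem s w hw), R.hat.fix _ hy3, hs4, hc s w hw, hwc, hy4, sub_self, sub_self]
  obtain ⟨k, hk⟩ := eventually_atTop.1 (hlim.eventually harc)
  have hret : ∀ j, k ≤ j → ∃ s : ℝ, |s| < 1 / 4 ∧ Φ ((φ j : ℝ) - s, z0) = w := by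
    intro j hj
    obtain ⟨s, hs1, hs2⟩ := hk j hj (hmem _ _ hz0) (by
      show H (Φ ((φ j : ℝ), z0)) = c
      rw [hc _ _ hz0, hc0])
    have hs3 : Φ (s, w) = Φ ((φ j : ℝ), z0) := hs2
    refine ⟨s, hs1, ?_⟩
    rw [sub_eq_neg_add, hadd, ← hs3, ← hadd, neg_add_cancel, h0]
  obtain ⟨s, hs1, hs2⟩ := hret k le_rfl
  obtain ⟨s', hs1', hs2'⟩ := hret (k + 1) (Nat.le_succ k)
  have hlt : (φ k : ℝ) + 1 ≤ φ (k + 1) := by exact_mod_cast hφ (Nat.lt_succ_self k)
  have hper : Φ (((φ (k + 1) : ℝ) - s') - ((φ k : ℝ) - s), w) = w := by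
    conv_lhs => rw [← hs2, ← hadd, sub_add_cancel]
    exact hs2'
  refine ⟨fun t => Φ (t, w), ((φ (k + 1) : ℝ) - s') - ((φ k : ℝ) - s),
    fun t => ⟨hmem t w hw, _, hd t w, hom _ (hmem t w hw) (by rw [hc t w hw, hwc])⟩, ?_,
    fun t => ?_, fun t => ?_⟩
  · linarith [(abs_lt.1 hs1).1, (abs_lt.1 hs1').2]
  · show Φ (t + _, w) = Φ (t, w)
    rw [hadd, hper]
  · show H (Φ (t, w)) = c
    rw [hc t w hw, hwc]

end Pool.Agent.Wein
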