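import Mathlib
import Pool.Agent.K.MP_e3ee0c_gt.C14
import Pool.Agent.K.MP_e3ee0c_gt.C16
import Pool.Agent.K.MP_e3ee0c_gt.C15
import Pool.Agent.K.MP_e3ee0c_gt.C0

/-! The theorem for an arbitrary compact level with a transverse Liouville field. -/

open Set Filter Topology
open scoped ContDiff InnerProductSpace

namespace Pool.Agent.Wein

variable {E : Type} [NormedAddCommGroup E] [InnerProductSpace ℝ E] [FiniteDimensional ℝ E]

/-- A real height function that crosses the level of H1 once per unit of height. -/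
lemma exists_height (R : Ret E) (hdim : ∀ x ∈ R.S, 2 ≤ R.rk x) (H1 : E × E → ℝ)
    (hH : Continuous H1) (S O : Set (E × E)) (hS : IsCompact S) (hO : IsOpen O) (hSO : S ⊆ O)
    (hzero : ∀ z ∈ Cot R.S, z ∈ O → H1 z = 0 → z ∈ S) (z0 : E × E) (hz0 : z0 ∈ Cot R.S)
    (hz0S : z0 ∈ S) (h0 : H1 z0 = 0) :
    ∃ (g : E × E → ℝ) (η Rb : ℝ) (j : ℤ), ContinuousOn g (Cot R.S) ∧ 0 < η ∧
      (∀ z ∈ Cot R.S, Rb ≤ ‖z.2‖ → g z = 0) ∧ g z0 = j + 1 / 2 ∧
      ∀ z ∈ Cot R.S, (j : ℝ) < g z → g z < j + 1 → z ∈ O ∧ H1 z = η * (2 * (g z - j) - 1) := by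
  obtain ⟨δ, hδ, hKO⟩ := hS.exists_cthickening_subset_open hO hSO
  set K := Metric.cthickening δ S with hK
  have hKc : IsCompact K := hS.cthickening
  have hin : Metric.thickening (δ / 2) S ⊆ K :=
    (Metric.thickening_subset_cthickening _ _).trans (Metric.cthickening_mono (by linarith) _)
  have hsh : IsCompact ((K ∩ Cot R.S) \ Metric.thickening (δ / 2) S) :=
    (hKc.inter_right R.hat.closed).diff Metric.isOpen_thickening
  obtain ⟨η, hη, hηle⟩ := hsh.exists_forall_le' (f := fun z => |H1 z|) (a := 0)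
    hH.abs.continuousOn fun z hz => abs_pos.2 fun h =>
      hz.2 (Metric.self_subset_thickening (half_pos hδ) _ (hzero z hz.1.2 (hKO hz.1.1) h))
  set cl : E × E → ℝ := fun z => max 0 (min 1 ((H1 z / η + 1) / 2)) with hcl
  have hclc : Continuous cl := by fun_prop
  have hclz : ∀ z, η ≤ |H1 z| → cl z = 0 ∨ cl z = 1 := fun z hz => by
    rcases le_abs'.1 hz with h | h
    · have : H1 z / η ≤ -1 := by rw [div_le_iff₀ hη]; linarith
      exact Or.inl (max_eq_left ((min_le_right _ _).trans (by linarith)))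
    · have : 1 ≤ H1 z / η := (one_le_div hη).2 h
      exact Or.inr (by
        simp only [hcl]
        rw [min_eq_left (by linarith), max_eq_right zero_le_one])
  have hcoe : ∀ z, η ≤ |H1 z| → ((cl z : ℝ) : UnitAddCircle) = 0 := fun z hz => by
    rcases hclz z hz with h | h
    · simp [h]
    · simp [h]
  classical
  set f : E × E → UnitAddCircle := fun z => if z ∈ K then ((cl z : ℝ) : UnitAddCircle) else 0
    with hf
  have hout : ∀ z ∈ Cot R.S, z ∉ Metric.thickening (δ / 2) S → f z = 0 := fun z hz h => by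
    by_cases hk : z ∈ K
    · simp only [hf, if_pos hk]
      exact hcoe z (hηle z ⟨⟨hk, hz⟩, h⟩)
    · simp only [hf, if_neg hk]
  have hfc : ContinuousOn f (Cot R.S) := by
    have e : Cot R.S = (K ∩ Cot R.S) ∪ (Cot R.S \ Metric.thickening (δ / 2) S) := by
      ext z
      constructor
      · intro hz
        by_cases h : z ∈ Metric.thickening (δ / 2) S
        · exact Or.inl ⟨hin h, hz⟩
        · exact Or.inr ⟨hz, h⟩
      · rintro (h | h)
        · exact h.2
        · exact h.1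
    rw [e]
    refine ContinuousOn.union_of_isClosed ?_ ?_ (hKc.isClosed.inter R.hat.closed)
      (R.hat.closed.sdiff Metric.isOpen_thickening)
    · have : Continuous fun z => ((cl z : ℝ) : UnitAddCircle) :=
        (AddCircle.continuous_mk' 1).comp hclc
      exact this.continuousOn.congr fun z hz => by simp only [hf, if_pos hz.1]
    · exact continuousOn_const.congr fun z hz => hout z hz.1 hz.2
  obtain ⟨B, hB⟩ := hKc.isBounded.exists_norm_le
  obtain ⟨g, hg, hgf, hg0⟩ := exists_lift R hdim f hfc (max B 0 + 1) (by positivity)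
    fun z _ h => by
      have : z ∉ K := fun hk => by linarith [hB z hk, norm_snd_le z, le_max_left B 0]
      simp only [hf, if_neg this]
  have hint : ∀ a b : ℝ, (a : UnitAddCircle) = (b : UnitAddCircle) → ∃ k : ℤ, a = k + b :=
    fun a b h => by
      have h1 : ((a - b : ℝ) : UnitAddCircle) = 0 := by rw [AddCircle.coe_sub, h, sub_self]
      obtain ⟨k, hk⟩ := (AddCircle.coe_eq_zero_iff _).1 h1
      exact ⟨k, by simp at hk; linarith⟩
  have hK0 : z0 ∈ K := Metric.self_subset_cthickening _ hz0S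
  obtain ⟨j, hj⟩ := hint (g z0) (cl z0) (by rw [hgf z0 hz0]; simp only [hf, if_pos hK0])
  have hcl0 : cl z0 = 1 / 2 := by
    simp only [hcl, h0]
    norm_num
  refine ⟨g, η, _, j, hg, hη, hg0, by rw [hj, hcl0], fun z hz h1 h2 => ?_⟩
  have hni : ∀ k : ℤ, g z ≠ k := fun k hk => by
    rw [hk] at h1 h2
    have a1 : j < k := by exact_mod_cast h1
    have a2 : k < j + 1 := by exact_mod_cast h2
    omega
  have hk : z ∈ K := by
    by_contra hk
    obtain ⟨k, hk'⟩ := hint (g z) 0 (by rw [hgf z hz]; simp [hf, if_neg hk])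
    exact hni k (by simpa using hk')
  obtain ⟨k, hk'⟩ := hint (g z) (cl z) (by rw [hgf z hz]; simp only [hf, if_pos hk])
  have hlt : |H1 z| < η := by
    by_contra hge
    rcases hclz z (not_lt.1 hge) with h | h
    · exact hni k (by rw [hk', h, add_zero])
    · exact hni (k + 1) (by rw [hk', h]; push_cast; ring)
  obtain ⟨b1, b2⟩ := abs_lt.1 hlt
  have c1 : -1 < H1 z / η := by rw [lt_div_iff₀ hη]; linarith
  have c2 : H1 z / η < 1 := (div_lt_one hη).2 b2
  have e : cl z = (H1 z / η + 1) / 2 := by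
    simp only [hcl]
    rw [min_eq_right (by linarith), max_eq_right (by linarith)]
  have hkj : k = j := by
    have a1 : (j : ℝ) < k + 1 := by linarith
    have a2 : (k : ℝ) < j + 1 := by linarith
    have a3 : j < k + 1 := by exact_mod_cast a1
    have a4 : k < j + 1 := by exact_mod_cast a2
    omega
  refine ⟨hKO hk, ?_⟩
  rw [hk', hkj, e]
  field_simp
  ring

/-- A smooth function whose zero level is a part of the level of H1 that bounds a compact side. -/
lemma exists_side (R : Ret E) (hdim : ∀ x ∈ R.S, 2 ≤ R.rk x) (H1 : E × E → ℝ)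
    (hH : ContDiff ℝ ∞ H1) (S O : Set (E × E)) (hS : IsCompact S) (hO : IsOpen O) (hSO : S ⊆ O)
    (hzero : ∀ z ∈ Cot R.S, z ∈ O → H1 z = 0 → z ∈ S) (z0 : E × E) (hz0 : z0 ∈ Cot R.S)
    (hz0S : z0 ∈ S) (h0 : H1 z0 = 0) :
    ∃ G : E × E → ℝ, ContDiff ℝ ∞ G ∧ G z0 = 0 ∧
      (IsCompact {z | z ∈ Cot R.S ∧ G z ≤ 0} ∨ IsCompact {z | z ∈ Cot R.S ∧ -G z ≤ 0}) ∧
      ∀ z ∈ Cot R.S, G z = 0 → z ∈ S ∧ ∀ᶠ y in 𝓝 z, y ∈ Cot R.S → G y = H1 y := by
  obtain ⟨g, η, Rb, j, hg, hη, hg0, hj, hmid⟩ :=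
    exists_height R hdim H1 hH.continuous S O hS hO hSO hzero z0 hz0 hz0S h0
  have hcv : ∀ (p : Prop) (s : Set ℝ), Convex ℝ s → Convex ℝ {v : ℝ | p → v ∈ s} :=
    fun p s hs => by
      by_cases h : p
      · simpa [h] using hs
      · simpa [h] using convex_univ
  have hev : ∀ x ∈ Cot R.S, ∀ U : Set ℝ, IsOpen U → g x ∈ U →
      ∀ᶠ y in 𝓝 x, y ∈ Cot R.S → g y ∈ U := fun x hx U hU h =>
    eventually_nhdsWithin_iff.1 ((hg x hx).eventually (hU.mem_nhds h))
  obtain ⟨G, hG⟩ := exists_contMDiffMap_forall_mem_convex_of_local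
    (modelWithCornersSelf ℝ (E × E)) (n := ⊤)
    (t := fun y => {v : ℝ | y ∈ Cot R.S ∧ g y < j + 1 / 4 → v ∈ Iio 0} ∩
      ({v : ℝ | y ∈ Cot R.S ∧ j + 3 / 4 < g y → v ∈ Ioi 0} ∩
      {v : ℝ | y ∈ Cot R.S ∧ (j + 1 / 4 ≤ g y ∧ g y ≤ j + 3 / 4) → v ∈ ({H1 y} : Set ℝ)}))
    (fun y => (hcv _ _ (convex_Iio _)).inter
      ((hcv _ _ (convex_Ioi _)).inter (hcv _ _ (convex_singleton _)))) (fun x => by
      by_cases hx : x ∈ Cot R.S
      swap
      · exact ⟨(Cot R.S)ᶜ, R.hat.closed.isOpen_compl.mem_nhds hx, fun _ => 0, contMDiffOn_const,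
          fun y hy => ⟨fun h => absurd h.1 hy, fun h => absurd h.1 hy, fun h => absurd h.1 hy⟩⟩
      by_cases h1 : g x < j + 1 / 4
      · refine ⟨_, hev x hx _ isOpen_Iio h1, fun _ => -1, contMDiffOn_const,
          fun y hy => ⟨fun _ => by norm_num, fun h => ?_, fun h => ?_⟩⟩
        · exact absurd (hy h.1) (by simp only [mem_Iio]; linarith [h.2])
        · exact absurd (hy h.1) (by simp only [mem_Iio]; linarith [h.2.1])
      by_cases h2 : j + 3 / 4 < g x
      · refine ⟨_, hev x hx _ isOpen_Ioi h2, fun _ => 1, contMDiffOn_const,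
          fun y hy => ⟨fun h => ?_, fun _ => by norm_num, fun h => ?_⟩⟩
        · exact absurd (hy h.1) (by simp only [mem_Ioi]; linarith [h.2])
        · exact absurd (hy h.1) (by simp only [mem_Ioi]; linarith [h.2.2])
      refine ⟨_, hev x hx (Ioo (j : ℝ) (j + 1)) isOpen_Ioo ⟨by linarith, by linarith⟩, H1,
        hH.contMDiff.contMDiffOn, fun y hy => ⟨fun h => ?_, fun h => ?_, fun _ => rfl⟩⟩
      · rw [mem_Iio, (hmid y h.1 (hy h.1).1 (hy h.1).2).2]
        exact mul_neg_of_pos_of_neg hη (by linarith [h.2])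
      · rw [mem_Ioi, (hmid y h.1 (hy h.1).1 (hy h.1).2).2]
        exact mul_pos hη (by linarith [h.2]))
  have hGs : ContDiff ℝ ∞ G := G.contMDiff.contDiff
  have hlo : ∀ y ∈ Cot R.S, g y < j + 1 / 4 → G y < 0 := fun y hy h => (hG y).1 ⟨hy, h⟩
  have hhi : ∀ y ∈ Cot R.S, j + 3 / 4 < g y → 0 < G y := fun y hy h => (hG y).2.1 ⟨hy, h⟩
  have hmi : ∀ y ∈ Cot R.S, j + 1 / 4 ≤ g y → g y ≤ j + 3 / 4 → G y = H1 y :=
    fun y hy h h' => (hG y).2.2 ⟨hy, h, h'⟩
  have hcomp : ∀ F : E × E → ℝ, Continuous F → (∀ y ∈ Cot R.S, g y = 0 → 0 < F y) →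
      IsCompact {z | z ∈ Cot R.S ∧ F z ≤ 0} := fun F hF h =>
    (R.compact.prod (isCompact_closedBall (0 : E) Rb)).of_isClosed_subset
      (R.hat.closed.inter (isClosed_le hF continuous_const)) fun z hz => ⟨hz.1.1, by
        rw [mem_closedBall_zero_iff]
        by_contra hcon
        exact absurd hz.2 (not_le.2 (h z hz.1 (hg0 z hz.1 (not_le.1 hcon).le)))⟩
  refine ⟨G, hGs, by rw [hmi z0 hz0 (by linarith) (by linarith), h0], ?_, fun z hz h => ?_⟩
  · rcases lt_or_ge j 0 with h | h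
    · have : (j : ℝ) + 1 ≤ 0 := by exact_mod_cast Int.add_one_le_of_lt h
      exact Or.inl (hcomp G hGs.continuous fun y hy e => hhi y hy (by linarith))
    · have : (0 : ℝ) ≤ j := by exact_mod_cast h
      exact Or.inr (hcomp (fun z => -G z) hGs.continuous.neg fun y hy e =>
        neg_pos.2 (hlo y hy (by linarith)))
  · have a1 : j + 1 / 4 ≤ g z := not_lt.1 fun h' => (hlo z hz h').ne h
    have a2 : g z ≤ j + 3 / 4 := not_lt.1 fun h' => (hhi z hz h').ne' h
    have a3 : H1 z = 0 := by rw [← hmi z hz a1 a2, h]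
    obtain ⟨a4, a5⟩ := hmid z hz (by linarith) (by linarith)
    have a6 : 2 * (g z - j) - 1 = 0 := by
      rw [a3] at a5
      exact (mul_eq_zero.1 a5.symm).resolve_left hη.ne'
    refine ⟨hzero z hz a4 a3, ?_⟩
    filter_upwards [hev z hz (Ioo ((j : ℝ) + 1 / 4) (j + 3 / 4)) isOpen_Ioo
      ⟨by linarith, by linarith⟩] with y hy hyS
    exact hmi y hyS (hy hyS).1.le (hy hyS).2.le

theorem general (N : Set E) (hN : IsSubmanifold N) (hc : IsCompact N) (hp : IsPathConnected N)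
    (γ : C(UnitAddCircle, N)) (hγ : ¬ γ.Nullhomotopic)
    (H : E × E → ℝ) (hH : ContDiff ℝ ∞ H) (c : ℝ) (hne : ∃ z ∈ Cot N, H z = c)
    (hS : IsCompact {z | z ∈ Cot N ∧ H z = c})
    (Y : E × E → E × E) (hY : ContDiff ℝ ∞ Y) (β : E × E → ℝ) (hβ : ContDiff ℝ ∞ β)
    (θ : E → E) (hθ : ContDiff ℝ ∞ θ)
    (hcl : ∀ x ∈ N, ∀ u ∈ Tan N x, ∀ v ∈ Tan N x,
      ⟪fderiv ℝ θ x u, v⟫_ℝ = ⟪fderiv ℝ θ x v, u⟫_ℝ)
    (W : Set (E × E)) (hW : IsOpen W) (hSW : ∀ z ∈ Cot N, H z = c → z ∈ W)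
    (hL : ∀ z ∈ Cot N, z ∈ W → Y z ∈ Tan (Cot N) z ∧
      ∀ v ∈ Tan (Cot N) z, omega (Y z) v = ⟪z.2 + θ z.1, v.1⟫_ℝ + fderiv ℝ β z v)
    (htr : ∀ z ∈ Cot N, H z = c → fderiv ℝ H z (Y z) ≠ 0) :
    ∃ (z : ℝ → E × E) (T : ℝ), IsOrbit N H z ∧ 0 < T ∧ (∀ t, z (t + T) = z t) ∧
      ∀ t, H (z t) = c := by
  obtain ⟨R, hR⟩ := exists_ret N hN hc
  subst hR
  obtain ⟨n, hn⟩ := R.rk_const hp
  by_cases h2 : n ≤ 1
  · exact dim_one R (fun x hx => (hn x hx).le.trans h2) H hH c hne hS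
      fun z hz h => ⟨Y z, (hL z hz (hSW z hz h)).1, htr z hz h⟩
  have hdim : ∀ x ∈ R.S, 2 ≤ R.rk x := fun x hx => by rw [hn x hx]; omega
  set a : E × E → ℝ := fun z => fderiv ℝ H z (Y z) with ha
  have has : ContDiff ℝ ∞ a := (hH.fderiv_right (m := ∞) (by simp)).clm_apply hY
  obtain ⟨a1, ha1, hle⟩ := hS.exists_forall_le' (f := fun z => |a z|) (a := 0)
    has.continuous.abs.continuousOn fun z hz => abs_pos.2 (htr z hz.1 hz.2)
  set ε : E × E → ℝ := fun z => 2 * Real.smoothTransition (a z / a1 + 1 / 2) - 1 with hε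
  have hεs : ContDiff ℝ ∞ ε :=
    (contDiff_const.mul (Real.smoothTransition.contDiff.comp
      ((has.div_const a1).add contDiff_const))).sub contDiff_const
  have hpos : ∀ z, a1 / 2 < a z → ε z = 1 := fun z h => by
    have : 1 / 2 ≤ a z / a1 := by rw [le_div_iff₀ ha1]; linarith
    simp only [hε]
    rw [Real.smoothTransition.one_of_one_le (by linarith)]
    norm_num
  have hneg : ∀ z, a z < -(a1 / 2) → ε z = -1 := fun z h => by
    have : a z / a1 ≤ -(1 / 2) := by rw [div_le_iff₀ ha1]; linarith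
    simp only [hε]
    rw [Real.smoothTransition.zero_of_nonpos (by linarith)]
    norm_num
  obtain ⟨z0, hz0, hz0c⟩ := hne
  obtain ⟨G, hG, hG0, hcomp, hloc⟩ := exists_side R hdim (fun z => ε z * (H z - c))
    (hεs.mul (hH.sub contDiff_const)) _ {z | a1 / 2 < |a z|} hS
    (isOpen_lt continuous_const has.continuous.abs)
    (fun z hz => lt_of_lt_of_le (half_lt_self ha1) (hle z hz))
    (fun z hz hO h => ⟨hz, by
      rcases lt_abs.1 (show a1 / 2 < |a z| from hO) with h' | h'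
      · rw [hpos z h'] at h
        linarith
      · rw [hneg z (by linarith)] at h
        linarith⟩) z0 hz0 ⟨hz0, hz0c⟩ (by simp [hz0c])
  have hHd : Differentiable ℝ H := hH.differentiable (by simp)
  have hGd : Differentiable ℝ G := hG.differentiable (by simp)
  have hkey : ∀ σ : ℝ, ∀ z ∈ Cot R.S, G z = 0 → (∀ᶠ y in 𝓝 z, ε y = σ) →
      ∀ v ∈ Tan (Cot R.S) z, fderiv ℝ G z v = σ * fderiv ℝ H z v := fun σ z hz h he v hv => by
    have h1 : HasFDerivAt (fun y => σ * (H y - c)) (σ • fderiv ℝ H z) z :=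
      ((hHd z).hasFDerivAt.sub_const c).const_mul σ
    have h3 := Tan.fderiv_congr hv (hGd z) h1.differentiableAt (by
      filter_upwards [(hloc z hz h).2, he] with y hy1 hy2 hyS
      rw [hy1 hyS, hy2])
    rw [h3, h1.fderiv]
    rfl
  have hp1 : ∀ z ∈ Cot R.S, G z = 0 → 0 < a z → ∀ᶠ y in 𝓝 z, ε y = 1 := fun z hz h h' => by
    have h1 := hle z (hloc z hz h).1
    rw [abs_of_pos h'] at h1
    filter_upwards [has.continuous.continuousAt.eventually
      (lt_mem_nhds (show a1 / 2 < a z by linarith))] with y hy using hpos y hy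
  have hn1 : ∀ z ∈ Cot R.S, G z = 0 → a z < 0 → ∀ᶠ y in 𝓝 z, ε y = -1 := fun z hz h h' => by
    have h1 := hle z (hloc z hz h).1
    rw [abs_of_neg h'] at h1
    filter_upwards [has.continuous.continuousAt.eventually
      (gt_mem_nhds (show a z < -(a1 / 2) by linarith))] with y hy using hneg y hy
  have hW' : ∀ z ∈ Cot R.S, G z = 0 → z ∈ W := fun z hz h => hSW z hz (hloc z hz h).1.2
  have hout : ∀ z ∈ Cot R.S, G z = 0 → 0 < fderiv ℝ G z (Y z) := fun z hz h => by
    have ht := (hL z hz (hW' z hz h)).1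
    rcases lt_or_gt_of_ne (htr z hz (hloc z hz h).1.2) with h' | h'
    · rw [hkey (-1) z hz h (hn1 z hz h h') _ ht]
      linarith
    · rw [hkey 1 z hz h (hp1 z hz h h') _ ht]
      linarith
  rcases hcomp with hV | hV
  · obtain ⟨z, T, hz, hT, hper, hlev⟩ := main R.S hN hc hp γ hγ G hG 0 ⟨z0, hz0, hG0⟩ hV Y hY β hβ
      θ hθ hcl W hW hW' hL hout
    have hzc : Continuous z := continuous_iff_continuousAt.2 fun t => by
      obtain ⟨v, hv, -⟩ := (hz t).2
      exact hv.continuousAt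
    have hH0 : ∀ t, H (z t) = c := fun t => (hloc _ (hz t).1 (hlev t)).1.2
    have hne0 : ∀ t, a (z t) ≠ 0 := fun t => htr _ (hz t).1 (hH0 t)
    have hac : Continuous fun t => a (z t) := has.continuous.comp hzc
    rcases lt_or_gt_of_ne (hne0 0) with h' | h'
    · have hall : ∀ t, a (z t) < 0 := fun t => by
        by_contra hcon
        obtain ⟨s, hs⟩ := intermediate_value_univ 0 t hac ⟨h'.le, not_lt.1 hcon⟩
        exact hne0 s hs
      refine ⟨fun t => z (-t), T, fun t => ⟨(hz _).1, ?_⟩, hT, fun t => ?_, fun t => hH0 _⟩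
      · obtain ⟨v, hv, ho⟩ := (hz (-t)).2
        refine ⟨(-1 : ℝ) • v, hv.scomp t (hasDerivAt_neg t), fun u hu => ?_⟩
        rw [omega_smul_left, ho u hu,
          hkey (-1) _ (hz _).1 (hlev _) (hn1 _ (hz _).1 (hlev _) (hall _)) u hu]
        ring
      · have := hper (-(t + T))
        simp only [neg_add_rev, neg_add_cancel_comm] at this ⊢
        exact this.symm
    · have hall : ∀ t, 0 < a (z t) := fun t => by
        by_contra hcon
        obtain ⟨s, hs⟩ := intermediate_value_univ t 0 hac ⟨not_lt.1 hcon, h'.le⟩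
        exact hne0 s hs
      refine ⟨z, T, fun t => ⟨(hz _).1, ?_⟩, hT, hper, hH0⟩
      obtain ⟨v, hv, ho⟩ := (hz t).2
      refine ⟨v, hv, fun u hu => ?_⟩
      rw [ho u hu, hkey 1 _ (hz _).1 (hlev _) (hp1 _ (hz _).1 (hlev _) (hall _)) u hu, one_mul]
  · exfalso
    refine not_inward R n (by omega) hn (fun z => -G z) hG.neg 0 ?_ hV Y hY β hβ θ hθ hcl W hW
      (fun z hz h => hW' z hz (neg_eq_zero.1 h)) hL fun z hz h => ?_
    · by_contra hcon
      push Not at hcon
      have h1 := Tan.fderiv_eq_zero (hL z0 hz0 (hW' z0 hz0 hG0)).1 (hGd z0)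
        (Or.inr (Eventually.of_forall fun y hy => by linarith [hcon y hy]))
      exact (hout z0 hz0 hG0).ne' h1
    · rw [fderiv_fun_neg]
      exact neg_lt_zero.2 (hout z hz (neg_eq_zero.1 h))

end Pool.Agent.Wein
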