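import Mathlib
import Pool.Agent.P.MP_e3ee0c_gt.WRet
import Pool.Agent.P.MP_e3ee0c_gt.WIF
import Pool.Agent.K.MP_e3ee0c_gt.C1
import Pool.Agent.K.MP_e3ee0c_gt.C0

-- part Pool.Agent.P.MP_e3ee0c_gt.TLin
section

/-! Circle bundles with a connection: the descent of covectors. -/

open Set Filter Topology
open scoped ContDiff InnerProductSpace

namespace Pool.Agent.Wein

variable {E E' : Type} [NormedAddCommGroup E] [InnerProductSpace ℝ E] [FiniteDimensional ℝ E]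
  [NormedAddCommGroup E'] [InnerProductSpace ℝ E'] [FiniteDimensional ℝ E']

/-- The transpose as a continuous linear map. -/
theorem exists_adj : ∃ adj : (E' →L[ℝ] E) →L[ℝ] (E →L[ℝ] E'),
    ∀ A q u, ⟪adj A q, u⟫_ℝ = ⟪q, A u⟫_ℝ := by
  have := FiniteDimensional.complete ℝ E
  have := FiniteDimensional.complete ℝ E'
  let f : (E' →L[ℝ] E) →ₗ[ℝ] (E →L[ℝ] E') :=
    { toFun := fun A => ContinuousLinearMap.adjoint A
      map_add' := fun A B => map_add _ A B
      map_smul' := fun c A => by simp }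
  exact ⟨LinearMap.toContinuousLinearMap f, fun A q u =>
    ContinuousLinearMap.adjoint_inner_left A u q⟩

/-- A circle bundle with the vertical field ξ, the connection form α and the curvature b. -/
structure Bun (RP : Ret E') (RN : Ret E) (π : E' → E) (ξ α : E' → E')
    (b : E → E →L[ℝ] E →L[ℝ] ℝ) : Prop where
  πs : ContDiff ℝ ∞ π
  ξs : ContDiff ℝ ∞ ξ
  αs : ContDiff ℝ ∞ α
  bs : ContDiff ℝ ∞ b
  maps : ∀ x ∈ RP.S, π x ∈ RN.S
  onto : ∀ y ∈ RN.S, ∃ x ∈ RP.S, π x = y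
  sub : ∀ x ∈ RP.S, ∀ w, RN.P (π x) w = w → ∃ u, RP.P x u = u ∧ fderiv ℝ π x u = w
  ξt : ∀ x ∈ RP.S, RP.P x (ξ x) = ξ x
  ξk : ∀ x ∈ RP.S, fderiv ℝ π x (ξ x) = 0
  ker : ∀ x ∈ RP.S, ∀ u, RP.P x u = u → fderiv ℝ π x u = 0 → ∃ a : ℝ, u = a • ξ x
  one : ∀ x ∈ RP.S, ⟪α x, ξ x⟫_ℝ = 1
  curv : ∀ x ∈ RP.S, ∀ u v, RP.P x u = u → RP.P x v = v →
    ⟪fderiv ℝ α x u, v⟫_ℝ - ⟪fderiv ℝ α x v, u⟫_ℝ =
      b (π x) (fderiv ℝ π x u) (fderiv ℝ π x v)

namespace Bun

variable {RP : Ret E'} {RN : Ret E} {π : E' → E} {ξ α : E' → E'} {b : E → E →L[ℝ] E →L[ℝ] ℝ}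
  (B : Bun RP RN π ξ α b)

include B

omit [FiniteDimensional ℝ E] [FiniteDimensional ℝ E'] in
lemma Ds : ContDiff ℝ ∞ (fderiv ℝ π) := B.πs.fderiv_right (m := ∞) (by simp)

omit [FiniteDimensional ℝ E] [FiniteDimensional ℝ E'] in
lemma Dt {x u : E'} (hx : x ∈ RP.S) (hu : RP.P x u = u) :
    RN.P (π x) (fderiv ℝ π x u) = fderiv ℝ π x u :=
  (RN.mem_tan (B.maps x hx) _).1 (Tan.map ((RP.mem_tan hx u).2 hu)
    (B.πs.differentiable (by simp) x) (Eventually.of_forall B.maps))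

omit [FiniteDimensional ℝ E] [FiniteDimensional ℝ E'] in
lemma skew {y u : E} (hy : y ∈ RN.S) (hu : RN.P y u = u) : b y u u = 0 := by
  obtain ⟨x, hx, rfl⟩ := B.onto y hy
  obtain ⟨v, hv, rfl⟩ := B.sub x hx u hu
  rw [← B.curv x hx v v hv hv, sub_self]

omit [FiniteDimensional ℝ E] [FiniteDimensional ℝ E'] in
lemma ext {x : E'} (hx : x ∈ RP.S) {q q' : E} (hq : RN.P (π x) q = q) (hq' : RN.P (π x) q' = q')
    (h : ∀ u, RP.P x u = u → ⟪q, fderiv ℝ π x u⟫_ℝ = ⟪q', fderiv ℝ π x u⟫_ℝ) : q = q' := by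
  obtain ⟨u, hu, e⟩ := B.sub x hx (q - q') (by rw [map_sub, hq, hq'])
  have := h u hu
  rw [e, ← sub_eq_zero, ← inner_sub_left, inner_self_eq_zero] at this
  exact sub_eq_zero.1 this

/-- Covectors that kill the vertical field descend smoothly. -/
theorem exists_L : ∃ L : E' → E' →L[ℝ] E, ContDiff ℝ ∞ L ∧ ∀ x ∈ RP.S, ∀ c,
    RN.P (π x) (L x c) = L x c ∧
    (⟪c, ξ x⟫_ℝ = 0 → ∀ u, RP.P x u = u → ⟪L x c, fderiv ℝ π x u⟫_ℝ = ⟪c, u⟫_ℝ) := by
  have := FiniteDimensional.complete ℝ E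
  obtain ⟨adj, hadj⟩ := exists_adj (E := E) (E' := E')
  set A : E' → E' →L[ℝ] E := fun x => ((RN.P (π x)).comp (fderiv ℝ π x)).comp (RP.P x) with hA
  have hPs : ContDiff ℝ ∞ fun x => RN.P (π x) := RN.P_smooth.comp B.πs
  have hAs : ContDiff ℝ ∞ A := (hPs.clm_comp B.Ds).clm_comp RP.P_smooth
  set G : E' → E →L[ℝ] E := fun x => (A x).comp (adj (fderiv ℝ π x)) + (1 - RN.P (π x)) with hG
  have hGs : ContDiff ℝ ∞ G :=
    (hAs.clm_comp (adj.contDiff.comp B.Ds)).add (contDiff_const.sub hPs)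
  have hAe : ∀ x ∈ RP.S, ∀ c, A x c = fderiv ℝ π x (RP.P x c) := fun x hx c =>
    B.Dt hx (RP.P_idem hx c)
  have hGe : ∀ x ∈ RP.S, ∀ v, G x v =
      fderiv ℝ π x (RP.P x (adj (fderiv ℝ π x) v)) + (v - RN.P (π x) v) := fun x hx v => by
    rw [← hAe x hx]
    rfl
  have htan : ∀ x ∈ RP.S, ∀ v, RN.P (π x) (G x v) = G x v → RN.P (π x) v = v := fun x hx v h => by
    rw [hGe x hx, map_add, B.Dt hx (RP.P_idem hx _), map_sub, RN.P_idem (B.maps x hx), sub_self,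
      add_right_inj, eq_comm, sub_eq_zero] at h
    exact h.symm
  have hu : ∀ x ∈ RP.S, IsUnit (G x) := fun x hx => by
    have hi : Function.Injective (G x) := by
      rw [injective_iff_map_eq_zero]
      intro v hv
      have h1 := htan x hx v (by rw [hv, map_zero])
      rw [hGe x hx, h1, sub_self, add_zero] at hv
      have h2 : RP.P x (adj (fderiv ℝ π x) v) = 0 := by
        rw [← inner_self_eq_zero (𝕜 := ℝ), RP.P_symm hx, RP.P_idem hx, hadj, hv, inner_zero_right]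
      refine B.ext hx h1 (map_zero _) fun u hu => ?_
      rw [← hadj, ← hu, ← RP.P_symm hx, h2, inner_zero_left, inner_zero_left]
    exact ContinuousLinearMap.isUnit_iff_bijective.2
      ⟨hi, (LinearMap.injective_iff_surjective (f := (G x : E →ₗ[ℝ] E))).1 hi⟩
  have hO : IsOpen {x | IsUnit (G x)} := Units.isOpen.preimage hGs.continuous
  obtain ⟨χ, hχ, -, hχs, -, hχ1⟩ := exists_bump RP.S _ RP.compact hO hu
  have hI : ContDiffOn ℝ ∞ (fun x => (Ring.inverse (G x)).comp (A x)) {x | IsUnit (G x)} := by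
    refine ContDiffOn.clm_comp (fun x hx => ?_) hAs.contDiffOn
    obtain ⟨g, hg⟩ := hx
    have h1 : ContDiffAt ℝ ∞ Ring.inverse (G x) := hg ▸ contDiffAt_ringInverse ℝ g
    exact (h1.comp x hGs.contDiffAt).contDiffWithinAt
  refine ⟨_, contDiff_smul_cut _ hO χ hχ hχs _ hI, fun x hx c => ?_⟩
  simp only [hχ1.self_of_nhdsSet x hx, one_smul, ContinuousLinearMap.comp_apply]
  set q := Ring.inverse (G x) (A x c) with hq
  have h1 : G x q = A x c := by
    have := congrArg (fun M : E →L[ℝ] E => M (A x c)) (Ring.mul_inverse_cancel _ (hu x hx))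
    exact this
  have h2 : RN.P (π x) q = q := htan x hx q (by rw [h1, hAe x hx, B.Dt hx (RP.P_idem hx _)])
  refine ⟨h2, fun hc u hu' => ?_⟩
  rw [hGe x hx, h2, sub_self, add_zero, hAe x hx, ← sub_eq_zero, ← map_sub, ← map_sub] at h1
  obtain ⟨a, ha⟩ := B.ker x hx _ (RP.P_idem hx _) h1
  have h3 : a = 0 := by
    have h4 := congrArg (fun v => ⟪v, ξ x⟫_ℝ) ha
    simp only [RP.P_symm hx, B.ξt x hx, inner_sub_left, hadj, B.ξk x hx, inner_zero_right, hc,
      sub_self, inner_smul_left, conj_trivial] at h4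
    refine (mul_eq_zero.1 h4.symm).resolve_right fun h5 => ?_
    have h6 := B.one x hx
    rw [inner_self_eq_zero.1 h5, inner_zero_right] at h6
    exact zero_ne_one h6
  have h4 := congrArg (fun v => ⟪v, u⟫_ℝ) ha
  simp only [RP.P_symm hx, hu', inner_sub_left, hadj, h3, zero_smul, inner_zero_left] at h4
  linarith

end Bun

end Pool.Agent.Wein
end

-- part Pool.Agent.P.MP_e3ee0c_gt.XDefs
section

/-! Families of chains cut out by equations: definitions and algebra. -/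

open Set Filter Topology
open scoped ContDiff InnerProductSpace

namespace Pool.Agent.Wein

variable {E : Type} [NormedAddCommGroup E] [InnerProductSpace ℝ E]

/-- Parameters: variables for the equations, and variables for the letters. -/
abbrev Pm (E : Type) : Type := (ℕ → E × ℝ) × (ℕ → E)

def sh (k M : ℕ) (v : Pm E) : Pm E := (fun i => v.1 (k + i), fun i => v.2 (M + i))

/-- A family of chains with M letters on a domain, cut out by k equations. -/
structure Vc (E : Type) where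
  k : ℕ
  M : ℕ
  Ω : Set (Pm E)
  q : Pm E → ℕ → E × ℝ
  c : Pm E → Ch E

section Alg

omit [NormedAddCommGroup E] [InnerProductSpace ℝ E]

lemma sh_sh (k M k' M' : ℕ) (v : Pm E) : sh k' M' (sh k M v) = sh (k + k') (M + M') v := by
  simp only [sh, add_assoc]

lemma Vc.ext' {α β : Vc E} (h1 : α.k = β.k) (h2 : α.M = β.M) (h3 : α.Ω = β.Ω) (h4 : α.q = β.q)
    (h5 : α.c = β.c) : α = β := by
  cases α; cases β; simp_all

def Vc.mul (α β : Vc E) : Vc E where
  k := α.k + β.k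
  M := α.M + β.M
  Ω := {v | v ∈ α.Ω ∧ sh α.k α.M v ∈ β.Ω}
  q v i := if i < α.k then α.q v i else β.q (sh α.k α.M v) (i - α.k)
  c v := cat α.M (α.c v) (β.c (sh α.k α.M v))

instance : Semigroup (Vc E) where
  mul := Vc.mul
  mul_assoc α β γ := by
    refine Vc.ext' (add_assoc _ _ _) (add_assoc _ _ _) ?_ ?_ ?_
    · ext v
      change (v ∈ α.Ω ∧ sh α.k α.M v ∈ β.Ω) ∧ sh (α.k + β.k) (α.M + β.M) v ∈ γ.Ω ↔
        v ∈ α.Ω ∧ sh α.k α.M v ∈ β.Ω ∧ sh β.k β.M (sh α.k α.M v) ∈ γ.Ω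
      rw [sh_sh, and_assoc]
    · funext v i
      change (if i < α.k + β.k then (if i < α.k then α.q v i else β.q (sh α.k α.M v) (i - α.k))
          else γ.q (sh (α.k + β.k) (α.M + β.M) v) (i - (α.k + β.k))) =
        if i < α.k then α.q v i else (if i - α.k < β.k then β.q (sh α.k α.M v) (i - α.k)
          else γ.q (sh β.k β.M (sh α.k α.M v)) (i - α.k - β.k))
      rw [sh_sh, Nat.sub_sub]
      split_ifs <;> first | rfl | omega
    · funext v i
      change cat (α.M + β.M) (cat α.M (α.c v) (β.c (sh α.k α.M v)))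
          (γ.c (sh (α.k + β.k) (α.M + β.M) v)) i =
        cat α.M (α.c v) (cat β.M (β.c (sh α.k α.M v)) (γ.c (sh β.k β.M (sh α.k α.M v)))) i
      rw [sh_sh]
      simp only [cat, Nat.sub_sub]
      split_ifs <;> first | rfl | omega

lemma Vc.mul_k (α β : Vc E) : (α * β).k = α.k + β.k := rfl

lemma Vc.mul_M (α β : Vc E) : (α * β).M = α.M + β.M := rfl

lemma Vc.mem_mul {α β : Vc E} {v : Pm E} :
    v ∈ (α * β).Ω ↔ v ∈ α.Ω ∧ sh α.k α.M v ∈ β.Ω := Iff.rfl

lemma Vc.mul_q (α β : Vc E) (v : Pm E) (i : ℕ) :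
    (α * β).q v i = if i < α.k then α.q v i else β.q (sh α.k α.M v) (i - α.k) := rfl

lemma Vc.mul_c (α β : Vc E) (v : Pm E) :
    (α * β).c v = cat α.M (α.c v) (β.c (sh α.k α.M v)) := rfl

open Classical in
/-- The family that is α on O and β off O. -/
noncomputable def Vc.uni (O : Set (Pm E)) (α β : Vc E) : Vc E where
  k := α.k
  M := α.M
  Ω := {v | (v ∈ O ∧ v ∈ α.Ω) ∨ (v ∉ O ∧ v ∈ β.Ω)}
  q v := if v ∈ O then α.q v else β.q v
  c v := if v ∈ O then α.c v else β.c v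

lemma Vc.mul_uni (O : Set (Pm E)) (γ α β : Vc E) :
    γ * Vc.uni O α β = Vc.uni (sh γ.k γ.M ⁻¹' O) (γ * α) (γ * β) := by
  refine Vc.ext' rfl rfl ?_ ?_ ?_
  · ext v
    simp only [Vc.mem_mul, Vc.uni, mem_ofPred_eq, mem_preimage]
    tauto
  · funext v i
    by_cases h : sh γ.k γ.M v ∈ O <;> simp [Vc.mul_q, Vc.uni, h]
  · funext v
    by_cases h : sh γ.k γ.M v ∈ O <;> simp [Vc.mul_c, Vc.uni, h]

lemma Vc.uni_mul (O : Set (Pm E)) {α β : Vc E} (hk : β.k = α.k) (hM : β.M = α.M) (γ : Vc E) :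
    Vc.uni O α β * γ = Vc.uni O (α * γ) (β * γ) := by
  refine Vc.ext' rfl rfl ?_ ?_ ?_
  · ext v
    simp only [Vc.mem_mul, Vc.uni, mem_ofPred_eq, hk, hM]
    tauto
  · funext v i
    by_cases h : v ∈ O <;> simp [Vc.mul_q, Vc.uni, h, hk, hM]
  · funext v
    by_cases h : v ∈ O <;> simp [Vc.mul_c, Vc.uni, h, hk, hM]

end Alg

omit [InnerProductSpace ℝ E] in
lemma sh_cont (k M : ℕ) : Continuous (sh k M : Pm E → Pm E) := by
  unfold sh
  fun_prop

/-- The solutions of the equations. -/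
def Vc.Zs (α : Vc E) : Set (Pm E) := {v | v ∈ α.Ω ∧ ∀ i < α.k, α.q v i = 0}

omit [InnerProductSpace ℝ E] in
lemma Vc.mem_Zs_mul {α β : Vc E} {v : Pm E} :
    v ∈ (α * β).Zs ↔ v ∈ α.Zs ∧ sh α.k α.M v ∈ β.Zs := by
  constructor
  · rintro ⟨⟨h1, h2⟩, h3⟩
    refine ⟨⟨h1, fun i hi => ?_⟩, h2, fun i hi => ?_⟩
    · have := h3 i (by rw [Vc.mul_k]; omega)
      rwa [Vc.mul_q, if_pos hi] at this
    · have := h3 (α.k + i) (by rw [Vc.mul_k]; omega)
      rwa [Vc.mul_q, if_neg (by omega), Nat.add_sub_cancel_left] at this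
  · rintro ⟨⟨h1, h3⟩, h2, h4⟩
    refine ⟨⟨h1, h2⟩, fun i hi => ?_⟩
    rw [Vc.mul_k] at hi
    rw [Vc.mul_q]
    split_ifs with h
    exacts [h3 i h, h4 _ (by omega)]

/-- The total domain of a family over W. -/
def dom {W : Type} (σ : W → Vc E) : Set (W × Pm E) := {p | p.2 ∈ (σ p.1).Ω}

/-- The total set of solutions of a family over W. -/
def zer {W : Type} (σ : W → Vc E) : Set (W × Pm E) := {p | p.2 ∈ (σ p.1).Zs}

namespace Sys

variable (S : Sys E)

/-- The unit over the polygon p, with k trivial equations. -/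
noncomputable def nrm (k M : ℕ) (p : ℕ → E) : Vc E :=
  ⟨k, M, univ, fun v => v.1, fun v => S.unit p v.2⟩

/-- The unit over the constant polygon. -/
noncomputable def cst (k M : ℕ) (x : E) : Vc E := S.nrm k M fun _ => x

lemma nrm_mul (k M k' M' : ℕ) (p p' : ℕ → E) : S.nrm k M p * S.nrm k' M' p' =
    S.nrm (k + k') (M + M') fun i => if i < M then p i else p' (i - M) := by
  refine Vc.ext' rfl rfl ?_ ?_ ?_
  · ext v
    simp [Vc.mem_mul, nrm]
  · funext v i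
    simp only [Vc.mul_q, nrm, sh]
    split_ifs with h
    · rfl
    · rw [Nat.add_sub_cancel' (not_lt.1 h)]
  · funext v i
    simp only [Vc.mul_c, nrm, sh, cat, unit]
    split_ifs with h
    · rfl
    · rw [Nat.add_sub_cancel' (not_lt.1 h)]

lemma cst_mul (k M k' M' : ℕ) (x : E) :
    S.cst k M x * S.cst k' M' x = S.cst (k + k') (M + M') x := by
  simp only [cst, nrm_mul, ite_self]

lemma cst_k (k M : ℕ) (x : E) : (S.cst k M x).k = k := rfl

lemma cst_M (k M : ℕ) (x : E) : (S.cst k M x).M = M := rfl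

/-- The solutions whose chain has a value at least ℓ. -/
def top {W : Type} (σ : W → Vc E) (M : ℕ) (ℓ : ℝ) : Set (W × Pm E) :=
  {p | p ∈ zer σ ∧ ℓ ≤ S.Val M ((σ p.1).c p.2)}

/-- A family over W of chains from a to b below the level T whose solutions above the level
T - Δ form a closed set with bounded equation variables. -/
structure Good {W : Type} [TopologicalSpace W] (σ : W → Vc E) (k M : ℕ) (T Δ : ℝ)
    (a b : W → E) : Prop where
  hk : ∀ w, (σ w).k = k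
  hM : ∀ w, (σ w).M = M
  opn : IsOpen (dom σ)
  qc : ∀ i < k, ContinuousOn (fun p : W × Pm E => (σ p.1).q p.2 i) (dom σ)
  cc : ∀ i < M, ContinuousOn (fun p : W × Pm E => (σ p.1).c p.2 i) (dom σ)
  fam : S.IsFam (zer σ) (fun p => p.2.2) M T (fun p => a p.1) (fun p => b p.1)
    (fun p => (σ p.1).c p.2)
  bc : Continuous b
  cls : IsClosed (S.top σ M (T - Δ))
  bdd : ∃ R : ℝ, ∀ p ∈ S.top σ M (T - Δ), ∀ i < k, ‖p.2.1 i‖ ≤ R

/-- All chains over solutions have value at most ℓ. -/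
def Low (α : Vc E) (ℓ : ℝ) : Prop := ∀ v ∈ α.Zs, S.Val α.M (α.c v) ≤ ℓ

/-- A homotopy from α to β of closed chains at x, with domains in O. -/
def Htp (T Δ : ℝ) (x : E) (O : Set (Pm E)) (α β : Vc E) : Prop :=
  ∃ H : ℝ → Vc E, S.Good H α.k α.M T Δ (fun _ => x) (fun _ => x) ∧ (∀ u, (H u).Ω ⊆ O) ∧
    H 0 = α ∧ H 1 = β

/-- The family α can be pushed below the level ℓ. -/
def Kill (T Δ : ℝ) (x : E) (O : Set (Pm E)) (α : Vc E) (ℓ : ℝ) : Prop :=
  ∃ β, S.Htp T Δ x O α β ∧ S.Low β ℓ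

end Sys

open TopAux in
/-- The building blocks of the recursion. -/
structure Kit (S : Sys E) (x : E) (n0 m1 J : ℕ) (T1 T2 T3 ℓ Δ : ℝ) where
  bX : ℝ → E
  bY : ℝ → E
  plus : ℝ → Vc E
  minus : ℝ → Vc E
  mid : ℝ → Vc E
  rev : ℝ → Vc E
  up : ℝ → Vc E
  dn : ℝ → Vc E
  bk : ℝ → Vc E
  O : Set (Pm E)
  bXc : Continuous bX
  bYc : Continuous bY
  bXS : ∀ u, bX u ∈ S.S
  bYS : ∀ u, bY u ∈ S.S
  bX0 : bX 0 = x
  bY0 : bY 0 = x
  bY1 : bY 1 = x
  plus_good : S.Good plus 1 n0 T1 Δ bX bX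
  minus_good : S.Good minus 1 n0 T1 Δ bY bY
  plus_low : S.Low (plus 1) ℓ
  minus_low : S.Low (minus (-1)) ℓ
  minus_one : minus 1 = minus 0
  plus_dom : ∀ u, (plus u).Ω ⊆ O
  minus_dom : ∀ u, (minus u).Ω ⊆ Oᶜ
  mid_good : S.Good mid 1 n0 T1 Δ (fun _ => x) (fun u => bY (clamp u))
  mid_zero : mid 0 = S.cst 1 n0 x
  rev_good : S.Good rev 0 m1 T2 Δ (fun u => bY (clamp u)) (fun _ => x)
  rev_zero : rev 0 = S.cst 0 m1 x
  split : S.Htp T1 Δ x univ (mid 1) (Vc.uni O (plus 0) (minus 0))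
  up_good : S.Good up 0 J T3 Δ (fun _ => x) (fun u => bX (clamp u))
  up_zero : up 0 = S.cst 0 J x
  dn_good : S.Good dn 0 J T3 Δ (fun u => bX (clamp u)) (fun u => bY (-clamp u))
  dn_zero : dn 0 = S.cst 0 J x
  bk_good : S.Good bk 0 J T3 Δ (fun u => bY (-clamp u)) (fun _ => x)
  bk_zero : bk 0 = S.cst 0 J x

end Pool.Agent.Wein
end
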