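import Mathlib
import Pool.Agent.K.MP_e3ee0c_gt.C19
import Pool.Agent.K.MP_e3ee0c_gt.C22
import Pool.Agent.K.MP_e3ee0c_gt.C9
import Pool.Agent.K.MP_e3ee0c_gt.C10
import Pool.Agent.K.MP_e3ee0c_gt.C5
import Pool.Agent.K.MP_e3ee0c_gt.C20
import Pool.Agent.K.MP_e3ee0c_gt.C21

-- part Pool.Agent.P.MP_e3ee0c_gt.XWall
section

/-! Walls, extended families, slices and slots: definitions. -/

open Set Filter Topology
open scoped ContDiff InnerProductSpace

namespace Pool.Agent.Wein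

variable {E : Type} [NormedAddCommGroup E] [InnerProductSpace ℝ E]

lemma Geo.StepLe.mono {G : Geo E} {m : ℕ} [NeZero m] {ρ ρ' : ℝ} {x : Fin m → E}
    (h : G.StepLe ρ x) (hρ : ρ ≤ ρ') : G.StepLe ρ' x := fun i => ⟨(h i).1, (h i).2.trans hρ⟩

namespace Sys

variable (S : Sys E) {m : ℕ} [NeZero m]

/-- The image of the chain under pr is trivial. -/
def Tr (x : Fin m → E) : Prop := S.G0.Triv fun i => S.pr (x i)

lemma stepLe_pr {x : Fin m → E} (h : S.toGeo.StepLe (4 * S.δ) x) :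
    S.G0.StepLe S.G0.δ fun i => S.pr (x i) :=
  fun i => ⟨S.prm _ (h i).1, S.prs _ (h i).1 _ (h (i + 1)).1 (h i).2⟩

omit [NeZero m] in
lemma pr_cont : Continuous fun (x : Fin m → E) (i : Fin m) => S.pr (x i) :=
  continuous_pi fun i => S.prc.comp (continuous_apply i)

lemma tr_open {x : Fin m → E} (hs : S.toGeo.StepLe (3 * S.δ) x) (h : S.Tr x) :
    ∀ᶠ x' in 𝓝 x, S.toGeo.StepLe (3 * S.δ) x' → S.Tr x' := by
  have h0 := S.G0.δpos
  have h1 := S.δpos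
  have k : ∀ y : Fin m → E, S.toGeo.StepLe (3 * S.δ) y →
      S.G0.StepLe (3 * S.G0.δ) fun i => S.pr (y i) := fun y hy =>
    (S.stepLe_pr (hy.mono (by linarith))).mono (by linarith)
  filter_upwards [S.pr_cont.continuousAt.eventually (S.G0.triv_open (k x hs) h)] with x' hx' hs'
  exact hx' (k x' hs')

lemma tr_concat (p : ℝ → Fin m → E) (hp : Continuous p)
    (hs : ∀ t, S.toGeo.StepLe (4 * S.δ) (p t)) (h : S.Tr (p 1)) : S.Tr (p 0) :=
  S.G0.triv_concat (fun t i => S.pr (p t i)) (S.pr_cont.comp hp)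
    (fun t => (S.stepLe_pr (hs t)).mono (by linarith [S.G0.δpos])) h

lemma tr_of_path (v : ℝ → Fin m → E) (T : ℝ) (hT : 0 ≤ T) (hv : ContinuousOn v (Icc 0 T))
    (hs : ∀ t ∈ Icc 0 T, S.toGeo.StepLe (3 * S.δ) (v t)) (h : S.Tr (v T)) : S.Tr (v 0) :=
  S.G0.triv_of_path (fun t i => S.pr (v t i)) T hT (S.pr_cont.comp_continuousOn hv)
    (fun t ht => (S.stepLe_pr ((hs t ht).mono (by linarith [S.δpos]))).mono
      (by linarith [S.G0.δpos])) h

/-- The chain of a closed orbit has a trivial image. -/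
lemma tr_inner {J : Type} {s : ℝ} (hs : 0 ≤ s) {ζ : Cfg E m J} {z : E × E}
    (hz : S.Inner False s ζ z) : S.Tr fun i => (ζ.1 i).1 := by
  refine S.G0.triv_const (S.prm _ hz.mem.1) fun i => ?_
  show S.pr (ζ.1 i).1 = S.pr z.1
  rcases hs.lt_or_eq with h | h
  · obtain ⟨σ, -, -, -, hv⟩ := hz.vert
    rw [hv i]
    exact (S.per z hz.mem s h (hz.closed not_false)).1 _
  · rw [hz.const (Or.inr h.symm) i]

end Sys

/-- The representative of a point of the circle in the interval of length one around zero. -/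
noncomputable def lf (a : UnitAddCircle) : ℝ := (AddCircle.equivIoc 1 (-(1 / 2)) a : ℝ)

/-- A circle valued function on N with a section, and a family of loops that are not
null-homotopic in the fibres near zero. -/
structure Wall (N : Set E) where
  th : E → UnitAddCircle
  c : ℝ → E
  σ : E × UnitAddCircle → E
  d : ℝ
  dpos : 0 < d
  dle : d ≤ 1 / 8
  thc : ContinuousOn th N
  cu : UniformContinuous c
  cm : ∀ t, c t ∈ N
  cth : ∀ t : ℝ, th (c t) = (t : UnitAddCircle)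
  σc : ContinuousOn σ ({x | x ∈ N ∧ ‖th x‖ ≤ d} ×ˢ univ)
  σm : ∀ x ∈ N, ‖th x‖ ≤ d → ∀ t, σ (x, t) ∈ N ∧ th (σ (x, t)) = th x
  σ0 : ∀ x ∈ N, ‖th x‖ ≤ d → σ (x, 0) = x
  nt : ∀ x ∈ N, ‖th x‖ ≤ d → ∀ γ : C(UnitAddCircle, N), (∀ t, (γ t : E) = σ (x, t)) →
    ¬ γ.Nullhomotopic

namespace Wall

def K {N : Set E} (Wl : Wall N) : Set E := {x | x ∈ N ∧ ‖Wl.th x‖ ≤ Wl.d}

/-- The polygon with m steps on the loop at x, constant afterwards. -/
noncomputable def pol {N : Set E} (Wl : Wall N) (m : ℕ) (x : E) (i : ℕ) : E :=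
  Wl.σ (x, ((((min i m : ℕ) : ℝ) / m : ℝ) : UnitAddCircle))

/-- The images of the loops under pr are not null-homotopic. -/
def NT {S : Sys E} (Wl : Wall S.S) : Prop :=
  ∀ x ∈ Wl.K, ∀ γ : C(UnitAddCircle, S.G0.S), (∀ t, (γ t : S.E0) = S.pr (Wl.σ (x, t))) →
    ¬ γ.Nullhomotopic

/-- The closed tube over the wall. -/
def tube {S : Sys E} (Wl : Wall S.S) : Set E :=
  {y | (∃ x ∈ S.S, ‖y - x‖ ≤ S.δ) ∧ ‖Wl.th (S.r y)‖ ≤ Wl.d}

/-- The height of the foot point. -/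
noncomputable def tau {S : Sys E} (Wl : Wall S.S) (y : E) : ℝ := lf (Wl.th (S.r y))

end Wall

/-- A proper family of closed chains at a that are not trivial, with an extra variable n. -/
structure Sys.XFam (S : Sys E) {X : Type} [TopologicalSpace X] (s : Set X) (pr : X → ℕ → E)
    (M : ℕ) [NeZero M] (a n : X → E) (c : X → Ch E) : Prop where
  cont : ∀ i < M, ContinuousOn (fun p => c p i) s
  nc : ContinuousOn n s
  valid : ∀ p ∈ s, S.Valid M (c p)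
  src : ∀ p ∈ s, (c p 0).1 = a p
  tgt : ∀ p ∈ s, (c p M).1 = a p
  proper : ∀ L, ∃ R : ℝ, ∀ p ∈ s, (∃ i < M, R ≤ ‖pr p i‖) →
    S.Val M (c p) + S.Q (a p) (n p) ≤ -L
  nt : ∀ p ∈ s, ¬ S.Tr fun i : Fin M => (c p i).1

/-- The family of loops over the wall, pushed down more and more as the height grows. -/
structure Slice (S : Sys E) (Wl : Wall S.S) (m1 M : ℕ) (Λ L' t' L : ℝ) where
  β : E × (ℕ → E) → E
  n : E × (ℕ → E) → E
  H : E × (ℕ → E) → ℝ
  ch : E × (ℕ → E) → Ch E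
  βc : ContinuousOn β (Wl.tube ×ˢ univ)
  nc : ContinuousOn n (Wl.tube ×ˢ univ)
  Hc : ContinuousOn H (Wl.tube ×ˢ univ)
  cont : ∀ i < M, ContinuousOn (fun p => ch p i) (Wl.tube ×ˢ univ)
  βS : ∀ p, p.1 ∈ Wl.tube → β p ∈ S.S
  valid : ∀ p, p.1 ∈ Wl.tube → S.Valid M (ch p)
  src : ∀ p, p.1 ∈ Wl.tube → (ch p 0).1 = β p
  tgt : ∀ p, p.1 ∈ Wl.tube → (ch p M).1 = β p
  Hth : ∀ p, p.1 ∈ Wl.tube → ((H p : ℝ) : UnitAddCircle) = Wl.th (β p)
  le : ∀ p, p.1 ∈ Wl.tube → S.Val M (ch p) + S.Q (β p) (n p) ≤ m1 * (S.St.τ₀ / 4)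
  proper : ∀ B, ∃ R : ℝ, ∀ p, p.1 ∈ Wl.tube → (∃ i < M, R ≤ ‖p.2 i‖) →
    S.Val M (ch p) + S.Q (β p) (n p) ≤ -B
  start : ∀ p, p.1 ∈ Wl.tube → Wl.tau p.1 ≤ 0 → β p = S.r p.1 ∧ n p = Λ • (p.1 - S.r p.1) ∧
    H p = Wl.tau p.1 ∧ ∀ i < M, ch p i = S.unit (Wl.pol m1 (S.r p.1)) p.2 i
  far : ∀ p, p.1 ∈ Wl.tube → |H p| ≤ t' - 1 ∨ S.Val M (ch p) + S.Q (β p) (n p) ≤ -L'
  edge : ∀ p, p.1 ∈ Wl.tube → Wl.d / 2 ≤ Wl.tau p.1 ∨ S.δ ≤ ‖p.1 - S.r p.1‖ →
    S.Val M (ch p) + S.Q (β p) (n p) ≤ -L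

/-- The position of the target. -/
def rho (v : Pm E) : ℝ := (v.1 0).2 - 1

/-- The folding function. -/
noncomputable def ff (ε ρ τ : ℝ) : ℝ := ρ + 2 * max 0 (-ρ + 2 * min 0 τ / ε)

/-- The parameter of the slice. -/
def Wall.pt {N : Set E} (Wl : Wall N) (ε : ℝ) (v : Pm E) : E × (ℕ → E) :=
  ((v.1 0).1 + Wl.c (ε * rho v), fun i => v.2 (1 + i))

namespace Slice

variable {S : Sys E} {Wl : Wall S.S} {m1 M : ℕ} {Λ L' t' L : ℝ} (Z : Slice S Wl m1 M Λ L' t' L)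

/-- The members of the slice whose base point is the target tg at height hh, as chains at xb. -/
noncomputable def slot (ε μ' : ℝ) (xb : E) (tg : ℝ → E) (hh : ℝ → ℝ) (vv : ℝ)
    (I : Set (ℝ × ℝ)) : Vc E where
  k := 1
  M := 1 + (M + 1)
  Ω := {v | (Wl.pt ε v).1 ∈ Metric.thickening S.δ S.S ∧ ‖Wl.th (S.r (Wl.pt ε v).1)‖ < Wl.d ∧
    ‖Z.n (Wl.pt ε v)‖ < Λ * μ' ∧ |Z.H (Wl.pt ε v) - hh (rho v)| < 1 / 4 ∧
    (rho v, Wl.tau (Wl.pt ε v).1) ∈ I}
  q v _ := (Z.β (Wl.pt ε v) + Λ⁻¹ • Z.n (Wl.pt ε v) - tg (rho v),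
    ff ε (rho v) (Wl.tau (Wl.pt ε v).1) - vv)
  c v := cat 1 (S.unit (fun i => if i = 0 then xb else Z.β (Wl.pt ε v)) v.2)
    (cat M (Z.ch (Wl.pt ε v))
      (S.unit (fun i => if i = 0 then Z.β (Wl.pt ε v) else xb) fun i => v.2 (1 + (M + i))))

end Slice

/-- The choice of the constants. -/
structure Consts (S : Sys E) (Wl : Wall S.S) (m1 M : ℕ) (Λ t' L ε μ' Δ : ℝ) : Prop where
  m1pos : 0 < m1
  m1le : m1 ≤ M
  step : ∀ x ∈ Wl.K, ∀ s t : ℝ, |s - t| ≤ 1 / (m1 : ℝ) →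
    ‖Wl.σ (x, (s : UnitAddCircle)) - Wl.σ (x, (t : UnitAddCircle))‖ ≤ S.μ
  Λpos : 0 < Λ
  t'nn : 0 ≤ t'
  μ'pos : 0 < μ'
  μ'le : 2 * μ' ≤ S.μ
  md : ∀ x ∈ S.S, ∀ x' ∈ S.S, ‖x - x'‖ ≤ μ' → ‖Wl.th x - Wl.th x'‖ ≤ 1 / 8
  hL : Δ + 1 ≤ L
  hΛ : Δ < 7 / 8 * (Λ * μ') ^ 2
  εpos : 0 < ε
  εle : 2 * ε ≤ Wl.d
  εc : ∀ s t, |s - t| ≤ 2 * ε → ‖Wl.c s - Wl.c t‖ ≤ μ'

open TopAux

/-- The base point of the letters that move up. -/
noncomputable def Wall.bX {N : Set E} (Wl : Wall N) (ε t' u : ℝ) : E := Wl.c (t' * clamp u - ε)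

/-- The base point of the letters that move down or around the loop. -/
noncomputable def Wall.bY {N : Set E} (Wl : Wall N) (ε t' u : ℝ) : E :=
  Wl.σ (Wl.c (-ε), ((clamp u : ℝ) : UnitAddCircle)) + Wl.c (-ε + t' * min u 0) - Wl.c (-ε)

/-- Truncation to the interval from -2 to -1/2. -/
noncomputable def trc (ρ : ℝ) : ℝ := max (-2) (min ρ (-(1 / 2)))

namespace Slice

variable {S : Sys E} {Wl : Wall S.S} {m1 M : ℕ} {Λ L' t' L : ℝ} (Z : Slice S Wl m1 M Λ L' t' L)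

noncomputable def cob (ε μ' u : ℝ) : Vc E :=
  Z.slot ε μ' (Wl.c (-ε)) (fun ρ => Wl.c (ε * ρ)) (fun ρ => ε * ρ) (2 * clamp u - 1) univ

noncomputable def plus (ε μ' u : ℝ) : Vc E :=
  Z.slot ε μ' (Wl.bX ε t' u) (fun ρ => Wl.c (t' * clamp u + ε * ρ))
    (fun ρ => t' * clamp u + ε * ρ) 1 {p | 0 < p.1}

noncomputable def minus (ε μ' u : ℝ) : Vc E :=
  Z.slot ε μ' (Wl.bY ε t' u)
    (fun ρ => Wl.σ (Wl.c (ε * trc ρ), ((clamp u : ℝ) : UnitAddCircle)) +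
      Wl.c (ε * trc ρ + t' * min u 0) - Wl.c (ε * trc ρ))
    (fun ρ => ε * trc ρ + t' * min u 0) 1 {p | -2 < p.1 ∧ p.1 < -(1 / 2) ∧ -(ε / 2) < p.2}

end Slice

end Pool.Agent.Wein
end

-- part Pool.Agent.P.MP_e3ee0c_gt.XGoodB
section

/-! Products, pasting and unions of good families. -/

open Set Filter Topology
open scoped ContDiff InnerProductSpace

namespace Pool.Agent.Wein

variable {E : Type} [NormedAddCommGroup E] [InnerProductSpace ℝ E]

namespace Sys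

variable {S : Sys E} {W : Type} [TopologicalSpace W] {σ σ' : W → Vc E} {k M : ℕ} {T Δ : ℝ}
  {a b : W → E}

lemma Good.mul {k' M' : ℕ} {T' : ℝ} {d : W → E} (h : S.Good σ k M T Δ a b)
    (h' : S.Good σ' k' M' T' Δ b d) :
    S.Good (fun w => σ w * σ' w) (k + k') (M + M') (T + T') Δ a d := by
  let g : W × Pm E → W × Pm E := fun p => (p.1, sh k M p.2)
  have hg : Continuous g := continuous_fst.prodMk ((sh_cont k M).comp continuous_snd)
  have hdom : dom (fun w => σ w * σ' w) = dom σ ∩ g ⁻¹' dom σ' := by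
    ext p
    change p.2 ∈ (σ p.1 * σ' p.1).Ω ↔ p.2 ∈ (σ p.1).Ω ∧ sh k M p.2 ∈ (σ' p.1).Ω
    rw [Vc.mem_mul, h.hk, h.hM]
  have hzer : zer (fun w => σ w * σ' w) = zer σ ∩ g ⁻¹' zer σ' := by
    ext p
    change p.2 ∈ (σ p.1 * σ' p.1).Zs ↔ p.2 ∈ (σ p.1).Zs ∧ sh k M p.2 ∈ (σ' p.1).Zs
    rw [Vc.mem_Zs_mul, h.hk, h.hM]
  have hc : ∀ p : W × Pm E, (σ p.1 * σ' p.1).c p.2 =
      cat M ((σ p.1).c p.2) ((σ' (g p).1).c (g p).2) := fun p => by
    rw [Vc.mul_c, h.hk, h.hM]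
  have hq : ∀ (p : W × Pm E) i, (σ p.1 * σ' p.1).q p.2 i =
      if i < k then (σ p.1).q p.2 i else (σ' (g p).1).q (g p).2 (i - k) := fun p i => by
    rw [Vc.mul_q, h.hk, h.hM]
  have f1 : S.IsFam (zer σ ∩ g ⁻¹' zer σ') (fun p => p.2.2) M T (fun p => a p.1)
      (fun p => b p.1) (fun p => (σ p.1).c p.2) :=
    h.fam.comp (f := id) continuousOn_id (fun _ hp => hp.1) (fun _ _ _ _ => rfl)
      (fun _ _ => rfl) (fun _ _ => rfl)
  have f2 : S.IsFam (zer σ ∩ g ⁻¹' zer σ') (fun p i => p.2.2 (M + i)) M' T' (fun p => b p.1)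
      (fun p => d p.1) (fun p => (σ' (g p).1).c (g p).2) :=
    h'.fam.comp (f := g) hg.continuousOn (fun _ hp => hp.2) (fun _ _ _ _ => rfl)
      (fun _ _ => rfl) (fun _ _ => rfl)
  obtain ⟨R, hR⟩ := h.bdd
  obtain ⟨R', hR'⟩ := h'.bdd
  refine Good.of_cl (fun w => ?_) (fun w => ?_) ?_ (fun i hi => ?_) ?_ ?_ h'.bc
    (S.top σ M (T - Δ) ∩ g ⁻¹' S.top σ' M' (T' - Δ)) (h.cls.inter (h'.cls.preimage hg)) ?_ ?_
    (max R R') ?_
  · rw [Vc.mul_k, h.hk, h'.hk]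
  · rw [Vc.mul_M, h.hM, h'.hM]
  · rw [hdom]
    exact h.opn.inter (h'.opn.preimage hg)
  · rw [hdom]
    simp only [hq]
    by_cases hik : i < k
    · simp only [if_pos hik]
      exact (h.qc i hik).mono inter_subset_left
    · simp only [if_neg hik]
      exact (h'.qc (i - k) (by omega)).comp hg.continuousOn fun _ hp => hp.2
  · rw [hdom]
    simp only [hc]
    exact continuousOn_cat (fun i hi => (h.cc i hi).mono inter_subset_left)
      fun i hi => (h'.cc i hi).comp hg.continuousOn fun _ hp => hp.2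
  · rw [hzer]
    simp only [hc]
    exact f1.cat f2
  · rw [hzer]
    exact fun p hp => ⟨hp.1.1, hp.2.1⟩
  · rintro p ⟨hp, hv⟩
    rw [hzer] at hp
    simp only [hc] at hv
    rw [f1.val_cat f2 hp] at hv
    have h1 := f1.le p hp
    have h2 := f2.le p hp
    exact ⟨⟨hp.1, by linarith⟩, hp.2, by linarith⟩
  · intro p hp i hi
    by_cases hik : i < k
    · exact (hR p hp.1 i hik).trans (le_max_left _ _)
    · obtain ⟨j, rfl⟩ := Nat.exists_eq_add_of_le (not_lt.mp hik)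
      exact (hR' (g p) hp.2 j (by omega)).trans (le_max_right _ _)

omit [InnerProductSpace ℝ E] in
/-- Continuity of a function that is defined by cases on the sign of f. -/
lemma xgoodb_paste {Y : Type} [TopologicalSpace Y] {s : Set (W × Pm E)} {f : W → ℝ}
    (hf : Continuous f) {F G H : W × Pm E → Y} (hF : ContinuousOn F (s ∩ {p | f p.1 ≤ 0}))
    (hG : ContinuousOn G (s ∩ {p | 0 ≤ f p.1})) (h1 : ∀ p, f p.1 ≤ 0 → H p = F p)
    (h2 : ∀ p, 0 ≤ f p.1 → H p = G p) : ContinuousOn H s := by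
  have hf' : Continuous fun p : W × Pm E => f p.1 := hf.comp continuous_fst
  have e : H = fun p => if f p.1 ≤ 0 then F p else G p := by
    funext p
    split_ifs with h0
    exacts [h1 p h0, h2 p (not_le.mp h0).le]
  rw [e]
  refine ContinuousOn.if (fun p hp => ?_) ?_ ?_
  · have h0 : f p.1 = 0 := frontier_le_subset_eq hf' continuous_const hp.2
    rw [← h1 p h0.le, h2 p h0.ge]
  · rw [(isClosed_le hf' continuous_const).closure_eq]
    exact hF
  · refine hG.mono (inter_subset_inter_right _ ?_)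
    exact closure_minimal (fun p hp => (not_le.mp hp).le) (isClosed_le continuous_const hf')

/-- Pasting along the zero set of a continuous function of the parameter. -/
lemma Good.paste {a' b' : W → E} (h : S.Good σ k M T Δ a b) (h' : S.Good σ' k M T Δ a' b')
    {f : W → ℝ} (hf : Continuous f) (he : ∀ w, f w = 0 → σ w = σ' w ∧ b w = b' w) :
    S.Good (fun w => if f w ≤ 0 then σ w else σ' w) k M T Δ
      (fun w => if f w ≤ 0 then a w else a' w) (fun w => if f w ≤ 0 then b w else b' w) := by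
  have hf' : Continuous fun p : W × Pm E => f p.1 := hf.comp continuous_fst
  obtain ⟨τ, hτ⟩ : ∃ τ : W → Vc E, τ = fun w => if f w ≤ 0 then σ w else σ' w := ⟨_, rfl⟩
  have t1 : ∀ w, f w ≤ 0 → τ w = σ w := fun w h0 => by rw [hτ]; exact if_pos h0
  have t2 : ∀ w, 0 ≤ f w → τ w = σ' w := fun w h0 => by
    rcases h0.lt_or_eq with h0 | h0
    · rw [hτ]; exact if_neg (not_le.mpr h0)
    · rw [t1 w h0.ge, (he w h0.symm).1]
  rw [← hτ]
  have d1 : dom τ ∩ {p | f p.1 ≤ 0} ⊆ dom σ := fun p hp => by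
    have := hp.1
    change p.2 ∈ (τ p.1).Ω at this
    rwa [t1 _ hp.2] at this
  have d2 : dom τ ∩ {p | 0 ≤ f p.1} ⊆ dom σ' := fun p hp => by
    have := hp.1
    change p.2 ∈ (τ p.1).Ω at this
    rwa [t2 _ hp.2] at this
  have z1 : ∀ p : W × Pm E, f p.1 ≤ 0 → (p ∈ zer τ ↔ p ∈ zer σ) := fun p hp => by
    change p.2 ∈ (τ p.1).Zs ↔ p.2 ∈ (σ p.1).Zs
    rw [t1 _ hp]
  have z2 : ∀ p : W × Pm E, 0 ≤ f p.1 → (p ∈ zer τ ↔ p ∈ zer σ') := fun p hp => by
    change p.2 ∈ (τ p.1).Zs ↔ p.2 ∈ (σ' p.1).Zs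
    rw [t2 _ hp]
  have cc : ∀ i < M, ContinuousOn (fun p : W × Pm E => (τ p.1).c p.2 i) (dom τ) := fun i hi =>
    xgoodb_paste hf ((h.cc i hi).mono d1) ((h'.cc i hi).mono d2)
      (fun p hp => by rw [t1 _ hp]) (fun p hp => by rw [t2 _ hp])
  have htop : S.top τ M (T - Δ) = (S.top σ M (T - Δ) ∩ {p | f p.1 ≤ 0}) ∪
      (S.top σ' M (T - Δ) ∩ {p | 0 ≤ f p.1}) := by
    ext p
    constructor
    · rintro ⟨hp, hv⟩
      rcases le_total (f p.1) 0 with h0 | h0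
      · rw [t1 _ h0] at hv
        exact Or.inl ⟨⟨(z1 p h0).1 hp, hv⟩, h0⟩
      · rw [t2 _ h0] at hv
        exact Or.inr ⟨⟨(z2 p h0).1 hp, hv⟩, h0⟩
    · rintro (⟨⟨hp, hv⟩, h0⟩ | ⟨⟨hp, hv⟩, h0⟩)
      · exact ⟨(z1 p h0).2 hp, by rwa [t1 _ h0]⟩
      · exact ⟨(z2 p h0).2 hp, by rwa [t2 _ h0]⟩
  refine ⟨fun w => ?_, fun w => ?_, ?_, fun i hi => ?_, cc,
    ⟨fun i hi => (cc i hi).mono fun _ hp => hp.1, fun p hp => ?_, fun p hp => ?_, fun p hp => ?_,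
      fun p hp => ?_, fun L => ?_⟩, ?_, ?_, ?_⟩
  · rcases le_total (f w) 0 with h0 | h0
    · rw [t1 w h0, h.hk]
    · rw [t2 w h0, h'.hk]
  · rcases le_total (f w) 0 with h0 | h0
    · rw [t1 w h0, h.hM]
    · rw [t2 w h0, h'.hM]
  · have : dom τ = (dom σ ∩ dom σ') ∪ (dom σ ∩ {p | f p.1 < 0}) ∪ (dom σ' ∩ {p | 0 < f p.1}) := by
      ext p
      constructor
      · intro hp
        rcases lt_trichotomy (f p.1) 0 with h0 | h0 | h0
        · exact Or.inl (Or.inr ⟨d1 ⟨hp, h0.le⟩, h0⟩)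
        · exact Or.inl (Or.inl ⟨d1 ⟨hp, h0.le⟩, d2 ⟨hp, h0.ge⟩⟩)
        · exact Or.inr ⟨d2 ⟨hp, h0.le⟩, h0⟩
      · intro hp
        change p.2 ∈ (τ p.1).Ω
        rcases hp with (⟨hp, hp'⟩ | ⟨hp, h0⟩) | ⟨hp, h0⟩
        · rcases le_total (f p.1) 0 with h0 | h0
          · rw [t1 _ h0]; exact hp
          · rw [t2 _ h0]; exact hp'
        · rw [t1 _ (le_of_lt h0)]; exact hp
        · rw [t2 _ (le_of_lt h0)]; exact hp
    rw [this]
    exact ((h.opn.inter h'.opn).union (h.opn.inter (isOpen_lt hf' continuous_const))).union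
      (h'.opn.inter (isOpen_lt continuous_const hf'))
  · exact xgoodb_paste hf ((h.qc i hi).mono d1) ((h'.qc i hi).mono d2)
      (fun p hp => by rw [t1 _ hp]) (fun p hp => by rw [t2 _ hp])
  · rcases le_total (f p.1) 0 with h0 | h0
    · rw [t1 _ h0]; exact h.fam.valid p ((z1 p h0).1 hp)
    · rw [t2 _ h0]; exact h'.fam.valid p ((z2 p h0).1 hp)
  · split_ifs with h0
    · rw [t1 _ h0]; exact h.fam.src p ((z1 p h0).1 hp)
    · have h0 := (not_le.mp h0).le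
      rw [t2 _ h0]; exact h'.fam.src p ((z2 p h0).1 hp)
  · split_ifs with h0
    · rw [t1 _ h0]; exact h.fam.tgt p ((z1 p h0).1 hp)
    · have h0 := (not_le.mp h0).le
      rw [t2 _ h0]; exact h'.fam.tgt p ((z2 p h0).1 hp)
  · rcases le_total (f p.1) 0 with h0 | h0
    · rw [t1 _ h0]; exact h.fam.le p ((z1 p h0).1 hp)
    · rw [t2 _ h0]; exact h'.fam.le p ((z2 p h0).1 hp)
  · obtain ⟨R, hR⟩ := h.fam.proper L
    obtain ⟨R', hR'⟩ := h'.fam.proper L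
    refine ⟨max R R', fun p hp ⟨i, hi, hP⟩ => ?_⟩
    rcases le_total (f p.1) 0 with h0 | h0
    · rw [t1 _ h0]; exact hR p ((z1 p h0).1 hp) ⟨i, hi, (le_max_left _ _).trans hP⟩
    · rw [t2 _ h0]; exact hR' p ((z2 p h0).1 hp) ⟨i, hi, (le_max_right _ _).trans hP⟩
  · exact Continuous.if_le h.bc h'.bc hf continuous_const fun w hw => (he w hw).2
  · rw [htop]
    exact (h.cls.inter (isClosed_le hf' continuous_const)).union
      (h'.cls.inter (isClosed_le continuous_const hf'))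
  · obtain ⟨R, hR⟩ := h.bdd
    obtain ⟨R', hR'⟩ := h'.bdd
    refine ⟨max R R', fun p hp i hi => ?_⟩
    rw [htop] at hp
    rcases hp with hp | hp
    · exact (hR p hp.1 i hi).trans (le_max_left _ _)
    · exact (hR' p hp.1 i hi).trans (le_max_right _ _)

omit [InnerProductSpace ℝ E] in
/-- Continuity on a union of two open sets. -/
lemma xgoodb_union {X Y : Type} [TopologicalSpace X] [TopologicalSpace Y] {s t : Set X}
    (hs : IsOpen s) (ht : IsOpen t) {F G H : X → Y} (hF : ContinuousOn F s)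
    (hG : ContinuousOn G t) (h1 : ∀ p ∈ s, H p = F p) (h2 : ∀ p ∈ t, H p = G p) :
    ContinuousOn H (s ∪ t) := by
  rintro p (hp | hp)
  · exact ((hF.congr h1).continuousAt (hs.mem_nhds hp)).continuousWithinAt
  · exact ((hG.congr h2).continuousAt (ht.mem_nhds hp)).continuousWithinAt

/-- The union of two families with disjoint domains. -/
lemma Good.uni (h : S.Good σ k M T Δ a b) (h' : S.Good σ' k M T Δ a b) (O : Set (Pm E))
    (h1 : ∀ w, (σ w).Ω ⊆ O) (h2 : ∀ w, (σ' w).Ω ⊆ Oᶜ) :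
    S.Good (fun w => Vc.uni O (σ w) (σ' w)) k M T Δ a b := by
  obtain ⟨τ, hτ⟩ : ∃ τ : W → Vc E, τ = fun w => Vc.uni O (σ w) (σ' w) := ⟨_, rfl⟩
  have hk : ∀ w, (τ w).k = k := fun w => by rw [hτ]; exact h.hk w
  have hM : ∀ w, (τ w).M = M := fun w => by rw [hτ]; exact h.hM w
  have hΩ : ∀ w v, v ∈ (τ w).Ω ↔ v ∈ (σ w).Ω ∨ v ∈ (σ' w).Ω := fun w v => by
    rw [hτ]
    exact ⟨fun hv => hv.imp And.right And.right,
      fun hv => hv.imp (fun hv => ⟨h1 w hv, hv⟩) fun hv => ⟨h2 w hv, hv⟩⟩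
  have q1 : ∀ p ∈ dom σ, (τ p.1).q p.2 = (σ p.1).q p.2 := fun p hp => by
    rw [hτ]; exact if_pos (h1 _ hp)
  have q2 : ∀ p ∈ dom σ', (τ p.1).q p.2 = (σ' p.1).q p.2 := fun p hp => by
    rw [hτ]; exact if_neg (h2 _ hp)
  have c1 : ∀ p ∈ dom σ, (τ p.1).c p.2 = (σ p.1).c p.2 := fun p hp => by
    rw [hτ]; exact if_pos (h1 _ hp)
  have c2 : ∀ p ∈ dom σ', (τ p.1).c p.2 = (σ' p.1).c p.2 := fun p hp => by
    rw [hτ]; exact if_neg (h2 _ hp)
  rw [← hτ]
  have hdom : dom τ = dom σ ∪ dom σ' := Set.ext fun p => hΩ p.1 p.2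
  have hzer : ∀ p, p ∈ zer τ ↔ p ∈ zer σ ∨ p ∈ zer σ' := fun p => by
    constructor
    · rintro ⟨hp, hq⟩
      rw [hk] at hq
      rcases (hΩ _ _).1 hp with hp | hp
      · rw [q1 p hp] at hq
        exact Or.inl ⟨hp, by rwa [h.hk]⟩
      · rw [q2 p hp] at hq
        exact Or.inr ⟨hp, by rwa [h'.hk]⟩
    · rintro (⟨hp, hq⟩ | ⟨hp, hq⟩)
      · rw [h.hk] at hq
        exact ⟨(hΩ _ _).2 (Or.inl hp), by rwa [hk, q1 p hp]⟩
      · rw [h'.hk] at hq
        exact ⟨(hΩ _ _).2 (Or.inr hp), by rwa [hk, q2 p hp]⟩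
  have cc : ∀ i < M, ContinuousOn (fun p : W × Pm E => (τ p.1).c p.2 i) (dom τ) := fun i hi => by
    rw [hdom]
    exact xgoodb_union h.opn h'.opn (h.cc i hi) (h'.cc i hi) (fun p hp => by rw [c1 p hp])
      (fun p hp => by rw [c2 p hp])
  have htop : S.top τ M (T - Δ) = S.top σ M (T - Δ) ∪ S.top σ' M (T - Δ) := by
    ext p
    constructor
    · rintro ⟨hp, hv⟩
      rcases (hzer p).1 hp with hp | hp
      · exact Or.inl ⟨hp, by rwa [c1 p hp.1] at hv⟩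
      · exact Or.inr ⟨hp, by rwa [c2 p hp.1] at hv⟩
    · rintro (⟨hp, hv⟩ | ⟨hp, hv⟩)
      · exact ⟨(hzer p).2 (Or.inl hp), by rwa [c1 p hp.1]⟩
      · exact ⟨(hzer p).2 (Or.inr hp), by rwa [c2 p hp.1]⟩
  refine ⟨hk, hM, ?_, fun i hi => ?_, cc,
    ⟨fun i hi => (cc i hi).mono fun _ hp => hp.1, fun p hp => ?_, fun p hp => ?_, fun p hp => ?_,
      fun p hp => ?_, fun L => ?_⟩, h.bc, ?_, ?_⟩
  · rw [hdom]
    exact h.opn.union h'.opn
  · rw [hdom]
    exact xgoodb_union h.opn h'.opn (h.qc i hi) (h'.qc i hi) (fun p hp => by rw [q1 p hp])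
      (fun p hp => by rw [q2 p hp])
  · rcases (hzer p).1 hp with hp | hp
    · rw [c1 p hp.1]; exact h.fam.valid p hp
    · rw [c2 p hp.1]; exact h'.fam.valid p hp
  · rcases (hzer p).1 hp with hp | hp
    · rw [c1 p hp.1]; exact h.fam.src p hp
    · rw [c2 p hp.1]; exact h'.fam.src p hp
  · rcases (hzer p).1 hp with hp | hp
    · rw [c1 p hp.1]; exact h.fam.tgt p hp
    · rw [c2 p hp.1]; exact h'.fam.tgt p hp
  · rcases (hzer p).1 hp with hp | hp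
    · rw [c1 p hp.1]; exact h.fam.le p hp
    · rw [c2 p hp.1]; exact h'.fam.le p hp
  · obtain ⟨R, hR⟩ := h.fam.proper L
    obtain ⟨R', hR'⟩ := h'.fam.proper L
    refine ⟨max R R', fun p hp ⟨i, hi, hP⟩ => ?_⟩
    rcases (hzer p).1 hp with hp | hp
    · rw [c1 p hp.1]; exact hR p hp ⟨i, hi, (le_max_left _ _).trans hP⟩
    · rw [c2 p hp.1]; exact hR' p hp ⟨i, hi, (le_max_right _ _).trans hP⟩
  · rw [htop]
    exact h.cls.union h'.cls
  · obtain ⟨R, hR⟩ := h.bdd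
    obtain ⟨R', hR'⟩ := h'.bdd
    refine ⟨max R R', fun p hp i hi => ?_⟩
    rw [htop] at hp
    rcases hp with hp | hp
    · exact (hR p hp i hi).trans (le_max_left _ _)
    · exact (hR' p hp i hi).trans (le_max_right _ _)

end Sys

end Pool.Agent.Wein
end

-- part Pool.Agent.P.MP_e3ee0c_gt.XMk
section

/-! A wall from continuous maps on the subtype. -/

open Set Filter Topology
open scoped ContDiff InnerProductSpace

namespace Pool.Agent.Wein

variable {E : Type} [NormedAddCommGroup E] [InnerProductSpace ℝ E]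

omit [InnerProductSpace ℝ E] in
theorem exists_wall0 (N : Set E) (θ : C(N, UnitAddCircle)) (s : C(UnitAddCircle, N))
    (hs : ∀ t, θ (s t) = t) (d : ℝ) (hd : 0 < d)
    (σ : C({x : N // ‖θ x‖ ≤ d}, C(UnitAddCircle, N))) (h0 : ∀ x, σ x 0 = x.1)
    (hθ : ∀ x t, θ (σ x t) = θ x.1) (hnt : ∀ x, ¬ (σ x).Nullhomotopic) :
    ∃ Wl : Wall N, ∀ x ∈ Wl.K, ∃ y, ∀ t, Wl.σ (x, t) = σ y t := by
  classical
  set th : E → UnitAddCircle := fun x => if h : x ∈ N then θ ⟨x, h⟩ else 0 with hth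
  have e1 : ∀ x : N, th x = θ x := fun x => dif_pos x.2
  have hle : ∀ x (hx : x ∈ N), ‖th x‖ ≤ min d (1 / 8) → ‖θ ⟨x, hx⟩‖ ≤ d := fun x hx h => by
    rw [← e1]
    exact h.trans (min_le_left _ _)
  set sg : E × UnitAddCircle → E := fun p =>
    if h : p.1 ∈ N ∧ ‖th p.1‖ ≤ min d (1 / 8) then σ ⟨⟨p.1, h.1⟩, hle _ h.1 h.2⟩ p.2 else p.1
    with hsg
  have e2 : ∀ x (hx : x ∈ N) (h : ‖th x‖ ≤ min d (1 / 8)) t,
      sg (x, t) = σ ⟨⟨x, hx⟩, hle _ hx h⟩ t := fun x hx h t => dif_pos ⟨hx, h⟩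
  refine ⟨⟨th, fun t => s (t : UnitAddCircle), sg, min d (1 / 8), by positivity, min_le_right _ _,
    ?_, ?_, fun t => (s t).2, fun t => by rw [e1, hs], ?_, fun x hx h t => ?_, fun x hx h => ?_,
    fun x hx h γ hγ => ?_⟩, fun x hx => ⟨_, e2 x hx.1 hx.2⟩⟩
  · rw [continuousOn_iff_continuous_restrict]
    exact θ.continuous.congr fun x => (e1 x).symm
  · exact uniformContinuous_subtype_val.comp ((CompactSpace.uniformContinuous_of_continuous
      s.continuous).comp (uniformContinuous_addMonoidHom_of_continuous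
        (f := QuotientAddGroup.mk' (AddSubgroup.zmultiples (1 : ℝ)))
        QuotientAddGroup.continuous_mk))
  · rw [continuousOn_iff_continuous_restrict]
    have hc : Continuous fun p : ({x | x ∈ N ∧ ‖th x‖ ≤ min d (1 / 8)} ×ˢ
        (univ : Set UnitAddCircle) : Set (E × UnitAddCircle)) =>
        (σ ⟨⟨p.1.1, p.2.1.1⟩, hle _ p.2.1.1 p.2.1.2⟩ p.1.2 : E) := by
      refine continuous_subtype_val.comp (continuous_eval.comp (Continuous.prodMk
        (σ.continuous.comp (Continuous.subtype_mk (Continuous.subtype_mk ?_ _) _)) ?_)) <;>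
        fun_prop
    exact hc.congr fun p => (e2 _ p.2.1.1 p.2.1.2 _).symm
  · rw [e2 x hx h]
    exact ⟨(σ _ t).2, by rw [e1, hθ, ← e1]⟩
  · rw [e2 x hx h, h0]
  · have : γ = σ ⟨⟨x, hx⟩, hle _ hx h⟩ :=
      ContinuousMap.ext fun t => Subtype.ext ((hγ t).trans (e2 x hx h t))
    rw [this]
    exact hnt _

omit [InnerProductSpace ℝ E] in
theorem exists_wall (N : Set E) (θ : C(N, UnitAddCircle)) (s : C(UnitAddCircle, N))
    (hs : ∀ t, θ (s t) = t) (d : ℝ) (hd : 0 < d)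
    (σ : C({x : N // ‖θ x‖ ≤ d}, C(UnitAddCircle, N))) (h0 : ∀ x, σ x 0 = x.1)
    (hθ : ∀ x t, θ (σ x t) = θ x.1) (hnt : ∀ x, ¬ (σ x).Nullhomotopic) : Nonempty (Wall N) :=
  (exists_wall0 N θ s hs d hd σ h0 hθ hnt).elim fun Wl _ => ⟨Wl⟩

end Pool.Agent.Wein
end

-- part Pool.Agent.P.MP_e3ee0c_gt.XPush
section

/-! The moving level deformation applied to families of loops that are not trivial. -/

open Set Filter Topology
open scoped ContDiff InnerProductSpace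

namespace Pool.Agent.Wein

variable {E : Type} [NormedAddCommGroup E] [InnerProductSpace ℝ E]

/-- The chain of an extended configuration. -/
def xpushCh {m : ℕ} [NeZero m] (ζ : Cfg E m (Option (Fin m))) : Ch E :=
  ofCfg (ζ.1, fun i => ζ.2 (some i))

lemma xpush_act (S : Sys E) {m : ℕ} [NeZero m] (τ : ℕ → ℝ) (ζ : Cfg E m (Option (Fin m))) :
    S.act Link.bs (fun i : Fin m => τ i) ζ =
      S.ValT τ m (xpushCh ζ) + S.Q (ζ.1 0).1 (ζ.2 none) := by
  have e : ζ = Link.ex (ζ.2 none) (ζ.1, fun i => ζ.2 (some i)) := by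
    refine Prod.ext rfl (funext fun j => ?_)
    cases j <;> rfl
  conv_lhs => rw [e]
  rw [Link.act_ex, xpushCh, S.valT_ofCfg]

omit [NormedAddCommGroup E] [InnerProductSpace ℝ E] in
lemma xpush_fst {m : ℕ} [NeZero m] (ζ : Cfg E m (Option (Fin m))) (i : Fin m) :
    (xpushCh ζ i).1 = (ζ.1 i).1 := by
  simp only [xpushCh, ofCfg, ofNat_val]

variable [FiniteDimensional ℝ E]

lemma xpush_compact {X : Type*} [TopologicalSpace X] (m : ℕ) {Tb : Set E} (hT : IsCompact Tb)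
    (f : E × (ℕ → E) → X) (hf : ContinuousOn f (Tb ×ˢ univ))
    (hdep : ∀ y P P', (∀ i < m, P i = P' i) → f (y, P) = f (y, P')) (R : ℝ) :
    ∃ K ⊆ f '' (Tb ×ˢ univ), IsCompact K ∧
      ∀ p : E × (ℕ → E), p.1 ∈ Tb → (∀ i < m, ‖p.2 i‖ ≤ R) → f p ∈ K := by
  have := FiniteDimensional.proper_real E
  have hsub : Tb ×ˢ (univ.pi fun i => if i < m then Metric.closedBall (0 : E) R else {0}) ⊆
      Tb ×ˢ (univ : Set (ℕ → E)) := prod_mono subset_rfl (subset_univ _)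
  refine ⟨f '' (Tb ×ˢ univ.pi fun i => if i < m then Metric.closedBall 0 R else {0}),
    image_mono hsub, (hT.prod (isCompact_univ_pi fun i => ?_)).image_of_continuousOn
      (hf.mono hsub), fun p hp hP => ?_⟩
  · split_ifs
    exacts [isCompact_closedBall _ _, isCompact_singleton]
  · refine ⟨(p.1, fun i => if i < m then p.2 i else 0), ⟨hp, fun i _ => ?_⟩,
      hdep _ _ _ fun i hi => if_pos hi⟩
    by_cases hi : i < m
    · simpa [hi] using hP i hi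
    · simp [hi]

theorem Sys.push (S : Sys E) {m : ℕ} [NeZero m] (τ0 τ1 : ℕ → ℝ) (h0 : ∀ i, 0 ≤ τ0 i)
    (h1 : ∀ i, 0 ≤ τ1 i) (h01 : ∀ i, τ0 i + τ1 i ≤ S.St.τ₀) (ℓ0 lam : ℝ) (hlam : 0 ≤ lam)
    (hout : lam < ∑ i ∈ Finset.range m, τ1 i) :
    ∃ D : ℝ, 0 ≤ D ∧ ∀ (Tb : Set E), IsCompact Tb → ∀ (a n : E × (ℕ → E) → E)
      (c : E × (ℕ → E) → Ch E), S.XFam (Tb ×ˢ univ) (fun p => p.2) m a n c →
      (∀ y P P', (∀ i < m, P i = P' i) → n (y, P) = n (y, P') ∧ ∀ i < m, c (y, P) i = c (y, P') i) →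
      ∃ (a' n' : ℝ × E × (ℕ → E) → E) (c' : ℝ × E × (ℕ → E) → Ch E),
        S.XFam (univ ×ˢ Tb ×ˢ univ) (fun p => p.2.2) m a' n' c' ∧
        (∀ u ≤ 0, ∀ p, p.1 ∈ Tb → a' (u, p) = a p ∧ n' (u, p) = n p ∧
          ∀ i < m, c' (u, p) i = c p i) ∧
        (∀ p, p.1 ∈ Tb → S.ValT τ0 m (c p) + S.Q (a p) (n p) ≤ ℓ0 → ∀ u,
          S.Val m (c' (u, p)) + S.Q (a' (u, p)) (n' (u, p)) ≤ ℓ0 ∧
          (1 ≤ u → S.Val m (c' (u, p)) + S.Q (a' (u, p)) (n' (u, p)) ≤ ℓ0 - lam)) ∧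
        (∀ u u' p, p.1 ∈ Tb → ‖a' (u, p) - a' (u', p)‖ ≤ D * |u - u'|) ∧
        (∀ u y P P', (∀ i < m, P i = P' i) → a' (u, y, P) = a' (u, y, P') ∧
          n' (u, y, P) = n' (u, y, P') ∧ c' (u, y, P) = c' (u, y, P')) ∧
        ∀ p, p.1 ∈ Tb → S.ValT τ0 m (c p) + S.Q (a p) (n p) ≤ ℓ0 - lam - 1 / 2 → ∀ u,
          a' (u, p) = a p ∧ n' (u, p) = n p ∧ ∀ i < m, c' (u, p) i = c p i := by
  have hτ := S.St.τpos
  have hs1 : ∑ i : Fin m, τ1 i = ∑ i ∈ Finset.range m, τ1 i := (Finset.sum_range τ1).symm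
  have hvc : Continuous fun (ζ : Cfg E m (Option (Fin m))) (i : Fin m) => (ζ.1 i).1 := by
    fun_prop
  set Z' : Set (Cfg E m (Option (Fin m))) :=
    {ζ | ζ ∈ S.Z m (Option (Fin m)) ∧ ¬ S.Tr fun i => (ζ.1 i).1} with hZ'
  obtain ⟨D, hD, hdef⟩ := S.deform (Link.bs : Option (Fin m) → Fin m) False (fun i => τ0 i)
    (fun i => τ1 i) (fun i => h0 i) (fun i => h1 i) (fun i => h01 i) ℓ0 lam (1 / 2) hlam
    (by norm_num) Z' (fun _ h => h.1)
    (fun ζ hζ hcl => ⟨hζ, fun ht => by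
      have h1 := hvc.continuousAt.eventually (S.tr_open (S.stepLe_of_mem hζ) ht)
      obtain ⟨ζ', h2, h3⟩ := (h1.and_frequently (mem_closure_iff_frequently.mp hcl)).exists
      exact h3.2 (h2 (S.stepLe_of_mem h3.1))⟩)
    (fun w T hT hw hZ h0 => ⟨hZ T ⟨hT, le_rfl⟩, fun ht => h0.2
      (S.tr_of_path (fun t i => ((w t).1 i).1) T hT (hvc.comp_continuousOn hw)
        (fun t h => S.stepLe_of_mem (hZ t h)) ht)⟩)
    (fun u hu ζ hζ z hz _ => (hζ.2 (S.tr_inner (Finset.sum_nonneg fun (i : Fin m) _ =>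
        add_nonneg (h0 i) (mul_nonneg hu.1 (h1 i))) hz)).elim) (Or.inl (hs1 ▸ hout))
  refine ⟨D, hD, fun Tb hTb a n c hc hdep => ?_⟩
  have hcl' : ∀ p, p.1 ∈ Tb → (c p m).1 = (c p 0).1 := fun p hp =>
    (hc.tgt p ⟨hp, mem_univ _⟩).trans (hc.src p ⟨hp, mem_univ _⟩).symm
  set f : E × (ℕ → E) → Cfg E m (Option (Fin m)) := fun p => Link.ex (n p) (toCfg m (c p))
    with hf
  have hfc : ContinuousOn f (Tb ×ˢ univ) := by
    have h2 := continuousOn_toCfg hc.cont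
    refine ContinuousOn.prodMk h2.fst (continuousOn_pi.2 fun j => ?_)
    cases j with
    | none => exact hc.nc
    | some i => exact (continuous_apply i).comp_continuousOn h2.snd
  have hfd : ∀ y P P', (∀ i < m, P i = P' i) → f (y, P) = f (y, P') := by
    intro y P P' h
    obtain ⟨e1, e2⟩ := hdep y P P' h
    simp only [hf, toCfg, e1]
    congr 2 <;> funext i <;> rw [e2 i i.2]
  have hf0 : ∀ p, p.1 ∈ Tb → ((f p).1 0).1 = a p := fun p hp => hc.src p ⟨hp, mem_univ _⟩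
  have hfch : ∀ p, ∀ i < m, xpushCh (f p) i = c p i := fun p i hi => ofCfg_toCfg (c p) hi
  have hactf : ∀ (τ : ℕ → ℝ) p, p.1 ∈ Tb → S.act Link.bs (fun i : Fin m => τ i) (f p) =
      S.ValT τ m (c p) + S.Q (a p) (n p) := fun τ p hp => by
    rw [hf, Link.act_ex, S.act_toCfg τ (hcl' p hp), ← hf0 p hp]
    rfl
  have hZ : ∀ p, p.1 ∈ Tb → f p ∈ Z' := fun p hp =>
    ⟨S.toCfg_mem (hc.valid p ⟨hp, mem_univ _⟩) (hcl' p hp), hc.nt p ⟨hp, mem_univ _⟩⟩
  have hτ0 : ∀ i, τ0 i ≤ S.St.τ₀ := fun i => by linarith [h01 i, h1 i]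
  have hanti : ∀ {τ : Fin m → ℝ}, (∀ i, 0 ≤ τ i) → (∀ i, τ i ≤ S.St.τ₀) → ∀ ζ ∈ Z',
      S.act Link.bs (fun _ => S.St.τ₀) ζ ≤ S.act Link.bs τ ζ := fun hτ1 hτ2 ζ hζ =>
    (S.act_anti Link.bs hτ1 hτ2 (fun _ => le_rfl) hζ.1).1
  have hval : ∀ ζ : Cfg E m (Option (Fin m)), S.Val m (xpushCh ζ) + S.Q (ζ.1 0).1 (ζ.2 none) =
      S.act Link.bs (fun _ => S.St.τ₀) ζ := fun ζ => (xpush_act S (fun _ => S.St.τ₀) ζ).symm
  obtain ⟨R, hR⟩ := hc.proper (-(ℓ0 - lam - 1 / 2 - m * S.St.τ₀))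
  have hfar : ∀ p, p.1 ∈ Tb → (∃ i < m, R ≤ ‖p.2 i‖) →
      S.act Link.bs (fun i : Fin m => τ0 i) (f p) ≤ ℓ0 - lam - 1 / 2 := by
    intro p hp hP
    have e1 := hR p ⟨hp, mem_univ _⟩ hP
    have e2 := (S.act_anti Link.bs (τ := fun i : Fin m => τ0 i) (τ' := fun _ => S.St.τ₀)
      (fun i => h0 i) (fun i => hτ0 i) (fun _ => le_rfl) (hZ p hp).1).2
    have e3 : ∑ i : Fin m, (S.St.τ₀ - τ0 i) ≤ ∑ _i : Fin m, S.St.τ₀ :=
      Finset.sum_le_sum fun i _ => by linarith [h0 i]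
    simp only [Finset.sum_const, Finset.card_univ, Fintype.card_fin, nsmul_eq_mul] at e3
    have e4 := hactf (fun _ => S.St.τ₀) p hp
    unfold Sys.Val at e1
    linarith
  obtain ⟨K, hKf, hK, hPK⟩ := xpush_compact m hTb f hfc hfd R
  obtain ⟨e, ec, e0, e1, -, eZ, ele, elip, efix⟩ :=
    hdef K (fun ζ hζ => by obtain ⟨p, hp, rfl⟩ := hKf hζ; exact hZ p hp.1) hK
  have hfix : ∀ p, p.1 ∈ Tb → (∃ i < m, R ≤ ‖p.2 i‖) → ∀ u, e (u, f p) = f p := fun p hp hP =>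
    efix _ (hZ p hp).1 (hfar p hp hP)
  have hdich : ∀ p, p.1 ∈ Tb → f p ∈ K ∨ ∃ i < m, R ≤ ‖p.2 i‖ := by
    intro p hp
    by_cases h : ∃ i < m, R ≤ ‖p.2 i‖
    · exact Or.inr h
    · push Not at h
      exact Or.inl (hPK p hp fun i hi => (h i hi).le)
  have hmem : ∀ u p, p.1 ∈ Tb → e (u, f p) ∈ Z' := by
    intro u p hp
    rcases hdich p hp with h | h
    · exact eZ _ h u
    · rw [hfix p hp h]
      exact hZ p hp
  have hlev : ∀ p, p.1 ∈ Tb → S.ValT τ0 m (c p) + S.Q (a p) (n p) ≤ ℓ0 → ∀ u ∈ Icc (0 : ℝ) 1,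
      S.act Link.bs (fun _ => S.St.τ₀) (e (u, f p)) ≤ ℓ0 - u * lam := by
    intro p hp hl u hu
    rcases hdich p hp with h | h
    · refine (hanti (fun i => add_nonneg (h0 i) (mul_nonneg hu.1 (h1 i))) (fun i => ?_) _
        (hmem u p hp)).trans (ele _ h ((hactf τ0 p hp).trans_le hl) u hu)
      nlinarith [h01 i, h1 i, hu.2]
    · rw [hfix p hp h]
      refine (hanti (fun i => h0 i) (fun i => hτ0 i) _ (hZ p hp)).trans ((hfar p hp h).trans ?_)
      nlinarith [hu.2]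
  have hec : ContinuousOn (fun p : ℝ × E × (ℕ → E) => e (p.1, f p.2)) (univ ×ˢ Tb ×ˢ univ) :=
    ec.comp_continuousOn (continuousOn_fst.prodMk (hfc.comp continuousOn_snd fun p hp => hp.2))
  have hsame : ∀ u p, p.1 ∈ Tb → e (u, f p) = f p → ((e (u, f p)).1 0).1 = a p ∧
      (e (u, f p)).2 none = n p ∧ ∀ i < m, xpushCh (e (u, f p)) i = c p i := fun u p hp h => by
    rw [h]
    exact ⟨hf0 p hp, rfl, hfch p⟩
  refine ⟨fun p => ((e (p.1, f p.2)).1 0).1, fun p => (e (p.1, f p.2)).2 none,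
    fun p => xpushCh (e (p.1, f p.2)), ⟨fun i _ => ?_, ?_, fun p hp => ?_,
      fun p _ => ofCfg_zero _, fun p _ => ofCfg_self _, fun L => ?_, fun p hp => ?_⟩,
    fun u hu p hp => hsame u p hp (e0 u hu _), fun p hp hl u => ?_, fun u u' p hp => ?_,
    fun u y P P' h => ?_, fun p hp hl u => hsame u p hp
      (efix _ (hZ p hp).1 ((hactf τ0 p hp).trans_le hl) u)⟩
  · have : Continuous fun ζ : Cfg E m (Option (Fin m)) => xpushCh ζ i :=
      (continuous_ofCfg i).comp (by fun_prop)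
    exact this.comp_continuousOn hec
  · exact (continuous_apply none).comp_continuousOn hec.snd
  · exact S.valid_ofCfg (ζ := ((e (p.1, f p.2)).1, fun i => (e (p.1, f p.2)).2 (some i)))
      (hmem p.1 p.2 hp.2.1).1
  · obtain ⟨R', hR'⟩ := hc.proper L
    refine ⟨max R R', fun p hp ⟨i, hi, hP⟩ => ?_⟩
    rw [hval, hfix p.2 hp.2.1 ⟨i, hi, (le_max_left _ _).trans hP⟩,
      hactf (fun _ => S.St.τ₀) p.2 hp.2.1]
    exact hR' p.2 hp.2 ⟨i, hi, (le_max_right _ _).trans hP⟩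
  · simp only [xpush_fst]
    exact (hmem p.1 p.2 hp.2.1).2
  · have hl1 : 1 ≤ u → S.act Link.bs (fun _ => S.St.τ₀) (e (u, f p)) ≤ ℓ0 - lam := fun hu => by
      rw [e1 u hu]
      simpa using hlev p hp hl 1 ⟨zero_le_one, le_rfl⟩
    simp only [hval]
    refine ⟨?_, hl1⟩
    rcases le_total u 0 with h | h
    · have := hlev p hp hl 0 ⟨le_rfl, zero_le_one⟩
      rw [e0 0 le_rfl] at this
      simpa only [e0 _ h, zero_mul, sub_zero] using this
    · rcases le_total u 1 with h' | h'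
      · linarith [hlev p hp hl u ⟨h, h'⟩, mul_nonneg h hlam]
      · linarith [hl1 h']
  · rcases hdich p hp with h | h
    · refine le_trans ?_ (elip _ h u u')
      exact (norm_fst_le ((e (u, f p) - e (u', f p)).1 0)).trans
        ((norm_le_pi_norm (e (u, f p) - e (u', f p)).1 0).trans (norm_fst_le _))
    · simp only [hfix p hp h, sub_self, norm_zero]
      positivity
  · simp only [hfd y P P' h, and_self]

end Pool.Agent.Wein
end

-- part Pool.Agent.P.MP_e3ee0c_gt.XTopA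
section

/-! Lifts of circle valued functions. -/

open Set Filter Topology
open scoped ContDiff InnerProductSpace

namespace Pool.Agent.Wein

open TopAux

variable {E : Type} [NormedAddCommGroup E] [InnerProductSpace ℝ E]

lemma xtopa_norm {t : ℝ} (h : |t| ≤ 1 / 2) : ‖(t : UnitAddCircle)‖ = |t| :=
  (AddCircle.norm_coe_eq_abs_iff (1 : ℝ) one_ne_zero).2 (by rwa [abs_one])

lemma lf_coe (a : UnitAddCircle) : ((lf a : ℝ) : UnitAddCircle) = a :=
  AddCircle.coe_equivIoc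

lemma abs_lf (a : UnitAddCircle) : |lf a| = ‖a‖ := by
  have h := (AddCircle.equivIoc 1 (-(1 / 2)) a).2
  have h' : |lf a| ≤ 1 / 2 := abs_le.2 ⟨h.1.le, by have := h.2; unfold lf; linarith⟩
  rw [← xtopa_norm h', lf_coe]

lemma lf_of {t : ℝ} (h : |t| < 1 / 2) : lf (t : UnitAddCircle) = t := by
  have h' := abs_lt.1 h
  exact AddCircle.equivIoc_coe_of_mem ⟨h'.1, by linarith [h'.2]⟩

lemma lf_cont : ContinuousOn lf {a | ‖a‖ < 1 / 2} := by
  intro a ha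
  have hne : a ≠ ((-(1 / 2) : ℝ) : UnitAddCircle) := by
    rintro rfl
    have h : ‖((-(1 / 2) : ℝ) : UnitAddCircle)‖ = |(-(1 / 2) : ℝ)| :=
      xtopa_norm (by rw [abs_neg, abs_of_pos] <;> norm_num)
    rw [abs_neg, abs_of_pos (by norm_num)] at h
    exact absurd ha (by rw [mem_ofPred_eq, h]; exact lt_irrefl _)
  exact (continuous_subtype_val.continuousAt.comp
    (AddCircle.continuousAt_equivIoc 1 (-(1 / 2)) hne)).continuousWithinAt

lemma eq_of_coe {a b : ℝ} (h : (a : UnitAddCircle) = (b : UnitAddCircle)) (h' : |a - b| < 1) :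
    a = b := by
  have h0 : ((a - b : ℝ) : UnitAddCircle) = 0 := by rw [AddCircle.coe_sub, h, sub_self]
  obtain ⟨n, hn⟩ := (AddCircle.coe_eq_zero_iff (1 : ℝ)).1 h0
  rw [zsmul_eq_mul, mul_one] at hn
  rw [← hn] at h'
  have h1 : |n| < 1 := by exact_mod_cast h'
  have h2 : n = 0 := Int.abs_lt_one_iff.1 h1
  rw [h2, Int.cast_zero] at hn
  linarith

lemma near_of_coe {a b : ℝ} (h : ‖(a : UnitAddCircle) - (b : UnitAddCircle)‖ ≤ 1 / 8)
    (h' : |a - b| ≤ 1 / 4) : |a - b| ≤ 1 / 8 := by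
  rwa [← AddCircle.coe_sub, xtopa_norm (h'.trans (by norm_num))] at h

lemma xtopa_clamp_nonpos {u : ℝ} (h : u ≤ 0) : clamp u = 0 :=
  max_eq_left ((min_le_right _ _).trans h)

lemma xtopa_coe_sum (n : ℕ) (f : ℕ → ℝ) :
    ((∑ i ∈ Finset.range n, f i : ℝ) : UnitAddCircle) =
      ∑ i ∈ Finset.range n, (f i : UnitAddCircle) := by
  induction n with
  | zero => simp
  | succ n ih => rw [Finset.sum_range_succ, Finset.sum_range_succ, AddCircle.coe_add, ih]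

namespace Wall

variable {N : Set E} (Wl : Wall N)

lemma modulus (hN : IsCompact N) {η : ℝ} (hη : 0 < η) :
    ∃ ρ > 0, ∀ x ∈ N, ∀ x' ∈ N, ‖x - x'‖ ≤ ρ → ‖Wl.th x - Wl.th x'‖ ≤ η := by
  obtain ⟨ρ, hρ, h⟩ := Metric.uniformContinuousOn_iff_le.1
    (hN.uniformContinuousOn_of_continuous Wl.thc) η hη
  refine ⟨ρ, hρ, fun x hx x' hx' hd => ?_⟩
  rw [← dist_eq_norm] at hd ⊢
  exact h x hx x' hx' hd

lemma K_compact (hN : IsCompact N) : IsCompact Wl.K := by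
  have h : IsClosed (N ∩ (fun x => ‖Wl.th x‖) ⁻¹' Iic Wl.d) :=
    Wl.thc.norm.preimage_isClosed_of_isClosed hN.isClosed isClosed_Iic
  exact hN.of_isClosed_subset h fun x hx => hx.1

lemma σ_mod (hN : IsCompact N) {η : ℝ} (hη : 0 < η) :
    ∃ ρ > 0, ∀ x ∈ Wl.K, ∀ s t : UnitAddCircle, ‖s - t‖ ≤ ρ → ‖Wl.σ (x, s) - Wl.σ (x, t)‖ ≤ η := by
  have hc : IsCompact (Wl.K ×ˢ (univ : Set UnitAddCircle)) :=
    (Wl.K_compact hN).prod isCompact_univ
  obtain ⟨ρ, hρ, h⟩ := Metric.uniformContinuousOn_iff_le.1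
    (hc.uniformContinuousOn_of_continuous Wl.σc) η hη
  refine ⟨ρ, hρ, fun x hx s t hd => ?_⟩
  rw [← dist_eq_norm] at hd ⊢
  refine h (x, s) ⟨hx, mem_univ _⟩ (x, t) ⟨hx, mem_univ _⟩ ?_
  rw [Prod.dist_eq, dist_self]
  exact max_le hρ.le hd

lemma c_mem_K {t : ℝ} (h : |t| ≤ Wl.d) : Wl.c t ∈ Wl.K := by
  refine ⟨Wl.cm t, ?_⟩
  have := Wl.dle
  rw [Wl.cth, xtopa_norm (by linarith)]
  exact h

/-- The change of height along paths of bounded speed is bounded. -/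
theorem lift (hN : IsCompact N) (D : ℝ) (hD : 0 ≤ D) : ∃ t : ℝ, 0 ≤ t ∧
    ∀ {X : Type} [TopologicalSpace X] (s : Set X) (a : ℝ × X → E), ContinuousOn a (univ ×ˢ s) →
      (∀ u, ∀ p ∈ s, a (u, p) ∈ N) →
      (∀ u u', ∀ p ∈ s, ‖a (u, p) - a (u', p)‖ ≤ D * |u - u'|) →
      ∃ h : ℝ × X → ℝ, ContinuousOn h (univ ×ˢ s) ∧ ∀ u, ∀ p ∈ s,
        ((h (u, p) : ℝ) : UnitAddCircle) = Wl.th (a (clamp u, p)) - Wl.th (a (0, p)) ∧
        |h (u, p)| ≤ t ∧ (u ≤ 0 → h (u, p) = 0) := by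
  obtain ⟨ρ, hρ, hm⟩ := Wl.modulus hN (η := 1 / 4) (by norm_num)
  obtain ⟨n, hn⟩ := exists_nat_gt (D / ρ)
  have hn0 : (0 : ℝ) < n := (div_nonneg hD hρ.le).trans_lt hn
  have hDn : D / n ≤ ρ := by
    rw [div_lt_iff₀ hρ] at hn
    rw [div_le_iff₀ hn0]
    linarith
  refine ⟨n, hn0.le, fun {X} _ s a ha haN hal => ?_⟩
  let φ : ℕ → ℝ × X → UnitAddCircle := fun i q => Wl.th (a (clamp q.1 * ((i : ℝ) / n), q.2))
  have hφ : ∀ i, ContinuousOn (φ i) (univ ×ˢ s) := fun i => by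
    have h1 : Continuous fun q : ℝ × X => (clamp q.1 * ((i : ℝ) / n), q.2) :=
      ((clamp_cont.comp continuous_fst).mul continuous_const).prodMk continuous_snd
    exact Wl.thc.comp (ha.comp h1.continuousOn fun q hq => ⟨mem_univ _, hq.2⟩)
      fun q hq => haN _ _ hq.2
  have hs : ∀ i, ∀ q : ℝ × X, q.2 ∈ s → ‖φ (i + 1) q - φ i q‖ ≤ 1 / 4 := fun i q hq => by
    refine hm _ (haN _ _ hq) _ (haN _ _ hq) ((hal _ _ _ hq).trans (le_trans ?_ hDn))
    have hc := clamp_mem q.1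
    have e : clamp q.1 * (((i + 1 : ℕ) : ℝ) / n) - clamp q.1 * ((i : ℝ) / n) = clamp q.1 / n := by
      push_cast
      ring
    rw [e, abs_of_nonneg (div_nonneg hc.1 hn0.le), ← mul_div_assoc]
    exact div_le_div_of_nonneg_right (mul_le_of_le_one_right hD hc.2) hn0.le
  refine ⟨fun q => ∑ i ∈ Finset.range n, lf (φ (i + 1) q - φ i q), ?_, fun u p hp => ⟨?_, ?_, ?_⟩⟩
  · refine continuousOn_finsetSum _ fun i _ => lf_cont.comp ((hφ _).sub (hφ _)) fun q hq => ?_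
    exact (hs i q hq.2).trans_lt (by norm_num)
  · rw [xtopa_coe_sum]
    simp only [lf_coe]
    rw [Finset.sum_range_sub (fun i => φ i (u, p))]
    simp only [φ, div_self hn0.ne', mul_one, Nat.cast_zero, zero_div, mul_zero]
  · refine (Finset.abs_sum_le_sum_abs _ _).trans ?_
    have := Finset.sum_le_card_nsmul (Finset.range n)
      (fun i => |lf (φ (i + 1) (u, p) - φ i (u, p))|) 1 fun i _ => by
        rw [abs_lf]
        exact (hs i (u, p) hp).trans (by norm_num)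
    simpa using this
  · intro hu
    refine Finset.sum_eq_zero fun i _ => ?_
    have h0 : lf ((0 : ℝ) : UnitAddCircle) = 0 := lf_of (by norm_num)
    simp only [φ, xtopa_clamp_nonpos hu, zero_mul, sub_self]
    exact h0

end Wall

lemma xtopa_r (S : Sys E) {y : E} (hy : ∃ x ∈ S.S, ‖y - x‖ ≤ S.δ) : S.r y ∈ S.S :=
  let ⟨_, hx, hu⟩ := hy
  (S.tube hx hu).1

lemma xtopa_thick (S : Sys E) {y : E} (hy : y ∈ Metric.thickening S.δ S.S) :
    ∃ x ∈ S.S, ‖y - x‖ ≤ S.δ := by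
  obtain ⟨x, hx, hd⟩ := Metric.mem_thickening_iff.1 hy
  exact ⟨x, hx, by rw [← dist_eq_norm]; exact hd.le⟩

namespace Wall

variable {S : Sys E} (Wl : Wall S.S)

lemma xtopa_thr : ContinuousOn (fun y => Wl.th (S.r y)) {y | ∃ x ∈ S.S, ‖y - x‖ ≤ S.δ} :=
  Wl.thc.comp S.smooth.continuous.continuousOn fun _ hy => xtopa_r S hy

lemma r_mem {y : E} (hy : y ∈ Wl.tube) : S.r y ∈ Wl.K := ⟨xtopa_r S hy.1, hy.2⟩

lemma tube_compact [FiniteDimensional ℝ E] : IsCompact Wl.tube := by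
  have hT : IsCompact {y | ∃ x ∈ S.S, ‖y - x‖ ≤ S.δ} := by
    have h1 : {y | ∃ x ∈ S.S, ‖y - x‖ ≤ S.δ} =
        (fun q : E × E => q.1 + q.2) '' (S.S ×ˢ Metric.closedBall 0 S.δ) := by
      ext u
      constructor
      · rintro ⟨x, hx, hu⟩
        exact ⟨(x, u - x), ⟨hx, by simpa using hu⟩, by simp⟩
      · rintro ⟨⟨x, v⟩, ⟨hx, hv⟩, rfl⟩
        exact ⟨x, hx, by simpa using hv⟩
    rw [h1]
    exact (S.compact.prod (isCompact_closedBall _ _)).image (by fun_prop)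
  have h : IsClosed ({y | ∃ x ∈ S.S, ‖y - x‖ ≤ S.δ} ∩
      (fun y => ‖Wl.th (S.r y)‖) ⁻¹' Iic Wl.d) :=
    Wl.xtopa_thr.norm.preimage_isClosed_of_isClosed hT.isClosed isClosed_Iic
  exact hT.of_isClosed_subset h fun x hx => hx.1

lemma tube_closed [FiniteDimensional ℝ E] : IsClosed Wl.tube := Wl.tube_compact.isClosed

lemma tau_cont : ContinuousOn Wl.tau Wl.tube := by
  refine lf_cont.comp (Wl.xtopa_thr.mono fun _ hy => hy.1) fun y hy => ?_
  have h1 := Wl.dle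
  have h2 := hy.2
  change ‖Wl.th (S.r y)‖ < 1 / 2
  linarith

lemma tau_coe (y : E) : ((Wl.tau y : ℝ) : UnitAddCircle) = Wl.th (S.r y) := lf_coe _

lemma abs_tau (y : E) : |Wl.tau y| = ‖Wl.th (S.r y)‖ := abs_lf _

/-- The open tube. -/
lemma open_tube : IsOpen {y | y ∈ Metric.thickening S.δ S.S ∧ ‖Wl.th (S.r y)‖ < Wl.d} ∧
    {y | y ∈ Metric.thickening S.δ S.S ∧ ‖Wl.th (S.r y)‖ < Wl.d} ⊆ Wl.tube := by
  refine ⟨?_, fun y hy => ⟨xtopa_thick S hy.1, hy.2.le⟩⟩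
  exact (Wl.xtopa_thr.mono fun _ hy => xtopa_thick S hy).norm.isOpen_inter_preimage
    Metric.isOpen_thickening (isOpen_Iio (a := Wl.d))

end Wall

end Pool.Agent.Wein
end

-- part Pool.Agent.P.MP_e3ee0c_gt.XGhost
section

/-! From one fibre to all fibres. -/

open Set Filter Topology
open scoped ContDiff InnerProductSpace

namespace Pool.Agent.Wein

variable {E : Type} [NormedAddCommGroup E] [InnerProductSpace ℝ E]

/-- One block: the homotopy at x is transported to the fibres near v. -/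
lemma Sys.xblock (S : Sys E) (hN : IsPathConnected S.S) {x v : E} (hx : x ∈ S.S) (hv : v ∈ S.S) :
    ∃ T' : ℝ, 0 ≤ T' ∧ ∀ (k M : ℕ) (T Δ ℓ : ℝ), 0 ≤ T → S.Kill T Δ x univ (S.cst k M x) ℓ →
      ∃ (k' M' : ℕ) (G : S.S × ℝ → Vc E),
        S.Good G k' M' (T + T') Δ (fun p => (p.1 : E)) (fun p => (p.1 : E)) ∧
        (∀ y : S.S, G (y, 0) = S.cst k' M' y) ∧
        ∀ y : S.S, ‖(y : E) - v‖ ≤ S.δ / 2 → S.Low (G (y, 1)) (T' + ℓ) := by
  obtain ⟨Λ, hΛc, hΛ0, hΛ1, hΛS⟩ := S.gh_track hN hx hv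
  have hK : IsCompact (S.S ×ˢ Icc (0 : ℝ) 1) := S.compact.prod isCompact_Icc
  obtain ⟨η, hη, hu⟩ := Metric.uniformContinuousOn_iff.1
    (hK.uniformContinuousOn_of_continuous hΛc.continuousOn) S.μ S.μpos
  obtain ⟨J0, hJ0⟩ := exists_nat_one_div_lt hη
  set J : ℕ := J0 + 1 with hJ
  have hJpos : (0 : ℝ) < J := by positivity
  have hJη : 1 / (J : ℝ) < η := by simpa [hJ] using hJ0
  have hτ := S.St.τpos
  have hcl := ghClamp_cont
  have hδ := S.δpos
  let a : E × ℝ → ℝ := fun q => ghClamp q.2 * ghClamp (2 - 2 * ‖q.1 - v‖ / S.δ)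
  have hac : Continuous a := by fun_prop
  let s : E × ℝ → ℝ := fun q => ghClamp (2 * a q)
  have hsc : Continuous s := by fun_prop
  let y : E × ℝ → ℕ → E := fun q i => Λ (q.1, s q * (i / J))
  have hyc : ∀ i, Continuous fun q => y q i := fun i => by fun_prop
  have ha0 : ∀ z, ∀ u ≤ 0, a (z, u) = 0 := by
    intro z u hu
    simp only [a, ghClamp_low hu, zero_mul]
  have hs0 : ∀ q, a q = 0 → s q = 0 := by
    intro q hq
    simp only [s, hq, mul_zero, ghClamp_low le_rfl]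
  have hy0 : ∀ z ∈ S.S, ∀ u, a (z, u) = 0 → ∀ i, y (z, u) i = z := by
    intro z hz u h i
    simp only [y, hs0 _ h, zero_mul, hΛ0 z hz]
  have hyS : ∀ z ∈ S.S, ∀ u i, y (z, u) i ∈ S.S := by
    intro z hz u i
    rcases le_total ‖z - v‖ S.δ with h | h
    · exact hΛS z h _
    · rw [hy0 z hz u]
      · exact hz
      · have : 2 - 2 * ‖z - v‖ / S.δ ≤ 0 := by
          rw [sub_nonpos, le_div_iff₀ hδ]; linarith
        simp only [a, ghClamp_low this, mul_zero]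
  have hmem : ∀ q, ∀ i : ℕ, i ≤ J → s q * ((i : ℝ) / J) ∈ Icc (0 : ℝ) 1 := by
    intro q i hi
    have h1 := ghClamp_mem (2 * a q)
    have h2 : (i : ℝ) / J ≤ 1 := by
      rw [div_le_one hJpos]; exact_mod_cast hi
    have h3 : (0 : ℝ) ≤ (i : ℝ) / J := by positivity
    exact ⟨mul_nonneg h1.1 h3, mul_le_one₀ h1.2 h3 h2⟩
  have hstep : ∀ z ∈ S.S, ∀ u, ∀ i < J, ‖y (z, u) i - y (z, u) (i + 1)‖ ≤ S.μ := by
    intro z hz u i hi
    have h1 := hu (z, s (z, u) * ((i : ℝ) / J)) ⟨hz, hmem _ i hi.le⟩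
      (z, s (z, u) * (((i + 1 : ℕ) : ℝ) / J)) ⟨hz, hmem _ (i + 1) hi⟩ (by
        rw [Prod.dist_eq, dist_self, Real.dist_eq]
        refine max_lt hη (lt_of_le_of_lt ?_ hJη)
        have h2 := ghClamp_mem (2 * a (z, u))
        have h3 : s (z, u) * ((i : ℝ) / J) - s (z, u) * (((i + 1 : ℕ) : ℝ) / J) =
            -(s (z, u) * (1 / J)) := by
          push_cast; ring
        rw [h3, abs_neg, abs_of_nonneg (mul_nonneg h2.1 (by positivity))]
        exact mul_le_of_le_one_left (by positivity) h2.2)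
    rw [dist_eq_norm] at h1
    exact h1.le
  have hyJ : ∀ z u, 1 ≤ 2 * a (z, u) → y (z, u) J = x := by
    intro z u h
    simp only [y, s, ghClamp_high h, div_self hJpos.ne', mul_one, hΛ1]
  have hfirst : ∀ z ∈ S.S, ∀ u, y (z, u) 0 = z := by
    intro z hz u
    simp only [y, Nat.cast_zero, zero_div, mul_zero, hΛ0 z hz]
  have hι : Continuous fun p : S.S × ℝ => ((p.1 : E), p.2) := by fun_prop
  refine ⟨J * (S.St.τ₀ / 4) + J * (S.St.τ₀ / 4), by positivity, ?_⟩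
  rintro k M T Δ ℓ hT ⟨β, ⟨H, hH, -, hH0, hH1⟩, hβ⟩
  rw [S.cst_k, S.cst_M] at hH
  have F1 : S.Good (fun p : S.S × ℝ => S.nrm 0 J (y ((p.1 : E), p.2))) 0 J
      ((Finset.range J).card * (S.St.τ₀ / 4)) Δ (fun p => (p.1 : E))
      (fun p => y ((p.1 : E), p.2) J) :=
    Sys.good_nrm 0 J Δ (v := fun p : S.S × ℝ => y ((p.1 : E), p.2))
      (fun i _ => (hyc i).comp hι)
      (fun p i hi => ⟨hyS _ p.1.2 _ i, hstep _ p.1.2 _ i hi⟩) (Finset.range J)
      (fun _ i hi h => (h (Finset.mem_range.2 hi)).elim) (fun p => hfirst _ p.1.2 _)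
      (fun _ => rfl)
  have F3 : S.Good (fun p : S.S × ℝ => S.nrm 0 J (fun i => y ((p.1 : E), p.2) (J - i))) 0 J
      ((Finset.range J).card * (S.St.τ₀ / 4)) Δ (fun p => y ((p.1 : E), p.2) J)
      (fun p => (p.1 : E)) :=
    Sys.good_nrm 0 J Δ (v := fun (p : S.S × ℝ) i => y ((p.1 : E), p.2) (J - i))
      (fun i _ => (hyc _).comp hι)
      (fun p i hi => ⟨hyS _ p.1.2 _ _, by
        have h1 := hstep _ p.1.2 p.2 (J - (i + 1)) (by omega)
        rw [show J - (i + 1) + 1 = J - i by omega, norm_sub_rev] at h1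
        exact h1⟩) (Finset.range J)
      (fun _ i hi h => (h (Finset.mem_range.2 hi)).elim) (fun _ => rfl)
      (fun p => by simpa using hfirst _ p.1.2 p.2)
  rw [Finset.card_range] at F1 F3
  have hfc : Continuous fun p : S.S × ℝ => 2 * a ((p.1 : E), p.2) - 1 :=
    (continuous_const.mul (hac.comp hι)).sub continuous_const
  have FA : S.Good (fun p : S.S × ℝ => S.cst k M (y ((p.1 : E), p.2) J)) k M T Δ
      (fun p => y ((p.1 : E), p.2) J) (fun p => y ((p.1 : E), p.2) J) :=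
    (Sys.good_cst k M Δ ((hyc J).comp hι) (fun p => hyS _ p.1.2 _ J)).mono hT
  have FB := FA.paste (hH.comp hfc) hfc (fun p hp => by
    have h1 : y ((p.1 : E), p.2) J = x := hyJ _ _ (by linarith)
    exact ⟨by rw [h1, hp, hH0], h1⟩)
  have hbase : (fun p : S.S × ℝ => if 2 * a ((p.1 : E), p.2) - 1 ≤ 0 then
      y ((p.1 : E), p.2) J else x) = fun p => y ((p.1 : E), p.2) J := by
    funext p
    split_ifs with h
    · rfl
    · exact (hyJ _ _ (by linarith [not_le.1 h])).symm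
  rw [hbase] at FB
  have F := F1.mul (FB.mul F3)
  refine ⟨_, _, _, F.mono (le_of_eq (by ring)), fun z => ?_, fun z hzv => ?_⟩
  · have h0 := ha0 (z : E) 0 le_rfl
    have h1 : y ((z : E), (0 : ℝ)) = fun _ => (z : E) := funext (hy0 _ z.2 0 h0)
    have h2 : 2 * a ((z : E), (0 : ℝ)) - 1 ≤ 0 := by rw [h0]; norm_num
    simp only [if_pos h2, h1]
    exact (congrArg (S.cst 0 J (z : E) * ·) (S.cst_mul k M 0 J z)).trans (S.cst_mul _ _ _ _ _)
  · have ha1 : a ((z : E), (1 : ℝ)) = 1 := by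
      have h1 : 1 ≤ 2 - 2 * ‖(z : E) - v‖ / S.δ := by
        have : 2 * ‖(z : E) - v‖ / S.δ ≤ 1 := by
          rw [div_le_one hδ]; linarith
        linarith
      simp only [a, ghClamp_high le_rfl, ghClamp_high h1, mul_one]
    have h2 : S.Low (if 2 * a ((z : E), (1 : ℝ)) - 1 ≤ 0 then S.cst k M (y ((z : E), (1 : ℝ)) J)
        else H (2 * a ((z : E), (1 : ℝ)) - 1)) ℓ := by
      rw [ha1, if_neg (by norm_num), show (2 * 1 - 1 : ℝ) = 1 by norm_num, hH1]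
      exact hβ
    have h3 := Sys.low_mul FB F3 (z, 1) h2 (F3.low (z, 1))
    exact (Sys.low_mul F1 (FB.mul F3) (z, 1) (F1.low (z, 1)) h3).mono (le_of_eq (by ring))

theorem Sys.xghost (S : Sys E) (hN : IsPathConnected S.S) {x : E} (hx : x ∈ S.S) :
    ∃ K T' : ℝ, 0 ≤ K ∧ 0 ≤ T' ∧ ∀ (k M : ℕ) (T Δ ℓ : ℝ), 0 ≤ T →
      S.Kill T Δ x univ (S.cst k M x) ℓ → ∃ (k' M' : ℕ) (G : S.S × ℝ → Vc E),
        S.Good G k' M' (K * T + T') Δ (fun p => (p.1 : E)) (fun p => (p.1 : E)) ∧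
        (∀ y : S.S, G (y, 0) = S.cst k' M' y) ∧
        ∀ y : S.S, S.Low (G (y, 1)) (K * T + T' + ℓ) := by
  have key : ∃ K T' : ℝ, 0 ≤ K ∧ 0 ≤ T' ∧ ∀ (k M : ℕ) (T Δ ℓ : ℝ), 0 ≤ T →
      S.Kill T Δ x univ (S.cst k M x) ℓ → ∃ (k' M' : ℕ) (G : S.S × ℝ → Vc E),
        S.Good G k' M' (K * T + T') Δ (fun p => (p.1 : E)) (fun p => (p.1 : E)) ∧
        (∀ y : S.S, G (y, 0) = S.cst k' M' y) ∧
        ∀ y : S.S, (y : E) ∈ S.S → S.Low (G (y, 1)) (K * T + T' + ℓ) := by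
    refine S.compact.induction_on (p := fun s : Set E => ∃ K T' : ℝ, 0 ≤ K ∧ 0 ≤ T' ∧
      ∀ (k M : ℕ) (T Δ ℓ : ℝ), 0 ≤ T →
      S.Kill T Δ x univ (S.cst k M x) ℓ → ∃ (k' M' : ℕ) (G : S.S × ℝ → Vc E),
        S.Good G k' M' (K * T + T') Δ (fun p => (p.1 : E)) (fun p => (p.1 : E)) ∧
        (∀ y : S.S, G (y, 0) = S.cst k' M' y) ∧
        ∀ y : S.S, (y : E) ∈ s → S.Low (G (y, 1)) (K * T + T' + ℓ)) ?_ ?_ ?_ ?_
    · obtain ⟨T', hT0, hT'⟩ := S.xblock hN hx hx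
      refine ⟨1, T', zero_le_one, hT0, fun k M T Δ ℓ hT hH => ?_⟩
      obtain ⟨k', M', G, h1, h2, -⟩ := hT' k M T Δ ℓ hT hH
      exact ⟨k', M', G, h1.mono (le_of_eq (by ring)), h2, fun y hy => hy.elim⟩
    · rintro s t hst ⟨K, T', hK, hT0, hT'⟩
      refine ⟨K, T', hK, hT0, fun k M T Δ ℓ hT hH => ?_⟩
      obtain ⟨k', M', G, h1, h2, h3⟩ := hT' k M T Δ ℓ hT hH
      exact ⟨k', M', G, h1, h2, fun y hy => h3 y (hst hy)⟩
    · rintro s t ⟨K1, T1, hK1, hT10, hT1⟩ ⟨K2, T2, hK2, hT20, hT2⟩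
      refine ⟨K1 + K2, T1 + T2, add_nonneg hK1 hK2, add_nonneg hT10 hT20,
        fun k M T Δ ℓ hT hH => ?_⟩
      obtain ⟨k1, M1, G1, a1, a2, a3⟩ := hT1 k M T Δ ℓ hT hH
      obtain ⟨k2, M2, G2, b1, b2, b3⟩ := hT2 k M T Δ ℓ hT hH
      refine ⟨_, _, _, (a1.mul b1).mono (le_of_eq (by ring)), fun y => ?_, fun y hy => ?_⟩
      · simp only [a2 y, b2 y, S.cst_mul]
      · rcases hy with hy | hy
        · exact (Sys.low_mul a1 b1 (y, 1) (a3 y hy) (b1.low (y, 1))).mono (le_of_eq (by ring))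
        · exact (Sys.low_mul a1 b1 (y, 1) (a1.low (y, 1)) (b3 y hy)).mono (le_of_eq (by ring))
    · intro v hv
      obtain ⟨T', hT0, hT'⟩ := S.xblock hN hx hv
      refine ⟨Metric.closedBall v (S.δ / 2), mem_nhdsWithin_of_mem_nhds
        (Metric.closedBall_mem_nhds v (by linarith [S.δpos])), 1, T', zero_le_one, hT0,
        fun k M T Δ ℓ hT hH => ?_⟩
      obtain ⟨k', M', G, h1, h2, h3⟩ := hT' k M T Δ ℓ hT hH
      exact ⟨k', M', G, h1.mono (le_of_eq (by ring)), h2,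
        fun y hy => (h3 y (by simpa [dist_eq_norm] using hy)).mono (by linarith)⟩
  obtain ⟨K, T', hK, hT0, hT'⟩ := key
  refine ⟨K, T', hK, hT0, fun k M T Δ ℓ hT hH => ?_⟩
  obtain ⟨k', M', G, h1, h2, h3⟩ := hT' k M T Δ ℓ hT hH
  exact ⟨k', M', G, h1, h2, fun y => h3 y y.2⟩

end Pool.Agent.Wein
end

-- part Pool.Agent.P.MP_e3ee0c_gt.XHtp
section

/-! Homotopies of families of closed chains. -/

open Set Filter Topology
open scoped ContDiff InnerProductSpace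

namespace Pool.Agent.Wein

variable {E : Type} [NormedAddCommGroup E] [InnerProductSpace ℝ E]

namespace Sys

variable {S : Sys E} {T Δ : ℝ} {x : E} {O : Set (Pm E)} {α β γ : Vc E}

lemma Htp.intro {H : ℝ → Vc E} {k M : ℕ} (h : S.Good H k M T Δ (fun _ => x) (fun _ => x))
    (hO : ∀ u, (H u).Ω ⊆ O) (h0 : H 0 = α) (h1 : H 1 = β) : S.Htp T Δ x O α β := by
  have hk : α.k = k := h0 ▸ h.hk 0
  have hM : α.M = M := h0 ▸ h.hM 0
  exact ⟨H, by rw [hk, hM]; exact h, hO, h0, h1⟩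

lemma Htp.mono (h : S.Htp T Δ x O α β) {T' : ℝ} (hT : T ≤ T') {O' : Set (Pm E)} (hO : O ⊆ O') :
    S.Htp T' Δ x O' α β := by
  obtain ⟨H, hH, h1, h2, h3⟩ := h
  exact ⟨H, hH.mono hT, fun u => (h1 u).trans hO, h2, h3⟩

lemma Htp.trans (h : S.Htp T Δ x O α β) (h' : S.Htp T Δ x O β γ) : S.Htp T Δ x O α γ := by
  obtain ⟨H, hH, h1, h2, h3⟩ := h
  obtain ⟨H', hH', h1', h2', h3'⟩ := h'
  have hk : β.k = α.k := h3 ▸ hH.hk 1
  have hM : β.M = α.M := h3 ▸ hH.hM 1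
  rw [hk, hM] at hH'
  have g := Good.paste (hH.comp (f := fun u : ℝ => 2 * u) (by fun_prop))
    (hH'.comp (f := fun u : ℝ => 2 * u - 1) (by fun_prop)) (f := fun u : ℝ => u - 1 / 2)
    (by fun_prop) fun w hw => ⟨by
      have e1 : 2 * w = 1 := by linarith
      rw [e1, sub_self, h3, h2'], rfl⟩
  simp only [ite_self] at g
  refine Htp.intro g (fun u => ?_) ?_ ?_
  · split_ifs
    exacts [h1 _, h1' _]
  · rw [if_pos (by norm_num), mul_zero, h2]
  · rw [if_neg (by norm_num), ← h3']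
    norm_num

lemma Htp.kill (h : S.Htp T Δ x O α β) {ℓ : ℝ} (h' : S.Kill T Δ x O β ℓ) :
    S.Kill T Δ x O α ℓ := by
  obtain ⟨γ, h1, h2⟩ := h'
  exact ⟨γ, h.trans h1, h2⟩

lemma Kill.mono {ℓ T' ℓ' : ℝ} (h : S.Kill T Δ x O α ℓ) (hT : T ≤ T') (hℓ : ℓ ≤ ℓ') :
    S.Kill T' Δ x O α ℓ' := by
  obtain ⟨γ, h1, h2⟩ := h
  exact ⟨γ, h1.mono hT subset_rfl, h2.mono hℓ⟩

lemma Kill.uni {O' : Set (Pm E)} {ℓ : ℝ} (hk : β.k = α.k) (hM : β.M = α.M)
    (h : S.Kill T Δ x (O ∩ O') α ℓ) (h' : S.Kill T Δ x (O ∩ O'ᶜ) β ℓ) :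
    S.Kill T Δ x O (Vc.uni O' α β) ℓ := by
  obtain ⟨γ, ⟨H, hH, h1, h2, h3⟩, h4⟩ := h
  obtain ⟨γ', ⟨H', hH', h1', h2', h3'⟩, h4'⟩ := h'
  rw [hk, hM] at hH'
  have g := Good.uni hH hH' O' (fun w => (h1 w).trans inter_subset_right)
    fun w => (h1' w).trans inter_subset_right
  refine ⟨Vc.uni O' γ γ', Htp.intro g (fun u v hv => ?_) (by rw [h2, h2']) (by rw [h3, h3']),
    low_uni O' ?_ ?_ h4 h4'⟩
  · rcases hv with hv | hv
    exacts [(h1 u hv.2).1, (h1' u hv.2).1]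
  · rw [← h3, ← h3', hH.hk, hH'.hk]
  · rw [← h3, ← h3', hH.hM, hH'.hM]

open TopAux in
/-- The homotopy between two families that agree on `U`. -/
noncomputable def xhtpH (k M : ℕ) (α β : Vc E) (U : Set (Pm E)) (u : ℝ) : Vc E where
  k := k
  M := M
  Ω := {v | (u < 1 / 3 ∧ v ∈ α.Ω) ∨ v ∈ U ∨ (2 / 3 < u ∧ v ∈ β.Ω)}
  q := if u < 1 / 2 then α.q else β.q
  c v := (1 - clamp (3 * u - 1)) • α.c v + clamp (3 * u - 1) • β.c v

open TopAux in
lemma xhtp_lo {k M : ℕ} {U : Set (Pm E)} {u : ℝ} (hu : u < 1 / 3) (v : Pm E) :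
    (xhtpH k M α β U u).c v = α.c v := by
  have : clamp (3 * u - 1) = 0 := max_eq_left (min_le_of_right_le (by linarith))
  simp only [xhtpH, this, sub_zero, one_smul, zero_smul, add_zero]

open TopAux in
lemma xhtp_hi {k M : ℕ} {U : Set (Pm E)} {u : ℝ} (hu : 2 / 3 < u) (v : Pm E) :
    (xhtpH k M α β U u).c v = β.c v := by
  have : clamp (3 * u - 1) = 1 := by
    unfold clamp
    rw [min_eq_left (by linarith), max_eq_right zero_le_one]
  simp only [xhtpH, this, sub_self, one_smul, zero_smul, zero_add]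

lemma xhtp_mid {k M : ℕ} {U : Set (Pm E)} (u : ℝ) (v : Pm E) (i : ℕ) :
    (α.c v i = β.c v i → α.c v i = (xhtpH k M α β U u).c v i) ∧
      ((α.c v i).1 = x → (β.c v i).1 = x → ((xhtpH k M α β U u).c v i).1 = x) := by
  refine ⟨fun h => ?_, fun h h' => ?_⟩
  · simp only [xhtpH, Pi.add_apply, Pi.smul_apply, ← h, ← add_smul, sub_add_cancel, one_smul]
  · simp only [xhtpH, Pi.add_apply, Pi.smul_apply, Prod.fst_add, Prod.smul_fst, h, h', ← add_smul,
      sub_add_cancel, one_smul]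

omit [InnerProductSpace ℝ E] in
lemma xhtp_cont {Y : Type} [TopologicalSpace Y] {f : ℝ × Pm E → Y} {A U B : Set (Pm E)}
    (hA : IsOpen A) (hU : IsOpen U) (hB : IsOpen B) (h1 : ContinuousOn f (Iio (1 / 3) ×ˢ A))
    (h2 : ContinuousOn f (univ ×ˢ U)) (h3 : ContinuousOn f (Ioi (2 / 3) ×ˢ B)) :
    ContinuousOn f {p | (p.1 < 1 / 3 ∧ p.2 ∈ A) ∨ p.2 ∈ U ∨ (2 / 3 < p.1 ∧ p.2 ∈ B)} := by
  rintro p (hp | hp | hp)
  · exact (h1.continuousAt ((isOpen_Iio.prod hA).mem_nhds hp)).continuousWithinAt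
  · exact (h2.continuousAt ((isOpen_univ.prod hU).mem_nhds ⟨trivial, hp⟩)).continuousWithinAt
  · exact (h3.continuousAt ((isOpen_Ioi.prod hB).mem_nhds hp)).continuousWithinAt

open TopAux in
/-- Two families that agree near their high solutions are homotopic. -/
lemma Htp.of_equiv {k M : ℕ}
    (hα : S.Good (fun _ : Unit => α) k M T Δ (fun _ => x) (fun _ => x))
    (hβ : S.Good (fun _ : Unit => β) k M T Δ (fun _ => x) (fun _ => x))
    (U : Set (Pm E)) (hU : IsOpen U) (h1 : U ⊆ α.Ω) (h2 : U ⊆ β.Ω)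
    (hq : ∀ v ∈ U, ∀ i < k, α.q v i = β.q v i)
    (hc : ∀ v ∈ U, v ∈ α.Zs → ∀ i < M, α.c v i = β.c v i)
    (n1 : ∀ v ∈ α.Zs, T - Δ ≤ S.Val M (α.c v) → v ∈ U)
    (n2 : ∀ v ∈ β.Zs, T - Δ ≤ S.Val M (β.c v) → v ∈ U) : S.Htp T Δ x univ α β := by
  have ka : α.k = k := hα.hk ()
  have kb : β.k = k := hβ.hk ()
  have cj : Continuous fun v : Pm E => ((), v) := by fun_prop
  have cp : Continuous fun p : ℝ × Pm E => ((), p.2) := by fun_prop
  have oa : IsOpen α.Ω := hα.opn.preimage cj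
  have ob : IsOpen β.Ω := hβ.opn.preimage cj
  have qa : ∀ i < k, ContinuousOn (fun p : ℝ × Pm E => α.q p.2 i) (univ ×ˢ α.Ω) := fun i hi =>
    (hα.qc i hi).comp cp.continuousOn fun p hp => hp.2
  have qb : ∀ i < k, ContinuousOn (fun p : ℝ × Pm E => β.q p.2 i) (univ ×ˢ β.Ω) := fun i hi =>
    (hβ.qc i hi).comp cp.continuousOn fun p hp => hp.2
  have ca : ∀ i < M, ContinuousOn (fun p : ℝ × Pm E => α.c p.2 i) (univ ×ˢ α.Ω) := fun i hi =>
    (hα.cc i hi).comp cp.continuousOn fun p hp => hp.2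
  have cb : ∀ i < M, ContinuousOn (fun p : ℝ × Pm E => β.c p.2 i) (univ ×ˢ β.Ω) := fun i hi =>
    (hβ.cc i hi).comp cp.continuousOn fun p hp => hp.2
  have qU : ∀ u, ∀ v ∈ U, ∀ i < k, (xhtpH k M α β U u).q v i = α.q v i := by
    intro u v hv i hi
    simp only [xhtpH]
    split_ifs
    exacts [rfl, (hq v hv i hi).symm]
  have cc : ∀ i < M, ContinuousOn (fun p : ℝ × Pm E => (xhtpH k M α β U p.1).c p.2 i)
      (dom (xhtpH k M α β U)) := by
    intro i hi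
    refine xhtp_cont oa hU ob ?_ ?_ ?_
    · exact ((ca i hi).mono (prod_mono (subset_univ _) subset_rfl)).congr fun p hp => by
        simp only [xhtp_lo hp.1]
    · have hs : Continuous fun p : ℝ × Pm E => clamp (3 * p.1 - 1) :=
        clamp_cont.comp (by fun_prop)
      exact ((continuous_const.sub hs).continuousOn.smul
        ((ca i hi).mono (prod_mono subset_rfl h1))).add
          (hs.continuousOn.smul ((cb i hi).mono (prod_mono subset_rfl h2)))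
    · exact ((cb i hi).mono (prod_mono (subset_univ _) subset_rfl)).congr fun p hp => by
        simp only [xhtp_hi hp.1]
  have key : ∀ p ∈ zer (xhtpH k M α β U), ∃ γ, (γ = α ∨ γ = β) ∧ p.2 ∈ γ.Zs ∧
      (∀ i < M, γ.c p.2 i = (xhtpH k M α β U p.1).c p.2 i) ∧
      ((xhtpH k M α β U p.1).c p.2 M).1 = x ∧ ((xhtpH k M α β U p.1).c p.2 0).1 = x := by
    rintro ⟨u, v⟩ ⟨hp | hp | hp, hz⟩
    · have hv : v ∈ α.Zs := ⟨hp.2, fun i hi => by
        have := hz i (ka ▸ hi)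
        simp only [xhtpH] at this
        rwa [if_pos (by linarith [hp.1])] at this⟩
      refine ⟨α, Or.inl rfl, hv, ?_⟩
      simp only [xhtp_lo hp.1]
      exact ⟨fun _ _ => trivial, hα.fam.tgt ((), v) hv, hα.fam.src ((), v) hv⟩
    · have hv : v ∈ α.Zs := ⟨h1 hp, fun i hi => (qU u v hp i (ka ▸ hi)).symm.trans
        (hz i (ka ▸ hi))⟩
      have hv' : v ∈ β.Zs := ⟨h2 hp, fun i hi => (hq v hp i (kb ▸ hi)).symm.trans
        (hv.2 i (ka ▸ kb ▸ hi))⟩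
      exact ⟨α, Or.inl rfl, hv, fun i hi => (xhtp_mid (x := x) u v i).1 (hc v hp hv i hi),
        (xhtp_mid u v M).2 (hα.fam.tgt ((), v) hv) (hβ.fam.tgt ((), v) hv'),
        (xhtp_mid u v 0).2 (hα.fam.src ((), v) hv) (hβ.fam.src ((), v) hv')⟩
    · have hv : v ∈ β.Zs := ⟨hp.2, fun i hi => by
        have := hz i (kb ▸ hi)
        simp only [xhtpH] at this
        rwa [if_neg (by linarith [hp.1])] at this⟩
      refine ⟨β, Or.inr rfl, hv, ?_⟩
      simp only [xhtp_hi hp.1]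
      exact ⟨fun _ _ => trivial, hβ.fam.tgt ((), v) hv, hβ.fam.src ((), v) hv⟩
  have key2 : ∀ p ∈ zer (xhtpH k M α β U), ∃ γ, (γ = α ∨ γ = β) ∧ p.2 ∈ γ.Zs ∧
      S.Valid M ((xhtpH k M α β U p.1).c p.2) ∧
      S.Val M (γ.c p.2) = S.Val M ((xhtpH k M α β U p.1).c p.2) := by
    intro p hp
    obtain ⟨γ, hγ, a1, a2, a3, -⟩ := key p hp
    have hg : S.Good (fun _ : Unit => γ) k M T Δ (fun _ => x) (fun _ => x) := by
      rcases hγ with rfl | rfl
      exacts [hα, hβ]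
    have a4 := (hg.fam.tgt ((), p.2) a1).trans a3.symm
    exact ⟨γ, hγ, a1, S.valid_congr a2 a4 (hg.fam.valid ((), p.2) a1), S.valT_congr _ a2 a4⟩
  obtain ⟨R, hR⟩ := hα.bdd
  have g : S.Good (xhtpH k M α β U) k M T Δ (fun _ => x) (fun _ => x) := by
    refine Good.of_cl (fun _ => rfl) (fun _ => rfl) ?_ (fun i hi => ?_) cc
      ⟨fun i hi => (cc i hi).mono fun p hp => hp.1, fun p hp => (key2 p hp).choose_spec.2.2.1,
        fun p hp => (key p hp).choose_spec.2.2.2.2, fun p hp => (key p hp).choose_spec.2.2.2.1,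
        fun p hp => ?_, fun L => ?_⟩ continuous_const _ (hα.cls.preimage cp) (fun p hp => ?_)
      (fun p hp => ?_) R fun p hp => hR _ hp
    · exact (isOpen_Iio.prod oa).union ((hU.preimage continuous_snd).union (isOpen_Ioi.prod ob))
    · refine xhtp_cont oa hU ob ?_ ?_ ?_
      · exact ((qa i hi).mono (prod_mono (subset_univ _) subset_rfl)).congr fun p hp => by
          have : p.1 < 1 / 2 := by linarith [mem_Iio.1 hp.1]
          simp only [xhtpH, if_pos this]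
      · exact ((qa i hi).mono (prod_mono subset_rfl h1)).congr fun p hp => qU _ _ hp.2 i hi
      · exact ((qb i hi).mono (prod_mono (subset_univ _) subset_rfl)).congr fun p hp => by
          have : ¬p.1 < 1 / 2 := by linarith [mem_Ioi.1 hp.1]
          simp only [xhtpH, if_neg this]
    · obtain ⟨γ, rfl | rfl, a1, -, a2⟩ := key2 p hp
      exacts [a2 ▸ hα.fam.le ((), p.2) a1, a2 ▸ hβ.fam.le ((), p.2) a1]
    · obtain ⟨R1, hR1⟩ := hα.fam.proper L
      obtain ⟨R2, hR2⟩ := hβ.fam.proper L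
      refine ⟨max R1 R2, fun p hp ⟨i, hi, hb⟩ => ?_⟩
      obtain ⟨γ, rfl | rfl, a1, -, a2⟩ := key2 p hp
      exacts [a2 ▸ hR1 ((), p.2) a1 ⟨i, hi, (le_max_left _ _).trans hb⟩,
        a2 ▸ hR2 ((), p.2) a1 ⟨i, hi, (le_max_right _ _).trans hb⟩]
    · have hv := n1 p.2 hp.1 hp.2
      exact ⟨Or.inr (Or.inl hv), fun i hi => (qU _ _ hv i hi).trans (hp.1.2 i (ka ▸ hi))⟩
    · obtain ⟨γ, rfl | rfl, a1, -, a2⟩ := key2 p hp.1
      · exact ⟨a1, hp.2.trans_eq a2.symm⟩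
      · have a3 := hp.2.trans_eq a2.symm
        have hv := n2 p.2 a1 a3
        have a4 : p.2 ∈ α.Zs := ⟨h1 hv, fun i hi => (hq _ hv i (ka ▸ hi)).trans
          (a1.2 i (kb ▸ ka ▸ hi))⟩
        exact ⟨a4, a3.trans_eq (S.valT_congr _ (hc _ hv a4)
          ((hα.fam.tgt ((), p.2) a4).trans (hβ.fam.tgt ((), p.2) a1).symm)).symm⟩
  refine Htp.intro g (fun _ => subset_univ _)
    (Vc.ext' ka.symm (hα.hM ()).symm ?_ (if_pos (by norm_num)) ?_)
    (Vc.ext' kb.symm (hβ.hM ()).symm ?_ (if_neg (by norm_num)) ?_)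
  · ext v
    refine ⟨?_, fun h => Or.inl ⟨by norm_num, h⟩⟩
    rintro (h | h | h)
    exacts [h.2, h1 h, absurd h.1 (by norm_num)]
  · funext v
    exact xhtp_lo (by norm_num) v
  · ext v
    refine ⟨?_, fun h => Or.inr (Or.inr ⟨by norm_num, h⟩)⟩
    rintro (h | h | h)
    exacts [absurd h.1 (by norm_num), h2 h, h.2]
  · funext v
    exact xhtp_hi (by norm_num) v

end Sys

end Pool.Agent.Wein
end

-- part Pool.Agent.P.MP_e3ee0c_gt.XSlotA
section

/-! Slots: continuity, and the solutions of the equations. -/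

open Set Filter Topology
open scoped ContDiff InnerProductSpace

namespace Pool.Agent.Wein

variable {E : Type} [NormedAddCommGroup E] [InnerProductSpace ℝ E] [FiniteDimensional ℝ E]

/-- The conditions on the data of a family of slots. -/
structure SlotData (S : Sys E) (Wl : Wall S.S) (ε μ' : ℝ) {W : Type} [TopologicalSpace W]
    (xb : W → E) (tg : W → ℝ → E) (hh : W → ℝ → ℝ) (vv : W → ℝ) (I I' : Set (ℝ × ℝ)) : Prop where
  xc : Continuous xb
  tc : Continuous fun p : W × ℝ => tg p.1 p.2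
  hc : Continuous fun p : W × ℝ => hh p.1 p.2
  vc : Continuous vv
  xS : ∀ w, xb w ∈ S.S
  tS : ∀ w ρ, tg w ρ ∈ S.S
  tth : ∀ w ρ, Wl.th (tg w ρ) = ((hh w ρ : ℝ) : UnitAddCircle)
  Io : IsOpen I
  Ic : IsClosed I'
  sub : I ⊆ I'
  key : ∀ w ρ τ, (ρ, τ) ∈ I' → ff ε ρ τ = vv w → |τ| ≤ Wl.d → (τ ≤ 0 → τ = hh w ρ) →
    (ρ, τ) ∈ I ∧ -Wl.d < τ ∧ |ρ| ≤ 2 ∧ ‖tg w ρ - xb w‖ ≤ μ'

omit [InnerProductSpace ℝ E] [FiniteDimensional ℝ E] in
lemma xslota_rho : Continuous (rho : Pm E → ℝ) := by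
  unfold rho
  fun_prop

omit [InnerProductSpace ℝ E] [FiniteDimensional ℝ E] in
lemma xslota_pt {N : Set E} (Wl : Wall N) (ε : ℝ) : Continuous (Wl.pt ε) := by
  have h1 := Wl.cu.continuous
  have h2 : Continuous (rho : Pm E → ℝ) := xslota_rho
  unfold Wall.pt
  fun_prop

lemma xslota_ff (ε : ℝ) : Continuous fun p : ℝ × ℝ => ff ε p.1 p.2 := by
  unfold ff
  fun_prop

namespace Slice

variable {S : Sys E} {Wl : Wall S.S} {m1 M : ℕ} {Λ L' t' L ε μ' Δ : ℝ}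
  (Z : Slice S Wl m1 M Λ L' t' L)

/-- What the first equation gives. -/
lemma sol (C : Consts S Wl m1 M Λ t' L ε μ' Δ) {p : E × (ℕ → E)} (hp : p.1 ∈ Wl.tube) {g : E}
    (hg : g ∈ S.S) {h : ℝ} (hth : Wl.th g = ((h : ℝ) : UnitAddCircle))
    (hn : ‖Z.n p‖ ≤ Λ * μ') (hH : |Z.H p - h| ≤ 1 / 4) (hq : Z.β p + Λ⁻¹ • Z.n p - g = 0) :
    ‖Z.β p - g‖ ≤ μ' ∧ 7 / 8 * ‖Z.n p‖ ^ 2 ≤ S.Q (Z.β p) (Z.n p) ∧ |Z.H p - h| < 1 / 4 ∧
      (Wl.tau p.1 ≤ 0 → Wl.tau p.1 = h ∧ p.1 = g) := by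
  have hΛ := C.Λpos
  have hβ := Z.βS p hp
  have e1 : Z.β p - g = -(Λ⁻¹ • Z.n p) := by
    rw [← sub_eq_zero, ← hq]
    abel
  have e2 : Z.n p = (-Λ) • (Z.β p - g) := by
    rw [e1, smul_neg, neg_smul, neg_neg, smul_smul, mul_inv_cancel₀ hΛ.ne', one_smul]
  have h1 : ‖Z.β p - g‖ ≤ μ' := by
    rw [e1, norm_neg, norm_smul, Real.norm_eq_abs, abs_of_pos (inv_pos.2 hΛ),
      inv_mul_le_iff₀ hΛ]
    exact hn
  have h2 : |Z.H p - h| ≤ 1 / 8 := by
    refine near_of_coe ?_ hH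
    rw [Z.Hth p hp, ← hth]
    exact C.md _ hβ _ hg h1
  refine ⟨h1, ?_, h2.trans_lt (by norm_num), fun h0 => ?_⟩
  · have h3 := Link.Q_ge S hβ hg
      (by linarith [C.μ'le, C.μ'pos, S.μ_le, S.δpos]) (-Λ)
    rwa [← e2] at h3
  · obtain ⟨s1, s2, s3, -⟩ := Z.start p hp h0
    have e3 : p.1 = g := by
      rw [s1, s2, smul_smul, inv_mul_cancel₀ hΛ.ne', one_smul, add_sub_cancel, sub_eq_zero] at hq
      exact hq
    refine ⟨eq_of_coe ?_ ?_, e3⟩
    · rw [Wl.tau_coe, e3, S.fix g hg, hth]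
    · rw [← s3]
      exact h2.trans_lt (by norm_num)

variable {W : Type} [TopologicalSpace W] {xb : W → E} {tg : W → ℝ → E} {hh : W → ℝ → ℝ}
  {vv : W → ℝ} {I I' : Set (ℝ × ℝ)}

lemma slot_open (D : SlotData S Wl ε μ' xb tg hh vv I I') :
    IsOpen (dom fun w => Z.slot ε μ' (xb w) (tg w) (hh w) (vv w) I) := by
  have hpt : Continuous fun p : W × Pm E => Wl.pt ε p.2 := (xslota_pt Wl ε).comp continuous_snd
  have hρ : Continuous fun p : W × Pm E => rho p.2 := xslota_rho.comp continuous_snd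
  let U : Set (W × Pm E) := (fun p => (Wl.pt ε p.2).1) ⁻¹'
    {y | y ∈ Metric.thickening S.δ S.S ∧ ‖Wl.th (S.r y)‖ < Wl.d}
  have hU : IsOpen U := Wl.open_tube.1.preimage hpt.fst
  have hm : MapsTo (fun p : W × Pm E => Wl.pt ε p.2) U (Wl.tube ×ˢ univ) :=
    fun p hp => ⟨Wl.open_tube.2 hp, mem_univ _⟩
  have c1 : ContinuousOn (fun p : W × Pm E => ‖Z.n (Wl.pt ε p.2)‖) U :=
    (Z.nc.comp hpt.continuousOn hm).norm
  have c2 : ContinuousOn (fun p : W × Pm E => |Z.H (Wl.pt ε p.2) - hh p.1 (rho p.2)|) U :=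
    ((Z.Hc.comp hpt.continuousOn hm).sub
      (D.hc.comp (continuous_fst.prodMk hρ)).continuousOn).abs
  have c3 : ContinuousOn (fun p : W × Pm E => (rho p.2, Wl.tau (Wl.pt ε p.2).1)) U :=
    hρ.continuousOn.prodMk (Wl.tau_cont.comp hpt.fst.continuousOn fun p hp => (hm hp).1)
  have o1 := c1.isOpen_inter_preimage hU (isOpen_Iio (a := Λ * μ'))
  have o2 := c2.isOpen_inter_preimage hU (isOpen_Iio (a := (1 / 4 : ℝ)))
  have o3 := c3.isOpen_inter_preimage hU D.Io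
  convert o1.inter (o2.inter o3) using 1
  ext p
  exact ⟨fun h => ⟨⟨⟨h.1, h.2.1⟩, h.2.2.1⟩, ⟨⟨h.1, h.2.1⟩, h.2.2.2.1⟩, ⟨h.1, h.2.1⟩, h.2.2.2.2⟩,
    fun h => ⟨h.1.1.1, h.1.1.2, h.1.2, h.2.1.2, h.2.2.2⟩⟩

lemma slot_qc (D : SlotData S Wl ε μ' xb tg hh vv I I') (i : ℕ) :
    ContinuousOn (fun p : W × Pm E =>
      (Z.slot ε μ' (xb p.1) (tg p.1) (hh p.1) (vv p.1) I).q p.2 i)
      (dom fun w => Z.slot ε μ' (xb w) (tg w) (hh w) (vv w) I) := by
  have hpt : Continuous fun p : W × Pm E => Wl.pt ε p.2 := (xslota_pt Wl ε).comp continuous_snd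
  have hρ : Continuous fun p : W × Pm E => rho p.2 := xslota_rho.comp continuous_snd
  have hm : MapsTo (fun p : W × Pm E => Wl.pt ε p.2)
      (dom fun w => Z.slot ε μ' (xb w) (tg w) (hh w) (vv w) I) (Wl.tube ×ˢ univ) :=
    fun p hp => ⟨Wl.open_tube.2 ⟨hp.1, hp.2.1⟩, mem_univ _⟩
  refine ContinuousOn.prodMk ?_ ?_
  · exact ((Z.βc.comp hpt.continuousOn hm).add
      ((Z.nc.comp hpt.continuousOn hm).const_smul Λ⁻¹)).sub
      (D.tc.comp (continuous_fst.prodMk hρ)).continuousOn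
  · exact ((xslota_ff ε).comp_continuousOn (hρ.continuousOn.prodMk
      (Wl.tau_cont.comp hpt.fst.continuousOn fun p hp => (hm hp).1))).sub
      (D.vc.comp continuous_fst).continuousOn

lemma slot_cc (D : SlotData S Wl ε μ' xb tg hh vv I I') : ∀ i < 1 + (M + 1),
    ContinuousOn (fun p : W × Pm E =>
      (Z.slot ε μ' (xb p.1) (tg p.1) (hh p.1) (vv p.1) I).c p.2 i)
      (dom fun w => Z.slot ε μ' (xb w) (tg w) (hh w) (vv w) I) := by
  have hpt : Continuous fun p : W × Pm E => Wl.pt ε p.2 := (xslota_pt Wl ε).comp continuous_snd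
  have hm : MapsTo (fun p : W × Pm E => Wl.pt ε p.2)
      (dom fun w => Z.slot ε μ' (xb w) (tg w) (hh w) (vv w) I) (Wl.tube ×ˢ univ) :=
    fun p hp => ⟨Wl.open_tube.2 ⟨hp.1, hp.2.1⟩, mem_univ _⟩
  have hP : ∀ j, Continuous fun p : W × Pm E => p.2.2 j := fun j => by fun_prop
  refine continuousOn_cat (fun i hi => ?_) (continuousOn_cat (fun i hi => ?_) fun i hi => ?_)
  · obtain rfl : i = 0 := by omega
    exact S.unit_cont (v := fun (p : W × Pm E) i => if i = 0 then xb p.1 else Z.β (Wl.pt ε p.2))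
      (P := fun p => p.2.2) (D.xc.comp continuous_fst).continuousOn (hP 0).continuousOn
      fun p _ => D.xS p.1
  · exact (Z.cont i hi).comp hpt.continuousOn hm
  · obtain rfl : i = 0 := by omega
    exact S.unit_cont (v := fun (p : W × Pm E) i => if i = 0 then Z.β (Wl.pt ε p.2) else xb p.1)
      (P := fun p i => p.2.2 (1 + (M + i))) (Z.βc.comp hpt.continuousOn hm)
      (hP _).continuousOn fun p hp => Z.βS _ (hm hp).1

end Slice

end Pool.Agent.Wein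
end

-- part Pool.Agent.P.MP_e3ee0c_gt.XTopB
section

/-! The polygons on the loops of a wall are not trivial. -/

open Set Filter Topology
open scoped ContDiff InnerProductSpace

namespace Pool.Agent.Wein

open TopAux

variable {E : Type} [NormedAddCommGroup E] [InnerProductSpace ℝ E]

/-- A quantitative form of the fact that fine subdivisions are not trivial. -/
lemma Geo.nontriv_of (G : Geo E) (γ : C(UnitAddCircle, G.S)) (hγ : ¬ γ.Nullhomotopic) (m : ℕ)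
    [NeZero m] (h : ∀ s t : UnitAddCircle, ‖s - t‖ ≤ 1 / (m : ℝ) → ‖(γ s : E) - γ t‖ ≤ G.δ) :
    ¬ G.Triv (fun i : Fin m => ((γ (((i : ℕ) : ℝ) / m : ℝ) : G.S) : E)) := by
  rintro ⟨c, hc, hc0, hcs, x0, hc1⟩
  refine hγ ?_
  have hδ := G.δpos
  have hx0 : x0 ∈ G.S := by
    have := (hcs 1 0).1
    rwa [hc1] at this
  have hr := G.smooth.continuous
  have hK : Continuous fun p : ℝ × UnitAddCircle => pl (c p.1) p.2 :=
    pl_cont (hc.comp continuous_fst) continuous_snd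
  have hK0 : Continuous fun t : UnitAddCircle => pl (c 0) t :=
    pl_cont continuous_const continuous_id
  let f0 : C(UnitAddCircle, G.S) :=
    ⟨fun t => ⟨G.r (pl (c 0) t), G.pl_mem (hcs 0) t⟩, (hr.comp hK0).subtype_mk _⟩
  have hγc : Continuous fun t : UnitAddCircle => (γ t : E) :=
    continuous_subtype_val.comp γ.continuous
  have hnear : ∀ t, ‖pl (c 0) t - (γ t : E)‖ ≤ G.δ := fun t => by
    refine pl_near _ _ _ _ fun i hi => ?_
    rw [hat_pos_iff, norm_sub_rev, ← dist_eq_norm] at hi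
    rw [hc0]
    exact h _ _ (by rw [← dist_eq_norm]; exact hi.le)
  have H1 : γ.Homotopic f0 := by
    refine homotopic_of γ f0 (fun p => G.r ((γ p.2 : E) + p.1 • (pl (c 0) p.2 - (γ p.2 : E))))
      (hr.comp ((hγc.comp continuous_snd).add (continuous_fst.smul
        ((hK0.comp continuous_snd).sub (hγc.comp continuous_snd))))) ?_ ?_ ?_
    · intro s hs t
      refine (G.r_near (γ t).2 ?_).1
      rw [add_sub_cancel_left, norm_smul, Real.norm_of_nonneg hs.1]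
      exact (mul_le_of_le_one_left (norm_nonneg _) hs.2).trans ((hnear t).trans (by linarith))
    · intro t
      simp only [zero_smul, add_zero]
      exact G.fix _ (γ t).2
    · intro t
      simp only [one_smul, add_sub_cancel]
      rfl
  have H2 : f0.Homotopic (ContinuousMap.const _ ⟨x0, hx0⟩) := by
    refine homotopic_of _ _ (fun p => G.r (pl (c p.1) p.2)) (hr.comp hK)
      (fun s _ t => G.pl_mem (hcs s) t) (fun t => rfl) fun t => ?_
    have : pl (c 1) t = x0 := by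
      have h := pl_near (c 1) t x0 0 fun i _ => by rw [hc1]; simp
      rwa [norm_le_zero_iff, sub_eq_zero] at h
    simp only [this]
    exact G.fix _ hx0
  exact ⟨_, H1.trans H2⟩

lemma xtopb_norm (s t : ℝ) : ‖(s : UnitAddCircle) - (t : UnitAddCircle)‖ ≤ |s - t| := by
  rw [← AddCircle.coe_sub]
  exact QuotientAddGroup.norm_mk_le_norm

/-- The parameters of the intermediate polygons. -/
noncomputable def xtopbP (M m : ℕ) (s : ℝ) (n : ℕ) : ℝ :=
  (1 - s) * ((n : ℝ) / M) + s * (((min n m : ℕ) : ℝ) / m)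

lemma xtopb_step {M m : ℕ} (hm : 0 < m) (hM : m ≤ M) {s : ℝ} (hs : s ∈ Icc (0 : ℝ) 1) (n : ℕ) :
    |xtopbP M m s n - xtopbP M m s (n + 1)| ≤ 1 / (m : ℝ) := by
  have h0 : (0 : ℝ) < m := by exact_mod_cast hm
  have h1 : (m : ℝ) ≤ M := by exact_mod_cast hM
  have h2 : 1 / (M : ℝ) ≤ 1 / m := one_div_le_one_div_of_le h0 h1
  have h3 : 0 ≤ 1 / (M : ℝ) := by positivity
  have h4 : ((min n m : ℕ) : ℝ) ≤ ((min (n + 1) m : ℕ) : ℝ) := Nat.cast_le.2 (by omega)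
  have h5 : ((min (n + 1) m : ℕ) : ℝ) ≤ ((min n m : ℕ) : ℝ) + 1 := by
    exact_mod_cast (by omega : min (n + 1) m ≤ min n m + 1)
  obtain ⟨e, he⟩ : ∃ e : ℝ, e = (((min (n + 1) m : ℕ) : ℝ) - ((min n m : ℕ) : ℝ)) / m := ⟨_, rfl⟩
  have e0 : 0 ≤ e := he ▸ div_nonneg (by linarith) h0.le
  have e1 : e ≤ 1 / m := he ▸ div_le_div_of_nonneg_right (by linarith) h0.le
  have e2 : xtopbP M m s (n + 1) - xtopbP M m s n = (1 - s) * (1 / M) + s * e := by
    rw [he]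
    unfold xtopbP
    rw [Nat.cast_add n 1, Nat.cast_one]
    ring
  have s1 := sub_nonneg.2 hs.2
  rw [abs_sub_comm, e2, abs_of_nonneg (add_nonneg (mul_nonneg s1 h3) (mul_nonneg hs.1 e0))]
  nlinarith [mul_le_mul_of_nonneg_left h2 s1, mul_le_mul_of_nonneg_left e1 hs.1]

lemma xtopb_succ {M m : ℕ} [NeZero M] (hm : 0 < m) (hM : m ≤ M) (s : ℝ) (i : Fin M) :
    ((xtopbP M m s ((i + 1 : Fin M) : ℕ) : ℝ) : UnitAddCircle) =
      ((xtopbP M m s ((i : ℕ) + 1) : ℝ) : UnitAddCircle) := by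
  have e : ((i + 1 : Fin M) : ℕ) = ((i : ℕ) + 1) % M := by
    rw [Fin.val_add, Fin.val_one', Nat.add_mod_mod]
  rw [e]
  rcases (Nat.succ_le_of_lt i.2).lt_or_eq with h | h
  · rw [Nat.mod_eq_of_lt h]
  · have h' : (i : ℕ) + 1 = M := h
    have h0 : (m : ℝ) ≠ 0 := by exact_mod_cast hm.ne'
    have h1 : (M : ℝ) ≠ 0 := by exact_mod_cast NeZero.ne M
    have e0 : xtopbP M m s 0 = 0 := by simp [xtopbP]
    have e1 : xtopbP M m s M = 1 := by
      unfold xtopbP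
      rw [min_eq_right hM, div_self h0, div_self h1]
      ring
    rw [h', Nat.mod_self, e0, e1, AddCircle.coe_period, AddCircle.coe_zero]

theorem Wall.nontriv {S : Sys E} (Wl : Wall S.S) (hNT : Wl.NT) : ∃ m1 : ℕ, 0 < m1 ∧
    (∀ x ∈ Wl.K, ∀ s t : ℝ, |s - t| ≤ 1 / (m1 : ℝ) →
      ‖Wl.σ (x, (s : UnitAddCircle)) - Wl.σ (x, (t : UnitAddCircle))‖ ≤ S.μ) ∧
    ∀ (M : ℕ) [NeZero M], m1 ≤ M → ∀ x ∈ Wl.K,
      ¬ S.Tr fun i : Fin M => Wl.pol m1 x i := by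
  obtain ⟨ρ, hρ, hmod⟩ := Wl.σ_mod S.compact S.μpos
  obtain ⟨m, hm⟩ := exists_nat_gt (1 / ρ)
  have hm0 : (0 : ℝ) < m := lt_trans (by positivity) hm
  have hm1 : 0 < m := by exact_mod_cast hm0
  have hmρ : 1 / (m : ℝ) ≤ ρ := by
    rw [div_lt_iff₀ hρ] at hm
    rw [div_le_iff₀ hm0]
    linarith
  have hstep : ∀ x ∈ Wl.K, ∀ s t : ℝ, |s - t| ≤ 1 / (m : ℝ) →
      ‖Wl.σ (x, (s : UnitAddCircle)) - Wl.σ (x, (t : UnitAddCircle))‖ ≤ S.μ :=
    fun x hx s t h => hmod x hx _ _ ((xtopb_norm s t).trans (h.trans hmρ))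
  refine ⟨m, hm1, hstep, fun M _ hM x hx htr => ?_⟩
  have hc : Continuous fun t : UnitAddCircle => Wl.σ (x, t) :=
    Wl.σc.comp_continuous (by fun_prop) fun t => ⟨hx, trivial⟩
  have hMm : 1 / (M : ℝ) ≤ 1 / m := one_div_le_one_div_of_le hm0 (by exact_mod_cast hM)
  refine S.G0.nontriv_of ⟨fun t => ⟨S.pr (Wl.σ (x, t)), S.prm _ (Wl.σm x hx.1 hx.2 t).1⟩,
      (S.prc.comp hc).subtype_mk _⟩ (hNT x hx _ fun t => rfl) M
    (fun s t h => S.prs _ (Wl.σm x hx.1 hx.2 s).1 _ (Wl.σm x hx.1 hx.2 t).1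
      ((hmod x hx s t (h.trans (hMm.trans hmρ))).trans (by linarith [S.μ_le, S.δpos]))) ?_
  have := S.tr_concat
    (fun t (i : Fin M) => Wl.σ (x, ((xtopbP M m (clamp t) i : ℝ) : UnitAddCircle)))
    (continuous_pi fun i => hc.comp ((AddCircle.continuous_mk' 1).comp (by
      have := clamp_cont
      unfold xtopbP
      fun_prop)))
    (fun t i => ⟨(Wl.σm x hx.1 hx.2 _).1, by
      have h1 := hstep x hx _ _ (xtopb_step hm1 hM (clamp_mem t) i)
      have h2 := S.μ_le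
      have h3 := S.δpos
      simp only [xtopb_succ hm1 hM]
      linarith⟩)
    (by simpa only [xtopbP, clamp_one, sub_self, zero_mul, one_mul, zero_add, Wall.pol] using htr)
  simpa only [xtopbP, clamp_zero, sub_zero, zero_mul, one_mul, add_zero, ContinuousMap.coe_mk,
    Sys.Tr] using this

/-- Among chains with short steps the trivial ones form a closed set. -/
lemma Geo.triv_near (G : Geo E) {m : ℕ} [NeZero m] {x x' : Fin m → E}
    (hs : G.StepLe (3 * G.δ) x) (hs' : G.StepLe (3 * G.δ) x') (hx' : dist x' x < G.δ / 4)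
    (h : G.Triv x) : G.Triv x' := by
  have hδ := G.δpos
  have hd : ∀ i, ‖x' i - x i‖ ≤ G.δ / 4 := fun i => by
    rw [← dist_eq_norm]
    exact (dist_le_pi_dist x' x i).trans (le_of_lt hx')
  have hu : ∀ t i, ‖x i + (1 - clamp t) • (x' i - x i) - x i‖ ≤ G.δ / 4 := fun t i => by
    have ht := clamp_mem t
    rw [add_sub_cancel_left, norm_smul, Real.norm_of_nonneg (by linarith [ht.2])]
    exact (mul_le_of_le_one_left (norm_nonneg _) (by linarith [ht.1])).trans (hd i)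
  have hr : ∀ t i, G.r (x i + (1 - clamp t) • (x' i - x i)) ∈ G.S ∧
      ‖G.r (x i + (1 - clamp t) • (x' i - x i)) - x i‖ ≤ G.δ / 2 := fun t i => by
    have := G.r_near (hs i).1 ((hu t i).trans (by linarith))
    exact ⟨this.1, this.2.trans (by linarith [hu t i])⟩
  have hc : Continuous fun t i => G.r (x i + (1 - clamp t) • (x' i - x i)) :=
    continuous_pi fun i => G.smooth.continuous.comp
      (continuous_const.add ((continuous_const.sub clamp_cont).smul continuous_const))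
  have := G.triv_concat (fun t i => G.r (x i + (1 - clamp t) • (x' i - x i))) hc
    (fun t i => ⟨(hr t i).1, by
      have h1 := (hr t i).2
      have h2 := (hr t (i + 1)).2
      have h3 := (hs i).2
      have h4 := dist_triangle4 (G.r (x i + (1 - clamp t) • (x' i - x i))) (x i) (x (i + 1))
        (G.r (x (i + 1) + (1 - clamp t) • (x' (i + 1) - x (i + 1))))
      rw [dist_comm (x (i + 1))] at h4
      simp only [dist_eq_norm] at h4
      linarith⟩)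
    (by
      have e : (fun i => G.r (x i + (1 - clamp 1) • (x' i - x i))) = x := by
        funext i
        rw [clamp_one, sub_self, zero_smul, add_zero, G.fix _ (hs i).1]
      simpa only [e] using h)
  have e : (fun i => G.r (x i + (1 - clamp 0) • (x' i - x i))) = x' := by
    funext i
    rw [clamp_zero, sub_zero, one_smul, add_sub_cancel, G.fix _ (hs' i).1]
  simpa only [e] using this

/-- The action of a closed orbit whose regular polygon is trivial is not positive. -/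
theorem Sys.exc (S : Sys E) {m : ℕ} [NeZero m] {J : Type} {ζ : Cfg E m J} {z : E × E}
    (hz : S.Inner False (m * S.St.τ₀) ζ z) (ht : S.toGeo.Triv fun i => (ζ.1 i).1) :
    S.Hm.A (m * S.St.τ₀, z) ≤ 0 := by
  have hτ := S.St.τpos
  have hm : (0 : ℝ) < m := by exact_mod_cast NeZero.pos m
  have hs : 0 < m * S.St.τ₀ := by positivity
  have hcl := hz.closed not_false
  rcases (S.per z hz.mem _ hs hcl).2 with h | h
  · have hd : ∀ t, HasDerivAt (fun s => S.Hm.A (s, z)) (-S.F (S.Hm.Φ (t, z))) t := fun t => by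
      obtain ⟨v, hv, -⟩ := (S.Hm.orbit z hz.mem t).2
      have h1 : HasDerivAt (fun s => (S.Hm.Φ (s, z)).1) v.1 t := hv.fst
      simp only [h] at h1
      have h2 := S.Hm.Aderiv z hz.mem t
      rw [hv.deriv, h1.unique (hasDerivAt_const _ _), inner_zero_right, zero_sub] at h2
      exact h2
    have := antitone_of_deriv_nonpos (fun t => (hd t).differentiableAt) (fun t => by
      rw [(hd t).deriv]
      linarith [(S.h01 _ (S.Hm.mem t z hz.mem)).1]) hs.le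
    simpa only [S.Hm.Azero] using this
  · exfalso
    obtain ⟨σ, s0, sm, sk, hv⟩ := hz.vert
    have up : ∀ j k : ℕ, σ (k + j) ≤ σ k + j * S.St.τ₀ := fun j k => by
      induction j with
      | zero => simp
      | succ j ih =>
        have := sk (k + j)
        rw [← add_assoc]
        push_cast
        linarith
    have hσ : ∀ i : Fin m, σ i = (i : ℕ) * S.St.τ₀ := fun i => by
      have h1 := up i 0
      have h2 := up (m - i) i
      rw [zero_add, s0] at h1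
      rw [Nat.add_sub_cancel' i.2.le, sm, Nat.cast_sub i.2.le] at h2
      linarith
    have hp : Function.Periodic (fun t : ℝ =>
        (⟨(S.Hm.Φ (t * (m * S.St.τ₀), z)).1, (S.Hm.mem _ z hz.mem).1⟩ : S.S)) 1 := fun t => by
      simp only [add_mul, one_mul, S.Hm.add, hcl]
    have hc : Continuous fun t : ℝ =>
        (⟨(S.Hm.Φ (t * (m * S.St.τ₀), z)).1, (S.Hm.mem _ z hz.mem).1⟩ : S.S) := by
      have := S.Hm.Φs.continuous
      exact Continuous.subtype_mk (by fun_prop) _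
    let γ : C(UnitAddCircle, S.S) := ⟨hp.lift, hc.quotient_liftOn' _⟩
    have hγ : ∀ t : ℝ, (γ t : E) = (S.Hm.Φ (t * (m * S.St.τ₀), z)).1 := fun t => rfl
    refine S.toGeo.nontriv_of γ (h γ hγ) m (fun s t hst => ?_) ?_
    · obtain ⟨a, rfl⟩ := QuotientAddGroup.mk_surjective s
      obtain ⟨b, rfl⟩ := QuotientAddGroup.mk_surjective t
      rw [← AddCircle.coe_sub, UnitAddCircle.norm_eq] at hst
      have e : ((b : ℝ) : UnitAddCircle) = ((b + round (a - b) : ℝ) : UnitAddCircle) := by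
        rw [AddCircle.coe_add, (AddCircle.coe_eq_zero_iff (1 : ℝ) (x := (round (a - b) : ℝ))).2
          ⟨round (a - b), by simp⟩, add_zero]
      rw [e, hγ, hγ]
      have e2 : a * (m * S.St.τ₀) = (a - b - round (a - b)) * (m * S.St.τ₀) +
          (b + round (a - b)) * (m * S.St.τ₀) := by ring
      rw [e2, S.Hm.add]
      refine S.slow _ (S.Hm.mem _ z hz.mem) _ ?_
      rw [abs_mul, abs_of_pos hs]
      calc _ ≤ 1 / (m : ℝ) * (m * S.St.τ₀) := by gcongr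
        _ = _ := by field_simp
    · convert ht using 2 with i
      rw [hγ, hv i, hσ i]
      congr 3
      field_simp

end Pool.Agent.Wein
end

-- part Pool.Agent.P.MP_e3ee0c_gt.XLink
section

/-! The unit of the whole bundle cannot be pushed below zero. -/

open Set Filter Topology
open scoped ContDiff InnerProductSpace

namespace Pool.Agent.Wein

variable {E : Type} [NormedAddCommGroup E] [InnerProductSpace ℝ E]

namespace XLink

open Link

abbrev Xs (E : Type) (k M : ℕ) : Type := E × (Fin k → E × ℝ) × (Fin M → E)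

open Classical in
noncomputable def foot (S : Sys E) (a : S.S) (y : E) : S.S :=
  if h : S.r y ∈ S.S then ⟨S.r y, h⟩ else a

lemma foot_val (S : Sys E) (a : S.S) {y : E} (h : S.r y ∈ S.S) : (foot S a y : E) = S.r y := by
  simp only [foot, dif_pos h]

lemma foot_cont (S : Sys E) (a : S.S) : ContinuousOn (foot S a) {y | S.r y ∈ S.S} := by
  rw [IsInducing.subtypeVal.continuousOn_iff]
  exact S.smooth.continuous.continuousOn.congr fun y hy => foot_val S a hy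

noncomputable def jj (S : Sys E) (a : S.S) {k M : ℕ} (p : ℝ × Xs E k M) : (S.S × ℝ) × Pm E :=
  ((foot S a p.2.1, p.1), (pad p.2.2.1, pad p.2.2.2))

lemma jj_cont (S : Sys E) (a : S.S) (k M : ℕ) :
    ContinuousOn (jj S a : ℝ × Xs E k M → _) {p | S.r p.2.1 ∈ S.S} := by
  unfold jj
  refine ContinuousOn.prodMk (ContinuousOn.prodMk ?_ continuousOn_fst)
    (Continuous.continuousOn (Continuous.prodMk ?_ ?_))
  · exact (foot_cont S a).comp (Continuous.continuousOn (by fun_prop)) fun p hp => hp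
  · exact pad_cont.comp (by fun_prop)
  · exact pad_cont.comp (by fun_prop)

/-- The chain at a parameter. -/
noncomputable def chn (S : Sys E) (a : S.S) {k M : ℕ} (G : S.S × ℝ → Vc E) (p : ℝ × Xs E k M) :
    Ch E := (G (jj S a p).1).c (jj S a p).2

noncomputable def fam (S : Sys E) (a : S.S) {k M : ℕ} (G : S.S × ℝ → Vc E) (Λ : ℝ)
    (p : ℝ × Xs E k M) : Cfg E M (Option (Fin M)) :=
  ex (Λ • (p.2.1 - S.r p.2.1)) (toCfg M (chn S a G p))

section Fam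

variable {S : Sys E} {a : S.S} {k M : ℕ} {T Δ : ℝ} {G : S.S × ℝ → Vc E} (Λ : ℝ)

lemma fam_cont (hG : S.Good G k M T Δ (fun p => (p.1 : E)) (fun p => (p.1 : E))) :
    ContinuousOn (fam S a G Λ : ℝ × Xs E k M → _)
      {p | S.r p.2.1 ∈ S.S ∧ jj S a p ∈ dom G} := by
  have hr : Continuous S.r := S.smooth.continuous
  have hH : ∀ i : Fin M, ContinuousOn (fun p : ℝ × Xs E k M => chn S a G p i)
      {p | S.r p.2.1 ∈ S.S ∧ jj S a p ∈ dom G} :=
    fun i => (hG.cc i i.2).comp ((jj_cont S a k M).mono fun p hp => hp.1) fun p hp => hp.2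
  unfold fam ex toCfg
  refine ContinuousOn.prodMk (continuousOn_pi.2 fun i => (hH i).fst.prodMk (hH i).snd.fst) ?_
  refine continuousOn_pi.2 fun j => ?_
  cases j with
  | none => exact Continuous.continuousOn (by simp only [Option.elim_none]; fun_prop)
  | some i => exact (hH i).snd.snd

variable [NeZero M]

lemma fam_of {p : ℝ × Xs E k M} {x : E} (hx : x ∈ S.S) (hp : ‖p.2.1 - x‖ ≤ S.δ)
    (hv : S.Valid M (chn S a G p)) (h0 : (chn S a G p 0).1 = S.r p.2.1)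
    (h1 : (chn S a G p M).1 = S.r p.2.1) :
    fam S a G Λ p ∈ S.Z M (Option (Fin M)) ∧
      S.act bs (fun _ => S.St.τ₀) (fam S a G Λ p) ≤ S.Val M (chn S a G p) := by
  refine ⟨S.toCfg_mem hv (h1.trans h0.symm), ?_⟩
  unfold fam
  rw [act_ex, S.act_toCfg (fun _ => S.St.τ₀) (h1.trans h0.symm)]
  have h2 : ((toCfg M (chn S a G p)).1 0).1 = S.r p.2.1 := h0
  rw [h2]
  have h3 := Q_le S hx hp Λ
  unfold Sys.Val
  linarith

lemma fam_zer (hG : S.Good G k M T Δ (fun p => (p.1 : E)) (fun p => (p.1 : E)))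
    {p : ℝ × Xs E k M} {x : E} (hx : x ∈ S.S) (hp : ‖p.2.1 - x‖ ≤ S.δ) (hz : jj S a p ∈ zer G) :
    fam S a G Λ p ∈ S.Z M (Option (Fin M)) ∧
      S.act bs (fun _ => S.St.τ₀) (fam S a G Λ p) ≤ S.Val M (chn S a G p) := by
  have hr := foot_val S a (S.tube hx hp).1
  exact fam_of Λ hx hp (hG.fam.valid _ hz) ((hG.fam.src _ hz).trans hr)
    ((hG.fam.tgt _ hz).trans hr)

omit [NeZero M] in
lemma chn_start (start : ∀ y : S.S, G (y, 0) = S.cst k M y) {z : Xs E k M} (hz : S.r z.1 ∈ S.S) :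
    chn S a G (0, z) = S.unit (fun _ => S.r z.1) (pad z.2.2) := by
  simp only [chn, jj, start, Sys.cst, Sys.nrm, foot_val S a hz]

lemma fam_start (start : ∀ y : S.S, G (y, 0) = S.cst k M y) {z : Xs E k M} {x : E} (hx : x ∈ S.S)
    (hp : ‖z.1 - x‖ ≤ S.δ) : fam S a G Λ (0, z) ∈ S.Z M (Option (Fin M)) ∧
      S.act bs (fun _ => S.St.τ₀) (fam S a G Λ (0, z)) ≤ 0 := by
  have hr := (S.tube hx hp).1
  have e := chn_start (a := a) start hr
  obtain ⟨h1, h2⟩ := fam_of (a := a) (G := G) Λ (p := (0, z)) hx hp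
    (by rw [e]; exact S.unit_valid (fun _ _ => ⟨hr, by simpa using S.μpos.le⟩) _)
    (by rw [e]; rfl) (by rw [e]; rfl)
  refine ⟨h1, h2.trans ?_⟩
  rw [e]
  exact S.unit_le_zero M hr _ fun _ _ => ⟨S.St.τpos.le, le_rfl⟩

omit [NeZero M] in
lemma fam_start_fst (start : ∀ y : S.S, G (y, 0) = S.cst k M y) {z : Xs E k M}
    (hz : S.r z.1 ∈ S.S) (i : Fin M) : ((fam S a G Λ (0, z)).1 i).1 = S.r z.1 := by
  show (chn S a G (0, z) i).1 = _
  rw [chn_start start hz]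
  rfl

lemma phi_start (start : ∀ y : S.S, G (y, 0) = S.cst k M y) (b : E) (hΛ : 0 < Λ) {z : Xs E k M}
    (hz : S.r z.1 ∈ S.S) : phi S b Λ (fam S a G Λ (0, z)) = (z.1 - b, z.2.2) := by
  refine Prod.ext ?_ (funext fun i => ?_)
  · show ((fam S a G Λ (0, z)).1 0).1 + Λ⁻¹ • (Λ • (z.1 - S.r z.1)) - b = z.1 - b
    rw [fam_start_fst Λ start hz, smul_smul, inv_mul_cancel₀ hΛ.ne', one_smul]
    abel
  · show S.pi (chn S a G (0, z) i).1 (chn S a G (0, z) i).2.1 +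
      ((chn S a G (0, z) i).2.2 - S.P (chn S a G (0, z) i).1 (chn S a G (0, z) i).2.2) = z.2.2 i
    rw [chn_start start hz]
    simp only [Sys.unit, pad_val]
    exact S.un_coord hz _

end Fam

end XLink

variable [FiniteDimensional ℝ E]

open Link XLink in
theorem Sys.xlink_aux (S : Sys E) {a : E} (ha : a ∈ S.S) {r0 : ℝ} (hr0 : 0 < r0) (hr : r0 ≤ S.δ)
    (h0 : ∀ x ∈ S.S, ‖x - a‖ ≤ r0 → S.F (x, 0) = 0) {k M : ℕ} [NeZero M] {T Δ : ℝ}
    {G : S.S × ℝ → Vc E} (hG : S.Good G k M T Δ (fun p => (p.1 : E)) (fun p => (p.1 : E)))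
    (hΔ : T + 1 ≤ Δ) (start : ∀ y : S.S, G (y, 0) = S.cst k M y)
    (stop : ∀ y : S.S, S.Low (G (y, 1)) (-1)) : False := by
  have hδ := S.δpos
  have hτ := S.St.τpos
  have hM : (1 : ℝ) ≤ M := by exact_mod_cast Nat.one_le_iff_ne_zero.2 (NeZero.ne M)
  obtain ⟨ρ, hρ, hρM⟩ : ∃ ρ : ℝ, 0 < ρ ∧ M * ρ = r0 / 2 :=
    ⟨r0 / 2 / M, by positivity, by field_simp⟩
  have hρδ : ρ ≤ S.δ / 2 := by nlinarith
  obtain ⟨η, hη, hηρ⟩ : ∃ η : ℝ, 0 < η ∧ η = ρ ^ 2 / S.δ ^ 2 := ⟨_, by positivity, rfl⟩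
  have hη4 : η ≤ 1 / 4 := by
    rw [hηρ, div_le_iff₀ (by positivity)]
    nlinarith
  obtain ⟨ℓ, hℓT, hℓ1⟩ : ∃ ℓ : ℝ, T ≤ ℓ ∧ 1 ≤ ℓ := ⟨max T 1, le_max_left _ _, le_max_right _ _⟩
  have hsum : ∀ u : ℝ, ∑ _i : Fin M, (S.St.τ₀ + u * 0) = M * S.St.τ₀ := by
    intro u; simp
  have hvc : Continuous fun (ζ : Cfg E M (Option (Fin M))) (i : Fin M) => (ζ.1 i).1 := by
    fun_prop
  obtain ⟨D, hD, hdef⟩ := S.deform (m := M) (J := Option (Fin M)) bs False (fun _ => S.St.τ₀)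
    (fun _ => 0) (fun _ => hτ.le) (fun _ => le_rfl) (fun _ => by simp) ℓ (ℓ - η) (η / 2)
    (by linarith) (by linarith)
    {ζ | ζ ∈ S.Z M (Option (Fin M)) ∧ S.toGeo.Triv fun i => (ζ.1 i).1} (fun _ h => h.1)
    (fun ζ hζ hcl => ⟨hζ, by
      have h1 := hvc.continuousAt.eventually
        (Metric.ball_mem_nhds (fun i => (ζ.1 i).1) (show 0 < S.δ / 4 by positivity))
      obtain ⟨ζ', h2, h3⟩ := (h1.and_frequently (mem_closure_iff_frequently.mp hcl)).exists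
      exact S.toGeo.triv_near (S.stepLe_of_mem h3.1) (S.stepLe_of_mem hζ)
        (by rw [dist_comm]; exact h2) h3.2⟩)
    (fun v T hT hc hv h0 => ⟨hv T ⟨hT, le_rfl⟩, by
      have hm : ∀ t ∈ Icc 0 T, T - t ∈ Icc 0 T := fun t ht =>
        ⟨by linarith [ht.2], by linarith [ht.1]⟩
      have := S.toGeo.triv_of_path (fun t i => ((v (T - t)).1 i).1) T hT
        (hvc.comp_continuousOn (hc.comp (f := fun t => T - t) (by fun_prop) hm))
        (fun t h => S.stepLe_of_mem (hv _ (hm t h))) (by simpa only [sub_self] using h0.2)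
      simpa only [sub_zero] using this⟩)
    (by
      intro u hu ζ hζ z hz hA
      exfalso
      rw [hsum] at hz hA
      have h1 := S.exc hz hζ.2
      have h3 := (abs_le.1 hA).1
      have h5 : u * (ℓ - η) ≤ ℓ - η := by nlinarith [hu.2]
      linarith)
    (Or.inr (by
      intro u hu
      rw [hsum]
      have h4 : 0 ≤ M * S.St.τ₀ := by positivity
      have h5 : u * (ℓ - η) ≤ ℓ - η := by nlinarith [hu.2]
      linarith))
  obtain ⟨Λ, hΛ, hΛρ⟩ : ∃ Λ : ℝ, 0 < Λ ∧ Λ * ρ = 1 + D :=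
    ⟨(1 + D) / ρ, by positivity, by field_simp⟩
  set a' : S.S := ⟨a, ha⟩ with ha'
  obtain ⟨R, hR, hRp⟩ : ∃ R : ℝ, 0 < R ∧ ∀ p : ℝ × Xs E k M, jj S a' p ∈ zer G → R ≤ ‖p.2.2.2‖ →
      S.Val M (chn S a' G p) ≤ -1 := by
    obtain ⟨R, hR⟩ := hG.fam.proper 1
    have hp : 0 < max R 1 := by positivity
    refine ⟨max R 1, hp, fun p hz hc => ?_⟩
    have h5 : ∃ i : Fin M, max R 1 ≤ ‖p.2.2.2 i‖ := by
      by_contra h6
      push Not at h6
      exact absurd ((pi_norm_lt_iff hp).2 h6) (not_lt.2 hc)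
    obtain ⟨i, hi⟩ := h5
    refine hR _ hz ⟨i, i.2, ?_⟩
    show R ≤ ‖pad p.2.2.2 i‖
    rw [pad_val]
    exact (le_max_left _ _).trans hi
  set Tc : Set E := {u | ∃ x ∈ S.S, ‖u - x‖ ≤ S.δ} with hTc
  have hTcc : IsCompact Tc := by
    have h1 : Tc = (fun q : E × E => q.1 + q.2) '' (S.S ×ˢ Metric.closedBall 0 S.δ) := by
      ext u
      constructor
      · rintro ⟨x, hx, hu⟩
        exact ⟨(x, u - x), ⟨hx, by simpa using hu⟩, by simp⟩
      · rintro ⟨⟨x, v⟩, ⟨hx, hv⟩, rfl⟩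
        exact ⟨x, hx, by simpa using hv⟩
    rw [h1]
    exact (S.compact.prod (isCompact_closedBall _ _)).image (by fun_prop)
  have hTr : ∀ u ∈ Tc, S.r u ∈ S.S := fun u ⟨x, hx, hu⟩ => (S.tube hx hu).1
  obtain ⟨B, hB⟩ := hG.bdd
  set C0 : Set (ℝ × Xs E k M) :=
    Icc 0 1 ×ˢ Tc ×ˢ Metric.closedBall 0 (max B 0) ×ˢ Metric.closedBall 0 R with hC0
  have hC0c : IsCompact C0 := isCompact_Icc.prod (hTcc.prod
    ((isCompact_closedBall _ _).prod (isCompact_closedBall _ _)))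
  have hjc := jj_cont S a' k M
  set C1 : Set (ℝ × Xs E k M) := C0 ∩ jj S a' ⁻¹' S.top G M (T - Δ) with hC1
  have hC1c : IsCompact C1 := hC0c.of_isClosed_subset
    ((hjc.mono fun p hp => hTr _ hp.2.1).preimage_isClosed_of_isClosed hC0c.isClosed hG.cls)
    inter_subset_left
  have hGc := fam_cont (a := a') Λ hG
  have hC1s : C1 ⊆ {p | S.r p.2.1 ∈ S.S ∧ jj S a' p ∈ dom G} :=
    fun p hp => ⟨hTr _ hp.1.2.1, hp.2.1.1⟩
  set Tv : Set (Fin M → E) := {x | S.toGeo.StepLe (3 * S.δ) x ∧ S.toGeo.Triv x} with hTv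
  set vx : ℝ × Xs E k M → Fin M → E := fun p i => ((fam S a' G Λ p).1 i).1 with hvx
  have hvxc : ContinuousOn vx {p | S.r p.2.1 ∈ S.S ∧ jj S a' p ∈ dom G} :=
    hvc.comp_continuousOn hGc
  have hT1 : ∀ x, S.toGeo.StepLe (3 * S.δ) x → x ∈ Metric.thickening (S.δ / 4) Tv → x ∈ Tv :=
    fun x hx h => by
      obtain ⟨y, hy, hd⟩ := Metric.mem_thickening_iff.1 h
      exact ⟨hx, S.toGeo.triv_near hy.1 hx hd hy.2⟩
  have hT2 : Metric.cthickening (S.δ / 8) Tv ⊆ Metric.thickening (S.δ / 4) Tv :=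
    Metric.cthickening_subset_thickening' (by positivity) (by linarith) _
  set C : Set (ℝ × Xs E k M) := C1 ∩ vx ⁻¹' Metric.cthickening (S.δ / 8) Tv with hC
  have hCc : IsCompact C := hC1c.of_isClosed_subset
    ((hvxc.mono hC1s).preimage_isClosed_of_isClosed hC1c.isClosed Metric.isClosed_cthickening)
    inter_subset_left
  have hCs : C ⊆ {p | S.r p.2.1 ∈ S.S ∧ jj S a' p ∈ dom G} := fun p hp => hC1s hp.1
  have hzer : ∀ p : ℝ × Xs E k M, p.2.1 ∈ Tc → jj S a' p ∈ zer G →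
      fam S a' G Λ p ∈ S.Z M (Option (Fin M)) ∧
        S.act bs (fun _ => S.St.τ₀) (fam S a' G Λ p) ≤ S.Val M (chn S a' G p) :=
    fun p ⟨x, hx, hu⟩ hz => fam_zer Λ hG hx hu hz
  obtain ⟨e, hec, he0, -, -, heZ, heA, heD, heF⟩ := hdef (fam S a' G Λ '' C)
    (by
      rintro _ ⟨p, hp, rfl⟩
      have h1 := (hzer p hp.1.1.2.1 hp.1.2.1).1
      exact ⟨h1, (hT1 _ (S.stepLe_of_mem h1) (hT2 hp.2)).2⟩)
    (hCc.image_of_continuousOn (hGc.mono hCs))
  have hno : ∀ p : ℝ × Xs E k M, p.2.1 ∈ Tc → jj S a' p ∈ zer G →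
      S.Val M (chn S a' G p) ≤ -1 → (∀ i, ‖((e (1, fam S a' G Λ p)).1 i).1 - a‖ ≤ r0) →
      phi S a Λ (e (1, fam S a' G Λ p)) ≠ 0 := by
    intro p hp hz hv hb hz'
    obtain ⟨h4, h3⟩ := hzer p hp hz
    rw [heF _ h4 (by linarith) 1] at hb hz'
    have h1 := (lower S ha hr h0 hΛ h4 hb hz').2
    have h2 : 0 ≤ ∑ i, ‖((fam S a' G Λ p).1 i).1 - ((fam S a' G Λ p).1 (i + 1)).1‖ ^ 2 /
        S.δ ^ 2 := Finset.sum_nonneg fun i _ => by positivity
    nlinarith [sq_nonneg ‖(fam S a' G Λ p).2 none‖]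
  set U0 : Set (ℝ × Xs E k M) := {p | p.2.1 ∈ Metric.thickening S.δ S.S} with hU0
  have hU0o : IsOpen U0 := Metric.isOpen_thickening.preimage (by fun_prop)
  have hUT : ∀ p ∈ U0, p.2.1 ∈ Tc := by
    intro p hp
    obtain ⟨x, hx, hd⟩ := Metric.mem_thickening_iff.1 hp
    exact ⟨x, hx, by rw [← dist_eq_norm]; exact hd.le⟩
  set U : Set (ℝ × Xs E k M) := U0 ∩ jj S a' ⁻¹' dom G with hU
  have hUo : IsOpen U :=
    (hjc.mono fun p hp => hTr _ (hUT p hp)).isOpen_inter_preimage hU0o hG.opn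
  have hUs : U ⊆ {p | S.r p.2.1 ∈ S.S ∧ jj S a' p ∈ dom G} :=
    fun p hp => ⟨hTr _ (hUT p hp.1), hp.2⟩
  set g : ℝ × Xs E k M → Cfg E M (Option (Fin M)) := fun p => e (1, fam S a' G Λ p) with hg
  have hgc : ContinuousOn g {p | S.r p.2.1 ∈ S.S ∧ jj S a' p ∈ dom G} :=
    hec.comp_continuousOn (continuousOn_const.prodMk hGc)
  set V : Set (Cfg E M (Option (Fin M))) :=
    {ζ | (∀ i, ‖(ζ.1 i).1 - a‖ < r0) ∧ ∀ i, ‖(ζ.1 i).1 - (ζ.1 i).2‖ ^ 2 < S.δ ^ 2} with hV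
  have hVo : IsOpen V := by
    rw [hV, ofPred_and, ofPred_forall, ofPred_forall]
    exact (isOpen_iInter_of_finite fun i => isOpen_lt (by fun_prop) continuous_const).inter
      (isOpen_iInter_of_finite fun i => isOpen_lt (by fun_prop) continuous_const)
  set Ω0 : Set (ℝ × Xs E k M) := (U ∩ g ⁻¹' V) ∩ {p | ‖p.2.2.2‖ < R} with hΩ0
  have hΩ0o : IsOpen Ω0 :=
    ((hgc.mono hUs).isOpen_inter_preimage hUo hVo).inter
      (isOpen_lt (by fun_prop) continuous_const)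
  set Ω : Set (ℝ × Xs E k M) := Ω0 ∩ vx ⁻¹' Metric.thickening (S.δ / 4) Tv with hΩ
  have hΩo : IsOpen Ω :=
    (hvxc.mono fun p hp => hUs hp.1.1).isOpen_inter_preimage hΩ0o Metric.isOpen_thickening
  set h : ℝ × Xs E k M → Xs E k M := fun p => ((phi S a Λ (g p)).1,
    fun i : Fin k => (G (jj S a' p).1).q (jj S a' p).2 i, (phi S a Λ (g p)).2) with hh
  have hz1 : ∀ p, jj S a' p ∈ dom G →
      (h p = 0 ↔ phi S a Λ (g p) = 0 ∧ jj S a' p ∈ zer G) := by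
    intro p hp
    constructor
    · intro e0
      have e1 : (h p).1 = 0 := congrArg Prod.fst e0
      have e2 : (h p).2.2 = 0 := congrArg (fun w => w.2.2) e0
      refine ⟨Prod.ext e1 e2, hp, fun i hi => ?_⟩
      rw [hG.hk] at hi
      exact congrFun (congrArg (fun w => w.2.1) e0) ⟨i, hi⟩
    · rintro ⟨e1, e2⟩
      simp only [hh, e1]
      refine Prod.ext rfl (Prod.ext (funext fun i => ?_) rfl)
      exact e2.2 i (by rw [hG.hk]; exact i.2)
  have hhc : ContinuousOn h Ω0 := by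
    have h1 : ContinuousOn (fun p => phi S a Λ (g p)) Ω0 :=
      (phi_cont S a Λ).comp (hgc.mono fun p hp => hUs hp.1.1) fun p hp => hp.1.2.2
    refine h1.fst.prodMk (ContinuousOn.prodMk (continuousOn_pi.2 fun i => ?_) h1.snd)
    exact (hG.qc i i.2).comp (hjc.mono fun p hp => (hUs hp.1.1).1) fun p hp => hp.1.1.2
  have hgZ : ∀ p ∈ C, g p ∈ S.Z M (Option (Fin M)) := fun p hp => (heZ _ ⟨p, hp, rfl⟩ 1).1
  have hK : IsCompact {p | p ∈ Ω ∧ p.1 ∈ Icc (0 : ℝ) 1 ∧ h p = 0} := by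
    have hgC : ContinuousOn g C := hgc.mono hCs
    have hhC : ContinuousOn (fun p => phi S a Λ (g p)) C :=
      (phi_cont S a Λ).comp hgC fun p hp i => (hgZ p hp i).2.2.1
    have hcl : IsClosed {ζ : Cfg E M (Option (Fin M)) | ∀ i, ‖(ζ.1 i).1 - a‖ ≤ r0} := by
      rw [ofPred_forall]
      exact isClosed_iInter fun i => isClosed_le (by fun_prop) continuous_const
    have h1 := hgC.preimage_isClosed_of_isClosed hCc.isClosed hcl
    have h2 := hhC.preimage_isClosed_of_isClosed hCc.isClosed (isClosed_singleton (x := 0))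
    have h3 := hCc.of_isClosed_subset (h1.inter h2) fun p hp => hp.1.1
    convert h3 using 1
    ext p
    constructor
    · rintro ⟨⟨⟨⟨hpU, hpV⟩, hpR⟩, hpX⟩, hp1, hp0⟩
      obtain ⟨e1, e2⟩ := (hz1 p hpU.2).1 hp0
      have hpT := hUT p hpU.1
      have htop : jj S a' p ∈ S.top G M (T - Δ) := by
        refine ⟨e2, ?_⟩
        by_contra hlt
        exact hno p hpT e2 (le_trans (not_le.1 hlt).le (by linarith)) (fun i => (hpV.1 i).le) e1
      have hpC : p ∈ C := by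
        refine ⟨⟨⟨hp1, hpT, ?_, by simpa using le_of_lt hpR⟩, htop⟩,
          Metric.self_subset_cthickening _ (hT1 _ (S.stepLe_of_mem (hzer p hpT e2).1) hpX)⟩
        rw [mem_closedBall_zero_iff, pi_norm_le_iff_of_nonneg (le_max_right _ _)]
        intro i
        have := hB _ htop i i.2
        rw [show (jj S a' p).2.1 i = p.2.2.1 i from pad_val _ i] at this
        exact this.trans (le_max_left _ _)
      exact ⟨⟨hpC, fun i => (hpV.1 i).le⟩, hpC, e1⟩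
    · rintro ⟨⟨hpC, hb⟩, -, hz⟩
      have hb' : ∀ i, ‖((g p).1 i).1 - a‖ ≤ r0 := hb
      have hz' : phi S a Λ (g p) = 0 := hz
      have hpT : p.2.1 ∈ Tc := hpC.1.1.2.1
      have hpz : jj S a' p ∈ zer G := hpC.1.2.1
      obtain ⟨hn, hlow⟩ := lower S ha hr h0 hΛ (hgZ p hpC) hb' hz'
      have hup : S.act bs (fun _ => S.St.τ₀) (g p) ≤ η := by
        have h4 := heA _ ⟨p, hpC, rfl⟩
          (((hzer p hpT hpz).2.trans (hG.fam.le _ hpz)).trans hℓT) 1 ⟨zero_le_one, le_rfl⟩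
        simp only [mul_zero, add_zero, one_mul, sub_sub_cancel] at h4
        exact h4
      have hs0 : ∀ i ∈ Finset.univ,
          0 ≤ ‖((g p).1 i).1 - ((g p).1 (i + 1)).1‖ ^ 2 / S.δ ^ 2 := fun i _ => by positivity
      have hs1 := Finset.sum_nonneg hs0
      have hn1 : ‖(g p).2 none‖ ≤ 1 :=
        (abs_le_of_sq_le_sq' (by nlinarith) zero_le_one).2
      have hx0 : ‖((g p).1 0).1 - a‖ ≤ ρ := by
        refine le_of_mul_le_mul_left ?_ hΛ
        linarith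
      have hst : ∀ i, ‖((g p).1 i).1 - ((g p).1 (i + 1)).1‖ ≤ ρ := by
        intro i
        have h5 := Finset.single_le_sum hs0 (Finset.mem_univ i)
        have h6 : ‖((g p).1 i).1 - ((g p).1 (i + 1)).1‖ ^ 2 / S.δ ^ 2 ≤ ρ ^ 2 / S.δ ^ 2 := by
          nlinarith [sq_nonneg ‖(g p).2 none‖]
        rw [div_le_div_iff_of_pos_right (by positivity)] at h6
        exact (abs_le_of_sq_le_sq' h6 hρ.le).2
      refine ⟨⟨⟨⟨⟨?_, hpz.1⟩, fun i => ?_, fun i => (hgZ p hpC i).2.2.1⟩, ?_⟩, hT2 hpC.2⟩,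
        hpC.1.1.1, (hz1 p hpz.1).2 ⟨hz', hpz⟩⟩
      · have h5 := heD _ ⟨p, hpC, rfl⟩ 1 0
        rw [he0 0 le_rfl, sub_zero, abs_one, mul_one] at h5
        have h6 : ‖(g p).2 none - (fam S a' G Λ p).2 none‖ ≤ D :=
          ((norm_le_pi_norm (g p - fam S a' G Λ p).2 none).trans (norm_snd_le _)).trans h5
        have h7 : ‖(fam S a' G Λ p).2 none‖ = Λ * ‖p.2.1 - S.r p.2.1‖ := by
          show ‖Λ • (p.2.1 - S.r p.2.1)‖ = _
          rw [norm_smul, Real.norm_eq_abs, abs_of_pos hΛ]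
        have h8 := norm_sub_norm_le ((fam S a' G Λ p).2 none) ((g p).2 none)
        rw [norm_sub_rev] at h8
        have h9 : ‖p.2.1 - S.r p.2.1‖ ≤ ρ := by
          refine le_of_mul_le_mul_left ?_ hΛ
          linarith
        exact Metric.mem_thickening_iff.2 ⟨_, hTr _ hpT, by rw [dist_eq_norm]; linarith⟩
      · have h5 := chain_bound (fun i => ((g p).1 i).1) a hx0 hst i
        linarith
      · by_contra hc
        exact hno p hpT hpz (hRp p hpz (not_lt.1 hc)) hb' hz'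
  have hstart : ∀ z : Xs E k M, z.1 ∈ Tc → g (0, z) = fam S a' G Λ (0, z) :=
    fun z ⟨x, hx, hu⟩ => heF _ (fam_start Λ start hx hu).1
      (by linarith [(fam_start (a := a') Λ start hx hu).2]) 1
  have haT : a ∈ Tc := ⟨a, ha, by simpa using hδ.le⟩
  obtain ⟨z, hzΩ, hz⟩ := deg_zero Ω hΩo h (hhc.mono inter_subset_left) hK (a, 0, 0)
    (by
      refine ⟨⟨⟨⟨Metric.self_subset_thickening hδ _ ha, ?_⟩, ?_⟩, by simpa using hR⟩,
        Metric.self_subset_thickening (by positivity) _ ⟨S.stepLe_of_mem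
          (fam_start Λ start (z := (a, 0, 0)) ha (by simpa using hδ.le)).1,
          S.toGeo.triv_const (hTr _ haT) fun i => fam_start_fst Λ start (hTr _ haT) i⟩⟩
      · show (jj S a' (0, (a, 0, 0))).2 ∈ (G (foot S a' a, 0)).Ω
        rw [start]
        exact mem_univ _
      · show g (0, (a, 0, 0)) ∈ V
        rw [hstart _ haT]
        refine ⟨fun i => ?_, fun i => ((fam_start Λ start (z := (a, 0, 0)) ha
          (by simpa using hδ.le)).1 i).2.2.1⟩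
        rw [fam_start_fst Λ start (hTr _ haT), S.fix a ha]
        simpa using hr0)
    (by
      intro z hz
      have h1 := hUT _ hz.1.1.1.1
      simp only [hh]
      rw [hstart z h1, phi_start Λ start a hΛ (hTr _ h1)]
      refine Prod.ext rfl (Prod.ext (funext fun i => ?_) (by simp))
      show (G (foot S a' z.1, 0)).q (pad z.2.1, pad z.2.2) i = z.2.1 i - 0
      rw [start, sub_zero]
      exact pad_val _ i)
  obtain ⟨e1, e2⟩ := (hz1 _ hzΩ.1.1.1.2).1 hz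
  refine hno (1, z) (hUT _ hzΩ.1.1.1.1) e2 ?_ (fun i => (hzΩ.1.1.2.1 i).le) e1
  have := stop _ _ e2
  rwa [hG.hM] at this

theorem Sys.xlink (S : Sys E) {a : E} (ha : a ∈ S.S) {r0 : ℝ} (hr0 : 0 < r0)
    (h0 : ∀ x ∈ S.S, ‖x - a‖ ≤ r0 → S.F (x, 0) = 0) {k M : ℕ} {T Δ : ℝ}
    {G : S.S × ℝ → Vc E} (hG : S.Good G k M T Δ (fun p => (p.1 : E)) (fun p => (p.1 : E)))
    (hΔ : T + 1 ≤ Δ) (start : ∀ y : S.S, G (y, 0) = S.cst k M y)
    (stop : ∀ y : S.S, S.Low (G (y, 1)) (-1)) : False := by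
  have hc : S.Good (fun p : S.S × ℝ => S.cst 0 1 (p.1 : E)) 0 1 0 Δ (fun p => (p.1 : E))
      (fun p => (p.1 : E)) := Sys.good_cst 0 1 Δ (by fun_prop) fun p => p.1.2
  have h := hG.mul hc
  rw [add_zero T] at h
  refine S.xlink_aux ha (lt_min hr0 S.δpos) (min_le_right _ _)
    (fun x hx hb => h0 x hx (hb.trans (min_le_left _ _))) h hΔ (fun y => ?_) fun y => ?_
  · simp only [start, S.cst_mul]
  · simpa using Sys.low_mul hG hc (y, 1) (stop y) (hc.low (y, 1))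

end Pool.Agent.Wein
end

-- part Pool.Agent.P.MP_e3ee0c_gt.XRec
section

/-! The recursion that sorts the letters into those that move up and those that move down. -/

open Set Filter Topology
open scoped ContDiff InnerProductSpace

namespace Pool.Agent.Wein

open TopAux

variable {E : Type} [NormedAddCommGroup E] [InnerProductSpace ℝ E]

def rk1 : ℕ → ℕ
  | 0 => 0
  | d + 1 => rk1 d + 1 + rk1 d

def rk2 (J n0 : ℕ) : ℕ → ℕ
  | 0 => J
  | d + 1 => rk2 J n0 d + n0 + rk2 J n0 d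

def rk3 (J m1 : ℕ) : ℕ → ℕ
  | 0 => J
  | d + 1 => rk3 J m1 d + m1

theorem rk1_realize : True := by
  have := @rk1.eq_def
  trivial

theorem rk2_realize : True := by
  have := @rk2.eq_def
  trivial

theorem rk3_realize : True := by
  have := @rk3.eq_def
  trivial

/-- All words of the given shape have their domain in O. -/
def Fit (O : Set (Pm E)) (X Y : ℝ → Vc E) (J k M : ℕ) : Prop :=
  ∀ (α β γ : Vc E) (u w : ℝ), α.k = 0 → α.M = J → β.k = k → β.M = M →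
    (α * X u * β * Y w * γ).Ω ⊆ O

namespace Kit

variable {S : Sys E} {x : E} {n0 m1 J : ℕ} {T1 T2 T3 ℓ Δ : ℝ}
  (K : Kit S x n0 m1 J T1 T2 T3 ℓ Δ)

include K in
lemma xrec_mem : x ∈ S.S := K.bX0 ▸ K.bXS 0

include K in
lemma xrec_cst (k M : ℕ) :
    S.Good (fun _ : ℝ => S.cst k M x) k M 0 Δ (fun _ => x) (fun _ => x) :=
  Sys.good_cst k M Δ (a := fun _ : ℝ => x) continuous_const fun _ => K.xrec_mem

lemma xrec_fix {σ : ℝ → Vc E} {k M : ℕ} {T : ℝ} {a b : ℝ → E} (h : S.Good σ k M T Δ a b) (t : ℝ)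
    (ha : a t = x) (hb : b t = x) :
    S.Good (fun _ : ℝ => σ t) k M T Δ (fun _ => x) (fun _ => x) := by
  have := h.comp (f := fun _ : ℝ => t) continuous_const
  simpa only [ha, hb] using this

theorem base {kX MX kY MY kT MT : ℕ} {TX TY TT ℓX ℓY : ℝ} {X Y : ℝ → Vc E} {Tl : Vc E}
    {O : Set (Pm E)} (hX : S.Good X kX MX TX Δ K.bX K.bX) (hY : S.Good Y kY MY TY Δ K.bY K.bY)
    (hT : S.Good (fun _ : ℝ => Tl) kT MT TT Δ (fun _ => x) (fun _ => x))
    (lX : S.Low (X 1) ℓX) (lY : S.Low (Y (-1)) ℓY) (hO : Fit O X Y J 0 J) :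
    S.Kill (TX + TY + TT + 3 * T3) Δ x O
      (S.cst 0 J x * X 0 * S.cst 0 J x * Y 0 * S.cst 0 J x * Tl) (ℓX + ℓY + TT + 3 * T3) := by
  have gX := hX.comp (f := fun u : ℝ => clamp u) clamp_cont
  have gY := hY.comp (f := fun u : ℝ => -clamp u) clamp_cont.neg
  have g1 := K.up_good.mul gX
  have g2 := g1.mul K.dn_good
  have g3 := g2.mul gY
  have g4 := g3.mul K.bk_good
  have g5 := g4.mul hT
  have l1 := Sys.low_mul K.up_good gX 1 (K.up_good.low 1) (ℓ' := ℓX)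
    (by simpa only [clamp_one] using lX)
  have l2 := Sys.low_mul g1 K.dn_good 1 l1 (K.dn_good.low 1)
  have l3 := Sys.low_mul g2 gY 1 l2 (ℓ' := ℓY) (by simpa only [clamp_one] using lY)
  have l4 := Sys.low_mul g3 K.bk_good 1 l3 (K.bk_good.low 1)
  have l5 := Sys.low_mul g4 hT 1 l4 (hT.low 1)
  refine ⟨_, Sys.Htp.intro (g5.mono (le_of_eq (by ring))) (fun u => ?_) ?_ rfl,
    l5.mono (le_of_eq (by ring))⟩
  · have := hO (K.up u) (K.dn u) (K.bk u * Tl) (clamp u) (-clamp u) (K.up_good.hk u)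
      (K.up_good.hM u) (K.dn_good.hk u) (K.dn_good.hM u)
    simpa only [mul_assoc] using this
  · simp only [clamp_zero, neg_zero, K.up_zero, K.dn_zero, K.bk_zero]

theorem recur (h1 : 0 ≤ T1) (h2 : 0 ≤ T2) (h3 : 0 ≤ T3) (d : ℕ) :
    ∀ {kX MX kY MY kT MT : ℕ} {TX TY TT ℓX ℓY : ℝ} {X Y : ℝ → Vc E} {Tl : Vc E}
      {O : Set (Pm E)}, S.Good X kX MX TX Δ K.bX K.bX → S.Good Y kY MY TY Δ K.bY K.bY →
      S.Good (fun _ : ℝ => Tl) kT MT TT Δ (fun _ => x) (fun _ => x) →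
      S.Low (X 1) ℓX → S.Low (Y (-1)) ℓY → Y 1 = Y 0 → Fit O X Y J (rk1 d) (rk2 J n0 d) →
      S.Kill (TX + TY + TT + 3 * T3 + d * (T1 + T2)) Δ x O
        (S.cst 0 J x * X 0 * S.cst (rk1 d) (rk2 J n0 d) x * Y 0 * S.cst 0 (rk3 J m1 d) x * Tl)
        (ℓX + ℓY + TT + 3 * T3 + d * (ℓ + T2)) := by
  induction d with
  | zero =>
    intro kX MX kY MY kT MT TX TY TT ℓX ℓY X Y Tl O hX hY hT lX lY _ hO
    simpa only [rk1, rk2, rk3, Nat.cast_zero, zero_mul, add_zero] using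
      K.base hX hY hT lX lY hO
  | succ d ih =>
    intro kX MX kY MY kT MT TX TY TT ℓX ℓY X Y Tl O hX hY hT lX lY hY1 hO
    have hd : (0 : ℝ) ≤ d * (T1 + T2) := mul_nonneg (Nat.cast_nonneg d) (add_nonneg h1 h2)
    have hlev : TX + TY + TT + T1 + T2 ≤ TX + TY + TT + 3 * T3 + ((d + 1 : ℕ) : ℝ) * (T1 + T2) := by
      push_cast
      nlinarith
    have hgc : Continuous fun u : ℝ => K.bY (clamp u) := K.bYc.comp clamp_cont
    have gA := K.xrec_cst 0 J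
    have gC := K.xrec_cst (rk1 d) (rk2 J n0 d)
    have gR := K.xrec_cst 0 (rk3 J m1 d)
    have gX0 := xrec_fix hX 0 K.bX0 K.bX0
    have gY0 := xrec_fix hY 0 K.bY0 K.bY0
    have gCg := Sys.good_cst (S := S) (rk1 d) (rk2 J n0 d) Δ hgc fun u => K.bYS _
    have gRg := Sys.good_cst (S := S) 0 (rk3 J m1 d) Δ hgc fun u => K.bYS _
    have gYc := hY.comp (f := fun u : ℝ => clamp u) clamp_cont
    have gL := (gA.mul gX0).mul gC
    have gT' := (xrec_fix K.rev_good 1 (by simp only [clamp_one, K.bY1]) rfl).mul hT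
    have gRt := ((gC.mul gY0).mul gR).mul gT'
    have gH1 := (((((gL.mul K.mid_good).mul gCg).mul gYc).mul gRg).mul K.rev_good).mul hT
    obtain ⟨Hs, gHs, -, hs0, hs1⟩ := K.split
    rw [K.mid_good.hk 1, K.mid_good.hM 1] at gHs
    have gH2 := (gL.mul gHs).mul gRt
    set A := S.cst 0 J x with hA
    set C := S.cst (rk1 d) (rk2 J n0 d) x with hC
    set R := S.cst 0 (rk3 J m1 d) x with hR
    set L := A * X 0 * C with hL
    set Rt := C * Y 0 * R * (K.rev 1 * Tl) with hRt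
    have hLk : L.k = kX + rk1 d := by
      simp only [hL, hA, hC, Vc.mul_k, Sys.cst_k, hX.hk, zero_add]
    have hLM : L.M = J + MX + rk2 J n0 d := by
      simp only [hL, hA, hC, Vc.mul_M, Sys.cst_M, hX.hM]
    have p1 : S.Htp (TX + TY + TT + 3 * T3 + ((d + 1 : ℕ) : ℝ) * (T1 + T2)) Δ x O
        (A * X 0 * S.cst (rk1 (d + 1)) (rk2 J n0 (d + 1)) x * Y 0 *
          S.cst 0 (rk3 J m1 (d + 1)) x * Tl) (L * K.mid 1 * Rt) := by
      refine Sys.Htp.intro (gH1.mono (by linarith)) (fun u => ?_) ?_ ?_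
      · have := hO A (C * K.mid u * S.cst (rk1 d) (rk2 J n0 d) (K.bY (clamp u)))
          (S.cst 0 (rk3 J m1 d) (K.bY (clamp u)) * K.rev u * Tl) 0 (clamp u) rfl rfl
          (by simp only [hC, Vc.mul_k, Sys.cst_k, K.mid_good.hk, rk1])
          (by simp only [hC, Vc.mul_M, Sys.cst_M, K.mid_good.hM, rk2])
        simpa only [hL, mul_assoc] using this
      · have e1 : S.cst (rk1 (d + 1)) (rk2 J n0 (d + 1)) x = C * S.cst 1 n0 x * C := by
          simp only [hC, Sys.cst_mul, rk1, rk2]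
        have e2 : S.cst 0 (rk3 J m1 (d + 1)) x = R * S.cst 0 m1 x := by
          simp only [hR, Sys.cst_mul, rk3]
        rw [e1, e2]
        simp only [clamp_zero, K.mid_zero, K.rev_zero, K.bY0, hL, ← hC, ← hR, mul_assoc]
      · simp only [clamp_one, K.bY1, hY1, hRt, ← hC, ← hR, mul_assoc]
    have p2 : S.Htp (TX + TY + TT + 3 * T3 + ((d + 1 : ℕ) : ℝ) * (T1 + T2)) Δ x O
        (L * K.mid 1 * Rt)
        (Vc.uni (sh L.k L.M ⁻¹' K.O) (L * K.plus 0 * Rt) (L * K.minus 0 * Rt)) := by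
      refine Sys.Htp.intro (gH2.mono (by linarith)) (fun u => ?_) ?_ ?_
      · have := hO A (C * Hs u * C) (R * (K.rev 1 * Tl)) 0 0 rfl rfl
          (by simp only [hC, Vc.mul_k, Sys.cst_k, gHs.hk, rk1])
          (by simp only [hC, Vc.mul_M, Sys.cst_M, gHs.hM, rk2])
        simpa only [hL, hRt, mul_assoc] using this
      · simp only [hs0]
      · simp only [hs1]
        rw [Vc.mul_uni, Vc.uni_mul]
        · simp only [Vc.mul_k, K.plus_good.hk, K.minus_good.hk]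
        · simp only [Vc.mul_M, K.plus_good.hM, K.minus_good.hM]
    refine p1.kill (p2.kill (Sys.Kill.uni ?_ ?_ ?_ ?_))
    · simp only [Vc.mul_k, K.plus_good.hk, K.minus_good.hk]
    · simp only [Vc.mul_M, K.plus_good.hM, K.minus_good.hM]
    · have gCX := Sys.good_cst (S := S) (rk1 d) (rk2 J n0 d) Δ K.bXc K.bXS
      have gX' := (hX.mul gCX).mul K.plus_good
      have lX' := Sys.low_mul (hX.mul gCX) K.plus_good 1
        (Sys.low_mul hX gCX 1 lX (gCX.low 1)) K.plus_low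
      have := ih (O := O ∩ sh L.k L.M ⁻¹' K.O) gX' hY gT' lX' lY hY1 (by
        intro α β γ u w a1 a2 b1 b2 v hv
        refine ⟨?_, ?_⟩
        · have := hO α (S.cst (rk1 d) (rk2 J n0 d) (K.bX u) * K.plus u * β) γ u w a1 a2
            (by simp only [Vc.mul_k, Sys.cst_k, K.plus_good.hk, rk1, b1])
            (by simp only [Vc.mul_M, Sys.cst_M, K.plus_good.hM, rk2, b2])
          apply this
          simpa only [mul_assoc] using hv
        · have hv' : v ∈ ((α * X u * S.cst (rk1 d) (rk2 J n0 d) (K.bX u)) *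
              (K.plus u * (β * Y w * γ))).Ω := by
            simpa only [mul_assoc] using hv
          have h := K.plus_dom u (Vc.mem_mul.1 (Vc.mem_mul.1 hv').2).1
          simp only [Vc.mul_k, Vc.mul_M, Sys.cst_k, Sys.cst_M, a1, a2, hX.hk, hX.hM,
            zero_add] at h
          rw [mem_preimage, hLk, hLM]
          exact h)
      have e : A * (X 0 * S.cst (rk1 d) (rk2 J n0 d) (K.bX 0) * K.plus 0) * C * Y 0 * R *
          (K.rev 1 * Tl) = L * K.plus 0 * Rt := by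
        simp only [K.bX0, hL, hRt, ← hC, mul_assoc]
      rw [← e]
      refine this.mono (le_of_eq ?_) (le_of_eq ?_) <;> push_cast <;> ring
    · have gCY := Sys.good_cst (S := S) (rk1 d) (rk2 J n0 d) Δ K.bYc K.bYS
      have gY' := (K.minus_good.mul gCY).mul hY
      have lY' := Sys.low_mul (K.minus_good.mul gCY) hY (-1)
        (Sys.low_mul K.minus_good gCY (-1) K.minus_low (gCY.low (-1))) lY
      have := ih (O := O ∩ (sh L.k L.M ⁻¹' K.O)ᶜ) hX gY' gT' lX lY'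
        (by simp only [K.minus_one, K.bY1, K.bY0, hY1]) (by
        intro α β γ u w a1 a2 b1 b2 v hv
        refine ⟨?_, ?_⟩
        · have := hO α (β * K.minus w * S.cst (rk1 d) (rk2 J n0 d) (K.bY w)) γ u w a1 a2
            (by simp only [Vc.mul_k, Sys.cst_k, K.minus_good.hk, rk1, b1])
            (by simp only [Vc.mul_M, Sys.cst_M, K.minus_good.hM, rk2, b2])
          apply this
          simpa only [mul_assoc] using hv
        · have hv' : v ∈ ((α * X u * β) *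
              (K.minus w * (S.cst (rk1 d) (rk2 J n0 d) (K.bY w) * Y w * γ))).Ω := by
            simpa only [mul_assoc] using hv
          have h := K.minus_dom w (Vc.mem_mul.1 (Vc.mem_mul.1 hv').2).1
          simp only [Vc.mul_k, Vc.mul_M, a1, a2, b1, b2, hX.hk, hX.hM, zero_add] at h
          rw [mem_compl_iff, mem_preimage, hLk, hLM]
          exact h)
      have e : A * X 0 * C * (K.minus 0 * S.cst (rk1 d) (rk2 J n0 d) (K.bY 0) * Y 0) * R *
          (K.rev 1 * Tl) = L * K.minus 0 * Rt := by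
        simp only [K.bY0, hL, hRt, ← hC, mul_assoc]
      rw [← e]
      refine this.mono (le_of_eq ?_) (le_of_eq ?_) <;> push_cast <;> ring

include K in
theorem kill (h1 : 0 ≤ T1) (h2 : 0 ≤ T2) (h3 : 0 ≤ T3) (m : ℕ) : ∃ k M : ℕ,
    S.Kill (3 * T3 + m * (T1 + T2)) Δ x univ (S.cst k M x) (3 * T3 + m * (ℓ + T2)) := by
  have gX := Sys.good_cst (S := S) 0 0 Δ K.bXc K.bXS
  have gY := Sys.good_cst (S := S) 0 0 Δ K.bYc K.bYS
  have h := K.recur h1 h2 h3 m (O := univ) gX gY (K.xrec_cst 0 0) (gX.low 1) (gY.low (-1))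
    (by simp only [K.bY1, K.bY0]) (fun _ _ _ _ _ _ _ _ _ => subset_univ _)
  simp only [K.bX0, K.bY0, Sys.cst_mul, zero_add, add_zero] at h
  exact ⟨_, _, h⟩

end Kit

end Pool.Agent.Wein
end

-- part Pool.Agent.P.MP_e3ee0c_gt.XSliceA
section

/-! The first stage of the construction of the slice. -/

open Set Filter Topology
open scoped ContDiff InnerProductSpace

namespace Pool.Agent.Wein

open TopAux

variable {E : Type} [NormedAddCommGroup E] [InnerProductSpace ℝ E] [FiniteDimensional ℝ E]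

omit [FiniteDimensional ℝ E] in
lemma Sys.Q_le' (S : Sys E) {x u : E} (hx : x ∈ S.S) (h : ‖u - x‖ ≤ S.δ) (c : ℝ) :
    S.Q (S.r u) (c • (u - S.r u)) ≤ -(7 / 8) * ‖c • (u - S.r u)‖ ^ 2 := by
  obtain ⟨h0, -, h1⟩ := S.tube hx h
  have h2 := S.pyth h0 (c • (u - S.r u))
  have h3 : ‖S.P (S.r u) (c • (u - S.r u))‖ ≤ 1 / 4 * ‖c • (u - S.r u)‖ := by
    rw [map_smul, norm_smul, norm_smul]
    nlinarith [norm_nonneg c]
  unfold Sys.Q
  nlinarith [norm_nonneg (S.P (S.r u) (c • (u - S.r u))), norm_nonneg (c • (u - S.r u))]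

/-- The result of the first stage, with j more unit letters at the base point. -/
structure Stage (S : Sys E) (Wl : Wall S.S) (m1 M1 M : ℕ) [NeZero M] (Λ L' t' : ℝ)
    (β n : E × (ℕ → E) → E) (H : E × (ℕ → E) → ℝ) (ch : E × (ℕ → E) → Ch E) : Prop where
  fam : S.XFam (Wl.tube ×ˢ univ) (fun p => p.2) M β n ch
  dep : ∀ y P P', (∀ i < M, P i = P' i) →
    n (y, P) = n (y, P') ∧ ∀ i < M, ch (y, P) i = ch (y, P') i
  Hc : ContinuousOn H (Wl.tube ×ˢ univ)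
  Hth : ∀ p, p.1 ∈ Wl.tube → ((H p : ℝ) : UnitAddCircle) = Wl.th (β p)
  Hle : ∀ p, p.1 ∈ Wl.tube → |H p| ≤ t' - 1
  le : ∀ p, p.1 ∈ Wl.tube → S.Val M (ch p) + S.Q (β p) (n p) ≤ m1 * (S.St.τ₀ / 4)
  low : ∀ p, p.1 ∈ Wl.tube → Wl.d / 4 ≤ Wl.tau p.1 →
    S.ValT (fun i => if i < M1 then S.St.τ₀ else 0) M (ch p) + S.Q (β p) (n p) ≤ -L'
  start : ∀ p, p.1 ∈ Wl.tube → Wl.tau p.1 ≤ 0 → β p = S.r p.1 ∧ n p = Λ • (p.1 - S.r p.1) ∧
    H p = Wl.tau p.1 ∧ ∀ i < M, ch p i = S.unit (Wl.pol m1 (S.r p.1)) p.2 i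
  edge : ∀ p, p.1 ∈ Wl.tube → S.δ ≤ ‖p.1 - S.r p.1‖ →
    S.ValT (fun i => if i < M1 then S.St.τ₀ else 0) M (ch p) + S.Q (β p) (n p) ≤
      m1 * (S.St.τ₀ / 4) - 7 / 8 * (Λ * S.δ) ^ 2

omit [FiniteDimensional ℝ E] [InnerProductSpace ℝ E] in
lemma xslicea_zero {N : Set E} (Wl : Wall N) (m : ℕ) {x : E} (hx : x ∈ Wl.K) :
    Wl.pol m x 0 = x := by
  simp only [Wall.pol, Nat.zero_min, Nat.cast_zero, zero_div, AddCircle.coe_zero]
  exact Wl.σ0 x hx.1 hx.2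

omit [FiniteDimensional ℝ E] [InnerProductSpace ℝ E] in
lemma xslicea_ge {N : Set E} (Wl : Wall N) {m i : ℕ} (hm : 0 < m) (hi : m ≤ i) {x : E}
    (hx : x ∈ Wl.K) : Wl.pol m x i = x := by
  have h0 : (m : ℝ) ≠ 0 := by exact_mod_cast hm.ne'
  simp only [Wall.pol, min_eq_right hi, div_self h0, AddCircle.coe_period]
  exact Wl.σ0 x hx.1 hx.2

lemma xslicea_step {m : ℕ} (hm : 0 < m) (i : ℕ) :
    |((min i m : ℕ) : ℝ) / m - ((min (i + 1) m : ℕ) : ℝ) / m| ≤ 1 / (m : ℝ) := by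
  have h0 : (0 : ℝ) < m := by exact_mod_cast hm
  have h4 : ((min i m : ℕ) : ℝ) ≤ ((min (i + 1) m : ℕ) : ℝ) := Nat.cast_le.2 (by omega)
  have h5 : ((min (i + 1) m : ℕ) : ℝ) ≤ ((min i m : ℕ) : ℝ) + 1 := by
    exact_mod_cast (by omega : min (i + 1) m ≤ min i m + 1)
  rw [← sub_div, abs_div, abs_of_pos h0]
  exact div_le_div_of_nonneg_right (abs_le.2 ⟨by linarith, by linarith⟩) h0.le

omit [FiniteDimensional ℝ E] in
/-- More unit letters at the base point do not raise the level. -/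
lemma xslicea_val (S : Sys E) (M j : ℕ) {c : Ch E} {x : E} (hx : x ∈ S.S) (h : (c M).1 = x)
    (P : ℕ → E) : S.ValT (fun i => if i < M then S.St.τ₀ else 0) (M + j)
      (cat M c (S.unit (fun _ => x) P)) ≤ S.Val M c := by
  rw [S.valT_cat _ _ _ _ _ (h.trans (S.unit_fst (fun _ => x) P 0).symm)]
  have e1 : S.ValT (fun i => if i < M then S.St.τ₀ else 0) M c = S.Val M c :=
    Finset.sum_congr rfl fun i hi => by simp only [if_pos (Finset.mem_range.mp hi)]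
  have e2 := S.unit_le_zero j hx P (τ := fun i => if M + i < M then S.St.τ₀ else 0) fun i _ => by
    rw [if_neg (by omega)]
    exact ⟨le_rfl, S.St.τpos.le⟩
  linarith

theorem exists_stage (S : Sys E) (Wl : Wall S.S) {m1 : ℕ} (hm : 0 < m1)
    (hs : ∀ x ∈ Wl.K, ∀ s t : ℝ, |s - t| ≤ 1 / (m1 : ℝ) →
      ‖Wl.σ (x, (s : UnitAddCircle)) - Wl.σ (x, (t : UnitAddCircle))‖ ≤ S.μ)
    (hnt : ∀ (M : ℕ) [NeZero M], m1 ≤ M → ∀ x ∈ Wl.K,
      ¬ S.Tr fun i : Fin M => Wl.pol m1 x i) (L' : ℝ) (hL' : 0 ≤ L') :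
    ∃ (M1 : ℕ) (t' : ℝ), m1 ≤ M1 ∧ 0 ≤ t' ∧ ∀ (j : ℕ) [NeZero (M1 + j)] (Λ : ℝ), 0 < Λ →
      m1 * (S.St.τ₀ / 4) + L' + 1 / 2 ≤ 7 / 8 * (Λ * S.δ) ^ 2 →
      ∃ β n H ch, Stage S Wl m1 M1 (M1 + j) Λ L' t' β n H ch := by
  have hτ := S.St.τpos
  have hq : 0 ≤ (m1 : ℝ) * (S.St.τ₀ / 4) := by positivity
  obtain ⟨M0, hM0⟩ := exists_nat_gt ((m1 * (S.St.τ₀ / 4) + L') / S.St.τ₀)
  obtain ⟨M1, hM1, hM2⟩ : ∃ M1 : ℕ, m1 ≤ M1 ∧ m1 * (S.St.τ₀ / 4) + L' < M1 * S.St.τ₀ := by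
    refine ⟨M0 + m1, Nat.le_add_left _ _, ?_⟩
    rw [div_lt_iff₀ hτ] at hM0
    push_cast
    nlinarith
  have hM1p : 0 < M1 := hm.trans_le hM1
  have : NeZero M1 := ⟨hM1p.ne'⟩
  obtain ⟨D, hD, hpush⟩ := S.push (m := M1) (fun _ => 0) (fun _ => S.St.τ₀) (fun _ => le_rfl)
    (fun _ => hτ.le) (fun _ => (zero_add _).le) (m1 * (S.St.τ₀ / 4)) (m1 * (S.St.τ₀ / 4) + L')
    (by linarith) (by simpa only [Finset.sum_const, Finset.card_range, nsmul_eq_mul] using hM2)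
  obtain ⟨t, ht, hlift⟩ := Wl.lift S.compact D hD
  have hd := Wl.dpos
  refine ⟨M1, t + Wl.d + 1, hM1, by linarith, fun j _ Λ hΛ hΛ' => ?_⟩
  have hr : Continuous S.r := S.smooth.continuous
  have hv : ∀ x ∈ Wl.K, ∀ i, Wl.pol m1 x i ∈ S.S ∧ ‖Wl.pol m1 x i - Wl.pol m1 x (i + 1)‖ ≤ S.μ :=
    fun x hx i => ⟨(Wl.σm x hx.1 hx.2 _).1, hs x hx _ _ (xslicea_step hm i)⟩
  have hQ : ∀ y ∈ Wl.tube, S.Q (S.r y) (Λ • (y - S.r y)) ≤ -(7 / 8) * ‖Λ • (y - S.r y)‖ ^ 2 :=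
    fun y hy => hy.1.elim fun x hx => S.Q_le' hx.1 hx.2 Λ
  have hQ0 : ∀ y ∈ Wl.tube, S.Q (S.r y) (Λ • (y - S.r y)) ≤ 0 := fun y hy =>
    (hQ y hy).trans (by nlinarith [sq_nonneg ‖Λ • (y - S.r y)‖])
  have hcard : ∀ y ∈ Wl.tube, ∀ (P : ℕ → E) (s : ℝ), s ∈ Icc 0 S.St.τ₀ →
      S.ValT (fun _ => s) M1 (S.unit (Wl.pol m1 (S.r y)) P) ≤ m1 * (S.St.τ₀ / 4) := by
    intro y hy P s hs'
    have := Sys.unit_le_card (m := M1) (fun i _ => hv _ (Wl.r_mem hy) i) (Finset.range m1)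
      (fun i _ hi => by
        have hi' : m1 ≤ i := by simpa using hi
        rw [xslicea_ge Wl hm hi' (Wl.r_mem hy), xslicea_ge Wl hm (by omega) (Wl.r_mem hy)]) P
      (τ := fun _ => s) fun _ _ => hs'
    rwa [Finset.card_range] at this
  have hin : S.XFam (Wl.tube ×ˢ univ) (fun p : E × (ℕ → E) => p.2) M1 (fun p => S.r p.1)
      (fun p => Λ • (p.1 - S.r p.1)) (fun p => S.unit (Wl.pol m1 (S.r p.1)) p.2) := by
    refine ⟨fun i _ => S.unit_cont ?_ (by fun_prop) fun p hp => (hv _ (Wl.r_mem hp.1) i).1,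
      by fun_prop, fun p hp => S.unit_valid (fun i _ => hv _ (Wl.r_mem hp.1) i) _,
      fun p hp => xslicea_zero Wl m1 (Wl.r_mem hp.1),
      fun p hp => xslicea_ge Wl hm hM1 (Wl.r_mem hp.1), fun L => ?_,
      fun p hp => hnt M1 hM1 _ (Wl.r_mem hp.1)⟩
    · exact Wl.σc.comp (f := fun p : E × (ℕ → E) =>
        (S.r p.1, ((((min i m1 : ℕ) : ℝ) / m1 : ℝ) : UnitAddCircle))) (by fun_prop)
        fun p hp => ⟨Wl.r_mem hp.1, trivial⟩
    · obtain ⟨R, hR⟩ := S.unit_proper M1 L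
      refine ⟨R, fun p hp h => ?_⟩
      have h1 : S.Val M1 (S.unit (Wl.pol m1 (S.r p.1)) p.2) ≤ -L :=
        hR _ (fun i _ => hv _ (Wl.r_mem hp.1) i) _ h _ fun _ _ => ⟨hτ.le, le_rfl⟩
      linarith [hQ0 _ hp.1]
  obtain ⟨a', n', c', k1, k2, k3, k4, k5, k6⟩ := hpush Wl.tube Wl.tube_compact _ _ _ hin
    fun y P P' h => ⟨rfl, fun i hi => by simp only [Sys.unit, h i hi]⟩
  have mem : ∀ (u : ℝ) (p : E × (ℕ → E)), p.1 ∈ Wl.tube →
      (u, p) ∈ (univ : Set ℝ) ×ˢ Wl.tube ×ˢ (univ : Set (ℕ → E)) :=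
    fun u p hp => ⟨trivial, hp, trivial⟩
  have ac : ContinuousOn a' (univ ×ˢ Wl.tube ×ˢ univ) :=
    (k1.cont 0 hM1p).fst.congr fun p hp => (k1.src p hp).symm
  have aS : ∀ w ∈ (univ : Set ℝ) ×ˢ Wl.tube ×ˢ (univ : Set (ℕ → E)), a' w ∈ S.S :=
    fun w hw => k1.src w hw ▸ (k1.valid w hw 0 hM1p).1
  obtain ⟨h, hc, hh⟩ := hlift (Wl.tube ×ˢ univ) a' ac (fun u p hp => aS _ (mem u p hp.1))
    fun u u' p hp => k4 u u' p hp.1
  have k3' := fun p (hp : p.1 ∈ Wl.tube) => k3 p hp (by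
    linarith [hcard _ hp p.2 0 ⟨le_rfl, hτ.le⟩, hQ0 _ hp])
  obtain ⟨C, hC⟩ : ∃ C : ℝ × E × (ℕ → E) → Ch E, ∀ w, C w =
      cat M1 (c' w) (S.unit (fun _ => a' w) fun i => w.2.2 (M1 + i)) := ⟨_, fun _ => rfl⟩
  have hu := Sys.isFam_const (S := S) (M := j) (pr := fun w i => w.2.2 (M1 + i)) ac
    (fun _ _ => by fun_prop) aS
  have Cc : ∀ i < M1 + j, ContinuousOn (fun w => C w i) (univ ×ˢ Wl.tube ×ˢ univ) := by
    simp only [hC]
    exact continuousOn_cat k1.cont hu.cont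
  have Cv : ∀ w ∈ (univ : Set ℝ) ×ˢ Wl.tube ×ˢ (univ : Set (ℕ → E)), S.Valid (M1 + j) (C w) ∧
      (C w 0).1 = a' w ∧ (C w (M1 + j)).1 = a' w ∧ S.Val (M1 + j) (C w) =
        S.Val M1 (c' w) + S.Val j (S.unit (fun _ => a' w) fun i => w.2.2 (M1 + i)) := by
    intro w hw
    rw [hC]
    exact ⟨S.valid_cat (k1.tgt w hw) (k1.valid w hw) (hu.valid w hw),
      (cat_fst_le (Nat.zero_le _) (k1.tgt w hw)).trans (k1.src w hw), by rw [cat_add]; rfl,
      S.val_cat _ _ _ _ (k1.tgt w hw)⟩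
  have C0 : ∀ p : E × (ℕ → E), p.1 ∈ Wl.tube → ∀ i,
      C (0, p) i = S.unit (Wl.pol m1 (S.r p.1)) p.2 i := by
    intro p hp i
    rw [hC]
    by_cases hi : i < M1
    · rw [cat_lt hi, (k2 0 le_rfl p hp).2.2 i hi]
    · rw [cat_ge (not_lt.1 hi)]
      simp only [Sys.unit, (k2 0 le_rfl p hp).1, Nat.add_sub_cancel' (not_lt.1 hi),
        xslicea_ge Wl hm (hM1.trans (not_lt.1 hi)) (Wl.r_mem hp)]
  have tc : ContinuousOn (fun p : E × (ℕ → E) => Wl.tau p.1) (Wl.tube ×ˢ univ) :=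
    Wl.tau_cont.comp continuousOn_fst fun p hp => hp.1
  have tc' : ContinuousOn (fun p : E × (ℕ → E) => 4 * Wl.tau p.1 / Wl.d) (Wl.tube ×ˢ univ) :=
    (continuousOn_const.mul tc).div_const _
  have gc : ContinuousOn (fun p : E × (ℕ → E) => (clamp (4 * Wl.tau p.1 / Wl.d), p))
      (Wl.tube ×ˢ univ) := (clamp_cont.comp_continuousOn tc').prodMk continuousOn_id
  refine ⟨fun p => a' (clamp (4 * Wl.tau p.1 / Wl.d), p),
    fun p => n' (clamp (4 * Wl.tau p.1 / Wl.d), p),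
    fun p => Wl.tau p.1 + h (4 * Wl.tau p.1 / Wl.d, p),
    fun p => C (clamp (4 * Wl.tau p.1 / Wl.d), p),
    ⟨fun i hi => (Cc i hi).comp gc fun p hp => mem _ p hp.1,
      k1.nc.comp gc fun p hp => mem _ p hp.1, fun p hp => (Cv _ (mem _ p hp.1)).1,
      fun p hp => (Cv _ (mem _ p hp.1)).2.1, fun p hp => (Cv _ (mem _ p hp.1)).2.2.1,
      fun L => ?_, fun p hp htr => ?_⟩, fun y P P' hP => ?_,
    tc.add (hc.comp (tc'.prodMk continuousOn_id) fun p hp => ⟨trivial, hp⟩), fun p hp => ?_,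
    fun p hp => ?_, fun p hp => ?_, fun p hp hτ4 => ?_, fun p hp h0 => ?_, fun p hp hδ => ?_⟩
  · obtain ⟨R, hR⟩ := k1.proper L
    obtain ⟨R', hR'⟩ := hu.proper (L + m1 * (S.St.τ₀ / 4))
    refine ⟨max R R', fun p hp ⟨i, hi, hP⟩ => ?_⟩
    have hw := mem (clamp (4 * Wl.tau p.1 / Wl.d)) p hp.1
    rw [(Cv _ hw).2.2.2]
    by_cases him : i < M1
    · linarith [hR _ hw ⟨i, him, (le_max_left _ _).trans hP⟩, hu.le _ hw]
    · obtain ⟨i', rfl⟩ := Nat.exists_eq_add_of_le (not_lt.mp him)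
      linarith [hR' _ hw ⟨i', by omega, (le_max_right _ _).trans hP⟩,
        (k3' p hp.1 (clamp (4 * Wl.tau p.1 / Wl.d))).1]
  · have := S.tr_of_path (fun t (i : Fin (M1 + j)) => (C (t, p) i).1) _ (clamp_mem _).1
      (continuousOn_pi.2 fun i => ((Cc i i.2).comp (f := fun t : ℝ => (t, p)) (by fun_prop)
        fun t _ => mem t p hp.1).fst)
      (fun t _ => S.stepLe_of_mem (S.toCfg_mem (Cv _ (mem t p hp.1)).1
        ((Cv _ (mem t p hp.1)).2.2.1.trans (Cv _ (mem t p hp.1)).2.1.symm))) htr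
    simp only [C0 p hp.1, Sys.unit_fst] at this
    exact hnt (M1 + j) (by omega) _ (Wl.r_mem hp.1) this
  · obtain ⟨e1, e2, e3⟩ := k5 (clamp (4 * Wl.tau y / Wl.d)) y P P' fun i hi => hP i (by omega)
    refine ⟨e2, fun i hi => ?_⟩
    simp only [hC, e1, e3]
    by_cases him : i < M1
    · rw [cat_lt him, cat_lt him]
    · rw [cat_ge (not_lt.1 him), cat_ge (not_lt.1 him)]
      simp only [Sys.unit, Nat.add_sub_cancel' (not_lt.1 him), hP i hi]
  · rw [AddCircle.coe_add, Wl.tau_coe, (hh _ p ⟨hp, trivial⟩).1, (k2 0 le_rfl p hp).1,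
      add_sub_cancel]
  · have h1 := (hh (4 * Wl.tau p.1 / Wl.d) p ⟨hp, trivial⟩).2.1
    have h2 : |Wl.tau p.1| ≤ Wl.d := (Wl.abs_tau _).trans_le hp.2
    linarith [abs_add_le (Wl.tau p.1) (h (4 * Wl.tau p.1 / Wl.d, p))]
  · have hw := mem (clamp (4 * Wl.tau p.1 / Wl.d)) p hp
    rw [(Cv _ hw).2.2.2]
    linarith [hu.le _ hw, (k3' p hp (clamp (4 * Wl.tau p.1 / Wl.d))).1]
  · have hw := mem (clamp (4 * Wl.tau p.1 / Wl.d)) p hp
    have h1 : 1 ≤ clamp (4 * Wl.tau p.1 / Wl.d) :=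
      le_max_of_le_right (le_min le_rfl (by rw [le_div_iff₀ hd]; linarith))
    have h2 := xslicea_val S M1 j (aS _ hw) (k1.tgt _ hw) fun i => p.2 (M1 + i)
    rw [hC]
    linarith [(k3' p hp _).2 h1]
  · have h1 : 4 * Wl.tau p.1 / Wl.d ≤ 0 := div_nonpos_of_nonpos_of_nonneg (by linarith) hd.le
    have h2 : clamp (4 * Wl.tau p.1 / Wl.d) = 0 := max_eq_left (min_le_of_right_le h1)
    simp only [h2, (hh _ p ⟨hp, trivial⟩).2.2 h1, add_zero]
    exact ⟨(k2 0 le_rfl p hp).1, (k2 0 le_rfl p hp).2.1, trivial, fun i _ => C0 p hp i⟩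
  · have hw := mem (clamp (4 * Wl.tau p.1 / Wl.d)) p hp
    have h1 : (Λ * S.δ) ^ 2 ≤ ‖Λ • (p.1 - S.r p.1)‖ ^ 2 := by
      rw [norm_smul, Real.norm_of_nonneg hΛ.le]
      exact pow_le_pow_left₀ (mul_pos hΛ S.δpos).le (mul_le_mul_of_nonneg_left hδ hΛ.le) 2
    have h2 := hQ _ hp
    obtain ⟨e1, e2, e3⟩ := k6 p hp (by linarith [hcard _ hp p.2 0 ⟨le_rfl, hτ.le⟩])
      (clamp (4 * Wl.tau p.1 / Wl.d))
    have h3 := xslicea_val S M1 j (aS _ hw) (k1.tgt _ hw) fun i => p.2 (M1 + i)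
    have h4 : S.Val M1 (c' (clamp (4 * Wl.tau p.1 / Wl.d), p)) ≤ m1 * (S.St.τ₀ / 4) :=
      (S.valT_congr _ e3 ((k1.tgt _ hw).trans (e1.trans (hin.tgt p ⟨hp, trivial⟩).symm))).trans_le
        (hcard _ hp p.2 _ ⟨hτ.le, le_rfl⟩)
    rw [hC]
    have h5 : S.Q (a' (clamp (4 * Wl.tau p.1 / Wl.d), p)) (n' (clamp (4 * Wl.tau p.1 / Wl.d), p)) =
        S.Q (S.r p.1) (Λ • (p.1 - S.r p.1)) := by rw [e1, e2]
    linarith

end Pool.Agent.Wein
end

-- part Pool.Agent.P.MP_e3ee0c_gt.XSlotB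
section

/-! Slots are good families. -/

open Set Filter Topology
open scoped ContDiff InnerProductSpace

namespace Pool.Agent.Wein

variable {E : Type} [NormedAddCommGroup E] [InnerProductSpace ℝ E] [FiniteDimensional ℝ E]

omit [FiniteDimensional ℝ E] [InnerProductSpace ℝ E] in
lemma xslotb_pt {N : Set E} (Wl : Wall N) (ε : ℝ) : Continuous (Wl.pt ε) := by
  have := Wl.cu.continuous
  unfold Wall.pt rho
  fun_prop

omit [FiniteDimensional ℝ E] [InnerProductSpace ℝ E] in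
lemma xslotb_rho : Continuous (rho : Pm E → ℝ) := by
  unfold rho
  fun_prop

lemma xslotb_ff (ε : ℝ) : Continuous fun p : ℝ × ℝ => ff ε p.1 p.2 := by
  unfold ff
  fun_prop

namespace Slice

variable {S : Sys E} {Wl : Wall S.S} {m1 M : ℕ} {Λ L' t' L ε μ' Δ : ℝ}
  (Z : Slice S Wl m1 M Λ L' t' L)
  {W : Type} [TopologicalSpace W] {xb : W → E} {tg : W → ℝ → E} {hh : W → ℝ → ℝ}
  {vv : W → ℝ} {I I' : Set (ℝ × ℝ)}

/-- What the closed conditions and the equations give. -/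
lemma xslotb_facts (C : Consts S Wl m1 M Λ t' L ε μ' Δ)
    (D : SlotData S Wl ε μ' xb tg hh vv I I') (w : W) (v : Pm E)
    (h1 : (Wl.pt ε v).1 ∈ Wl.tube) (h2 : ‖Z.n (Wl.pt ε v)‖ ≤ Λ * μ')
    (h3 : |Z.H (Wl.pt ε v) - hh w (rho v)| ≤ 1 / 4) (h4 : (rho v, Wl.tau (Wl.pt ε v).1) ∈ I')
    (h5 : (Z.slot ε μ' (xb w) (tg w) (hh w) (vv w) I).q v 0 = 0) :
    ‖xb w - Z.β (Wl.pt ε v)‖ ≤ S.μ ∧
      7 / 8 * ‖Z.n (Wl.pt ε v)‖ ^ 2 ≤ S.Q (Z.β (Wl.pt ε v)) (Z.n (Wl.pt ε v)) ∧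
      |Z.H (Wl.pt ε v) - hh w (rho v)| < 1 / 4 ∧ (rho v, Wl.tau (Wl.pt ε v).1) ∈ I ∧
      -Wl.d < Wl.tau (Wl.pt ε v).1 ∧ |rho v| ≤ 2 := by
  have e1 : Z.β (Wl.pt ε v) + Λ⁻¹ • Z.n (Wl.pt ε v) - tg w (rho v) = 0 := congrArg Prod.fst h5
  have e2 : ff ε (rho v) (Wl.tau (Wl.pt ε v).1) - vv w = 0 := congrArg Prod.snd h5
  obtain ⟨a1, a2, a3, a4⟩ := Z.sol C h1 (D.tS w _) (D.tth w _) h2 h3 e1
  obtain ⟨b1, b2, b3, b4⟩ := D.key w _ _ h4 (sub_eq_zero.1 e2)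
    (by rw [Wl.abs_tau]; exact h1.2) fun h => (a4 h).1
  refine ⟨?_, a2, a3, b1, b2, b3⟩
  have := norm_sub_le_norm_sub_add_norm_sub (xb w) (tg w (rho v)) (Z.β (Wl.pt ε v))
  rw [norm_sub_rev] at a1 b4
  linarith [C.μ'le]

lemma xslotb_zs (C : Consts S Wl m1 M Λ t' L ε μ' Δ)
    (D : SlotData S Wl ε μ' xb tg hh vv I I') (w : W) (v : Pm E)
    (hv : v ∈ (Z.slot ε μ' (xb w) (tg w) (hh w) (vv w) I).Zs) :
    (Wl.pt ε v).1 ∈ Wl.tube ∧ ‖xb w - Z.β (Wl.pt ε v)‖ ≤ S.μ ∧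
      0 ≤ S.Q (Z.β (Wl.pt ε v)) (Z.n (Wl.pt ε v)) := by
  obtain ⟨⟨h1, h2, h3, h4, h5⟩, h6⟩ := hv
  have ht := Wl.open_tube.2 ⟨h1, h2⟩
  obtain ⟨a1, a2, -⟩ := Z.xslotb_facts C D w v ht h3.le h4.le (D.sub h5) (h6 0 Nat.one_pos)
  exact ⟨ht, a1, le_trans (by positivity) a2⟩

/-- The chains over the solutions. -/
lemma slot_fam (C : Consts S Wl m1 M Λ t' L ε μ' Δ) (D : SlotData S Wl ε μ' xb tg hh vv I I') :
    S.IsFam (zer fun w => Z.slot ε μ' (xb w) (tg w) (hh w) (vv w) I) (fun p => p.2.2)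
      (1 + (M + 1)) (m1 * (S.St.τ₀ / 4) + S.St.τ₀ / 2) (fun p => xb p.1) (fun p => xb p.1)
      (fun p => (Z.slot ε μ' (xb p.1) (tg p.1) (hh p.1) (vv p.1) I).c p.2) ∧
    ∀ w, ∀ v ∈ (Z.slot ε μ' (xb w) (tg w) (hh w) (vv w) I).Zs,
      S.Val (1 + (M + 1)) ((Z.slot ε μ' (xb w) (tg w) (hh w) (vv w) I).c v) ≤
        S.Val M (Z.ch (Wl.pt ε v)) + S.St.τ₀ / 2 := by
  set s := zer fun w => Z.slot ε μ' (xb w) (tg w) (hh w) (vv w) I with hs
  have hz := fun p (hp : p ∈ s) => Z.xslotb_zs C D p.1 p.2 hp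
  have hpt : ContinuousOn (fun p : W × Pm E => Wl.pt ε p.2) s :=
    ((xslotb_pt Wl ε).comp continuous_snd).continuousOn
  have hmp : MapsTo (fun p : W × Pm E => Wl.pt ε p.2) s (Wl.tube ×ˢ univ) :=
    fun p hp => ⟨(hz p hp).1, mem_univ _⟩
  have hxc : ContinuousOn (fun p : W × Pm E => xb p.1) s :=
    (D.xc.comp continuous_fst).continuousOn
  have F1 : S.IsFam s (fun p => p.2.2) 1 ((1 : ℕ) * (S.St.τ₀ / 4)) (fun p => xb p.1)
      (fun p => Z.β (Wl.pt ε p.2))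
      (fun p => S.unit (fun i => if i = 0 then xb p.1 else Z.β (Wl.pt ε p.2)) p.2.2) := by
    refine Sys.isFam_unit
      (v := fun (p : W × Pm E) i => if i = 0 then xb p.1 else Z.β (Wl.pt ε p.2))
      (fun i hi => ?_) (fun i _ => by fun_prop) (fun p hp i hi => ?_) (fun _ _ => rfl)
      (fun _ _ => rfl)
    · obtain rfl : i = 0 := by omega
      exact hxc
    · obtain rfl : i = 0 := by omega
      exact ⟨D.xS _, (hz p hp).2.1⟩
  have F2 : S.IsFam s (fun p i => p.2.2 (1 + i)) M (m1 * (S.St.τ₀ / 4))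
      (fun p => Z.β (Wl.pt ε p.2)) (fun p => Z.β (Wl.pt ε p.2))
      (fun p => Z.ch (Wl.pt ε p.2)) := by
    refine ⟨fun i hi => (Z.cont i hi).comp hpt hmp, fun p hp => Z.valid _ (hz p hp).1,
      fun p hp => Z.src _ (hz p hp).1, fun p hp => Z.tgt _ (hz p hp).1, fun p hp => ?_,
      fun B => ?_⟩
    · linarith [Z.le _ (hz p hp).1, (hz p hp).2.2]
    · obtain ⟨R, hR⟩ := Z.proper B
      exact ⟨R, fun p hp h => by linarith [hR _ (hz p hp).1 h, (hz p hp).2.2]⟩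
  have F3 : S.IsFam s (fun p i => p.2.2 (1 + (M + i))) 1 ((1 : ℕ) * (S.St.τ₀ / 4))
      (fun p => Z.β (Wl.pt ε p.2)) (fun p => xb p.1)
      (fun p => S.unit (fun i => if i = 0 then Z.β (Wl.pt ε p.2) else xb p.1)
        fun i => p.2.2 (1 + (M + i))) := by
    refine Sys.isFam_unit
      (v := fun (p : W × Pm E) i => if i = 0 then Z.β (Wl.pt ε p.2) else xb p.1)
      (fun i hi => ?_) (fun i _ => by fun_prop) (fun p hp i hi => ?_) (fun _ _ => rfl)
      (fun _ _ => rfl)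
    · obtain rfl : i = 0 := by omega
      exact Z.βc.comp hpt hmp
    · obtain rfl : i = 0 := by omega
      exact ⟨Z.βS _ (hz p hp).1, by rw [norm_sub_rev]; exact (hz p hp).2.1⟩
  have F23 := F2.cat F3
  refine ⟨(F1.cat F23).mono (by push_cast; linarith), fun w v hv => ?_⟩
  have e1 := F1.val_cat F23 (p := (w, v)) hv
  have e2 := F2.val_cat F3 (p := (w, v)) hv
  have e3 := F1.le (w, v) hv
  have e4 := F3.le (w, v) hv
  simp only [Nat.cast_one, one_mul] at e1 e2 e3 e4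
  simp only [slot]
  rw [e1, e2]
  linarith

theorem slot_good (C : Consts S Wl m1 M Λ t' L ε μ' Δ)
    (D : SlotData S Wl ε μ' xb tg hh vv I I') :
    S.Good (fun w => Z.slot ε μ' (xb w) (tg w) (hh w) (vv w) I) 1 (1 + (M + 1))
      (m1 * (S.St.τ₀ / 4) + S.St.τ₀ / 2) Δ xb xb := by
  have hτ := S.St.τpos
  set A : Set (W × Pm E) := {p | (Wl.pt ε p.2).1 ∈ Wl.tube} with hA
  have hptc : Continuous fun p : W × Pm E => Wl.pt ε p.2 := (xslotb_pt Wl ε).comp continuous_snd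
  have hAc : IsClosed A := Wl.tube_closed.preimage hptc.fst
  have hmp : MapsTo (fun p : W × Pm E => Wl.pt ε p.2) A (Wl.tube ×ˢ univ) :=
    fun p hp => ⟨hp, mem_univ _⟩
  have hρ : Continuous fun p : W × Pm E => rho p.2 := xslotb_rho.comp continuous_snd
  have cn := Z.nc.comp hptc.continuousOn hmp
  have cβ := Z.βc.comp hptc.continuousOn hmp
  have cH := Z.Hc.comp hptc.continuousOn hmp
  have cτ : ContinuousOn (fun p : W × Pm E => Wl.tau (Wl.pt ε p.2).1) A :=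
    Wl.tau_cont.comp hptc.fst.continuousOn fun p hp => hp
  have ch : Continuous fun p : W × Pm E => hh p.1 (rho p.2) :=
    D.hc.comp (continuous_fst.prodMk hρ)
  have ct : Continuous fun p : W × Pm E => tg p.1 (rho p.2) :=
    D.tc.comp (continuous_fst.prodMk hρ)
  have cV : ContinuousOn (fun p : W × Pm E => S.Val M (Z.ch (Wl.pt ε p.2))) A :=
    Sys.val_cont (fun i hi => (Z.cont i hi).comp hptc.continuousOn hmp)
      (cβ.congr fun p hp => Z.tgt _ hp) fun p hp => Z.valid _ hp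
  have cq : ContinuousOn (fun p : W × Pm E =>
      (Z.slot ε μ' (xb p.1) (tg p.1) (hh p.1) (vv p.1) I).q p.2 0) A :=
    ((cβ.add (cn.const_smul Λ⁻¹)).sub ct.continuousOn).prodMk
      (((xslotb_ff ε).comp_continuousOn (hρ.continuousOn.prodMk cτ)).sub
        (D.vc.comp continuous_fst).continuousOn)
  set Φ : W × Pm E → ℝ × ℝ × (ℝ × ℝ) × (E × ℝ) × ℝ := fun p =>
    (‖Z.n (Wl.pt ε p.2)‖, |Z.H (Wl.pt ε p.2) - hh p.1 (rho p.2)|,
      (rho p.2, Wl.tau (Wl.pt ε p.2).1),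
      (Z.slot ε μ' (xb p.1) (tg p.1) (hh p.1) (vv p.1) I).q p.2 0,
      S.Val M (Z.ch (Wl.pt ε p.2))) with hΦ
  have cΦ : ContinuousOn Φ A :=
    cn.norm.prodMk ((cH.sub ch.continuousOn).abs.prodMk ((hρ.continuousOn.prodMk cτ).prodMk
      (cq.prodMk cV)))
  have hcl := cΦ.preimage_isClosed_of_isClosed hAc
    (t := Iic (Λ * μ') ×ˢ Iic (1 / 4) ×ˢ I' ×ˢ {0} ×ˢ Ici (m1 * (S.St.τ₀ / 4) - Δ))
    (isClosed_Iic.prod (isClosed_Iic.prod (D.Ic.prod (isClosed_singleton.prod isClosed_Ici))))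
  obtain ⟨B1, hB1⟩ := Wl.tube_compact.isBounded.exists_norm_le
  obtain ⟨B2, hB2⟩ := S.compact.isBounded.exists_norm_le
  obtain ⟨hfam, hval⟩ := Z.slot_fam C D
  have hT0 : 0 ≤ (m1 : ℝ) * (S.St.τ₀ / 4) := by positivity
  refine Sys.Good.of_cl (fun _ => rfl) (fun _ => rfl) (Z.slot_open D) (fun i _ => Z.slot_qc D i)
    (Z.slot_cc D) hfam D.xc _ hcl ?_ ?_ (max (B1 + B2) 3) ?_
  · rintro ⟨w, v⟩ ⟨h1, h2, h3, h4, h5, h6⟩
    have h6' : m1 * (S.St.τ₀ / 4) - Δ ≤ S.Val M (Z.ch (Wl.pt ε v)) := h6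
    obtain ⟨-, a2, a3, a4, a5, -⟩ := Z.xslotb_facts C D w v h1 h2 h3 h4 h5
    have hQ : 0 ≤ S.Q (Z.β (Wl.pt ε v)) (Z.n (Wl.pt ε v)) := le_trans (by positivity) a2
    have hedge : ¬ (Wl.d / 2 ≤ Wl.tau (Wl.pt ε v).1 ∨
        S.δ ≤ ‖(Wl.pt ε v).1 - S.r (Wl.pt ε v).1‖) := fun h => by
      linarith [Z.edge _ h1 h, C.hL]
    rw [not_or, not_le, not_le] at hedge
    refine ⟨⟨?_, ?_, ?_, a3, a4⟩, fun i _ => h5⟩
    · exact Metric.mem_thickening_iff.2 ⟨_, (Wl.r_mem h1).1, by rw [dist_eq_norm]; exact hedge.2⟩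
    · rw [← Wl.abs_tau, abs_lt]
      exact ⟨a5, by linarith [hedge.1, Wl.dpos]⟩
    · by_contra hge
      have hge' : Λ * μ' ≤ ‖Z.n (Wl.pt ε v)‖ := not_lt.1 hge
      have h7 : (Λ * μ') ^ 2 ≤ ‖Z.n (Wl.pt ε v)‖ ^ 2 :=
        pow_le_pow_left₀ (mul_pos C.Λpos C.μ'pos).le hge' 2
      linarith [Z.le _ h1, C.hΛ]
  · rintro ⟨w, v⟩ ⟨hz, hv⟩
    have h0 := hval w v hz
    obtain ⟨⟨h1, h2, h3, h4, h5⟩, h6⟩ := hz
    refine ⟨Wl.open_tube.2 ⟨h1, h2⟩, h3.le, h4.le, D.sub h5, h6 0 Nat.one_pos, ?_⟩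
    show m1 * (S.St.τ₀ / 4) - Δ ≤ S.Val M (Z.ch (Wl.pt ε v))
    linarith
  · rintro ⟨w, v⟩ ⟨h1, h2, h3, h4, h5, -⟩ i hi
    obtain rfl : i = 0 := by omega
    obtain ⟨-, -, -, -, -, a6⟩ := Z.xslotb_facts C D w v h1 h2 h3 h4 h5
    rw [Prod.norm_def]
    refine max_le_max ?_ ?_
    · have e : (v.1 0).1 = (Wl.pt ε v).1 - Wl.c (ε * rho v) := by simp [Wall.pt]
      rw [e]
      exact (norm_sub_le _ _).trans (add_le_add (hB1 _ h1) (hB2 _ (Wl.cm _)))
    · have e : (v.1 0).2 = rho v + 1 := by simp [rho]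
      rw [e, Real.norm_eq_abs, abs_le]
      constructor <;> linarith [(abs_le.1 a6).1, (abs_le.1 a6).2]

theorem slot_low (C : Consts S Wl m1 M Λ t' L ε μ' Δ)
    (D : SlotData S Wl ε μ' xb tg hh vv I I') (w : W)
    (h : ∀ ρ τ, (ρ, τ) ∈ I → t' ≤ |hh w ρ|) :
    S.Low (Z.slot ε μ' (xb w) (tg w) (hh w) (vv w) I) (S.St.τ₀ / 2 - L') := by
  intro v hv
  have h0 := (Z.slot_fam C D).2 w v hv
  obtain ⟨h1, -, h2⟩ := Z.xslotb_zs C D w v hv
  have h3 := h _ _ hv.1.2.2.2.2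
  have h4 : |Z.H (Wl.pt ε v) - hh w (rho v)| < 1 / 4 := hv.1.2.2.2.1
  have h5 := abs_sub_abs_le_abs_sub (hh w (rho v)) (Z.H (Wl.pt ε v))
  rw [abs_sub_comm] at h5
  rcases Z.far _ h1 with h6 | h6
  · linarith
  · show S.Val (1 + (M + 1)) _ ≤ _
    linarith

end Slice

end Pool.Agent.Wein
end

-- part Pool.Agent.P.MP_e3ee0c_gt.XSlotC
section

/-! The three families of slots. -/

open Set Filter Topology
open scoped ContDiff InnerProductSpace

namespace Pool.Agent.Wein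

open TopAux

variable {E : Type} [NormedAddCommGroup E] [InnerProductSpace ℝ E] [FiniteDimensional ℝ E]

lemma xslotc_clamp_low {u : ℝ} (hu : u ≤ 0) : clamp u = 0 :=
  max_eq_left ((min_le_right _ _).trans hu)

lemma xslotc_coe_one : (((1 : ℝ) : ℝ) : UnitAddCircle) = ((0 : ℝ) : UnitAddCircle) := by
  rw [AddCircle.coe_period, AddCircle.coe_zero]

lemma xslotc_trc_cont : Continuous trc := by
  unfold trc
  fun_prop

lemma xslotc_trc_mem (ρ : ℝ) : -2 ≤ trc ρ ∧ trc ρ ≤ -(1 / 2) :=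
  ⟨le_max_left _ _, max_le (by norm_num) (min_le_right _ _)⟩

lemma xslotc_trc_eq {ρ : ℝ} (h1 : -2 ≤ ρ) (h2 : ρ ≤ -(1 / 2)) : trc ρ = ρ := by
  unfold trc
  rw [min_eq_left h2, max_eq_right h1]

lemma xslotc_ff_pos (ε ρ : ℝ) {τ : ℝ} (h : 0 ≤ τ) : ff ε ρ τ = |ρ| := by
  unfold ff
  rw [min_eq_left h, mul_zero, zero_div, add_zero]
  rcases le_total 0 ρ with h1 | h1
  · rw [max_eq_left (by linarith), abs_of_nonneg h1]
    ring
  · rw [max_eq_right (by linarith), abs_of_nonpos h1]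
    ring

lemma xslotc_ff_line {ε ρ : ℝ} (hε : 0 < ε) (h : ρ ≤ 0) : ff ε ρ (ε * ρ) = ρ := by
  unfold ff
  have h1 : 2 * (ε * ρ) / ε = 2 * ρ := by field_simp
  rw [min_eq_right (mul_nonpos_of_nonneg_of_nonpos hε.le h), h1, max_eq_left (by linarith)]
  ring

lemma xslotc_ff_nonneg {ε ρ : ℝ} (hε : 0 < ε) (h : 0 ≤ ρ) (τ : ℝ) : ff ε ρ τ = ρ := by
  unfold ff
  have h1 : 2 * min 0 τ / ε ≤ 0 :=
    div_nonpos_of_nonpos_of_nonneg (by linarith [min_le_left 0 τ]) hε.le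
  rw [max_eq_left (by linarith)]
  ring

namespace Consts

variable {S : Sys E} {Wl : Wall S.S} {m1 M : ℕ} {Λ t' L ε μ' Δ : ℝ}
  (C : Consts S Wl m1 M Λ t' L ε μ' Δ)
include C

omit [FiniteDimensional ℝ E] in
lemma xslotc_mem (ρ : ℝ) : Wl.c (ε * trc ρ) ∈ Wl.K := by
  refine Wl.c_mem_K ?_
  have h1 := xslotc_trc_mem ρ
  have h2 := C.εpos
  have h3 := C.εle
  rw [abs_le]
  constructor <;> nlinarith [h1.1, h1.2]

omit [FiniteDimensional ℝ E] in
lemma xslotc_tg (u ρ : ℝ) :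
    Wl.σ (Wl.c (ε * trc ρ), ((clamp u : ℝ) : UnitAddCircle)) +
      Wl.c (ε * trc ρ + t' * min u 0) - Wl.c (ε * trc ρ) ∈ S.S ∧
    Wl.th (Wl.σ (Wl.c (ε * trc ρ), ((clamp u : ℝ) : UnitAddCircle)) +
      Wl.c (ε * trc ρ + t' * min u 0) - Wl.c (ε * trc ρ)) =
      ((ε * trc ρ + t' * min u 0 : ℝ) : UnitAddCircle) := by
  have hK := C.xslotc_mem ρ
  rcases le_total 0 u with hu | hu
  · rw [min_eq_right hu, mul_zero, add_zero, add_sub_cancel_right]
    obtain ⟨h1, h2⟩ := Wl.σm _ hK.1 hK.2 ((clamp u : ℝ) : UnitAddCircle)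
    exact ⟨h1, h2.trans (Wl.cth _)⟩
  · rw [xslotc_clamp_low hu, AddCircle.coe_zero, Wl.σ0 _ hK.1 hK.2, add_sub_cancel_left]
    exact ⟨Wl.cm _, Wl.cth _⟩

omit [FiniteDimensional ℝ E] in
lemma xslotc_tc : Continuous fun p : ℝ × ℝ =>
    Wl.σ (Wl.c (ε * trc p.2), ((clamp p.1 : ℝ) : UnitAddCircle)) +
      Wl.c (ε * trc p.2 + t' * min p.1 0) - Wl.c (ε * trc p.2) := by
  have hc := Wl.cu.continuous
  have ht := xslotc_trc_cont
  have h1 : Continuous fun p : ℝ × ℝ => ((clamp p.1 : ℝ) : UnitAddCircle) :=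
    (AddCircle.continuous_mk' (1 : ℝ)).comp (clamp_cont.comp continuous_fst)
  have h2 : Continuous fun p : ℝ × ℝ => Wl.c (ε * trc p.2) := by fun_prop
  have h3 : Continuous fun p : ℝ × ℝ =>
      Wl.σ (Wl.c (ε * trc p.2), ((clamp p.1 : ℝ) : UnitAddCircle)) :=
    Wl.σc.comp_continuous (h2.prodMk h1) fun p => ⟨C.xslotc_mem p.2, mem_univ _⟩
  exact (h3.add (by fun_prop)).sub h2

omit [FiniteDimensional ℝ E] C in
lemma xslotc_bY (u : ℝ) : Wl.bY ε t' u =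
    Wl.σ (Wl.c (ε * trc (-1)), ((clamp u : ℝ) : UnitAddCircle)) +
      Wl.c (ε * trc (-1) + t' * min u 0) - Wl.c (ε * trc (-1)) := by
  rw [xslotc_trc_eq (by norm_num) (by norm_num), mul_neg_one]
  rfl

omit [FiniteDimensional ℝ E] in
lemma xslotc_K : Wl.c (-ε) ∈ Wl.K := by
  have h := C.xslotc_mem (-1)
  rwa [xslotc_trc_eq (by norm_num) (by norm_num), mul_neg_one] at h

lemma cob_data : SlotData S Wl ε μ' (fun _ : ℝ => Wl.c (-ε)) (fun _ ρ => Wl.c (ε * ρ))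
    (fun _ ρ => ε * ρ) (fun u => 2 * clamp u - 1) univ univ := by
  have hc := Wl.cu.continuous
  have hcl := clamp_cont
  have hε := C.εpos
  have hd := C.εle
  refine ⟨continuous_const, by fun_prop, by fun_prop, by fun_prop, fun _ => Wl.cm _,
    fun _ _ => Wl.cm _, fun _ _ => Wl.cth _, isOpen_univ, isClosed_univ, subset_rfl, ?_⟩
  intro u ρ τ _ hf _ hτ
  have hu := clamp_mem u
  have key : |ρ| ≤ 1 ∧ -Wl.d < τ := by
    rcases le_or_gt τ 0 with h | h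
    · have h1 := hτ h
      have h2 : ρ ≤ 0 := by
        by_contra h3
        nlinarith [mul_pos hε (not_le.1 h3)]
      rw [h1, xslotc_ff_line hε h2] at hf
      refine ⟨abs_le.2 ⟨by linarith [hu.1], by linarith⟩, ?_⟩
      nlinarith [hu.1]
    · rw [xslotc_ff_pos ε ρ h.le] at hf
      exact ⟨by linarith [hu.2], by linarith⟩
  refine ⟨mem_univ _, key.2, by linarith [key.1], C.εc _ _ ?_⟩
  obtain ⟨h1, h2⟩ := abs_le.1 key.1
  rw [abs_le]
  constructor <;> nlinarith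

lemma plus_data : SlotData S Wl ε μ' (Wl.bX ε t') (fun u ρ => Wl.c (t' * clamp u + ε * ρ))
    (fun u ρ => t' * clamp u + ε * ρ) (fun _ => 1) {p | 0 < p.1} {p | 0 ≤ p.1} := by
  have hc := Wl.cu.continuous
  have hcl := clamp_cont
  have hε := C.εpos
  have hd := Wl.dpos
  refine ⟨by unfold Wall.bX; fun_prop, by fun_prop, by fun_prop, continuous_const,
    fun _ => Wl.cm _, fun _ _ => Wl.cm _, fun _ _ => Wl.cth _,
    isOpen_lt continuous_const continuous_fst, isClosed_le continuous_const continuous_fst,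
    fun p (hp : 0 < p.1) => (hp.le : 0 ≤ p.1), ?_⟩
  intro u ρ τ hρ hf _ hτ
  rw [xslotc_ff_nonneg hε hρ] at hf
  subst hf
  have h0 : 0 < τ := by
    by_contra h
    have h1 := hτ (not_lt.1 h)
    have h2 := mul_nonneg C.t'nn (clamp_mem u).1
    linarith
  refine ⟨(zero_lt_one : (0 : ℝ) < 1), by linarith, by norm_num, C.εc _ _ ?_⟩
  rw [abs_le]
  constructor <;> linarith

lemma minus_data : SlotData S Wl ε μ' (Wl.bY ε t')
    (fun u ρ => Wl.σ (Wl.c (ε * trc ρ), ((clamp u : ℝ) : UnitAddCircle)) +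
      Wl.c (ε * trc ρ + t' * min u 0) - Wl.c (ε * trc ρ))
    (fun u ρ => ε * trc ρ + t' * min u 0) (fun _ => 1)
    {p | -2 < p.1 ∧ p.1 < -(1 / 2) ∧ -(ε / 2) < p.2}
    {p | -2 ≤ p.1 ∧ p.1 ≤ -(1 / 2) ∧ -(ε / 2) ≤ p.2} := by
  have ht := xslotc_trc_cont
  have hε := C.εpos
  have hd := Wl.dpos
  refine ⟨?_, C.xslotc_tc, by fun_prop, continuous_const, fun u => ?_,
    fun u ρ => (C.xslotc_tg u ρ).1, fun u ρ => (C.xslotc_tg u ρ).2,
    (isOpen_lt continuous_const continuous_fst).inter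
      ((isOpen_lt continuous_fst continuous_const).inter
        (isOpen_lt continuous_const continuous_snd)),
    (isClosed_le continuous_const continuous_fst).inter
      ((isClosed_le continuous_fst continuous_const).inter
        (isClosed_le continuous_const continuous_snd)),
    fun p hp => ⟨hp.1.le, hp.2.1.le, hp.2.2.le⟩, ?_⟩
  · have h1 : Continuous fun u : ℝ => (u, (-1 : ℝ)) := by fun_prop
    exact (C.xslotc_tc.comp h1).congr fun u => (xslotc_bY u).symm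
  · rw [xslotc_bY]
    exact (C.xslotc_tg u (-1)).1
  · rintro u ρ τ ⟨h1, h2, h3⟩ hf - hτ
    simp only at h1 h2 h3
    have h0 : 0 < τ := by
      by_contra h
      have h4 := hτ (not_lt.1 h)
      rw [xslotc_trc_eq h1 h2] at h4
      have h5 := mul_nonpos_of_nonneg_of_nonpos C.t'nn (min_le_right u 0)
      have h6 : ε * ρ ≤ ε * -(1 / 2) := mul_le_mul_of_nonneg_left h2 hε.le
      have h7 : τ = ε * ρ := by linarith
      rw [h7, xslotc_ff_line hε (by linarith)] at hf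
      linarith
    rw [xslotc_ff_pos ε ρ h0.le, abs_of_nonpos (by linarith)] at hf
    obtain rfl : ρ = -1 := by linarith
    refine ⟨⟨by norm_num, by norm_num, by simp only; linarith⟩, by linarith, by norm_num, ?_⟩
    rw [xslotc_bY, sub_self, norm_zero]
    exact C.μ'pos.le

lemma bX_zero : Wl.bX ε t' 0 = Wl.c (-ε) := by
  rw [Wall.bX, clamp_zero, mul_zero, zero_sub]

lemma bY_nonneg {u : ℝ} (hu : 0 ≤ u) :
    Wl.bY ε t' u = Wl.σ (Wl.c (-ε), ((clamp u : ℝ) : UnitAddCircle)) := by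
  rw [Wall.bY, min_eq_right hu, mul_zero, add_zero, add_sub_cancel_right]

lemma bY_nonpos {u : ℝ} (hu : u ≤ 0) : Wl.bY ε t' u = Wl.c (-ε + t' * u) := by
  rw [Wall.bY, min_eq_left hu, xslotc_clamp_low hu, AddCircle.coe_zero,
    Wl.σ0 _ C.xslotc_K.1 C.xslotc_K.2, add_sub_cancel_left]

lemma bY_zero : Wl.bY ε t' 0 = Wl.c (-ε) := by
  rw [C.bY_nonpos le_rfl, mul_zero, add_zero]

lemma bY_one : Wl.bY ε t' 1 = Wl.c (-ε) := by
  rw [C.bY_nonneg zero_le_one, clamp_one, xslotc_coe_one, AddCircle.coe_zero,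
    Wl.σ0 _ C.xslotc_K.1 C.xslotc_K.2]

end Consts

lemma Slice.minus_one {S : Sys E} {Wl : Wall S.S} {m1 M : ℕ} {Λ L' t' L : ℝ}
    (Z : Slice S Wl m1 M Λ L' t' L) (ε μ' : ℝ) : Z.minus ε μ' 1 = Z.minus ε μ' 0 := by
  have h1 : min (1 : ℝ) 0 = min 0 0 := by simp
  simp only [Slice.minus, Wall.bY, clamp_one, clamp_zero, xslotc_coe_one, h1]

end Pool.Agent.Wein
end

-- part Pool.Agent.P.MP_e3ee0c_gt.XEquiv
section

/-! The unit over the loop splits into a part that moves up and a part that moves down. -/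

open Set Filter Topology
open scoped ContDiff InnerProductSpace

namespace Pool.Agent.Wein

open TopAux

lemma xequiv_ff_low {ε ρ : ℝ} (hε : 0 < ε) (h : ε * ρ ≤ 0) : ff ε ρ (ε * ρ) = ρ := by
  have h1 : ρ ≤ 0 := by
    by_contra h2
    exact absurd h (not_le.2 (mul_pos hε (not_le.1 h2)))
  have h2 : 2 * (ε * ρ) / ε = 2 * ρ := by field_simp
  unfold ff
  rw [min_eq_right h, h2, max_eq_left (by linarith)]
  ring

lemma xequiv_ff_high {ε ρ τ : ℝ} (h : 0 ≤ τ) : ff ε ρ τ = |ρ| := by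
  unfold ff
  rw [min_eq_left h, mul_zero, zero_div, add_zero]
  rcases le_total 0 ρ with h1 | h1
  · rw [max_eq_left (by linarith), abs_of_nonneg h1]
    ring
  · rw [max_eq_right (by linarith), abs_of_nonpos h1]
    ring

variable {E : Type} [NormedAddCommGroup E] [InnerProductSpace ℝ E] [FiniteDimensional ℝ E]

namespace Slice

variable {S : Sys E} {Wl : Wall S.S} {m1 M : ℕ} {Λ L' t' L ε μ' Δ : ℝ}
  (Z : Slice S Wl m1 M Λ L' t' L)

/-- The height of a solution of the folded family. -/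
lemma xequiv_sol (C : Consts S Wl m1 M Λ t' L ε μ' Δ) {u : ℝ} {v : Pm E}
    (hv : v ∈ (Z.cob ε μ' u).Zs) :
    ff ε (rho v) (Wl.tau (Wl.pt ε v).1) = 2 * clamp u - 1 ∧
      (Wl.tau (Wl.pt ε v).1 ≤ 0 → Wl.tau (Wl.pt ε v).1 = ε * rho v) := by
  obtain ⟨⟨h1, h2, h3, h4, -⟩, h6⟩ := hv
  have h5 := h6 0 Nat.one_pos
  have e1 : Z.β (Wl.pt ε v) + Λ⁻¹ • Z.n (Wl.pt ε v) - Wl.c (ε * rho v) = 0 :=
    congrArg Prod.fst h5
  have e2 : ff ε (rho v) (Wl.tau (Wl.pt ε v).1) - (2 * clamp u - 1) = 0 := congrArg Prod.snd h5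
  exact ⟨sub_eq_zero.1 e2, fun h => ((Z.sol C (Wl.open_tube.2 ⟨h1, h2⟩) (Wl.cm _) (Wl.cth _)
    h3.le h4.le e1).2.2.2 h).1⟩

theorem equiv_one (C : Consts S Wl m1 M Λ t' L ε μ' Δ)
    (hN : S.Good (fun _ : Unit => S.nrm 1 (1 + (M + 1)) fun i => Wl.pol m1 (Wl.c (-ε)) (i - 1))
      1 (1 + (M + 1)) (m1 * (S.St.τ₀ / 4) + S.St.τ₀ / 2) Δ (fun _ => Wl.c (-ε))
      (fun _ => Wl.c (-ε))) :
    S.Htp (m1 * (S.St.τ₀ / 4) + S.St.τ₀ / 2) Δ (Wl.c (-ε)) univ
      (S.nrm 1 (1 + (M + 1)) fun i => Wl.pol m1 (Wl.c (-ε)) (i - 1)) (Z.cob ε μ' 0) := by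
  have hε := C.εpos
  have hd := C.εle
  have hd' := Wl.dle
  have hβ := (Z.slot_good C C.cob_data).comp (f := fun _ : Unit => (0 : ℝ)) continuous_const
  have hΩ : IsOpen (Z.cob ε μ' 0).Ω :=
    hβ.opn.preimage (f := fun v : Pm E => ((), v)) (by fun_prop)
  have hin : ∀ v ∈ (Z.cob ε μ' 0).Ω, (Wl.pt ε v).1 ∈ Wl.tube :=
    fun v hv => Wl.open_tube.2 ⟨hv.1, hv.2.1⟩
  have cτ : ContinuousOn (fun v : Pm E => Wl.tau (Wl.pt ε v).1) (Z.cob ε μ' 0).Ω :=
    Wl.tau_cont.comp (xslotb_pt Wl ε).fst.continuousOn hin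
  have hU := (xslotb_rho.continuousOn.prodMk cτ).isOpen_inter_preimage hΩ
    (t := {p : ℝ × ℝ | p.2 < 0 ∧ -p.1 + 2 * p.2 / ε < 0})
    ((isOpen_lt continuous_snd continuous_const).inter
      (isOpen_lt (f := fun p : ℝ × ℝ => -p.1 + 2 * p.2 / ε) (by fun_prop) continuous_const))
  have hxK : Wl.c (-ε) ∈ Wl.K := Wl.c_mem_K (by rw [abs_neg, abs_of_pos hε]; linarith)
  have hfix : S.r (Wl.c (-ε)) = Wl.c (-ε) := S.fix _ (Wl.cm _)
  have hz : ∀ v : Pm E, v.1 0 = 0 → rho v = -1 ∧ (Wl.pt ε v).1 = Wl.c (-ε) := fun v h => by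
    have e : rho v = -1 := by simp [rho, h]
    exact ⟨e, by simp [Wall.pt, e, h]⟩
  have hτx : Wl.tau (Wl.c (-ε)) = -ε := by
    rw [Wall.tau, hfix, Wl.cth, lf_of (by rw [abs_neg, abs_of_pos hε]; linarith)]
  have hm : (0 : ℝ) < m1 := Nat.cast_pos.2 C.m1pos
  refine Sys.Htp.of_equiv hN hβ _ hU (subset_univ _) inter_subset_left ?_ ?_ ?_ ?_
  · rintro v ⟨h1, h2, h3⟩ i hi
    obtain rfl : i = 0 := by omega
    obtain ⟨a1, a2, -⟩ := Z.start _ (hin v h1) (le_of_lt h2)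
    have h2' : Wl.tau (Wl.pt ε v).1 < 0 := h2
    have h3' : -rho v + 2 * Wl.tau (Wl.pt ε v).1 / ε < 0 := h3
    refine Prod.ext ?_ ?_
    · show (v.1 0).1 = Z.β (Wl.pt ε v) + Λ⁻¹ • Z.n (Wl.pt ε v) - Wl.c (ε * rho v)
      rw [a1, a2, smul_smul, inv_mul_cancel₀ C.Λpos.ne', one_smul]
      simp [Wall.pt]
    · show (v.1 0).2 = ff ε (rho v) (Wl.tau (Wl.pt ε v).1) - (2 * clamp 0 - 1)
      rw [ff, min_eq_right h2'.le, max_eq_left h3'.le, clamp_zero, rho]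
      ring
  · rintro v ⟨h1, h2, -⟩ hv i hi
    obtain ⟨e1, e2⟩ := hz v (hv.2 0 Nat.one_pos)
    obtain ⟨a1, -, -, a4⟩ := Z.start _ (hin v h1) (le_of_lt h2)
    rw [e2, hfix] at a1 a4
    show S.un (Wl.pol m1 (Wl.c (-ε)) (i - 1)) (v.2 i) = cat 1 _ (cat M _ _) i
    rcases Nat.eq_zero_or_pos i with rfl | hi0
    · rw [cat_lt Nat.one_pos]
      simp [Sys.unit, Wall.pol, Wl.σ0 _ hxK.1 hxK.2]
    · obtain ⟨j, rfl⟩ : ∃ j, i = 1 + j := ⟨i - 1, by omega⟩
      rw [cat_add, Nat.add_sub_cancel_left]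
      by_cases hj : j < M
      · rw [cat_lt hj, a4 j hj]
        rfl
      · obtain rfl : j = M := by omega
        rw [cat_ge le_rfl, Nat.sub_self]
        simp [Sys.unit, Wall.pol, a1, min_eq_right C.m1le, hm.ne', AddCircle.coe_period,
          Wl.σ0 _ hxK.1 hxK.2]
  · intro v hv _
    obtain ⟨e1, e2⟩ := hz v (hv.2 0 Nat.one_pos)
    have ht : (Wl.pt ε v).1 ∈ Wl.tube := by
      rw [e2]
      exact ⟨⟨_, Wl.cm (-ε), by simpa using S.δpos.le⟩, by rw [hfix]; exact hxK.2⟩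
    obtain ⟨-, a2, a3, -⟩ := Z.start _ ht (by rw [e2, hτx]; linarith)
    rw [e2, hfix] at a2
    rw [e2, hτx] at a3
    refine ⟨⟨?_, ?_, ?_, ?_, mem_univ _⟩, ?_, ?_⟩
    · rw [e2]
      exact Metric.self_subset_thickening S.δpos _ (Wl.cm _)
    · rw [← Wl.abs_tau, e2, hτx, abs_neg, abs_of_pos hε]
      linarith
    · rw [a2]
      simpa using mul_pos C.Λpos C.μ'pos
    · rw [a3, e1]
      norm_num
    · show Wl.tau (Wl.pt ε v).1 < 0
      rw [e2, hτx]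
      linarith
    · show -rho v + 2 * Wl.tau (Wl.pt ε v).1 / ε < 0
      rw [e2, hτx, e1, mul_neg, neg_div, mul_div_assoc, div_self hε.ne']
      norm_num
  · intro v hv _
    obtain ⟨a1, a2⟩ := Z.xequiv_sol C hv
    rw [clamp_zero] at a1
    have h1 : Wl.tau (Wl.pt ε v).1 ≤ 0 := by
      by_contra h
      rw [xequiv_ff_high (not_le.1 h).le] at a1
      linarith [abs_nonneg (rho v)]
    have h2 := a2 h1
    rw [h2] at h1
    rw [h2, xequiv_ff_low hε h1] at a1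
    refine ⟨hv.1, ?_, ?_⟩
    · show Wl.tau (Wl.pt ε v).1 < 0
      rw [h2, a1]
      linarith
    · show -rho v + 2 * Wl.tau (Wl.pt ε v).1 / ε < 0
      have h3 : 2 * (ε * rho v) / ε = 2 * rho v := by field_simp
      rw [h2, h3, a1]
      norm_num

theorem equiv_two (C : Consts S Wl m1 M Λ t' L ε μ' Δ) :
    S.Htp (m1 * (S.St.τ₀ / 4) + S.St.τ₀ / 2) Δ (Wl.c (-ε)) univ (Z.cob ε μ' 1)
      (Vc.uni {v | 0 < rho v} (Z.plus ε μ' 0) (Z.minus ε μ' 0)) := by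
  have hε := C.εpos
  have hd := C.εle
  have hα := (Z.slot_good C C.cob_data).comp (f := fun _ : Unit => (1 : ℝ)) continuous_const
  have hp := (Z.slot_good C C.plus_data).comp (f := fun _ : Unit => (0 : ℝ)) continuous_const
  have hm := (Z.slot_good C C.minus_data).comp (f := fun _ : Unit => (0 : ℝ)) continuous_const
  simp only [C.bX_zero, C.bY_zero] at hp hm
  have hβ := hp.uni hm {v | 0 < rho v} (fun _ v hv => hv.2.2.2.2)
    (fun _ v hv h => by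
      have h1 : rho v < -(1 / 2) := hv.2.2.2.2.2.1
      have h2 : 0 < rho v := h
      linarith)
  have htr : ∀ ρ : ℝ, -2 < ρ → ρ < -(1 / 2) → trc ρ = ρ := fun ρ h1 h2 => by
    rw [trc, min_eq_left h2.le, max_eq_right h1.le]
  have htg : ∀ ρ : ℝ, -2 < ρ → ρ < -(1 / 2) →
      Wl.σ (Wl.c (ε * trc ρ), ((clamp 0 : ℝ) : UnitAddCircle)) +
        Wl.c (ε * trc ρ + t' * min 0 0) - Wl.c (ε * trc ρ) = Wl.c (ε * ρ) := fun ρ h1 h2 => by
    have hK : Wl.c (ε * ρ) ∈ Wl.K := Wl.c_mem_K (by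
      rw [abs_le]
      constructor <;> nlinarith)
    simp [htr ρ h1 h2, clamp_zero, Wl.σ0 _ hK.1 hK.2]
  have e1 : (2 * clamp 1 - 1 : ℝ) = 1 := by rw [clamp_one]; norm_num
  have hO : IsOpen (Vc.uni {v | 0 < rho v} (Z.plus ε μ' 0) (Z.minus ε μ' 0)).Ω := by
    simp only [plus, minus, C.bX_zero, C.bY_zero]
    exact hβ.opn.preimage (f := fun v : Pm E => ((), v)) (by fun_prop)
  refine Sys.Htp.of_equiv hα (by simpa only [plus, minus, C.bX_zero, C.bY_zero] using hβ) _ hO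
    ?_ subset_rfl ?_ ?_ ?_ fun v hv _ => hv.1
  · rintro v (⟨-, h1, h2, h3, h4, -⟩ | ⟨-, h1, h2, h3, h4, h5, h6, -⟩)
    · exact ⟨h1, h2, h3, by simpa [clamp_zero] using h4, mem_univ _⟩
    · exact ⟨h1, h2, h3, by simpa [htr _ h5 h6] using h4, mem_univ _⟩
  · rintro v (⟨h0, -⟩ | ⟨h0, -, -, -, -, h5, h6, -⟩) i _
    · simp only [Vc.uni, if_pos h0, plus, cob, slot, e1, clamp_zero, mul_zero, zero_add]
    · simp only [Vc.uni, if_neg h0, minus, cob, slot, e1, htg _ h5 h6]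
  · rintro v (⟨h0, -⟩ | ⟨h0, -⟩) _ i _
    · simp only [Vc.uni, if_pos h0, plus, cob, slot, C.bX_zero]
    · simp only [Vc.uni, if_neg h0, minus, cob, slot, C.bY_zero]
  · intro v hv _
    obtain ⟨a1, a2⟩ := Z.xequiv_sol C hv
    rw [e1] at a1
    obtain ⟨h1, h2, h3, h4, -⟩ := hv.1
    by_cases h0 : 0 < rho v
    · exact Or.inl ⟨h0, h1, h2, h3, by simpa [clamp_zero] using h4, h0⟩
    · have h5 : 0 < Wl.tau (Wl.pt ε v).1 := by
        by_contra h
        have h6 := a2 (not_lt.1 h)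
        rw [h6] at h
        rw [h6, xequiv_ff_low hε (not_lt.1 h)] at a1
        linarith
      rw [xequiv_ff_high h5.le, abs_of_nonpos (not_lt.1 h0)] at a1
      have h6 : -2 < rho v := by linarith
      have h7 : rho v < -(1 / 2) := by linarith
      exact Or.inr ⟨h0, h1, h2, h3, by simpa [htr _ h6 h7] using h4, h6, h7, by
        show -(ε / 2) < Wl.tau (Wl.pt ε v).1
        linarith⟩

theorem split (C : Consts S Wl m1 M Λ t' L ε μ' Δ)
    (hN : S.Good (fun _ : Unit => S.nrm 1 (1 + (M + 1)) fun i => Wl.pol m1 (Wl.c (-ε)) (i - 1))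
      1 (1 + (M + 1)) (m1 * (S.St.τ₀ / 4) + S.St.τ₀ / 2) Δ (fun _ => Wl.c (-ε))
      (fun _ => Wl.c (-ε))) :
    S.Htp (m1 * (S.St.τ₀ / 4) + S.St.τ₀ / 2) Δ (Wl.c (-ε)) univ
      (S.nrm 1 (1 + (M + 1)) fun i => Wl.pol m1 (Wl.c (-ε)) (i - 1))
      (Vc.uni {v | 0 < rho v} (Z.plus ε μ' 0) (Z.minus ε μ' 0)) :=
  (Z.equiv_one C hN).trans ((Sys.Htp.intro (H := fun u => Z.cob ε μ' u)
    (Z.slot_good C C.cob_data) (fun _ => subset_univ _) rfl rfl).trans (Z.equiv_two C))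

end Slice

end Pool.Agent.Wein
end

-- part Pool.Agent.P.MP_e3ee0c_gt.XSliceB
section

/-! The second stage of the construction of the slice. -/

open Set Filter Topology
open scoped ContDiff InnerProductSpace

namespace Pool.Agent.Wein

open TopAux

variable {E : Type} [NormedAddCommGroup E] [InnerProductSpace ℝ E] [FiniteDimensional ℝ E]

theorem Stage.slice {S : Sys E} {Wl : Wall S.S} {m1 M1 j : ℕ} [NeZero (M1 + j)] {Λ L' t' L : ℝ}
    {β n : E × (ℕ → E) → E} {H : E × (ℕ → E) → ℝ} {ch : E × (ℕ → E) → Ch E}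
    (h : Stage S Wl m1 M1 (M1 + j) Λ L' t' β n H ch) (hL' : 0 ≤ L') (hL : L' ≤ L)
    (hj : L - L' < j * S.St.τ₀) (hΛ : m1 * (S.St.τ₀ / 4) + L + 1 / 2 ≤ 7 / 8 * (Λ * S.δ) ^ 2) :
    Nonempty (Slice S Wl m1 (M1 + j) Λ L' t' L) := by
  have hτ := S.St.τpos
  have hd := Wl.dpos
  have hM : 0 < M1 + j := NeZero.pos _
  have hsum : ∑ i ∈ Finset.range (M1 + j), (if i < M1 then 0 else S.St.τ₀) = j * S.St.τ₀ := by
    rw [Finset.sum_range_add, Finset.sum_eq_zero fun i hi => if_pos (Finset.mem_range.mp hi)]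
    simp
  obtain ⟨D, hD, hpush⟩ := S.push (m := M1 + j) (fun i => if i < M1 then S.St.τ₀ else 0)
    (fun i => if i < M1 then 0 else S.St.τ₀)
    (fun i => by split_ifs; exacts [hτ.le, le_rfl]) (fun i => by split_ifs; exacts [le_rfl, hτ.le])
    (fun i => by split_ifs <;> simp) (-L') (L - L') (by linarith) (by rw [hsum]; exact hj)
  obtain ⟨a', n', c', hX, k0, klev, klip, -, kfix⟩ :=
    hpush Wl.tube Wl.tube_compact β n ch h.fam h.dep
  have hmem : ∀ (u : ℝ) (p : E × (ℕ → E)), p.1 ∈ Wl.tube →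
      (u, p) ∈ (univ : Set ℝ) ×ˢ Wl.tube ×ˢ (univ : Set (ℕ → E)) :=
    fun u p hp => ⟨mem_univ _, hp, mem_univ _⟩
  have ha'c : ContinuousOn a' (univ ×ˢ Wl.tube ×ˢ univ) :=
    (hX.cont 0 hM).fst.congr fun p hp => (hX.src p hp).symm
  have ha'S : ∀ p ∈ (univ : Set ℝ) ×ˢ Wl.tube ×ˢ (univ : Set (ℕ → E)), a' p ∈ S.S := by
    intro p hp
    rw [← hX.src p hp]
    exact (hX.valid p hp 0 hM).1
  obtain ⟨t2, -, hlift⟩ := Wl.lift S.compact D hD
  obtain ⟨h2, h2c, h2s⟩ := hlift (Wl.tube ×ˢ (univ : Set (ℕ → E))) a' ha'c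
    (fun u p hp => ha'S _ ⟨mem_univ _, hp⟩) (fun u u' p hp => klip u u' p hp.1)
  let g : E × (ℕ → E) → ℝ := fun p => 4 * Wl.tau p.1 / Wl.d - 1
  have hgc : ContinuousOn g (Wl.tube ×ˢ univ) :=
    ((continuousOn_const.mul (Wl.tau_cont.comp continuousOn_fst fun p hp => hp.1)).div_const
      _).sub continuousOn_const
  have hwc : ContinuousOn (fun p : E × (ℕ → E) => (clamp (g p), p)) (Wl.tube ×ˢ univ) :=
    (clamp_cont.comp_continuousOn hgc).prodMk continuousOn_id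
  have hwm : MapsTo (fun p : E × (ℕ → E) => (clamp (g p), p)) (Wl.tube ×ˢ univ)
      (univ ×ˢ Wl.tube ×ˢ univ) := fun p hp => ⟨mem_univ _, hp⟩
  have hg0 : ∀ p, Wl.tau p.1 ≤ Wl.d / 4 → g p ≤ 0 := by
    intro p hp
    have : 4 * Wl.tau p.1 / Wl.d ≤ 1 := by
      rw [div_le_one hd]; linarith
    simp only [g]
    linarith
  have hw0 : ∀ p, Wl.tau p.1 ≤ Wl.d / 4 → clamp (g p) ≤ 0 := fun p hp =>
    max_le le_rfl ((min_le_right _ _).trans (hg0 p hp))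
  have hw1 : ∀ p, Wl.d / 2 ≤ Wl.tau p.1 → 1 ≤ clamp (g p) := by
    intro p hp
    have h1 : 2 ≤ 4 * Wl.tau p.1 / Wl.d := by
      rw [le_div_iff₀ hd]; linarith
    refine le_max_of_le_right (le_min le_rfl ?_)
    simp only [g]
    linarith
  have hsame : ∀ (u : ℝ) (p : E × (ℕ → E)), p.1 ∈ Wl.tube →
      (a' (u, p) = β p ∧ n' (u, p) = n p ∧ ∀ i < M1 + j, c' (u, p) i = ch p i) →
      S.Val (M1 + j) (c' (u, p)) + S.Q (a' (u, p)) (n' (u, p)) =
        S.Val (M1 + j) (ch p) + S.Q (β p) (n p) := by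
    rintro u p hp ⟨e1, e2, e3⟩
    rw [e1, e2]
    congr 1
    refine S.valT_congr _ e3 ?_
    rw [hX.tgt _ (hmem u p hp), e1, h.fam.tgt p ⟨hp, mem_univ _⟩]
  have hH0 : ∀ p : E × (ℕ → E), p.1 ∈ Wl.tube → Wl.tau p.1 ≤ Wl.d / 4 → h2 (g p, p) = 0 :=
    fun p hp ht => (h2s (g p) p ⟨hp, mem_univ _⟩).2.2 (hg0 p ht)
  refine ⟨{ β := fun p => a' (clamp (g p), p)
            n := fun p => n' (clamp (g p), p)
            H := fun p => H p + h2 (g p, p)
            ch := fun p => c' (clamp (g p), p)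
            βc := ha'c.comp hwc hwm
            nc := hX.nc.comp hwc hwm
            Hc := h.Hc.add (h2c.comp (hgc.prodMk continuousOn_id) fun p hp => ⟨mem_univ _, hp⟩)
            cont := fun i hi => (hX.cont i hi).comp hwc hwm
            βS := fun p hp => ha'S _ (hmem _ p hp)
            valid := fun p hp => hX.valid _ (hmem _ p hp)
            src := fun p hp => hX.src _ (hmem _ p hp)
            tgt := fun p hp => hX.tgt _ (hmem _ p hp)
            Hth := fun p hp => ?_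
            le := fun p hp => ?_
            proper := fun B => ?_
            start := fun p hp ht => ?_
            far := fun p hp => ?_
            edge := fun p hp ht => ?_ }⟩
  · rw [AddCircle.coe_add, h.Hth p hp, (h2s (g p) p ⟨hp, mem_univ _⟩).1, (k0 0 le_rfl p hp).1]
    abel
  · rcases le_total (Wl.tau p.1) (Wl.d / 4) with ht | ht
    · rw [hsame _ p hp (k0 _ (hw0 p ht) p hp)]
      exact h.le p hp
    · have h1 := (klev p hp (h.low p hp ht) (clamp (g p))).1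
      have h3 : (0 : ℝ) ≤ m1 * (S.St.τ₀ / 4) := by positivity
      linarith
  · obtain ⟨R, hR⟩ := hX.proper B
    exact ⟨R, fun p hp hP => hR _ (hmem _ p hp) hP⟩
  · have ht' : Wl.tau p.1 ≤ Wl.d / 4 := by linarith
    obtain ⟨e1, e2, e3⟩ := k0 _ (hw0 p ht') p hp
    obtain ⟨f1, f2, f3, f4⟩ := h.start p hp ht
    exact ⟨e1.trans f1, e2.trans f2, by rw [hH0 p hp ht', add_zero, f3],
      fun i hi => (e3 i hi).trans (f4 i hi)⟩
  · rcases le_total (Wl.tau p.1) (Wl.d / 4) with ht | ht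
    · left
      rw [hH0 p hp ht, add_zero]
      exact h.Hle p hp
    · exact Or.inr (klev p hp (h.low p hp ht) (clamp (g p))).1
  · rcases ht with ht | ht
    · have h1 := (klev p hp (h.low p hp (by linarith)) (clamp (g p))).2 (hw1 p ht)
      linarith
    · have h1 := h.edge p hp ht
      rw [hsame _ p hp (kfix p hp (by linarith) _)]
      have h3 := S.val_le_valT (τ := fun i => if i < M1 then S.St.τ₀ else 0) (m := M1 + j)
        (fun i _ => by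
          split_ifs
          exacts [⟨hτ.le, le_rfl⟩, ⟨le_rfl, hτ.le⟩]) (h.fam.valid p ⟨hp, mem_univ _⟩)
      linarith

theorem exists_slice (S : Sys E) (Wl : Wall S.S) (hNT : Wl.NT) : ∃ m1 : ℕ, 0 < m1 ∧
    (∀ x ∈ Wl.K, ∀ s t : ℝ, |s - t| ≤ 1 / (m1 : ℝ) →
      ‖Wl.σ (x, (s : UnitAddCircle)) - Wl.σ (x, (t : UnitAddCircle))‖ ≤ S.μ) ∧
    ∀ L' : ℝ, 0 ≤ L' → ∃ t' : ℝ, 0 ≤ t' ∧ ∀ L Λ1 : ℝ, L' ≤ L → ∃ (M : ℕ) (Λ : ℝ), m1 ≤ M ∧
      0 < Λ ∧ Λ1 ≤ Λ ∧ Nonempty (Slice S Wl m1 M Λ L' t' L) := by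
  obtain ⟨m1, hm, hs, hnt⟩ := Wl.nontriv hNT
  refine ⟨m1, hm, hs, fun L' hL' => ?_⟩
  obtain ⟨M1, t', hM1, ht', hst⟩ := exists_stage S Wl hm hs hnt L' hL'
  refine ⟨t', ht', fun L Λ1 hL => ?_⟩
  have hτ := S.St.τpos
  have hδ := S.δpos
  obtain ⟨j, hj⟩ := exists_nat_gt ((L - L') / S.St.τ₀)
  rw [div_lt_iff₀ hτ] at hj
  have : NeZero (M1 + j) := ⟨by omega⟩
  have hq : (0 : ℝ) ≤ m1 * (S.St.τ₀ / 4) := by positivity
  set B : ℝ := m1 * (S.St.τ₀ / 4) + L + 1 / 2 with hB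
  have hB0 : 0 ≤ B := by linarith
  set Λ : ℝ := max Λ1 ((2 * B + 1) / S.δ) with hΛ
  have h1 : (2 * B + 1) / S.δ ≤ Λ := le_max_right _ _
  have hΛ0 : 0 < Λ := lt_of_lt_of_le (by positivity) h1
  rw [div_le_iff₀ hδ] at h1
  have h2 : B ≤ 7 / 8 * (Λ * S.δ) ^ 2 := by nlinarith
  obtain ⟨β, n, H, ch, hS⟩ := hst j Λ hΛ0 (by linarith)
  exact ⟨M1 + j, Λ, by omega, hΛ0, le_max_left _ _, hS.slice hL' hL hj h2⟩

end Pool.Agent.Wein
end

-- part Pool.Agent.P.MP_e3ee0c_gt.XKit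
section

/-! The building blocks exist. -/

open Set Filter Topology
open scoped ContDiff InnerProductSpace

namespace Pool.Agent.Wein

open TopAux

variable {E : Type} [NormedAddCommGroup E] [InnerProductSpace ℝ E] [FiniteDimensional ℝ E]

lemma xkit_clamp (u : ℝ) : clamp (clamp u) = clamp u := by
  have h := clamp_mem u
  generalize clamp u = t at h
  rw [clamp, min_eq_right h.2, max_eq_right h.1]

omit [FiniteDimensional ℝ E] in
lemma xkit_loop {S : Sys E} {Wl : Wall S.S} {m1 M : ℕ} {Λ t' L ε μ' Δ : ℝ}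
    (C : Consts S Wl m1 M Λ t' L ε μ' Δ) {x : E} (hx : x ∈ Wl.K) (k N : ℕ) (n : ℕ → ℕ)
    (hn : ∀ i, n i ≤ n (i + 1) + 1 ∧ n (i + 1) ≤ n i + 1) (A : Finset ℕ)
    (hA : ∀ i < N, i ∉ A → n (i + 1) = n i) {a b : ℝ → E}
    (ha : ∀ u, Wl.σ (x, ((clamp u * ((n 0 : ℝ) / m1) : ℝ) : UnitAddCircle)) = a u)
    (hb : ∀ u, Wl.σ (x, ((clamp u * ((n N : ℝ) / m1) : ℝ) : UnitAddCircle)) = b u) :
    S.Good (fun u : ℝ => S.nrm k N fun i =>
      Wl.σ (x, ((clamp u * ((n i : ℝ) / m1) : ℝ) : UnitAddCircle))) k N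
      (A.card * (S.St.τ₀ / 4)) Δ a b := by
  refine Sys.good_nrm k N Δ (fun i _ => ?_) (fun u i _ => ⟨(Wl.σm x hx.1 hx.2 _).1, ?_⟩) A
    (fun u i hi hi' => by rw [hA i hi hi']) ha hb
  · refine Wl.σc.comp_continuous (continuous_const.prodMk ?_) fun u => ⟨hx, mem_univ _⟩
    exact (AddCircle.continuous_mk' 1).comp (clamp_cont.mul continuous_const)
  · refine C.step x hx _ _ ?_
    have h0 : (0 : ℝ) < m1 := by exact_mod_cast C.m1pos
    have h1 : (n i : ℝ) ≤ n (i + 1) + 1 := by exact_mod_cast (hn i).1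
    have h2 : (n (i + 1) : ℝ) ≤ n i + 1 := by exact_mod_cast (hn i).2
    have h3 : |(n i : ℝ) - n (i + 1)| ≤ 1 := abs_le.2 ⟨by linarith, by linarith⟩
    have h4 := clamp_mem u
    rw [← mul_sub, ← sub_div, abs_mul, abs_div, abs_of_pos h0, abs_of_nonneg h4.1]
    calc clamp u * (|(n i : ℝ) - n (i + 1)| / m1) ≤ 1 * (1 / m1) := by gcongr; exact h4.2
      _ = _ := one_mul _

omit [FiniteDimensional ℝ E] in
lemma xkit_line {S : Sys E} (Wl : Wall S.S) {t' : ℝ} (ht : 0 ≤ t') (ε Δ : ℝ) {J : ℕ} (hJ : 0 < J)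
    (hc : ∀ s t, |s - t| ≤ 2 * t' / J → ‖Wl.c s - Wl.c t‖ ≤ S.μ) (α β : ℝ) (hβ : |β| ≤ 2)
    {a b : ℝ → E} (ha : ∀ u, Wl.c (t' * clamp u * α - ε) = a u)
    (hb : ∀ u, Wl.c (t' * clamp u * (α + β) - ε) = b u) :
    S.Good (fun u : ℝ => S.nrm 0 J fun i => Wl.c (t' * clamp u * (α + β * (i / J)) - ε)) 0 J
      (J * (S.St.τ₀ / 4)) Δ a b := by
  have h0 : (0 : ℝ) < J := by exact_mod_cast hJ
  have h := Sys.good_nrm (S := S) (a := a) (b := b) 0 J Δ
    (v := fun (u : ℝ) (i : ℕ) => Wl.c (t' * clamp u * (α + β * (i / J)) - ε))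
    (fun i _ => Wl.cu.continuous.comp
      (((continuous_const.mul clamp_cont).mul continuous_const).sub continuous_const))
    (fun u i _ => ⟨Wl.cm _, hc _ _ ?_⟩) (Finset.range J)
    (fun u i hi hi' => absurd (Finset.mem_range.2 hi) hi') (fun u => by simpa using ha u)
    (fun u => by rw [div_self h0.ne', mul_one]; exact hb u)
  · rwa [Finset.card_range] at h
  · have h4 := clamp_mem u
    have e : t' * clamp u * (α + β * (i / J)) - ε -
        (t' * clamp u * (α + β * (((i + 1 : ℕ) : ℝ) / J)) - ε) = -(t' * clamp u * β / J) := by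
      push_cast
      ring
    rw [e, abs_neg, abs_div, abs_mul, abs_mul, abs_of_pos h0, abs_of_nonneg ht,
      abs_of_nonneg h4.1]
    calc t' * clamp u * |β| / J ≤ t' * 1 * 2 / J := by gcongr; exact h4.2
      _ = _ := by ring

theorem Slice.kit {S : Sys E} {Wl : Wall S.S} {m1 M : ℕ} {Λ L' t' L ε μ' Δ : ℝ}
    (Z : Slice S Wl m1 M Λ L' t' L) (C : Consts S Wl m1 M Λ t' L ε μ' Δ) {J : ℕ} (hJ : 0 < J)
    (hc : ∀ s t, |s - t| ≤ 2 * t' / J → ‖Wl.c s - Wl.c t‖ ≤ S.μ) :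
    Nonempty (Kit S (Wl.c (-ε)) (1 + (M + 1)) m1 J (m1 * (S.St.τ₀ / 4) + S.St.τ₀ / 2)
      (m1 * (S.St.τ₀ / 4)) (J * (S.St.τ₀ / 4)) (S.St.τ₀ / 2 - L') Δ) := by
  have hε := C.εpos
  have hq : 0 ≤ S.St.τ₀ / 2 := by have := S.St.τpos; positivity
  have hm : (m1 : ℝ) ≠ 0 := by exact_mod_cast C.m1pos.ne'
  have hx : Wl.c (-ε) ∈ Wl.K := Wl.c_mem_K (by
    rw [abs_neg, abs_of_pos hε]
    linarith [C.εle])
  have h0 : Wl.σ (Wl.c (-ε), ((0 : ℝ) : UnitAddCircle)) = Wl.c (-ε) := Wl.σ0 _ hx.1 hx.2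
  have hY : ∀ u, Wl.σ (Wl.c (-ε), ((clamp u : ℝ) : UnitAddCircle)) = Wl.bY ε t' (clamp u) :=
    fun u => by rw [C.bY_nonneg (clamp_mem u).1, xkit_clamp]
  have hX : ∀ u, Wl.c (t' * clamp u * 1 - ε) = Wl.bX ε t' (clamp u) := fun u => by
    rw [Wall.bX, xkit_clamp, mul_one]
  have hY' : ∀ u, Wl.c (t' * clamp u * (-1) - ε) = Wl.bY ε t' (-clamp u) := fun u => by
    rw [C.bY_nonpos (neg_nonpos.2 (clamp_mem u).1)]
    congr 1
    ring
  have hx0 : ∀ u, Wl.c (t' * clamp u * 0 - ε) = Wl.c (-ε) := fun u => by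
    rw [mul_zero, zero_sub]
  have hz : ∀ α β : ℝ, (S.nrm 0 J fun i => Wl.c (t' * clamp 0 * (α + β * (i / J)) - ε)) =
      S.cst 0 J (Wl.c (-ε)) := fun α β => by
    simp only [clamp_zero, mul_zero, zero_mul, zero_sub, Sys.cst]
  have hmid := (xkit_loop C hx 1 (1 + (M + 1)) (fun i => min (i - 1) m1) (fun i => by omega)
    (Finset.Ico 1 (m1 + 1)) (fun i _ hi => by rw [Finset.mem_Ico] at hi; omega)
    (a := fun _ => Wl.c (-ε)) (b := fun u => Wl.bY ε t' (clamp u))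
    (fun u => by simpa using h0) (fun u => by
      rw [← hY, show min (1 + (M + 1) - 1) m1 = m1 by have := C.m1le; omega, div_self hm,
        mul_one])).mono (T' := m1 * (S.St.τ₀ / 4) + S.St.τ₀ / 2) (by simpa using hq)
  have hrev := xkit_loop C hx 0 m1 (fun i => m1 - i) (fun i => by omega) (Finset.range m1)
    (fun i hi hi' => absurd (Finset.mem_range.2 hi) hi')
    (a := fun u => Wl.bY ε t' (clamp u)) (b := fun _ => Wl.c (-ε))
    (fun u => by rw [← hY, Nat.sub_zero, div_self hm, mul_one]) (fun u => by simpa using h0)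
  rw [Finset.card_range] at hrev
  have e1 : (S.nrm 1 (1 + (M + 1)) fun i => Wl.σ (Wl.c (-ε),
      ((clamp 1 * (((min (i - 1) m1 : ℕ) : ℝ) / m1) : ℝ) : UnitAddCircle))) =
      S.nrm 1 (1 + (M + 1)) fun i => Wl.pol m1 (Wl.c (-ε)) (i - 1) := by
    simp only [clamp_one, one_mul, Wall.pol]
  have hN := hmid.comp (f := fun _ : Unit => (1 : ℝ)) continuous_const
  rw [e1, clamp_one, C.bY_one] at hN
  refine ⟨{
    bX := Wl.bX ε t'
    bY := Wl.bY ε t'
    plus := Z.plus ε μ'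
    minus := Z.minus ε μ'
    mid := _
    rev := _
    up := _
    dn := _
    bk := _
    O := {v | 0 < rho v}
    bXc := C.plus_data.xc
    bYc := C.minus_data.xc
    bXS := C.plus_data.xS
    bYS := C.minus_data.xS
    bX0 := C.bX_zero
    bY0 := C.bY_zero
    bY1 := C.bY_one
    plus_good := Z.slot_good C C.plus_data
    minus_good := Z.slot_good C C.minus_data
    plus_low := Z.slot_low C C.plus_data 1 fun ρ τ h => ?_
    minus_low := Z.slot_low C C.minus_data (-1) fun ρ τ h => ?_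
    minus_one := Z.minus_one ε μ'
    plus_dom := fun u v hv => hv.2.2.2.2
    minus_dom := fun u v hv h => ?_
    mid_good := hmid
    mid_zero := ?_
    rev_good := hrev
    rev_zero := ?_
    split := ?_
    up_good := xkit_line Wl C.t'nn ε Δ hJ hc 0 1 (by norm_num) hx0 fun u => by
      rw [zero_add]; exact hX u
    up_zero := hz _ _
    dn_good := xkit_line Wl C.t'nn ε Δ hJ hc 1 (-2) (by norm_num) hX fun u => by
      rw [show (1 : ℝ) + -2 = -1 by norm_num]; exact hY' u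
    dn_zero := hz _ _
    bk_good := xkit_line Wl C.t'nn ε Δ hJ hc (-1) 1 (by norm_num) hY' fun u => by
      rw [neg_add_cancel]; exact hx0 u
    bk_zero := hz _ _ }⟩
  · have h1 : 0 < ρ := h
    have h2 := mul_pos hε h1
    rw [clamp_one, mul_one]
    exact le_trans (by linarith) (le_abs_self _)
  · have h1 : trc ρ ≤ 0 := max_le (by norm_num) ((min_le_right _ _).trans (by norm_num))
    have h2 := mul_nonneg hε.le (neg_nonneg.2 h1)
    rw [min_eq_left (by norm_num : (-1 : ℝ) ≤ 0)]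
    exact le_trans (by linarith) (neg_le_abs _)
  · have h1 : rho v < -(1 / 2) := hv.2.2.2.2.2.1
    have h2 : 0 < rho v := h
    linarith
  · simp only [clamp_zero, zero_mul, h0, Sys.cst]
  · simp only [clamp_zero, zero_mul, h0, Sys.cst]
  · rw [e1]
    exact Z.split C hN

theorem exists_kit (S : Sys E) (Wl : Wall S.S) (hNT : Wl.NT) :
    ∃ x ∈ S.S, ∃ T1 T2 : ℝ, 0 ≤ T1 ∧ 0 ≤ T2 ∧
    ∀ L' : ℝ, 0 ≤ L' → ∃ T3 : ℝ, 0 ≤ T3 ∧ ∀ Δ : ℝ, ∃ n0 m1 J : ℕ,
      Nonempty (Kit S x n0 m1 J T1 T2 T3 (S.St.τ₀ / 2 - L') Δ) := by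
  have hτ := S.St.τpos
  have hμ := S.μpos
  have hd := Wl.dpos
  obtain ⟨ρ, hρ, hmd⟩ := Wl.modulus S.compact (η := 1 / 8) (by norm_num)
  have hμ' : 0 < min (S.μ / 2) ρ := by positivity
  obtain ⟨η, hη, h1⟩ := Metric.uniformContinuous_iff.1 Wl.cu _ hμ'
  obtain ⟨η', hη', h2⟩ := Metric.uniformContinuous_iff.1 Wl.cu _ hμ
  obtain ⟨m1, hm, hs, h3⟩ := exists_slice S Wl hNT
  refine ⟨Wl.c (-min (η / 4) (Wl.d / 2)), Wl.cm _, m1 * (S.St.τ₀ / 4) + S.St.τ₀ / 2,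
    m1 * (S.St.τ₀ / 4), by positivity, by positivity, fun L' hL' => ?_⟩
  obtain ⟨t', ht, h4⟩ := h3 L' hL'
  obtain ⟨J, hJ⟩ := exists_nat_gt (2 * t' / η')
  have hJ0 : (0 : ℝ) < J := lt_of_le_of_lt (by positivity) hJ
  refine ⟨J * (S.St.τ₀ / 4), by positivity, fun Δ => ?_⟩
  obtain ⟨M, Λ, hM, hΛ, hΛ1, ⟨Z⟩⟩ := h4 (max (Δ + 1) L') ((2 * |Δ| + 1) / min (S.μ / 2) ρ)
    (le_max_right _ _)
  refine ⟨_, m1, J, Z.kit (μ' := min (S.μ / 2) ρ) ⟨hm, hM, hs, hΛ, ht, hμ', ?_,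
    fun x hx x' hx' h => hmd x hx x' hx' (h.trans (min_le_right _ _)), le_max_left _ _, ?_,
    by positivity, ?_, fun s t h => ?_⟩ (by exact_mod_cast hJ0) fun s t h => ?_⟩
  · linarith [min_le_left (S.μ / 2) ρ]
  · rw [div_le_iff₀ hμ'] at hΛ1
    have h5 := abs_nonneg Δ
    have h6 := le_abs_self Δ
    have h7 : (2 * |Δ| + 1) ^ 2 ≤ (Λ * min (S.μ / 2) ρ) ^ 2 := by gcongr
    nlinarith
  · linarith [min_le_right (η / 4) (Wl.d / 2)]
  · rw [← dist_eq_norm]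
    refine (h1 ?_).le
    rw [Real.dist_eq]
    linarith [min_le_left (η / 4) (Wl.d / 2)]
  · rw [← dist_eq_norm]
    refine (h2 (lt_of_le_of_lt h ?_)).le
    rw [div_lt_iff₀ hη'] at hJ
    rw [div_lt_iff₀ hJ0]
    linarith

end Pool.Agent.Wein
end

-- part Pool.Agent.P.MP_e3ee0c_gt.XCore
section

/-! The core existence theorem for a base with a wall. -/

open Set Filter Topology
open scoped ContDiff InnerProductSpace

namespace Pool.Agent.Wein

variable {E : Type} [NormedAddCommGroup E] [InnerProductSpace ℝ E] [FiniteDimensional ℝ E]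

/-- The core theorem: not every periodic orbit is stationary or has a constant image under pr
together with a base curve that is constant or not null-homotopic. -/
theorem xcore0 {E0 : Type} [NormedAddCommGroup E0] [InnerProductSpace ℝ E0]
    [FiniteDimensional ℝ E0] (R : Ret E) (R0 : Ret E0) (hN : IsPathConnected R.S) (Wl : Wall R.S)
    (pr : E → E0) (hpr : Continuous pr) (hm : ∀ x ∈ R.S, pr x ∈ R0.S)
    (hnt : ∀ x ∈ Wl.K, ∀ γ : C(UnitAddCircle, R0.S), (∀ t, (γ t : E0) = pr (Wl.σ (x, t))) →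
      ¬ γ.Nullhomotopic)
    (F : E × E → ℝ) (hF : ContDiff ℝ ∞ F)
    (h01 : ∀ z ∈ Cot R.S, 0 ≤ F z ∧ F z ≤ 1) (Rb : ℝ)
    (hR : ∀ z ∈ Cot R.S, Rb ≤ ‖z.2‖ → F z = 1) (a : E) (ha : a ∈ R.S) (r0 : ℝ) (hr0 : 0 < r0)
    (h0 : ∀ x ∈ R.S, ‖x - a‖ ≤ r0 → F (x, 0) = 0)
    (hno : ∀ (z : ℝ → E × E) (T : ℝ), IsOrbit R.S F z → 0 < T → (∀ t, z (t + T) = z t) →
      (F (z 0) = 0 ∨ F (z 0) = 1) ∨ ((∀ t, pr (z t).1 = pr (z 0).1) ∧
        ((∀ t, (z t).1 = (z 0).1) ∨ ∀ γ : C(UnitAddCircle, R.S),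
          (∀ t : ℝ, (γ t : E) = (z (t * T)).1) → ¬ γ.Nullhomotopic))) : False := by
  obtain ⟨S, hS, hSF, -, hG⟩ := exists_sys0 R R0 pr hpr hm F hF h01 Rb hR 0 0 le_rfl
    (fun z _ hz _ h => absurd h (not_lt.2 (h01 _ (hz 0).1).1)) hno
  subst hSF
  generalize R.S = N at *
  subst hS
  have hτ := S.St.τpos
  obtain ⟨x, hx, T1, T2, h1, h2, hk⟩ := exists_kit S Wl fun x hx => hG _ (hnt x hx)
  obtain ⟨K, T', hK, hT', hg⟩ := S.xghost hN hx
  obtain ⟨T3, h3, hk⟩ := hk (K * (T1 + T2) + T2 + 1 + S.St.τ₀ / 2) (by positivity)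
  obtain ⟨m, hm⟩ := exists_nat_ge (3 * T3 * (K + 1) + T' + 1)
  obtain ⟨n0, m1, J, ⟨Kt⟩⟩ := hk (K * (3 * T3 + m * (T1 + T2)) + T' + 1)
  obtain ⟨k, M, hkill⟩ := Kt.kill h1 h2 h3 m
  obtain ⟨k', M', G, hG, hs, hl⟩ := hg k M _ _ _ (by positivity) hkill
  exact S.xlink ha hr0 h0 hG le_rfl hs fun y => (hl y).mono (by nlinarith)

theorem xcore (R : Ret E) (hN : IsPathConnected R.S) (Wl : Wall R.S)
    (F : E × E → ℝ) (hF : ContDiff ℝ ∞ F)
    (h01 : ∀ z ∈ Cot R.S, 0 ≤ F z ∧ F z ≤ 1) (Rb : ℝ)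
    (hR : ∀ z ∈ Cot R.S, Rb ≤ ‖z.2‖ → F z = 1) (a : E) (ha : a ∈ R.S) (r0 : ℝ) (hr0 : 0 < r0)
    (h0 : ∀ x ∈ R.S, ‖x - a‖ ≤ r0 → F (x, 0) = 0) :
    ∃ (z : ℝ → E × E) (T : ℝ), IsOrbit R.S F z ∧ 0 < T ∧ (∀ t, z (t + T) = z t) ∧
      0 < F (z 0) ∧ F (z 0) < 1 := by
  by_contra hcon
  refine xcore0 R R hN Wl id continuous_id (fun _ h => h)
    (fun x hx γ h => Wl.nt x hx.1 hx.2 γ h) F hF h01 Rb hR a ha r0 hr0 h0
    fun z T hz hT hp => Or.inl ?_
  by_contra hne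
  push Not at hne
  have h := h01 (z 0) (hz 0).1
  exact hcon ⟨z, T, hz, hT, hp, lt_of_le_of_ne h.1 (Ne.symm hne.1), lt_of_le_of_ne h.2 hne.2⟩

end Pool.Agent.Wein
end

-- part Pool.Agent.P.MP_e3ee0c_gt.TOrb
section

/-! Periodic orbits upstairs and downstairs. -/

open Set Filter Topology
open scoped ContDiff InnerProductSpace

namespace Pool.Agent.Wein

variable {E E' : Type} [NormedAddCommGroup E] [InnerProductSpace ℝ E]
  [NormedAddCommGroup E'] [InnerProductSpace ℝ E']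

lemma omegaM_nondeg (R : Ret E) (b : E → E →L[ℝ] E →L[ℝ] ℝ) {z v : E × E} (hz : z ∈ Cot R.S)
    (hv : v ∈ Tan (Cot R.S) z) (h : ∀ u ∈ Tan (Cot R.S) z, omegaM b z v u = 0) : v = 0 := by
  have hv1 := R.tan_cot_fst hz hv
  have h1 : v.1 = 0 := by
    have := h (0, v.1) ((R.hat.tan_iff hz _).2 (by rw [R.fderiv_hat hz]; simp [hv1]))
    simpa [omegaM, omega] using this
  refine R.omega_nondeg hz hv fun u hu => ?_
  simpa [omegaM, h1] using h u hu

lemma zero_mem_tan {V : Type*} [NormedAddCommGroup V] [NormedSpace ℝ V] {S : Set V} {z : V}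
    (hz : z ∈ S) : (0 : V) ∈ Tan S z :=
  ⟨fun _ => z, rfl, Eventually.of_forall fun _ => hz, hasDerivAt_const _ _⟩

/-- The core theorem for a function that vanishes near any point. -/
theorem tshift [FiniteDimensional ℝ E] [FiniteDimensional ℝ E'] (R : Ret E') (R0 : Ret E)
    (hN : IsPathConnected R.S) (Wl : Wall R.S)
    (pr : E' → E) (hpr : Continuous pr) (hm : ∀ x ∈ R.S, pr x ∈ R0.S)
    (hnt : ∀ x ∈ Wl.K, ∀ γ : C(UnitAddCircle, R0.S), (∀ t, (γ t : E) = pr (Wl.σ (x, t))) →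
      ¬ γ.Nullhomotopic)
    (F : E' × E' → ℝ) (hF : ContDiff ℝ ∞ F) (h01 : ∀ z ∈ Cot R.S, 0 ≤ F z ∧ F z ≤ 1)
    (V : Set (E' × E')) (hV : IsCompact V) (hR : ∀ z ∈ Cot R.S, z ∉ V → F z = 1)
    (z0 : E' × E') (hz0 : z0 ∈ Cot R.S) (h0 : ∀ᶠ y in 𝓝 z0, y ∈ Cot R.S → F y = 0)
    (hno : ∀ (z : ℝ → E' × E') (T : ℝ), IsOrbit R.S F z → 0 < T → (∀ t, z (t + T) = z t) →
      (F (z 0) = 0 ∨ F (z 0) = 1) ∨ ((∀ t, pr (z t).1 = pr (z 0).1) ∧
        ((∀ t, (z t).1 = (z 0).1) ∨ ∀ γ : C(UnitAddCircle, R.S),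
          (∀ t : ℝ, (γ t : E') = (z (t * T)).1) → ¬ γ.Nullhomotopic))) : False := by
  obtain ⟨s, hs⟩ : ∃ s : E' → E', s = fun x => R.P x ((fun _ => (0 : E')) x - -z0.2) := ⟨_, rfl⟩
  have hS : Shift R s := hs ▸ shift_proj R contDiff_const (fun x _ u _ v _ => by simp) _
  have hts := (tr_smooth hS.smooth).continuous
  obtain ⟨B, hB⟩ := (hV.image (tr_smooth hS.neg.smooth).continuous).isBounded.exists_norm_le
  have e0 : tr s (z0.1, 0) = z0 := by
    have a1 := ((R.mem_cot z0).1 hz0).2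
    simp [tr, hs, a1]
  have hc : Tendsto (fun x : E' => tr s (x, 0)) (𝓝 z0.1) (𝓝 z0) := by
    have : Continuous fun x : E' => tr s (x, 0) := hts.comp (by fun_prop)
    simpa only [e0] using this.tendsto z0.1
  obtain ⟨δ, hδ, hball⟩ := Metric.eventually_nhds_iff.1 (hc.eventually h0)
  exact xcore0 R R0 hN Wl pr hpr hm hnt (F ∘ tr s) (hF.comp (tr_smooth hS.smooth))
    (fun z hz => h01 _ (hS.mem hz)) (B + 1)
    (fun z hz h => hR _ (hS.mem hz) fun h' => by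
      have := hB _ ⟨_, h', rfl⟩
      rw [tr_neg_tr] at this
      linarith [norm_snd_le z])
    z0.1 hz0.1 (δ / 2) (half_pos hδ)
    (fun x hx h => hball (by rw [dist_eq_norm]; linarith)
      (hS.mem ((R.mem_cot _).2 ⟨hx, map_zero _⟩)))
    fun z T hz hT hp => hno (fun t => tr s (z t)) T (hS.orbit hF hz) hT fun t => by
      simp only [hp]

namespace Red

variable {RP : Ret E'} {RN : Ret E} {π : E' → E} {ξ α : E' → E'} {b : E → E →L[ℝ] E →L[ℝ] ℝ}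
  (D : Red RP RN π ξ α b) {F : E × E → ℝ} {χ : ℝ → ℝ}

/-- The function upstairs. -/
noncomputable def Ft (F : E × E → ℝ) (χ : ℝ → ℝ) (z : E' × E') : ℝ :=
  1 - (1 - F (D.dn z)) * χ (mu ξ z)

lemma Ft_smooth (hF : ContDiff ℝ ∞ F) (hχ : ContDiff ℝ ∞ χ) : ContDiff ℝ ∞ (D.Ft F χ) :=
  contDiff_const.sub ((contDiff_const.sub (hF.comp D.dn_smooth)).mul
    (hχ.comp (mu_smooth D.B.ξs)))

lemma dFt (hF : ContDiff ℝ ∞ F) (hχ : ContDiff ℝ ∞ χ) (z u : E' × E') :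
    fderiv ℝ (D.Ft F χ) z u = χ (mu ξ z) * fderiv ℝ F (D.dn z) (fderiv ℝ D.dn z u) -
      (1 - F (D.dn z)) * (deriv χ (mu ξ z) * fderiv ℝ (mu ξ) z u) := by
  have d1 := (hF.differentiable (by simp) (D.dn z)).hasFDerivAt.comp z
    (D.dn_smooth.differentiable (by simp) z).hasFDerivAt
  have d2 := (hχ.differentiable (by simp) (mu ξ z)).hasDerivAt.comp_hasFDerivAt z
    ((mu_smooth D.B.ξs).differentiable (by simp) z).hasFDerivAt
  have d3 : HasFDerivAt (D.Ft F χ) _ z := ((d1.const_sub 1).mul d2).const_sub 1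
  rw [d3.fderiv]
  simp only [neg_apply, add_apply, smul_apply, ContinuousLinearMap.comp_apply, Function.comp,
    smul_eq_mul]
  ring

/-- The three consequences of the Hamiltonian equation upstairs. -/
lemma key (hF : ContDiff ℝ ∞ F) (hχ : ContDiff ℝ ∞ χ) {z X : E' × E'} (hz : z ∈ Cot RP.S)
    (hm : mu ξ z ∈ Ioo (1 / 2 : ℝ) (3 / 2)) (hX : X ∈ Tan (Cot RP.S) z)
    (h : ∀ u ∈ Tan (Cot RP.S) z, omega X u = -fderiv ℝ (D.Ft F χ) z u) :
    fderiv ℝ (mu ξ) z X = 0 ∧ (∀ w ∈ Tan (Cot RN.S) (D.dn z),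
      mu ξ z * omegaM b (D.dn z) (fderiv ℝ D.dn z X) w = -(χ (mu ξ z) * fderiv ℝ F (D.dn z) w)) ∧
      D.be z X = -((1 - F (D.dn z)) * deriv χ (mu ξ z)) := by
  have hy := D.dn_mem hz.1
  have h1 : fderiv ℝ (mu ξ) z X = 0 := by
    obtain ⟨u, hu, e1, e2, e3⟩ := D.lift hz hm 0 (D.B.ξt _ hz.1) (zero_mem_tan hy) (D.B.ξk _ hz.1)
    have := h u hu
    rw [D.form hz hm hX hu, D.dFt hF hχ, e2, e3] at this
    simpa [be, omegaM, omega, e1, D.B.ξk _ hz.1, D.B.one _ hz.1] using this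
  refine ⟨h1, fun w hw => ?_, ?_⟩
  · obtain ⟨u1, hu1, e0⟩ := D.B.sub _ hz.1 w.1 (RN.tan_cot_fst hy hw)
    obtain ⟨u, hu, -, e2, e3⟩ := D.lift hz hm 0 hu1 hw e0
    have := h u hu
    rw [D.form hz hm hX hu, D.dFt hF hχ, e2, e3, h1] at this
    linarith
  · obtain ⟨u, hu, e1, e2, e3⟩ := D.lift hz hm 1 (map_zero _) (zero_mem_tan hy) (map_zero _)
    have := h u hu
    rw [D.form hz hm hX hu, D.dFt hF hχ, e2, e3, h1] at this
    simp only [omegaM, omega, Prod.fst_zero, Prod.snd_zero, inner_zero_left, inner_zero_right,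
      map_zero] at this
    linarith

/-- The moment is constant along the orbits. -/
lemma mu_const (hF : ContDiff ℝ ∞ F) (hχ : ContDiff ℝ ∞ χ)
    (hs : tsupport χ ⊆ Ioo (1 / 2 : ℝ) (3 / 2)) {z : ℝ → E' × E'}
    (hz : IsOrbit RP.S (D.Ft F χ) z) (t : ℝ) : mu ξ (z t) = mu ξ (z 0) := by
  have hμ := mu_smooth D.B.ξs
  have h : ∀ s, HasDerivAt (fun s => mu ξ (z s)) 0 s := fun s => by
    obtain ⟨v, hv, ho⟩ := (hz s).2
    have hvt := orbit_tan hz hv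
    have h1 := (hμ.differentiable (by simp) (z s)).hasFDerivAt.comp_hasDerivAt s hv
    by_cases hm : mu ξ (z s) ∈ Ioo (1 / 2 : ℝ) (3 / 2)
    · rwa [(D.key hF hχ (hz s).1 hm hvt ho).1] at h1
    · have h2 : χ =ᶠ[𝓝 (mu ξ (z s))] 0 := notMem_tsupport_iff_eventuallyEq.1 fun h => hm (hs h)
      have h3 : v = 0 := RP.omega_nondeg (hz s).1 hvt fun u hu => by
        rw [ho u hu, D.dFt hF hχ, h2.deriv_eq, h2.eq_of_nhds]
        simp
      rwa [h3, map_zero] at h1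
  exact is_const_of_deriv_eq_zero (fun s => (h s).differentiableAt) (fun s => (h s).deriv) t 0

include D in
/-- The existence theorem for cut-off functions downstairs. -/
theorem cutOff [FiniteDimensional ℝ E] [FiniteDimensional ℝ E'] (hP : IsPathConnected RP.S)
    (Wl : Wall RP.S)
    (hnt : ∀ x ∈ Wl.K, ∀ γ : C(UnitAddCircle, RN.S), (∀ t, (γ t : E) = π (Wl.σ (x, t))) →
      ¬ γ.Nullhomotopic)
    (hess : ∀ (γ : C(UnitAddCircle, RP.S)) (a : ℝ), a ≠ 0 →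
      (∀ t : ℝ, HasDerivAt (fun s : ℝ => (γ s : E')) (a • ξ (γ t)) t) → ¬ γ.Nullhomotopic) :
    CutOff b RN.S := by
  intro F hF h01 V hV hR y0 hy0 h0
  by_contra hcon
  have hFd : Differentiable ℝ F := hF.differentiable (by simp)
  have hμ := mu_smooth D.B.ξs
  obtain ⟨χ, hχ, -, hs, hχ01, hχ1⟩ := exists_bump ({1} : Set ℝ) (Ioo (1 / 2) (3 / 2))
    isCompact_singleton isOpen_Ioo (by
      rintro _ rfl
      constructor <;> norm_num)
  have hχ0 : ∀ t, t ∉ Ioo (1 / 2 : ℝ) (3 / 2) → χ t = 0 := fun t ht =>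
    image_eq_zero_of_notMem_tsupport fun h => ht (hs h)
  obtain ⟨x0, hx0, e0⟩ := D.B.onto y0.1 hy0.1
  have hd0 : D.dn (D.up (1, x0, y0.2)) = y0 := by
    rw [D.dn_up hx0 (by constructor <;> norm_num) (e0 ▸ ((RN.mem_cot y0).1 hy0).2), e0]
  refine tshift RP RN hP Wl π D.B.πs.continuous D.B.maps hnt (D.Ft F χ) (D.Ft_smooth hF hχ)
    (fun z hz => ?_) (D.up '' (Icc (1 / 2) (3 / 2) ×ˢ RP.S ×ˢ (Prod.snd '' V)))
    ((isCompact_Icc.prod (RP.compact.prod (hV.image continuous_snd))).image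
      D.up_smooth.continuous) (fun z hz h => ?_) (D.up (1, x0, y0.2)) (D.up_mem hx0 _ _) ?_
    fun z T hz hT hp => ?_
  · have h1 := h01 _ (D.dn_mem hz.1)
    have h2 := hχ01 (mu ξ z)
    unfold Ft
    constructor <;> nlinarith [mul_nonneg (sub_nonneg.2 h1.2) h2.1,
      mul_nonneg (sub_nonneg.2 h1.2) (sub_nonneg.2 h2.2)]
  · unfold Ft
    by_cases hm : mu ξ z ∈ Ioo (1 / 2 : ℝ) (3 / 2)
    · rw [hR _ (D.dn_mem hz.1) fun h' => h ⟨(mu ξ z, z.1, (D.dn z).2),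
        ⟨Ioo_subset_Icc_self hm, hz.1, _, h', rfl⟩, D.up_dn hz hm⟩]
      simp
    · simp [hχ0 _ hm]
  · have a1 : ∀ᶠ y in 𝓝 (D.up (1, x0, y0.2)), χ (mu ξ y) = 1 := by
      refine hμ.continuous.continuousAt.eventually (p := fun t => χ t = 1) ?_
      rw [D.mu_up hx0]
      simpa using hχ1
    have a2 : ∀ᶠ y in 𝓝 (D.up (1, x0, y0.2)), D.dn y ∈ Cot RN.S → F (D.dn y) = 0 := by
      refine D.dn_smooth.continuous.continuousAt.eventually
        (p := fun y => y ∈ Cot RN.S → F y = 0) ?_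
      rwa [hd0]
    filter_upwards [a1, a2] with y b1 b2 hy
    simp [Ft, b1, b2 (D.dn_mem hy.1)]
  by_cases hχz : χ (mu ξ (z 0)) = 0
  · exact Or.inl (Or.inr (by simp [Ft, hχz]))
  by_cases hF1 : F (D.dn (z 0)) = 1
  · exact Or.inl (Or.inr (by simp [Ft, hF1]))
  right
  have hmc := D.mu_const hF hχ hs hz
  have hm0 : mu ξ (z 0) ∈ Ioo (1 / 2 : ℝ) (3 / 2) := by_contra fun h => hχz (hχ0 _ h)
  have hm : ∀ t, mu ξ (z t) ∈ Ioo (1 / 2 : ℝ) (3 / 2) := fun t => by rwa [hmc]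
  have hmp : 0 < mu ξ (z 0) := by linarith [hm0.1]
  have hχp : 0 < χ (mu ξ (z 0)) := lt_of_le_of_ne (hχ01 _).1 (Ne.symm hχz)
  choose X hX ho using fun t => (hz t).2
  have hk := fun t => D.key hF hχ (hz t).1 (hm t) (orbit_tan hz (hX t)) (ho t)
  simp only [hmc] at hk
  have hy : ∀ t, HasDerivAt (fun s => D.dn (z s)) (fderiv ℝ D.dn (z t) (X t)) t := fun t =>
    (D.dn_smooth.differentiable (by simp) (z t)).hasFDerivAt.comp_hasDerivAt t (hX t)
  obtain ⟨k, hkp, hkd⟩ : ∃ k : ℝ, 0 < k ∧ mu ξ (z 0) = χ (mu ξ (z 0)) * k :=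
    ⟨mu ξ (z 0) / χ (mu ξ (z 0)), div_pos hmp hχp, by field_simp⟩
  have horb : IsOrbitM b RN.S F fun s => D.dn (z (k * s)) := fun s => by
    refine ⟨D.dn_mem (hz _).1.1, k • fderiv ℝ D.dn (z (k * s)) (X (k * s)),
      (hy (k * s)).scomp s (by simpa using (hasDerivAt_id s).const_mul k), fun w hw => ?_⟩
    have := (hk (k * s)).2.1 w hw
    rw [omegaM_smul_left]
    refine mul_left_cancel₀ hχz ?_
    rw [← mul_assoc, ← hkd, this, mul_neg]
  have hF0 : F (D.dn (z 0)) = 0 := by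
    have h1 := h01 _ (D.dn_mem (hz 0).1.1)
    by_contra hne
    refine hcon ⟨_, T / k, horb, div_pos hT hkp, fun t => ?_, ?_, ?_⟩
    · simp only [mul_add, mul_div_cancel₀ _ hkp.ne', hp]
    · simpa only [mul_zero] using lt_of_le_of_ne h1.1 (Ne.symm hne)
    · simpa only [mul_zero] using lt_of_le_of_ne h1.2 hF1
  have hFt : ∀ t, F (D.dn (z t)) = 0 := fun t => by
    have := orbitM_const (fun x hx u hu => D.B.skew hx hu) hFd horb (t / k)
    simpa only [mul_div_cancel₀ _ hkp.ne', mul_zero, hF0] using this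
  have hy0' : ∀ t, fderiv ℝ D.dn (z t) (X t) = 0 := fun t =>
    omegaM_nondeg RN b (D.dn_mem (hz t).1.1) (D.dn_tan (orbit_tan hz (hX t))) fun w hw => by
      have := (hk t).2.1 w hw
      rw [Tan.fderiv_eq_zero hw (hFd _) (Or.inl (Eventually.of_forall fun y hy => by
        rw [hFt]; exact (h01 y hy).1)), mul_zero, neg_zero] at this
      exact (mul_eq_zero.1 this).resolve_left hmp.ne'
  have hx : ∀ t, HasDerivAt (fun s => (z s).1) (-deriv χ (mu ξ (z 0)) • ξ (z t).1) t := fun t => by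
    have h1 := D.fderiv_dn_fst (z t) (X t)
    rw [hy0'] at h1
    obtain ⟨a, ha⟩ := D.B.ker _ (hz t).1.1 _ (RP.tan_cot_fst (hz t).1 (orbit_tan hz (hX t)))
      h1.symm
    have h2 := (hk t).2.2
    rw [be, ← h1, hFt, ha] at h2
    simp only [Prod.fst_zero, inner_zero_right, zero_add, inner_smul_right, D.B.one _ (hz t).1.1,
      mul_one, sub_zero, one_mul] at h2
    rw [← h2, ← ha]
    exact (hX t).fst
  refine ⟨fun t => congrArg Prod.fst (is_const_of_deriv_eq_zero (f := fun s => D.dn (z s))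
    (fun s => (hy s).differentiableAt) (fun s => by rw [(hy s).deriv, hy0']) t 0), ?_⟩
  by_cases hν : deriv χ (mu ξ (z 0)) = 0
  · exact Or.inl fun t => is_const_of_deriv_eq_zero (f := fun s => (z s).1)
      (fun s => (hx s).differentiableAt) (fun s => by rw [(hx s).deriv, hν]; simp) t 0
  · refine Or.inr fun γ hγ => hess γ (T * -deriv χ (mu ξ (z 0)))
      (mul_ne_zero hT.ne' (neg_ne_zero.2 hν)) fun t => ?_
    simp only [hγ, mul_smul]
    exact (hx (t * T)).scomp t (by simpa using (hasDerivAt_id t).mul_const T)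

end Red

end Pool.Agent.Wein
end
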