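import Mathlib

-- part Pool.Agent.P.MP_e3ee0c_gt.NilBasic
section

/-! Exponentials of nilpotent elements, polynomial curves, and a logarithm. -/

namespace Pool.Agent.P.MP_e3ee0c_gt.Nil

open NormedSpace Filter Topology

section Poly

/-- polynomial curves with values in a real vector space -/
def PF (V : Type*) [AddCommGroup V] [Module ℝ V] : Submodule ℝ (ℝ → V) :=
  Submodule.span ℝ {f | ∃ (i : ℕ) (a : V), f = fun t : ℝ => t ^ i • a}

variable {U V W : Type*} [AddCommGroup U] [Module ℝ U] [AddCommGroup V] [Module ℝ V]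
  [AddCommGroup W] [Module ℝ W]

theorem PF.mono (i : ℕ) (a : V) : (fun t : ℝ => t ^ i • a) ∈ PF V :=
  Submodule.subset_span ⟨i, a, rfl⟩

theorem PF.const (a : V) : (fun _ : ℝ => a) ∈ PF V := by
  have := PF.mono 0 a
  simpa using this

theorem PF.bilin (B : U →ₗ[ℝ] V →ₗ[ℝ] W) {f : ℝ → U} {g : ℝ → V} (hf : f ∈ PF U)
    (hg : g ∈ PF V) : (fun t => B (f t) (g t)) ∈ PF W := by
  induction hf using Submodule.span_induction with
  | mem f hf =>
    obtain ⟨i, a, rfl⟩ := hf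
    induction hg using Submodule.span_induction with
    | mem g hg =>
      obtain ⟨j, b, rfl⟩ := hg
      have : (fun t : ℝ => B (t ^ i • a) (t ^ j • b)) = fun t : ℝ => t ^ (i + j) • B a b := by
        funext t
        simp only [map_smul, LinearMap.smul_apply, smul_smul, pow_add]
        rw [mul_comm]
      rw [this]
      exact PF.mono _ _
    | zero =>
      have : (fun t : ℝ => B (t ^ i • a) ((0 : ℝ → V) t)) = 0 := by funext t; simp
      rw [this]; exact Submodule.zero_mem _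
    | add g g' _ _ h h' =>
      have : (fun t : ℝ => B (t ^ i • a) ((g + g') t)) =
          (fun t : ℝ => B (t ^ i • a) (g t)) + fun t : ℝ => B (t ^ i • a) (g' t) := by
        funext t; simp
      rw [this]; exact Submodule.add_mem _ h h'
    | smul c g _ h =>
      have : (fun t : ℝ => B (t ^ i • a) ((c • g) t)) =
          c • (fun t : ℝ => B (t ^ i • a) (g t)) := by
        funext t; simp
      rw [this]; exact Submodule.smul_mem _ _ h
  | zero =>
    have : (fun t : ℝ => B ((0 : ℝ → U) t) (g t)) = 0 := by funext t; simp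
    rw [this]; exact Submodule.zero_mem _
  | add f f' _ _ h h' =>
    have : (fun t : ℝ => B ((f + f') t) (g t)) =
        (fun t : ℝ => B (f t) (g t)) + fun t : ℝ => B (f' t) (g t) := by
      funext t; simp
    rw [this]; exact Submodule.add_mem _ h h'
  | smul c f _ h =>
    have : (fun t : ℝ => B ((c • f) t) (g t)) = c • (fun t : ℝ => B (f t) (g t)) := by
      funext t; simp
    rw [this]; exact Submodule.smul_mem _ _ h

theorem PF.lin (L : U →ₗ[ℝ] V) {f : ℝ → U} (hf : f ∈ PF U) : (fun t => L (f t)) ∈ PF V := by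
  have := PF.bilin ((LinearMap.lsmul ℝ V).flip ∘ₗ L) hf (PF.const (1 : ℝ))
  simpa using this

theorem PF.exists_poly {f : ℝ → ℝ} (hf : f ∈ PF ℝ) :
    ∃ p : Polynomial ℝ, ∀ t, f t = p.eval t := by
  induction hf using Submodule.span_induction with
  | mem f hf =>
    obtain ⟨i, a, rfl⟩ := hf
    exact ⟨Polynomial.monomial i a, fun t => by simp [mul_comm]⟩
  | zero => exact ⟨0, fun t => by simp⟩
  | add f g _ _ h h' =>
    obtain ⟨p, hp⟩ := h
    obtain ⟨q, hq⟩ := h'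
    exact ⟨p + q, fun t => by simp [hp, hq]⟩
  | smul c f _ h =>
    obtain ⟨p, hp⟩ := h
    exact ⟨Polynomial.C c * p, fun t => by simp [hp]⟩

theorem PF.const_of_bdd_real {f : ℝ → ℝ} (hf : f ∈ PF ℝ) {C : ℝ} (hC : ∀ t, |f t| ≤ C)
    (s t : ℝ) : f s = f t := by
  obtain ⟨p, hp⟩ := PF.exists_poly hf
  have hb : IsBoundedUnder (· ≤ ·) atTop fun x => |p.eval x| :=
    ⟨C, eventually_map.mpr (Eventually.of_forall fun x => by rw [← hp]; exact hC x)⟩
  have hd := (Polynomial.isBoundedUnder_abs_atTop_iff p).mp hb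
  rw [hp, hp, Polynomial.eq_C_of_degree_le_zero hd]
  simp

theorem PF.const_of_bdd {E : Type*} [NormedAddCommGroup E] [NormedSpace ℝ E] {f : ℝ → E}
    (hf : f ∈ PF E) {C : ℝ} (hC : ∀ t, ‖f t‖ ≤ C) (s t : ℝ) : f s = f t := by
  rw [SeparatingDual.eq_iff_forall_dual_eq (R := ℝ)]
  intro L
  refine PF.const_of_bdd_real (PF.lin (L : E →ₗ[ℝ] ℝ) hf) (C := ‖L‖ * C) (fun u => ?_) s t
  exact (L.le_opNorm _).trans (mul_le_mul_of_nonneg_left (hC u) (norm_nonneg _))

end Poly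

section Exp

variable {A : Type*} [NormedRing A] [NormedAlgebra ℝ A] [CompleteSpace A]

theorem exp_add' {x y : A} (h : Commute x y) : exp (x + y) = exp x * exp y := by
  let _ : NormedAlgebra ℚ A := NormedAlgebra.restrictScalars ℚ ℝ A
  exact exp_add_of_commute h

theorem exp_cont : Continuous (exp : A → A) := by
  let _ : NormedAlgebra ℚ A := NormedAlgebra.restrictScalars ℚ ℝ A
  exact exp_continuous

theorem exp_nsmul' (m : ℕ) (x : A) : exp ((m : ℝ) • x) = exp x ^ m := by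
  let _ : NormedAlgebra ℚ A := NormedAlgebra.restrictScalars ℚ ℝ A
  rw [Nat.cast_smul_eq_nsmul]
  exact exp_nsmul m x

theorem exp_semiconj {x a b : A} (h : SemiconjBy x a b) : SemiconjBy x (exp a) (exp b) := by
  let _ : NormedAlgebra ℚ A := NormedAlgebra.restrictScalars ℚ ℝ A
  exact h.exp_right

theorem exp_mul_neg (x : A) : exp x * exp (-x) = 1 := by
  rw [← exp_add' (Commute.refl x).neg_right]; simp

theorem exp_neg_mul (x : A) : exp (-x) * exp x = 1 := by
  rw [← exp_add' (Commute.refl x).neg_left]; simp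

theorem exp_smul_add (s t : ℝ) (x : A) : exp ((s + t) • x) = exp (s • x) * exp (t • x) := by
  rw [add_smul, exp_add' (((Commute.refl x).smul_left s).smul_right t)]

theorem exp_smul_mul_neg (t : ℝ) (x : A) : exp (t • x) * exp ((-t) • x) = 1 := by
  rw [← exp_smul_add]; simp

theorem exp_neg_smul_mul (t : ℝ) (x : A) : exp ((-t) • x) * exp (t • x) = 1 := by
  rw [← exp_smul_add]; simp

theorem cont_exp_smul (x : A) : Continuous fun t : ℝ => exp (t • x) :=
  exp_cont.comp (continuous_id.smul continuous_const)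

/-- conjugation commutes with the exponential -/
theorem exp_conj_of_inv {g h : A} (hgh : g * h = 1) (hhg : h * g = 1) (Y : A) :
    exp (g * Y * h) = g * exp Y * h := by
  have h1 : SemiconjBy g Y (g * Y * h) := by
    unfold SemiconjBy
    rw [mul_assoc (g * Y), hhg, mul_one]
  have h2 := exp_semiconj h1
  unfold SemiconjBy at h2
  rw [h2, mul_assoc _ g h, hgh, mul_one]

omit [CompleteSpace A] in
theorem exp_eq_sum {k : ℕ} {x : A} (hx : x ^ k = 0) :
    exp x = ∑ i ∈ Finset.range k, ((i.factorial : ℝ)⁻¹) • x ^ i := by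
  rw [exp_eq_tsum ℝ]
  apply tsum_eq_sum
  intro i hi
  rw [Finset.mem_range, not_lt] at hi
  rw [pow_eq_zero_of_le hi hx, smul_zero]

omit [CompleteSpace A] in
theorem exp_smul_eq_sum {k : ℕ} {x : A} (hx : x ^ k = 0) (t : ℝ) :
    exp (t • x) = ∑ i ∈ Finset.range k, t ^ i • ((i.factorial : ℝ)⁻¹) • x ^ i := by
  rw [exp_eq_sum (k := k) (by rw [smul_pow, hx, smul_zero])]
  refine Finset.sum_congr rfl fun i _ => ?_
  rw [smul_pow, smul_comm]

omit [CompleteSpace A] in
theorem exp_mem_PF {k : ℕ} {x : A} (hx : x ^ k = 0) : (fun t : ℝ => exp (t • x)) ∈ PF A := by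
  have : (fun t : ℝ => exp (t • x)) =
      ∑ i ∈ Finset.range k, fun t : ℝ => t ^ i • ((i.factorial : ℝ)⁻¹) • x ^ i := by
    funext t
    rw [exp_smul_eq_sum hx, Finset.sum_apply]
  rw [this]
  exact Submodule.sum_mem _ fun i _ => PF.mono _ _

omit [CompleteSpace A] in
theorem exp_neg_mem_PF {k : ℕ} {x : A} (hx : x ^ k = 0) :
    (fun t : ℝ => exp ((-t) • x)) ∈ PF A := by
  have h : (-x) ^ k = 0 := by rw [neg_pow, hx, mul_zero]
  have := exp_mem_PF h
  simpa using this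

omit [CompleteSpace A] in
theorem PF.mul {f g : ℝ → A} (hf : f ∈ PF A) (hg : g ∈ PF A) :
    (fun t => f t * g t) ∈ PF A :=
  PF.bilin (LinearMap.mul ℝ A) hf hg

/-- interpolation coefficients extracting the linear term -/
theorem exists_coeff (k : ℕ) : ∃ c : ℕ → ℝ, ∀ i < k,
    ∑ j ∈ Finset.range k, c j * (j : ℝ) ^ i = if i = 1 then 1 else 0 := by
  classical
  refine ⟨fun j => (Lagrange.basis (Finset.range k) (fun j : ℕ => (j : ℝ)) j).coeff 1,
    fun i hi => ?_⟩
  have hinj : Set.InjOn (fun j : ℕ => (j : ℝ)) (Finset.range k : Set ℕ) :=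
    fun a _ b _ h => Nat.cast_injective h
  have h := Lagrange.eq_interpolate (s := Finset.range k) (v := fun j : ℕ => (j : ℝ))
    (f := (Polynomial.X : Polynomial ℝ) ^ i) hinj (by
      rw [Polynomial.degree_X_pow, Finset.card_range]; exact_mod_cast hi)
  have h2 := congrArg (fun p : Polynomial ℝ => p.coeff 1) h
  simp only [Lagrange.interpolate_apply, Polynomial.finsetSum_coeff, Polynomial.coeff_C_mul,
    Polynomial.eval_pow, Polynomial.eval_X, Polynomial.coeff_X_pow] at h2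
  rw [show (if i = 1 then (1 : ℝ) else 0) = if 1 = i then 1 else 0 by simp [eq_comm], h2]
  exact Finset.sum_congr rfl fun j _ => mul_comm _ _

/-- a polynomial logarithm -/
theorem exists_log (k : ℕ) : ∃ L : A → A, Continuous L ∧ (∀ x : A, x ^ k = 0 → L (exp x) = x) ∧
    ∀ a g : A, Commute a g → Commute a (L g) := by
  obtain ⟨c, hc⟩ := exists_coeff (k + 2)
  refine ⟨fun g => ∑ j ∈ Finset.range (k + 2), c j • g ^ j, by fun_prop, fun x hx => ?_,
    fun a g h => ?_⟩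
  · have hx' : x ^ (k + 2) = 0 := pow_eq_zero_of_le (by omega) hx
    simp only [← exp_nsmul', exp_smul_eq_sum hx', Finset.smul_sum, smul_smul]
    rw [Finset.sum_comm]
    have : ∀ i ∈ Finset.range (k + 2),
        ∑ j ∈ Finset.range (k + 2), (c j * ((j : ℝ) ^ i * (i.factorial : ℝ)⁻¹)) • x ^ i =
          if i = 1 then x else 0 := by
      intro i hi
      rw [← Finset.sum_smul]
      simp only [← mul_assoc]
      rw [← Finset.sum_mul, hc i (Finset.mem_range.mp hi)]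
      split_ifs with h
      · subst h; simp
      · simp
    rw [Finset.sum_congr rfl this, Finset.sum_ite_eq']
    simp
  · exact Commute.sum_right _ _ _ fun j _ => (h.pow_right j).smul_right _

end Exp

theorem pow_finrank_eq_zero {A : Type*} [Ring A] [Algebra ℝ A] [FiniteDimensional ℝ A] {x : A}
    (hx : IsNilpotent x) : x ^ Module.finrank ℝ A = 0 := by
  have h1 : IsNilpotent (LinearMap.mul ℝ A x) := by
    obtain ⟨m, hm⟩ := hx
    refine ⟨m, ?_⟩
    ext a
    have : ∀ j : ℕ, ((LinearMap.mul ℝ A x) ^ j) a = x ^ j * a := by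
      intro j
      induction j with
      | zero => simp
      | succ j ih => rw [pow_succ', Module.End.mul_apply, ih, pow_succ', mul_assoc]; rfl
    rw [this, hm]; simp
  have h2 := LinearMap.aeval_self_charpoly (LinearMap.mul ℝ A x)
  rw [LinearMap.isNilpotent_iff_charpoly] at h1
  rw [h1] at h2
  simp only [map_pow, Polynomial.aeval_X] at h2
  have : ∀ j : ℕ, ((LinearMap.mul ℝ A x) ^ j) 1 = x ^ j := by
    intro j
    induction j with
    | zero => simp
    | succ j ih => rw [pow_succ', Module.End.mul_apply, ih, pow_succ']; rfl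
  rw [← this, h2]; simp

end Pool.Agent.P.MP_e3ee0c_gt.Nil
end

-- part Pool.Agent.P.MP_e3ee0c_gt.NilForm
section

/-! Calculus of a one-form on a normed space and of its exterior derivative along curves. -/

set_option maxSynthPendingDepth 3

namespace Pool.Agent.P.MP_e3ee0c_gt.Nil

open Filter Topology

variable {E : Type*} [NormedAddCommGroup E] [NormedSpace ℝ E]

/-- exterior derivative of a one-form -/
noncomputable def dA (α : E → E →L[ℝ] ℝ) (g u v : E) : ℝ :=
  fderiv ℝ α g u v - fderiv ℝ α g v u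

/-- derivative of the coefficients of the exterior derivative -/
noncomputable def ddA (α : E → E →L[ℝ] ℝ) (g a u v : E) : ℝ :=
  fderiv ℝ (fderiv ℝ α) g a u v - fderiv ℝ (fderiv ℝ α) g a v u

variable {α : E → E →L[ℝ] ℝ}

theorem dA_anti (g u v : E) : dA α g u v = -dA α g v u := by unfold dA; ring

theorem dA_self (g u : E) : dA α g u u = 0 := by unfold dA; ring

theorem dA_sub_right (g u v w : E) : dA α g u (v - w) = dA α g u v - dA α g u w := by
  unfold dA; simp only [map_sub, sub_apply]; ring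

theorem ddA_anti (g a u v : E) : ddA α g a u v = -ddA α g a v u := by unfold ddA; ring

theorem ddA_closed (hα : ContDiff ℝ 2 α) (g a b c : E) :
    ddA α g a b c + ddA α g b c a + ddA α g c a b = 0 := by
  have h : IsSymmSndFDerivAt ℝ α g := hα.contDiffAt.isSymmSndFDerivAt (by simp)
  unfold ddA
  rw [h a b, h b c, h c a]
  ring

theorem hasDerivAt_form (hα : Differentiable ℝ α) {x u : ℝ → E} {x' u' : E} {t : ℝ}
    (hx : HasDerivAt x x' t) (hu : HasDerivAt u u' t) :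
    HasDerivAt (fun s => α (x s) (u s)) (fderiv ℝ α (x t) x' (u t) + α (x t) u') t :=
  ((hα (x t)).hasFDerivAt.comp_hasDerivAt t hx).clm_apply hu

theorem hasDerivAt_dA (hα : ContDiff ℝ 2 α) {x u v : ℝ → E} {x' u' v' : E} {t : ℝ}
    (hx : HasDerivAt x x' t) (hu : HasDerivAt u u' t) (hv : HasDerivAt v v' t) :
    HasDerivAt (fun s => dA α (x s) (u s) (v s))
      (ddA α (x t) x' (u t) (v t) + dA α (x t) u' (v t) + dA α (x t) (u t) v') t := by
  have h1 : Differentiable ℝ (fderiv ℝ α) :=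
    (hα.fderiv_right (m := 1) (by norm_num)).differentiable (by norm_num)
  have h2 : HasDerivAt (fun s => fderiv ℝ α (x s)) (fderiv ℝ (fderiv ℝ α) (x t) x') t :=
    (h1 (x t)).hasFDerivAt.comp_hasDerivAt t hx
  have h3 := (h2.clm_apply hu).clm_apply hv
  have h4 := (h2.clm_apply hv).clm_apply hu
  refine (h3.sub h4).congr_deriv ?_
  simp only [dA, ddA, add_apply]
  ring

theorem continuous_dA (hα : ContDiff ℝ 2 α) {X : Type*} [TopologicalSpace X] {x u v : X → E}
    (hx : Continuous x) (hu : Continuous u) (hv : Continuous v) :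
    Continuous fun s => dA α (x s) (u s) (v s) := by
  have h1 : Continuous (fderiv ℝ α) := hα.continuous_fderiv (by norm_num)
  unfold dA
  exact (((h1.comp hx).clm_apply hu).clm_apply hv).sub (((h1.comp hx).clm_apply hv).clm_apply hu)

/-- the exterior derivative at a point as a bilinear map -/
noncomputable def dAl (α : E → E →L[ℝ] ℝ) (g : E) : E →ₗ[ℝ] E →ₗ[ℝ] ℝ :=
  LinearMap.mk₂ ℝ (dA α g)
    (fun a b c => by simp only [dA, map_add, add_apply]; ring)
    (fun c a b => by simp only [dA, map_smul, smul_apply, smul_eq_mul]; ring)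
    (fun a b c => by simp only [dA, map_add, add_apply]; ring)
    (fun c a b => by simp only [dA, map_smul, smul_apply, smul_eq_mul]; ring)

theorem dAl_apply (g u v : E) : dAl α g u v = dA α g u v := rfl

/-- differentiation under the integral sign for jointly continuous data -/
theorem hasDerivAt_param {H H' : ℝ → ℝ → ℝ} (hH : Continuous H.uncurry)
    (hH' : Continuous H'.uncurry) (hd : ∀ τ u, HasDerivAt (fun τ => H τ u) (H' τ u) τ)
    (s : ℝ) : HasDerivAt (fun τ => ∫ u in (0 : ℝ)..s, H τ u) (∫ u in (0 : ℝ)..s, H' 0 u) 0 := by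
  obtain ⟨C, hC⟩ := ((isCompact_Icc (a := (-1 : ℝ)) (b := 1)).prod
    (isCompact_uIcc (a := (0 : ℝ)) (b := s))).exists_bound_of_continuousOn hH'.continuousOn
  have hc : ∀ τ, Continuous (H τ) := fun τ => hH.comp (Continuous.prodMk_right τ)
  have hc' : ∀ τ, Continuous (H' τ) := fun τ => hH'.comp (Continuous.prodMk_right τ)
  refine (intervalIntegral.hasDerivAt_integral_of_dominated_loc_of_deriv_le
    (s := Set.Icc (-1 : ℝ) 1) (bound := fun _ => C) (Icc_mem_nhds (by norm_num) (by norm_num))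
    (Eventually.of_forall fun τ => (hc τ).aestronglyMeasurable) ((hc 0).intervalIntegrable _ _)
    (hc' 0).aestronglyMeasurable (Eventually.of_forall fun u hu τ hτ => ?_)
    (intervalIntegrable_const) (Eventually.of_forall fun u _ τ _ => hd τ u)).2
  exact hC (τ, u) ⟨hτ, Set.uIoc_subset_uIcc hu⟩

end Pool.Agent.P.MP_e3ee0c_gt.Nil
end

-- part Pool.Agent.P.MP_e3ee0c_gt.NilTime
section

/-! Time change along a periodic positive speed. -/

namespace Pool.Agent.P.MP_e3ee0c_gt.Nil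

open Filter Topology

theorem time_change_pos {h : ℝ → ℝ} (hc : Continuous h) (hpos : ∀ t, 0 < h t) {T : ℝ}
    (hT : 0 < T) (hper : ∀ t, h (t + T) = h t) :
    ∃ τ : ℝ → ℝ, τ 0 = 0 ∧ (∀ s, HasDerivAt τ (h (τ s)) s) ∧
      ∃ P > 0, ∀ s, τ (s + P) = τ s + T := by
  have hic : Continuous fun t => (h t)⁻¹ := hc.inv₀ fun t => (hpos t).ne'
  let θ : ℝ → ℝ := fun t => ∫ u in (0 : ℝ)..t, (h u)⁻¹
  have hθ : ∀ t, HasDerivAt θ (h t)⁻¹ t := fun t => (hic.integral_hasStrictDerivAt 0 t).hasDerivAt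
  have hmono : StrictMono θ := strictMono_of_deriv_pos fun t => by
    rw [(hθ t).deriv]; exact inv_pos.mpr (hpos t)
  have hθ0 : θ 0 = 0 := by simp [θ]
  have hshift : ∀ t, θ (t + T) = θ t + θ T := by
    intro t
    have hd : ∀ t, HasDerivAt (fun t => θ (t + T) - θ t) 0 t := fun t => by
      have := ((hθ (t + T)).comp_add_const t T).sub (hθ t)
      rw [hper, sub_self] at this
      exact this
    have := is_const_of_deriv_eq_zero (fun s => (hd s).differentiableAt)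
      (fun s => (hd s).deriv) t 0
    simp only [zero_add, hθ0, sub_zero] at this
    linarith
  have hP : 0 < θ T := hθ0 ▸ hmono hT
  have hcont : Continuous θ := continuous_iff_continuousAt.mpr fun t => (hθ t).continuousAt
  have hnat : ∀ (m : ℕ) (t : ℝ), θ (t + m * T) = θ t + m * θ T := by
    intro m
    induction m with
    | zero => simp
    | succ m ih =>
      intro t
      rw [show t + ((m + 1 : ℕ) : ℝ) * T = t + m * T + T by push_cast; ring, hshift, ih]
      push_cast; ring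
  have hsurj : Function.Surjective θ := by
    intro y
    obtain ⟨m, hm⟩ := exists_nat_ge (|y| / θ T)
    rw [div_le_iff₀ hP] at hm
    have h1 := hnat m 0
    have h2 := hnat m (-(m * T))
    rw [zero_add, hθ0, zero_add] at h1
    rw [neg_add_cancel, hθ0] at h2
    have hle : -(m * T) ≤ m * T := by
      have : 0 ≤ (m : ℝ) * T := by positivity
      linarith
    obtain ⟨t, -, ht⟩ := intermediate_value_Icc hle hcont.continuousOn
      (show y ∈ Set.Icc (θ (-(m * T))) (θ (m * T)) from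
        ⟨by linarith [neg_abs_le y], by linarith [le_abs_self y]⟩)
    exact ⟨t, ht⟩
  let e := hmono.orderIsoOfSurjective θ hsurj
  have he : ∀ t, e t = θ t := fun _ => rfl
  refine ⟨e.symm, ?_, fun s => ?_, θ T, hP, fun s => ?_⟩
  · rw [OrderIso.symm_apply_eq, he, hθ0]
  · have := HasDerivAt.of_local_left_inverse (f := θ) (g := e.symm) (a := s)
      e.symm.continuous.continuousAt (hθ (e.symm s)) (inv_pos.mpr (hpos _)).ne'
      (Eventually.of_forall fun y => by rw [← he, OrderIso.apply_symm_apply])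
    rwa [inv_inv] at this
  · rw [OrderIso.symm_apply_eq, he, hshift, ← he (e.symm s), OrderIso.apply_symm_apply]

theorem time_change {h : ℝ → ℝ} (hc : Continuous h) (hne : ∀ t, h t ≠ 0) {T : ℝ}
    (hT : T ≠ 0) (hper : ∀ t, h (t + T) = h t) :
    ∃ τ : ℝ → ℝ, τ 0 = 0 ∧ (∀ s, HasDerivAt τ (h (τ s)) s) ∧
      ∃ P > 0, (∀ s, τ (s + P) = τ s + T) ∨ (∀ s, τ (s + P) = τ s - T) := by
  have hper' : ∀ t, h (t + |T|) = h t := by
    intro t
    rcases abs_choice T with h1 | h1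
    · rw [h1, hper]
    · rw [h1, ← hper, neg_add_cancel_right]
  have hT' : 0 < |T| := abs_pos.mpr hT
  have hsign : (∀ t, 0 < h t) ∨ ∀ t, h t < 0 := by
    by_contra hcon
    push Not at hcon
    obtain ⟨⟨a, ha⟩, b, hb⟩ := hcon
    obtain ⟨c, hc⟩ := intermediate_value_univ a b hc (show (0 : ℝ) ∈ Set.Icc (h a) (h b) from
      ⟨ha, hb⟩)
    exact hne c hc
  rcases hsign with hpos | hneg
  · obtain ⟨τ, h0, hd, P, hP, hτ⟩ := time_change_pos hc hpos hT' hper'
    refine ⟨τ, h0, hd, P, hP, ?_⟩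
    rcases abs_choice T with h1 | h1
    · left; intro s; rw [hτ, h1]
    · right; intro s; rw [hτ, h1]; ring
  · obtain ⟨τ, h0, hd, P, hP, hτ⟩ := time_change_pos (h := fun t => -h (-t)) (by fun_prop)
      (fun t => neg_pos.mpr (hneg _)) hT' (fun t => by
        simp only [neg_add_rev, neg_inj]
        rw [← hper', add_comm (-|T|), neg_add_cancel_right])
    refine ⟨fun s => -τ s, by simp [h0], fun s => (hd s).neg.congr_deriv (neg_neg _), P, hP, ?_⟩
    rcases abs_choice T with h1 | h1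
    · right; intro s; simp only [hτ, h1]; ring
    · left; intro s; simp only [hτ, h1]; ring

end Pool.Agent.P.MP_e3ee0c_gt.Nil
end

-- part Pool.Agent.P.MP_e3ee0c_gt.NilData
section

/-! A lattice in a unipotent group and an invariant one-form. -/

set_option maxSynthPendingDepth 3
set_option linter.unusedSectionVars false

namespace Pool.Agent.P.MP_e3ee0c_gt.Nil

open NormedSpace Filter Topology

attribute [local instance 100] LieRing.ofAssociativeRing in
theorem exists_filtration {A : Type*} [Ring A] [Algebra ℝ A] [FiniteDimensional ℝ A]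
    (n : Submodule ℝ A) (hbr : ∀ Y ∈ n, ∀ Z ∈ n, Y * Z - Z * Y ∈ n)
    (hn : ∀ Y ∈ n, IsNilpotent Y) :
    ∃ (C : ℕ → Set A) (N : ℕ), (∀ Y ∈ n, Y ∈ C 0) ∧ (∀ j, ∀ Y ∈ C j, Y ∈ n) ∧
      (∀ j, ∀ Y ∈ n, ∀ Z ∈ C j, Y * Z - Z * Y ∈ C (j + 1)) ∧
      (∀ j, ∀ Z ∈ C j, -Z ∈ C j) ∧ ∀ Y ∈ C N, Y = 0 := by
  let L : LieSubalgebra ℝ A := { n with lie_mem' := fun {x y} hx hy => hbr x hx y hy }
  have hL : LieRing.IsNilpotent L := by
    rw [LieAlgebra.isNilpotent_iff_forall (R := ℝ)]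
    intro x
    exact LieAlgebra.isNilpotent_ad_of_isNilpotent (hn x x.2)
  obtain ⟨N, hN⟩ := LieModule.IsNilpotent.nilpotent ℝ L L
  refine ⟨fun j => {a | ∃ y : L, y ∈ LieModule.lowerCentralSeries ℝ L L j ∧ (y : A) = a}, N,
    fun Y hY => ⟨⟨Y, hY⟩, by simp, rfl⟩, ?_, ?_, ?_, ?_⟩
  · rintro j Y ⟨y, -, rfl⟩
    exact y.2
  · rintro j Y hY Z ⟨z, hz, rfl⟩
    refine ⟨⁅(⟨Y, hY⟩ : L), z⁆, ?_, rfl⟩
    rw [LieModule.lowerCentralSeries_succ]
    exact LieSubmodule.lie_mem_lie (LieSubmodule.mem_top _) hz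
  · rintro j Z ⟨z, hz, rfl⟩
    exact ⟨-z, neg_mem hz, rfl⟩
  · rintro Y ⟨y, hy, rfl⟩
    rw [hN, LieSubmodule.mem_bot] at hy
    rw [hy]; rfl

variable {A : Type*} [NormedRing A] [NormedAlgebra ℝ A] [FiniteDimensional ℝ A]

/-- unipotent group `exp n`, a cocompact discrete subgroup and an invariant one-form -/
structure Data (A : Type*) [NormedRing A] [NormedAlgebra ℝ A] where
  n : Submodule ℝ A
  hbr : ∀ Y ∈ n, ∀ Z ∈ n, Y * Z - Z * Y ∈ n
  hn : ∀ Y ∈ n, IsNilpotent Y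
  hmul : ∀ Y ∈ n, ∀ Z ∈ n, ∃ W ∈ n, exp Y * exp Z = exp W
  Γ : Set A
  hΓ : ∀ γ ∈ Γ, ∃ Y ∈ n, γ = exp Y
  Γmul : ∀ γ ∈ Γ, ∀ δ ∈ Γ, γ * δ ∈ Γ
  Γinv : ∀ γ ∈ Γ, ∃ δ ∈ Γ, γ * δ = 1
  disc : ∃ ε > 0, ∀ γ ∈ Γ, ‖γ - 1‖ < ε → γ = 1
  K : Set A
  hK : IsCompact K
  hKG : ∀ κ ∈ K, ∃ Y ∈ n, κ = exp Y
  cocpt : ∀ Y ∈ n, ∃ κ ∈ K, ∃ γ ∈ Γ, exp Y = κ * γ
  α : A → A →L[ℝ] ℝ
  hα : ContDiff ℝ 2 α
  hinv : ∀ g, (∃ Y ∈ n, g = exp Y) → ∀ γ ∈ Γ, ∀ Y ∈ n, α (g * γ) (Y * (g * γ)) = α g (Y * g)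
  X : A
  hX : X ∈ n
  hX0 : X ≠ 0
  hker : ∀ g, (∃ Y ∈ n, g = exp Y) → ∀ Y ∈ n,
    (∀ Z ∈ n, dA α g (Y * g) (Z * g) = 0) ↔ ∃ c : ℝ, Y = c • X

namespace Data

variable (D : Data A)

/-- the group -/
def G : Set A := {g | ∃ Y ∈ D.n, g = exp Y}

theorem cs : CompleteSpace A := FiniteDimensional.complete ℝ A

attribute [local instance] cs

theorem pow_eq {Y : A} (hY : Y ∈ D.n) : Y ^ Module.finrank ℝ A = 0 :=
  pow_finrank_eq_zero (D.hn Y hY)

/-- the logarithm -/
noncomputable def lg (A : Type*) [NormedRing A] [NormedAlgebra ℝ A] [FiniteDimensional ℝ A] :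
    A → A := (exists_log (A := A) (Module.finrank ℝ A)).choose

theorem lg_cont : Continuous (lg A) := (exists_log (A := A) (Module.finrank ℝ A)).choose_spec.1

theorem lg_exp' {Y : A} (hY : IsNilpotent Y) : lg A (exp Y) = Y :=
  (exists_log (A := A) (Module.finrank ℝ A)).choose_spec.2.1 Y (pow_finrank_eq_zero hY)

theorem lg_exp {Y : A} (hY : Y ∈ D.n) : lg A (exp Y) = Y := lg_exp' (D.hn Y hY)

theorem lg_comm {a g : A} (h : Commute a g) : Commute a (lg A g) :=
  (exists_log (A := A) (Module.finrank ℝ A)).choose_spec.2.2 a g h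

theorem lg_one : lg A 1 = 0 := by
  have := lg_exp' (A := A) (Y := 0) IsNilpotent.zero
  simpa using this

/-- the inverse on the group, as a continuous function on the algebra -/
noncomputable def iv (g : A) : A := exp (-lg A g)

theorem iv_cont : Continuous (iv : A → A) := exp_cont.comp lg_cont.neg

variable {D}

theorem exp_mem {Y : A} (hY : Y ∈ D.n) : exp Y ∈ D.G := ⟨Y, hY, rfl⟩

theorem exp_smul_mem {Y : A} (hY : Y ∈ D.n) (t : ℝ) : exp (t • Y) ∈ D.G :=
  exp_mem (D.n.smul_mem t hY)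

theorem mul_mem {g h : A} (hg : g ∈ D.G) (hh : h ∈ D.G) : g * h ∈ D.G := by
  obtain ⟨Y, hY, rfl⟩ := hg
  obtain ⟨Z, hZ, rfl⟩ := hh
  exact D.hmul Y hY Z hZ

theorem one_mem : (1 : A) ∈ D.G := ⟨0, D.n.zero_mem, by simp⟩

theorem lg_mem {g : A} (hg : g ∈ D.G) : lg A g ∈ D.n := by
  obtain ⟨Y, hY, rfl⟩ := hg
  rwa [D.lg_exp hY]

theorem exp_lg {g : A} (hg : g ∈ D.G) : exp (lg A g) = g := by
  obtain ⟨Y, hY, rfl⟩ := hg
  rw [D.lg_exp hY]

theorem iv_mem {g : A} (hg : g ∈ D.G) : iv g ∈ D.G := exp_mem (neg_mem (lg_mem hg))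

theorem mul_iv {g : A} (hg : g ∈ D.G) : g * iv g = 1 := by
  have := exp_mul_neg (lg A g)
  rwa [exp_lg hg] at this

theorem iv_mul {g : A} (hg : g ∈ D.G) : iv g * g = 1 := by
  have := exp_neg_mul (lg A g)
  rwa [exp_lg hg] at this

theorem eq_iv {g h : A} (hg : g ∈ D.G) (h1 : g * h = 1) : h = iv g := by
  rw [← one_mul h, ← iv_mul hg, mul_assoc, h1, mul_one]

theorem Γ_sub {γ : A} (h : γ ∈ D.Γ) : γ ∈ D.G := D.hΓ γ h

theorem K_sub {κ : A} (h : κ ∈ D.K) : κ ∈ D.G := D.hKG κ h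

theorem iv_memΓ {γ : A} (h : γ ∈ D.Γ) : iv γ ∈ D.Γ := by
  obtain ⟨δ, hδ, h1⟩ := D.Γinv γ h
  rwa [← eq_iv (Γ_sub h) h1]

theorem decomp {g : A} (hg : g ∈ D.G) : ∃ κ ∈ D.K, ∃ γ ∈ D.Γ, g = κ * γ := by
  obtain ⟨Y, hY, rfl⟩ := hg
  exact D.cocpt Y hY

theorem conj_mem {g h Y : A} (hg : g ∈ D.G) (hgh : g * h = 1) (hY : Y ∈ D.n) :
    g * Y * h ∈ D.n := by
  have hh := eq_iv hg hgh
  subst hh
  have h1 : exp (g * Y * iv g) ∈ D.G := by
    rw [exp_conj_of_inv (mul_iv hg) (iv_mul hg)]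
    exact mul_mem (mul_mem hg (exp_mem hY)) (iv_mem hg)
  have h2 : IsNilpotent (g * Y * iv g) := by
    obtain ⟨m, hm⟩ := D.hn Y hY
    refine ⟨m + 1, ?_⟩
    have : ∀ j : ℕ, (g * Y * iv g) ^ (j + 1) = g * Y ^ (j + 1) * iv g := by
      intro j
      induction j with
      | zero => simp
      | succ j ih =>
        rw [pow_succ, ih, pow_succ Y (j + 1)]
        simp only [mul_assoc]
        rw [← mul_assoc (iv g) g, iv_mul hg, one_mul]
    rw [this, pow_succ, hm]; simp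
  have := lg_mem h1
  rwa [lg_exp' h2] at this

theorem comm_of_central {W g : A} (hW : ∀ Y ∈ D.n, Commute W Y) (hg : g ∈ D.G) :
    Commute W g := by
  obtain ⟨Y, hY, rfl⟩ := hg
  exact (hW Y hY).exp_right

/-- a continuous invariant function is bounded on the group -/
theorem bdd_of_inv {f : A → ℝ} (hf : Continuous f)
    (hi : ∀ g ∈ D.G, ∀ γ ∈ D.Γ, f (g * γ) = f g) : ∃ C, ∀ g ∈ D.G, |f g| ≤ C := by
  obtain ⟨C, hC⟩ := D.hK.exists_bound_of_continuousOn hf.continuousOn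
  refine ⟨C, fun g hg => ?_⟩
  obtain ⟨κ, hκ, γ, hγ, rfl⟩ := decomp hg
  rw [hi κ (K_sub hκ) γ hγ]
  exact hC κ hκ

variable (D)

/-- components of the form in the invariant frame -/
noncomputable def a (Y g : A) : ℝ := D.α g (Y * g)

/-- components of the exterior derivative in the invariant frame -/
noncomputable def ω (Y Z g : A) : ℝ := dA D.α g (Y * g) (Z * g)

/-- derivative of the component `a Z` along `Y` -/
noncomputable def da (Y Z g : A) : ℝ := fderiv ℝ D.α g (Y * g) (Z * g) + D.α g (Z * (Y * g))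

theorem diff : Differentiable ℝ D.α := D.hα.differentiable (by norm_num)

theorem a_cont (Y : A) : Continuous (D.a Y) := by
  unfold a
  exact D.hα.continuous.clm_apply (by fun_prop)

theorem ω_cont (Y Z : A) : Continuous (D.ω Y Z) :=
  continuous_dA D.hα continuous_id (by fun_prop) (by fun_prop)

theorem da_cont (Y Z : A) : Continuous (D.da Y Z) := by
  have h1 : Continuous (fderiv ℝ D.α) := D.hα.continuous_fderiv (by norm_num)
  unfold da
  exact ((h1.clm_apply (by fun_prop)).clm_apply (by fun_prop)).add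
    (D.hα.continuous.clm_apply (by fun_prop))

theorem hasDerivAt_flow (Y g : A) (t : ℝ) :
    HasDerivAt (fun s : ℝ => exp (s • Y) * g) (Y * (exp (t • Y) * g)) t := by
  have := (hasDerivAt_exp_smul_const' (𝕂 := ℝ) Y t).mul_const g
  rwa [mul_assoc] at this

theorem hasDerivAt_a (Y Z g : A) (t : ℝ) :
    HasDerivAt (fun s : ℝ => D.a Z (exp (s • Y) * g)) (D.da Y Z (exp (t • Y) * g)) t :=
  hasDerivAt_form D.diff (hasDerivAt_flow Y g t) ((hasDerivAt_flow Y g t).const_mul Z)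

theorem ω_eq (Y Z g : A) : D.ω Y Z g = D.da Y Z g - D.da Z Y g + D.a (Y * Z - Z * Y) g := by
  simp only [ω, da, a, dA, sub_mul, map_sub, mul_assoc]
  ring

variable {D}

theorem a_inv {Y g γ : A} (hY : Y ∈ D.n) (hg : g ∈ D.G) (hγ : γ ∈ D.Γ) :
    D.a Y (g * γ) = D.a Y g := D.hinv g hg γ hγ Y hY

theorem da_inv {Y Z g γ : A} (hY : Y ∈ D.n) (hZ : Z ∈ D.n) (hg : g ∈ D.G) (hγ : γ ∈ D.Γ) :
    D.da Y Z (g * γ) = D.da Y Z g := by
  have h1 := D.hasDerivAt_a Y Z (g * γ) 0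
  have h2 := D.hasDerivAt_a Y Z g 0
  have h3 : (fun s : ℝ => D.a Z (exp (s • Y) * (g * γ))) =
      fun s : ℝ => D.a Z (exp (s • Y) * g) := by
    funext s
    rw [← mul_assoc, a_inv hZ (mul_mem (exp_smul_mem hY s) hg) hγ]
  rw [h3] at h1
  simpa using h1.unique h2

theorem ω_inv {Y Z g γ : A} (hY : Y ∈ D.n) (hZ : Z ∈ D.n) (hg : g ∈ D.G) (hγ : γ ∈ D.Γ) :
    D.ω Y Z (g * γ) = D.ω Y Z g := by
  rw [ω_eq, ω_eq, da_inv hY hZ hg hγ, da_inv hZ hY hg hγ, a_inv (D.hbr Y hY Z hZ) hg hγ]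

theorem ω_X {Z g : A} (hZ : Z ∈ D.n) (hg : g ∈ D.G) : D.ω D.X Z g = 0 :=
  (D.hker g hg D.X D.hX).mpr ⟨1, by simp⟩ Z hZ

/-- the derivative of the kernel condition -/
theorem ker_deriv {Y Z g : A} (hY : Y ∈ D.n) (hZ : Z ∈ D.n) (hg : g ∈ D.G) :
    ddA D.α g (Y * g) (D.X * g) (Z * g) + dA D.α g (D.X * (Y * g)) (Z * g) +
      dA D.α g (D.X * g) (Z * (Y * g)) = 0 := by
  have h1 := hasDerivAt_dA D.hα (hasDerivAt_flow Y g 0) ((hasDerivAt_flow Y g 0).const_mul D.X)
    ((hasDerivAt_flow Y g 0).const_mul Z)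
  have h2 : (fun s : ℝ => dA D.α (exp (s • Y) * g) (D.X * (exp (s • Y) * g))
      (Z * (exp (s • Y) * g))) = fun _ => 0 := by
    funext s
    exact ω_X hZ (mul_mem (exp_smul_mem hY s) hg)
  rw [h2] at h1
  simpa using h1.unique (hasDerivAt_const _ _)

/-- the Lie derivative of the exterior derivative along `X` vanishes -/
theorem lie_deriv {Y Z g : A} (hY : Y ∈ D.n) (hZ : Z ∈ D.n) (hg : g ∈ D.G) :
    ddA D.α g (D.X * g) (Y * g) (Z * g) + dA D.α g (D.X * (Y * g)) (Z * g) +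
      dA D.α g (Y * g) (D.X * (Z * g)) = 0 := by
  have h1 := ker_deriv hY hZ hg
  have h2 := ker_deriv hZ hY hg
  have h3 := ddA_closed D.hα g (D.X * g) (Y * g) (Z * g)
  have h4 := ω_X (D.hbr Y hY Z hZ) hg
  rw [ω, sub_mul, dA_sub_right, mul_assoc, mul_assoc] at h4
  have h5 := ddA_anti (α := D.α) g (Y * g) (Z * g) (D.X * g)
  have h6 := dA_anti (α := D.α) g (Y * g) (D.X * (Z * g))
  linarith

/-- the flow of `X` preserves the exterior derivative -/
theorem flow_inv {Y Z g : A} (hY : Y ∈ D.n) (hZ : Z ∈ D.n) (hg : g ∈ D.G) (t : ℝ) :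
    dA D.α (exp (t • D.X) * g) (exp (t • D.X) * (Y * g)) (exp (t • D.X) * (Z * g)) =
      D.ω Y Z g := by
  have hd : ∀ s : ℝ, HasDerivAt (fun t : ℝ => dA D.α (exp (t • D.X) * g)
      (exp (t • D.X) * (Y * g)) (exp (t • D.X) * (Z * g))) 0 s := by
    intro s
    have h1 := hasDerivAt_dA D.hα (hasDerivAt_flow D.X g s) (hasDerivAt_flow D.X (Y * g) s)
      (hasDerivAt_flow D.X (Z * g) s)
    have key : ∀ U : A, exp (s • D.X) * (U * g) =
        exp (s • D.X) * U * exp ((-s) • D.X) * (exp (s • D.X) * g) := by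
      intro U
      rw [mul_assoc _ (exp ((-s) • D.X)), ← mul_assoc (exp ((-s) • D.X)), exp_neg_smul_mul,
        one_mul, mul_assoc]
    have h2 := lie_deriv (conj_mem (exp_smul_mem D.hX s) (exp_smul_mul_neg s D.X) hY)
      (conj_mem (exp_smul_mem D.hX s) (exp_smul_mul_neg s D.X) hZ)
      (mul_mem (exp_smul_mem D.hX s) hg)
    rw [← key, ← key] at h2
    exact h1.congr_deriv h2
  have := is_const_of_deriv_eq_zero (fun s => (hd s).differentiableAt) (fun s => (hd s).deriv) t 0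
  simpa [ω] using this

end Data

end Pool.Agent.P.MP_e3ee0c_gt.Nil
end

-- part Pool.Agent.P.MP_e3ee0c_gt.NilMain
section

/-! The characteristic direction is central and rational. -/

set_option maxSynthPendingDepth 3
set_option linter.unusedSectionVars false

namespace Pool.Agent.P.MP_e3ee0c_gt.Nil.Data

open NormedSpace Filter Topology

variable {A : Type*} [NormedRing A] [NormedAlgebra ℝ A] [FiniteDimensional ℝ A] {D : Data A}

attribute [local instance] cs

variable (D) in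
/-- left multiplication by `h` fixes all components of the exterior derivative -/
def Fix (h : A) : Prop := ∀ g ∈ D.G, ∀ Y ∈ D.n, ∀ Z ∈ D.n, D.ω Y Z (h * g) = D.ω Y Z g

variable (D) in
/-- the one-parameter group of `W` fixes all components -/
def S (W : A) : Prop := W ∈ D.n ∧ ∀ t : ℝ, D.Fix (exp (t • W))

theorem ω_bdd {Y Z : A} (hY : Y ∈ D.n) (hZ : Z ∈ D.n) : ∃ C, ∀ g ∈ D.G, |D.ω Y Z g| ≤ C :=
  bdd_of_inv (D.ω_cont Y Z) fun _ hg _ hγ => ω_inv hY hZ hg hγ

theorem a_bdd {Y : A} (hY : Y ∈ D.n) : ∃ C, ∀ g ∈ D.G, |D.a Y g| ≤ C :=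
  bdd_of_inv (D.a_cont Y) fun _ hg _ hγ => a_inv hY hg hγ

theorem S_X : D.S D.X := by
  refine ⟨D.hX, fun t g hg Y hY Z hZ => ?_⟩
  have key : ∀ s : ℝ, D.ω Y Z (exp (s • D.X) * g) =
      dAl D.α g (exp ((-s) • D.X) * Y * exp (s • D.X) * g)
        (exp ((-s) • D.X) * Z * exp (s • D.X) * g) := by
    intro s
    have h := flow_inv (conj_mem (exp_smul_mem D.hX (-s)) (exp_neg_smul_mul s D.X) hY)
      (conj_mem (exp_smul_mem D.hX (-s)) (exp_neg_smul_mul s D.X) hZ) hg s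
    have e : ∀ U : A, exp (s • D.X) * (exp ((-s) • D.X) * U * exp (s • D.X) * g) =
        U * (exp (s • D.X) * g) := by
      intro U
      simp only [← mul_assoc]
      rw [exp_smul_mul_neg, one_mul]
    rw [e, e] at h
    exact h
  have hp : (fun s : ℝ => D.ω Y Z (exp (s • D.X) * g)) ∈ PF ℝ := by
    simp only [key]
    have hU : ∀ U : A, (fun s : ℝ => exp ((-s) • D.X) * U * exp (s • D.X) * g) ∈ PF A :=
      fun U => PF.mul (PF.mul (PF.mul (exp_neg_mem_PF (D.pow_eq D.hX)) (PF.const U))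
        (exp_mem_PF (D.pow_eq D.hX))) (PF.const g)
    exact PF.bilin _ (hU Y) (hU Z)
  obtain ⟨C, hC⟩ := ω_bdd hY hZ
  have := PF.const_of_bdd_real hp (C := C)
    (fun s => hC _ (mul_mem (exp_smul_mem D.hX s) hg)) t 0
  simpa using this

theorem conj_eq {Y0 Y : A} (hc : Commute Y0 (Y0 * Y - Y * Y0)) (t : ℝ) :
    exp (t • Y0) * Y * exp ((-t) • Y0) = Y + t • (Y0 * Y - Y * Y0) := by
  have hd : ∀ s : ℝ, HasDerivAt (fun t : ℝ => exp (t • Y0) * Y * exp (t • (-Y0)) -
      t • (Y0 * Y - Y * Y0)) 0 s := by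
    intro s
    have h1 := ((hasDerivAt_exp_smul_const (𝕂 := ℝ) Y0 s).mul_const Y).mul
      (hasDerivAt_exp_smul_const' (𝕂 := ℝ) (-Y0) s)
    have h2 := (hasDerivAt_id s).smul_const (Y0 * Y - Y * Y0)
    refine (h1.sub h2).congr_deriv ?_
    have h3 : Commute (exp (s • Y0)) (Y0 * Y - Y * Y0) := (hc.smul_left s).exp_left
    have h4 : exp (s • Y0) * exp (s • (-Y0)) = 1 := by
      rw [smul_neg, exp_mul_neg]
    have h5 : exp (s • Y0) * (Y0 * Y - Y * Y0) * exp (s • (-Y0)) = Y0 * Y - Y * Y0 := by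
      rw [h3.eq, mul_assoc, h4, mul_one]
    rw [one_smul, ← h5]
    noncomm_ring
  have := is_const_of_deriv_eq_zero (fun s => (hd s).differentiableAt) (fun s => (hd s).deriv) t 0
  simp only [zero_smul, exp_zero, one_mul, mul_one, sub_zero] at this
  rw [neg_smul, ← smul_neg]
  exact sub_eq_iff_eq_add.mp this

/-- the Mautner step -/
theorem mautner {Y0 Y : A} (h0 : D.S Y0) (hY : Y ∈ D.n)
    (hc : Commute Y0 (Y0 * Y - Y * Y0)) : D.S (Y0 * Y - Y * Y0) := by
  refine ⟨D.hbr Y0 h0.1 Y hY, fun c g hg U hU V hV => ?_⟩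
  set W := Y0 * Y - Y * Y0 with hW
  let s : ℕ → ℝ := fun m => 1 / ((m : ℝ) + 1)
  have hs : Tendsto s atTop (𝓝 0) := tendsto_one_div_add_atTop_nhds_zero_nat
  let t : ℕ → ℝ := fun m => c * ((m : ℝ) + 1)
  have hst : ∀ m, s m * t m = c := fun m => by
    simp only [s, t]; field_simp
  have hdec : ∀ m, ∃ κ ∈ D.K, ∃ γ ∈ D.Γ, exp ((-t m) • Y0) * g = κ * γ :=
    fun m => decomp (mul_mem (exp_smul_mem h0.1 _) hg)
  choose κ hκ γ hγ hκγ using hdec
  have e1 : ∀ m, D.ω U V (κ m) = D.ω U V g := fun m => by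
    rw [← ω_inv hU hV (K_sub (hκ m)) (hγ m), ← hκγ, h0.2 _ g hg U hU V hV]
  have e2 : ∀ m, D.ω U V (exp (s m • Y + c • W) * g) = D.ω U V (exp (s m • Y) * κ m) := by
    intro m
    have h1 : s m • Y + c • W = exp (t m • Y0) * (s m • Y) * exp ((-t m) • Y0) := by
      rw [mul_smul_comm, smul_mul_assoc, conj_eq hc, smul_add, smul_smul, hst]
    rw [h1, exp_conj_of_inv (exp_smul_mul_neg _ _) (exp_neg_smul_mul _ _), mul_assoc, hκγ,
      mul_assoc, h0.2 _ _ (mul_mem (exp_smul_mem hY _) (mul_mem (K_sub (hκ m)) (Γ_sub (hγ m))))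
        U hU V hV, ← mul_assoc, ω_inv hU hV (mul_mem (exp_smul_mem hY _) (K_sub (hκ m))) (hγ m)]
  obtain ⟨k, -, φ, hφ, hk⟩ := D.hK.tendsto_subseq hκ
  have hsφ : Tendsto (s ∘ φ) atTop (𝓝 0) := hs.comp hφ.tendsto_atTop
  have l1 : Tendsto (fun m => D.ω U V (κ (φ m))) atTop (𝓝 (D.ω U V k)) :=
    ((D.ω_cont U V).tendsto k).comp hk
  have l1' : D.ω U V k = D.ω U V g := by
    simp only [e1] at l1
    exact tendsto_nhds_unique l1 tendsto_const_nhds
  have l2 : Tendsto (fun m => D.ω U V (exp (s (φ m) • Y) * κ (φ m))) atTop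
      (𝓝 (D.ω U V (exp ((0 : ℝ) • Y) * k))) :=
    ((D.ω_cont U V).tendsto _).comp ((((cont_exp_smul Y).tendsto 0).comp hsφ).mul hk)
  have l3 : Tendsto (fun m => D.ω U V (exp (s (φ m) • Y + c • W) * g)) atTop
      (𝓝 (D.ω U V (exp ((0 : ℝ) • Y + c • W) * g))) :=
    ((D.ω_cont U V).tendsto _).comp
      (((exp_cont.tendsto _).comp ((hsφ.smul_const Y).add_const _)).mul_const g)
  simp only [e2] at l3
  have := tendsto_nhds_unique l3 l2
  simp only [zero_smul, zero_add, exp_zero, one_mul] at this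
  rw [this, l1']

theorem exists_central : ∃ W, D.S W ∧ W ≠ 0 ∧ ∀ Y ∈ D.n, Commute W Y := by
  obtain ⟨C, N, h0, hn, hbr, hneg, hN⟩ := exists_filtration D.n D.hbr D.hn
  by_contra hcon
  push Not at hcon
  have step : ∀ j, ∃ W, D.S W ∧ W ≠ 0 ∧ W ∈ C j := by
    intro j
    induction j with
    | zero => exact ⟨D.X, S_X, D.hX0, h0 _ D.hX⟩
    | succ j ih =>
      obtain ⟨W, hW, hW0, hWj⟩ := ih
      have inner : ∃ Y ∈ D.n, W * Y - Y * W ≠ 0 ∧ Commute W (W * Y - Y * W) := by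
        by_contra hc
        push Not at hc
        have : ∀ i, ∃ Y ∈ C i, W * Y - Y * W ≠ 0 := by
          intro i
          induction i with
          | zero =>
            obtain ⟨Y, hY, hYc⟩ := hcon W hW hW0
            exact ⟨Y, h0 Y hY, fun h => hYc (sub_eq_zero.mp h)⟩
          | succ i ih =>
            obtain ⟨Y, hY, hYc⟩ := ih
            exact ⟨_, hbr i W hW.1 Y hY, fun h => hc Y (hn i Y hY) hYc (sub_eq_zero.mp h)⟩
        obtain ⟨Y, hY, hYc⟩ := this N
        rw [hN Y hY] at hYc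
        simp at hYc
      obtain ⟨Y, hY, hne, hc⟩ := inner
      refine ⟨_, mautner hW hY hc, hne, ?_⟩
      have := hneg _ _ (hbr j Y hY W hWj)
      rwa [neg_sub] at this
  obtain ⟨W, -, hW0, hWN⟩ := step N
  exact hW0 (hN W hWN)

/-- a central invariant direction is characteristic -/
theorem central_par {W : A} (hW : D.S W) (hc : ∀ Y ∈ D.n, Commute W Y) :
    ∃ c : ℝ, W = c • D.X := by
  have hKne : D.K.Nonempty := by
    obtain ⟨κ, hκ, -⟩ := decomp (one_mem (D := D))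
    exact ⟨κ, hκ⟩
  have hcE : ∀ (u : ℝ) {g : A}, g ∈ D.G → Commute (exp (u • W)) g := fun u g hg =>
    ((comm_of_central hc hg).smul_left u).exp_left
  have main : ∀ s : ℝ, ∃ y ∈ D.K, ∀ Y ∈ D.n,
      D.a Y (exp (s • W) * y) - D.a Y y = s * D.ω W Y y := by
    intro s
    let M : A → ℝ := fun y => ∫ u in (0 : ℝ)..s, D.a W (exp (u • W) * y)
    have hM : Continuous M := by
      apply intervalIntegral.continuous_parametric_intervalIntegral_of_continuous'
      exact (D.a_cont W).comp (((cont_exp_smul W).comp continuous_snd).mul continuous_fst)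
    obtain ⟨y, hy, hmax⟩ := D.hK.exists_isMaxOn hKne hM.continuousOn
    have hyG := K_sub hy
    have hmaxG : ∀ g ∈ D.G, M g ≤ M y := by
      intro g hg
      obtain ⟨κ, hκ, γ, hγ, rfl⟩ := decomp hg
      have : M (κ * γ) = M κ := by
        simp only [M]
        congr 1
        funext u
        rw [← mul_assoc, a_inv hW.1 (mul_mem (exp_smul_mem hW.1 u) (K_sub hκ)) hγ]
      rw [this]
      exact hmax hκ
    refine ⟨y, hy, fun Y hY => ?_⟩
    have hd := hasDerivAt_param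
      (H := fun τ u => D.a W (exp (τ • Y) * (exp (u • W) * y)))
      (H' := fun τ u => D.da Y W (exp (τ • Y) * (exp (u • W) * y)))
      ((D.a_cont W).comp (((cont_exp_smul Y).comp continuous_fst).mul
        (((cont_exp_smul W).comp continuous_snd).mul continuous_const)))
      ((D.da_cont Y W).comp (((cont_exp_smul Y).comp continuous_fst).mul
        (((cont_exp_smul W).comp continuous_snd).mul continuous_const)))
      (fun τ u => D.hasDerivAt_a Y W _ τ) s
    have hloc : IsLocalMax (fun τ : ℝ => ∫ u in (0 : ℝ)..s,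
        D.a W (exp (τ • Y) * (exp (u • W) * y))) 0 := by
      refine Eventually.of_forall fun τ => ?_
      have h1 : (∫ u in (0 : ℝ)..s, D.a W (exp (τ • Y) * (exp (u • W) * y))) =
          M (exp (τ • Y) * y) := by
        simp only [M]
        congr 1
        funext u
        rw [← mul_assoc, ← mul_assoc, (hcE u (exp_smul_mem hY τ)).eq]
      simp only [h1, zero_smul, exp_zero, one_mul]
      exact hmaxG _ (mul_mem (exp_smul_mem hY τ) hyG)
    have hz := hloc.hasDerivAt_eq_zero hd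
    simp only [zero_smul, exp_zero, one_mul] at hz
    have hcont : Continuous fun u : ℝ => exp (u • W) * y := (cont_exp_smul W).mul continuous_const
    have hftc := intervalIntegral.integral_eq_sub_of_hasDerivAt (a := 0) (b := s)
      (f := fun u : ℝ => D.a Y (exp (u • W) * y))
      (f' := fun u : ℝ => D.da W Y (exp (u • W) * y))
      (fun u _ => D.hasDerivAt_a W Y y u) (((D.da_cont W Y).comp hcont).intervalIntegrable _ _)
    have hpt : ∀ u : ℝ, D.da W Y (exp (u • W) * y) =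
        D.ω W Y y + D.da Y W (exp (u • W) * y) := by
      intro u
      have h1 := D.ω_eq W Y (exp (u • W) * y)
      rw [(hc Y hY).eq, sub_self, hW.2 u y hyG W hW.1 Y hY] at h1
      have h2 : D.a 0 (exp (u • W) * y) = 0 := by simp [a]
      rw [h2] at h1
      linarith
    simp only [hpt, zero_smul, exp_zero, one_mul] at hftc
    have hci : IntervalIntegrable (fun u : ℝ => D.da Y W (exp (u • W) * y))
        MeasureTheory.volume 0 s := ((D.da_cont Y W).comp hcont).intervalIntegrable _ _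
    rw [intervalIntegral.integral_add intervalIntegrable_const hci, hz] at hftc
    simp only [intervalIntegral.integral_const, sub_zero, smul_eq_mul, add_zero] at hftc
    exact hftc.symm
  choose y hy hyE using fun m : ℕ => main ((m : ℝ) + 1)
  obtain ⟨k, hk, φ, hφ, hlim⟩ := D.hK.tendsto_subseq hy
  refine (D.hker k (K_sub hk) W hW.1).mp fun Y hY => ?_
  obtain ⟨C, hC⟩ := a_bdd hY
  have l1 : Tendsto (fun m => D.ω W Y (y (φ m))) atTop (𝓝 (D.ω W Y k)) :=
    ((D.ω_cont W Y).tendsto k).comp hlim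
  have l2 : Tendsto (fun m => D.ω W Y (y m)) atTop (𝓝 0) := by
    have hb : Tendsto (fun m : ℕ => 2 * C * (1 / ((m : ℝ) + 1))) atTop (𝓝 0) := by
      simpa using (tendsto_one_div_add_atTop_nhds_zero_nat (𝕜 := ℝ)).const_mul (2 * C)
    refine squeeze_zero_norm (fun m => ?_) hb
    have h1 := hyE m Y hY
    have h2 := hC _ (mul_mem (exp_smul_mem hW.1 ((m : ℝ) + 1)) (K_sub (hy m)))
    have h3 := hC _ (K_sub (hy m))
    have hm : (0 : ℝ) < (m : ℝ) + 1 := by positivity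
    rw [Real.norm_eq_abs, mul_one_div, le_div_iff₀ hm, ← abs_of_pos hm, ← abs_mul, mul_comm,
      ← h1]
    exact (abs_sub _ _).trans (by linarith)
  exact tendsto_nhds_unique l1 (l2.comp hφ.tendsto_atTop)

theorem X_central : ∀ Y ∈ D.n, Commute D.X Y := by
  obtain ⟨W, hW, hW0, hc⟩ := exists_central (D := D)
  obtain ⟨c, rfl⟩ := central_par hW hc
  have hc0 : c ≠ 0 := fun h => hW0 (by simp [h])
  intro Y hY
  have := (hc Y hY).smul_left c⁻¹
  rwa [smul_smul, inv_mul_cancel₀ hc0, one_smul] at this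

theorem expX_comm (t : ℝ) {g : A} (hg : g ∈ D.G) : Commute (exp (t • D.X)) g :=
  ((comm_of_central X_central hg).smul_left t).exp_left

/-- an element of the group commuting with the lattice is central -/
theorem central_of_commΓ {g : A} (hc : ∀ γ ∈ D.Γ, Commute g γ) {Y : A} (hY : Y ∈ D.n) :
    Commute g Y := by
  have hp : (fun t : ℝ => exp (t • Y) * g * exp ((-t) • Y)) ∈ PF A :=
    PF.mul (PF.mul (exp_mem_PF (D.pow_eq hY)) (PF.const g)) (exp_neg_mem_PF (D.pow_eq hY))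
  have hcont : Continuous fun κ : A => κ * g * iv κ :=
    (continuous_id.mul continuous_const).mul iv_cont
  obtain ⟨C, hC⟩ := D.hK.exists_bound_of_continuousOn hcont.continuousOn
  have hb : ∀ t : ℝ, ‖exp (t • Y) * g * exp ((-t) • Y)‖ ≤ C := by
    intro t
    obtain ⟨κ, hκ, γ, hγ, h⟩ := decomp (exp_smul_mem hY t)
    have h1 : γ * exp ((-t) • Y) = iv κ := by
      apply eq_iv (K_sub hκ)
      rw [← mul_assoc, ← h, exp_smul_mul_neg]
    rw [h, mul_assoc κ γ g, ← (hc γ hγ).eq, ← mul_assoc, mul_assoc _ γ, h1]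
    exact hC κ hκ
  have h1 := PF.const_of_bdd hp hb 1 0
  simp only [one_smul, neg_zero, zero_smul, exp_zero, one_mul, mul_one] at h1
  have h2 : Commute g (exp Y) := by
    have h3 := exp_neg_smul_mul 1 Y
    rw [one_smul] at h3
    unfold Commute SemiconjBy
    calc g * exp Y = exp Y * g * exp ((-1 : ℝ) • Y) * exp Y := by rw [h1]
      _ = exp Y * g := by rw [mul_assoc _ _ (exp Y), h3, mul_one]
  have := lg_comm h2
  rwa [D.lg_exp hY] at this

theorem exists_finite : ∃ s : Finset A, (∀ γ ∈ s, γ ∈ D.Γ) ∧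
    ∀ g : A, (∀ γ ∈ s, Commute g γ) → ∀ γ ∈ D.Γ, Commute g γ := by
  obtain ⟨s, hs, hspan⟩ := (Submodule.fg_span_iff_fg_span_finset_subset (R := ℝ) D.Γ).mp
    (IsNoetherian.noetherian _)
  refine ⟨s, fun γ hγ => hs hγ, fun g hg γ hγ => ?_⟩
  have h1 : γ ∈ Submodule.span ℝ (s : Set A) := hspan ▸ Submodule.subset_span hγ
  clear hγ
  induction h1 using Submodule.span_induction with
  | mem x hx => exact hg x hx
  | zero => exact Commute.zero_right g
  | add x y _ _ hx hy => exact hx.add_right hy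
  | smul c x _ hx => exact hx.smul_right c

theorem Fix.pow {h : A} (hh : h ∈ D.G) (hf : D.Fix h) (m : ℕ) : D.Fix (h ^ m) := by
  induction m with
  | zero => intro g _ Y _ Z _; simp
  | succ m ih =>
    intro g hg Y hY Z hZ
    rw [pow_succ, mul_assoc, ih _ (mul_mem hh hg) Y hY Z hZ, hf g hg Y hY Z hZ]

theorem Fix.mul {h h' : A} (hh : h' ∈ D.G) (hf : D.Fix h) (hf' : D.Fix h') : D.Fix (h * h') := by
  intro g hg Y hY Z hZ
  rw [mul_assoc, hf _ (mul_mem hh hg) Y hY Z hZ, hf' g hg Y hY Z hZ]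

/-- small central elements fixing the components produce a central invariant line -/
theorem limit_line (φ : A →L[ℝ] ℝ) {u : ℕ → A} (hu : ∀ i, u i ∈ D.n) (hu0 : ∀ i, u i ≠ 0)
    (hc : ∀ i, ∀ Y ∈ D.n, Commute (u i) Y) (hφ : ∀ i, φ (u i) = 0)
    (hf : ∀ i, D.Fix (exp (u i))) (hlim : Tendsto u atTop (𝓝 0)) :
    ∃ W, D.S W ∧ W ≠ 0 ∧ φ W = 0 ∧ ∀ Y ∈ D.n, Commute W Y := by
  have : ProperSpace A := FiniteDimensional.proper_real A
  let w : ℕ → A := fun i => ‖u i‖⁻¹ • u i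
  have hw : ∀ i, w i ∈ Metric.sphere (0 : A) 1 := fun i => by
    simp only [w, mem_sphere_iff_norm, sub_zero, norm_smul, norm_inv, norm_norm]
    exact inv_mul_cancel₀ (norm_ne_zero_iff.mpr (hu0 i))
  obtain ⟨W, hW, ψ, hψ, hl⟩ := (isCompact_sphere (0 : A) 1).tendsto_subseq hw
  have hWn : W ∈ D.n := D.n.closed_of_finiteDimensional.mem_of_tendsto hl
    (Eventually.of_forall fun i => D.n.smul_mem _ (hu _))
  have hpos : ∀ s : ℝ, 0 ≤ s → D.Fix (exp (s • W)) := by
    intro s hs g hg Y hY Z hZ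
    let m : ℕ → ℕ := fun i => ⌊s / ‖u i‖⌋₊
    have hn0 : Tendsto (fun i => ‖u i‖) atTop (𝓝 0) := by simpa using hlim.norm
    have h1 : Tendsto (fun i => (m i : ℝ) * ‖u i‖) atTop (𝓝 s) := by
      have h2 : Tendsto (fun i => s - ‖u i‖) atTop (𝓝 s) := by simpa using hn0.const_sub s
      refine tendsto_of_tendsto_of_tendsto_of_le_of_le h2 tendsto_const_nhds (fun i => ?_)
        (fun i => ?_)
      · have hp : 0 < ‖u i‖ := norm_pos_iff.mpr (hu0 i)
        have := Nat.lt_floor_add_one (s / ‖u i‖)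
        rw [div_lt_iff₀ hp] at this
        simp only [m]
        linarith
      · have hp : 0 < ‖u i‖ := norm_pos_iff.mpr (hu0 i)
        have := Nat.floor_le (div_nonneg hs hp.le)
        rw [le_div_iff₀ hp] at this
        exact this
    have h3 : ∀ i, (m i : ℝ) • u i = ((m i : ℝ) * ‖u i‖) • w i := fun i => by
      simp only [w, smul_smul]
      rw [mul_assoc, mul_inv_cancel₀ (norm_ne_zero_iff.mpr (hu0 i)), mul_one]
    have h4 : Tendsto (fun i => D.ω Y Z (exp ((m (ψ i) : ℝ) • u (ψ i)) * g)) atTop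
        (𝓝 (D.ω Y Z (exp (s • W) * g))) := by
      simp only [h3]
      exact ((D.ω_cont Y Z).tendsto _).comp
        (((exp_cont.tendsto _).comp ((h1.comp hψ.tendsto_atTop).smul hl)).mul_const g)
    have h5 : ∀ i, D.ω Y Z (exp ((m i : ℝ) • u i) * g) = D.ω Y Z g := fun i => by
      rw [exp_nsmul']
      exact Fix.pow (exp_mem (hu i)) (hf i) _ g hg Y hY Z hZ
    simp only [h5] at h4
    exact (tendsto_nhds_unique tendsto_const_nhds h4).symm
  refine ⟨W, ⟨hWn, fun t => ?_⟩, ?_, ?_, fun Y hY => ?_⟩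
  · rcases le_total 0 t with ht | ht
    · exact hpos t ht
    · intro g hg Y hY Z hZ
      rw [← hpos (-t) (by linarith) _ (mul_mem (exp_smul_mem hWn t) hg) Y hY Z hZ, ← mul_assoc,
        exp_neg_smul_mul, one_mul]
  · rintro rfl
    simp at hW
  · have h1 : Tendsto (fun i => φ (w (ψ i))) atTop (𝓝 (φ W)) := (φ.continuous.tendsto W).comp hl
    have h2 : ∀ i, φ (w i) = 0 := fun i => by simp [w, hφ]
    simp only [h2] at h1
    exact (tendsto_nhds_unique tendsto_const_nhds h1).symm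
  · have h1 : Tendsto (fun i => w (ψ i) * Y) atTop (𝓝 (W * Y)) := hl.mul_const Y
    have h2 : Tendsto (fun i => Y * w (ψ i)) atTop (𝓝 (Y * W)) := hl.const_mul Y
    have h3 : ∀ i, w i * Y = Y * w i := fun i => ((hc i Y hY).smul_left _).eq
    simp only [h3] at h1
    exact tendsto_nhds_unique h1 h2

theorem exists_period : ∃ T : ℝ, T ≠ 0 ∧ exp (T • D.X) ∈ D.Γ := by
  by_contra hcon
  push Not at hcon
  have hdec : ∀ m : ℕ, ∃ κ ∈ D.K, ∃ γ ∈ D.Γ, exp ((m : ℝ) • D.X) = κ * γ :=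
    fun m => decomp (exp_smul_mem D.hX _)
  choose κ hκ γ hγ hκγ using hdec
  obtain ⟨k, hk, ψ, hψ, hl⟩ := D.hK.tendsto_subseq hκ
  let g : ℕ → A := fun i => iv (κ (ψ i)) * κ (ψ (i + 1))
  let j : ℕ → ℝ := fun i => (ψ (i + 1) : ℝ) - ψ i
  let δ : ℕ → A := fun i => γ (ψ i) * iv (γ (ψ (i + 1)))
  have hj : ∀ i, 1 ≤ j i := fun i => by
    have : ψ i + 1 ≤ ψ (i + 1) := hψ (Nat.lt_succ_self i)
    have : (ψ i : ℝ) + 1 ≤ ψ (i + 1) := by exact_mod_cast this
    simp only [j]; linarith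
  have hδ : ∀ i, δ i ∈ D.Γ := fun i => D.Γmul _ (hγ _) _ (iv_memΓ (hγ _))
  have hg : ∀ i, g i ∈ D.G := fun i => mul_mem (iv_mem (K_sub (hκ _))) (K_sub (hκ _))
  have hgl : Tendsto g atTop (𝓝 1) := by
    have h1 := ((iv_cont.tendsto k).comp hl).mul (hl.comp (tendsto_add_atTop_nat 1))
    rw [iv_mul (K_sub hk)] at h1
    exact h1
  have hκ' : ∀ m, κ m = exp ((m : ℝ) • D.X) * iv (γ m) := fun m => by
    rw [hκγ, mul_assoc, mul_iv (Γ_sub (hγ m)), mul_one]
  have hgδ : ∀ i, g i = exp (j i • D.X) * δ i := fun i => by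
    have h1 : iv (κ (ψ i)) = γ (ψ i) * exp ((-(ψ i : ℝ)) • D.X) := by
      symm
      apply eq_iv (K_sub (hκ _))
      rw [← mul_assoc, ← hκγ, exp_smul_mul_neg]
    simp only [g, δ]
    rw [h1, hκ' (ψ (i + 1)), mul_assoc, ← mul_assoc (exp _), ← exp_smul_add, ← mul_assoc,
      ← (expX_comm _ (Γ_sub (hγ _))).eq, mul_assoc]
    congr 3
    simp only [j]; ring
  have hz : Tendsto (fun i => lg A (g i)) atTop (𝓝 0) := by
    have := (lg_cont.tendsto (1 : A)).comp hgl
    rwa [lg_one] at this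
  obtain ⟨ε, hε, hdisc⟩ := D.disc
  have hcomm1 : ∀ γ ∈ D.Γ, ∀ᶠ i in atTop, Commute (g i) γ := by
    intro γ hγ
    have h1 : Tendsto (fun i => g i * γ * iv (g i) * iv γ) atTop (𝓝 (1 * γ * iv 1 * iv γ)) :=
      ((hgl.mul_const γ).mul ((iv_cont.tendsto 1).comp hgl)).mul_const _
    have h2 : (1 : A) * γ * iv 1 * iv γ = 1 := by
      have : iv (1 : A) = 1 := by simp [iv, lg_one]
      rw [this, one_mul, mul_one, mul_iv (Γ_sub hγ)]
    rw [h2] at h1
    filter_upwards [(Metric.tendsto_nhds.mp h1) ε hε] with i hi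
    have h3 : iv (g i) = iv (δ i) * exp ((-j i) • D.X) := by
      symm
      apply eq_iv (hg i)
      rw [hgδ, mul_assoc, ← mul_assoc (δ i), mul_iv (Γ_sub (hδ i)), one_mul, exp_smul_mul_neg]
    have h4 : g i * γ * iv (g i) = δ i * γ * iv (δ i) := by
      have hm : δ i * γ * iv (δ i) ∈ D.G :=
        mul_mem (mul_mem (Γ_sub (hδ i)) (Γ_sub hγ)) (iv_mem (Γ_sub (hδ i)))
      rw [h3, hgδ]
      calc exp (j i • D.X) * δ i * γ * (iv (δ i) * exp ((-j i) • D.X))
          = exp (j i • D.X) * (δ i * γ * iv (δ i)) * exp ((-j i) • D.X) := by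
            simp only [mul_assoc]
        _ = δ i * γ * iv (δ i) := by
            rw [(expX_comm _ hm).eq, mul_assoc, exp_smul_mul_neg, mul_one]
    have h5 : g i * γ * iv (g i) * iv γ = 1 := by
      apply hdisc
      · rw [h4]
        exact D.Γmul _ (D.Γmul _ (D.Γmul _ (hδ i) _ hγ) _ (iv_memΓ (hδ i))) _ (iv_memΓ hγ)
      · rwa [dist_eq_norm] at hi
    unfold Commute SemiconjBy
    calc g i * γ = g i * γ * (iv (g i) * (iv γ * γ) * g i) := by
          rw [iv_mul (Γ_sub hγ), mul_one, iv_mul (hg i), mul_one]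
      _ = (g i * γ * iv (g i) * iv γ) * γ * g i := by simp only [mul_assoc]
      _ = γ * g i := by rw [h5, one_mul]
  obtain ⟨s, hs, hsc⟩ := exists_finite (D := D)
  have hcomm2 : ∀ᶠ i in atTop, ∀ γ ∈ s, Commute (g i) γ :=
    (eventually_all_finset s).mpr fun γ hγ => hcomm1 γ (hs γ hγ)
  have hsmall : ∀ᶠ i in atTop, ‖lg A (g i)‖ < ‖D.X‖ := by
    have := (Metric.tendsto_nhds.mp hz) _ (norm_pos_iff.mpr D.hX0)
    simpa using this
  obtain ⟨N, hN⟩ := eventually_atTop.mp (hcomm2.and hsmall)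
  obtain ⟨φ0, hφ0, hφ1⟩ := exists_dual_vector ℝ D.X (norm_ne_zero_iff.mpr D.hX0)
  let φ : A →L[ℝ] ℝ := ‖D.X‖⁻¹ • φ0
  have hφ : φ D.X = 1 := by
    simp only [φ, smul_apply, hφ1, smul_eq_mul]
    exact inv_mul_cancel₀ (norm_ne_zero_iff.mpr D.hX0)
  let z : ℕ → A := fun i => lg A (g (i + N))
  have hzn : ∀ i, z i ∈ D.n := fun i => lg_mem (hg _)
  have hgc : ∀ i, ∀ Y ∈ D.n, Commute (g (i + N)) Y := fun i Y hY =>
    central_of_commΓ (hsc _ (hN (i + N) (by omega)).1) hY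
  have hzc : ∀ i, ∀ Y ∈ D.n, Commute (z i) Y := fun i Y hY => (lg_comm (hgc i Y hY).symm).symm
  have hzl : Tendsto z atTop (𝓝 0) := hz.comp (tendsto_add_atTop_nat N)
  have hfix : ∀ i, D.Fix (g (i + N)) := by
    intro i x hx Y hY Z hZ
    rw [(comm_of_central (hgc i) hx).eq, hgδ, ← mul_assoc,
      ω_inv hY hZ (mul_mem hx (exp_smul_mem D.hX _)) (hδ _), ← (expX_comm _ hx).eq,
      S_X.2 _ x hx Y hY Z hZ]
  obtain ⟨W, hW, hW0, hφW, hWc⟩ := limit_line (D := D) φ (u := fun i => z i - φ (z i) • D.X)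
    (fun i => D.n.sub_mem (hzn i) (D.n.smul_mem _ D.hX))
    (fun i h => by
      have h1 : z i = φ (z i) • D.X := sub_eq_zero.mp h
      have h2 : g (i + N) = exp (φ (z i) • D.X) := by rw [← h1, exp_lg (hg _)]
      have h3 : δ (i + N) = exp ((φ (z i) - j (i + N)) • D.X) := by
        rw [sub_eq_neg_add, exp_smul_add, ← h2, hgδ, ← mul_assoc, exp_neg_smul_mul, one_mul]
      have h4 : φ (z i) - j (i + N) = 0 := by
        by_contra h5
        exact hcon _ h5 (h3 ▸ hδ _)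
      have h5 := (hN (i + N) (by omega)).2
      have h6 : ‖z i‖ = j (i + N) * ‖D.X‖ := by
        rw [h1, sub_eq_zero.mp h4, norm_smul, Real.norm_eq_abs,
          abs_of_pos (by linarith [hj (i + N)])]
      have h7 : ‖z i‖ < ‖D.X‖ := h5
      nlinarith [hj (i + N), norm_nonneg D.X])
    (fun i Y hY => (hzc i Y hY).sub_left ((X_central Y hY).smul_left _))
    (fun i => by simp [hφ])
    (fun i => by
      have h1 : exp (z i - φ (z i) • D.X) = g (i + N) * exp ((-φ (z i)) • D.X) := by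
        rw [sub_eq_add_neg, ← neg_smul, exp_add' ((hzc i _ D.hX).smul_right _), exp_lg (hg _)]
      rw [h1]
      exact Fix.mul (exp_smul_mem D.hX _) (hfix i) (S_X.2 _))
    (by simpa using hzl.sub (((φ.continuous.tendsto 0).comp hzl).smul_const D.X))
  obtain ⟨c, rfl⟩ := central_par hW hWc
  simp only [map_smul, hφ, smul_eq_mul, mul_one] at hφW
  exact hW0 (by simp [hφW])

end Pool.Agent.P.MP_e3ee0c_gt.Nil.Data
end

-- part Pool.Agent.P.MP_e3ee0c_gt.NilFinal
section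

/-! All characteristics are closed. -/

set_option maxSynthPendingDepth 3
set_option linter.unusedSectionVars false

namespace Pool.Agent.P.MP_e3ee0c_gt.Nil

open NormedSpace Filter Topology Data

variable {A : Type*} [NormedRing A] [NormedAlgebra ℝ A] [FiniteDimensional ℝ A]

attribute [local instance] cs

theorem Data.periodic (D : Data A) (R : A → A) (hR : ContinuousOn R D.G)
    (hRX : ∀ g ∈ D.G, ∃ c : ℝ, c ≠ 0 ∧ R g = c • (D.X * g))
    (hRΓ : ∀ g ∈ D.G, ∀ γ ∈ D.Γ, R (g * γ) = R g * γ) {g : A} (hg : g ∈ D.G) :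
    ∃ x : ℝ → A, x 0 = g ∧ (∀ t, x t ∈ D.G) ∧ (∀ t, HasDerivAt x (R (x t)) t) ∧
      ∃ P > 0, ∃ γ ∈ D.Γ, ∀ t, x (t + P) = x t * γ := by
  obtain ⟨T, hT, hTΓ⟩ := exists_period (D := D)
  obtain ⟨φ0, hφ0, hφ1⟩ := exists_dual_vector ℝ D.X (norm_ne_zero_iff.mpr D.hX0)
  let φ : A →L[ℝ] ℝ := ‖D.X‖⁻¹ • φ0
  have hφ : φ D.X = 1 := by
    simp only [φ, smul_apply, hφ1, smul_eq_mul]
    exact inv_mul_cancel₀ (norm_ne_zero_iff.mpr D.hX0)
  let H : A → ℝ := fun y => φ (R y * iv y)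
  have hH : ∀ y ∈ D.G, H y ≠ 0 ∧ R y = H y • (D.X * y) := by
    intro y hy
    obtain ⟨c, hc, h⟩ := hRX y hy
    have : H y = c := by
      simp only [H]
      rw [h, smul_mul_assoc, mul_assoc, mul_iv hy, mul_one, map_smul, hφ, smul_eq_mul, mul_one]
    rw [this]
    exact ⟨hc, h⟩
  have hHΓ : ∀ y ∈ D.G, ∀ γ ∈ D.Γ, H (y * γ) = H y := by
    intro y hy γ hγ
    have h1 : iv (y * γ) = iv γ * iv y := by
      symm
      apply eq_iv (mul_mem hy (Γ_sub hγ))
      rw [mul_assoc, ← mul_assoc γ, mul_iv (Γ_sub hγ), one_mul, mul_iv hy]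
    simp only [H]
    rw [hRΓ y hy γ hγ, h1, mul_assoc, ← mul_assoc γ, mul_iv (Γ_sub hγ), one_mul]
  have hmem : ∀ t : ℝ, exp (t • D.X) * g ∈ D.G := fun t => mul_mem (exp_smul_mem D.hX t) hg
  have hcont : Continuous fun t : ℝ => exp (t • D.X) * g :=
    (cont_exp_smul D.X).mul continuous_const
  have hshift : ∀ t S : ℝ, exp ((t + S) • D.X) * g = exp (t • D.X) * g * exp (S • D.X) := by
    intro t S
    rw [exp_smul_add, mul_assoc, (expX_comm S hg).eq, mul_assoc]
  obtain ⟨τ, h0, hd, P, hP, hτ⟩ := time_change (h := fun t => H (exp (t • D.X) * g)) (T := T)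
    (φ.continuous.comp ((hR.comp_continuous hcont hmem).mul (iv_cont.comp hcont)))
    (fun t => (hH _ (hmem t)).1) hT (fun t => by
      simp only [hshift]
      exact hHΓ _ (hmem t) _ hTΓ)
  refine ⟨fun s => exp (τ s • D.X) * g, by simp [h0], fun s => hmem _, fun s => ?_, P, hP, ?_⟩
  · have := (hasDerivAt_flow D.X g (τ s)).scomp s (hd s)
    rw [← (hH _ (hmem _)).2] at this
    exact this
  · rcases hτ with h | h
    · exact ⟨_, hTΓ, fun s => by simp only [h, hshift]⟩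
    · refine ⟨_, iv_memΓ hTΓ, fun s => ?_⟩
      simp only [h, sub_eq_add_neg, hshift]
      rw [eq_iv (exp_smul_mem D.hX T) (exp_smul_mul_neg T D.X)]

theorem isClosed_exp (n : Submodule ℝ A) (hn : ∀ Y ∈ n, IsNilpotent Y) :
    IsClosed {g : A | ∃ Y ∈ n, g = exp Y} := by
  have : {g : A | ∃ Y ∈ n, g = exp Y} = {g | lg A g ∈ n} ∩ {g | g = exp (lg A g)} := by
    ext g
    constructor
    · rintro ⟨Y, hY, rfl⟩
      simp only [Set.mem_inter_iff, Set.mem_ofPred_eq, lg_exp' (hn Y hY)]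
      exact ⟨hY, trivial⟩
    · rintro ⟨h1, h2⟩
      exact ⟨_, h1, h2⟩
  rw [this]
  exact (n.closed_of_finiteDimensional.preimage lg_cont).inter
    (isClosed_eq continuous_id (exp_cont.comp lg_cont))

theorem nilflow (n : Submodule ℝ A) (hbr : ∀ Y ∈ n, ∀ Z ∈ n, Y * Z - Z * Y ∈ n)
    (hn : ∀ Y ∈ n, IsNilpotent Y)
    (G : Subgroup Aˣ) (hG : ∀ g : Aˣ, g ∈ G ↔ ∃ Y ∈ n, (g : A) = exp Y)
    (Γ : Subgroup G) [DiscreteTopology Γ] [CompactSpace (G ⧸ Γ)]
    (α : A → A →L[ℝ] ℝ) (hα : ContDiff ℝ 2 α)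
    (hinv : ∀ g : G, ∀ γ ∈ Γ, ∀ Y ∈ n,
      α ((g * γ : G) : Aˣ) (Y * ((g * γ : G) : Aˣ)) = α (g : Aˣ) (Y * (g : Aˣ)))
    (X : A) (hX : X ∈ n) (hX0 : X ≠ 0)
    (hker : ∀ g : G, ∀ Y ∈ n, (∀ Z ∈ n, fderiv ℝ α (g : Aˣ) (Y * (g : Aˣ)) (Z * (g : Aˣ)) -
      fderiv ℝ α (g : Aˣ) (Z * (g : Aˣ)) (Y * (g : Aˣ)) = 0) ↔ ∃ c : ℝ, Y = c • X)
    (R : G → A) (hR : Continuous R)
    (hRX : ∀ g : G, ∃ c : ℝ, c ≠ 0 ∧ R g = c • (X * (g : Aˣ)))
    (hRΓ : ∀ g : G, ∀ γ ∈ Γ, R (g * γ) = R g * (γ : Aˣ)) (g : G) :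
    ∃ x : ℝ → G, x 0 = g ∧ (∀ t, HasDerivAt (fun s => ((x s : Aˣ) : A)) (R (x t)) t) ∧
      ∃ T > 0, ∀ t, (x (t + T) : G ⧸ Γ) = (x t : G ⧸ Γ) := by
  classical
  let Gs : Set A := {g : A | ∃ Y ∈ n, g = exp Y}
  let v : G → A := fun g => ((g : Aˣ) : A)
  have hv : ∀ g : G, v g ∈ Gs := fun g => (hG g).mp g.2
  have hvi : Function.Injective v := fun a b h => Subtype.ext (Units.ext h)
  have hvc : Continuous v := Units.continuous_val.comp continuous_subtype_val
  have hvm : ∀ a b : G, v (a * b) = v a * v b := fun a b => rfl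
  have hv1 : v 1 = 1 := rfl
  let u : A → Aˣ := fun a => ⟨exp (lg A a), exp (-lg A a), exp_mul_neg _, exp_neg_mul _⟩
  have huc : Continuous u := Units.continuous_iff.mpr ⟨exp_cont.comp lg_cont, iv_cont⟩
  have huv : ∀ a ∈ Gs, (u a : A) = a := by
    rintro a ⟨Y, hY, rfl⟩
    simp only [u, lg_exp' (hn Y hY)]
  have huG : ∀ a ∈ Gs, u a ∈ G := fun a ha => (hG _).mpr (by rw [huv a ha]; exact ha)
  let w : Gs → G := fun a => ⟨u a, huG a a.2⟩
  have hwc : Continuous w := (huc.comp continuous_subtype_val).subtype_mk _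
  have hvw : ∀ a : Gs, v (w a) = a := fun a => huv a a.2
  have hwv : ∀ g : G, w ⟨v g, hv g⟩ = g := fun g => hvi (hvw _)
  have hsurj : ∀ a ∈ Gs, ∃ g : G, v g = a := fun a ha => ⟨w ⟨a, ha⟩, hvw _⟩
  -- discreteness
  have hdisc : ∃ ε > 0, ∀ γ ∈ v '' (Γ : Set G), ‖γ - 1‖ < ε → γ = 1 := by
    have h1 : IsOpen ({1} : Set Γ) := isOpen_discrete _
    obtain ⟨U, hU, hU1⟩ := isOpen_induced_iff.mp h1
    have h2 : IsOpen (w ⁻¹' U) := hU.preimage hwc
    have h3 : (⟨v 1, hv 1⟩ : Gs) ∈ w ⁻¹' U := by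
      rw [Set.mem_preimage, hwv]
      have : (1 : Γ) ∈ Subtype.val ⁻¹' U := by rw [hU1]; rfl
      exact this
    obtain ⟨ε, hε, hb⟩ := Metric.isOpen_iff.mp h2 _ h3
    refine ⟨ε, hε, ?_⟩
    rintro _ ⟨γ, hγ, rfl⟩ hlt
    have h4 : (⟨v γ, hv γ⟩ : Gs) ∈ w ⁻¹' U := hb (by
      rw [Metric.mem_ball, Subtype.dist_eq, dist_eq_norm]; exact hlt)
    rw [Set.mem_preimage, hwv] at h4
    have h5 : (⟨γ, hγ⟩ : Γ) ∈ Subtype.val ⁻¹' U := h4
    rw [hU1, Set.mem_singleton_iff] at h5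
    have : γ = 1 := congrArg Subtype.val h5
    rw [this, hv1]
  -- cocompactness
  have hco : ∃ r : ℝ, ∀ g : G, ∃ k : G, ‖v k‖ ≤ r ∧ ∃ γ ∈ Γ, g = k * γ := by
    let U : ℕ → Set (G ⧸ Γ) := fun m => QuotientGroup.mk '' {g : G | ‖v g‖ < m}
    have hUo : ∀ m, IsOpen (U m) := fun m =>
      QuotientGroup.isOpenMap_coe _ (isOpen_lt hvc.norm continuous_const)
    obtain ⟨m, hm⟩ := isCompact_univ.elim_directed_cover U hUo (fun q _ => by
      obtain ⟨g, rfl⟩ := QuotientGroup.mk_surjective q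
      obtain ⟨m, hm⟩ := exists_nat_gt ‖v g‖
      exact Set.mem_iUnion.mpr ⟨m, g, hm, rfl⟩) (Monotone.directed_le fun a b hab =>
        Set.image_mono fun g (hg : ‖v g‖ < a) => show ‖v g‖ < b from
          hg.trans_le (by exact_mod_cast hab))
    refine ⟨m, fun g => ?_⟩
    obtain ⟨k, hk, hkg⟩ := hm (Set.mem_univ (g : G ⧸ Γ))
    exact ⟨k, le_of_lt hk, k⁻¹ * g, QuotientGroup.eq.mp hkg, by group⟩
  obtain ⟨r, hr⟩ := hco
  have : ProperSpace A := FiniteDimensional.proper_real A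
  let D : Data A :=
    { n := n, hbr := hbr, hn := hn
      hmul := fun Y hY Z hZ => by
        obtain ⟨a, ha⟩ := hsurj _ ⟨Y, hY, rfl⟩
        obtain ⟨b, hb⟩ := hsurj _ ⟨Z, hZ, rfl⟩
        rw [← ha, ← hb, ← hvm]
        exact hv _
      Γ := v '' (Γ : Set G)
      hΓ := by rintro _ ⟨γ, -, rfl⟩; exact hv γ
      Γmul := by
        rintro _ ⟨γ, hγ, rfl⟩ _ ⟨δ, hδ, rfl⟩
        exact ⟨γ * δ, Γ.mul_mem hγ hδ, rfl⟩
      Γinv := by
        rintro _ ⟨γ, hγ, rfl⟩
        exact ⟨_, ⟨γ⁻¹, Γ.inv_mem hγ, rfl⟩, by rw [← hvm, mul_inv_cancel, hv1]⟩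
      disc := hdisc
      K := Gs ∩ Metric.closedBall 0 r
      hK := (isCompact_closedBall 0 r).inter_left (isClosed_exp n hn)
      hKG := fun κ hκ => hκ.1
      cocpt := fun Y hY => by
        obtain ⟨a, ha⟩ := hsurj _ ⟨Y, hY, rfl⟩
        obtain ⟨k, hk, γ, hγ, h⟩ := hr a
        exact ⟨v k, ⟨hv k, by simpa using hk⟩, v γ, ⟨γ, hγ, rfl⟩, by rw [← ha, h, hvm]⟩
      α := α, hα := hα
      hinv := by
        rintro a ha _ ⟨γ, hγ, rfl⟩ Y hY
        obtain ⟨a, rfl⟩ := hsurj a ha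
        exact hinv a γ hγ Y hY
      X := X, hX := hX, hX0 := hX0
      hker := by
        intro a ha Y hY
        obtain ⟨a, rfl⟩ := hsurj a ha
        exact hker a Y hY }
  let R' : A → A := fun a => if h : a ∈ Gs then R (w ⟨a, h⟩) else 0
  have hR' : ∀ g : G, R' (v g) = R g := fun g => by
    simp only [R', dif_pos (hv g), hwv]
  obtain ⟨x, hx0, hxG, hxd, P, hP, _, ⟨γ, hγ, rfl⟩, hper⟩ := D.periodic R'
    (by
      rw [continuousOn_iff_continuous_domRestrict]
      have : D.G.domRestrict R' = fun a : Gs => R (w a) := by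
        funext a
        exact dif_pos a.2
      rw [this]
      exact hR.comp hwc)
    (by
      intro a ha
      obtain ⟨a, rfl⟩ := hsurj a ha
      rw [hR']
      exact hRX a)
    (by
      rintro a ha _ ⟨γ, hγ, rfl⟩
      obtain ⟨a, rfl⟩ := hsurj a ha
      rw [← hvm, hR', hR']
      exact hRΓ a γ hγ) (hv g)
  refine ⟨fun t => w ⟨x t, hxG t⟩, ?_, fun t => ?_, P, hP, fun t => ?_⟩
  · apply hvi
    rw [hvw]; exact hx0
  · have h1 : (fun s => v (w ⟨x s, hxG s⟩)) = x := funext fun s => hvw _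
    have h2 := hxd t
    rw [← hR', hvw]
    change HasDerivAt (fun s => v (w ⟨x s, hxG s⟩)) _ t
    rw [h1]
    exact h2
  · have : w ⟨x (t + P), hxG _⟩ = w ⟨x t, hxG t⟩ * γ := by
      apply hvi
      rw [hvm, hvw, hvw]
      exact hper t
    simp only [this]
    exact QuotientGroup.mk_mul_of_mem _ hγ

end Pool.Agent.P.MP_e3ee0c_gt.Nil
end
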