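import Pool.Agent.P.MP_e3ee0c_gt.Pass
import Mathlib
import Pool.Agent.P.MP_e3ee0c_gt.Forms
import Pool.Agent.P.MP_e3ee0c_gt.Average

-- part Pool.Agent.P.MP_e3ee0c_gt.BoxLemma
section

open Set Filter Topology Matrix

namespace Pool.Agent.P.MP_e3ee0c_gt

variable {k : ℕ}

theorem abs_dot_le (η v : Fin k → ℝ) : |η ⬝ᵥ v| ≤ k * ‖η‖ * ‖v‖ := by
  unfold dotProduct
  refine (Finset.abs_sum_le_sum_abs _ _).trans ?_
  calc ∑ i, |η i * v i| ≤ ∑ _i : Fin k, ‖η‖ * ‖v‖ := Finset.sum_le_sum fun i _ => by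
        rw [abs_mul]
        exact mul_le_mul (norm_le_pi_norm η i) (norm_le_pi_norm v i) (abs_nonneg _) (norm_nonneg _)
    _ = k * ‖η‖ * ‖v‖ := by simp [mul_assoc]

theorem box_normed {W : Type*} [NormedAddCommGroup W] [NormedSpace ℝ W] {m : W → Fin k → ℝ}
    {D : W →L[ℝ] (Fin k → ℝ)} (hm : HasStrictFDerivAt m D 0) {η : Fin k → ℝ} {e : W}
    (he : η ⬝ᵥ D e ≠ 0) : Box m 0 η := by
  wlog h1 : η ⬝ᵥ D e = 1 generalizing e
  · exact this (e := (η ⬝ᵥ D e)⁻¹ • e) (by simp [he]) (by simp [he])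
  intro V₀ hV₀
  have hc : 0 < 1 / (4 * (k * (‖η‖ + 1) * ‖e‖ + 1)) := by positivity
  have hlo := hm.isLittleO.def hc
  have hmono : ∃ U ∈ 𝓝 (0 : W), ∀ η' : Fin k → ℝ, ‖η'‖ ≤ ‖η‖ + 1 → 3 / 4 ≤ η' ⬝ᵥ D e →
      ∀ w ∈ U, ∀ s : ℝ, 0 ≤ s → w + s • e ∈ U → η' ⬝ᵥ m w + s / 2 ≤ η' ⬝ᵥ m (w + s • e) := by
    rw [nhds_prod_eq] at hlo
    obtain ⟨pa, ha, pb, hb, hab⟩ := eventually_prod_iff.1 hlo
    refine ⟨{w | pa w ∧ pb w}, ha.and hb, fun η' h2 h3 w hw s hs hws => ?_⟩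
    have h4 := hab hws.1 hw.2
    simp only [add_sub_cancel_left, map_smul] at h4
    have h5 := abs_dot_le η' (m (w + s • e) - m w - s • D e)
    rw [norm_smul, Real.norm_eq_abs, abs_of_nonneg hs] at h4
    have h6 : (k : ℝ) * ‖η'‖ * ‖m (w + s • e) - m w - s • D e‖ ≤ s / 4 := by
      calc (k : ℝ) * ‖η'‖ * ‖m (w + s • e) - m w - s • D e‖
          ≤ k * (‖η‖ + 1) * (1 / (4 * (k * (‖η‖ + 1) * ‖e‖ + 1)) * (s * ‖e‖)) := by gcongr
        _ = s / 4 * ((k * (‖η‖ + 1) * ‖e‖) / (k * (‖η‖ + 1) * ‖e‖ + 1)) := by field_simp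
        _ ≤ s / 4 * 1 := by
          gcongr
          rw [div_le_one (by positivity)]; linarith
        _ = s / 4 := mul_one _
    simp only [dotProduct_sub, dotProduct_smul, smul_eq_mul] at h5
    have h7 := (abs_le.1 (h5.trans h6)).1
    nlinarith
  obtain ⟨U, hU, hmono⟩ := hmono
  obtain ⟨R, hR, hRs⟩ := Metric.mem_nhds_iff.1 (inter_mem hU hV₀)
  set r : ℝ := R / (2 * (‖e‖ + 1)) with hr
  have hr0 : 0 < r := by positivity
  have hre : r * ‖e‖ < R / 2 := by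
    rw [hr, div_mul_eq_mul_div, div_lt_div_iff₀ (by positivity) (by positivity)]
    nlinarith [norm_nonneg e]
  have hcont : ContinuousAt (fun z : ((Fin k → ℝ) × ℝ) × W => z.1.1 ⬝ᵥ m z.2 - z.1.2)
      ((η, η ⬝ᵥ m 0), 0) := by
    have h2 : ContinuousAt (fun z : ((Fin k → ℝ) × ℝ) × W => m z.2) ((η, η ⬝ᵥ m 0), 0) :=
      ContinuousAt.comp (x := ((η, η ⬝ᵥ m 0), (0 : W))) (f := Prod.snd) hm.continuousAt
        continuousAt_snd
    have h3 : Continuous fun z : (Fin k → ℝ) × (Fin k → ℝ) => z.1 ⬝ᵥ z.2 := by fun_prop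
    exact (h3.continuousAt.comp ((continuousAt_fst.comp continuousAt_fst).prodMk h2)).sub
      (continuousAt_snd.comp continuousAt_fst)
  have hev : ∀ᶠ z : ((Fin k → ℝ) × ℝ) × W in 𝓝 ((η, η ⬝ᵥ m 0), 0),
      -(r / 2) < z.1.1 ⬝ᵥ m z.2 - z.1.2 :=
    continuousAt_const.eventually_lt hcont (by simpa using hr0)
  rw [nhds_prod_eq] at hev
  obtain ⟨pa, ha, pb, hb, hab⟩ := eventually_prod_iff.1 hev
  obtain ⟨r', hr', hrs'⟩ := Metric.mem_nhds_iff.1 (inter_mem hb (Metric.ball_mem_nhds 0 (half_pos hR)))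
  have hin : ∀ w ∈ Metric.ball (0 : W) r', ∀ s ∈ Icc 0 r, w + s • e ∈ U ∩ V₀ := by
    intro w hw s hs
    apply hRs
    have h2 : ‖w‖ < R / 2 := by simpa using (hrs' hw).2
    have h3 : ‖s • e‖ ≤ r * ‖e‖ := by
      rw [norm_smul, Real.norm_eq_abs, abs_of_nonneg hs.1]; gcongr; exact hs.2
    have := norm_add_le w (s • e)
    simp only [Metric.mem_ball, dist_zero_right]
    linarith
  refine ⟨{x | ∃ w ∈ Metric.ball (0 : W) r', ∃ s ∈ Icc 0 r, x = w + s • e}, ?_, ?_, ?_⟩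
  · refine mem_of_superset (Metric.ball_mem_nhds 0 hr') fun w hw => ⟨w, hw, 0, ⟨le_rfl, hr0.le⟩, ?_⟩
    simp
  · rintro _ ⟨w, hw, s, hs, rfl⟩
    exact (hin w hw s hs).2
  have e1 : ∀ᶠ q : (Fin k → ℝ) × ℝ in 𝓝 (η, η ⬝ᵥ m 0), ‖q.1‖ < ‖η‖ + 1 :=
    ContinuousAt.eventually_lt (by fun_prop) continuousAt_const (by simp)
  have e2 : ∀ᶠ q : (Fin k → ℝ) × ℝ in 𝓝 (η, η ⬝ᵥ m 0), 3 / 4 < q.1 ⬝ᵥ D e :=
    ContinuousAt.eventually_lt continuousAt_const (by fun_prop) (by simp only [h1]; norm_num)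
  filter_upwards [ha, e1, e2] with q q1 q2 q3
  have hup : ∀ w ∈ Metric.ball (0 : W) r', ∀ s ∈ Icc 0 r, ∀ s' ∈ Icc s r,
      q.1 ⬝ᵥ m (w + s • e) + (s' - s) / 2 ≤ q.1 ⬝ᵥ m (w + s' • e) := by
    intro w hw s hs s' hs'
    have h2 : w + s • e + (s' - s) • e = w + s' • e := by module
    have := hmono q.1 q2.le q3.le _ (hin w hw s hs).1 (s' - s) (by linarith [hs'.1])
      (by rw [h2]; exact (hin w hw s' ⟨hs.1.trans hs'.1, hs'.2⟩).1)
    rwa [h2] at this
  have htop : ∀ w ∈ Metric.ball (0 : W) r', q.2 < q.1 ⬝ᵥ m (w + r • e) := by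
    intro w hw
    have h2 := hup w hw 0 ⟨le_rfl, hr0.le⟩ r ⟨hr0.le, le_rfl⟩
    have h3 := hab q1 (hrs' hw).1
    simp only [zero_smul, add_zero, sub_zero] at h2 h3
    linarith
  have h0 : (0 : W) ∈ Metric.ball (0 : W) r' := Metric.mem_ball_self hr'
  refine ⟨⟨0 + r • e, ⟨0, h0, r, ⟨hr0.le, le_rfl⟩, rfl⟩, htop 0 h0⟩, ?_⟩
  refine isPreconnected_of_forall (0 + r • e) ?_
  rintro _ ⟨⟨w, hw, s, hs, rfl⟩, hl⟩
  refine ⟨(fun s' : ℝ => w + s' • e) '' Icc s r ∪ (fun w' => w' + r • e) '' Metric.ball 0 r',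
    ?_, Or.inr ⟨0, h0, rfl⟩, Or.inl ⟨s, ⟨le_rfl, hs.2⟩, rfl⟩, ?_⟩
  · rintro _ (⟨s', hs', rfl⟩ | ⟨w', hw', rfl⟩)
    · refine ⟨⟨w, hw, s', ⟨hs.1.trans hs'.1, hs'.2⟩, rfl⟩, ?_⟩
      have h2 := hup w hw s hs s' hs'
      have h3 : q.2 < q.1 ⬝ᵥ m (w + s • e) := hl
      show q.2 < q.1 ⬝ᵥ m (w + s' • e)
      linarith [hs'.1]
    · exact ⟨⟨w', hw', r, ⟨hr0.le, le_rfl⟩, rfl⟩, htop w' hw'⟩
  · refine IsPreconnected.union (w + r • e) ⟨r, ⟨hs.2, le_rfl⟩, rfl⟩ ⟨w, hw, rfl⟩ ?_ ?_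
    · exact isPreconnected_Icc.image _ (by fun_prop)
    · exact (convex_ball (0 : W) r').isPreconnected.image _ (by fun_prop)

theorem Box.transfer {W X : Type*} [TopologicalSpace W] [TopologicalSpace X] {g : W → X} {w₀ : W}
    {y : X} (hy : g w₀ = y) (hg : map g (𝓝 w₀) = 𝓝 y) {U : Set W} (hU : U ∈ 𝓝 w₀)
    (hc : ContinuousOn g U) {μ : X → Fin k → ℝ} {η : Fin k → ℝ} (h : Box (μ ∘ g) w₀ η) :
    Box μ y η := by
  intro V₀ hV₀
  have h1 : g ⁻¹' V₀ ∈ 𝓝 w₀ := by rw [← hg] at hV₀; exact hV₀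
  obtain ⟨V, hV, hVs, hev⟩ := h _ (inter_mem h1 hU)
  refine ⟨g '' V, hg ▸ image_mem_map hV, ?_, ?_⟩
  · rintro _ ⟨w, hw, rfl⟩; exact (hVs hw).1
  · simp only [Function.comp, hy] at hev
    filter_upwards [hev] with q hq
    have : g '' V ∩ {x | q.2 < q.1 ⬝ᵥ μ x} = g '' (V ∩ {x | q.2 < q.1 ⬝ᵥ μ (g x)}) :=
      (image_inter_preimage g V {x | q.2 < q.1 ⬝ᵥ μ x}).symm
    rw [this]
    exact ⟨hq.1.image _, hq.2.image _ (hc.mono fun w hw => (hVs hw.1).2)⟩

theorem level_param {E N : Type*} [NormedAddCommGroup E] [NormedSpace ℝ E] [CompleteSpace E]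
    [TopologicalSpace N] (κ : OpenPartialHomeomorph N E) {f : N → ℝ} {c : ℝ}
    (y : {x // f x = c}) (hy : y.1 ∈ κ.source) {L : E →L[ℝ] ℝ}
    (hf : HasStrictFDerivAt (f ∘ κ.symm) L (κ y)) (hL : L ≠ 0) :
    ∃ (g : L.ker → {x // f x = c}) (U : Set L.ker) (φ : L.ker → E), g 0 = y ∧
      map g (𝓝 0) = 𝓝 y ∧ U ∈ 𝓝 0 ∧ ContinuousOn g U ∧ φ 0 = κ y ∧
      HasStrictFDerivAt φ L.ker.subtypeL 0 ∧ ∀ᶠ w in 𝓝 0, (g w).1 = κ.symm (φ w) := by
  classical
  have hr : L.range = ⊤ := by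
    obtain ⟨v, hv⟩ : ∃ v, L v ≠ 0 := by
      by_contra h; push Not at h; exact hL (ContinuousLinearMap.ext h)
    refine eq_top_iff.2 fun a _ => ⟨(a / L v) • v, ?_⟩
    simp [hv]
  have hc : (f ∘ κ.symm) (κ y) = c := by simp [κ.left_inv hy, y.2]
  set φ := hf.implicitFunction _ _ hr c with hφ
  have hφ0 : φ 0 = κ y := by
    have := hf.implicitFunction_apply_image hr
    rwa [hc] at this
  have hφd : HasStrictFDerivAt φ L.ker.subtypeL 0 := by
    have := hf.to_implicitFunction hr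
    rwa [hc] at this
  have hlev : ∀ᶠ w in 𝓝 (0 : L.ker), f (κ.symm (φ w)) = c := by
    have h1 := hf.map_implicitFunction_eq hr
    rw [hc] at h1
    exact (continuousAt_const.prodMk continuousAt_id : ContinuousAt (fun w : L.ker => (c, w)) 0).eventually h1
  let g : L.ker → {x // f x = c} := fun w => if h : f (κ.symm (φ w)) = c then ⟨_, h⟩ else y
  have hg : ∀ w, f (κ.symm (φ w)) = c → (g w).1 = κ.symm (φ w) := fun w h => by simp [g, h]
  have hg0 : g 0 = y := by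
    apply Subtype.ext
    rw [hg 0 hlev.self_of_nhds, hφ0, κ.left_inv hy]
  have hev : ∀ᶠ w in 𝓝 (0 : L.ker), (g w).1 = κ.symm (φ w) := hlev.mono hg
  obtain ⟨U₁, hU₁, hU₁c⟩ : ∃ U ∈ 𝓝 (0 : L.ker), ContinuousOn φ U := by
    obtain ⟨_, U, hU, hl⟩ := hφd.exists_lipschitzOnWith
    exact ⟨U, hU, hl.continuousOn⟩
  have htar : ∀ᶠ w in 𝓝 (0 : L.ker), φ w ∈ κ.target :=
    hφd.continuousAt.eventually (by rw [hφ0]; exact κ.open_target.mem_nhds (κ.map_source hy))
  refine ⟨g, U₁ ∩ {w | (g w).1 = κ.symm (φ w) ∧ φ w ∈ κ.target}, φ, hg0, ?_,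
    inter_mem hU₁ (hev.and htar), ?_, hφ0, hφd, hev⟩
  · apply le_antisymm
    · refine (Topology.IsInducing.subtypeVal.tendsto_nhds_iff (f := g)).2 ?_
      have h1 : Tendsto (fun w => κ.symm (φ w)) (𝓝 0) (𝓝 y.1) :=
        (κ.tendsto_symm hy).comp (hφ0 ▸ hφd.continuousAt)
      exact h1.congr' (hev.mono fun w hw => hw.symm)
    · set Ψ := hf.implicitToOpenPartialHomeomorph _ _ hr with hΨ
      have h1 : Tendsto (fun x : {x // f x = c} => κ x.1) (𝓝 y) (𝓝 (κ y)) :=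
        (κ.continuousAt hy).tendsto.comp continuous_subtype_val.continuousAt
      have h2 : Tendsto (fun x : {x // f x = c} => (Ψ (κ x.1)).2) (𝓝 y) (𝓝 0) := by
        have h3 := (Ψ.continuousAt (hf.mem_implicitToOpenPartialHomeomorph_source hr)).tendsto
        rw [hΨ, hf.implicitToOpenPartialHomeomorph_self hr] at h3
        exact (continuous_snd.tendsto _).comp (h3.comp h1)
      have h4 : ∀ᶠ x : {x // f x = c} in 𝓝 y, g (Ψ (κ x.1)).2 = x := by
        filter_upwards [h1.eventually (hf.eq_implicitFunction hr), h2.eventually hev,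
          continuous_subtype_val.continuousAt.eventually (κ.open_source.mem_nhds hy)]
          with x h5 h6 h7
        apply Subtype.ext
        have h8 : (f ∘ κ.symm) (κ x.1) = c := by simp [κ.left_inv h7, x.2]
        rw [h8] at h5
        rw [h6, hφ, h5, κ.left_inv h7]
      calc 𝓝 y = map (fun x : {x // f x = c} => g (Ψ (κ x.1)).2) (𝓝 y) := by
            rw [map_congr h4]; exact map_id.symm
        _ ≤ map g (𝓝 0) := by
            rw [show (fun x : {x // f x = c} => g (Ψ (κ x.1)).2) =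
              g ∘ fun x : {x // f x = c} => (Ψ (κ x.1)).2 from rfl, ← Filter.map_map]
            exact map_mono h2
  · rw [Topology.IsInducing.subtypeVal.continuousOn_iff]
    refine ContinuousOn.congr (f := fun w => κ.symm (φ w)) ?_ fun w hw => hw.2.1
    exact κ.continuousOn_symm.comp (hU₁c.mono inter_subset_left) fun w hw => hw.2.2

theorem level_box {E N : Type*} [NormedAddCommGroup E] [NormedSpace ℝ E] [CompleteSpace E]
    [TopologicalSpace N] (κ : OpenPartialHomeomorph N E) {f : N → ℝ} {c : ℝ}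
    (y : {x // f x = c}) (hy : y.1 ∈ κ.source) {L : E →L[ℝ] ℝ}
    (hf : HasStrictFDerivAt (f ∘ κ.symm) L (κ y)) (hL : L ≠ 0) {μ : N → Fin k → ℝ}
    {D : E →L[ℝ] (Fin k → ℝ)} (hμ : HasStrictFDerivAt (μ ∘ κ.symm) D (κ y)) {η : Fin k → ℝ}
    {e : E} (he : L e = 0) (he' : η ⬝ᵥ D e ≠ 0) :
    Box (fun x : {x // f x = c} => μ x.1) y η := by
  obtain ⟨g, U, φ, h0, h1, hU, hc, h2, h3, h4⟩ := level_param κ y hy hf hL
  refine Box.transfer h0 h1 hU hc ?_
  have h5 : HasStrictFDerivAt ((μ ∘ κ.symm) ∘ φ) (D.comp L.ker.subtypeL) 0 :=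
    HasStrictFDerivAt.comp 0 (h2 ▸ hμ) h3
  refine box_normed (D := D.comp L.ker.subtypeL) (h5.congr_of_eventuallyEq ?_) (e := ⟨e, he⟩) he'
  filter_upwards [h4] with w hw
  simp [hw]

theorem level_locallyConnected {E N : Type*} [NormedAddCommGroup E] [NormedSpace ℝ E]
    [CompleteSpace E] [TopologicalSpace N] {f : N → ℝ} {c : ℝ}
    (h : ∀ y : {x // f x = c}, ∃ (κ : OpenPartialHomeomorph N E) (L : E →L[ℝ] ℝ),
      y.1 ∈ κ.source ∧ HasStrictFDerivAt (f ∘ κ.symm) L (κ y) ∧ L ≠ 0) :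
    LocallyConnectedSpace {x // f x = c} := by
  refine locallyConnectedSpace_iff_connected_subsets.2 fun y V₀ hV₀ => ?_
  obtain ⟨κ, L, hy, hf, hL⟩ := h y
  obtain ⟨g, U, φ, h0, h1, hU, hc, -⟩ := level_param κ y hy hf hL
  have h2 : g ⁻¹' V₀ ∈ 𝓝 0 := by rw [← h1] at hV₀; exact hV₀
  obtain ⟨r, hr, hrs⟩ := Metric.mem_nhds_iff.1 (inter_mem h2 hU)
  refine ⟨g '' Metric.ball 0 r, h1 ▸ image_mem_map (Metric.ball_mem_nhds 0 hr), ?_, ?_⟩
  · exact (convex_ball _ r).isPreconnected.image _ (hc.mono fun w hw => (hrs hw).2)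
  · rintro _ ⟨w, hw, rfl⟩; exact (hrs hw).1

end Pool.Agent.P.MP_e3ee0c_gt
end

-- part Pool.Agent.P.MP_e3ee0c_gt.Ends
section

open Set

namespace Pool.Agent.P.MP_e3ee0c_gt

variable {k : ℕ} {G : Type*} [Group G]

/-- Pairing of a real vector with a rational vector. -/
noncomputable def ev (q : Fin k → ℝ) : (Fin k → ℚ) →ₗ[ℚ] ℝ where
  toFun ξ := ∑ i, q i * (ξ i : ℝ)
  map_add' a b := by simp [mul_add, Finset.sum_add_distrib]
  map_smul' r a := by
    simp only [Pi.smul_apply, smul_eq_mul, Rat.cast_mul, RingHom.id_apply, Rat.smul_def,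
      Finset.mul_sum]
    exact Finset.sum_congr rfl fun i _ => by ring

theorem ev_apply (q : Fin k → ℝ) (ξ : Fin k → ℚ) : ev q ξ = ∑ i, q i * (ξ i : ℝ) := rfl

/-- Almost invariant subsets. -/
def AI (T : Set G) : Prop := ∀ g, ((fun a => a * g) '' T \ T).Finite

theorem AI.compl {T : Set G} (h : AI T) : AI Tᶜ := by
  intro g
  refine ((h g⁻¹).image (fun a => a * g)).subset ?_
  rintro _ ⟨⟨b, hb, rfl⟩, h2⟩
  exact ⟨b, ⟨⟨b * g, by simpa using h2, by simp⟩, hb⟩, rfl⟩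

theorem AI.inter {T T' : Set G} (h : AI T) (h' : AI T') : AI (T ∩ T') := by
  intro g
  refine ((h g).union (h' g)).subset ?_
  rintro _ ⟨⟨b, hb, rfl⟩, h2⟩
  by_cases h3 : b * g ∈ T
  · exact Or.inr ⟨⟨b, hb.2, rfl⟩, fun h4 => h2 ⟨h3, h4⟩⟩
  · exact Or.inl ⟨⟨b, hb.1, rfl⟩, h3⟩

theorem AI.left {T : Set G} (h : AI T) (g : G) : AI {a | g⁻¹ * a ∈ T} := by
  intro s
  refine ((h s).image (fun a => g * a)).subset ?_
  rintro _ ⟨⟨b, hb, rfl⟩, h2⟩
  exact ⟨g⁻¹ * (b * s), ⟨⟨g⁻¹ * b, hb, by simp [mul_assoc]⟩, h2⟩, by simp⟩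

/-- The data of the algebraic lemma. -/
structure Dat (k : ℕ) (G : Type*) [Group G] where
  act : G → (Fin k → ℚ) →ₗ[ℚ] (Fin k → ℚ)
  Q : Set (Fin k → ℝ)
  one : ∀ ξ, act 1 ξ = ξ
  mul : ∀ a b ξ, act (a * b) ξ = act b (act a ξ)
  int : ∀ g (ξ : Fin k → ℤ), ∃ ξ' : Fin k → ℤ, act g (fun i => ξ i) = fun i => (ξ' i : ℚ)
  bdd : ∃ R, ∀ q ∈ Q, ‖q‖ ≤ R
  span : ∀ η : Fin k → ℝ, η ≠ 0 → ∃ g, ∃ q ∈ Q, ∑ i, η i * ev q (act g (Pi.single i 1)) ≠ 0

namespace Dat

variable (D : Dat k G)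

/-- Bounded above on a set of group elements. -/
def Bdd (T : Set G) (ξ : Fin k → ℚ) : Prop := ∃ C, ∀ a ∈ T, ∀ q ∈ D.Q, ev q (D.act a ξ) ≤ C

variable {D}

theorem Bdd.mono {T T' : Set G} {ξ} (h : D.Bdd T ξ) (hT : T' ⊆ T) : D.Bdd T' ξ := by
  obtain ⟨C, hC⟩ := h
  exact ⟨C, fun a ha => hC a (hT ha)⟩

theorem Bdd.add {T : Set G} {ξ ζ} (h : D.Bdd T ξ) (h' : D.Bdd T ζ) : D.Bdd T (ξ + ζ) := by
  obtain ⟨C, hC⟩ := h
  obtain ⟨C', hC'⟩ := h'
  exact ⟨C + C', fun a ha q hq => by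
    rw [map_add, map_add]; exact add_le_add (hC a ha q hq) (hC' a ha q hq)⟩

theorem Bdd.smul {T : Set G} {ξ} (h : D.Bdd T ξ) {r : ℚ} (hr : 0 ≤ r) : D.Bdd T (r • ξ) := by
  obtain ⟨C, hC⟩ := h
  refine ⟨r * C, fun a ha q hq => ?_⟩
  rw [map_smul, map_smul, Rat.smul_def]
  exact mul_le_mul_of_nonneg_left (hC a ha q hq) (by exact_mod_cast hr)

theorem Bdd.zero (T : Set G) : D.Bdd T 0 := ⟨0, fun a _ q _ => by simp⟩

theorem Bdd.union {T T' : Set G} {ξ} (h : D.Bdd T ξ) (h' : D.Bdd T' ξ) : D.Bdd (T ∪ T') ξ := by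
  obtain ⟨C, hC⟩ := h
  obtain ⟨C', hC'⟩ := h'
  refine ⟨max C C', ?_⟩
  rintro a (ha | ha) q hq
  · exact (hC a ha q hq).trans (le_max_left _ _)
  · exact (hC' a ha q hq).trans (le_max_right _ _)

theorem ev_bdd (D : Dat k G) (ξ : Fin k → ℚ) : ∃ C, ∀ q ∈ D.Q, |ev q ξ| ≤ C := by
  obtain ⟨R, hR⟩ := D.bdd
  refine ⟨∑ i, R * |(ξ i : ℝ)|, fun q hq => ?_⟩
  rw [ev_apply]
  refine (Finset.abs_sum_le_sum_abs _ _).trans (Finset.sum_le_sum fun i _ => ?_)
  rw [abs_mul]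
  gcongr
  exact (norm_le_pi_norm q i).trans (hR q hq)

theorem Bdd.of_finite {T : Set G} (hT : T.Finite) (ξ) : D.Bdd T ξ := by
  induction T, hT using Set.Finite.induction_on with
  | empty => exact ⟨0, by simp⟩
  | @insert a s _ _ ih =>
    obtain ⟨C, hC⟩ := D.ev_bdd (D.act a ξ)
    have : D.Bdd {a} ξ := ⟨C, by
      rintro _ rfl q hq; exact (le_abs_self _).trans (hC q hq)⟩
    simpa using this.union ih

theorem Bdd.left {T : Set G} {ξ} (g : G) (h : D.Bdd T (D.act g ξ)) :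
    D.Bdd {a | g⁻¹ * a ∈ T} ξ := by
  obtain ⟨C, hC⟩ := h
  refine ⟨C, fun a ha q hq => ?_⟩
  have := hC _ ha q hq
  rwa [← D.mul, mul_inv_cancel_left] at this

theorem exists_denom (ξ : Fin k → ℚ) :
    ∃ N : ℚ, 0 < N ∧ ∃ ζ : Fin k → ℤ, N • ξ = fun i => (ζ i : ℚ) := by
  refine ⟨∏ i, ((ξ i).den : ℚ), Finset.prod_pos fun i _ => by exact_mod_cast (ξ i).den_pos, ?_⟩
  have : ∀ i, ∃ z : ℤ, (∏ j, ((ξ j).den : ℚ)) * ξ i = z := by
    intro i
    rw [← Finset.mul_prod_erase _ _ (Finset.mem_univ i)]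
    refine ⟨(∏ j ∈ Finset.univ.erase i, ((ξ j).den : ℤ)) * (ξ i).num, ?_⟩
    push_cast
    rw [← Rat.den_mul_eq_num (ξ i)]
    ring
  choose ζ hζ using this
  exact ⟨ζ, funext fun i => by simpa using hζ i⟩

theorem finite_of_bdd (D : Dat k G) (ξ : Fin k → ℚ) (T : Set G)
    (h : ∀ g, ∀ q ∈ D.Q, ∃ C, ∀ a ∈ T, |ev q (D.act g (D.act a ξ))| ≤ C) :
    ((fun a => D.act a ξ) '' T).Finite := by
  let Z : Submodule ℝ (Fin k → ℝ) :=
    { carrier := {z | ∃ C, ∀ a ∈ T, |ev z (D.act a ξ)| ≤ C}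
      add_mem' := by
        rintro z z' ⟨C, hC⟩ ⟨C', hC'⟩
        refine ⟨C + C', fun a ha => ?_⟩
        have : ev (z + z') (D.act a ξ) = ev z (D.act a ξ) + ev z' (D.act a ξ) := by
          simp [ev, add_mul, Finset.sum_add_distrib]
        rw [this]
        exact (abs_add_le _ _).trans (add_le_add (hC a ha) (hC' a ha))
      zero_mem' := ⟨0, fun a _ => by simp [ev]⟩
      smul_mem' := by
        rintro r z ⟨C, hC⟩
        refine ⟨|r| * C, fun a ha => ?_⟩
        have : ev (r • z) (D.act a ξ) = r * ev z (D.act a ξ) := by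
          simp [ev, Finset.mul_sum, mul_assoc]
        rw [this, abs_mul]
        gcongr
        exact hC a ha }
  have hZ : Z = ⊤ := by
    by_contra hne
    obtain ⟨f, hf0, hf⟩ := Submodule.exists_le_ker_of_lt_top Z (lt_top_iff_ne_top.2 hne)
    have hη : (fun i => f (Pi.single i 1)) ≠ 0 := by
      intro h0
      apply hf0
      refine (Pi.basisFun ℝ (Fin k)).ext fun i => ?_
      simpa using congrFun h0 i
    obtain ⟨g, q, hq, hne⟩ := D.span _ hη
    have hm : (fun i => ev q (D.act g (Pi.single i 1))) ∈ Z := by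
      obtain ⟨C, hC⟩ := h g q hq
      refine ⟨C, fun a ha => ?_⟩
      have : ev (fun i => ev q (D.act g (Pi.single i 1))) (D.act a ξ) =
          ev q (D.act g (D.act a ξ)) := by
        conv_rhs => rw [← Finset.univ_sum_single (D.act a ξ)]
        rw [map_sum, map_sum, ev_apply]
        refine Finset.sum_congr rfl fun i _ => ?_
        have : (Pi.single i (D.act a ξ i) : Fin k → ℚ) = D.act a ξ i • Pi.single i 1 := by
          rw [← Pi.single_smul]; simp
        rw [this, map_smul, map_smul, Rat.smul_def, mul_comm]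
      rw [this]; exact hC a ha
    apply hne
    have h1 : f (fun i => ev q (D.act g (Pi.single i 1))) = 0 := hf hm
    rw [← Finset.univ_sum_single (fun i => ev q (D.act g (Pi.single i 1))), map_sum] at h1
    rw [← h1]
    refine Finset.sum_congr rfl fun i _ => ?_
    have : (Pi.single i (ev q (D.act g (Pi.single i 1))) : Fin k → ℝ) =
        ev q (D.act g (Pi.single i 1)) • Pi.single i 1 := by
      rw [← Pi.single_smul]; simp
    rw [this, map_smul, smul_eq_mul, mul_comm]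
  have hb : ∀ i, ∃ C : ℝ, ∀ a ∈ T, |(D.act a ξ i : ℝ)| ≤ C := by
    intro i
    obtain ⟨C, hC⟩ : (Pi.single i 1 : Fin k → ℝ) ∈ Z := hZ ▸ Submodule.mem_top
    refine ⟨C, fun a ha => ?_⟩
    have := hC a ha
    simpa [ev, Pi.single_apply] using this
  choose C hC using hb
  obtain ⟨N, hN, ζ, hζ⟩ := exists_denom ξ
  refine ((Set.Finite.pi' (fun i : Fin k => Set.finite_Icc (-⌈N * C i⌉) ⌈N * C i⌉)).image
    (fun z : Fin k → ℤ => N⁻¹ • fun i => (z i : ℚ))).subset ?_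
  rintro _ ⟨a, ha, rfl⟩
  obtain ⟨z, hz⟩ := D.int a ζ
  rw [← hζ, map_smul] at hz
  refine ⟨z, fun i => ?_, ?_⟩
  · have h1 : (z i : ℝ) = N * (D.act a ξ i : ℝ) := by
      have := congrFun hz i
      simp only [Pi.smul_apply, smul_eq_mul] at this
      exact_mod_cast this.symm
    have h2 : ((|z i| : ℤ) : ℝ) ≤ (⌈(N : ℝ) * C i⌉ : ℝ) := by
      rw [Int.cast_abs, h1, abs_mul, abs_of_pos (by exact_mod_cast hN)]
      refine le_trans ?_ (Int.le_ceil _)
      gcongr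
      exact hC i a ha
    exact abs_le.1 (by exact_mod_cast h2)
  · simp only
    rw [← hz, smul_smul, inv_mul_cancel₀ hN.ne', one_smul]

theorem eq_zero_of_both (unb : ∀ ξ, ξ ≠ 0 → ¬ D.Bdd univ ξ) {T : Set G} (hT : AI T)
    (hinf : T.Infinite) {ξ} (h1 : D.Bdd T ξ) (h2 : D.Bdd T (-ξ)) : ξ = 0 := by
  by_contra h0
  apply unb ξ h0
  have hF : ((fun a => D.act a ξ) '' T).Finite := by
    refine D.finite_of_bdd ξ T fun g q hq => ?_
    obtain ⟨C, hC⟩ := h1.union (Bdd.of_finite (hT g) ξ)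
    obtain ⟨C', hC'⟩ := h2.union (Bdd.of_finite (hT g) (-ξ))
    refine ⟨max C C', fun a ha => ?_⟩
    have hm : a * g ∈ T ∪ ((fun a => a * g) '' T \ T) := by
      by_cases h : a * g ∈ T
      · exact Or.inl h
      · exact Or.inr ⟨⟨a, ha, rfl⟩, h⟩
    have e1 := hC _ hm q hq
    have e2 := hC' _ hm q hq
    rw [map_neg, map_neg] at e2
    rw [← D.mul, abs_le]
    constructor
    · linarith [le_max_right C C']
    · linarith [le_max_left C C']
  have hv : ∃ a₀ ∈ T, {a ∈ T | D.act a ξ = D.act a₀ ξ}.Infinite := by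
    by_contra hcon
    push Not at hcon
    apply hinf
    refine (hF.biUnion (t := fun v => {a ∈ T | D.act a ξ = v}) ?_).subset ?_
    · rintro _ ⟨a, ha, rfl⟩
      exact hcon a ha
    · intro a ha
      exact mem_biUnion (mem_image_of_mem _ ha) ⟨ha, rfl⟩
  obtain ⟨a₀, -, hv⟩ := hv
  obtain ⟨C, hC⟩ := h1
  refine ⟨C, fun b _ q hq => ?_⟩
  have hi : ((fun a => a * (a₀⁻¹ * b)) '' {a ∈ T | D.act a ξ = D.act a₀ ξ}).Infinite :=
    hv.image (mul_left_injective _).injOn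
  obtain ⟨_, ⟨a, ⟨ha, ha'⟩, rfl⟩, hn⟩ := hi.exists_notMem_finite (hT (a₀⁻¹ * b))
  have hm : a * (a₀⁻¹ * b) ∈ T := by
    by_contra h
    exact hn ⟨⟨a, ha, rfl⟩, h⟩
  have := hC _ hm q hq
  rwa [D.mul, ha', ← D.mul, mul_inv_cancel_left] at this

theorem act_ne_zero (D : Dat k G) (g : G) {ξ} (h : ξ ≠ 0) : D.act g ξ ≠ 0 := by
  intro h0
  apply h
  rw [← D.one ξ, ← mul_inv_cancel g, D.mul, h0, map_zero]

/-- The main algebraic lemma. -/
theorem false_of_ends (D : Dat k G) (hk : 0 < k) (unb : ∀ ξ, ξ ≠ 0 → ¬ D.Bdd univ ξ)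
    {A : Set G} (hA : AI A) (hi : A.Infinite) (hi' : Aᶜ.Infinite)
    (alt : ∀ ξ, ξ ≠ 0 → D.Bdd A ξ ∨ D.Bdd Aᶜ ξ) : False := by
  have anti : ∀ {ξ}, D.Bdd A ξ → D.Bdd A (-ξ) → ξ = 0 := fun h1 h2 =>
    eq_zero_of_both unb hA hi h1 h2
  have other : ∀ {ξ}, ¬ D.Bdd A ξ → D.Bdd Aᶜ ξ := by
    intro ξ h
    by_cases h0 : ξ = 0
    · exact h0 ▸ Bdd.zero _
    · exact (alt ξ h0).resolve_left h
  have total : ∀ {ξ}, ¬ D.Bdd A ξ → D.Bdd A (-ξ) := by
    intro ξ h
    by_contra h'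
    have := eq_zero_of_both unb hA.compl hi' (other h) (other h')
    exact h (this ▸ Bdd.zero _)
  have flip : ∀ {ξ}, D.Bdd A ξ → D.Bdd Aᶜ (-ξ) := by
    intro ξ h
    by_cases h' : D.Bdd A (-ξ)
    · rw [anti h h', neg_zero]; exact Bdd.zero _
    · exact other h'
  have sgn : ∀ g, ∃ e : ℚ, (e = 1 ∨ e = -1) ∧ ∀ ξ, D.Bdd A ξ → D.Bdd A (e • D.act g ξ) := by
    intro g
    have : (A ∩ {a | g⁻¹ * a ∈ A}).Infinite ∨ (A ∩ {a | g⁻¹ * a ∈ Aᶜ}).Infinite := by
      rw [← infinite_union]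
      refine hi.mono fun a ha => ?_
      by_cases h : g⁻¹ * a ∈ A
      · exact Or.inl ⟨ha, h⟩
      · exact Or.inr ⟨ha, h⟩
    rcases this with h | h
    · refine ⟨1, Or.inl rfl, fun ξ hξ => ?_⟩
      rw [one_smul]
      by_contra hn
      have h2 : D.Bdd A (D.act g (-ξ)) := by rw [map_neg]; exact total hn
      have := eq_zero_of_both unb (hA.inter (hA.left g)) h (hξ.mono inter_subset_left)
        ((h2.left g).mono inter_subset_right)
      exact hn (by rw [this, map_zero]; exact Bdd.zero _)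
    · refine ⟨-1, Or.inr rfl, fun ξ hξ => ?_⟩
      rw [neg_one_smul]
      by_contra hn
      have h2 : D.Bdd Aᶜ (D.act g (-ξ)) := by rw [map_neg]; exact other hn
      have := eq_zero_of_both unb (hA.inter (hA.compl.left g)) h (hξ.mono inter_subset_left)
        ((h2.left g).mono inter_subset_right)
      exact hn (by rw [this, map_zero, neg_zero]; exact Bdd.zero _)
  choose e he1 he using sgn
  let W : {η // D.Bdd A η} → Submodule ℚ (Fin k → ℚ) := fun η =>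
    { carrier := {ξ | ∀ r : ℚ, D.Bdd A (η.1 + r • ξ)}
      add_mem' := by
        intro a b ha hb r
        have := ((ha (2 * r)).add (hb (2 * r))).smul (r := 1 / 2) (by norm_num)
        convert this using 1
        module
      zero_mem' := fun r => by simpa using η.2
      smul_mem' := by
        intro c a ha r
        have := ha (r * c)
        rwa [mul_smul] at this }
  have hne : (W '' {η | η.1 ≠ 0}).Nonempty := by
    let ξ : Fin k → ℚ := fun _ => 1
    have h0 : ξ ≠ 0 := fun h => by simpa [ξ] using congrFun h ⟨0, hk⟩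
    by_cases h : D.Bdd A ξ
    · exact ⟨_, ⟨ξ, h⟩, h0, rfl⟩
    · exact ⟨_, ⟨-ξ, total h⟩, neg_ne_zero.2 h0, rfl⟩
  obtain ⟨_, ⟨⟨η, hη⟩, hη0, rfl⟩, hmin⟩ := wellFounded_lt.has_min _ hne
  have hη0' : η ≠ 0 := hη0
  have hW : ∀ ξ, D.Bdd A ξ → ξ ≠ 0 → ξ ∉ W ⟨η, hη⟩ := by
    intro ξ hξ h0 hmem
    refine hmin (W ⟨ξ, hξ⟩) ⟨⟨ξ, hξ⟩, h0, rfl⟩ (lt_of_le_of_ne ?_ ?_)
    · intro ζ hζ r
      have := (hmem (-1)).add (hζ r)
      convert this using 1
      simp only; module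
    · intro heq
      have h1 : ξ ∈ W ⟨ξ, hξ⟩ := heq ▸ hmem
      have h2 := h1 (-2)
      refine h0 (anti hξ ?_)
      convert h2 using 1
      simp only; module
  have hsq : ∀ g, e g * e g = 1 := fun g => by rcases he1 g with h | h <;> simp [h]
  have hg : ∃ g, D.Bdd A (η - e g • D.act g η) ∧ η - e g • D.act g η ≠ 0 := by
    by_contra hcon
    push Not at hcon
    have hall : ∀ g, e g • D.act g η = η := by
      intro g
      by_contra hn
      have h1 : ¬ D.Bdd A (η - e g • D.act g η) := fun h => hn (sub_eq_zero.1 (hcon g h)).symm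
      have h2 := he g⁻¹ _ (total h1)
      have h3 := he g⁻¹ _ (he g _ hη)
      rw [map_smul, ← D.mul, mul_inv_cancel, D.one, smul_smul] at h3
      have h4 : e g⁻¹ * e g = 1 := by
        rcases he1 g with h | h <;> rcases he1 g⁻¹ with h' | h' <;> simp [h, h'] at h3 ⊢
        all_goals exact absurd (anti hη h3) hη0'
      rw [neg_sub, map_sub, map_smul, ← D.mul, mul_inv_cancel, D.one, smul_sub, smul_smul, h4,
        one_smul] at h2
      have h5 := sub_eq_zero.1 (hcon _ h2)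
      apply hn
      conv_lhs => rw [h5]
      rw [map_smul, ← D.mul, inv_mul_cancel, D.one, smul_smul, mul_comm, h4, one_smul]
    apply unb η hη0'
    obtain ⟨C, hC⟩ := D.ev_bdd η
    refine ⟨C, fun a _ q hq => ?_⟩
    have h1 : D.act a η = e a • η := by
      conv_rhs => rw [← hall a]
      rw [smul_smul, hsq, one_smul]
    rw [h1, map_smul]
    have := abs_le.1 (hC q hq)
    rcases he1 a with h | h <;> simp [h] <;> linarith
  obtain ⟨g, hg1, hg2⟩ := hg
  have hr : ∃ r : ℚ, ¬ D.Bdd A (η + r • (η - e g • D.act g η)) := by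
    by_contra hcon
    push Not at hcon
    exact hW _ hg1 hg2 hcon
  obtain ⟨r, hr⟩ := hr
  have hr0 : r < 0 := by
    by_contra h
    exact hr (hη.add (hg1.smul (not_lt.1 h)))
  set n : ℚ := -r with hn
  have hn0 : 0 < n := by linarith
  have z1 : D.Bdd A ((n - 1) • η - n • e g • D.act g η) := by
    convert total hr using 1
    rw [hn]; module
  have z0 : D.Bdd A ((n - 1) • η) := by
    convert z1.add ((he g _ hη).smul hn0.le) using 1
    module
  have z2 : D.Bdd A ((n - 1) • η + n • e g • D.act g η) := z0.add ((he g _ hη).smul hn0.le)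
  have hn1 : 1 ≤ n := by
    by_contra h
    have h1 : 0 < (1 - n)⁻¹ := inv_pos.2 (by linarith)
    refine hη0' (anti hη ?_)
    convert z0.smul h1.le using 1
    rw [smul_smul]
    have : (1 - n)⁻¹ * (n - 1) = -1 := by
      have : 1 - n ≠ 0 := by linarith
      field_simp
      ring
    rw [this, neg_one_smul]
  have contr : ∃ C : ℝ, ∀ a, ∀ q ∈ D.Q,
      n * |ev q (D.act a (D.act g η))| ≤ (n - 1) * |ev q (D.act a η)| + C := by
    obtain ⟨C3, h3⟩ := flip z1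
    obtain ⟨C4, h4⟩ := flip z2
    obtain ⟨C1, h1⟩ := z1
    obtain ⟨C2, h2⟩ := z2
    refine ⟨|C1| + |C2| + |C3| + |C4|, fun a q hq => ?_⟩
    have hn1' : (1 : ℝ) ≤ n := by exact_mod_cast hn1
    have b1 : |((n : ℝ) - 1) * ev q (D.act a η)| = (n - 1) * |ev q (D.act a η)| := by
      rw [abs_mul, abs_of_nonneg (by linarith)]
    have b2 : |(n : ℝ) * (e g * ev q (D.act a (D.act g η)))| =
        n * |ev q (D.act a (D.act g η))| := by
      rw [abs_mul, abs_mul, abs_of_nonneg (by linarith)]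
      rcases he1 g with h | h <;> simp [h]
    rw [← b1, ← b2]
    have := abs_nonneg C1
    have := abs_nonneg C2
    have := abs_nonneg C3
    have := abs_nonneg C4
    have := le_abs_self (((n : ℝ) - 1) * ev q (D.act a η))
    have := neg_abs_le (((n : ℝ) - 1) * ev q (D.act a η))
    by_cases ha : a ∈ A
    · have e1 := h1 a ha q hq
      have e2 := h2 a ha q hq
      simp only [map_sub, map_add, map_smul, Rat.smul_def] at e1 e2
      push_cast at e1 e2
      rw [abs_le]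
      constructor <;> linarith [le_abs_self C1, le_abs_self C2]
    · have e1 := h3 a ha q hq
      have e2 := h4 a ha q hq
      simp only [map_sub, map_add, map_smul, map_neg, Rat.smul_def] at e1 e2
      push_cast at e1 e2
      rw [abs_le]
      constructor <;> linarith [le_abs_self C3, le_abs_self C4]
  obtain ⟨C, hC⟩ := contr
  have hF : ((fun a => D.act a η) '' range (fun j : ℕ => g ^ j)).Finite := by
    refine D.finite_of_bdd η _ fun a q hq => ⟨max |ev q (D.act a η)| C, ?_⟩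
    rintro _ ⟨j, rfl⟩
    induction j with
    | zero => simp [D.one]
    | succ j ih =>
      have h1 := hC (g ^ j * a) q hq
      rw [D.mul, D.mul, ← D.mul g, ← pow_succ'] at h1
      have hn1' : (1 : ℝ) ≤ n := by exact_mod_cast hn1
      have h2 := le_max_right |ev q (D.act a η)| C
      simp only at ih ⊢
      have h3 : (n : ℝ) * |ev q (D.act a (D.act (g ^ (j + 1)) η))| ≤
          n * max |ev q (D.act a η)| C := by nlinarith
      exact le_of_mul_le_mul_left h3 (by linarith)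
  let s : ℕ → Fin k → ℚ := fun j => e g ^ j • D.act (g ^ j) η
  have hs : ∀ j, s (j + 1) = e g • D.act g (s j) := by
    intro j
    simp only [s]
    rw [map_smul, smul_smul, ← D.mul, pow_succ', pow_succ]
  have hd : ∀ j, D.Bdd A (s j - s (j + 1)) ∧ s j - s (j + 1) ≠ 0 := by
    intro j
    induction j with
    | zero => rw [hs]; simpa [s, D.one] using And.intro hg1 hg2
    | succ j ih =>
      have : s (j + 1) - s (j + 1 + 1) = e g • D.act g (s j - s (j + 1)) := by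
        rw [hs (j + 1), map_sub, smul_sub, ← hs j]
      rw [this]
      refine ⟨he g _ ih.1, smul_ne_zero ?_ (D.act_ne_zero g ih.2)⟩
      rcases he1 g with h | h <;> simp [h]
  have hd2 : ∀ i j, D.Bdd A (s i - s (i + j)) := by
    intro i j
    induction j with
    | zero => simpa using Bdd.zero _
    | succ j ih =>
      have := ih.add (hd (i + j)).1
      rwa [sub_add_sub_cancel] at this
  have hinj : Function.Injective s := by
    refine Function.Injective.of_lt_imp_ne fun i j hij h => ?_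
    obtain ⟨l, rfl⟩ := Nat.exists_eq_add_of_lt hij
    have h1 := hd2 (i + 1) l
    rw [show i + 1 + l = i + l + 1 by ring, ← h] at h1
    exact (hd i).2 (anti (hd i).1 (by rwa [neg_sub]))
  refine Set.infinite_of_injective_forall_mem hinj ?_ (hF.union (hF.image Neg.neg))
  intro j
  have hm : D.act (g ^ j) η ∈ (fun a => D.act a η) '' range (fun j : ℕ => g ^ j) :=
    ⟨_, ⟨j, rfl⟩, rfl⟩
  rcases he1 g with h | h
  · left; simpa [s, h] using hm
  · rcases neg_one_pow_eq_or ℚ j with h' | h'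
    · left; simp only [s, h, h', one_smul]; exact hm
    · right; exact ⟨_, hm, by simp only [s, h, h', neg_one_smul]⟩

end Dat

end Pool.Agent.P.MP_e3ee0c_gt
end

-- part Pool.Agent.P.MP_e3ee0c_gt.Moment
section

open Manifold Set Filter Topology Matrix MeasureTheory
open scoped ContDiff

namespace Pool.Agent.P.MP_e3ee0c_gt

variable {E : Type*} [NormedAddCommGroup E] [NormedSpace ℝ E]
  {M N : Type*} [TopologicalSpace M] [TopologicalSpace N] [ChartedSpace E M] [ChartedSpace E N]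
  {σ : M → E →L[ℝ] E →L[ℝ] ℝ} {H : M → ℝ} {c : ℝ} {π : N → M} {Γ : Type*} [Group Γ]
  [MulAction Γ N] {k : ℕ} {ρ : Γ →* GL (Fin k) ℤ} {φ : (Fin k → ℝ) → N → N} {Y : M → E}

/-- Infinitesimal action. -/
noncomputable def gen (E : Type*) [NormedAddCommGroup E] [NormedSpace ℝ E] [ChartedSpace E N]
    (φ : (Fin k → ℝ) → N → N) (x : N) : (Fin k → ℝ) →L[ℝ] E :=
  dif (Fin k → ℝ) E (fun t => φ t x) 0

/-- The integrand of the averaged moment map. -/
noncomputable def Fm (σ : M → E →L[ℝ] E →L[ℝ] ℝ) (Y : M → E) (π : N → M)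
    (φ : (Fin k → ℝ) → N → N) (x : N) (t : Fin k → ℝ) : (Fin k → ℝ) →L[ℝ] ℝ :=
  (σ (π (φ t x)) (Y (π (φ t x)))).comp (dif (Fin k → ℝ) E (fun s => π (φ s x)) t)

/-- The averaged moment map. -/
noncomputable def Mom (σ : M → E →L[ℝ] E →L[ℝ] ℝ) (Y : M → E) (π : N → M)
    (φ : (Fin k → ℝ) → N → N) (x : N) : (Fin k → ℝ) →L[ℝ] ℝ :=
  ∫ t in cube k, Fm σ Y π φ x t

/-- The action map in the chart at x. -/
noncomputable def Th (E : Type*) [NormedAddCommGroup E] [ChartedSpace E N] (π : N → M)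
    (φ : (Fin k → ℝ) → N → N) (x : N) (z : (Fin k → ℝ) × E) : M :=
  π (φ z.1 ((chartAt E x).symm z.2))

/-- Pull back of the Liouville form. -/
noncomputable def bet (σ : M → E →L[ℝ] E →L[ℝ] ℝ) (Y : M → E) (π : N → M)
    (φ : (Fin k → ℝ) → N → N) (x : N) (z : (Fin k → ℝ) × E) : ((Fin k → ℝ) × E) →L[ℝ] ℝ :=
  (σ (Th E π φ x z) (Y (Th E π φ x z))).comp (dif ((Fin k → ℝ) × E) E (Th E π φ x) z)

namespace IsTwistedTorus

variable (h : IsTwistedTorus σ H c π Γ ρ φ)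
include h

theorem sm_pi : ContMDiff 𝓘(ℝ, E) 𝓘(ℝ, E) ∞ π := h.localDiffeo.contMDiff

theorem sm_x (x : N) : ContMDiff 𝓘(ℝ, Fin k → ℝ) 𝓘(ℝ, E) ∞ fun t => φ t x :=
  h.smooth.comp (contMDiff_id.prodMk contMDiff_const)

theorem sm_t (t : Fin k → ℝ) : ContMDiff 𝓘(ℝ, E) 𝓘(ℝ, E) ∞ fun y => π (φ t y) :=
  h.sm_pi.comp (h.smooth.comp (contMDiff_const.prodMk contMDiff_id))

theorem sm_px (x : N) : ContMDiff 𝓘(ℝ, Fin k → ℝ) 𝓘(ℝ, E) ∞ fun t => π (φ t x) :=
  h.sm_pi.comp (h.sm_x x)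

theorem per (m : Fin k → ℤ) (t : Fin k → ℝ) : φ (rv m + t) = φ t := by
  funext x
  rw [h.add]; exact h.periodic m _

theorem dif_orbit (x : N) (t : Fin k → ℝ) : dif (Fin k → ℝ) E (fun s => π (φ s x)) t =
    (dif E E (fun y => π (φ t y)) x).comp (gen E φ x) := by
  have e1 : (fun s => π (φ s x)) = fun s => (fun y => π (φ t y)) ((fun u => φ u x) (s - t)) := by
    funext s
    simp only [← h.add, add_sub_cancel]
  have d0 : MDifferentiableAt 𝓘(ℝ, Fin k → ℝ) 𝓘(ℝ, Fin k → ℝ) (fun s : Fin k → ℝ => s - t) t :=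
    (differentiableAt_id.sub_const t).mdifferentiableAt
  have d1 : MDifferentiableAt 𝓘(ℝ, Fin k → ℝ) 𝓘(ℝ, E) (fun u => φ u x) (t - t) :=
    (h.sm_x x).mdifferentiableAt (by simp)
  have e2 := dif_comp (g := fun u => φ u x) (f := fun s : Fin k → ℝ => s - t) d1 d0
  rw [e1, dif_comp (g := fun y => π (φ t y)) (f := fun s => φ (s - t) x)
    ((h.sm_t t).mdifferentiableAt (by simp)) (MDifferentiableAt.comp (f := fun s : Fin k → ℝ => s - t) t d1 d0), e2, dif_fderiv]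
  simp only [sub_self, h.zero, fderiv_sub_const, fderiv_fun_id, gen, ContinuousLinearMap.comp_id]

theorem Fm_per (x : N) (m : Fin k → ℤ) (t : Fin k → ℝ) :
    Fm σ Y π φ x (rv m + t) = Fm σ Y π φ x t := by
  simp only [Fm, h.dif_orbit, h.per]

variable [IsManifold 𝓘(ℝ, E) ∞ M] [IsManifold 𝓘(ℝ, E) ∞ N]

omit [IsManifold 𝓘(ℝ, E) ∞ M] in
theorem Th_smooth (x : N) {z : (Fin k → ℝ) × E} (hz : z.2 ∈ (chartAt E x).target) :
    ContMDiffAt 𝓘(ℝ, (Fin k → ℝ) × E) 𝓘(ℝ, E) ∞ (Th E π φ x) z := by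
  have h1 : ContMDiffAt 𝓘(ℝ, (Fin k → ℝ) × E) (𝓘(ℝ, Fin k → ℝ).prod 𝓘(ℝ, E)) ∞
      (fun z : (Fin k → ℝ) × E => (z.1, (chartAt E x).symm z.2)) z :=
    contDiff_fst.contMDiff.contMDiffAt.prodMk
      ((chart_symm_smooth x hz).comp z contDiff_snd.contMDiff.contMDiffAt)
  exact (h.sm_pi.comp h.smooth).contMDiffAt.comp z h1

omit [IsManifold 𝓘(ℝ, E) ∞ M] in
theorem dif_Th_inl (x : N) {z : E} (hz : z ∈ (chartAt E x).target) (t : Fin k → ℝ) :
    (dif ((Fin k → ℝ) × E) E (Th E π φ x) (t, z)).comp (ContinuousLinearMap.inl ℝ _ _) =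
      dif (Fin k → ℝ) E (fun s => π (φ s ((chartAt E x).symm z))) t := by
  have d0 : HasFDerivAt (fun s : Fin k → ℝ => (s, z)) (ContinuousLinearMap.inl ℝ _ _) t :=
    hasFDerivAt_prodMk_left t z
  have := dif_comp (g := Th E π φ x) (f := fun s : Fin k → ℝ => (s, z)) (x := t)
    ((h.Th_smooth x hz).mdifferentiableAt (by simp)) d0.differentiableAt.mdifferentiableAt
  rw [dif_fderiv, d0.fderiv] at this
  exact this.symm

omit [IsManifold 𝓘(ℝ, E) ∞ M] in
theorem dif_Th_inr (x : N) (t : Fin k → ℝ) (v : E) :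
    dif ((Fin k → ℝ) × E) E (Th E π φ x) (t, chartAt E x x) (0, v) =
      dif E E (fun y => π (φ t y)) x v := by
  have hz := (chartAt E x).map_source (mem_chart_source E x)
  have d0 : HasFDerivAt (fun z : E => (t, z)) (ContinuousLinearMap.inr ℝ _ _) (chartAt E x x) :=
    hasFDerivAt_prodMk_right t _
  have e1 := dif_comp (g := Th E π φ x) (f := fun z : E => (t, z)) (x := chartAt E x x)
    ((h.Th_smooth x hz).mdifferentiableAt (by simp)) d0.differentiableAt.mdifferentiableAt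
  rw [dif_fderiv, d0.fderiv] at e1
  have e2 := dif_comp (g := fun y => π (φ t y)) (f := (chartAt E x).symm) (x := chartAt E x x)
    ((h.sm_t t).mdifferentiableAt (by simp))
    ((chart_symm_smooth x hz).mdifferentiableAt (by simp))
  have e3 := congrArg (fun L : E →L[ℝ] E => L v) (e1.symm.trans e2)
  simp only [ContinuousLinearMap.comp_apply, ContinuousLinearMap.inr_apply, dif_chart_symm_self,
    (chartAt E x).left_inv (mem_chart_source E x)] at e3
  exact e3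

theorem bet_d (hσ : IsSymplectic σ) (hY : IsTransverseLiouville σ H c Y) {x : N}
    (hx : H (π x) = c) (t : Fin k → ℝ) :
    ContDiffAt ℝ 1 (bet σ Y π φ x) (t, chartAt E x x) ∧ ∀ a b,
      fderiv ℝ (bet σ Y π φ x) (t, chartAt E x x) a b -
        fderiv ℝ (bet σ Y π φ x) (t, chartAt E x x) b a =
      σ (π (φ t x)) (dif _ E (Th E π φ x) (t, chartAt E x x) a)
        (dif _ E (Th E π φ x) (t, chartAt E x x) b) := by
  obtain ⟨U, -, hU, hL, -⟩ := hY
  have hz := (chartAt E x).map_source (mem_chart_source E x)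
  set p := π (φ t x) with hp
  have hpU : p ∈ U := hU (by show H p = c; rw [hp, h.presH, hx])
  have hT : Th E π φ x (t, chartAt E x x) = p := by
    simp [Th, hp]
  have s1 := h.Th_smooth x (z := (t, chartAt E x x)) hz
  have hG : ContDiffAt ℝ ∞ (fun z => chartAt E p (Th E π φ x z)) (t, chartAt E x x) :=
    ((chart_smooth p (by rw [hT]; exact mem_chart_source E p)).comp _ s1).contDiffAt
  obtain ⟨l1, l2⟩ := lam_d hσ (hL p hpU).1 (hL p hpU).2
  obtain ⟨b1, b2⟩ := pullback_d hG (lam := lamHat σ Y p) (by simpa only [hT] using l1)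
  have key : ∀ z : (Fin k → ℝ) × E, z.2 ∈ (chartAt E x).target →
      Th E π φ x z ∈ (chartAt E p).source →
      fderiv ℝ (fun z => chartAt E p (Th E π φ x z)) z =
        (dif E E (chartAt E p) (Th E π φ x z)).comp (dif _ E (Th E π φ x) z) := by
    intro z h1 h2
    rw [← dif_fderiv]
    exact dif_comp ((chart_smooth p h2).mdifferentiableAt (by simp))
      ((h.Th_smooth x h1).mdifferentiableAt (by simp))
  have hev : bet σ Y π φ x =ᶠ[𝓝 (t, chartAt E x x)] fun z =>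
      (lamHat σ Y p (chartAt E p (Th E π φ x z))).comp
        (fderiv ℝ (fun z => chartAt E p (Th E π φ x z)) z) := by
    have v1 : ∀ᶠ z : (Fin k → ℝ) × E in 𝓝 (t, chartAt E x x), z.2 ∈ (chartAt E x).target :=
      continuousAt_snd.eventually ((chartAt E x).open_target.mem_nhds hz)
    have v2 : ∀ᶠ z in 𝓝 (t, chartAt E x x), Th E π φ x z ∈ (chartAt E p).source :=
      s1.continuousAt.eventually (by rw [hT]; exact chart_source_mem_nhds E p)
    filter_upwards [v1, v2] with z h1 h2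
    rw [key z h1 h2]
    refine ContinuousLinearMap.ext fun a => ?_
    simp only [bet, lamHat, ContinuousLinearMap.comp_apply, chartField_apply Y p h2,
      chartForm_apply σ p h2]
  refine ⟨b1.congr_of_eventuallyEq hev, fun a b => ?_⟩
  rw [hev.fderiv_eq, b2, hT, l2, key _ hz (by rw [hT]; exact mem_chart_source E p), hT,
    dif_chart_self]
  rfl

omit [IsManifold 𝓘(ℝ, E) ∞ M] in
theorem Fm_eq (x : N) {z : E} (hz : z ∈ (chartAt E x).target) (t : Fin k → ℝ) :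
    Fm σ Y π φ ((chartAt E x).symm z) t =
      (bet σ Y π φ x (t, z)).comp (ContinuousLinearMap.inl ℝ _ _) := by
  rw [Fm, bet, ContinuousLinearMap.comp_assoc, h.dif_Th_inl x hz]
  rfl

theorem Fm_cont (hσ : IsSymplectic σ) (hY : IsTransverseLiouville σ H c Y) {x : N}
    (hx : H (π x) = c) : Continuous (Fm σ Y π φ x) := by
  have hz := (chartAt E x).map_source (mem_chart_source E x)
  have : Fm σ Y π φ x = fun t =>
      (bet σ Y π φ x (t, chartAt E x x)).comp (ContinuousLinearMap.inl ℝ _ _) := by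
    funext t
    rw [← h.Fm_eq x hz, (chartAt E x).left_inv (mem_chart_source E x)]
  rw [this]
  exact continuous_iff_continuousAt.2 fun t =>
    (ContinuousAt.comp (f := fun t => (t, chartAt E x x)) (h.bet_d hσ hY hx t).1.continuousAt
      (by fun_prop)).clm_comp continuousAt_const

theorem Mom_apply (hσ : IsSymplectic σ) (hY : IsTransverseLiouville σ H c Y) {x : N}
    (hx : H (π x) = c) (ξ : Fin k → ℝ) :
    Mom σ Y π φ x ξ = ∫ t in cube k, Fm σ Y π φ x t ξ :=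
  ContinuousLinearMap.integral_apply (integrableOn_cube (h.Fm_cont hσ hY hx)) ξ

theorem Mom_deriv (hσ : IsSymplectic σ) (hY : IsTransverseLiouville σ H c Y) {x : N}
    (hx : H (π x) = c) : ∃ D : E →L[ℝ] (Fin k → ℝ) →L[ℝ] ℝ,
      HasStrictFDerivAt (Mom σ Y π φ ∘ (chartAt E x).symm) D (chartAt E x x) ∧
      ∀ v ξ, D v ξ = -σ (π x) (dif E E π x (gen E φ x ξ)) (dif E E π x v) := by
  have hz := (chartAt E x).map_source (mem_chart_source E x)
  set g : (Fin k → ℝ) × E → (Fin k → ℝ) →L[ℝ] ℝ := fun z =>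
    (bet σ Y π φ x z).comp (ContinuousLinearMap.inl ℝ _ _) with hg
  have hb := fun t => h.bet_d hσ hY hx t
  have hgd : ∀ t, ContDiffAt ℝ 1 g (t, chartAt E x x) := fun t =>
    (hb t).1.clm_comp contDiffAt_const
  have h1 := avg_hasStrictFDerivAt (g := g) (w₀ := chartAt E x x) fun t _ => hgd t
  refine ⟨_, h1.congr_of_eventuallyEq ?_, fun v ξ => ?_⟩
  · filter_upwards [(chartAt E x).open_target.mem_nhds hz] with z hz'
    simp only [Function.comp, Mom, h.Fm_eq x hz', hg]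
  have i1 := (avg_int (g := g) (w := chartAt E x x) fun t _ => hgd t).2
  have i2 : IntegrableOn (fun t => ((fderiv ℝ g (t, chartAt E x x)).comp
      (ContinuousLinearMap.inr ℝ _ E)) v) (cube k) :=
    Integrable.apply_continuousLinearMap i1 v
  rw [ContinuousLinearMap.integral_apply i1, ContinuousLinearMap.integral_apply i2]
  set l : (Fin k → ℝ) → ℝ := fun t => bet σ Y π φ x (t, chartAt E x x) (0, v) with hl
  have l1 : ContDiff ℝ 1 l := contDiff_iff_contDiffAt.2 fun t =>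
    (ContDiffAt.comp (f := fun t => (t, chartAt E x x)) t (hb t).1 (by fun_prop)).clm_apply
      contDiffAt_const
  have l2 : ∀ (m : Fin k → ℤ) t, l (rv m + t) = l t := by
    intro m t
    simp only [hl, bet, ContinuousLinearMap.comp_apply, h.dif_Th_inr, Th, h.per]
  have l3 : ∀ t, fderiv ℝ l t ξ = fderiv ℝ (bet σ Y π φ x) (t, chartAt E x x) (ξ, 0) (0, v) := by
    intro t
    have d0 : HasFDerivAt (fun s => bet σ Y π φ x (s, chartAt E x x))
        ((fderiv ℝ (bet σ Y π φ x) (t, chartAt E x x)).comp (ContinuousLinearMap.inl ℝ _ E)) t :=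
      HasFDerivAt.comp (f := fun s : Fin k → ℝ => (s, chartAt E x x)) t
        ((hb t).1.differentiableAt (by simp)).hasFDerivAt
        (hasFDerivAt_prodMk_left (𝕜 := ℝ) t (chartAt E x x))
    have d := d0.clm_apply (hasFDerivAt_const (((0 : Fin k → ℝ), v)) t)
    have : fderiv ℝ l t = _ := d.fderiv
    rw [this]; simp
  have l4 : ∀ t, ((fderiv ℝ g (t, chartAt E x x)).comp (ContinuousLinearMap.inr ℝ _ E)) v ξ =
      fderiv ℝ l t ξ - σ (π x) (dif E E π x (gen E φ x ξ)) (dif E E π x v) := by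
    intro t
    have d := ((hb t).1.differentiableAt (by simp)).hasFDerivAt.clm_comp
      (hasFDerivAt_const (ContinuousLinearMap.inl ℝ (Fin k → ℝ) E) _)
    have e1 : fderiv ℝ g (t, chartAt E x x) = _ := d.fderiv
    have e2 := (hb t).2 (ξ, 0) (0, v)
    have e3 := congrArg (fun L : (Fin k → ℝ) →L[ℝ] E => L ξ) (h.dif_Th_inl x hz t)
    simp only [ContinuousLinearMap.comp_apply, ContinuousLinearMap.inl_apply,
      (chartAt E x).left_inv (mem_chart_source E x), h.dif_orbit] at e3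
    rw [e3, h.dif_Th_inr, h.presForm] at e2
    rw [e1, l3, ← e2]
    simp
  simp only [l4]
  have : IsFiniteMeasure (volume.restrict (cube k)) := ⟨by simpa using cube_fin⟩
  rw [integral_sub (integrableOn_cube ((l1.continuous_fderiv (by simp)).clm_apply continuous_const))
    (integrable_const _), avg_deriv_zero l2 l1]
  simp [cube_real]

theorem Mom_equiv (hσ : IsSymplectic σ) (hY : IsTransverseLiouville σ H c Y) {x : N}
    (hx : H (π x) = c) (γ : Γ) (ξ : Fin k → ℝ) :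
    Mom σ Y π φ (γ • x) (((ρ γ : Matrix (Fin k) (Fin k) ℤ).map (Int.cast : ℤ → ℝ)) *ᵥ ξ) =
      Mom σ Y π φ x ξ := by
  set A := (ρ γ : Matrix (Fin k) (Fin k) ℤ).map (Int.cast : ℤ → ℝ) with hA
  rw [h.Mom_apply hσ hY (by rw [h.deck, hx]), h.Mom_apply hσ hY hx,
    ← avg_linear (f := fun t => Fm σ Y π φ (γ • x) t (A *ᵥ ξ))
      (fun m t => by rw [h.Fm_per]) (ρ γ)]
  refine integral_congr_ae (Eventually.of_forall fun t => ?_)
  have e1 : ∀ s, π (φ (A *ᵥ s) (γ • x)) = π (φ s x) := fun s => by rw [← h.twist, h.deck]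
  let L : (Fin k → ℝ) →L[ℝ] (Fin k → ℝ) := LinearMap.toContinuousLinearMap (Matrix.toLin' A)
  have e2 := dif_comp (g := fun s => π (φ s (γ • x))) (f := L) (x := t)
    ((h.sm_px _).mdifferentiableAt (by simp)) L.differentiableAt.mdifferentiableAt
  rw [dif_fderiv, L.fderiv] at e2
  have e3 : (fun s => π (φ (L s) (γ • x))) = fun s => π (φ s x) := funext e1
  rw [e3] at e2
  simp only [Fm, ContinuousLinearMap.comp_apply, ← hA, e1, e2]
  rfl

end IsTwistedTorus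

end Pool.Agent.P.MP_e3ee0c_gt
end

-- part Pool.Agent.P.MP_e3ee0c_gt.Crit
section

open Manifold Set Filter Topology Matrix MeasureTheory
open scoped ContDiff

namespace Pool.Agent.P.MP_e3ee0c_gt

variable {E : Type*} [NormedAddCommGroup E] [NormedSpace ℝ E]
  {M N : Type*} [TopologicalSpace M] [TopologicalSpace N] [ChartedSpace E M] [ChartedSpace E N]
  {σ : M → E →L[ℝ] E →L[ℝ] ℝ} {H : M → ℝ} {c : ℝ} {π : N → M} {Γ : Type*} [Group Γ]
  [MulAction Γ N] {k : ℕ} {ρ : Γ →* GL (Fin k) ℤ} {φ : (Fin k → ℝ) → N → N} {Y XH : M → E}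

/-- The moment map as a vector. -/
noncomputable def mu (σ : M → E →L[ℝ] E →L[ℝ] ℝ) (Y : M → E) (π : N → M)
    (φ : (Fin k → ℝ) → N → N) (x : N) : Fin k → ℝ :=
  fun i => Mom σ Y π φ x (Pi.single i 1)

theorem dot_single (L : (Fin k → ℝ) →L[ℝ] ℝ) (η : Fin k → ℝ) :
    η ⬝ᵥ (fun i => L (Pi.single i 1)) = L η := by
  conv_rhs => rw [← Finset.univ_sum_single η, map_sum]
  refine Finset.sum_congr rfl fun i _ => ?_
  have : (Pi.single i (η i) : Fin k → ℝ) = η i • Pi.single i 1 := by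
    rw [← Pi.single_smul]; simp
  rw [this, map_smul, smul_eq_mul]

omit [TopologicalSpace N] [ChartedSpace E N] in
theorem dot_mu (x : N) (η : Fin k → ℝ) : η ⬝ᵥ mu σ Y π φ x = Mom σ Y π φ x η := dot_single _ η

/-- There is a periodic orbit on the level. -/
def HasOrbit (E : Type*) [NormedAddCommGroup E] [NormedSpace ℝ E] [ChartedSpace E M]
    (H : M → ℝ) (c : ℝ) (XH : M → E) : Prop :=
  ∃ x : ℝ → M, IsMIntegralCurve (I := 𝓘(ℝ, E)) x XH ∧ (∀ t, H (x t) = c) ∧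
    ∃ T > 0, ∀ t, x (t + T) = x t

namespace IsTwistedTorus

variable (h : IsTwistedTorus σ H c π Γ ρ φ)
include h

theorem dif_pi_bij (x : N) : Function.Bijective (dif E E π x) :=
  ((h.localDiffeo x).mfderivToContinuousLinearEquiv (by simp)).bijective

theorem dif_t_surj [FiniteDimensional ℝ E] (hσ : IsSymplectic σ) (t : Fin k → ℝ) (x : N) :
    Function.Surjective (dif E E (fun y => π (φ t y)) x) := by
  refine LinearMap.injective_iff_surjective (f := (dif E E (fun y => π (φ t y)) x).toLinearMap).1 ?_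
  rw [injective_iff_map_eq_zero]
  intro u hu
  have hu' : dif E E (fun y => π (φ t y)) x u = 0 := hu
  apply (h.dif_pi_bij x).1
  rw [map_zero]
  refine hσ.nondeg (π x) _ fun w => ?_
  obtain ⟨v, rfl⟩ := (h.dif_pi_bij x).2 w
  rw [← h.presForm t, hu']
  simp

theorem dif_H (hH : ContMDiff 𝓘(ℝ, E) 𝓘(ℝ, ℝ) ∞ H) (t : Fin k → ℝ) (x : N) (v : E) :
    dif E ℝ H (π (φ t x)) (dif E E (fun y => π (φ t y)) x v) =
      dif E ℝ (fun y => H (π y)) x v := by
  have := dif_comp (g := H) (f := fun y => π (φ t y)) (x := x) (hH.mdifferentiableAt (by simp))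
    ((h.sm_t t).mdifferentiableAt (by simp))
  simp only [h.presH] at this
  rw [this]; rfl

theorem dif_H_ne (hH : ContMDiff 𝓘(ℝ, E) 𝓘(ℝ, ℝ) ∞ H) (hY : IsTransverseLiouville σ H c Y)
    {x : N} (hx : H (π x) = c) : dif E ℝ (fun y => H (π y)) x ≠ 0 := by
  obtain ⟨U, -, -, -, hT⟩ := hY
  intro h0
  obtain ⟨v, hv⟩ := (h.dif_pi_bij x).2 (Y (π x))
  apply hT _ hx
  have := dif_comp (g := H) (f := π) (x := x) (hH.mdifferentiableAt (by simp))
    (h.sm_pi.mdifferentiableAt (by simp))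
  rw [← hv]
  exact (congrArg (fun L : E →L[ℝ] ℝ => L v) this).symm.trans (by rw [h0]; rfl)

theorem crit [FiniteDimensional ℝ E] (hσ : IsSymplectic σ) (hH : ContMDiff 𝓘(ℝ, E) 𝓘(ℝ, ℝ) ∞ H)
    (hX : ∀ p v, σ p (XH p) v = -dif E ℝ H p v) (hY : IsTransverseLiouville σ H c Y)
    {x : N} (hx : H (π x) = c) {η : Fin k → ℝ} (hη : η ≠ 0)
    (hc : ∀ e, dif E ℝ (fun y => H (π y)) x e = 0 →
      σ (π x) (dif E E π x (gen E φ x η)) (dif E E π x e) = 0) :
    ∃ a : ℝ, a ≠ 0 ∧ ∀ t, dif (Fin k → ℝ) E (fun s => π (φ s x)) t η = a • XH (π (φ t x)) := by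
  set L := dif E ℝ (fun y => H (π y)) x with hL
  obtain ⟨v₀, hv₀⟩ : ∃ v, L v ≠ 0 := by
    by_contra hn; push Not at hn
    exact h.dif_H_ne hH hY hx (ContinuousLinearMap.ext hn)
  set a := -σ (π x) (dif E E π x (gen E φ x η)) (dif E E π x v₀) / L v₀ with ha
  have h1 : ∀ v, σ (π x) (dif E E π x (gen E φ x η)) (dif E E π x v) = -a * L v := by
    intro v
    have := hc (v - (L v / L v₀) • v₀) (by simp [hv₀])
    simp only [map_sub, map_smul, smul_eq_mul] at this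
    rw [ha]; field_simp at this ⊢; linarith
  have h2 : ∀ t, dif (Fin k → ℝ) E (fun s => π (φ s x)) t η = a • XH (π (φ t x)) := by
    intro t
    rw [← sub_eq_zero]
    refine hσ.nondeg (π (φ t x)) _ fun w => ?_
    obtain ⟨v, rfl⟩ := h.dif_t_surj hσ t x w
    rw [map_sub, map_smul, _root_.sub_apply, _root_.smul_apply, hX,
      h.dif_orbit, ContinuousLinearMap.comp_apply, h.presForm, h1, h.dif_H hH, smul_eq_mul]
    ring
  refine ⟨a, fun h0 => hη ?_, h2⟩
  have h3 := h2 0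
  rw [h0, zero_smul, h.dif_orbit, ContinuousLinearMap.comp_apply] at h3
  simp only [h.zero] at h3
  apply h.locallyFree x hx
  rw [map_zero]
  apply (h.dif_pi_bij x).1
  rw [map_zero]; exact h3

theorem orbit {x : N} (hx : H (π x) = c) {ξ : Fin k → ℤ} {s a : ℝ} (hs : s ≠ 0) (ha : a ≠ 0)
    (hc : ∀ t, dif (Fin k → ℝ) E (fun s => π (φ s x)) t (s • rv ξ) = a • XH (π (φ t x))) :
    HasOrbit E H c XH := by
  refine ⟨fun τ => π (φ (τ • (a⁻¹ • s • rv ξ)) x), fun τ => ?_, fun τ => by rw [h.presH, hx],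
    |a / s|, abs_pos.2 (div_ne_zero ha hs), fun τ => ?_⟩
  · have d1 : HasFDerivAt (fun τ : ℝ => τ • (a⁻¹ • s • rv ξ))
        ((1 : ℝ →L[ℝ] ℝ).smulRight (a⁻¹ • s • rv ξ)) τ := (hasFDerivAt_id τ).smul_const _
    have d2 := (hasMF_dif ((h.sm_px x).mdifferentiableAt (x := τ • (a⁻¹ • s • rv ξ))
      (by simp))).comp τ d1.hasMFDerivAt
    refine d2.congr_mfderiv ?_
    refine ContinuousLinearMap.ext fun (r : ℝ) => ?_
    show dif (Fin k → ℝ) E (fun s => π (φ s x)) _ ((r : ℝ) • (a⁻¹ • s • rv ξ)) =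
      (r : ℝ) • XH _
    rw [map_smul, map_smul, hc, smul_smul a⁻¹, inv_mul_cancel₀ ha, one_smul]
  · simp only
    rw [add_smul, add_comm]
    rcases abs_choice (a / s) with h1 | h1
    · have : |a / s| • a⁻¹ • s • rv ξ = rv ξ := by
        rw [h1, smul_smul, smul_smul]; field_simp; simp
      rw [this, h.per]
    · have : |a / s| • a⁻¹ • s • rv ξ = rv (-ξ) := by
        rw [h1, smul_smul, smul_smul]
        have : -(a / s) * a⁻¹ * s = -1 := by field_simp
        rw [this]; funext i; simp [rv]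
      rw [this, h.per]

variable [IsManifold 𝓘(ℝ, E) ∞ M] [IsManifold 𝓘(ℝ, E) ∞ N]

theorem crit_ne (hσ : IsSymplectic σ) (hX : ∀ p v, σ p (XH p) v = -dif E ℝ H p v)
    (hY : IsTransverseLiouville σ H c Y) {x : N} (hx : H (π x) = c) {η : Fin k → ℝ} {a : ℝ}
    (ha : a ≠ 0) (hc : ∀ t, dif (Fin k → ℝ) E (fun s => π (φ s x)) t η = a • XH (π (φ t x))) :
    Mom σ Y π φ x η ≠ 0 := by
  rw [h.Mom_apply hσ hY hx]
  refine avg_ne_zero ((h.Fm_cont hσ hY hx).clm_apply continuous_const) fun t => ?_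
  obtain ⟨U, -, -, -, hT⟩ := hY
  simp only [Fm, ContinuousLinearMap.comp_apply, hc, map_smul, smul_eq_mul]
  rw [hσ.skew, hX, neg_neg]
  exact mul_ne_zero ha (hT _ (by rw [h.presH, hx]))

omit [IsManifold 𝓘(ℝ, E) ∞ M] in
theorem H_strict (hH : ContMDiff 𝓘(ℝ, E) 𝓘(ℝ, ℝ) ∞ H) (x : N) :
    HasStrictFDerivAt ((fun y => H (π y)) ∘ (chartAt E x).symm) (dif E ℝ (fun y => H (π y)) x)
      (chartAt E x x) := by
  have hz := (chartAt E x).map_source (mem_chart_source E x)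
  have s1 : ContMDiff 𝓘(ℝ, E) 𝓘(ℝ, ℝ) ∞ fun y => H (π y) := hH.comp h.sm_pi
  have s2 : ContDiffAt ℝ ∞ ((fun y => H (π y)) ∘ (chartAt E x).symm) (chartAt E x x) :=
    (s1.contMDiffAt.comp _ (chart_symm_smooth x hz)).contDiffAt
  have e := dif_comp (g := fun y => H (π y)) (f := (chartAt E x).symm) (x := chartAt E x x)
    (s1.mdifferentiableAt (by simp)) ((chart_symm_smooth x hz).mdifferentiableAt (by simp))
  rw [dif_fderiv, (chartAt E x).left_inv (mem_chart_source E x)] at e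
  have e2 : fderiv ℝ ((fun y => H (π y)) ∘ (chartAt E x).symm) (chartAt E x x) =
      dif E ℝ (fun y => H (π y)) x := by
    refine e.trans (ContinuousLinearMap.ext fun v => ?_)
    rw [ContinuousLinearMap.comp_apply, dif_chart_symm_self]
  rw [← e2]
  exact s2.hasStrictFDerivAt (by simp)

theorem mu_strict (hσ : IsSymplectic σ) (hY : IsTransverseLiouville σ H c Y) {x : N}
    (hx : H (π x) = c) : ∃ D : E →L[ℝ] (Fin k → ℝ),
      HasStrictFDerivAt (mu σ Y π φ ∘ (chartAt E x).symm) D (chartAt E x x) ∧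
      ∀ v η, η ⬝ᵥ D v = -σ (π x) (dif E E π x (gen E φ x η)) (dif E E π x v) := by
  obtain ⟨D, h1, h2⟩ := h.Mom_deriv hσ hY hx
  let T : ((Fin k → ℝ) →L[ℝ] ℝ) →L[ℝ] (Fin k → ℝ) :=
    ContinuousLinearMap.pi fun i => ContinuousLinearMap.apply ℝ ℝ (Pi.single i 1)
  refine ⟨T.comp D, T.hasStrictFDerivAt.comp _ h1, fun v η => ?_⟩
  rw [← h2]
  exact dot_single (D v) η

theorem mu_cont (hσ : IsSymplectic σ) (hY : IsTransverseLiouville σ H c Y) :
    Continuous fun x : {x // H (π x) = c} => mu σ Y π φ x.1 := by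
  refine continuous_iff_continuousAt.2 fun x => ?_
  obtain ⟨D, h1, -⟩ := h.mu_strict hσ hY x.2
  have h2 : ContinuousAt (fun y => (mu σ Y π φ ∘ (chartAt E x.1).symm) (chartAt E x.1 y)) x.1 :=
    ContinuousAt.comp (f := chartAt E x.1) h1.continuousAt ((chartAt E x.1).continuousAt (mem_chart_source E _))
  have h3 : ContinuousAt (mu σ Y π φ) x.1 := by
    refine h2.congr ?_
    filter_upwards [chart_source_mem_nhds E x.1] with y hy
    simp [(chartAt E x.1).left_inv hy]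
  exact ContinuousAt.comp h3 continuous_subtype_val.continuousAt

theorem box_or [FiniteDimensional ℝ E] (hσ : IsSymplectic σ) (hH : ContMDiff 𝓘(ℝ, E) 𝓘(ℝ, ℝ) ∞ H)
    (hX : ∀ p v, σ p (XH p) v = -dif E ℝ H p v) (hY : IsTransverseLiouville σ H c Y)
    (x : {x // H (π x) = c}) {η : Fin k → ℝ} (hη : η ≠ 0) :
    Box (fun x : {x // H (π x) = c} => mu σ Y π φ x.1) x η ∨
    ∃ a : ℝ, a ≠ 0 ∧ ∀ t, dif (Fin k → ℝ) E (fun s => π (φ s x)) t η = a • XH (π (φ t x)) := by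
  have := FiniteDimensional.complete ℝ E
  by_cases hc : ∀ e, dif E ℝ (fun y => H (π y)) x e = 0 →
      σ (π x) (dif E E π x (gen E φ x η)) (dif E E π x e) = 0
  · exact Or.inr (h.crit hσ hH hX hY x.2 hη hc)
  left
  push Not at hc
  obtain ⟨e, he, he'⟩ := hc
  obtain ⟨D, h1, h2⟩ := h.mu_strict hσ hY x.2
  exact level_box (f := fun y => H (π y)) (chartAt E x.1) x (mem_chart_source E _)
    (h.H_strict hH x) (h.dif_H_ne hH hY x.2) h1 he (by rw [h2]; exact neg_ne_zero.2 he')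

omit [IsManifold 𝓘(ℝ, E) ∞ M] in
theorem locConn [FiniteDimensional ℝ E] (hH : ContMDiff 𝓘(ℝ, E) 𝓘(ℝ, ℝ) ∞ H)
    (hY : IsTransverseLiouville σ H c Y) : LocallyConnectedSpace {x // H (π x) = c} := by
  have := FiniteDimensional.complete ℝ E
  exact level_locallyConnected (f := fun y => H (π y)) fun y =>
    ⟨chartAt E y.1, _, mem_chart_source E _, h.H_strict hH y, h.dif_H_ne hH hY y.2⟩

end IsTwistedTorus

end Pool.Agent.P.MP_e3ee0c_gt
end

-- part Pool.Agent.P.MP_e3ee0c_gt.Main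
section

open Manifold Set Filter Topology Matrix MeasureTheory
open scoped ContDiff

namespace Pool.Agent.P.MP_e3ee0c_gt

theorem sheet_of_localHomeo {N M : Type*} [TopologicalSpace N] [T2Space N] [LocallyCompactSpace N]
    [PseudoMetricSpace M] {π : N → M} (hπ : IsLocalHomeomorph π) (y : N) {V : Set N}
    (hV : V ∈ 𝓝 y) : ∃ r > 0, ∀ᶠ y' in 𝓝 y, ∀ C, IsPreconnected C → y' ∈ C →
      (∀ a ∈ C, ∀ b ∈ C, dist (π a) (π b) < r) → C ⊆ V := by
  obtain ⟨e, hy, he⟩ := hπ y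
  obtain ⟨C₀, h1, h2, h3⟩ := local_compact_nhds (inter_mem hV (e.open_source.mem_nhds hy))
  have h4 : π '' interior C₀ ∈ 𝓝 (π y) :=
    (hπ.isOpenMap _ isOpen_interior).mem_nhds ⟨y, mem_interior_iff_mem_nhds.2 h1, rfl⟩
  obtain ⟨r, hr, hrs⟩ := Metric.mem_nhds_iff.1 h4
  refine ⟨r / 2, half_pos hr, ?_⟩
  filter_upwards [interior_mem_nhds.2 h1, hπ.continuous.continuousAt.preimage_mem_nhds
    (Metric.ball_mem_nhds (π y) (half_pos hr))] with y' h5 h6 C c1 c2 c3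
  have h7 : C ⊆ interior C₀ := by
    refine c1.subset_left_of_subset_union isOpen_interior h3.isClosed.isOpen_compl
      (disjoint_compl_right.mono_left interior_subset) ?_ ⟨y', c2, h5⟩
    intro a ha
    by_cases h8 : a ∈ C₀
    · left
      have h9 : π a ∈ Metric.ball (π y) r := by
        have := c3 a ha y' c2
        have h10 : dist (π y') (π y) < r / 2 := h6
        rw [Metric.mem_ball]
        linarith [dist_triangle (π a) (π y') (π y)]
      obtain ⟨w, hw, hwa⟩ := hrs h9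
      rw [he] at hwa
      exact e.injOn (h2 (interior_subset hw)).2 (h2 h8).2 hwa ▸ hw
    · exact Or.inr h8
  exact fun a ha => (h2 (interior_subset (h7 ha))).1

variable {E : Type*} [NormedAddCommGroup E] [NormedSpace ℝ E] [FiniteDimensional ℝ E]
  {M N : Type*} [TopologicalSpace M] [TopologicalSpace N] [ChartedSpace E M] [ChartedSpace E N]
  {σ : M → E →L[ℝ] E →L[ℝ] ℝ} {H : M → ℝ} {c : ℝ} {π : N → M} {Γ : Type*} [Group Γ]
  [MulAction Γ N] {k : ℕ} {ρ : Γ →* GL (Fin k) ℤ} {φ : (Fin k → ℝ) → N → N} {Y XH : M → E}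

namespace IsTwistedTorus

variable (h : IsTwistedTorus σ H c π Γ ρ φ)
include h

theorem core (hc : IsCompact (H ⁻¹' {c})) : ∃ K W : Set N, IsCompact K ∧ IsOpen W ∧ W ⊆ K ∧
    ∀ x, H (π x) = c → ∃ γ : Γ, γ • x ∈ W := by
  have := FiniteDimensional.proper_real E
  have := ChartedSpace.locallyCompactSpace E N
  choose f hf using h.covers
  choose C hC hC' using fun x : N => exists_compact_mem_nhds x
  obtain ⟨t, ht⟩ := hc.elim_nhds_subcover' (fun p hp => π '' interior (C (f p hp))) fun p hp =>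
    (h.localDiffeo.isOpenMap _ isOpen_interior).mem_nhds
      ⟨f p hp, mem_interior_iff_mem_nhds.2 (hC' _), hf p hp⟩
  refine ⟨⋃ p ∈ t, C (f p.1 p.2), ⋃ p ∈ t, interior (C (f p.1 p.2)),
    t.isCompact_biUnion fun p _ => hC _, isOpen_biUnion fun p _ => isOpen_interior,
    iUnion₂_mono fun p _ => interior_subset, fun x hx => ?_⟩
  obtain ⟨p, hp, w, hw, hwx⟩ := mem_iUnion₂.1 (ht (show π x ∈ H ⁻¹' {c} from hx))
  obtain ⟨γ, rfl⟩ := h.transitive x w hwx.symm
  exact ⟨γ, mem_biUnion hp hw⟩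

omit [FiniteDimensional ℝ E] in
theorem deckHomeo (γ : Γ) :
    ∃ e : {x // H (π x) = c} ≃ₜ {x // H (π x) = c}, ∀ x, (e x).1 = γ • x.1 := by
  have hm : ∀ (g : Γ) (x : {x // H (π x) = c}), H (π (g • x.1)) = c := fun g x =>
    (congrArg H (h.deck g x.1)).trans x.2
  let f : Γ → {x // H (π x) = c} → {x // H (π x) = c} := fun g x => ⟨g • x.1, hm g x⟩
  have hf : ∀ g, Continuous (f g) := fun g =>
    ((h.deckCont g).comp continuous_subtype_val).subtype_mk (hm g)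
  exact ⟨⟨⟨f γ, f γ⁻¹, fun x => Subtype.ext (inv_smul_smul γ x.1),
    fun x => Subtype.ext (smul_inv_smul γ x.1)⟩, hf γ, hf γ⁻¹⟩, fun _ => rfl⟩

variable [IsManifold 𝓘(ℝ, E) ∞ M] [IsManifold 𝓘(ℝ, E) ∞ N] [T2Space M] [SecondCountableTopology M]
  [T2Space N]

theorem superlevel (hσ : IsSymplectic σ) (hH : ContMDiff 𝓘(ℝ, E) 𝓘(ℝ, ℝ) ∞ H)
    (hX : ∀ p v, σ p (XH p) v = -dif E ℝ H p v) (hY : IsTransverseLiouville σ H c Y)
    (hc : IsCompact (H ⁻¹' {c})) (hne : (H ⁻¹' {c}).Nonempty) (no : ¬ HasOrbit E H c XH)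
    {ξ : Fin k → ℤ} (hξ : ξ ≠ 0) (a : ℝ) :
    {x : {x // H (π x) = c} | a < rv ξ ⬝ᵥ mu σ Y π φ x.1}.Nonempty ∧
      IsPreconnected {x : {x // H (π x) = c} | a < rv ξ ⬝ᵥ mu σ Y π φ x.1} := by
  have := FiniteDimensional.proper_real E
  have := ChartedSpace.locallyCompactSpace E N
  have := ChartedSpace.locallyCompactSpace E M
  let := TopologicalSpace.metrizableSpaceMetric M
  have := h.locConn hH hY
  have : PreconnectedSpace {x // H (π x) = c} := Subtype.preconnectedSpace h.connected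
  have : Nonempty {x // H (π x) = c} := by
    obtain ⟨p, hp⟩ := hne
    obtain ⟨x, rfl⟩ := h.covers p hp
    exact ⟨⟨x, hp⟩⟩
  obtain ⟨K, W, hK, -, hWK, hW⟩ := h.core hc
  have hcl : IsClosed {x | H (π x) = c} :=
    isClosed_eq (hH.continuous.comp h.sm_pi.continuous) continuous_const
  refine pass (p := fun x : {x // H (π x) = c} => π x.1) (K := Subtype.val ⁻¹' K)
    (h.sm_pi.continuous.comp continuous_subtype_val) (h.mu_cont hσ hY)
    (hcl.isClosedEmbedding_subtypeVal.isCompact_preimage hK) ?_ ?_ ?_ ?_ a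
  · intro y V hV
    obtain ⟨V₁, h1, h2⟩ := (mem_nhds_subtype _ _ _).1 hV
    obtain ⟨r, hr, h3⟩ := sheet_of_localHomeo h.localDiffeo.isLocalHomeomorph y.1 h1
    refine ⟨r, hr, ?_⟩
    filter_upwards [continuous_subtype_val.continuousAt.eventually h3] with y' h4 z hz
    obtain ⟨C, c1, c2, c3, c4⟩ := hz
    refine h2 (h4 _ (c1.image _ continuous_subtype_val.continuousOn) (mem_image_of_mem _ c2) ?_
      (mem_image_of_mem _ c3))
    rintro _ ⟨a, ha, rfl⟩ _ ⟨b, hb, rfl⟩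
    exact c4 a ha b hb
  · intro y η hη h0
    rcases h.box_or hσ hH hX hY y hη with h1 | ⟨b, hb, h1⟩
    · exact h1
    · exact absurd (by rw [← dot_mu]; exact h0) (h.crit_ne hσ hX hY y.2 hb h1)
  · intro y ζ s hζ hs
    have h0 : s • rv ζ ≠ 0 := smul_ne_zero hs (by
      intro h1
      have := one_le_norm_rv hζ
      rw [h1, norm_zero] at this
      linarith)
    rcases h.box_or hσ hH hX hY y h0 with h1 | ⟨b, hb, h1⟩
    · exact h1
    · exact absurd (h.orbit y.2 hs hb h1) no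
  · intro x
    obtain ⟨γ, hγ⟩ := hW x.1 x.2
    obtain ⟨e, he⟩ := h.deckHomeo γ
    refine ⟨e, (ρ γ : Matrix (Fin k) (Fin k) ℤ) *ᵥ ξ, fun h0 => hξ ?_, hWK (he x ▸ hγ),
      fun z => by simp only [he, h.deck], fun z => ?_⟩
    · rw [← one_mulVec ξ, ← Units.inv_mul (ρ γ), ← mulVec_mulVec, h0, mulVec_zero]
    · rw [dot_mu, dot_mu, ← rv_mulVec, he]
      exact h.Mom_equiv hσ hY z.2 γ _

theorem superlevelQ (hσ : IsSymplectic σ) (hH : ContMDiff 𝓘(ℝ, E) 𝓘(ℝ, ℝ) ∞ H)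
    (hX : ∀ p v, σ p (XH p) v = -dif E ℝ H p v) (hY : IsTransverseLiouville σ H c Y)
    (hc : IsCompact (H ⁻¹' {c})) (hne : (H ⁻¹' {c}).Nonempty) (no : ¬ HasOrbit E H c XH)
    {ξ : Fin k → ℚ} (hξ : ξ ≠ 0) (a : ℝ) :
    {x : {x // H (π x) = c} | a < Mom σ Y π φ x.1 fun i => ξ i}.Nonempty ∧
      IsPreconnected {x : {x // H (π x) = c} | a < Mom σ Y π φ x.1 fun i => ξ i} := by
  obtain ⟨n, hn, ζ, hζ⟩ := Dat.exists_denom ξ
  have hζ0 : ζ ≠ 0 := by
    rintro rfl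
    exact smul_ne_zero hn.ne' hξ (hζ.trans (by funext i; simp))
  have h1 := h.superlevel hσ hH hX hY hc hne no hζ0 (n * a)
  have h2 : rv ζ = (n : ℝ) • fun i => (ξ i : ℝ) := by
    funext i
    have := congrFun hζ i
    simp only [Pi.smul_apply, smul_eq_mul, rv] at this ⊢
    exact_mod_cast this.symm
  have hn' : (0 : ℝ) < n := by exact_mod_cast hn
  simpa only [dot_mu, h2, map_smul, smul_eq_mul, mul_lt_mul_iff_right₀ hn'] using h1

theorem ends (hσ : IsSymplectic σ) (hH : ContMDiff 𝓘(ℝ, E) 𝓘(ℝ, ℝ) ∞ H)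
    (hX : ∀ p v, σ p (XH p) v = -dif E ℝ H p v) (hY : IsTransverseLiouville σ H c Y)
    (hc : IsCompact (H ⁻¹' {c})) (hne : (H ⁻¹' {c}).Nonempty) (hk : 0 < k) {G : Type*} [Group G]
    {q : Γ →* G} (hq : Function.Surjective q) {ρ' : G →* GL (Fin k) ℤ} (hρ : ∀ γ, ρ γ = ρ' (q γ))
    (hΓ : ¬ OneEnded G) :
    HasOrbit E H c XH := by
  by_contra no
  have sup := fun ξ hξ => h.superlevelQ hσ hH hX hY hc hne no (ξ := ξ) hξ
  obtain ⟨K, W, hK, hWo, hWK, hW⟩ := h.core hc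
  have hcl : IsClosed {x | H (π x) = c} :=
    isClosed_eq (hH.continuous.comp h.sm_pi.continuous) continuous_const
  let act : G → (Fin k → ℚ) →ₗ[ℚ] (Fin k → ℚ) := fun g =>
    Matrix.toLin' ((ρ' g⁻¹ : Matrix (Fin k) (Fin k) ℤ).map (Int.cast : ℤ → ℚ))
  have hev : ∀ (y : N), H (π y) = c → ∀ (g : Γ) (ξ : Fin k → ℚ),
      ev (mu σ Y π φ y) (act (q g) ξ) = Mom σ Y π φ (g • y) fun i => ξ i := by
    intro y hy g ξ
    have e1 := h.Mom_equiv hσ hY (x := g • y) (by rw [h.deck, hy]) g⁻¹ fun i => ξ i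
    rw [inv_smul_smul] at e1
    rw [← e1, ← dot_mu, ev_apply, dotProduct_comm]
    refine Finset.sum_congr rfl fun i _ => ?_
    simp [act, mulVec, dotProduct, hρ]
  have hsurj : ∀ x, H (π x) = c → ∃ (g : Γ) (y : N), y ∈ W ∧ H (π y) = c ∧ x = g • y := by
    intro x hx
    obtain ⟨γ, hγ⟩ := hW x hx
    exact ⟨γ⁻¹, γ • x, hγ, by rw [h.deck, hx], (inv_smul_smul γ x).symm⟩
  let D : Dat k G :=
    { act := act
      Q := mu σ Y π φ '' {y | y ∈ W ∧ H (π y) = c}
      one := fun ξ => by simp [act]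
      mul := fun a b ξ => by
        simp only [act, toLin'_apply, mulVec_mulVec, _root_.mul_inv_rev, map_mul, Units.val_mul,
          Matrix.map_mul_intCast]
      int := fun g ξ => ⟨(ρ' g⁻¹ : Matrix (Fin k) (Fin k) ℤ) *ᵥ ξ, by
        funext i; simp [act, mulVec, dotProduct]⟩
      bdd := by
        obtain ⟨R, hR⟩ := (hcl.isClosedEmbedding_subtypeVal.isCompact_preimage
          hK).exists_bound_of_continuousOn (h.mu_cont hσ hY).continuousOn
        refine ⟨R, ?_⟩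
        rintro _ ⟨y, hy, rfl⟩
        exact hR ⟨y, hy.2⟩ (hWK hy.1)
      span := by
        intro η hη
        by_contra hn
        push Not at hn
        have h0 : ∀ x, H (π x) = c → η ⬝ᵥ mu σ Y π φ x = 0 := by
          intro x hx
          obtain ⟨g, y, h1, h2, rfl⟩ := hsurj x hx
          rw [← hn (q g) _ ⟨y, ⟨h1, h2⟩, rfl⟩]
          refine Finset.sum_congr rfl fun i _ => ?_
          rw [hev y h2, mu]
          congr 2
          funext j
          simp [Pi.single_apply, apply_ite]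
        obtain ⟨p, hp⟩ := hne
        obtain ⟨x, rfl⟩ := h.covers p hp
        rcases h.box_or hσ hH hX hY ⟨x, hp⟩ hη with h1 | ⟨b, hb, h1⟩
        · obtain ⟨V, -, -, h2⟩ := h1 univ univ_mem
          obtain ⟨z, -, hz⟩ := h2.self_of_nhds.1
          have h3 : η ⬝ᵥ mu σ Y π φ x < η ⬝ᵥ mu σ Y π φ z.1 := hz
          rw [h0 x hp, h0 z z.2] at h3
          exact lt_irrefl _ h3
        · exact h.crit_ne hσ hX hY hp hb h1 (by rw [← dot_mu]; exact h0 x hp) }
  have unb : ∀ ξ, ξ ≠ 0 → ¬ D.Bdd univ ξ := by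
    rintro ξ hξ ⟨C, hC⟩
    obtain ⟨x, hx⟩ := (sup ξ hξ C).1
    obtain ⟨g, y, h1, h2, h3⟩ := hsurj x.1 x.2
    have := hC (q g) (mem_univ _) _ ⟨y, ⟨h1, h2⟩, rfl⟩
    rw [show D.act = act from rfl, hev y h2, ← h3] at this
    exact not_lt.2 this hx
  apply hΓ
  refine ⟨?_, fun A hA => ?_⟩
  · by_contra hf
    have : Finite G := not_infinite_iff_finite.1 hf
    exact unb (fun _ => 1) (fun h0 => by simpa using congrFun h0 ⟨0, hk⟩)
      (Dat.Bdd.of_finite finite_univ _)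
  by_contra hcon
  push Not at hcon
  refine D.false_of_ends hk unb hA hcon.1 hcon.2 fun ξ hξ => ?_
  have hF := h.proper.finite_disjoint_inter_image hK hK
  have hB : (⋃ s ∈ {γ : Γ | ((γ • ·) '' K ∩ K).Nonempty},
      (fun a => a * (q s)⁻¹) '' ((fun a => a * q s) '' A \ A)).Finite :=
    hF.biUnion fun s _ => (hA (q s)).image _
  obtain ⟨C, hC⟩ := Dat.Bdd.of_finite (D := D) hB ξ
  let XT : Set G → Set {x // H (π x) = c} := fun T => ⋃ a ∈ q ⁻¹' T, {x | a⁻¹ • x.1 ∈ W}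
  have hXT : ∀ T, IsOpen (XT T) := fun T => isOpen_biUnion fun a _ =>
    hWo.preimage ((h.deckCont a⁻¹).comp continuous_subtype_val)
  have hb : ∀ T, ¬ D.Bdd T ξ →
      ({x : {x // H (π x) = c} | C < Mom σ Y π φ x.1 fun i => ξ i} ∩ XT T).Nonempty := by
    intro T hT
    by_contra hn
    refine hT ⟨C, ?_⟩
    rintro a ha _ ⟨y, hy, rfl⟩
    obtain ⟨a, rfl⟩ := hq a
    rw [show D.act = act from rfl, hev y hy.2]
    by_contra hl
    exact hn ⟨⟨a • y, by rw [h.deck, hy.2]⟩, not_le.1 hl, mem_biUnion ha (by simpa using hy.1)⟩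
  by_contra hn
  push Not at hn
  obtain ⟨x, hx, h1, h2⟩ := (sup ξ hξ C).2 _ _ (hXT A) (hXT Aᶜ) (fun x _ => by
    obtain ⟨γ, hγ⟩ := hW x.1 x.2
    by_cases hm : q γ⁻¹ ∈ A
    · exact Or.inl (mem_biUnion hm (by simpa using hγ))
    · exact Or.inr (mem_biUnion hm (by simpa using hγ))) (hb _ hn.1) (hb _ hn.2)
  obtain ⟨a, ha, h3⟩ := mem_iUnion₂.1 h1
  obtain ⟨b, hb', h4⟩ := mem_iUnion₂.1 h2
  have h5 := hC (q a) (mem_biUnion (x := a⁻¹ * b) ?_
    ⟨q b, ⟨⟨q a, ha, by simp⟩, hb'⟩, by simp⟩) _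
    ⟨a⁻¹ • x.1, ⟨h3, by rw [h.deck, x.2]⟩, rfl⟩
  · rw [show D.act = act from rfl, hev _ (by rw [h.deck, x.2]), smul_inv_smul] at h5
    exact not_lt.2 h5 hx
  · exact ⟨a⁻¹ • x.1, ⟨b⁻¹ • x.1, hWK h4, by simp [mul_smul]⟩, hWK h3⟩

theorem onesided (hσ : IsSymplectic σ) (hH : ContMDiff 𝓘(ℝ, E) 𝓘(ℝ, ℝ) ∞ H)
    (hX : ∀ p v, σ p (XH p) v = -dif E ℝ H p v) (hY : IsTransverseLiouville σ H c Y)
    (hc : IsCompact (H ⁻¹' {c})) (hne : (H ⁻¹' {c}).Nonempty) {ξ : Fin k → ℤ} (hξ : ξ ≠ 0) {b : ℝ}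
    (hb : ∀ x, H (π x) = c →
      b ≤ σ (π x) (Y (π x)) (dif (Fin k → ℝ) E (fun t => π (φ t x)) 0 fun i => (ξ i : ℝ))) :
    HasOrbit E H c XH := by
  by_contra no
  obtain ⟨x, hx⟩ := (h.superlevel hσ hH hX hY hc hne no (neg_ne_zero.2 hξ) (-b)).1
  have h1 : rv (-ξ) = -rv ξ := by funext i; simp [rv]
  have h2 : rv ξ ⬝ᵥ mu σ Y π φ x.1 < b := by
    have h3 : -b < rv (-ξ) ⬝ᵥ mu σ Y π φ x.1 := hx
    rw [h1, neg_dotProduct] at h3
    linarith
  rw [dot_mu, h.Mom_apply hσ hY x.2] at h2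
  have : IsFiniteMeasure (volume.restrict (cube k)) := ⟨by simpa using cube_fin⟩
  have h4 : ∫ _ in cube k, b ≤ ∫ t in cube k, Fm σ Y π φ x.1 t (rv ξ) := by
    refine integral_mono (integrable_const _)
      (integrableOn_cube ((h.Fm_cont hσ hY x.2).clm_apply continuous_const)) fun t => ?_
    have h5 := hb (φ t x.1) (by rw [h.presH, x.2])
    have d0 : HasFDerivAt (fun s : Fin k → ℝ => s + t) (ContinuousLinearMap.id ℝ _) 0 :=
      (hasFDerivAt_id _).add_const t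
    have e := dif_comp (g := fun s => π (φ s x.1)) (f := fun s : Fin k → ℝ => s + t) (x := 0)
      ((h.sm_px _).mdifferentiableAt (by simp)) d0.differentiableAt.mdifferentiableAt
    rw [dif_fderiv, d0.fderiv, zero_add] at e
    simp only [h.add] at e
    rw [e] at h5
    exact h5
  simp only [integral_const, smul_eq_mul, measureReal_restrict_apply_univ, cube_real, one_mul] at h4
  linarith

end IsTwistedTorus

end Pool.Agent.P.MP_e3ee0c_gt
end
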